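import Pool.Agent.Helper16.GT.Stmt

set_option autoImplicit false
set_option linter.unusedSectionVars false

/-! Project TT, block D1: commutative algebra of prime divisors. -/

namespace Pool.Agent.TT

open Pool.Agent.Helper16 Pool.Agent.Helper16.BB Pool.Agent.Helper16.GT

variable {K σ : Type} [Field K] [Finite σ] {J : Ideal (MvPolynomial σ K)}

/-! ### Homogeneous components -/

theorem dord_hc_mul (p F : MvPolynomial σ K) {m : ℕ} (hF : F.IsHomogeneous m) (c : ℕ) :
    MvPolynomial.homogeneousComponent c (p * F) =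
      if m ≤ c then MvPolynomial.homogeneousComponent (c - m) p * F else 0 := by
  have h1 : p * F = ∑ i ∈ Finset.range (p.totalDegree + 1),
      MvPolynomial.homogeneousComponent i p * F := by
    rw [← Finset.sum_mul, MvPolynomial.sum_homogeneousComponent]
  have h2 : MvPolynomial.homogeneousComponent c (p * F) =
      ∑ i ∈ Finset.range (p.totalDegree + 1),
        if c = i + m then MvPolynomial.homogeneousComponent i p * F else 0 := by
    rw [h1, map_sum]
    refine Finset.sum_congr rfl fun i _ => ?_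
    exact MvPolynomial.homogeneousComponent_of_mem
      (((MvPolynomial.homogeneousComponent_isHomogeneous i p).mul hF))
  rw [h2]
  split_ifs with hmc
  · by_cases hc : c - m < p.totalDegree + 1
    · rw [Finset.sum_eq_single (c - m)]
      · rw [if_pos (by omega)]
      · intro i _ hi
        rw [if_neg (by omega)]
      · intro hi
        exact absurd (Finset.mem_range.2 hc) hi
    · rw [MvPolynomial.homogeneousComponent_eq_zero (c - m) p (by omega), zero_mul]
      refine Finset.sum_eq_zero fun i hi => ?_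
      rw [Finset.mem_range] at hi
      rw [if_neg (by omega)]
  · refine Finset.sum_eq_zero fun i hi => ?_
    rw [if_neg (by omega)]

/-- A polynomial whose components are in the ideal is in the ideal. -/
theorem dord_of_comp {I : Ideal (MvPolynomial σ K)} {F : MvPolynomial σ K}
    (h : ∀ n, MvPolynomial.homogeneousComponent n F ∈ I) : F ∈ I := by
  rw [← MvPolynomial.sum_homogeneousComponent F]
  exact I.sum_mem fun i _ => h i

/-! ### The local ring at a prime, in terms of denominators -/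

/-- The contraction of the ideal generated by `c` in the local ring of `A / J` at `P`. -/
def dordI {A : Type*} [CommRing A] (J P : Ideal A) (hP : P.IsPrime) (c : A) : Ideal A where
  carrier := {y | ∃ g b, g ∉ P ∧ g * y - b * c ∈ J}
  zero_mem' := ⟨1, 0, fun h => hP.ne_top ((Ideal.eq_top_iff_one P).2 h), by simp⟩
  add_mem' := by
    rintro y1 y2 ⟨g1, b1, h1, h1'⟩ ⟨g2, b2, h2, h2'⟩
    refine ⟨g1 * g2, g2 * b1 + g1 * b2, fun h => (hP.mem_or_mem h).elim h1 h2, ?_⟩
    have h : g1 * g2 * (y1 + y2) - (g2 * b1 + g1 * b2) * c =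
        g2 * (g1 * y1 - b1 * c) + g1 * (g2 * y2 - b2 * c) := by ring
    rw [h]
    exact J.add_mem (J.mul_mem_left _ h1') (J.mul_mem_left _ h2')
  smul_mem' := by
    rintro r y ⟨g, b, h, h'⟩
    refine ⟨g, r * b, h, ?_⟩
    have h1 : g * (r • y) - r * b * c = r * (g * y - b * c) := by
      rw [smul_eq_mul]
      ring
    rw [h1]
    exact J.mul_mem_left _ h'

theorem mem_dordI {A : Type*} [CommRing A] {J P : Ideal A} {hP : P.IsPrime} {c y : A} :
    y ∈ dordI J P hP c ↔ ∃ g b, g ∉ P ∧ g * y - b * c ∈ J := Iff.rfl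

/-- `π` generates the maximal ideal: a power of `π` generates the power of the maximal ideal. -/
theorem dord_pow {A : Type*} [CommRing A] {J P : Ideal A} (hP : P.IsPrime) {π : A}
    (hπ : ∀ y ∈ P, ∃ g b, g ∉ P ∧ g * y - b * π ∈ J) (n : ℕ) :
    P ^ n ⊔ J ≤ dordI J P hP (π ^ n) := by
  have h1 : (1 : A) ∉ P := fun h => hP.ne_top ((Ideal.eq_top_iff_one P).2 h)
  refine sup_le ?_ ?_
  · induction n with
    | zero =>
      intro y _
      exact ⟨1, y, h1, by simp⟩
    | succ n ih =>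
      rw [pow_succ, Ideal.mul_le]
      intro r hr s hs
      obtain ⟨g1, b1, h2, h3⟩ := ih hr
      obtain ⟨g2, b2, h4, h5⟩ := hπ s hs
      refine ⟨g1 * g2, b1 * b2, fun h => (hP.mem_or_mem h).elim h2 h4, ?_⟩
      have h : g1 * g2 * (r * s) - b1 * b2 * π ^ (n + 1) =
          g2 * s * (g1 * r - b1 * π ^ n) + b1 * π ^ n * (g2 * s - b2 * π) := by ring
      rw [h]
      exact J.add_mem (J.mul_mem_left _ h3) (J.mul_mem_left _ h5)
  · intro y hy
    refine ⟨1, 0, h1, ?_⟩
    rw [one_mul, zero_mul, sub_zero]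
    exact hy

/-- Krull's intersection theorem. -/
theorem dord_krull {A : Type*} [CommRing A] [IsNoetherianRing A] {J P : Ideal A} (hJ : J.IsPrime)
    (hP : P.IsPrime) (hJP : J ≤ P) {π : A} (hπP : π ∈ P) (hπJ : π ∉ J) {F : A} (hF : F ∉ J) :
    ∃ n, F ∉ dordI J P hP (π ^ n) := by
  by_contra hcon
  push Not at hcon
  choose G a hG h using hcon
  have key : ∀ n, G (n + 1) * a n - G n * a (n + 1) * π ∈ J := by
    intro n
    have h1 : π ^ n * (G (n + 1) * a n - G n * a (n + 1) * π) ∈ J := by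
      have h2 : π ^ n * (G (n + 1) * a n - G n * a (n + 1) * π) =
          G n * (G (n + 1) * F - a (n + 1) * π ^ (n + 1)) -
            G (n + 1) * (G n * F - a n * π ^ n) := by ring
      rw [h2]
      exact J.sub_mem (J.mul_mem_left _ (h (n + 1))) (J.mul_mem_left _ (h n))
    rcases hJ.mem_or_mem h1 with h3 | h3
    · exact absurd (hJ.mem_of_pow_mem _ h3) hπJ
    · exact h3
  have hmono : ∀ n, dordI J P hP (a n) ≤ dordI J P hP (a (n + 1)) := by
    rintro n y ⟨g, b, h1, h2⟩
    refine ⟨G (n + 1) * g, b * G n * π, fun h => (hP.mem_or_mem h).elim (hG _) h1, ?_⟩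
    have h3 : G (n + 1) * g * y - b * G n * π * a (n + 1) =
        G (n + 1) * (g * y - b * a n) + b * (G (n + 1) * a n - G n * a (n + 1) * π) := by ring
    rw [h3]
    exact J.add_mem (J.mul_mem_left _ h2) (J.mul_mem_left _ (key n))
  obtain ⟨n, hn⟩ := monotone_stabilizes_iff_noetherian.mpr
    (inferInstance : IsNoetherian A A) ⟨fun n => dordI J P hP (a n), monotone_nat_of_le_succ hmono⟩
  have h1 : a (n + 1) ∈ dordI J P hP (a (n + 1)) :=
    ⟨1, 1, fun h => hP.ne_top ((Ideal.eq_top_iff_one P).2 h), by simp⟩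
  have h2 : dordI J P hP (a n) = dordI J P hP (a (n + 1)) := hn (n + 1) (Nat.le_succ n)
  rw [← h2] at h1
  obtain ⟨g, b, h3, h4⟩ := h1
  have h5 : a (n + 1) * (G (n + 1) * g - b * G n * π) ∈ J := by
    have h6 : a (n + 1) * (G (n + 1) * g - b * G n * π) =
        G (n + 1) * (g * a (n + 1) - b * a n) + b * (G (n + 1) * a n - G n * a (n + 1) * π) := by
      ring
    rw [h6]
    exact J.add_mem (J.mul_mem_left _ h4) (J.mul_mem_left _ (key n))
  rcases hJ.mem_or_mem h5 with h6 | h6
  · have h7 : G (n + 1) * F ∈ J := by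
      have h8 : G (n + 1) * F = (G (n + 1) * F - a (n + 1) * π ^ (n + 1)) +
          π ^ (n + 1) * a (n + 1) := by ring
      rw [h8]
      exact J.add_mem (h (n + 1)) (J.mul_mem_left _ h6)
    rcases hJ.mem_or_mem h7 with h8 | h8
    · exact hG _ (hJP h8)
    · exact hF h8
  · have h7 : G (n + 1) * g ∈ P := by
      have h8 : G (n + 1) * g = (G (n + 1) * g - b * G n * π) + b * G n * π := by ring
      rw [h8]
      exact P.add_mem (hJP h6) (P.mul_mem_left _ hπP)
    exact (hP.mem_or_mem h7).elim (hG _) h3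

/-- `π` is a uniformiser at the prime divisor `P`. -/
structure DUni (J P : Ideal (MvPolynomial σ K)) (π : MvPolynomial σ K) : Prop where
  prime : J.IsPrime
  primeP : P.IsPrime
  le : J ≤ P
  mem : π ∈ P
  nmem : π ∉ J
  gen : ∀ y ∈ P, ∃ g b, g ∉ P ∧ g * y - b * π ∈ J

theorem dord_exists (hJ : J.IsPrime) (hreg : RegOne J) (P : Ideal (MvPolynomial σ K))
    (hP : IsPD J P) : ∃ π, DUni J P π := by
  obtain ⟨π, hπ, h⟩ := hreg P hP
  have hgen : ∀ y ∈ P, ∃ g b, g ∉ P ∧ g * y - b * π ∈ J := by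
    intro y hy
    obtain ⟨g, hg, h1⟩ := h y hy
    obtain ⟨b, j, hj, h2⟩ := Ideal.mem_span_singleton_sup.1 h1
    refine ⟨g, b, hg, ?_⟩
    rw [← h2]
    have h3 : b * π + j - b * π = j := by ring
    rw [h3]
    exact hj
  refine ⟨π, hJ, hP.prime, hP.lt.le, hπ, ?_, hgen⟩
  intro hπJ
  refine hP.lt.not_ge fun y hy => ?_
  obtain ⟨g, b, hg, h1⟩ := hgen y hy
  have h2 : g * y ∈ J := by
    have h3 : g * y = (g * y - b * π) + b * π := by ring
    rw [h3]
    exact J.add_mem h1 (J.mul_mem_left _ hπJ)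
  rcases hJ.mem_or_mem h2 with h3 | h3
  · exact absurd (hP.lt.le h3) hg
  · exact h3

theorem DUni.set_bdd {P : Ideal (MvPolynomial σ K)} {π F : MvPolynomial σ K} (h : DUni J P π)
    (hF : F ∉ J) : BddAbove {n | ∃ G, G ∉ P ∧ G * F ∈ P ^ n ⊔ J} := by
  obtain ⟨n, hn⟩ := dord_krull h.prime h.primeP h.le h.mem h.nmem hF
  refine ⟨n, ?_⟩
  rintro m ⟨G, hG, h1⟩
  by_contra hmn
  apply hn
  obtain ⟨g, b, h2, h3⟩ := dord_pow h.primeP h.gen m h1
  refine ⟨g * G, b * π ^ (m - n), fun h4 => (h.primeP.mem_or_mem h4).elim h2 hG, ?_⟩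
  have h4 : π ^ (m - n) * π ^ n = π ^ m := by
    rw [← pow_add]
    congr 1
    omega
  have h5 : g * G * F - b * π ^ (m - n) * π ^ n = g * (G * F) - b * π ^ m := by
    rw [← h4]
    ring
  rw [h5]
  exact h3

theorem DUni.iff {P : Ideal (MvPolynomial σ K)} {π F : MvPolynomial σ K} (h : DUni J P π)
    (hF : F ∉ J) (n : ℕ) : (∃ G, G ∉ P ∧ G * F ∈ P ^ n ⊔ J) ↔ n ≤ ordP J P F := by
  have h0 : ({n | ∃ G, G ∉ P ∧ G * F ∈ P ^ n ⊔ J} : Set ℕ).Nonempty := by
    refine ⟨0, 1, fun h1 => h.primeP.ne_top ((Ideal.eq_top_iff_one P).2 h1), ?_⟩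
    rw [pow_zero, Ideal.one_eq_top, top_sup_eq]
    exact Submodule.mem_top
  have h1 := Nat.sSup_mem h0 (h.set_bdd hF)
  constructor
  · intro h2
    exact le_csSup (h.set_bdd hF) h2
  · intro h2
    obtain ⟨G, hG, h3⟩ := h1
    refine ⟨G, hG, ?_⟩
    have h4 : P ^ (sSup {n | ∃ G, G ∉ P ∧ G * F ∈ P ^ n ⊔ J}) ⊔ J ≤ P ^ n ⊔ J :=
      sup_le_sup_right (Ideal.pow_le_pow_right h2) J
    exact h4 h3

theorem DUni.rep {P : Ideal (MvPolynomial σ K)} {π F : MvPolynomial σ K} (h : DUni J P π)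
    (hF : F ∉ J) : ∃ G c, G ∉ P ∧ c ∉ P ∧ G * F - c * π ^ ordP J P F ∈ J := by
  obtain ⟨G, hG, h1⟩ := (h.iff hF (ordP J P F)).2 le_rfl
  obtain ⟨g, b, h2, h3⟩ := dord_pow h.primeP h.gen _ h1
  refine ⟨g * G, b, fun h4 => (h.primeP.mem_or_mem h4).elim h2 hG, ?_, ?_⟩
  · intro hb
    have h4 : ordP J P F + 1 ≤ ordP J P F := by
      rw [← h.iff hF]
      refine ⟨g * G, fun h4 => (h.primeP.mem_or_mem h4).elim h2 hG, ?_⟩
      have h5 : g * G * F = b * π ^ ordP J P F + (g * (G * F) - b * π ^ ordP J P F) := by ring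
      rw [h5]
      refine Submodule.add_mem_sup ?_ h3
      rw [pow_succ']
      exact Ideal.mul_mem_mul hb (Ideal.pow_mem_pow h.mem _)
    omega
  · have h5 : g * G * F - b * π ^ ordP J P F = g * (G * F) - b * π ^ ordP J P F := by ring
    rw [h5]
    exact h3

theorem DUni.eq {P : Ideal (MvPolynomial σ K)} {π F : MvPolynomial σ K} (h : DUni J P π)
    {n : ℕ} {G c : MvPolynomial σ K} (hG : G ∉ P) (hc : c ∉ P) (h1 : G * F - c * π ^ n ∈ J) :
    F ∉ J ∧ ordP J P F = n := by
  have hπn : π ^ n ∉ J := fun h2 => h.nmem (h.prime.mem_of_pow_mem _ h2)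
  have hF : F ∉ J := by
    intro hF
    have h2 : c * π ^ n ∈ J := by
      have h3 : c * π ^ n = G * F - (G * F - c * π ^ n) := by ring
      rw [h3]
      exact J.sub_mem (J.mul_mem_left _ hF) h1
    exact (h.prime.mem_or_mem h2).elim (fun h3 => hc (h.le h3)) hπn
  refine ⟨hF, le_antisymm ?_ ?_⟩
  · by_contra hlt
    obtain ⟨G', hG', h2⟩ := (h.iff hF (n + 1)).2 (by omega)
    obtain ⟨g, b, h3, h4⟩ := dord_pow h.primeP h.gen _ h2
    have h5 : π ^ n * (g * G' * c - G * b * π) ∈ J := by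
      have h6 : π ^ n * (g * G' * c - G * b * π) =
          G * (g * (G' * F) - b * π ^ (n + 1)) - g * G' * (G * F - c * π ^ n) := by ring
      rw [h6]
      exact J.sub_mem (J.mul_mem_left _ h4) (J.mul_mem_left _ h1)
    rcases h.prime.mem_or_mem h5 with h6 | h6
    · exact hπn h6
    · have h7 : g * G' * c ∈ P := by
        have h8 : g * G' * c = (g * G' * c - G * b * π) + G * b * π := by ring
        rw [h8]
        exact P.add_mem (h.le h6) (P.mul_mem_left _ h.mem)
      rcases h.primeP.mem_or_mem h7 with h8 | h8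
      · exact (h.primeP.mem_or_mem h8).elim h3 hG'
      · exact hc h8
  · rw [← h.iff hF]
    refine ⟨G, hG, ?_⟩
    have h2 : G * F = c * π ^ n + (G * F - c * π ^ n) := by ring
    rw [h2]
    exact Submodule.add_mem_sup (Ideal.mul_mem_left _ _ (Ideal.pow_mem_pow h.mem _)) h1

/-- There is a homogeneous uniformiser. -/
theorem dord_hom (hJ : J.IsPrime) (hreg : RegOne J)
    (P : Ideal (MvPolynomial σ K)) (hP : IsPD J P) :
    ∃ (π : MvPolynomial σ K) (d : ℕ), π.IsHomogeneous d ∧ DUni J P π ∧ ordP J P π = 1 := by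
  obtain ⟨ρ, hρ⟩ := dord_exists hJ hreg P hP
  have h1P : (1 : MvPolynomial σ K) ∉ P :=
    fun h => hP.prime.ne_top ((Ideal.eq_top_iff_one P).2 h)
  have hρ1 : ordP J P ρ = 1 := (hρ.eq (n := 1) h1P h1P (by simp)).2
  -- the elements of order at least two form an ideal
  have h1 : ∃ n, MvPolynomial.homogeneousComponent n ρ ∉ dordI J P hP.prime (ρ ^ 2) := by
    by_contra hcon
    push Not at hcon
    obtain ⟨g, b, hg, h2⟩ := dord_of_comp hcon
    have h3 : ρ * (g - b * ρ) ∈ J := by
      have h4 : ρ * (g - b * ρ) = g * ρ - b * ρ ^ 2 := by ring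
      rw [h4]
      exact h2
    rcases hJ.mem_or_mem h3 with h4 | h4
    · exact hρ.nmem h4
    · apply hg
      have h5 : g = (g - b * ρ) + b * ρ := by ring
      rw [h5]
      exact P.add_mem (hρ.le h4) (P.mul_mem_left _ hρ.mem)
  obtain ⟨d, hd⟩ := h1
  set π := MvPolynomial.homogeneousComponent d ρ with hπ
  have hπP : π ∈ P := hP.hom ρ hρ.mem d
  have hπJ : π ∉ J := by
    intro h2
    apply hd
    refine ⟨1, 0, h1P, ?_⟩
    rw [one_mul, zero_mul, sub_zero]
    exact h2
  obtain ⟨g, b, hg, h2⟩ := hρ.gen π hπP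
  have hb : b ∉ P := by
    intro hb
    obtain ⟨g', b', hg', h3⟩ := hρ.gen b hb
    apply hd
    refine ⟨g' * g, b', fun h => (hP.prime.mem_or_mem h).elim hg' hg, ?_⟩
    have h4 : g' * g * π - b' * ρ ^ 2 = g' * (g * π - b * ρ) + ρ * (g' * b - b' * ρ) := by ring
    rw [h4]
    exact J.add_mem (J.mul_mem_left _ h2) (J.mul_mem_left _ h3)
  refine ⟨π, d, MvPolynomial.homogeneousComponent_isHomogeneous d ρ,
    ⟨hJ, hP.prime, hP.lt.le, hπP, hπJ, ?_⟩, ?_⟩
  · intro y hy
    obtain ⟨g1, b1, hg1, h3⟩ := hρ.gen y hy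
    refine ⟨b * g1, b1 * g, fun h => (hP.prime.mem_or_mem h).elim hb hg1, ?_⟩
    have h4 : b * g1 * y - b1 * g * π = b * (g1 * y - b1 * ρ) - b1 * (g * π - b * ρ) := by ring
    rw [h4]
    exact J.sub_mem (J.mul_mem_left _ h3) (J.mul_mem_left _ h2)
  · exact (hρ.eq (n := 1) hg hb (by rw [pow_one]; exact h2)).2

/-- D1a. Proof: `R = (MvPolynomial σ K ⧸ J)` localised at `P` is a discrete valuation ring (noetherian
local domain, maximal ideal principal by `RegOne`, not zero since `J < P`). The ideal `P` is generated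
by homogeneous elements (`hP.hom`), so one of them, `π`, has value one (otherwise all elements of `P`
have value at least two). The value of the image of `F ∉ J` is `ordP J P F` (in the local ring, `F` is
in the `n`-th power of the maximal ideal iff `∃ G ∉ P, G * F ∈ P ^ n ⊔ J`). Then `G' F - H' π ^ n ∈ J`
with `G', H' ∉ P`, `n = ordP J P F`; take the homogeneous component of degree `a + m`, where `a` is
such that the component `G` of degree `a` of `G'` is not in `P`. -/
theorem d1_gen (hJ : J.IsPrime)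
    (hhom : ∀ F ∈ J, ∀ n, MvPolynomial.homogeneousComponent n F ∈ J) (hreg : RegOne J)
    (P : Ideal (MvPolynomial σ K)) (hP : IsPD J P) :
    ∃ (π : MvPolynomial σ K) (d : ℕ), π.IsHomogeneous d ∧ π ∈ P ∧ π ∉ J ∧
      ∀ (F : MvPolynomial σ K) (m : ℕ), F.IsHomogeneous m → F ∉ J →
        ∃ (G H : MvPolynomial σ K) (a b : ℕ), G.IsHomogeneous a ∧ H.IsHomogeneous b ∧
          a + m = b + d * ordP J P F ∧ G ∉ P ∧ H ∉ P ∧ G * F - H * π ^ ordP J P F ∈ J := by
  obtain ⟨π, d, hπd, hu, -⟩ := dord_hom hJ hreg P hP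
  refine ⟨π, d, hπd, hu.mem, hu.nmem, fun F m hFm hF => ?_⟩
  obtain ⟨G', H', hG', hH', h1⟩ := hu.rep hF
  set n := ordP J P F with hn
  have h2 : ∃ a, MvPolynomial.homogeneousComponent a G' ∉ P := by
    by_contra hcon
    push Not at hcon
    exact hG' (dord_of_comp hcon)
  obtain ⟨a, ha⟩ := h2
  have hπn : (π ^ n).IsHomogeneous (d * n) := hπd.pow n
  have h3 := hhom _ h1 (a + m)
  rw [map_sub, dord_hc_mul G' F hFm, dord_hc_mul H' (π ^ n) hπn, if_pos (by omega),
    Nat.add_sub_cancel] at h3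
  by_cases hdn : d * n ≤ a + m
  · rw [if_pos hdn] at h3
    refine ⟨MvPolynomial.homogeneousComponent a G',
      MvPolynomial.homogeneousComponent (a + m - d * n) H', a, a + m - d * n,
      MvPolynomial.homogeneousComponent_isHomogeneous _ _,
      MvPolynomial.homogeneousComponent_isHomogeneous _ _, by omega, ha, ?_, h3⟩
    intro hH
    have h4 : n + 1 ≤ ordP J P F := by
      rw [← hu.iff hF]
      refine ⟨MvPolynomial.homogeneousComponent a G', ha, ?_⟩
      have h5 : MvPolynomial.homogeneousComponent a G' * F =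
          MvPolynomial.homogeneousComponent (a + m - d * n) H' * π ^ n +
          (MvPolynomial.homogeneousComponent a G' * F -
            MvPolynomial.homogeneousComponent (a + m - d * n) H' * π ^ n) := by ring
      rw [h5]
      refine Submodule.add_mem_sup ?_ h3
      rw [pow_succ']
      exact Ideal.mul_mem_mul hH (Ideal.pow_mem_pow hu.mem _)
    omega
  · rw [if_neg hdn, sub_zero] at h3
    exact absurd h3 fun h4 => (hJ.mem_or_mem h4).elim (fun h5 => ha (hu.le h5)) hF

attribute [local instance] MvPolynomial.gradedAlgebra in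
/-- D1b. A form is in finitely many prime divisors. Proof: such a `P` is a minimal prime of
`J ⊔ span {F}`: if `Q ≤ P` is a minimal prime of `J ⊔ span {F}`, then its homogeneous core is a prime
ideal (`Ideal.IsPrime.homogeneousCore`) which contains `J` and `F`, so `Q` is equal to its homogeneous
core, and `Q = P` by `IsPD.min`. Finiteness: noetherian. -/
theorem d1_fin (hJ : J.IsPrime)
    (hhom : ∀ F ∈ J, ∀ n, MvPolynomial.homogeneousComponent n F ∈ J)
    (F : MvPolynomial σ K) (m : ℕ) (hF : F.IsHomogeneous m) (hFJ : F ∉ J) :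
    {P | IsPD J P ∧ F ∈ P}.Finite := by
  refine (Ideal.finite_minimalPrimes_of_isNoetherianRing _ (J ⊔ Ideal.span {F})).subset ?_
  rintro P ⟨hP, hFP⟩
  have hle : J ⊔ Ideal.span {F} ≤ P :=
    sup_le hP.lt.le ((Ideal.span_singleton_le_iff_mem _).2 hFP)
  have hPp : P.IsPrime := hP.prime
  obtain ⟨Q, hQ, hQP⟩ := Ideal.exists_minimalPrimes_le hle
  have hQp : Q.IsPrime := hQ.1.1
  have hQle : J ⊔ Ideal.span {F} ≤ Q := hQ.1.2
  have h1 : (Q.homogeneousCore (MvPolynomial.homogeneousSubmodule σ K)).toIdeal.IsPrime :=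
    hQp.homogeneousCore
  have h2 : ∀ x, (∃ n, MvPolynomial.IsHomogeneous x n) → x ∈ Q →
      x ∈ (Q.homogeneousCore (MvPolynomial.homogeneousSubmodule σ K)).toIdeal :=
    fun x hx hxQ => Ideal.mem_homogeneousCore_of_homogeneous_of_mem hx hxQ
  have h3 : ∀ x ∈ (Q.homogeneousCore (MvPolynomial.homogeneousSubmodule σ K)).toIdeal, ∀ n,
      MvPolynomial.homogeneousComponent n x ∈
        (Q.homogeneousCore (MvPolynomial.homogeneousSubmodule σ K)).toIdeal := fun x hx n =>
    MvPolynomial.homogeneousComponent_mem_of_mem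
      (Q.homogeneousCore (MvPolynomial.homogeneousSubmodule σ K)).isHomogeneous hx n
  have h4 : (Q.homogeneousCore (MvPolynomial.homogeneousSubmodule σ K)).toIdeal ≤ Q :=
    Ideal.toIdeal_homogeneousCore_le _ _
  have h5 : J < (Q.homogeneousCore (MvPolynomial.homogeneousSubmodule σ K)).toIdeal := by
    refine lt_of_le_of_ne (fun x hx => ?_) ?_
    · exact dord_of_comp fun n => h2 _
        ⟨n, MvPolynomial.homogeneousComponent_isHomogeneous n x⟩
        (hQle (Ideal.mem_sup_left (hhom x hx n)))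
    · intro h
      apply hFJ
      rw [h]
      exact h2 F ⟨m, hF⟩ (hQle (Ideal.mem_sup_right (Ideal.mem_span_singleton_self F)))
  have h6 := hP.min _ h1 h3 h5 (h4.trans hQP)
  have h7 : P = Q := le_antisymm (h6 ▸ h4) hQP
  rw [h7]
  exact hQ

/-- D1c. (If all forms in `Q` are in `P` then `Q ≤ P`, so `Q = P`.) -/
theorem d1_ne (P Q : Ideal (MvPolynomial σ K)) (hP : IsPD J P) (hQ : IsPD J Q) (hne : P ≠ Q) :
    ∃ (F : MvPolynomial σ K) (m : ℕ), F.IsHomogeneous m ∧ F ∈ Q ∧ F ∉ P := by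
  by_contra hcon
  push Not at hcon
  apply hne
  refine (hP.min Q hQ.prime hQ.hom hQ.lt fun F hF => ?_).symm
  exact dord_of_comp fun n => hcon _ n (MvPolynomial.homogeneousComponent_isHomogeneous n F)
    (hQ.hom F hF n)

/-- D1d. There is a form in `P` not in `J`. -/
theorem d1_form (P : Ideal (MvPolynomial σ K)) (hP : IsPD J P) :
    ∃ (F : MvPolynomial σ K) (m : ℕ), F.IsHomogeneous m ∧ F ∈ P ∧ F ∉ J := by
  by_contra hcon
  push Not at hcon
  refine hP.lt.not_ge fun F hF => ?_
  exact dord_of_comp fun n => hcon _ n (MvPolynomial.homogeneousComponent_isHomogeneous n F)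
    (hP.hom F hF n)

/-- D1e. The order of a form not in `P` is zero. -/
theorem d1_zero (P : Ideal (MvPolynomial σ K)) (hP : IsPD J P) (F : MvPolynomial σ K)
    (hF : F ∉ P) : ordP J P F = 0 := by
  have h1 : {n | ∃ G, G ∉ P ∧ G * F ∈ P ^ n ⊔ J} ⊆ {0} := by
    rintro n ⟨G, hG, h2⟩
    by_contra hn
    have hn' : n ≠ 0 := hn
    have h3 : P ^ n ⊔ J ≤ P := sup_le (Ideal.pow_le_self hn') hP.lt.le
    exact (hP.prime.mem_or_mem (h3 h2)).elim hG hF
  unfold ordP
  rcases Set.subset_singleton_iff_eq.1 h1 with h2 | h2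
  · rw [h2, csSup_empty]
    rfl
  · rw [h2, csSup_singleton]

/-- D1f. The order is additive. -/
theorem d1_mul (hJ : J.IsPrime)
    (hhom : ∀ F ∈ J, ∀ n, MvPolynomial.homogeneousComponent n F ∈ J) (hreg : RegOne J)
    (P : Ideal (MvPolynomial σ K)) (hP : IsPD J P) (F G : MvPolynomial σ K) (hF : F ∉ J)
    (hG : G ∉ J) : ordP J P (F * G) = ordP J P F + ordP J P G := by
  obtain ⟨π, hu⟩ := dord_exists hJ hreg P hP
  obtain ⟨G1, c1, h1, h2, h3⟩ := hu.rep hF
  obtain ⟨G2, c2, h4, h5, h6⟩ := hu.rep hG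
  refine (hu.eq (n := ordP J P F + ordP J P G) (G := G1 * G2) (c := c1 * c2)
    (fun h => (hP.prime.mem_or_mem h).elim h1 h4)
    (fun h => (hP.prime.mem_or_mem h).elim h2 h5) ?_).2
  have h7 : G1 * G2 * (F * G) - c1 * c2 * π ^ (ordP J P F + ordP J P G) =
      G2 * G * (G1 * F - c1 * π ^ ordP J P F) +
        c1 * π ^ ordP J P F * (G2 * G - c2 * π ^ ordP J P G) := by
    rw [pow_add]
    ring
  rw [h7]
  exact J.add_mem (J.mul_mem_left _ h3) (J.mul_mem_left _ h6)

/-- D1h. All integers are differences of orders of forms of the same degree. Proof: `π` from `d1_gen`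
has order one (use `F = π` there), `X j ∉ P` has order zero; take powers of `π` and of `X j ^ d`. -/
theorem d1_pair (hJ : J.IsPrime)
    (hhom : ∀ F ∈ J, ∀ n, MvPolynomial.homogeneousComponent n F ∈ J) (hreg : RegOne J)
    (P : Ideal (MvPolynomial σ K)) (hP : IsPD J P) (a : ℤ) :
    ∃ (F G : MvPolynomial σ K) (m : ℕ), F.IsHomogeneous m ∧ G.IsHomogeneous m ∧ F ∉ J ∧ G ∉ J ∧
      a = (ordP J P F : ℤ) - (ordP J P G : ℤ) := by
  obtain ⟨π, d, hπd, hu, -⟩ := dord_hom hJ hreg P hP
  obtain ⟨j, hj⟩ := hP.proj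
  have h1P : (1 : MvPolynomial σ K) ∉ P :=
    fun h => hP.prime.ne_top ((Ideal.eq_top_iff_one P).2 h)
  have h1 : ∀ n, π ^ n ∉ J ∧ ordP J P (π ^ n) = n := fun n => hu.eq h1P h1P (by simp)
  have h2 : ∀ n, (MvPolynomial.X j ^ n : MvPolynomial σ K) ∉ P :=
    fun n h => hj (hP.prime.mem_of_pow_mem _ h)
  have h3 : ∀ n, (π ^ n).IsHomogeneous (d * n) := fun n => hπd.pow n
  have h4 : ∀ n, (MvPolynomial.X j ^ (d * n) : MvPolynomial σ K).IsHomogeneous (d * n) := fun n =>
    MvPolynomial.isHomogeneous_X_pow j (d * n)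
  have h5 : ∀ n, ordP J P (MvPolynomial.X j ^ n) = 0 := fun n => d1_zero P hP _ (h2 n)
  rcases le_total 0 a with ha | ha
  · refine ⟨π ^ a.toNat, MvPolynomial.X j ^ (d * a.toNat), d * a.toNat, h3 _, h4 _, (h1 _).1,
      fun h => h2 _ (hu.le h), ?_⟩
    rw [(h1 _).2, h5]
    omega
  · refine ⟨MvPolynomial.X j ^ (d * (-a).toNat), π ^ (-a).toNat, d * (-a).toNat, h4 _, h3 _,
      fun h => h2 _ (hu.le h), (h1 _).1, ?_⟩
    rw [(h1 _).2, h5]
    omega

/-- D1g. The ideal generated by a set of forms is homogeneous. -/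
theorem d1_span {I : Set (MvPolynomial σ K)} (hI : ∀ P ∈ I, ∃ d, P.IsHomogeneous d) :
    ∀ F ∈ Ideal.span I, ∀ n, MvPolynomial.homogeneousComponent n F ∈ Ideal.span I := by
  intro F hF
  induction hF using Submodule.span_induction with
  | mem x hx =>
    intro n
    obtain ⟨d, hd⟩ := hI x hx
    rw [MvPolynomial.homogeneousComponent_of_mem hd]
    split_ifs
    · exact Ideal.subset_span hx
    · exact Ideal.zero_mem _
  | zero =>
    intro n
    rw [map_zero]
    exact Ideal.zero_mem _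
  | add x y _ _ hx hy =>
    intro n
    rw [map_add]
    exact Ideal.add_mem _ (hx n) (hy n)
  | smul r x hx ih =>
    intro n
    have h1 : r • x = ∑ i ∈ Finset.range (x.totalDegree + 1),
        r * MvPolynomial.homogeneousComponent i x := by
      rw [← Finset.mul_sum, MvPolynomial.sum_homogeneousComponent, smul_eq_mul]
    rw [h1, map_sum]
    refine Ideal.sum_mem _ fun i _ => ?_
    rw [dord_hc_mul r _ (MvPolynomial.homogeneousComponent_isHomogeneous i x)]
    split_ifs
    · exact Ideal.mul_mem_left _ _ (ih i)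
    · exact Ideal.zero_mem _

end Pool.Agent.TT
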