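import Mathlib
import Pool.Agent.Helper56.BBTrdeg
import Pool.Agent.TT.DOrd
import Pool.Agent.ThF.Extend

set_option autoImplicit false
set_option linter.unusedSectionVars false

/-! Project TT, block F: preparations for the assembly. -/

namespace Pool.Agent.TT

open Pool.Agent.Helper16 Pool.Agent.Helper16.BB Pool.Agent.Helper16.GT Pool.Agent.ThF Polynomial

section Prin

variable {K σ : Type} [Field K] [Finite σ] {J : Ideal (MvPolynomial σ K)}

/-- F1. Principal divisors are divisors of single fractions: closure induction with `d1_mul` (the set of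
divisors of fractions is closed under sums and negatives, and contains `0`). -/
theorem prin_iff (hJ : J.IsPrime) (hhom : ∀ F ∈ J, ∀ n, MvPolynomial.homogeneousComponent n F ∈ J)
    (hreg : RegOne J) (D : Dv J) (hD : D ∈ Prin J) :
    ∃ (n : ℕ) (F G : MvPolynomial σ K), F.IsHomogeneous n ∧ G.IsHomogeneous n ∧ F ∉ J ∧ G ∉ J ∧
      ∀ P, D P = (ordP J P.1 F : ℤ) - (ordP J P.1 G : ℤ) := by
  rw [Prin] at hD
  induction hD using AddSubgroup.closure_induction with
  | mem x hx => exact hx
  | zero =>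
    have h1 : (1 : MvPolynomial σ K) ∉ J := fun h => hJ.ne_top ((Ideal.eq_top_iff_one J).2 h)
    refine ⟨0, 1, 1, MvPolynomial.isHomogeneous_one σ K, MvPolynomial.isHomogeneous_one σ K, h1, h1,
      fun P => ?_⟩
    rw [sub_self]
    rfl
  | add x y _ _ hx hy =>
    obtain ⟨n₁, F₁, G₁, a1, a2, a3, a4, a5⟩ := hx
    obtain ⟨n₂, F₂, G₂, b1, b2, b3, b4, b5⟩ := hy
    refine ⟨n₁ + n₂, F₁ * F₂, G₁ * G₂, a1.mul b1, a2.mul b2, fun h => ?_, fun h => ?_, fun P => ?_⟩
    · exact (hJ.mem_or_mem h).elim a3 b3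
    · exact (hJ.mem_or_mem h).elim a4 b4
    · rw [d1_mul hJ hhom hreg P.1 P.2 F₁ F₂ a3 b3, d1_mul hJ hhom hreg P.1 P.2 G₁ G₂ a4 b4,
        Finsupp.add_apply, a5 P, b5 P]
      push_cast
      ring
  | neg x _ hx =>
    obtain ⟨n, F, G, a1, a2, a3, a4, a5⟩ := hx
    refine ⟨n, G, F, a2, a1, a4, a3, fun P => ?_⟩
    rw [Finsupp.neg_apply, a5 P]
    ring

end Prin

section Rank

/-- F2. Linear algebra: if `Φ` sends integral linear combinations of a basis of the dual of a finite
dimensional space to a quotient group without a relation, the rank is bounded. Here: `r` elements of a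
subgroup `M` which are linearly independent over `ℤ` modulo the subgroup `Q`. -/
theorem rank_le_of_indep {A : Type} [AddCommGroup A] (M Q : AddSubgroup A) (r : ℕ) (D : Fin r → A)
    (hD : ∀ i, D i ∈ M) (hind : ∀ c : Fin r → ℤ, ∑ i, c i • D i ∈ Q → c = 0) :
    (r : Cardinal) ≤ Module.rank ℤ (M ⧸ Q.addSubgroupOf M) := by
  let v : Fin r → M ⧸ Q.addSubgroupOf M :=
    fun i => QuotientAddGroup.mk' (Q.addSubgroupOf M) ⟨D i, hD i⟩
  have hv : LinearIndependent ℤ v := by
    rw [Fintype.linearIndependent_iff]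
    intro c hc
    have h1 : QuotientAddGroup.mk' (Q.addSubgroupOf M) (∑ i, c i • (⟨D i, hD i⟩ : M)) = 0 := by
      rw [map_sum, ← hc]
      refine Finset.sum_congr rfl fun i _ => ?_
      rw [map_zsmul]
    have h2 : (∑ i, c i • (⟨D i, hD i⟩ : M)) ∈ Q.addSubgroupOf M :=
      (QuotientAddGroup.eq_zero_iff _).1 h1
    rw [AddSubgroup.mem_addSubgroupOf] at h2
    have h3 : ((∑ i, c i • (⟨D i, hD i⟩ : M) : M) : A) = ∑ i, c i • D i := by
      rw [AddSubgroup.val_finsetSum]
      rfl
    rw [h3] at h2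
    intro i
    rw [hind c h2]
    rfl
  have h := hv.cardinal_le_rank
  rwa [Cardinal.mk_fin] at h

/-- F3. A basis of the dual of `A0`, extended to functionals on the quotient `Quo`: `r = dim A0` and
functionals `φ i` on `Quo (wOne σ) I` such that no nontrivial combination with integral coefficients is
constant on the classes of points. Proof: `A0` embeds in `Quo` (the image is generated by the
differences of classes of points); choose a basis of the dual, extend by
`LinearMap.exists_extend` or `Module.Dual` of a complement. If `∑ c i φ i` is constant on the classes of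
points, it vanishes on `A0`. -/
theorem exists_functionals {K σ : Type} [Field K] [Finite σ] (I : Set (MvPolynomial σ K))
    (hfin : Module.Finite ℚ (A0 (wOne σ) I)) :
    ∃ φ : Fin (Module.finrank ℚ (A0 (wOne σ) I)) → (Quo (wOne σ) I →ₗ[ℚ] ℚ),
      ∀ c : Fin (Module.finrank ℚ (A0 (wOne σ) I)) → ℤ,
        (∃ a : ℚ, ∀ y, IsPoint (wOne σ) I y → (∑ i, (c i : ℚ) • φ i) (cls (wOne σ) I y) = a) →
        c = 0 := by
  classical
  let f : A0 (wOne σ) I →ₗ[ℚ] Quo (wOne σ) I :=
    Submodule.mapQ _ _ (cyclesZero (wOne σ) I).subtype le_rfl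
  have hf : Function.Injective f := by
    rw [injective_iff_map_eq_zero]
    intro a ha
    obtain ⟨z, rfl⟩ := Submodule.mkQ_surjective _ a
    have h1 : (ratEquiv (wOne σ) I).mkQ z.1 = 0 := ha
    rw [← LinearMap.mem_ker, Submodule.ker_mkQ] at h1
    exact (Submodule.Quotient.mk_eq_zero _).2 h1
  obtain ⟨g, hg⟩ := f.exists_leftInverse_of_injective (LinearMap.ker_eq_bot.2 hf)
  let b := Module.finBasis ℚ (A0 (wOne σ) I)
  refine ⟨fun i => (b.coord i).comp g, ?_⟩
  rintro c ⟨a, ha⟩
  have hz : ∀ x : A0 (wOne σ) I, (∑ i, (c i : ℚ) • (b.coord i).comp g) (f x) = 0 := by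
    intro x
    obtain ⟨z, rfl⟩ := Submodule.mkQ_surjective _ x
    have h0 : f (Submodule.mkQ _ z) = (ratEquiv (wOne σ) I).mkQ z.1 := rfl
    rw [h0]
    have h1 : z.1 = ∑ x ∈ z.1.support, Finsupp.single x (z.1 x) := z.1.sum_single.symm
    have h2 := mkQ_sum (w := wOne σ) (I := I) z.1.support (fun x => x) z.1
    rw [← h1] at h2
    rw [h2, map_sum]
    have h3 : ∀ x ∈ z.1.support,
        (∑ i, (c i : ℚ) • (b.coord i).comp g) (z.1 x • cls (wOne σ) I x) = z.1 x * a := by
      intro x hx
      rw [map_smul, ha x ((Finsupp.mem_supported ℚ z.1).1 z.2.1 hx), smul_eq_mul]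
    rw [Finset.sum_congr rfl h3, ← Finset.sum_mul]
    have h4 : (Finsupp.linearCombination ℚ fun _ : σ → AlgebraicClosure K => (1 : ℚ)) z.1 = 0 :=
      z.2.2
    rw [Finsupp.linearCombination_apply, Finsupp.sum] at h4
    simp only [smul_eq_mul, mul_one] at h4
    rw [h4, zero_mul]
  funext j
  have h5 := hz (b j)
  have h6 : ∀ x, g (f x) = x := fun x => LinearMap.congr_fun hg x
  rw [LinearMap.sum_apply] at h5
  simp only [LinearMap.smul_apply, LinearMap.comp_apply, h6, Module.Basis.coord_apply,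
    Module.Basis.repr_self, smul_eq_mul] at h5
  rw [Finset.sum_eq_single j] at h5
  · rw [Finsupp.single_eq_same, mul_one] at h5
    exact_mod_cast h5
  · intro i _ hi
    rw [Finsupp.single_eq_of_ne hi, mul_zero]
  · intro h
    exact absurd (Finset.mem_univ j) h

end Rank

end Pool.Agent.TT
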