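import Pool.Agent.TT.DDefs
import Pool.Agent.ThF.Lift

set_option autoImplicit false
set_option linter.unusedSectionVars false

/-! Project TT, block D5: the generic family of rational curves. -/

namespace Pool.Agent.TT

open Pool.Agent.Helper16 Pool.Agent.Helper16.BB Pool.Agent.Helper16.GT Pool.Agent.ThF Polynomial

variable {k σ : Type} [Field k] [Finite σ] {I : Set (MvPolynomial σ (RatFunc k))}

/-- A finitely generated algebra over a field, contained in a field, has a point. -/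
theorem dfam_hom {K M : Type} (Ω : Type) [Field K] [Field M] [Algebra K M] [Field Ω]
    [IsAlgClosed Ω] [Algebra K Ω] (D : Subalgebra K M) (hD : D.FG) : Nonempty (D →ₐ[K] Ω) := by
  obtain ⟨c, hc, hext⟩ := lift_ext (Ω := Ω) (⊥ : Subalgebra K M) D bot_le hD
  obtain ⟨ψ, -⟩ := hext ((Algebra.ofId K Ω).comp ((Algebra.botEquiv K M : _ ≃ₐ[K] K) :
    (⊥ : Subalgebra K M) →ₐ[K] K)) (by
      intro h
      have h1 : algebraMap K Ω ((Algebra.botEquiv K M) c) = 0 := h
      rw [map_eq_zero] at h1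
      exact hc ((map_eq_zero_iff _ (Algebra.botEquiv K M).injective).1 h1))
  exact ⟨ψ⟩

/-- One of the two degrees is positive. -/
theorem dfam_pos {L : Type} [Field L] (t : RatFunc L) (ht : t ∉ Set.range (algebraMap L (RatFunc L))) :
    0 < t.num.natDegree ∨ 0 < t.denom.natDegree := by
  by_contra hcon
  push Not at hcon
  obtain ⟨h1, h2⟩ := hcon
  apply ht
  have ha := eq_C_of_natDegree_le_zero h1
  have hb := eq_C_of_natDegree_le_zero h2
  have e1 : algebraMap L (RatFunc L) (t.num.coeff 0) = algebraMap L[X] (RatFunc L) t.num := by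
    conv_rhs => rw [ha]
    rfl
  have e2 : algebraMap L (RatFunc L) (t.denom.coeff 0) = algebraMap L[X] (RatFunc L) t.denom := by
    conv_rhs => rw [hb]
    rfl
  refine ⟨t.num.coeff 0 / t.denom.coeff 0, ?_⟩
  rw [map_div₀, e1, e2, RatFunc.num_div_denom]

theorem dfam_core {Fx : Type} [Field Fx] [Algebra k Fx] [Algebra (RatFunc k) Fx]
    [IsScalarTower k (RatFunc k) Fx] {η : σ → Fx} {j₀ : σ}
    (hI : ∀ P ∈ I, ∃ d, P.IsHomogeneous d) (hη : IsGen I η j₀)
    {L : Type} [Field L] [Algebra k L] [Algebra (RatFunc k) (RatFunc L)]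
    [IsScalarTower k (RatFunc k) (RatFunc L)] [Algebra Fx (RatFunc L)]
    [IsScalarTower (RatFunc k) Fx (RatFunc L)] [IsScalarTower k Fx (RatFunc L)]
    (hL : tt k (RatFunc L) ∉ Set.range (algebraMap L (RatFunc L))) :
    ∃ δ : CD σ (AlgebraicClosure Fx), δ.Ok (k := k) I ∧
      δ.be.eval δ.s ≠ 0 ∧ tt k (AlgebraicClosure Fx) * δ.be.eval δ.s = δ.al.eval δ.s ∧
      ∃ c : AlgebraicClosure Fx, c ≠ 0 ∧ ∀ j, (δ.P j).eval δ.s = c * ηo η j := by
  classical
  set Ω := AlgebraicClosure Fx with hΩ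
  set ξ : σ → RatFunc L := fun j => algebraMap Fx (RatFunc L) (η j) with hξ
  have hξj0 : ξ j₀ = 1 := by
    rw [hξ]
    change algebraMap Fx (RatFunc L) (η j₀) = 1
    rw [hη.one, map_one]
  have hξI : ∀ P ∈ I, MvPolynomial.aeval ξ P = 0 := by
    intro P hP
    obtain ⟨d, hd⟩ := hI P hP
    have h1 := (hη.mem P d hd).2 (Ideal.subset_span hP)
    rw [hξ]
    have h2 := MvPolynomial.aeval_algebraMap_apply (RatFunc L) η P
    rw [h1, map_zero] at h2
    exact h2
  set α : L[X] := (tt k (RatFunc L)).num with hα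
  set β : L[X] := (tt k (RatFunc L)).denom with hβd
  have hβ : β ≠ 0 := RatFunc.denom_ne_zero _
  have hcop : IsCoprime α β := RatFunc.isCoprime_num_denom _
  obtain ⟨U, V, hUV⟩ := hcop
  have hαβ : tt k (RatFunc L) * algebraMap L[X] (RatFunc L) β = algebraMap L[X] (RatFunc L) α := by
    have h3 : algebraMap L[X] (RatFunc L) β ≠ 0 := RatFunc.algebraMap_ne_zero hβ
    rw [← eq_div_iff h3]
    exact (RatFunc.num_div_denom _).symm
  have hdeg := dfam_pos (tt k (RatFunc L)) hL
  obtain ⟨d, P, hd, hP⟩ := lift_frac_fam ξ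
  have hdP : d = P j₀ := by
    have h1 := hP j₀
    rw [hξj0, mul_one] at h1
    exact RatFunc.algebraMap_injective L h1
  have hfam : IsFam I α β P := lift_fam hI ξ hξI α β d P hβ hαβ hP
  -- the coefficient algebra
  set T : Set L := ((↑α.coeffs ∪ ↑β.coeffs) ∪ (↑U.coeffs ∪ ↑V.coeffs)) ∪
    ⋃ j, (↑(P j).coeffs : Set L) with hT
  have hTfin : T.Finite := by
    refine Set.Finite.union (Set.Finite.union (Set.Finite.union (Finset.finite_toSet _)
      (Finset.finite_toSet _)) (Set.Finite.union (Finset.finite_toSet _)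
      (Finset.finite_toSet _))) ?_
    exact Set.finite_iUnion fun j => Finset.finite_toSet _
  set A := Algebra.adjoin k T with hA
  have hcoef : ∀ p : L[X], (↑p.coeffs : Set L) ⊆ T → ∀ i, p.coeff i ∈ A := by
    intro p hp i
    by_cases h0 : p.coeff i = 0
    · rw [h0]
      exact zero_mem _
    · exact Algebra.subset_adjoin (hp (Finset.mem_coe.2 (coeff_mem_coeffs h0)))
  set vA : A →+* L := ((A.val : A →ₐ[k] L) : A →+* L) with hvA
  have hvinj : Function.Injective vA := Subtype.val_injective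
  obtain ⟨α0, hα0⟩ := lift_lifts A α (hcoef α fun x hx => Or.inl (Or.inl (Or.inl hx)))
  obtain ⟨β0, hβ0⟩ := lift_lifts A β (hcoef β fun x hx => Or.inl (Or.inl (Or.inr hx)))
  obtain ⟨U0, hU0⟩ := lift_lifts A U (hcoef U fun x hx => Or.inl (Or.inr (Or.inl hx)))
  obtain ⟨V0, hV0⟩ := lift_lifts A V (hcoef V fun x hx => Or.inl (Or.inr (Or.inr hx)))
  have hPl : ∀ j, ∃ q : A[X], q.map vA = P j := fun j =>
    lift_lifts A (P j) (hcoef (P j) fun x hx => Or.inr (Set.mem_iUnion.2 ⟨j, hx⟩))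
  choose P0 hP0 using hPl
  have hfam0 : IsFam I α0 β0 P0 := by
    apply IsFam.of_map A.val Subtype.val_injective
    rw [hα0, hβ0]
    have h1 : (fun j => (P0 j).map vA) = P := funext hP0
    rw [h1]
    exact hfam
  have hUV0 : U0 * α0 + V0 * β0 = 1 := by
    apply Polynomial.map_injective vA hvinj
    rw [Polynomial.map_add, Polynomial.map_mul, Polynomial.map_mul, Polynomial.map_one]
    rw [hα0, hβ0, hU0, hV0, hUV]
  -- the algebra `D`
  set S : Set (RatFunc L) := (algebraMap L (RatFunc L) '' T) ∪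
    {RatFunc.X, (algebraMap L[X] (RatFunc L) β)⁻¹, (algebraMap L[X] (RatFunc L) (P j₀))⁻¹,
      (algebraMap L (RatFunc L) α.leadingCoeff)⁻¹, (algebraMap L (RatFunc L) β.leadingCoeff)⁻¹}
    with hS
  have hSfin : S.Finite := Set.Finite.union (hTfin.image _) (Set.toFinite _)
  set DD : Subalgebra Fx (RatFunc L) := Algebra.adjoin Fx S with hDD
  have hDfg : DD.FG := ⟨hSfin.toFinset, by rw [Set.Finite.coe_toFinset]⟩
  obtain ⟨ψ⟩ := dfam_hom Ω DD hDfg
  have hTD : ∀ a : A, algebraMap L (RatFunc L) a.1 ∈ DD := by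
    have h1 : A ≤ (DD.restrictScalars k).comap (IsScalarTower.toAlgHom k L (RatFunc L)) := by
      rw [hA, Algebra.adjoin_le_iff]
      intro x hx
      exact Algebra.subset_adjoin (Or.inl ⟨x, hx, rfl⟩)
    intro a
    exact h1 a.2
  have hXD : (RatFunc.X : RatFunc L) ∈ DD := Algebra.subset_adjoin (Or.inr (Or.inl rfl))
  have hβD : (algebraMap L[X] (RatFunc L) β)⁻¹ ∈ DD :=
    Algebra.subset_adjoin (Or.inr (Or.inr (Or.inl rfl)))
  have hPD : (algebraMap L[X] (RatFunc L) (P j₀))⁻¹ ∈ DD :=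
    Algebra.subset_adjoin (Or.inr (Or.inr (Or.inr (Or.inl rfl))))
  have hlα : (algebraMap L (RatFunc L) α.leadingCoeff)⁻¹ ∈ DD :=
    Algebra.subset_adjoin (Or.inr (Or.inr (Or.inr (Or.inr (Or.inl rfl)))))
  have hlβ : (algebraMap L (RatFunc L) β.leadingCoeff)⁻¹ ∈ DD :=
    Algebra.subset_adjoin (Or.inr (Or.inr (Or.inr (Or.inr (Or.inr rfl)))))
  -- the specialised homomorphism
  set e : A →+* DD := ((algebraMap L (RatFunc L)).comp vA).codRestrict DD hTD with he
  have hecoe : ∀ a, ((e a : DD) : RatFunc L) = algebraMap L (RatFunc L) a.1 := fun a => rfl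
  set φ0 : A →ₐ[k] Ω :=
    { toRingHom := (ψ : DD →+* Ω).comp e
      commutes' := by
        intro r
        have h1 : e (algebraMap k A r) = algebraMap Fx DD (algebraMap k Fx r) := by
          apply Subtype.ext
          rw [hecoe]
          change algebraMap L (RatFunc L) (algebraMap k L r) =
            algebraMap Fx (RatFunc L) (algebraMap k Fx r)
          rw [← IsScalarTower.algebraMap_apply, ← IsScalarTower.algebraMap_apply]
        change ψ (e (algebraMap k A r)) = _
        rw [h1, ψ.commutes, ← IsScalarTower.algebraMap_apply] } with hφ0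
  have hφring : ((φ0 : A →ₐ[k] Ω) : A →+* Ω) = (ψ : DD →+* Ω).comp e := rfl
  set xD : DD := ⟨RatFunc.X, hXD⟩ with hxD
  have hev : ∀ p : A[X], (p.map (φ0 : A →+* Ω)).eval (ψ xD) = ψ (p.eval₂ e xD) ∧
      ((p.eval₂ e xD : DD) : RatFunc L) = algebraMap L[X] (RatFunc L) (p.map vA) := by
    intro p
    have h1 := lift_eval (M := RatFunc L) vA e (DD.val : DD →+* RatFunc L) (ψ : DD →+* Ω) xD
      RatFunc.X (fun r => rfl) rfl p
    refine ⟨?_, ?_⟩
    · rw [hφring]
      exact h1.1
    · rw [← RatFunc.aeval_X_left_eq_algebraMap]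
      exact h1.2
  have hβM : algebraMap L[X] (RatFunc L) β ≠ 0 := RatFunc.algebraMap_ne_zero hβ
  have hPM : algebraMap L[X] (RatFunc L) (P j₀) ≠ 0 := by
    rw [← hdP]
    exact RatFunc.algebraMap_ne_zero hd
  have hunit : ∀ (a : DD) (_ : ((a : DD) : RatFunc L)⁻¹ ∈ DD), (a : RatFunc L) ≠ 0 → ψ a ≠ 0 := by
    intro a ha ha0 h0
    have h1 : a * ⟨((a : DD) : RatFunc L)⁻¹, ha⟩ = 1 := Subtype.ext (mul_inv_cancel₀ ha0)
    have h2 := congrArg ψ h1
    rw [map_mul, h0, zero_mul, map_one] at h2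
    exact zero_ne_one h2
  have hβev : ψ (β0.eval₂ e xD) ≠ 0 := by
    apply hunit
    · rw [(hev β0).2, hβ0]
      exact hβD
    · rw [(hev β0).2, hβ0]
      exact hβM
  have hPev : ψ ((P0 j₀).eval₂ e xD) ≠ 0 := by
    apply hunit
    · rw [(hev (P0 j₀)).2, hP0]
      exact hPD
    · rw [(hev (P0 j₀)).2, hP0]
      exact hPM
  -- degrees
  have hdegm : ∀ (p0 : A[X]) (p : L[X]), p0.map vA = p → p ≠ 0 →
      (algebraMap L (RatFunc L) p.leadingCoeff)⁻¹ ∈ DD →
      (p0.map (φ0 : A →+* Ω)).natDegree = p.natDegree := by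
    intro p0 p h1 h2 h3
    have h4 : p.natDegree = p0.natDegree := by
      rw [← h1]
      exact natDegree_map_eq_of_injective hvinj p0
    have h5 : ((e p0.leadingCoeff : DD) : RatFunc L) = algebraMap L (RatFunc L) p.leadingCoeff := by
      rw [hecoe, ← h1, leadingCoeff_map_of_injective hvinj]
      rfl
    rw [h4]
    apply natDegree_map_of_leadingCoeff_ne_zero
    rw [hφring]
    change ψ (e p0.leadingCoeff) ≠ 0
    apply hunit
    · rw [h5]
      exact h3
    · rw [h5]
      exact (_root_.map_ne_zero _).2 (leadingCoeff_ne_zero.2 h2)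
  refine ⟨⟨α0.map (φ0 : A →+* Ω), β0.map (φ0 : A →+* Ω), fun j => (P0 j).map (φ0 : A →+* Ω),
    ψ xD⟩, ⟨hfam0.map φ0, ?_, ?_, ⟨j₀, ?_⟩⟩, ?_, ?_, ψ ((P0 j₀).eval₂ e xD), hPev, ?_⟩
  · refine ⟨U0.map (φ0 : A →+* Ω), V0.map (φ0 : A →+* Ω), ?_⟩
    have h1 := congrArg (Polynomial.map (φ0 : A →+* Ω)) hUV0
    rw [Polynomial.map_add, Polynomial.map_mul, Polynomial.map_mul, Polynomial.map_one] at h1
    exact h1
  · change 0 < max (α0.map (φ0 : A →+* Ω)).natDegree (β0.map (φ0 : A →+* Ω)).natDegree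
    rcases hdeg with h | h
    · have h1 : α ≠ 0 := by
        intro h0
        rw [hα] at h0
        rw [h0] at h
        simp at h
      refine lt_of_lt_of_le ?_ (le_max_left _ _)
      rw [hdegm α0 α hα0 h1 hlα]
      exact h
    · refine lt_of_lt_of_le ?_ (le_max_right _ _)
      rw [hdegm β0 β hβ0 hβ hlβ]
      exact h
  · intro h0
    apply hPev
    rw [← (hev (P0 j₀)).1]
    change (P0 j₀).map (φ0 : A →+* Ω) = 0 at h0
    rw [h0, eval_zero]
  · change (β0.map (φ0 : A →+* Ω)).eval (ψ xD) ≠ 0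
    rw [(hev β0).1]
    exact hβev
  · change tt k Ω * (β0.map (φ0 : A →+* Ω)).eval (ψ xD) = (α0.map (φ0 : A →+* Ω)).eval (ψ xD)
    rw [(hev β0).1, (hev α0).1]
    have h1 : algebraMap Fx DD (tt k Fx) * β0.eval₂ e xD = α0.eval₂ e xD := by
      apply Subtype.ext
      change algebraMap Fx (RatFunc L) (algebraMap (RatFunc k) Fx RatFunc.X) *
        ((β0.eval₂ e xD : DD) : RatFunc L) = _
      rw [(hev β0).2, (hev α0).2, hα0, hβ0, ← IsScalarTower.algebraMap_apply]
      exact hαβ
    rw [← h1, map_mul, ψ.commutes]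
    congr 1
  · intro j
    change ((P0 j).map (φ0 : A →+* Ω)).eval (ψ xD) = _
    rw [(hev (P0 j)).1]
    have h1 : (P0 j).eval₂ e xD = (P0 j₀).eval₂ e xD * algebraMap Fx DD (η j) := by
      apply Subtype.ext
      change (((P0 j).eval₂ e xD : DD) : RatFunc L) = (((P0 j₀).eval₂ e xD : DD) : RatFunc L) *
        algebraMap Fx (RatFunc L) (η j)
      rw [(hev (P0 j)).2, (hev (P0 j₀)).2, hP0, hP0, ← hP j, hdP]
    rw [h1, map_mul, ψ.commutes]
    rfl

/-- D5a. Data over the algebraic closure of `Fx`. Proof: as in `ThF/Lift.lean` (`lift_frac`,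
`lift_frac_fam`, `lift_minor`, `lift_fam`): `t = α / β`, `d η_j = P_j` with `α, β, d, P_j ∈ L[X]`,
`α, β` coprime (divide by the gcd), `IsFam I α β P`. Let `D` be the `Fx`-subalgebra of `RatFunc L`
(an `Fx`-algebra by `e`) generated by `s = X`, the coefficients of `α, β, P_j` and of the Bezout
relation `U α + V β = 1`, the inverses of the leading coefficients of `α, β`, of one coefficient of
some `P_j`, of `β(s)` and of `d(s)`. There is an `Fx`-algebra homomorphism
`D → AlgebraicClosure Fx` (`D` is a nonzero finitely generated algebra); apply it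
(`ThF.lift_eval`, `IsFam.map`, `IsFam.of_map`). Positive degree: `t` is not in `L`. -/
theorem d5_data {Fx : Type} [Field Fx] [Algebra k Fx] [Algebra (RatFunc k) Fx]
    [IsScalarTower k (RatFunc k) Fx] {η : σ → Fx} {j₀ : σ}
    (hI : ∀ P ∈ I, ∃ d, P.IsHomogeneous d) (hη : IsGen I η j₀)
    {L : Type} [Field L] [Algebra k L] (e : Fx →ₐ[k] RatFunc L)
    (he : e (tt k Fx) ∉ Set.range (algebraMap L (RatFunc L))) :
    ∃ δ : CD σ (AlgebraicClosure Fx), δ.Ok (k := k) I ∧
      δ.be.eval δ.s ≠ 0 ∧ tt k (AlgebraicClosure Fx) * δ.be.eval δ.s = δ.al.eval δ.s ∧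
      ∃ c : AlgebraicClosure Fx, c ≠ 0 ∧ ∀ j, (δ.P j).eval δ.s = c * ηo η j := by
  let _ : Algebra Fx (RatFunc L) := (e : Fx →+* RatFunc L).toAlgebra
  let _ : Algebra (RatFunc k) (RatFunc L) :=
    ((e : Fx →+* RatFunc L).comp (algebraMap (RatFunc k) Fx)).toAlgebra
  have _ : IsScalarTower (RatFunc k) Fx (RatFunc L) := IsScalarTower.of_algebraMap_eq fun x => rfl
  have _ : IsScalarTower k Fx (RatFunc L) :=
    IsScalarTower.of_algebraMap_eq fun x => (e.commutes x).symm
  have _ : IsScalarTower k (RatFunc k) (RatFunc L) := IsScalarTower.of_algebraMap_eq fun x => by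
    change _ = e (algebraMap (RatFunc k) Fx (algebraMap k (RatFunc k) x))
    rw [← IsScalarTower.algebraMap_apply]
    exact (e.commutes x).symm
  exact dfam_core hI hη (L := L) he

theorem dfam_ext {F : Type} [Field F] {δ δ' : CD σ F} (h1 : δ.al = δ'.al) (h2 : δ.be = δ'.be)
    (h3 : δ.P = δ'.P) (h4 : δ.s = δ'.s) : δ = δ' := by
  cases δ
  cases δ'
  simp only at h1 h2 h3 h4
  subst h1 h2 h3 h4
  rfl

theorem dfam_map_map {F F' F'' : Type} [Field F] [Field F'] [Field F''] (f : F →+* F')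
    (g : F' →+* F'') (δ : CD σ F) : (δ.map f).map g = δ.map (g.comp f) := by
  apply dfam_ext
  · exact Polynomial.map_map f g δ.al
  · exact Polynomial.map_map f g δ.be
  · funext j
    exact Polynomial.map_map f g (δ.P j)
  · rfl

/-- The coefficients and the point. -/
theorem dfam_supp {F : Type} [Field F] (δ : CD σ F) : ∃ C : Set F, C.Finite ∧
    ∀ (F' : Type) [Field F'] (f g : F →+* F'), (∀ c ∈ C, f c = g c) → δ.map f = δ.map g := by
  classical
  refine ⟨((↑δ.al.coeffs ∪ ↑δ.be.coeffs) ∪ ⋃ j, (↑(δ.P j).coeffs : Set F)) ∪ {δ.s}, ?_, ?_⟩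
  · refine Set.Finite.union (Set.Finite.union (Set.Finite.union (Finset.finite_toSet _)
      (Finset.finite_toSet _)) ?_) (Set.toFinite _)
    exact Set.finite_iUnion fun j => Finset.finite_toSet _
  · intro F' _ f g h
    have hp : ∀ p : F[X], (∀ c ∈ (↑p.coeffs : Set F), f c = g c) → p.map f = p.map g := by
      intro p hp
      ext i
      rw [coeff_map, coeff_map]
      by_cases h0 : p.coeff i = 0
      · rw [h0, map_zero, map_zero]
      · exact hp _ (Finset.mem_coe.2 (coeff_mem_coeffs h0))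
    apply dfam_ext
    · exact hp _ fun c hc => h c (Or.inl (Or.inl (Or.inl hc)))
    · exact hp _ fun c hc => h c (Or.inl (Or.inl (Or.inr hc)))
    · funext j
      exact hp _ fun c hc => h c (Or.inl (Or.inr (Set.mem_iUnion.2 ⟨j, hc⟩)))
    · exact h _ (Or.inr rfl)

theorem dfam_orbit {Fx : Type} [Field Fx] (δ : CD σ (AlgebraicClosure Fx)) :
    (Set.range fun τ : AlgebraicClosure Fx ≃ₐ[Fx] AlgebraicClosure Fx =>
      δ.map (τ : AlgebraicClosure Fx →+* AlgebraicClosure Fx)).Finite := by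
  classical
  obtain ⟨C, hC, hC'⟩ := dfam_supp δ
  have _ : Finite C := hC
  set f : (AlgebraicClosure Fx ≃ₐ[Fx] AlgebraicClosure Fx) → (C → AlgebraicClosure Fx) :=
    fun τ c => τ c.1 with hf
  have hfin : (Set.range f).Finite := by
    refine Set.Finite.subset (Set.Finite.pi' (t := fun c : C =>
      ((minpoly Fx c.1).rootSet (AlgebraicClosure Fx))) fun c => Set.toFinite _) ?_
    rintro _ ⟨τ, rfl⟩ c
    rw [hf]
    change τ c.1 ∈ (minpoly Fx c.1).rootSet (AlgebraicClosure Fx)
    rw [mem_rootSet]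
    refine ⟨minpoly.ne_zero (Algebra.IsIntegral.isIntegral c.1), ?_⟩
    have h1 := minpoly.aeval Fx c.1
    have h2 := congrArg τ h1
    rw [map_zero] at h2
    rw [← h2]
    exact aeval_algHom_apply (τ : AlgebraicClosure Fx →ₐ[Fx] AlgebraicClosure Fx) c.1 _
  have hfac : Function.FactorsThrough
      (fun τ : AlgebraicClosure Fx ≃ₐ[Fx] AlgebraicClosure Fx =>
        δ.map (τ : AlgebraicClosure Fx →+* AlgebraicClosure Fx)) f := by
    intro τ τ' h
    apply hC'
    intro c hc
    exact congrFun h ⟨c, hc⟩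
  have _ : Nonempty (CD σ (AlgebraicClosure Fx)) := ⟨δ⟩
  obtain ⟨h, hh⟩ := (Function.factorsThrough_iff _).1 hfac
  rw [hh, Set.range_comp]
  exact hfin.image h

/-- D5b. The family of all conjugates. Proof: let `M` be the intermediate field generated by `δ.s` and
all coefficients; it is finite over `Fx`, so there are finitely many restrictions
`τ|M : M →ₐ[Fx] AlgebraicClosure Fx`, and `δ.map τ` only depends on `τ|M`. Enumerate the finite set
`{δ.map τ}` by `Fin m`. -/
theorem d5_family {Fx : Type} [Field Fx] [Algebra k Fx] [Algebra (RatFunc k) Fx]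
    [IsScalarTower k (RatFunc k) Fx] {η : σ → Fx} {j₀ : σ}
    (hI : ∀ P ∈ I, ∃ d, P.IsHomogeneous d) (hη : IsGen I η j₀)
    {L : Type} [Field L] [Algebra k L] (e : Fx →ₐ[k] RatFunc L)
    (he : e (tt k Fx) ∉ Set.range (algebraMap L (RatFunc L))) :
    ∃ (m : ℕ) (Δ : Fin m → CD σ (AlgebraicClosure Fx)), CFam I Δ (ηo η) ∧ Stab Δ := by
  classical
  obtain ⟨δ, hok, hbe, ht, c, hc, hpt⟩ := d5_data hI hη e he
  set O := Set.range fun τ : AlgebraicClosure Fx ≃ₐ[Fx] AlgebraicClosure Fx =>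
      δ.map (τ : AlgebraicClosure Fx →+* AlgebraicClosure Fx) with hO
  have hOfin : O.Finite := dfam_orbit δ
  set eqv := hOfin.toFinset.equivFin.symm with heqv
  set Δ : Fin hOfin.toFinset.card → CD σ (AlgebraicClosure Fx) := fun l => (eqv l).1 with hΔ
  have hmem : ∀ l, ∃ τ : AlgebraicClosure Fx ≃ₐ[Fx] AlgebraicClosure Fx,
      δ.map (τ : AlgebraicClosure Fx →+* AlgebraicClosure Fx) = Δ l := by
    intro l
    have h1 : Δ l ∈ O := hOfin.mem_toFinset.1 (eqv l).2
    exact h1
  have hinj : Function.Injective Δ := Subtype.val_injective.comp eqv.injective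
  have hsurj : ∀ τ : AlgebraicClosure Fx ≃ₐ[Fx] AlgebraicClosure Fx,
      ∃ l, Δ l = δ.map (τ : AlgebraicClosure Fx →+* AlgebraicClosure Fx) := by
    intro τ
    refine ⟨eqv.symm ⟨_, hOfin.mem_toFinset.2 ⟨τ, rfl⟩⟩, ?_⟩
    rw [hΔ]
    change (eqv (eqv.symm _)).1 = _
    rw [Equiv.apply_symm_apply]
  refine ⟨_, Δ, ⟨?_, ?_, ?_, ?_⟩, ?_⟩
  · obtain ⟨l, -⟩ := hsurj AlgEquiv.refl
    exact lt_of_le_of_lt (Nat.zero_le _) l.2
  · intro l
    obtain ⟨τ, hτ⟩ := hmem l
    rw [← hτ]
    refine ⟨?_, ?_, ?_, ?_⟩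
    · exact hok.fam.map ((τ : AlgebraicClosure Fx →ₐ[Fx] AlgebraicClosure Fx).restrictScalars k)
    · obtain ⟨U, V, hUV⟩ := hok.cop
      refine ⟨U.map (τ : AlgebraicClosure Fx →+* AlgebraicClosure Fx),
        V.map (τ : AlgebraicClosure Fx →+* AlgebraicClosure Fx), ?_⟩
      have h1 := congrArg (Polynomial.map (τ : AlgebraicClosure Fx →+* AlgebraicClosure Fx)) hUV
      rw [Polynomial.map_add, Polynomial.map_mul, Polynomial.map_mul, Polynomial.map_one] at h1
      exact h1
    · have h1 := hok.pos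
      unfold CD.b CD.map at *
      simp only [natDegree_map]
      exact h1
    · obtain ⟨j, hj⟩ := hok.ne
      refine ⟨j, ?_⟩
      intro h0
      apply hj
      exact (Polynomial.map_eq_zero _).1 h0
  · intro l
    obtain ⟨τ, hτ⟩ := hmem l
    rw [← hτ]
    have hev : ∀ p : (AlgebraicClosure Fx)[X],
        (p.map (τ : AlgebraicClosure Fx →+* AlgebraicClosure Fx)).eval
          ((τ : AlgebraicClosure Fx →+* AlgebraicClosure Fx) δ.s) = τ (p.eval δ.s) := by
      intro p
      rw [eval_map_apply]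
      rfl
    refine ⟨?_, ?_⟩
    · change (δ.be.map (τ : AlgebraicClosure Fx →+* AlgebraicClosure Fx)).eval
          ((τ : AlgebraicClosure Fx →+* AlgebraicClosure Fx) δ.s) ≠ 0
      rw [hev]
      exact (_root_.map_ne_zero _).2 hbe
    · change _ * (δ.be.map (τ : AlgebraicClosure Fx →+* AlgebraicClosure Fx)).eval
          ((τ : AlgebraicClosure Fx →+* AlgebraicClosure Fx) δ.s) =
        (δ.al.map (τ : AlgebraicClosure Fx →+* AlgebraicClosure Fx)).eval
          ((τ : AlgebraicClosure Fx →+* AlgebraicClosure Fx) δ.s)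
      rw [hev, hev, ← ht, map_mul]
      congr 1
      have h1 : tt k (AlgebraicClosure Fx) = algebraMap Fx (AlgebraicClosure Fx) (tt k Fx) :=
        IsScalarTower.algebraMap_apply (RatFunc k) Fx (AlgebraicClosure Fx) RatFunc.X
      rw [h1]
      exact (τ.commutes _).symm
  · intro l
    obtain ⟨τ, hτ⟩ := hmem l
    rw [← hτ]
    refine ⟨τ c, (_root_.map_ne_zero _).2 hc, fun j => ?_⟩
    change ((δ.P j).map (τ : AlgebraicClosure Fx →+* AlgebraicClosure Fx)).eval
          ((τ : AlgebraicClosure Fx →+* AlgebraicClosure Fx) δ.s) = _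
    rw [eval_map_apply]
    change τ ((δ.P j).eval δ.s) = _
    rw [hpt j, map_mul]
    congr 1
    exact τ.commutes _
  · intro τ
    have h1 : ∀ l, ∃ l', Δ l' =
        (Δ l).map (τ : AlgebraicClosure Fx →+* AlgebraicClosure Fx) := by
      intro l
      obtain ⟨τ', hτ'⟩ := hmem l
      obtain ⟨l', hl'⟩ := hsurj (τ'.trans τ)
      refine ⟨l', ?_⟩
      rw [hl', ← hτ', dfam_map_map]
      rfl
    choose p hp using h1
    have hpinj : Function.Injective p := by
      intro l l' hll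
      apply hinj
      have h2 := hp l
      rw [hll, hp l'] at h2
      have h3 := congrArg (CD.map (τ.symm : AlgebraicClosure Fx →+* AlgebraicClosure Fx)) h2
      rw [dfam_map_map, dfam_map_map] at h3
      have h4 : (τ.symm : AlgebraicClosure Fx →+* AlgebraicClosure Fx).comp
          (τ : AlgebraicClosure Fx →+* AlgebraicClosure Fx) = RingHom.id _ := by
        ext x
        exact τ.symm_apply_apply x
      have h5 : ∀ δ' : CD σ (AlgebraicClosure Fx), δ'.map (RingHom.id _) = δ' := by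
        intro δ'
        apply dfam_ext
        · exact Polynomial.map_id
        · exact Polynomial.map_id
        · funext j
          exact Polynomial.map_id
        · rfl
      rw [h4, h5, h5] at h3
      exact h3.symm
    exact ⟨Equiv.ofBijective p (Finite.injective_iff_bijective.1 hpinj), fun l => (hp l).symm⟩

end Pool.Agent.TT
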