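import Pool.Agent.TT.Defs
import Pool.Agent.Helper16.GT.Stmt

set_option autoImplicit false
set_option linter.unusedSectionVars false

/-! Project TT, block D (level of the variety `X`): definitions. -/

namespace Pool.Agent.TT

open Pool.Agent.Helper16 Pool.Agent.Helper16.BB Pool.Agent.Helper16.GT Pool.Agent.ThF Polynomial

variable {k σ : Type} [Field k]

/-- The form `F` does not vanish at the centre of the valuation ring `B` on the variety with point
`x`. -/
def NVal {E : Type} [Field E] [Algebra (RatFunc k) E] (B : ValuationSubring E) (x : σ → E)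
    (F : MvPolynomial σ (RatFunc k)) : Prop :=
  ∃ c : E, (∀ j, B.valuation (c * x j) ≤ 1) ∧
    B.valuation (MvPolynomial.aeval (fun j => c * x j) F) = 1

/-- `B` contains `K = k(t)`. -/
def OverK (k : Type) [Field k] {E : Type} [Field E] [Algebra (RatFunc k) E]
    (B : ValuationSubring E) : Prop := ∀ c : RatFunc k, algebraMap (RatFunc k) E c ∈ B

/-- The homogeneous ideal `P` is the centre of `B`. -/
def Cen {E : Type} [Field E] [Algebra (RatFunc k) E] (B : ValuationSubring E) (x : σ → E)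
    (P : Ideal (MvPolynomial σ (RatFunc k))) : Prop :=
  ∀ (F : MvPolynomial σ (RatFunc k)) (n : ℕ), F.IsHomogeneous n → (F ∈ P ↔ ¬ NVal B x F)

/-- `η` (with `η j₀ = 1`) is the generic point of the variety with equations `I`, with values in its
function field `Fx`. -/
structure IsGen {Fx : Type} [Field Fx] [Algebra (RatFunc k) Fx]
    (I : Set (MvPolynomial σ (RatFunc k))) (η : σ → Fx) (j₀ : σ) : Prop where
  one : η j₀ = 1
  mem : ∀ (F : MvPolynomial σ (RatFunc k)) (n : ℕ), F.IsHomogeneous n →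
    (MvPolynomial.aeval η F = 0 ↔ F ∈ Ideal.span I)
  top : IntermediateField.adjoin (RatFunc k) (Set.range η) = ⊤

/-- The generic point over the algebraic closure of the function field. -/
noncomputable def ηo {Fx : Type} [Field Fx] (η : σ → Fx) : σ → AlgebraicClosure Fx :=
  fun j => algebraMap Fx (AlgebraicClosure Fx) (η j)

/-- A finite family of data of rational curves through the point `x`. -/
structure CFam (I : Set (MvPolynomial σ (RatFunc k))) {E : Type} [Field E] [Algebra k E]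
    [Algebra (RatFunc k) E] {m : ℕ} (Δ : Fin m → CD σ E) (x : σ → E) : Prop where
  pos : 0 < m
  ok : ∀ l, (Δ l).Ok (k := k) I
  t : ∀ l, (Δ l).be.eval (Δ l).s ≠ 0 ∧ tt k E * (Δ l).be.eval (Δ l).s = (Δ l).al.eval (Δ l).s
  pt : ∀ l, ∃ c : E, c ≠ 0 ∧ ∀ j, ((Δ l).P j).eval (Δ l).s = c * x j

/-- The family is stable under automorphisms. -/
def Stab {Fx : Type} [Field Fx] {m : ℕ} (Δ : Fin m → CD σ (AlgebraicClosure Fx)) : Prop :=
  ∀ τ : AlgebraicClosure Fx ≃ₐ[Fx] AlgebraicClosure Fx, ∃ p : Fin m ≃ Fin m,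
    ∀ l, (Δ l).map (τ : AlgebraicClosure Fx →+* AlgebraicClosure Fx) = Δ (p l)

/-- `F / G` is a local equation of `D` at the centre of `B`. -/
def LocE (I : Ideal (MvPolynomial σ (RatFunc k))) (D : Dv I) {E : Type} [Field E]
    [Algebra (RatFunc k) E] (B : ValuationSubring E) (x : σ → E)
    (F G : MvPolynomial σ (RatFunc k)) : Prop :=
  ∀ P, (∀ E ∈ P.1, (∃ m, E.IsHomogeneous m) → ¬ NVal B x E) →
    D P = (ordP I P.1 F : ℤ) - (ordP I P.1 G : ℤ)

/-- The value of the functional at `B`, multiplied by `n`, is the value of `q`. -/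
def FVal [Finite σ] {I : Set (MvPolynomial σ (RatFunc k))} (φ : Quo (wOne σ) I →ₗ[ℚ] ℚ) (n : ℕ)
    {E : Type} [Field E] [Algebra k E] (B : ValuationSubring E) {m : ℕ} (Δ : Fin m → CD σ E)
    (q : E) : Prop :=
  ∀ g, FRels φ B Δ g → B.valuation g ^ n = B.valuation q

/-- Two valuation rings have the same centre. -/
def SameC (k : Type) [Field k] {E : Type} [Field E] [Algebra (RatFunc k) E]
    (B B' : ValuationSubring E) (x : σ → E) : Prop :=
  ∀ (F : MvPolynomial σ (RatFunc k)) (n : ℕ), F.IsHomogeneous n → (NVal B x F ↔ NVal B' x F)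

/-- In terms of valuation rings: `n` times the coefficient at `P` of the divisor of the functional
`φ` is `a`. -/
def DivAt [Finite σ] {I : Set (MvPolynomial σ (RatFunc k))} (φ : Quo (wOne σ) I →ₗ[ℚ] ℚ) (n : ℕ)
    {Fx : Type} [Field Fx] [Algebra k Fx] [Algebra (RatFunc k) Fx] (η : σ → Fx) {m : ℕ}
    (Δ : Fin m → CD σ (AlgebraicClosure Fx)) (P : Ideal (MvPolynomial σ (RatFunc k))) (a : ℤ) :
    Prop :=
  ∀ (B : ValuationSubring (AlgebraicClosure Fx)), OverK k B → Cen B (ηo η) P →
    ∀ (F G : MvPolynomial σ (RatFunc k)) (m : ℕ), F.IsHomogeneous m → G.IsHomogeneous m →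
      F ∉ Ideal.span I → G ∉ Ideal.span I →
      a = (ordP (Ideal.span I) P F : ℤ) - (ordP (Ideal.span I) P G : ℤ) →
      FVal φ n B Δ (MvPolynomial.aeval (ηo η) F / MvPolynomial.aeval (ηo η) G)

/-- The divisor `D` is `n` times the divisor of the functional `φ`. -/
def DivOf [Finite σ] {I : Set (MvPolynomial σ (RatFunc k))} (φ : Quo (wOne σ) I →ₗ[ℚ] ℚ) (n : ℕ)
    {Fx : Type} [Field Fx] [Algebra k Fx] [Algebra (RatFunc k) Fx] (η : σ → Fx) {m : ℕ}
    (Δ : Fin m → CD σ (AlgebraicClosure Fx)) (D : {P // IsPD (Ideal.span I) P} → ℤ) : Prop :=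
  ∀ P, DivAt φ n η Δ P.1 (D P)

end Pool.Agent.TT
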