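import Mathlib
import Pool.Agent.TT.DDefs

set_option autoImplicit false
set_option linter.unusedSectionVars false

/-! Project TT, block D5c: the function field and the generic point. -/

namespace Pool.Agent.TT

open Pool.Agent.Helper16 Pool.Agent.Helper16.BB Pool.Agent.Helper16.GT Pool.Agent.ThF Polynomial

variable {k σ : Type} [Field k] [Finite σ] {I : Set (MvPolynomial σ (RatFunc k))}

theorem dgen_smul {K : Type} [Field K] {F : Type} [Field F] [Algebra K F]
    {P : MvPolynomial σ K} {d : ℕ} (hd : P.IsHomogeneous d) (c : F) (ξ : σ → F) :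
    MvPolynomial.aeval (fun j => c * ξ j) P = c ^ d * MvPolynomial.aeval ξ P := by
  rw [MvPolynomial.aeval_def, MvPolynomial.aeval_def, MvPolynomial.eval₂_eq, MvPolynomial.eval₂_eq,
    Finset.mul_sum]
  refine Finset.sum_congr rfl fun s hs => ?_
  have h1 : s.degree = d := by
    have h2 := hd (MvPolynomial.mem_support_iff.1 hs)
    rw [← h2]
    exact DFunLike.congr_fun Finsupp.degree_eq_weight_one s
  simp only [mul_pow]
  rw [Finset.prod_mul_distrib, Finset.prod_pow_eq_pow_sum, ← h1]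
  change _ * (c ^ s.degree * _) = _
  ring

theorem dgen_aux {M : Type} [Field M] [Algebra k M] [Algebra (RatFunc k) M]
    [IsScalarTower k (RatFunc k) M] (ξ : σ → M) (hξ : ξ ≠ 0)
    (h1 : ∀ P ∈ I, MvPolynomial.aeval ξ P = 0)
    (h2 : ∀ (d : ℕ) (P : MvPolynomial σ (RatFunc k)), P.IsHomogeneous d →
      MvPolynomial.aeval ξ P = 0 → P ∈ Ideal.span I) :
    ∃ (Fx : Type) (_ : Field Fx) (_ : Algebra k Fx) (_ : Algebra (RatFunc k) Fx)
      (_ : IsScalarTower k (RatFunc k) Fx) (η : σ → Fx) (j₀ : σ) (e : Fx →ₐ[k] M),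
      IsGen I η j₀ ∧ ∀ c : RatFunc k, e (algebraMap (RatFunc k) Fx c) = algebraMap (RatFunc k) M c := by
  obtain ⟨j₀, hj₀⟩ := Function.ne_iff.1 hξ
  have hj : ξ j₀ ≠ 0 := hj₀
  let S : Set M := Set.range (fun i => ξ i / ξ j₀)
  let F' : IntermediateField (RatFunc k) M := IntermediateField.adjoin (RatFunc k) S
  let η : σ → F' := fun i => ⟨ξ i / ξ j₀, IntermediateField.subset_adjoin _ _ ⟨i, rfl⟩⟩
  refine ⟨F', inferInstance, inferInstance, inferInstance, inferInstance, η, j₀,
    (F'.val).restrictScalars k, ⟨?_, ?_, ?_⟩, ?_⟩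
  · apply Subtype.ext
    change ξ j₀ / ξ j₀ = 1
    exact div_self hj
  · intro F n hF
    have h3 : F'.val (MvPolynomial.aeval η F) = MvPolynomial.aeval (fun i => ξ i / ξ j₀) F := by
      rw [MvPolynomial.comp_aeval_apply]
      rfl
    have h4 : MvPolynomial.aeval η F = 0 ↔ MvPolynomial.aeval (fun i => ξ i / ξ j₀) F = 0 := by
      rw [← h3]
      exact (map_eq_zero_iff _ F'.val.injective).symm
    have h5 : (fun i => ξ i / ξ j₀) = fun i => (ξ j₀)⁻¹ * ξ i := by
      funext i
      rw [div_eq_mul_inv, mul_comm]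
    rw [h4, h5, dgen_smul hF]
    have h6 : (ξ j₀)⁻¹ ^ n ≠ 0 := pow_ne_zero _ (inv_ne_zero hj)
    constructor
    · intro h
      exact h2 n F hF ((mul_eq_zero.1 h).resolve_left h6)
    · intro h
      have h7 : Ideal.span I ≤ RingHom.ker (MvPolynomial.aeval ξ : MvPolynomial σ (RatFunc k) →ₐ[RatFunc k] M) :=
        Ideal.span_le.2 fun P hP => h1 P hP
      have h8 : MvPolynomial.aeval ξ F = 0 := h7 h
      rw [h8, mul_zero]
  · apply IntermediateField.lift_injective F'
    rw [IntermediateField.lift_adjoin, IntermediateField.lift_top, ← Set.range_comp]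
    rfl
  · intro c
    rfl

/-- D5c. The function field and the generic point from the hypotheses of `Target`: `Fx` is the
subfield of `RatFunc L` generated by the image of `j` and the `ξ i / ξ j₀`, `ξ j₀ ≠ 0`. -/
theorem d5_gen {L : Type} [Field L] [Algebra k L] (j : RatFunc k →ₐ[k] RatFunc L)
    (hI : ∀ P ∈ I, ∃ d, P.IsHomogeneous d)
    (ξ : σ → RatFunc L) (hξ : ξ ≠ 0)
    (h1 : ∀ P ∈ I, MvPolynomial.eval₂ (j : RatFunc k →+* RatFunc L) ξ P = 0)
    (h2 : ∀ (d : ℕ) (P : MvPolynomial σ (RatFunc k)), P.IsHomogeneous d →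
      MvPolynomial.eval₂ (j : RatFunc k →+* RatFunc L) ξ P = 0 → P ∈ Ideal.span I) :
    ∃ (Fx : Type) (_ : Field Fx) (_ : Algebra k Fx) (_ : Algebra (RatFunc k) Fx)
      (_ : IsScalarTower k (RatFunc k) Fx) (η : σ → Fx) (j₀ : σ) (e : Fx →ₐ[k] RatFunc L),
      IsGen I η j₀ ∧ ∀ c : RatFunc k, e (algebraMap (RatFunc k) Fx c) = j c := by
  let _ : Algebra (RatFunc k) (RatFunc L) := (j : RatFunc k →+* RatFunc L).toAlgebra
  have _ : IsScalarTower k (RatFunc k) (RatFunc L) :=
    IsScalarTower.of_algebraMap_eq fun x => (j.commutes x).symm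
  exact dgen_aux ξ hξ h1 h2

end Pool.Agent.TT
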