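import Pool.Agent.TT.Defs

set_option autoImplicit false
set_option linter.unusedSectionVars false

/-! TT-18. `gn` is a maximum over `Finset.range (natDegree + 1)`; `tr c r f ≠ 0` if `f ≠ 0`, `r ≠ 0` (degree of a
composite). `ncl_pos`: `p` itself. `ncl_eqv`: `Eqv` is symmetric and transitive. -/

namespace Pool.Agent.TT

open Pool.Agent.Helper16 Pool.Agent.Helper16.BB Pool.Agent.ThF Polynomial

variable {k σ : Type} [Field k] [Finite k] [Finite σ] {I : Set (MvPolynomial σ (RatFunc k))}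
variable {F : Type} [Field F] [Algebra k F]

theorem gv_tr_ne_zero {f : F[X]} (hf : f ≠ 0) (c : F) {r : F} (hr : r ≠ 0) : tr c r f ≠ 0 := by
  intro h
  rw [tr, Polynomial.comp_eq_zero_iff] at h
  rcases h with h | ⟨-, h⟩
  · exact hf h
  · have h1 := congrArg (fun q : F[X] => q.coeff 1) h
    simp [Polynomial.coeff_C] at h1
    exact hr h1

theorem gv_coeff_le_gn (A : ValuationSubring F) (f : F[X]) (i : ℕ) :
    A.valuation (f.coeff i) ≤ gn A f := by
  by_cases hi : i ≤ f.natDegree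
  · exact Finset.le_sup' (fun i => A.valuation (f.coeff i))
      (Finset.mem_range.2 (Nat.lt_succ_of_le hi))
  · rw [Polynomial.coeff_eq_zero_of_natDegree_lt (not_le.1 hi), map_zero]
    exact zero_le'

theorem gv_exists_gn (A : ValuationSubring F) (f : F[X]) :
    ∃ i, gn A f = A.valuation (f.coeff i) := by
  obtain ⟨i, -, hi⟩ := Finset.exists_mem_eq_sup' (s := Finset.range (f.natDegree + 1))
    ⟨0, by simp⟩ (fun i => A.valuation (f.coeff i))
  exact ⟨i, hi⟩

theorem gn_eq {A : ValuationSubring F} {f : F[X]} {u : F}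
    (h1 : ∀ i, A.valuation (f.coeff i) ≤ A.valuation u) (h2 : ∃ i, f.coeff i = u) :
    gn A f = A.valuation u := by
  obtain ⟨i, hi⟩ := h2
  refine le_antisymm (Finset.sup'_le _ _ fun j _ => h1 j) ?_
  rw [← hi]
  exact gv_coeff_le_gn A f i

theorem gn_ne_zero (A : ValuationSubring F) {f : F[X]} (hf : f ≠ 0) : gn A f ≠ 0 := by
  intro h
  have h1 := gv_coeff_le_gn A f f.natDegree
  rw [h, le_zero_iff, map_eq_zero] at h1
  exact hf (Polynomial.leadingCoeff_eq_zero.1 h1)

theorem gv_ne_zero (A : ValuationSubring F) {δ : CD σ F} (hδ : δ.be ≠ 0) (c : F) {r : F}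
    (hr : r ≠ 0) : gv A δ c r ≠ 0 := by
  have h1 : max (A.valuation (δ.s - c)) (A.valuation r) ≠ 0 := by
    intro h
    have h2 := le_max_right (A.valuation (δ.s - c)) (A.valuation r)
    rw [h, le_zero_iff, map_eq_zero] at h2
    exact hr h2
  exact div_ne_zero (pow_ne_zero _ h1) (gn_ne_zero A (gv_tr_ne_zero hδ c hr))

theorem gv_eq {A : ValuationSubring F} {δ : CD σ F} {c r m u : F} (hm : m = δ.s - c ∨ m = r)
    (h1 : A.valuation (δ.s - c) ≤ A.valuation m) (h2 : A.valuation r ≤ A.valuation m)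
    (hu : ∃ i, (tr c r δ.be).coeff i = u)
    (h3 : ∀ i, A.valuation ((tr c r δ.be).coeff i) ≤ A.valuation u) :
    gv A δ c r = A.valuation (m ^ δ.b / u) := by
  have h4 : max (A.valuation (δ.s - c)) (A.valuation r) = A.valuation m := by
    refine le_antisymm (max_le h1 h2) ?_
    rcases hm with hm | hm
    · rw [hm]; exact le_max_left _ _
    · rw [hm]; exact le_max_right _ _
  rw [gv, h4, gn_eq h3 hu, map_div₀, map_pow]

/-- `gv` is the value of one of finitely many elements, and the choice is given by comparisons. -/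
theorem exists_gv (A : ValuationSubring F) {δ : CD σ F} (hδ : δ.be ≠ 0) (c : F) {r : F}
    (hr : r ≠ 0) : ∃ m u : F, (m = δ.s - c ∨ m = r) ∧ m ≠ 0 ∧ u ≠ 0 ∧
      (∃ i, (tr c r δ.be).coeff i = u) ∧ A.valuation (δ.s - c) ≤ A.valuation m ∧
      A.valuation r ≤ A.valuation m ∧
      (∀ i, A.valuation ((tr c r δ.be).coeff i) ≤ A.valuation u) ∧
      gv A δ c r = A.valuation (m ^ δ.b / u) := by
  obtain ⟨i, hi⟩ := gv_exists_gn A (tr c r δ.be)
  have hu : (tr c r δ.be).coeff i ≠ 0 := by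
    intro h
    rw [h, map_zero] at hi
    exact gn_ne_zero A (gv_tr_ne_zero hδ c hr) hi
  have h3 : ∀ j, A.valuation ((tr c r δ.be).coeff j) ≤ A.valuation ((tr c r δ.be).coeff i) := by
    intro j
    rw [← hi]
    exact gv_coeff_le_gn A _ j
  obtain ⟨m, hm, hm0, h1, h2⟩ : ∃ m : F, (m = δ.s - c ∨ m = r) ∧ m ≠ 0 ∧
      A.valuation (δ.s - c) ≤ A.valuation m ∧ A.valuation r ≤ A.valuation m := by
    rcases le_total (A.valuation (δ.s - c)) (A.valuation r) with h | h
    · exact ⟨r, Or.inr rfl, hr, h, le_refl _⟩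
    · refine ⟨δ.s - c, Or.inl rfl, ?_, le_refl _, h⟩
      intro h0
      rw [h0, map_zero, le_zero_iff, map_eq_zero] at h
      exact hr h
  exact ⟨m, _, hm, hm0, hu, ⟨i, rfl⟩, h1, h2, h3, gv_eq hm h1 h2 ⟨i, rfl⟩ h3⟩

theorem gv_eqv_symm {A : ValuationSubring F} {c r c' r' : F} (h : Eqv A c r c' r') :
    Eqv A c' r' c r := by
  refine ⟨h.1.symm, ?_⟩
  rw [← h.1, A.valuation.map_sub_swap]
  exact h.2

theorem gv_eqv_trans {A : ValuationSubring F} {c r c' r' c'' r'' : F} (h : Eqv A c r c' r')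
    (h' : Eqv A c' r' c'' r'') : Eqv A c r c'' r'' := by
  refine ⟨h.1.trans h'.1, ?_⟩
  have h1 : c - c'' = (c - c') + (c' - c'') := by ring
  rw [h1]
  exact A.valuation.map_add_le h.2 (h'.2.trans_eq h.1.symm)

theorem ncl_pos (A : ValuationSubring F) (δ : CD σ F) {p : F × F} (hp : p ∈ δ.rts.offDiag) :
    0 < ncl A δ p.1 (p.2 - p.1) := by
  classical
  refine Finset.card_pos.2 ⟨p, Finset.mem_filter.2 ⟨hp, rfl, ?_⟩⟩
  rw [sub_self, map_zero]
  exact zero_le'

theorem ncl_eqv {A : ValuationSubring F} (δ : CD σ F) {c r c' r' : F} (h : Eqv A c r c' r') :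
    ncl A δ c r = ncl A δ c' r' := by
  classical
  unfold ncl
  congr 1
  refine Finset.filter_congr fun p _ => ?_
  exact ⟨fun h' => gv_eqv_trans (gv_eqv_symm h) h', fun h' => gv_eqv_trans h h'⟩

end Pool.Agent.TT
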