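import Pool.Agent.TT.Mass
import Pool.Agent.TT.Gv

set_option autoImplicit false
set_option linter.unusedSectionVars false

/-! TT-22. `frel_exists`: let `n` be a common denominator of the finitely many rational numbers, `z` the
numerators; each `gv` is the value of a nonzero element `g_p` (`exists_gv`); take `g` with
`g ^ n = ∏ g_p ^ z_p` (`IsAlgClosed.exists_pow_nat_eq`). `frel_iff`: if `v(g)^n = ∏ gv^z` and `v(g')^n' = ∏ gv^z'` with
`n' z = n z'` (as functions on `δ.rts.offDiag`) then `v(g)^(n n') = v(g')^(n n')`, so `v(g) = v(g')`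
(ordered group; `pow_left_inj₀`). `frel_add`: `mass_add`; `frel_zsmul`: `mass_smul`. -/

namespace Pool.Agent.TT

open Pool.Agent.Helper16 Pool.Agent.Helper16.BB Pool.Agent.ThF Polynomial

variable {k σ : Type} [Field k] [Finite k] [Finite σ] {I : Set (MvPolynomial σ (RatFunc k))}
variable {F : Type} [Field F] [IsAlgClosed F] [Algebra k F]

/-- A common denominator for finitely many rational numbers. -/
theorem fr0_den {ι : Type} (s : Finset ι) (f : ι → ℚ) :
    ∃ (n : ℕ) (z : ι → ℤ), 0 < n ∧ ∀ p ∈ s, (z p : ℚ) = n * f p := by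
  classical
  induction s using Finset.induction_on with
  | empty => exact ⟨1, fun _ => 0, one_pos, by simp⟩
  | insert a s ha ih =>
    obtain ⟨n, z, hn, hz⟩ := ih
    refine ⟨n * (f a).den, fun p => if p = a then n * (f a).num else z p * (f a).den,
      Nat.mul_pos hn (f a).den_pos, ?_⟩
    intro p hp
    by_cases h : p = a
    · subst h
      simp only [if_true]
      push_cast
      rw [mul_assoc, Rat.den_mul_eq_num]
    · simp only [if_neg h]
      have h1 := hz p (Finset.mem_of_mem_insert_of_ne hp h)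
      push_cast
      rw [h1]
      ring

theorem fr0_be {δ : CD σ F} {p : F × F} (hp : p ∈ δ.rts.offDiag) :
    δ.be ≠ 0 := by
  classical
  intro h
  have h1 := (Finset.mem_offDiag.1 hp).1
  unfold CD.rts at h1
  rw [h] at h1
  simp at h1

theorem fr0_sub {δ : CD σ F} {p : F × F} (hp : p ∈ δ.rts.offDiag) : p.2 - p.1 ≠ 0 := by
  have h1 := (Finset.mem_offDiag.1 hp).2.2
  exact sub_ne_zero.2 (Ne.symm h1)

theorem fr0_gv {A : ValuationSubring F} {δ : CD σ F} {p : F × F} (hp : p ∈ δ.rts.offDiag) :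
    gv A δ p.1 (p.2 - p.1) ≠ 0 :=
  gv_ne_zero A (fr0_be hp) _ (fr0_sub hp)

/-- R0. Existence. -/
theorem frel_exists (hI : ∀ P ∈ I, ∃ d, P.IsHomogeneous d) (φ : Quo (wOne σ) I →ₗ[ℚ] ℚ)
    (A : ValuationSubring F) (δ : CD σ F) (hδ : δ.Ok (k := k) I) : ∃ g, FRel φ A δ g := by
  classical
  obtain ⟨n, z, hn, hz⟩ := fr0_den δ.rts.offDiag
    (fun p => mass φ A δ p.1 (p.2 - p.1) / ncl A δ p.1 (p.2 - p.1))
  have hg : ∀ p : F × F, ∃ g : F, g ≠ 0 ∧ (p ∈ δ.rts.offDiag →
      gv A δ p.1 (p.2 - p.1) = A.valuation g) := by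
    intro p
    by_cases hp : p ∈ δ.rts.offDiag
    · obtain ⟨m, u, -, hm, hu, -, -, -, -, h⟩ :=
        exists_gv A (fr0_be hp) p.1 (fr0_sub hp)
      exact ⟨m ^ δ.b / u, div_ne_zero (pow_ne_zero _ hm) hu, fun _ => h⟩
    · exact ⟨1, one_ne_zero, fun h => absurd h hp⟩
  choose G hG0 hG using hg
  obtain ⟨g, hg⟩ := IsAlgClosed.exists_pow_nat_eq (∏ p ∈ δ.rts.offDiag, G p ^ z p) hn
  have h0 : (∏ p ∈ δ.rts.offDiag, G p ^ z p) ≠ 0 :=
    Finset.prod_ne_zero_iff.2 fun p _ => zpow_ne_zero _ (hG0 p)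
  refine ⟨g, ?_, n, z, hn, hz, ?_⟩
  · intro h
    rw [h, zero_pow hn.ne'] at hg
    exact h0 hg.symm
  · rw [← map_pow, hg, map_prod]
    refine Finset.prod_congr rfl fun p hp => ?_
    rw [map_zpow₀, hG p hp]

/-- R0. Uniqueness up to units. -/
theorem frel_iff (φ : Quo (wOne σ) I →ₗ[ℚ] ℚ) {A : ValuationSubring F} {δ : CD σ F} {g : F}
    (h : FRel φ A δ g) (g' : F) : FRel φ A δ g' ↔ A.valuation g' = A.valuation g := by
  classical
  constructor
  · intro h'
    obtain ⟨-, n, z, hn, hz, hv⟩ := h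
    obtain ⟨-, n', z', hn', hz', hv'⟩ := h'
    have h1 : A.valuation g' ^ (n' * n) = A.valuation g ^ (n' * n) := by
      rw [pow_mul, hv', mul_comm n' n, pow_mul, hv, ← Finset.prod_pow, ← Finset.prod_pow]
      refine Finset.prod_congr rfl fun p hp => ?_
      rw [← zpow_natCast, ← zpow_natCast, ← zpow_mul, ← zpow_mul]
      congr 1
      have h2 : ((z' p * n : ℤ) : ℚ) = ((z p * n' : ℤ) : ℚ) := by
        push_cast
        rw [hz p hp, hz' p hp]
        ring
      exact_mod_cast h2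
    exact (pow_left_inj₀ zero_le zero_le (Nat.mul_pos hn' hn).ne').1 h1
  · intro h'
    obtain ⟨h0, n, z, hn, hz, hv⟩ := h
    refine ⟨?_, n, z, hn, hz, by rw [h', hv]⟩
    intro h2
    rw [h2, map_zero] at h'
    exact h0 ((map_eq_zero _).1 h'.symm)

/-- R1. Additivity in the functional. -/
theorem frel_add {φ ψ : Quo (wOne σ) I →ₗ[ℚ] ℚ} {A : ValuationSubring F} {δ : CD σ F} {g g' : F}
    (h : FRel φ A δ g) (h' : FRel ψ A δ g') : FRel (φ + ψ) A δ (g * g') := by
  classical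
  obtain ⟨h0, n, z, hn, hz, hv⟩ := h
  obtain ⟨h0', n', z', hn', hz', hv'⟩ := h'
  refine ⟨mul_ne_zero h0 h0', n * n', fun p => z p * n' + z' p * n, Nat.mul_pos hn hn', ?_, ?_⟩
  · intro p hp
    push_cast
    rw [hz p hp, hz' p hp, mass_add]
    ring
  · rw [map_mul, mul_pow, pow_mul, hv, mul_comm n n', pow_mul, hv', ← Finset.prod_pow,
      ← Finset.prod_pow, ← Finset.prod_mul_distrib]
    refine Finset.prod_congr rfl fun p hp => ?_
    rw [← zpow_natCast, ← zpow_natCast, ← zpow_mul, ← zpow_mul,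
      ← zpow_add₀ (fr0_gv hp)]

theorem frel_zsmul {φ : Quo (wOne σ) I →ₗ[ℚ] ℚ} {A : ValuationSubring F} {δ : CD σ F} {g : F}
    (h : FRel φ A δ g) (n : ℤ) : FRel ((n : ℚ) • φ) A δ (g ^ n) := by
  classical
  obtain ⟨h0, N, z, hN, hz, hv⟩ := h
  refine ⟨zpow_ne_zero _ h0, N, fun p => n * z p, hN, ?_, ?_⟩
  · intro p hp
    push_cast
    rw [hz p hp, mass_smul]
    ring
  · have h1 : A.valuation (g ^ n) ^ N = (A.valuation g ^ N) ^ n := by
      rw [map_zpow₀, ← zpow_natCast, ← zpow_mul, ← zpow_natCast, ← zpow_mul, mul_comm]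
    rw [h1, hv, ← Finset.prod_zpow]
    refine Finset.prod_congr rfl fun p hp => ?_
    rw [← zpow_mul, mul_comm]

end Pool.Agent.TT
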