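import Mathlib
import Pool.Agent.ThF.Theta

set_option autoImplicit false
set_option linter.unusedSectionVars false

/-! Project TT (Theorem T for `MP_0b9e0b_ag`): definitions.

`CD σ F`: data of a rational curve `s ↦ (P_j(s))`, `t = al(s)/be(s)`, over a field `F`, with a
point `s` on it. `Pl k F L`: places of `F` with values in `L`. `FRel φ A δ g`: the nonzero element `g`
of `F` represents the value `F_A(δ)` (see `/team-store/helper7_T.md`), `A` a valuation subring of the
algebraically closed field `F`. -/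

namespace Pool.Agent.TT

open Pool.Agent.Helper16 Pool.Agent.Helper16.BB Pool.Agent.ThF Polynomial

/-- The algebraic closure of `k(t)`. -/
abbrev Kb (k : Type) [Field k] : Type := AlgebraicClosure (RatFunc k)

/-- Data of a rational curve over `F`, with a point on it. -/
structure CD (σ F : Type) [Field F] where
  /-- numerator of `t` -/
  al : F[X]
  /-- denominator of `t` -/
  be : F[X]
  /-- coordinates -/
  P : σ → F[X]
  /-- the point -/
  s : F

/-- The degree of `t = al / be`, for coprime `al`, `be`. -/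
def CD.b {σ F : Type} [Field F] (δ : CD σ F) : ℕ := max δ.al.natDegree δ.be.natDegree

/-- The conditions on the data. -/
structure CD.Ok {k σ F : Type} [Field k] [Field F] [Algebra k F]
    (I : Set (MvPolynomial σ (RatFunc k))) (δ : CD σ F) : Prop where
  fam : IsFam I δ.al δ.be δ.P
  cop : IsCoprime δ.al δ.be
  pos : 0 < δ.b
  ne : ∃ j, δ.P j ≠ 0

/-- Transport of data. -/
noncomputable def CD.map {σ F F' : Type} [Field F] [Field F'] (f : F →+* F') (δ : CD σ F) :
    CD σ F' where
  al := δ.al.map f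
  be := δ.be.map f
  P := fun j => (δ.P j).map f
  s := f δ.s

/-- A place of `F` with values in `L`, over `k`. -/
structure Pl (k F L : Type) [Field k] [Field F] [Field L] [Algebra k F] [Algebra k L] where
  /-- the valuation ring -/
  A : ValuationSubring F
  /-- the residue map -/
  r : A →+* L
  loc : ∀ x : A, r x = 0 ↔ A.valuation (x : F) < 1
  hk : ∀ a : k, ∃ h : algebraMap k F a ∈ A, r ⟨algebraMap k F a, h⟩ = algebraMap k L a

section Pl

variable {k F L : Type} [Field k] [Field F] [Field L] [Algebra k F] [Algebra k L]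

/-- `x` is integral with residue `y`. -/
def Pl.Sp (π : Pl k F L) (x : F) (y : L) : Prop := ∃ h : x ∈ π.A, π.r ⟨x, h⟩ = y

/-- The same for polynomials. -/
def Pl.SpP (π : Pl k F L) (f : F[X]) (g : L[X]) : Prop := ∀ i, π.Sp (f.coeff i) (g.coeff i)

/-- The same for data. -/
structure Pl.SpD {σ : Type} (π : Pl k F L) (δ : CD σ F) (δ' : CD σ L) : Prop where
  al : π.SpP δ.al δ'.al
  be : π.SpP δ.be δ'.be
  P : ∀ j, π.SpP (δ.P j) (δ'.P j)
  s : π.Sp δ.s δ'.s

/-- The place is surjective. -/
def Pl.Surj (π : Pl k F L) : Prop := ∀ y, ∃ x, π.Sp x y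

/-- Composition of a place with a valuation ring of the residue field. -/
def Pl.pull (π : Pl k F L) (B : ValuationSubring L) : ValuationSubring F where
  carrier := {x | ∃ h : x ∈ π.A, π.r ⟨x, h⟩ ∈ B}
  mul_mem' := by
    rintro x y ⟨hx, hx'⟩ ⟨hy, hy'⟩
    exact ⟨mul_mem hx hy, by
      have h1 : (⟨x * y, mul_mem hx hy⟩ : π.A) = ⟨x, hx⟩ * ⟨y, hy⟩ := rfl
      rw [h1, map_mul]
      exact mul_mem hx' hy'⟩
  one_mem' := ⟨one_mem _, by
    have h1 : (⟨1, one_mem _⟩ : π.A) = 1 := rfl
    rw [h1, map_one]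
    exact one_mem _⟩
  add_mem' := by
    rintro x y ⟨hx, hx'⟩ ⟨hy, hy'⟩
    exact ⟨add_mem hx hy, by
      have h1 : (⟨x + y, add_mem hx hy⟩ : π.A) = ⟨x, hx⟩ + ⟨y, hy⟩ := rfl
      rw [h1, map_add]
      exact add_mem hx' hy'⟩
  zero_mem' := ⟨zero_mem _, by
    have h1 : (⟨0, zero_mem _⟩ : π.A) = 0 := rfl
    rw [h1, map_zero]
    exact zero_mem _⟩
  neg_mem' := by
    rintro x ⟨hx, hx'⟩
    exact ⟨neg_mem hx, by
      have h1 : (⟨-x, neg_mem hx⟩ : π.A) = -⟨x, hx⟩ := rfl
      rw [h1, map_neg]
      exact neg_mem hx'⟩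
  mem_or_inv_mem' := by
    intro x
    by_cases hx0 : x = 0
    · left
      subst hx0
      exact ⟨zero_mem _, by
        have h1 : (⟨0, zero_mem _⟩ : π.A) = 0 := rfl
        rw [h1, map_zero]
        exact zero_mem _⟩
    · by_cases hx : x ∈ π.A
      · by_cases hi : x⁻¹ ∈ π.A
        · have h2 : π.r ⟨x, hx⟩ * π.r ⟨x⁻¹, hi⟩ = 1 := by
            rw [← map_mul]
            have h1 : (⟨x, hx⟩ * ⟨x⁻¹, hi⟩ : π.A) = 1 := Subtype.ext (mul_inv_cancel₀ hx0)
            rw [h1, map_one]
          rcases B.mem_or_inv_mem (π.r ⟨x, hx⟩) with h3 | h3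
          · exact Or.inl ⟨hx, h3⟩
          · right
            refine ⟨hi, ?_⟩
            rw [eq_inv_of_mul_eq_one_right h2]
            exact h3
        · left
          refine ⟨hx, ?_⟩
          have h2 : π.A.valuation x < 1 := by
            rcases lt_or_eq_of_le ((π.A.valuation_le_one_iff x).2 hx) with h | h
            · exact h
            · exfalso
              apply hi
              rw [← π.A.valuation_le_one_iff, map_inv₀, h, inv_one]
          rw [(π.loc ⟨x, hx⟩).2 h2]
          exact zero_mem _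
      · right
        have hi : x⁻¹ ∈ π.A := (π.A.mem_or_inv_mem x).resolve_left hx
        refine ⟨hi, ?_⟩
        have h2 : π.A.valuation x⁻¹ < 1 := by
          rcases lt_or_eq_of_le ((π.A.valuation_le_one_iff _).2 hi) with h | h
          · exact h
          · exfalso
            apply hx
            rw [← π.A.valuation_le_one_iff]
            have h3 := congrArg (fun z => z⁻¹) h
            simp only [map_inv₀, inv_inv, inv_one] at h3
            exact h3.le
        rw [(π.loc ⟨x⁻¹, hi⟩).2 h2]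
        exact zero_mem _

end Pl

/-- Affine change of the variable. -/
noncomputable def tr {F : Type} [Field F] (c r : F) (f : F[X]) : F[X] := f.comp (C c + C r * X)

section Vertex

variable {k σ F : Type} [Field k] [Field F] [Algebra k F]

/-- `(a, b, Q)` over `L` is a reduction of the data `δ` in the coordinate `(s - c) / r`. -/
def Vred {L : Type} [Field L] [Algebra k L] (π : Pl k F L) (δ : CD σ F) (c r : F) (a b : L[X])
    (Q : σ → L[X]) : Prop :=
  r ≠ 0 ∧ (∃ i j, a.coeff i * b.coeff j ≠ a.coeff j * b.coeff i) ∧ (∃ j, Q j ≠ 0) ∧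
  ∃ e e' : F, e ≠ 0 ∧ e' ≠ 0 ∧ π.SpP (C e * tr c r δ.al) a ∧ π.SpP (C e * tr c r δ.be) b ∧
    ∀ j, π.SpP (C e' * tr c r (δ.P j)) (Q j)

/-- `e` is the degree of the rational function `a / b`, and `τ` is the class of the curve with
`t = a / b` and coordinates `Q` (by specialisation to the algebraic closure of `k`). -/
def TRel [Finite σ] {L : Type} [Field L] [Algebra k L] (I : Set (MvPolynomial σ (RatFunc k)))
    (a b : L[X]) (Q : σ → L[X]) (e : ℕ) (τ : Quo (wOne σ) I) : Prop :=
  ∃ (n D : ℕ) (j₀ : σ) (i₀ : ℕ) (x : Idx σ n D → L) (G : L[X]) (c : L)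
    (y : Idx σ n D → AlgebraicClosure k),
    1 ≤ e ∧ PCond I e j₀ i₀ x ∧ G ≠ 0 ∧ c ≠ 0 ∧ a = G * pAB x true ∧ b = G * pAB x false ∧
    (∀ j, Q j = C c * pP x j) ∧
    (∀ q : MvPolynomial (Idx σ n D) k, MvPolynomial.aeval x q = 0 → MvPolynomial.aeval y q = 0) ∧
    τ = theta I y

/-- `(c, r)` is a vertex for the valuation ring `A`, with degree `e` and class `τ`. -/
def MRel [Finite σ] (I : Set (MvPolynomial σ (RatFunc k))) (A : ValuationSubring F) (δ : CD σ F)
    (c r : F) (e : ℕ) (τ : Quo (wOne σ) I) : Prop :=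
  ∃ (L : Type) (_ : Field L) (_ : Algebra k L) (π : Pl k F L) (a b : L[X]) (Q : σ → L[X]),
    π.A = A ∧ Vred π δ c r a b Q ∧ TRel I a b Q e τ

open scoped Classical in
/-- The mass of a vertex (zero if `(c, r)` is not a vertex). -/
noncomputable def mass [Finite σ] {I : Set (MvPolynomial σ (RatFunc k))}
    (φ : Quo (wOne σ) I →ₗ[ℚ] ℚ) (A : ValuationSubring F) (δ : CD σ F) (c r : F) : ℚ :=
  if h : ∃ p : ℕ × Quo (wOne σ) I, MRel I A δ c r p.1 p.2 then
    (h.choose.1 : ℚ) * φ h.choose.2 else 0

/-- The discs `(c, r)` and `(c', r')` are the same. -/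
def Eqv (A : ValuationSubring F) (c r c' r' : F) : Prop :=
  A.valuation r = A.valuation r' ∧ A.valuation (c - c') ≤ A.valuation r

open scoped Classical in
/-- The zeros, poles and ones of `t`. -/
noncomputable def CD.rts (δ : CD σ F) : Finset F := (δ.al * δ.be * (δ.al - δ.be)).roots.toFinset

open scoped Classical in
/-- The number of pairs `(p, q)` such that `(p, q - p)` is equivalent to `(c, r)`. -/
noncomputable def ncl (A : ValuationSubring F) (δ : CD σ F) (c r : F) : ℕ :=
  (δ.rts.offDiag.filter fun p => Eqv A c r p.1 (p.2 - p.1)).card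

/-- The Gauss norm. -/
noncomputable def gn (A : ValuationSubring F) (f : F[X]) : A.ValueGroup :=
  (Finset.range (f.natDegree + 1)).sup' ⟨0, by simp⟩ fun i => A.valuation (f.coeff i)

/-- The value of `(X - s) ^ b / be(X)` at the Gauss valuation of `(c, r)`. -/
noncomputable def gv (A : ValuationSubring F) (δ : CD σ F) (c r : F) : A.ValueGroup :=
  max (A.valuation (δ.s - c)) (A.valuation r) ^ δ.b / gn A (tr c r δ.be)

open scoped Classical in
/-- `g` represents the value of the functional: in additive notation, the value of `g` is the sum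
over the classes of vertices of the mass times `gv`. -/
def FRel [Finite σ] {I : Set (MvPolynomial σ (RatFunc k))} (φ : Quo (wOne σ) I →ₗ[ℚ] ℚ)
    (A : ValuationSubring F) (δ : CD σ F) (g : F) : Prop :=
  g ≠ 0 ∧ ∃ (n : ℕ) (z : F × F → ℤ), 0 < n ∧
    (∀ p ∈ δ.rts.offDiag, (z p : ℚ) =
      n * (mass φ A δ p.1 (p.2 - p.1) / ncl A δ p.1 (p.2 - p.1))) ∧
    A.valuation g ^ n = ∏ p ∈ δ.rts.offDiag, gv A δ p.1 (p.2 - p.1) ^ z p

/-- The same for a finite family of data (the sum of the values). -/
def FRels [Finite σ] {I : Set (MvPolynomial σ (RatFunc k))} (φ : Quo (wOne σ) I →ₗ[ℚ] ℚ)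
    (A : ValuationSubring F) {m : ℕ} (Δ : Fin m → CD σ F) (g : F) : Prop :=
  ∃ γ : Fin m → F, (∀ l, FRel φ A (Δ l) (γ l)) ∧ A.valuation g = A.valuation (∏ l, γ l)

/-- The valuation theoretic condition for a vertex: the reductions of `al` and `be` in the
coordinate `(s - c) / r`, scaled with the same factor, are not proportional. -/
def VC (A : ValuationSubring F) (δ : CD σ F) (c r : F) : Prop :=
  r ≠ 0 ∧ ∃ u : F, u ≠ 0 ∧
    (∀ i, A.valuation ((tr c r δ.al).coeff i) ≤ A.valuation u ∧
      A.valuation ((tr c r δ.be).coeff i) ≤ A.valuation u) ∧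
    ∃ i j, A.valuation ((tr c r δ.al).coeff i * (tr c r δ.be).coeff j -
      (tr c r δ.al).coeff j * (tr c r δ.be).coeff i) = A.valuation u ^ 2

end Vertex

/-- Valid data over a field (`a`, `b` may have a common factor). -/
structure Val {k σ L : Type} [Field k] [Field L] [Algebra k L]
    (I : Set (MvPolynomial σ (RatFunc k))) (a b : L[X]) (Q : σ → L[X]) : Prop where
  fam : IsFam I a b Q
  nc : ∃ i j, a.coeff i * b.coeff j ≠ a.coeff j * b.coeff i
  ne : ∃ j, Q j ≠ 0

end Pool.Agent.TT
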