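import Mathlib
import Pool.Agent.TT.Defs

set_option autoImplicit false
set_option linter.unusedSectionVars false

/-! TT-26, part B: the residue field of a surjective place is algebraically closed, and algebraic over
`RatFunc k`. -/

namespace Pool.Agent.TT

open Pool.Agent.Helper16 Pool.Agent.Helper16.BB Pool.Agent.ThF Polynomial

variable {k σ : Type} [Field k] {F : Type} [Field F] [Algebra k F]
variable {L : Type} [Field L] [Algebra k L]

theorem frcoarse_surj {π : Pl k F L} (hπ : π.Surj) : Function.Surjective π.r := by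
  intro y
  obtain ⟨x, h, hx⟩ := hπ y
  exact ⟨⟨x, h⟩, hx⟩

/-- The residue field is algebraically closed. -/
theorem frcoarse_algClosed [IsAlgClosed F] (π : Pl k F L) (hπ : π.Surj) : IsAlgClosed L := by
  refine IsAlgClosed.of_exists_root _ fun p hp hirr => ?_
  have hl : p ∈ Polynomial.lifts (π.r : π.A →+* L) := by
    rw [Polynomial.lifts_iff_coeff_lifts]
    intro i
    exact frcoarse_surj hπ _
  obtain ⟨q, hq, hqd, hqm⟩ := Polynomial.lifts_and_natDegree_eq_and_monic hl hp
  have hqm' : (q.map (algebraMap π.A F)).Monic := hqm.map _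
  have hdeg : (q.map (algebraMap π.A F)).degree ≠ 0 := by
    rw [hqm.degree_map, Polynomial.degree_eq_natDegree hqm.ne_zero, hqd]
    have h1 := hirr.natDegree_pos
    exact_mod_cast h1.ne'
  obtain ⟨t, ht⟩ := IsAlgClosed.exists_root (q.map (algebraMap π.A F)) hdeg
  have hint : IsIntegral π.A t := ⟨q, hqm, by
    rw [Polynomial.IsRoot.def, Polynomial.eval_map] at ht
    exact ht⟩
  obtain ⟨s, hs⟩ := IsIntegrallyClosed.isIntegral_iff.1 hint
  refine ⟨π.r s, ?_⟩
  have h2 : q.eval s = 0 := by
    rw [Polynomial.IsRoot.def, ← hs, Polynomial.eval_map_algebraMap,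
      Polynomial.aeval_algebraMap_apply] at ht
    have h3 := (map_eq_zero_iff _ (IsFractionRing.injective π.A F)).1 ht
    rwa [Polynomial.coe_aeval_eq_eval] at h3
  rw [← hq, Polynomial.eval_map, Polynomial.eval₂_hom, h2, map_zero]

/-- The residue field is an algebraic extension of `RatFunc k`. -/
theorem frcoarse_alg [Algebra (RatFunc k) F] [IsScalarTower k (RatFunc k) F] (π : Pl k F L)
    (hπ : π.Surj) (hK : ∀ c : RatFunc k, algebraMap (RatFunc k) F c ∈ π.A)
    (halg : ∀ x ∈ π.A, ∃ p : (RatFunc k)[X], p ≠ 0 ∧ π.A.valuation (aeval x p) < 1) :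
    ∃ (_ : Algebra (RatFunc k) L) (_ : IsScalarTower k (RatFunc k) L),
      Algebra.IsAlgebraic (RatFunc k) L := by
  let f : RatFunc k →+* π.A := (algebraMap (RatFunc k) F).codRestrict π.A hK
  letI inst : Algebra (RatFunc k) L := (π.r.comp f).toAlgebra
  have h1 : ∀ a : k, algebraMap k L a = algebraMap (RatFunc k) L (algebraMap k (RatFunc k) a) := by
    intro a
    obtain ⟨h2, h3⟩ := π.hk a
    rw [← h3]
    change _ = π.r (f (algebraMap k (RatFunc k) a))
    congr 1
    apply Subtype.ext
    change algebraMap k F a = algebraMap (RatFunc k) F (algebraMap k (RatFunc k) a)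
    rw [← IsScalarTower.algebraMap_apply]
  refine ⟨inst, IsScalarTower.of_algebraMap_eq h1, ⟨fun y => ?_⟩⟩
  obtain ⟨x, hx, hxy⟩ := hπ y
  obtain ⟨p, hp, hv⟩ := halg x hx
  refine ⟨p, hp, ?_⟩
  -- the value of `p` in the valuation ring
  have h4 : ((p.eval₂ f ⟨x, hx⟩ : π.A) : F) = aeval x p := by
    rw [Polynomial.aeval_def]
    have h5 := Polynomial.hom_eval₂ p f (π.A.subtype) (⟨x, hx⟩ : π.A)
    have h6 : (π.A.subtype).comp f = algebraMap (RatFunc k) F := rfl
    rw [h6] at h5
    exact h5
  have h7 : π.r (p.eval₂ f ⟨x, hx⟩) = 0 := by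
    rw [π.loc, h4]
    exact hv
  rw [Polynomial.hom_eval₂, hxy] at h7
  rw [Polynomial.aeval_def]
  exact h7

end Pool.Agent.TT
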