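import Mathlib

set_option autoImplicit false
set_option linter.unusedSectionVars false

/-! TT-26, part A: combinatorial lemmas for `frel_coarse`. -/

namespace Pool.Agent.TT

open Finset

/-- Half of the double counting. -/
theorem frcoarse_half {α β : Type} (T : Finset α) (T' : Finset β) (W : α → β → Prop)
    [∀ p q, Decidable (W p q)] (m n : α → ℚ) (n' : β → ℚ) (h1 : ∀ p ∈ T, ∃ q ∈ T', W p q)
    (h4 : ∀ p ∈ T, ∀ q ∈ T', W p q → ((T'.filter fun q' => W p q').card : ℚ) = n' q) :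
    ∑ p ∈ T, m p / n p = ∑ p ∈ T, ∑ q ∈ T', if W p q then m p / (n p * n' q) else 0 := by
  refine Finset.sum_congr rfl fun p hp => ?_
  obtain ⟨q₀, hq₀, hW⟩ := h1 p hp
  have hc : ((T'.filter fun q' => W p q').card : ℚ) ≠ 0 := by
    rw [Nat.cast_ne_zero]
    exact Finset.card_ne_zero_of_mem (Finset.mem_filter.2 ⟨hq₀, hW⟩)
  rw [← Finset.sum_filter]
  have h5 : ∀ q ∈ T'.filter (fun q' => W p q'), m p / (n p * n' q) =
      m p / n p / ((T'.filter fun q' => W p q').card : ℚ) := by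
    intro q hq
    obtain ⟨hq1, hq2⟩ := Finset.mem_filter.1 hq
    rw [← h4 p hp q hq1 hq2, div_div]
  rw [Finset.sum_congr rfl h5, Finset.sum_const, nsmul_eq_mul, mul_div_cancel₀ _ hc]

/-- Double counting. -/
theorem frcoarse_count {α β : Type} (T : Finset α) (T' : Finset β) (W : α → β → Prop)
    [∀ p q, Decidable (W p q)] (m n : α → ℚ) (m' n' : β → ℚ) (h1 : ∀ p ∈ T, ∃ q ∈ T', W p q)
    (h2 : ∀ q ∈ T', ∃ p ∈ T, W p q) (h3 : ∀ p ∈ T, ∀ q ∈ T', W p q → m p = m' q)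
    (h4 : ∀ p ∈ T, ∀ q ∈ T', W p q → ((T'.filter fun q' => W p q').card : ℚ) = n' q)
    (h5 : ∀ p ∈ T, ∀ q ∈ T', W p q → ((T.filter fun p' => W p' q).card : ℚ) = n p) :
    ∑ p ∈ T, m p / n p = ∑ q ∈ T', m' q / n' q := by
  rw [frcoarse_half T T' W m n n' h1 h4,
    frcoarse_half T' T (fun q p => W p q) m' n' n h2 (fun q hq p hp h => h5 p hp q hq h),
    Finset.sum_comm]
  refine Finset.sum_congr rfl fun q hq => Finset.sum_congr rfl fun p hp => ?_
  split_ifs with h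
  · rw [h3 p hp q hq h, mul_comm]
  · rfl

theorem frcoarse_zpow {α Γ : Type} [CommGroupWithZero Γ] (S : Finset α) {g : Γ} (hg : g ≠ 0)
    (z : α → ℤ) : ∏ p ∈ S, g ^ z p = g ^ (∑ p ∈ S, z p) := by
  classical
  induction S using Finset.induction_on with
  | empty => simp
  | insert a s ha ih => rw [Finset.prod_insert ha, Finset.sum_insert ha, ih, zpow_add₀ hg]

/-- Products over classes. -/
theorem frcoarse_prod {α Γ : Type} [CommGroupWithZero Γ] (S : Finset α) (R : α → α → Prop)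
    [∀ p q, Decidable (R p q)] (hrefl : ∀ p, R p p) (hsymm : ∀ p q, R p q → R q p)
    (htrans : ∀ p q r, R p q → R q r → R p r) (γ : α → Γ) (hγ : ∀ p ∈ S, γ p ≠ 0)
    (hγR : ∀ p ∈ S, ∀ q ∈ S, R p q → γ p = γ q) (z w : α → ℤ)
    (h : ∀ p ∈ S, ∑ q ∈ S.filter (fun q => R p q), z q = ∑ q ∈ S.filter (fun q => R p q), w q) :
    ∏ p ∈ S, γ p ^ z p = ∏ p ∈ S, γ p ^ w p := by
  classical
  have key : ∀ (z : α → ℤ), ∏ p ∈ S, γ p ^ z p =
      ∏ C ∈ S.image (fun p => S.filter fun q => R p q),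
        ∏ p ∈ S.filter (fun p => (S.filter fun q => R p q) = C), γ p ^ z p := by
    intro z
    rw [Finset.prod_fiberwise_of_maps_to (fun p hp => Finset.mem_image_of_mem _ hp)]
  rw [key z, key w]
  refine Finset.prod_congr rfl fun C hC => ?_
  obtain ⟨p₀, hp₀, rfl⟩ := Finset.mem_image.1 hC
  have h1 : S.filter (fun p => (S.filter fun q => R p q) = S.filter fun q => R p₀ q) =
      S.filter fun q => R p₀ q := by
    ext p
    rw [Finset.mem_filter, Finset.mem_filter]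
    refine and_congr_right fun hp => ⟨fun h2 => ?_, fun h2 => ?_⟩
    · have h3 : p ∈ S.filter fun q => R p q := Finset.mem_filter.2 ⟨hp, hrefl p⟩
      rw [h2] at h3
      exact (Finset.mem_filter.1 h3).2
    · ext q
      rw [Finset.mem_filter, Finset.mem_filter]
      exact and_congr_right fun hq => ⟨fun h3 => htrans _ _ _ h2 h3,
        fun h3 => htrans _ _ _ (hsymm _ _ h2) h3⟩
  have h2 : ∀ z : α → ℤ, ∏ p ∈ S.filter (fun q => R p₀ q), γ p ^ z p =
      γ p₀ ^ (∑ p ∈ S.filter (fun q => R p₀ q), z p) := by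
    intro z
    rw [← frcoarse_zpow _ (hγ p₀ hp₀)]
    refine Finset.prod_congr rfl fun p hp => ?_
    obtain ⟨h3, h4⟩ := Finset.mem_filter.1 hp
    rw [hγR p₀ hp₀ p h3 h4]
  rw [h1, h2 z, h2 w, h p₀ hp₀]

end Pool.Agent.TT
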