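import Pool.Agent.TT.TBase

set_option autoImplicit false
set_option linter.unusedSectionVars false

/-! TT-3. `exists_ksp`: the image of `aeval x : MvPolynomial ι k → L` is a finitely generated `k`-algebra
which is a domain, so it has a `k`-algebra homomorphism to the algebraic closure of `k`
(Nullstellensatz; `exists_extend` in ThF/Extend.lean with `K = C = k`, `D` the image, or
`Helper40.AlgAvoid.exists_point_ne`).
`trel_exists`: `exists_gcd` (used in `exists_param`, ThF/Theta.lean, please follow that proof over `L`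
instead of `κ`): `a = G a'`, `b = G b'`, `a'`, `b'` coprime, `exists_bezout_bounded`, `e` the maximum of
the degrees of `a'`, `b'`, `e ≥ 1` as `a`, `b` are not proportional; `n` and `D` large; the parameter `x`
is built as `c` in `exists_param`; `IsFam I a' b' Q` by `isFam_mul` (TT-1, with `G' = 1`); `c = 1`.
`y` by `exists_ksp`. -/

namespace Pool.Agent.TT

open Pool.Agent.Helper16 Pool.Agent.Helper16.BB Pool.Agent.ThF Polynomial

variable {k σ : Type} [Field k] [Finite σ] {I : Set (MvPolynomial σ (RatFunc k))}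
variable {L L' : Type} [Field L] [Algebra k L] [Field L'] [Algebra k L']

theorem exists_ksp {ι : Type} [Finite ι] (x : ι → L) :
    ∃ y : ι → AlgebraicClosure k, ∀ q : MvPolynomial ι k, MvPolynomial.aeval x q = 0 →
      MvPolynomial.aeval y q = 0 := by
  have hne : RingHom.ker (MvPolynomial.aeval x : MvPolynomial ι k →ₐ[k] L) ≠ ⊤ :=
    RingHom.ker_ne_top _
  obtain ⟨M, hM, hle⟩ := Ideal.exists_le_maximal _ hne
  let _ : Field (MvPolynomial ι k ⧸ M) := Ideal.Quotient.field M
  have : Algebra.FiniteType k (MvPolynomial ι k ⧸ M) :=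
    Algebra.FiniteType.of_surjective (Ideal.Quotient.mkₐ k M) Ideal.Quotient.mk_surjective
  have : Module.Finite k (MvPolynomial ι k ⧸ M) := finite_of_finite_type_of_isJacobsonRing k _
  let l : (MvPolynomial ι k ⧸ M) →ₐ[k] AlgebraicClosure k := IsAlgClosed.lift
  refine ⟨fun i => l (Ideal.Quotient.mk M (MvPolynomial.X i)), fun q hq => ?_⟩
  have h1 : MvPolynomial.aeval (fun i => l (Ideal.Quotient.mk M (MvPolynomial.X i))) =
      l.comp (Ideal.Quotient.mkₐ k M) := by
    ext i
    simp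
  have h2 : (Ideal.Quotient.mkₐ k M) q = 0 := Ideal.Quotient.eq_zero_iff_mem.2 (hle hq)
  rw [h1, AlgHom.comp_apply, h2, map_zero]

theorem trel_exists (hI : ∀ P ∈ I, ∃ d, P.IsHomogeneous d) {a b : L[X]} {Q : σ → L[X]}
    (h : Val I a b Q) : ∃ e τ, TRel I a b Q e τ := by
  classical
  obtain ⟨hfam, ⟨i₁, j₁, hij⟩, j₀, hj₀⟩ := h
  have ha0 : a ≠ 0 := by
    rintro rfl
    apply hij
    simp
  have hb0 : b ≠ 0 := by
    rintro rfl
    apply hij
    simp
  obtain ⟨G, A, B, U₀, W₀, hG, haA, hbB, hbez₀⟩ := exists_gcd a b ha0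
  have hG0 : G ≠ 0 := hG.ne_zero
  have hA0 : A ≠ 0 := by
    rintro rfl
    exact ha0 (by rw [haA, mul_zero])
  have hB0 : B ≠ 0 := by
    rintro rfl
    exact hb0 (by rw [hbB, mul_zero])
  -- the degree
  set e := max A.natDegree B.natDegree with he
  have he1 : 1 ≤ e := by
    by_contra hlt
    have h1 : A.natDegree = 0 := by omega
    have h2 : B.natDegree = 0 := by omega
    rw [natDegree_eq_zero] at h1 h2
    obtain ⟨u, rfl⟩ := h1
    obtain ⟨v, rfl⟩ := h2
    apply hij
    rw [haA, hbB]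
    simp only [coeff_mul_C]
    ring
  have hnc : ∃ i j, A.coeff i * B.coeff j ≠ A.coeff j * B.coeff i := by
    have h1 := tbase_nc (G := 1) one_ne_zero ⟨U₀, W₀, hbez₀⟩
      (show 0 < A.natDegree ∨ 0 < B.natDegree by omega)
    simpa only [one_mul] using h1
  have hAn : A.natDegree ≤ e := le_max_left _ _
  have hBn : B.natDegree ≤ e := le_max_right _ _
  obtain ⟨U, W, hU, hW, hbez⟩ := exists_bezout_bounded (A := A) (B := B) ⟨U₀, W₀, hbez₀⟩ e hAn
    hBn hA0
  have htop : ∃ c₁ c₂ : L, c₁ * A.coeff e + c₂ * B.coeff e = 1 := by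
    rcases le_total A.natDegree B.natDegree with h | h
    · have h1 : e = B.natDegree := max_eq_right h
      refine ⟨0, (B.coeff e)⁻¹, ?_⟩
      rw [zero_mul, zero_add, inv_mul_cancel₀]
      rw [h1]
      exact leadingCoeff_ne_zero.2 hB0
    · have h1 : e = A.natDegree := max_eq_left h
      refine ⟨(A.coeff e)⁻¹, 0, ?_⟩
      rw [zero_mul, add_zero, inv_mul_cancel₀]
      rw [h1]
      exact leadingCoeff_ne_zero.2 hA0
  obtain ⟨c₁, c₂, hc⟩ := htop
  -- a bound for the degrees of the coordinates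
  have := Fintype.ofFinite σ
  obtain ⟨D, hD⟩ : ∃ D, ∀ j, (Q j).natDegree ≤ D :=
    ⟨∑ j, (Q j).natDegree, fun j => Finset.single_le_sum (f := fun j => (Q j).natDegree)
      (fun _ _ => Nat.zero_le _) (Finset.mem_univ j)⟩
  set i₀ := (Q j₀).natDegree with hi₀
  have hQc : (Q j₀).coeff i₀ ≠ 0 := leadingCoeff_ne_zero.2 hj₀
  let x : Idx σ e D → L := Sum.elim
    (fun x => cond x.1 (A.coeff x.2) (B.coeff x.2)) (Sum.elim
      (fun x => (Q x.1).coeff x.2) (Sum.elim (fun x => cond x.1 (U.coeff x.2) (W.coeff x.2))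
        (Sum.elim (fun b => cond b c₁ c₂) fun _ => ((Q j₀).coeff i₀)⁻¹)))
  have h1 : pAB x true = A := mkp_of A hAn
  have h2 : pAB x false = B := mkp_of B hBn
  have h3 : ∀ j, pP x j = Q j := fun j => mkp_of (Q j) (hD j)
  have h4 : pUW x true = U := mkp_of U hU
  have h5 : pUW x false = W := mkp_of W hW
  obtain ⟨y, hy⟩ := exists_ksp (k := k) x
  have hfam' : IsFam I A B Q := by
    have h6 := isFam_mul hI A B Q G 1 hG0 one_ne_zero hnc
    simp only [one_mul] at h6
    rw [← h6, ← haA, ← hbB]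
    exact hfam
  refine ⟨e, theta I y, e, D, j₀, i₀, x, G, 1, y, he1, ⟨?_, ?_, ?_, ?_, ?_⟩, hG0, one_ne_zero, ?_,
    ?_, ?_, hy, rfl⟩
  · intro b i hi
    cases b
    · rw [h2]
      exact coeff_eq_zero_of_natDegree_lt (by omega)
    · rw [h1]
      exact coeff_eq_zero_of_natDegree_lt (by omega)
  · rw [h1, h2]
    exact hc
  · rw [h1, h2, h4, h5]
    exact hbez
  · rw [h3]
    exact mul_inv_cancel₀ hQc
  · rw [h1, h2, funext h3]
    exact hfam'
  · rw [h1]
    exact haA
  · rw [h2]
    exact hbB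
  · intro j
    rw [h3, C_1, one_mul]

end Pool.Agent.TT
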