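import Mathlib
import Pool.Agent.Helper16.BBUpper
import Pool.Agent.ThF.Main

set_option autoImplicit false
set_option linter.unusedSectionVars false

/-! TT-2. `theta_ker`: the class `theta I y` of a specialisation `y` (over the algebraic closure `κ` of `k`)
of a parameter `x` over a field `L` only depends on `x`. -/

namespace Pool.Agent.TT

open Pool.Agent.Helper16 Pool.Agent.Helper16.BB Pool.Agent.ThF Polynomial

variable {k σ : Type} [Field k] [Finite k] [Finite σ] {I : Set (MvPolynomial σ (RatFunc k))}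
variable {L L' : Type} [Field L] [Algebra k L] [Field L'] [Algebra k L']

theorem theta0_mkp_comp {A B : Type} [CommRing A] [CommRing B] (f : A →+* B) {m : ℕ}
    (a : Fin (m + 1) → A) : mkp (fun i => f (a i)) = (mkp a).map f := (mkp_map f a).symm

/-- Two specialisations of a family over a curve have the same class. -/
theorem theta0_curve (hI : ∀ P ∈ I, ∃ d, P.IsHomogeneous d) {n D e : ℕ} (he : 1 ≤ e)
    {j₀ : σ} {i₀ : ℕ} (E : Type) [Field E] [Algebra k E] (hE : IsFunctionField k E)
    (ξ : Idx σ n D → E)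
    (hξ : ∀ Q ∈ pEq I n D e j₀ i₀, MvPolynomial.aeval ξ Q = 0) (u u' : Place k E)
    (ρ : u.resField →ₐ[k] AlgebraicClosure k) (ρ' : u'.resField →ₐ[k] AlgebraicClosure k)
    (c c' : Idx σ n D → AlgebraicClosure k)
    (hc : ∀ i, u.val (ξ i) ≤ 1 ∧ ρ (u.res (ξ i)) = c i)
    (hc' : ∀ i, u'.val (ξ i) ≤ 1 ∧ ρ' (u'.res (ξ i)) = c' i) :
    theta I c = theta I c' := by
  have hcond : PCond I e j₀ i₀ ξ := (pEq_iff ξ).1 hξ
  -- the specialisations satisfy the conditions
  have hsp : ∀ (u : Place k E) (ρ : u.resField →ₐ[k] AlgebraicClosure k)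
      (c : Idx σ n D → AlgebraicClosure k), (∀ i, u.val (ξ i) ≤ 1 ∧ ρ (u.res (ξ i)) = c i) →
      PCond I e j₀ i₀ c := by
    intro u ρ c hc
    rw [← pEq_iff (k := k)]
    intro q hq
    have h2 := hξ q hq
    let ξ' : Idx σ n D → u.ring := fun i => ⟨ξ i, (hc i).1⟩
    have h3 : MvPolynomial.aeval ξ' q = 0 := by
      apply Subtype.ext
      change u.ring.val (MvPolynomial.aeval ξ' q) = 0
      rw [MvPolynomial.comp_aeval_apply]
      exact h2
    have h4 := congrArg (u.resRed ρ) h3
    rw [map_zero, MvPolynomial.comp_aeval_apply] at h4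
    rw [← h4]
    congr 2
    funext i
    exact ((u.resRed_apply ρ (hc i).1).trans (hc i).2).symm
  have hc1 := hsp u ρ c hc
  have hc2 := hsp u' ρ' c' hc'
  obtain ⟨s, hs⟩ := exists_rt hc1.isCoprime e he hc1.top
  obtain ⟨s', hs'⟩ := exists_rt hc2.isCoprime e he hc2.top
  rw [theta_eq hc1 hs, theta_eq hc2 hs']
  have hdeg : ∀ b, (pAB ξ b).natDegree ≤ e := by
    intro b
    rw [natDegree_le_iff_coeff_eq_zero]
    exact fun i hi => hcond.1 b i hi
  exact cls_eq_of_family hI hE (pAB ξ true) (pAB ξ false) (pP ξ) hcond.2.2.2.2 e he (hdeg _)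
    (hdeg _) u u' ρ ρ' _ _ _ _ (pP c) (pP c')
    (red_mkp u ρ _ _ fun i => hc _) (red_mkp u ρ _ _ fun i => hc _)
    (fun j => red_mkp u ρ _ _ fun i => hc _)
    (red_mkp u' ρ' _ _ fun i => hc' _) (red_mkp u' ρ' _ _ fun i => hc' _)
    (fun j => red_mkp u' ρ' _ _ fun i => hc' _)
    hc1.isCoprime hc1.top hc2.isCoprime hc2.top s s' hs hs' (hc1.isPoint hs) (hc2.isPoint hs')

theorem theta_conj (hI : ∀ P ∈ I, ∃ d, P.IsHomogeneous d) {n D e : ℕ} (he : 1 ≤ e)
    {j₀ : σ} {i₀ : ℕ} (c : Idx σ n D → AlgebraicClosure k) (hc : PCond I e j₀ i₀ c)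
    (τ : AlgebraicClosure k ≃ₐ[k] AlgebraicClosure k) :
    theta I (fun i => τ (c i)) = theta I c := by
  obtain ⟨T, hT⟩ := exists_extend τ
  obtain ⟨s, hs⟩ := exists_rt hc.isCoprime e he hc.top
  have hc' : PCond I e j₀ i₀ (fun i => τ (c i)) := by
    rw [← pEq_iff (k := k)]
    intro q hq
    have h1 := (pEq_iff (k := k) c).2 hc q hq
    have h2 := congrArg (τ : AlgebraicClosure k →ₐ[k] AlgebraicClosure k) h1
    rw [map_zero, MvPolynomial.comp_aeval_apply] at h2
    exact h2
  have hAB : ∀ b, pAB (fun i => τ (c i)) b = (pAB c b).map (τ : AlgebraicClosure k →+* _) := by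
    intro b
    rw [pAB, pAB, mkp_map]
    rfl
  have hP : ∀ j, pP (fun i => τ (c i)) j = (pP c j).map (τ : AlgebraicClosure k →+* _) := by
    intro j
    rw [pP, pP, mkp_map]
    rfl
  have hev : ∀ F : (AlgebraicClosure k)[X],
      ev (F.map (τ : AlgebraicClosure k →+* AlgebraicClosure k)) (T s) = T (ev F s) := by
    intro F
    rw [ev, ev, eval₂_map]
    have h3 := hom_eval₂ F (jc k).toRingHom (T : AlgebraicClosure (RatFunc k) →+*
      AlgebraicClosure (RatFunc k)) s
    refine Eq.trans ?_ h3.symm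
    congr 1
    apply RingHom.ext
    intro a
    exact (hT a).symm
  have hs' : IsRt (pAB (fun i => τ (c i)) true) (pAB (fun i => τ (c i)) false) (T s) := by
    refine ⟨?_, ?_⟩
    · rw [hAB, hev]
      exact fun h => hs.1 ((map_eq_zero_iff T T.injective).1 h)
    · rw [hAB, hAB, hev, hev, ← hs.2, map_mul]
      congr 1
      exact (T.commutes _).symm
  rw [theta_eq hc' hs', theta_eq hc hs, ← cls_conj T _ (hc.isPoint hs)]
  congr 1
  funext j
  rw [hP, hev]

theorem theta_ker (hI : ∀ P ∈ I, ∃ d, P.IsHomogeneous d) {n D e : ℕ} (he : 1 ≤ e)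
    {j₀ : σ} {i₀ : ℕ} (x : Idx σ n D → L) (hx : PCond I e j₀ i₀ x)
    (y y' : Idx σ n D → AlgebraicClosure k)
    (hy : ∀ q : MvPolynomial (Idx σ n D) k, MvPolynomial.aeval x q = 0 →
      MvPolynomial.aeval y q = 0)
    (hy' : ∀ q : MvPolynomial (Idx σ n D) k, MvPolynomial.aeval x q = 0 →
      MvPolynomial.aeval y' q = 0) : theta I y = theta I y' := by
  have hxq := (pEq_iff (k := k) x).2 hx
  have hyc : PCond I e j₀ i₀ y := (pEq_iff (k := k) y).1 fun q hq => hy q (hxq q hq)
  have hyc' : PCond I e j₀ i₀ y' := (pEq_iff (k := k) y').1 fun q hq => hy' q (hxq q hq)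
  let j : AlgebraicClosure k →ₐ[k] AlgebraicClosure L := IsAlgClosed.lift
  let f : MvPolynomial (Idx σ n D) (AlgebraicClosure k) →+* AlgebraicClosure L :=
    MvPolynomial.eval₂Hom (j : AlgebraicClosure k →+* AlgebraicClosure L)
      (fun i => algebraMap L (AlgebraicClosure L) (x i))
  have hf : ∀ q : MvPolynomial (Idx σ n D) k,
      f (MvPolynomial.map (algebraMap k (AlgebraicClosure k)) q) =
        algebraMap L (AlgebraicClosure L) (MvPolynomial.aeval x q) := by
    intro q
    have h1 : f (MvPolynomial.map (algebraMap k (AlgebraicClosure k)) q) =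
        MvPolynomial.aeval (fun i => algebraMap L (AlgebraicClosure L) (x i)) q := by
      change MvPolynomial.eval₂ _ _ (MvPolynomial.map _ q) = _
      rw [MvPolynomial.eval₂_map, MvPolynomial.aeval_def]
      congr 1
      apply RingHom.ext
      intro a
      exact j.commutes a
    rw [h1]
    have h2 := MvPolynomial.comp_aeval_apply (f := x)
      (IsScalarTower.toAlgHom k L (AlgebraicClosure L)) q
    exact h2.symm
  have hinj : Function.Injective (algebraMap L (AlgebraicClosure L)) :=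
    (algebraMap L (AlgebraicClosure L)).injective
  have hker : ∀ (z : Idx σ n D → AlgebraicClosure k),
      (∀ q : MvPolynomial (Idx σ n D) k, MvPolynomial.aeval x q = 0 →
        MvPolynomial.aeval z q = 0) →
      ∃ τ : AlgebraicClosure k ≃ₐ[k] AlgebraicClosure k,
        ∀ Q ∈ RingHom.ker f, MvPolynomial.aeval (fun i => τ (z i)) Q = 0 := by
    intro z hz
    apply open_lift
    intro F hF
    apply hz
    apply hinj
    rw [map_zero, ← hf]
    exact (RingHom.mem_ker).1 hF
  obtain ⟨τ, hτ⟩ := hker y hy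
  obtain ⟨τ', hτ'⟩ := hker y' hy'
  have hmain : theta I (fun i => τ (y i)) = theta I (fun i => τ' (y' i)) := by
    refine conn_component (pEq I n D e j₀ i₀) (theta I) ?_ (RingHom.ker f)
      (RingHom.ker_isPrime f) ?_ _ _ hτ hτ'
    · intro E _ _ hE ξ hξ u u' ρ ρ' c c' hc hc'
      exact theta0_curve hI he E hE ξ hξ u u' ρ ρ' c c' hc hc'
    · intro Q hQ
      rw [RingHom.mem_ker, hf, hxq Q hQ, map_zero]
  rw [← theta_conj hI he y hyc τ, ← theta_conj hI he y' hyc' τ']
  exact hmain

end Pool.Agent.TT
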