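import Mathlib
import Pool.Agent.TT.TExists
import Pool.Agent.TT.Theta0

set_option autoImplicit false
set_option linter.unusedSectionVars false

/-! TT-7. Affine changes of the variable. If `(x, G, c, y)` are the data of a relation for `(a, b, Q)`, the
coefficients of the transformed polynomials are the parameter `x'` of a relation for the transformed
data. Specialise `x`, `x'`, `c`, `r` simultaneously (`exists_ksp`): if `s'` is a root for the
specialisation of `x'` then `c₀ + r₀ s'` is a root for the one of `x`, and the points are equal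
(`theta_eq`, `theta_ker`). The other direction is the same statement for the inverse change. -/

namespace Pool.Agent.TT

open Pool.Agent.Helper16 Pool.Agent.Helper16.BB Pool.Agent.ThF Polynomial

section taff

variable {A A' : Type} [CommRing A] [CommRing A'] {σ : Type} {n D : ℕ}

theorem taff_pAB_map (f : A →+* A') (x : Idx σ n D → A) (b : Bool) :
    (pAB x b).map f = pAB (fun i => f (x i)) b := mkp_map f _

theorem taff_pP_map (f : A →+* A') (x : Idx σ n D → A) (j : σ) :
    (pP x j).map f = pP (fun i => f (x i)) j := mkp_map f _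

end taff

section taff2

variable {F : Type} [Field F]

theorem taff_natDegree_lin (c r : F) (hr : r ≠ 0) : (C c + C r * X : F[X]).natDegree = 1 := by
  rw [add_comm]
  exact natDegree_linear hr

theorem taff_natDegree (c r : F) (hr : r ≠ 0) (f : F[X]) : (tr c r f).natDegree = f.natDegree := by
  rw [tr, natDegree_comp, taff_natDegree_lin c r hr, mul_one]

theorem taff_lead (c r : F) (hr : r ≠ 0) (f : F[X]) :
    (tr c r f).coeff f.natDegree = f.leadingCoeff * r ^ f.natDegree := by
  have h1 := leadingCoeff_comp (p := f) (q := C c + C r * X)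
    (by rw [taff_natDegree_lin c r hr]; exact one_ne_zero)
  have h2 : (C c + C r * X : F[X]).leadingCoeff = r := by
    rw [add_comm]
    exact leadingCoeff_linear hr
  rw [h2] at h1
  rw [← h1, leadingCoeff]
  congr 1
  exact (taff_natDegree c r hr f).symm

theorem taff_coeff_top (c r : F) (hr : r ≠ 0) (f : F[X]) (e : ℕ) (hf : f.natDegree ≤ e) :
    (tr c r f).coeff e = f.coeff e * r ^ e := by
  rcases hf.lt_or_eq with h | h
  · rw [coeff_eq_zero_of_natDegree_lt h, coeff_eq_zero_of_natDegree_lt
      (by rw [taff_natDegree c r hr]; exact h), zero_mul]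
  · subst h
    exact taff_lead c r hr f

theorem taff_ne_zero (c r : F) (hr : r ≠ 0) (f : F[X]) (hf : f ≠ 0) : tr c r f ≠ 0 := by
  intro h
  have h1 := taff_lead c r hr f
  rw [h, coeff_zero] at h1
  exact mul_ne_zero (leadingCoeff_ne_zero.2 hf) (pow_ne_zero _ hr) h1.symm

theorem taff_mul (c r : F) (f g : F[X]) : tr c r (f * g) = tr c r f * tr c r g := mul_comp f g _

theorem taff_add (c r : F) (f g : F[X]) : tr c r (f + g) = tr c r f + tr c r g := add_comp

theorem taff_C (c r d : F) : tr c r (C d) = C d := C_comp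

theorem taff_inv (c r : F) (hr : r ≠ 0) (f : F[X]) :
    tr (-c / r) (1 / r) (tr c r f) = f := by
  rw [tr, tr, comp_assoc]
  have h1 : (C c + C r * X : F[X]).comp (C (-c / r) + C (1 / r) * X) = X := by
    simp only [add_comp, mul_comp, C_comp, X_comp]
    rw [mul_add, ← mul_assoc, ← C_mul, ← C_mul, ← add_assoc, ← C_add]
    rw [show c + r * (-c / r) = 0 by field_simp; ring, show r * (1 / r) = 1 by field_simp, C_0, C_1]
    ring
  rw [h1, comp_X]

end taff2

section taff3

variable {k ι L L' : Type} [Field k] [CommRing L] [Algebra k L] [CommRing L'] [Algebra k L']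

theorem taff_spec {z : ι → L} {w : ι → L'}
    (hw : ∀ q : MvPolynomial ι k, MvPolynomial.aeval z q = 0 → MvPolynomial.aeval w q = 0)
    (F : (MvPolynomial ι k)[X])
    (h : F.map ((MvPolynomial.aeval z : MvPolynomial ι k →ₐ[k] L) : MvPolynomial ι k →+* L) = 0) :
    F.map ((MvPolynomial.aeval w : MvPolynomial ι k →ₐ[k] L') : MvPolynomial ι k →+* L') = 0 := by
  ext i
  rw [coeff_map, coeff_zero]
  apply hw
  have h1 := congrArg (fun G => G.coeff i) h
  simp only [coeff_map, coeff_zero] at h1
  exact h1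

end taff3

variable {k σ : Type} [Field k] [Finite k] [Finite σ] {I : Set (MvPolynomial σ (RatFunc k))}
variable {L L' : Type} [Field L] [Algebra k L] [Field L'] [Algebra k L']

theorem taff_mpr (hI : ∀ P ∈ I, ∃ d, P.IsHomogeneous d) {a b : L[X]}
    {Q : σ → L[X]} {e : ℕ} {τ : Quo (wOne σ) I} (c r : L) (hr : r ≠ 0)
    (h : TRel I a b Q e τ) :
    TRel I (tr c r a) (tr c r b) (fun j => tr c r (Q j)) e τ := by
  obtain ⟨n, D, j₀, i₀, x, G, c0, y, he, hx, hG, hc0, ha, hb, hQ, hy, hτ⟩ := h
  have hABd : ∀ t, (pAB x t).natDegree ≤ e := fun t =>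
    natDegree_le_iff_coeff_eq_zero.2 fun i hi => hx.1 t i hi
  have hP0 : pP x j₀ ≠ 0 := by
    intro h0
    have h1 := hx.2.2.2.1
    rw [h0, coeff_zero, zero_mul] at h1
    exact zero_ne_one h1
  have hre : r ^ e ≠ 0 := pow_ne_zero _ hr
  set i₁ := (pP x j₀).natDegree with hi₁
  let x' : Idx σ n D → L := Sum.elim (fun p => (tr c r (pAB x p.1)).coeff p.2)
    (Sum.elim (fun p => (tr c r (pP x p.1)).coeff p.2)
      (Sum.elim (fun p => (tr c r (pUW x p.1)).coeff p.2)
        (Sum.elim (fun t => pC x t * (r ^ e)⁻¹)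
          (fun _ => ((tr c r (pP x j₀)).coeff i₁)⁻¹))))
  have hAB' : ∀ t, pAB x' t = tr c r (pAB x t) := fun t =>
    mkp_of (tr c r (pAB x t)) ((taff_natDegree c r hr _).trans_le (mkp_natDegree _))
  have hP' : ∀ j, pP x' j = tr c r (pP x j) := fun j =>
    mkp_of (tr c r (pP x j)) ((taff_natDegree c r hr _).trans_le (mkp_natDegree _))
  have hUW' : ∀ t, pUW x' t = tr c r (pUW x t) := fun t =>
    mkp_of (tr c r (pUW x t)) ((taff_natDegree c r hr _).trans_le (mkp_natDegree _))
  have hx' : PCond I e j₀ i₁ x' := by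
    refine ⟨?_, ?_, ?_, ?_, ?_⟩
    · intro t i hi
      rw [hAB']
      apply coeff_eq_zero_of_natDegree_lt
      rw [taff_natDegree c r hr]
      exact lt_of_le_of_lt (hABd t) hi
    · rw [hAB', hAB', taff_coeff_top c r hr _ e (hABd _), taff_coeff_top c r hr _ e (hABd _)]
      have h1 : ∀ t, pC x' t = pC x t * (r ^ e)⁻¹ := fun t => rfl
      rw [h1, h1]
      have h2 := hx.2.1
      calc pC x true * (r ^ e)⁻¹ * ((pAB x true).coeff e * r ^ e) +
          pC x false * (r ^ e)⁻¹ * ((pAB x false).coeff e * r ^ e)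
          = (pC x true * (pAB x true).coeff e + pC x false * (pAB x false).coeff e) *
            ((r ^ e)⁻¹ * r ^ e) := by ring
        _ = 1 := by rw [h2, inv_mul_cancel₀ hre, one_mul]
    · rw [hAB', hAB', hUW', hUW', ← taff_mul, ← taff_mul, ← taff_add, hx.2.2.1]
      exact one_comp
    · rw [hP']
      have h1 : pE x' = ((tr c r (pP x j₀)).coeff i₁)⁻¹ := rfl
      rw [h1]
      apply mul_inv_cancel₀
      rw [hi₁, taff_lead c r hr]
      exact mul_ne_zero (leadingCoeff_ne_zero.2 hP0) (pow_ne_zero _ hr)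
    · have h1 := isFam_comp hx.2.2.2.2 (C c + C r * X)
      rw [hAB', hAB']
      have h2 : pP x' = fun j => (pP x j).comp (C c + C r * X) := funext hP'
      rw [h2]
      exact h1
  let z : Idx σ n D ⊕ (Idx σ n D ⊕ Bool) → L := Sum.elim x (Sum.elim x' fun t => cond t c r)
  obtain ⟨w, hw⟩ := exists_ksp (k := k) z
  let w₁ : Idx σ n D → AlgebraicClosure k := fun i => w (Sum.inl i)
  let w₂ : Idx σ n D → AlgebraicClosure k := fun i => w (Sum.inr (Sum.inl i))
  let c₀ : AlgebraicClosure k := w (Sum.inr (Sum.inr true))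
  let r₀ : AlgebraicClosure k := w (Sum.inr (Sum.inr false))
  have h1 : ∀ q : MvPolynomial (Idx σ n D) k, MvPolynomial.aeval x q = 0 →
      MvPolynomial.aeval w₁ q = 0 := by
    intro q hq
    have h2 := hw (MvPolynomial.rename Sum.inl q) (by
      rw [MvPolynomial.aeval_rename]
      exact hq)
    rw [MvPolynomial.aeval_rename] at h2
    exact h2
  have h2 : ∀ q : MvPolynomial (Idx σ n D) k, MvPolynomial.aeval x' q = 0 →
      MvPolynomial.aeval w₂ q = 0 := by
    intro q hq
    have h3 := hw (MvPolynomial.rename (fun i => Sum.inr (Sum.inl i)) q) (by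
      rw [MvPolynomial.aeval_rename]
      exact hq)
    rw [MvPolynomial.aeval_rename] at h3
    exact h3
  have hw₁ : PCond I e j₀ i₀ w₁ := (pEq_iff w₁).1 fun q hq => h1 q ((pEq_iff x).2 hx q hq)
  have hw₂ : PCond I e j₀ i₁ w₂ := (pEq_iff w₂).1 fun q hq => h2 q ((pEq_iff x').2 hx' q hq)
  have hker : theta I w₁ = theta I y := theta_ker hI he x hx w₁ y h1 hy
  -- the relations between `w₁` and `w₂`
  have hrelAB : ∀ t, pAB w₂ t = (pAB w₁ t).comp (C c₀ + C r₀ * X) := by
    intro t
    have h3 := taff_spec (k := k) hw (pAB (fun i => (MvPolynomial.X (Sum.inr (Sum.inl i)) :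
      MvPolynomial (Idx σ n D ⊕ (Idx σ n D ⊕ Bool)) k)) t -
      (pAB (fun i => MvPolynomial.X (Sum.inl i)) t).comp
        (C (MvPolynomial.X (Sum.inr (Sum.inr true))) +
          C (MvPolynomial.X (Sum.inr (Sum.inr false))) * X)) (by
        rw [Polynomial.map_sub, Polynomial.map_comp, taff_pAB_map, taff_pAB_map,
          Polynomial.map_add, Polynomial.map_mul, map_C, map_C, map_X]
        simp only [RingHom.coe_coe, MvPolynomial.aeval_X]
        rw [sub_eq_zero]
        exact hAB' t)
    rw [Polynomial.map_sub, Polynomial.map_comp, taff_pAB_map, taff_pAB_map,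
      Polynomial.map_add, Polynomial.map_mul, map_C, map_C, map_X] at h3
    simp only [RingHom.coe_coe, MvPolynomial.aeval_X] at h3
    exact sub_eq_zero.1 h3
  have hrelP : ∀ j, pP w₂ j = (pP w₁ j).comp (C c₀ + C r₀ * X) := by
    intro j
    have h3 := taff_spec (k := k) hw (pP (fun i => (MvPolynomial.X (Sum.inr (Sum.inl i)) :
      MvPolynomial (Idx σ n D ⊕ (Idx σ n D ⊕ Bool)) k)) j -
      (pP (fun i => MvPolynomial.X (Sum.inl i)) j).comp
        (C (MvPolynomial.X (Sum.inr (Sum.inr true))) +
          C (MvPolynomial.X (Sum.inr (Sum.inr false))) * X)) (by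
        rw [Polynomial.map_sub, Polynomial.map_comp, taff_pP_map, taff_pP_map,
          Polynomial.map_add, Polynomial.map_mul, map_C, map_C, map_X]
        simp only [RingHom.coe_coe, MvPolynomial.aeval_X]
        rw [sub_eq_zero]
        exact hP' j)
    rw [Polynomial.map_sub, Polynomial.map_comp, taff_pP_map, taff_pP_map,
      Polynomial.map_add, Polynomial.map_mul, map_C, map_C, map_X] at h3
    simp only [RingHom.coe_coe, MvPolynomial.aeval_X] at h3
    exact sub_eq_zero.1 h3
  obtain ⟨s', hs'⟩ := exists_rt hw₂.isCoprime e he hw₂.top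
  have hev : ∀ F : (AlgebraicClosure k)[X], ev (F.comp (C c₀ + C r₀ * X)) s' =
      ev F (ev (C c₀ + C r₀ * X) s') := fun F => eval₂_comp (jc k).toRingHom
  have hs : IsRt (pAB w₁ true) (pAB w₁ false) (ev (C c₀ + C r₀ * X) s') := by
    have h3 := hs'
    rw [hrelAB, hrelAB] at h3
    unfold IsRt at h3 ⊢
    rw [hev, hev] at h3
    exact h3
  have hth : theta I w₂ = theta I w₁ := by
    rw [theta_eq hw₂ hs', theta_eq hw₁ hs]
    congr 1
    funext j
    rw [hrelP, hev]
  refine ⟨n, D, j₀, i₁, x', tr c r G, c0, w₂, he, hx', taff_ne_zero c r hr G hG, hc0, ?_, ?_, ?_,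
    h2, ?_⟩
  · rw [ha, taff_mul, hAB']
  · rw [hb, taff_mul, hAB']
  · intro j
    rw [hP']
    change tr c r (Q j) = _
    rw [hQ, taff_mul, taff_C]
  · rw [hth, hker, hτ]

theorem trel_affine (hI : ∀ P ∈ I, ∃ d, P.IsHomogeneous d) {a b : L[X]}
    {Q : σ → L[X]} {e : ℕ} {τ : Quo (wOne σ) I} (c r : L) (hr : r ≠ 0) :
    TRel I (tr c r a) (tr c r b) (fun j => tr c r (Q j)) e τ ↔ TRel I a b Q e τ := by
  constructor
  · intro h
    have h1 := taff_mpr hI (-c / r) (1 / r) (one_div_ne_zero hr) h
    rw [taff_inv c r hr, taff_inv c r hr] at h1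
    have h2 : (fun j => tr (-c / r) (1 / r) (tr c r (Q j))) = Q :=
      funext fun j => taff_inv c r hr _
    rw [h2] at h1
    exact h1
  · exact taff_mpr hI c r hr

end Pool.Agent.TT
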