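import Mathlib
import Pool.Agent.TT.TAff

set_option autoImplicit false
set_option linter.unusedSectionVars false

/-! TT-13. `mrel_eqv`: let `π` be as in `exists_pl` for `A`. `tr c' r' f = tr α u (tr c r f)` with
`α = (c' - c) / r ∈ A`, `u = r' / r` a unit of `A`. If `Vred π δ c r a b Q` with factors `e`, `e'`, then
`Vred π δ c' r' (tr ᾱ ū a) (tr ᾱ ū b) (tr ᾱ ū Q)` with the same factors (reduction commutes with `tr`).
`mrel_iff`, `trel_affine` (TT-7). The other direction by symmetry.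
`gv_eqv`: `max (v (s - c)) (v r)` does not change as `v (c - c') ≤ v r = v r'`, and the Gauss norm of
`tr c r δ.be` is the one of `tr α u (tr c r δ.be)` (each coefficient of `tr α u g` is a combination of
coefficients of `g` with coefficients in `A`, and conversely). -/

namespace Pool.Agent.TT

open Pool.Agent.Helper16 Pool.Agent.Helper16.BB Pool.Agent.ThF Polynomial

variable {k σ : Type} [Field k] [Finite k] [Finite σ] {I : Set (MvPolynomial σ (RatFunc k))}
variable {F : Type} [Field F] [Algebra k F]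

theorem eqv_refl (A : ValuationSubring F) (c r : F) : Eqv A c r c r := by
  refine ⟨rfl, ?_⟩
  rw [sub_self, map_zero]
  exact zero_le

theorem eqv_symm {A : ValuationSubring F} {c r c' r' : F} (h : Eqv A c r c' r') :
    Eqv A c' r' c r := by
  refine ⟨h.1.symm, ?_⟩
  rw [← h.1, Valuation.map_sub_swap]
  exact h.2

theorem eqv_trans {A : ValuationSubring F} {c r c' r' c'' r'' : F} (h : Eqv A c r c' r')
    (h' : Eqv A c' r' c'' r'') : Eqv A c r c'' r'' := by
  refine ⟨h.1.trans h'.1, ?_⟩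
  have h1 : c - c'' = (c - c') + (c' - c'') := by ring
  rw [h1]
  refine le_trans (Valuation.map_add _ _ _) (max_le h.2 ?_)
  rw [h.1]
  exact h'.2

/-- Composite of affine changes. -/
theorem meqv_tr_tr {F : Type} [Field F] (c r α u : F) (f : F[X]) :
    tr α u (tr c r f) = tr (c + r * α) (r * u) f := by
  unfold tr
  rw [Polynomial.comp_assoc]
  congr 1
  simp only [add_comp, mul_comp, C_comp, X_comp, C_add, C_mul]
  ring

theorem meqv_tr_id {F : Type} [Field F] (f : F[X]) : tr 0 1 f = f := by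
  unfold tr
  rw [C_0, C_1, zero_add, one_mul, comp_X]

theorem meqv_tr_C_mul {F : Type} [Field F] (c r u : F) (f : F[X]) :
    tr c r (C u * f) = C u * tr c r f := by
  unfold tr
  rw [mul_comp, C_comp]

theorem meqv_tr_zero {F : Type} [Field F] (c r : F) : tr c r (0 : F[X]) = 0 := by
  unfold tr
  rw [zero_comp]

theorem meqv_tr_inv {F : Type} [Field F] (c : F) {r : F} (hr : r ≠ 0) (f : F[X]) :
    tr (-c / r) r⁻¹ (tr c r f) = f := by
  rw [meqv_tr_tr]
  have h1 : c + r * (-c / r) = 0 := by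
    field_simp
    ring
  rw [h1, mul_inv_cancel₀ hr, meqv_tr_id]

/-- Proportional polynomials. -/
theorem meqv_prop_iff {F : Type} [Field F] (a b : F[X]) :
    (∀ i j, a.coeff i * b.coeff j = a.coeff j * b.coeff i) ↔ a = 0 ∨ ∃ u, b = C u * a := by
  constructor
  · intro h
    by_cases ha : a = 0
    · exact Or.inl ha
    · right
      obtain ⟨i, hi⟩ : ∃ i, a.coeff i ≠ 0 := by
        by_contra hc
        push Not at hc
        exact ha (Polynomial.ext fun i => by rw [hc i, coeff_zero])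
      refine ⟨b.coeff i / a.coeff i, Polynomial.ext fun j => ?_⟩
      rw [coeff_C_mul, div_mul_eq_mul_div, eq_div_iff hi, mul_comm, h i j, mul_comm]
  · rintro (rfl | ⟨u, rfl⟩) i j
    · simp
    · rw [coeff_C_mul, coeff_C_mul]
      ring

theorem meqv_nc {F : Type} [Field F] {a b : F[X]}
    (h : ∃ i j, a.coeff i * b.coeff j ≠ a.coeff j * b.coeff i) (c : F) {r : F} (hr : r ≠ 0) :
    ∃ i j, (tr c r a).coeff i * (tr c r b).coeff j ≠ (tr c r a).coeff j * (tr c r b).coeff i := by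
  by_contra hc
  push Not at hc
  rw [meqv_prop_iff] at hc
  obtain ⟨i, j, hij⟩ := h
  refine hij ((meqv_prop_iff a b).2 ?_ i j)
  rcases hc with hc | ⟨u, hu⟩
  · left
    rw [← meqv_tr_inv c hr a, hc, meqv_tr_zero]
  · right
    refine ⟨u, ?_⟩
    rw [← meqv_tr_inv c hr b, hu, meqv_tr_C_mul, meqv_tr_inv c hr a]

theorem meqv_spP_iff {L : Type} [Field L] [Algebra k L] (π : Pl k F L) (f : F[X]) (g : L[X]) :
    π.SpP f g ↔ ∃ f₀ : (π.A)[X], f₀.map π.A.subtype = f ∧ f₀.map π.r = g := by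
  constructor
  · intro h
    choose h1 h2 using h
    refine ⟨∑ i ∈ Finset.range (f.natDegree + 1 + g.natDegree),
      C (⟨f.coeff i, h1 i⟩ : π.A) * X ^ i, ?_, ?_⟩
    · ext i
      rw [coeff_map, finsetSum_coeff]
      simp only [coeff_C_mul, coeff_X_pow, mul_ite, mul_one, mul_zero, Finset.sum_ite_eq]
      split_ifs with hi
      · rfl
      · rw [map_zero, coeff_eq_zero_of_natDegree_lt]
        rw [Finset.mem_range] at hi
        omega
    · ext i
      rw [coeff_map, finsetSum_coeff]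
      simp only [coeff_C_mul, coeff_X_pow, mul_ite, mul_one, mul_zero, Finset.sum_ite_eq]
      split_ifs with hi
      · exact h2 i
      · rw [map_zero, coeff_eq_zero_of_natDegree_lt]
        rw [Finset.mem_range] at hi
        omega
  · rintro ⟨f₀, rfl, rfl⟩ i
    rw [coeff_map, coeff_map]
    exact ⟨(f₀.coeff i).2, rfl⟩

theorem meqv_sp_tr {L : Type} [Field L] [Algebra k L] {π : Pl k F L} {f : F[X]} {g : L[X]}
    (h : π.SpP f g) {α u : F} {α' u' : L} (hα : π.Sp α α') (hu : π.Sp u u') :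
    π.SpP (tr α u f) (tr α' u' g) := by
  rw [meqv_spP_iff] at h ⊢
  obtain ⟨f₀, rfl, rfl⟩ := h
  obtain ⟨hα1, rfl⟩ := hα
  obtain ⟨hu1, rfl⟩ := hu
  refine ⟨f₀.comp (C ⟨α, hα1⟩ + C ⟨u, hu1⟩ * X), ?_, ?_⟩
  · unfold tr
    rw [Polynomial.map_comp]
    simp only [Polynomial.map_add, Polynomial.map_mul, map_C, map_X]
    rfl
  · unfold tr
    rw [Polynomial.map_comp]
    simp only [Polynomial.map_add, Polynomial.map_mul, map_C, map_X]

theorem meqv_aux {A : ValuationSubring F} {c r c' r' : F} (h : Eqv A c r c' r') (hr : r ≠ 0) :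
    r' ≠ 0 ∧ (c' - c) / r ∈ A ∧ r' / r ∈ A ∧ r / r' ∈ A ∧ c' = c + r * ((c' - c) / r) ∧
      r' = r * (r' / r) := by
  have hv : A.valuation r ≠ 0 := (Valuation.ne_zero_iff _).2 hr
  have hr' : r' ≠ 0 := by
    rw [← Valuation.ne_zero_iff A.valuation, ← h.1]
    exact hv
  have hv' : A.valuation r' ≠ 0 := (Valuation.ne_zero_iff _).2 hr'
  refine ⟨hr', ?_, ?_, ?_, ?_, ?_⟩
  · rw [← A.valuation_le_one_iff, map_div₀, Valuation.map_sub_swap]
    exact (div_le_one₀ (zero_lt_iff.2 hv)).2 h.2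
  · rw [← A.valuation_le_one_iff, map_div₀, ← h.1, div_self hv]
  · rw [← A.valuation_le_one_iff, map_div₀, ← h.1, div_self hv]
  · field_simp
    ring
  · field_simp

theorem meqv_one (hI : ∀ P ∈ I, ∃ d, P.IsHomogeneous d) {A : ValuationSubring F}
    {δ : CD σ F} {c r c' r' : F} (h : Eqv A c r c' r') (hr : r ≠ 0) {e : ℕ}
    {τ : Quo (wOne σ) I} (hM : MRel I A δ c r e τ) : MRel I A δ c' r' e τ := by
  obtain ⟨L, iL, iaL, π, a, b, Q, hA, hV, hT⟩ := hM
  subst hA
  obtain ⟨hr', hα, hu, hu', hc1, hr1⟩ := meqv_aux h hr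
  obtain ⟨_, hnc, ⟨j₀, hj₀⟩, e₁, e₂, he₁, he₂, ha, hb, hQ⟩ := hV
  have hum : π.r ⟨r' / r, hu⟩ * π.r ⟨r / r', hu'⟩ = 1 := by
    rw [← map_mul]
    have h1 : (⟨r' / r, hu⟩ * ⟨r / r', hu'⟩ : π.A) = 1 := by
      apply Subtype.ext
      change r' / r * (r / r') = 1
      field_simp
    rw [h1, map_one]
  have hu0 : π.r ⟨r' / r, hu⟩ ≠ 0 := left_ne_zero_of_mul_eq_one hum
  have htr : ∀ f : F[X], tr c' r' f = tr ((c' - c) / r) (r' / r) (tr c r f) := by
    intro f
    rw [meqv_tr_tr, ← hc1, ← hr1]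
  refine ⟨L, iL, iaL, π, tr (π.r ⟨(c' - c) / r, hα⟩) (π.r ⟨r' / r, hu⟩) a,
    tr (π.r ⟨(c' - c) / r, hα⟩) (π.r ⟨r' / r, hu⟩) b,
    fun j => tr (π.r ⟨(c' - c) / r, hα⟩) (π.r ⟨r' / r, hu⟩) (Q j), rfl,
    ⟨hr', meqv_nc hnc _ hu0, ⟨j₀, fun h0 => hj₀ ?_⟩, e₁, e₂, he₁, he₂, ?_, ?_, fun j => ?_⟩,
    (trel_affine hI _ _ hu0).2 hT⟩
  · change tr (π.r ⟨(c' - c) / r, hα⟩) (π.r ⟨r' / r, hu⟩) (Q j₀) = 0 at h0
    rw [← meqv_tr_inv (π.r ⟨(c' - c) / r, hα⟩) hu0 (Q j₀), h0, meqv_tr_zero]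
  · rw [htr, ← meqv_tr_C_mul]
    exact meqv_sp_tr ha ⟨hα, rfl⟩ ⟨hu, rfl⟩
  · rw [htr, ← meqv_tr_C_mul]
    exact meqv_sp_tr hb ⟨hα, rfl⟩ ⟨hu, rfl⟩
  · rw [htr, ← meqv_tr_C_mul]
    exact meqv_sp_tr (hQ j) ⟨hα, rfl⟩ ⟨hu, rfl⟩

theorem mrel_eqv (hI : ∀ P ∈ I, ∃ d, P.IsHomogeneous d) {A : ValuationSubring F}
    {δ : CD σ F} {c r c' r' : F} (h : Eqv A c r c' r') (hr : r ≠ 0) {e : ℕ}
    {τ : Quo (wOne σ) I} : MRel I A δ c r e τ ↔ MRel I A δ c' r' e τ :=
  ⟨meqv_one hI h hr, meqv_one hI (eqv_symm h) (meqv_aux h hr).1⟩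

theorem meqv_le_gn (A : ValuationSubring F) (f : F[X]) (i : ℕ) :
    A.valuation (f.coeff i) ≤ gn A f := by
  by_cases hi : i ≤ f.natDegree
  · unfold gn
    exact Finset.le_sup' (fun i => A.valuation (f.coeff i)) (Finset.mem_range.2 (by omega))
  · rw [coeff_eq_zero_of_natDegree_lt (by omega), map_zero]
    exact zero_le

theorem meqv_gn_tr_le (A : ValuationSubring F) {α u : F} (hα : α ∈ A) (hu : u ∈ A) (f : F[X]) :
    gn A (tr α u f) ≤ gn A f := by
  unfold gn
  refine Finset.sup'_le _ _ fun i _ => ?_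
  change A.valuation ((tr α u f).coeff i) ≤ gn A f
  unfold tr
  rw [comp, eval₂_eq_sum_range, finsetSum_coeff]
  refine Valuation.map_sum_le _ fun m _ => ?_
  rw [coeff_C_mul, map_mul]
  have h1 : (C α + C u * X : F[X]) ^ m =
      (((C (⟨α, hα⟩ : A) + C (⟨u, hu⟩ : A) * X) ^ m).map A.subtype) := by
    simp only [Polynomial.map_pow, Polynomial.map_add, Polynomial.map_mul, map_C, map_X]
    rfl
  have h2 : A.valuation (((C α + C u * X : F[X]) ^ m).coeff i) ≤ 1 := by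
    rw [A.valuation_le_one_iff, h1, coeff_map]
    exact SetLike.coe_mem (((C (⟨α, hα⟩ : A) + C (⟨u, hu⟩ : A) * X) ^ m).coeff i)
  calc A.valuation (f.coeff m) * A.valuation (((C α + C u * X : F[X]) ^ m).coeff i)
      ≤ gn A f * 1 := mul_le_mul' (meqv_le_gn A f m) h2
    _ = gn A f := mul_one _

theorem meqv_gn_le {A : ValuationSubring F} {c r c' r' : F} (h : Eqv A c r c' r') (hr : r ≠ 0)
    (f : F[X]) : gn A (tr c' r' f) ≤ gn A (tr c r f) := by
  obtain ⟨_, hα, hu, _, hc1, hr1⟩ := meqv_aux h hr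
  have htr : tr c' r' f = tr ((c' - c) / r) (r' / r) (tr c r f) := by
    rw [meqv_tr_tr, ← hc1, ← hr1]
  rw [htr]
  exact meqv_gn_tr_le A hα hu _

theorem meqv_max_le {A : ValuationSubring F} {c r c' r' : F} (h : Eqv A c r c' r') (s : F) :
    max (A.valuation (s - c')) (A.valuation r') ≤ max (A.valuation (s - c)) (A.valuation r) := by
  refine max_le ?_ (h.1 ▸ le_max_right _ _)
  have h1 : s - c' = (s - c) + (c - c') := by ring
  rw [h1]
  exact le_trans (Valuation.map_add _ _ _) (max_le_max le_rfl h.2)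

/-- `gv` only depends on the disc (at vertices). -/
theorem gv_eqv {A : ValuationSubring F} {δ : CD σ F} {c r c' r' : F} (h : Eqv A c r c' r')
    (hr : r ≠ 0) : gv A δ c r = gv A δ c' r' := by
  unfold gv
  rw [le_antisymm (meqv_max_le (eqv_symm h) δ.s) (meqv_max_le h δ.s),
    le_antisymm (meqv_gn_le (eqv_symm h) (meqv_aux h hr).1 δ.be) (meqv_gn_le h hr δ.be)]

end Pool.Agent.TT
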