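import Pool.Agent.TT.Defs

set_option autoImplicit false
set_option linter.unusedSectionVars false

/-! Project TT: elementary lemmas on valuation rings and places. -/

namespace Pool.Agent.TT

open Pool.Agent.Helper16 Pool.Agent.Helper16.BB Pool.Agent.ThF Polynomial

section val

variable {F : Type} [Field F]

theorem val_le_iff (A : ValuationSubring F) (x y : F) (hy : y ≠ 0) :
    A.valuation x ≤ A.valuation y ↔ x / y ∈ A := by
  rw [← A.valuation_le_one_iff, map_div₀]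
  have h0 : A.valuation y ≠ 0 := by simpa using hy
  exact (div_le_one₀ (zero_lt_iff.2 h0)).symm

theorem val_le_of_le {A B : ValuationSubring F} (hAB : A ≤ B) {x y : F}
    (h : A.valuation x ≤ A.valuation y) : B.valuation x ≤ B.valuation y := by
  by_cases hy : y = 0
  · subst hy
    rw [map_zero] at h
    have hx : x = 0 := by simpa using h
    rw [hx]
  · rw [val_le_iff _ _ _ hy] at h ⊢
    exact hAB h

theorem val_eq_of_le {A B : ValuationSubring F} (hAB : A ≤ B) {x y : F}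
    (h : A.valuation x = A.valuation y) : B.valuation x = B.valuation y :=
  le_antisymm (val_le_of_le hAB h.le) (val_le_of_le hAB h.ge)

end val

section Sp

variable {k F L : Type} [Field k] [Field F] [Field L] [Algebra k F] [Algebra k L]

theorem Pl.Sp.mem {π : Pl k F L} {x : F} {y : L} (h : π.Sp x y) : x ∈ π.A := h.1

theorem Pl.Sp.zero (π : Pl k F L) : π.Sp 0 0 := ⟨zero_mem _, by
  have h1 : (⟨0, zero_mem _⟩ : π.A) = 0 := rfl
  rw [h1, map_zero]⟩

theorem Pl.Sp.one (π : Pl k F L) : π.Sp 1 1 := ⟨one_mem _, by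
  have h1 : (⟨1, one_mem _⟩ : π.A) = 1 := rfl
  rw [h1, map_one]⟩

theorem Pl.Sp.mul {π : Pl k F L} {x x' : F} {y y' : L} (h : π.Sp x y) (h' : π.Sp x' y') :
    π.Sp (x * x') (y * y') := by
  obtain ⟨hx, rfl⟩ := h
  obtain ⟨hx', rfl⟩ := h'
  refine ⟨mul_mem hx hx', ?_⟩
  rw [← map_mul]
  rfl

theorem Pl.Sp.add {π : Pl k F L} {x x' : F} {y y' : L} (h : π.Sp x y) (h' : π.Sp x' y') :
    π.Sp (x + x') (y + y') := by
  obtain ⟨hx, rfl⟩ := h
  obtain ⟨hx', rfl⟩ := h'
  refine ⟨add_mem hx hx', ?_⟩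
  rw [← map_add]
  rfl

theorem Pl.Sp.neg {π : Pl k F L} {x : F} {y : L} (h : π.Sp x y) : π.Sp (-x) (-y) := by
  obtain ⟨hx, rfl⟩ := h
  refine ⟨neg_mem hx, ?_⟩
  rw [← map_neg]
  rfl

theorem Pl.Sp.sub {π : Pl k F L} {x x' : F} {y y' : L} (h : π.Sp x y) (h' : π.Sp x' y') :
    π.Sp (x - x') (y - y') := by
  rw [sub_eq_add_neg, sub_eq_add_neg]
  exact h.add h'.neg

theorem Pl.Sp.unique {π : Pl k F L} {x : F} {y y' : L} (h : π.Sp x y) (h' : π.Sp x y') :
    y = y' := by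
  obtain ⟨hx, rfl⟩ := h
  obtain ⟨hx', rfl⟩ := h'
  rfl

theorem Pl.Sp.val_eq_one {π : Pl k F L} {x : F} {y : L} (h : π.Sp x y) (hy : y ≠ 0) :
    π.A.valuation x = 1 := by
  obtain ⟨hx, rfl⟩ := h
  have h1 := (π.A.valuation_le_one_iff x).2 hx
  refine le_antisymm h1 (not_lt.1 fun h2 => hy ?_)
  exact (π.loc ⟨x, hx⟩).2 h2

theorem Pl.Sp.ne_zero {π : Pl k F L} {x : F} {y : L} (h : π.Sp x y) (hy : y ≠ 0) : x ≠ 0 := by
  rintro rfl
  exact hy (h.unique (Pl.Sp.zero π))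

theorem Pl.Sp.eq_zero_iff {π : Pl k F L} {x : F} {y : L} (h : π.Sp x y) :
    y = 0 ↔ π.A.valuation x < 1 := by
  obtain ⟨hx, rfl⟩ := h
  exact π.loc ⟨x, hx⟩

theorem Pl.exists_sp (π : Pl k F L) {x : F} (h : x ∈ π.A) : ∃ y, π.Sp x y := ⟨_, h, rfl⟩

theorem Pl.exists_sp_ne_zero (π : Pl k F L) {x : F} (h : π.A.valuation x = 1) :
    ∃ y, π.Sp x y ∧ y ≠ 0 := by
  obtain ⟨y, hy⟩ := π.exists_sp ((π.A.valuation_le_one_iff x).1 h.le)
  refine ⟨y, hy, fun h0 => ?_⟩
  rw [hy.eq_zero_iff, h] at h0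
  exact lt_irrefl _ h0

theorem Pl.Sp.inv {π : Pl k F L} {x : F} {y : L} (h : π.Sp x y) (hy : y ≠ 0) :
    π.Sp x⁻¹ y⁻¹ := by
  have h1 := h.val_eq_one hy
  have h2 : π.A.valuation x⁻¹ = 1 := by rw [map_inv₀, h1, inv_one]
  obtain ⟨y', hy'⟩ := π.exists_sp ((π.A.valuation_le_one_iff _).1 h2.le)
  have h3 := h.mul hy'
  rw [mul_inv_cancel₀ (h.ne_zero hy)] at h3
  have h4 := h3.unique (Pl.Sp.one π)
  rwa [← eq_inv_of_mul_eq_one_right h4]

theorem Pl.Sp.div {π : Pl k F L} {x x' : F} {y y' : L} (h : π.Sp x y) (h' : π.Sp x' y')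
    (hy' : y' ≠ 0) : π.Sp (x / x') (y / y') := by
  rw [div_eq_mul_inv, div_eq_mul_inv]
  exact h.mul (h'.inv hy')

theorem Pl.Sp.pow {π : Pl k F L} {x : F} {y : L} (h : π.Sp x y) (n : ℕ) :
    π.Sp (x ^ n) (y ^ n) := by
  induction n with
  | zero => simpa using Pl.Sp.one π
  | succ n ih =>
    rw [pow_succ, pow_succ]
    exact ih.mul h

theorem Pl.Sp.sum {π : Pl k F L} {ι : Type} (s : Finset ι) {x : ι → F} {y : ι → L}
    (h : ∀ i ∈ s, π.Sp (x i) (y i)) : π.Sp (∑ i ∈ s, x i) (∑ i ∈ s, y i) := by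
  classical
  induction s using Finset.induction_on with
  | empty => simpa using Pl.Sp.zero π
  | insert a s ha ih =>
    rw [Finset.sum_insert ha, Finset.sum_insert ha]
    exact (h a (Finset.mem_insert_self _ _)).add
      (ih fun i hi => h i (Finset.mem_insert_of_mem hi))

theorem Pl.Sp.prod {π : Pl k F L} {ι : Type} (s : Finset ι) {x : ι → F} {y : ι → L}
    (h : ∀ i ∈ s, π.Sp (x i) (y i)) : π.Sp (∏ i ∈ s, x i) (∏ i ∈ s, y i) := by
  classical
  induction s using Finset.induction_on with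
  | empty => simpa using Pl.Sp.one π
  | insert a s ha ih =>
    rw [Finset.prod_insert ha, Finset.prod_insert ha]
    exact (h a (Finset.mem_insert_self _ _)).mul
      (ih fun i hi => h i (Finset.mem_insert_of_mem hi))

theorem Pl.SpP.eval {π : Pl k F L} {f : F[X]} {g : L[X]} (h : π.SpP f g) {x : F} {y : L}
    (hx : π.Sp x y) : π.Sp (f.eval x) (g.eval y) := by
  set n := max f.natDegree g.natDegree + 1 with hn
  rw [Polynomial.eval_eq_sum_range' (n := n) (by omega), Polynomial.eval_eq_sum_range' (n := n) (by omega)]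
  exact Pl.Sp.sum _ fun i _ => (h i).mul (hx.pow i)

theorem Pl.mem_pull (π : Pl k F L) (A : ValuationSubring L) {x : F} {y : L} (h : π.Sp x y) :
    x ∈ π.pull A ↔ y ∈ A := by
  obtain ⟨hx, rfl⟩ := h
  constructor
  · rintro ⟨hx', h⟩
    exact h
  · intro h
    exact ⟨hx, h⟩

theorem Pl.pull_le (π : Pl k F L) (A : ValuationSubring L) : π.pull A ≤ π.A := by
  rintro x ⟨hx, -⟩
  exact hx

theorem Pl.pull_val_le (π : Pl k F L) (A : ValuationSubring L) {x y : F} {x' y' : L}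
    (hx : π.Sp x x') (hy : π.Sp y y') (hy' : y' ≠ 0) :
    (π.pull A).valuation x ≤ (π.pull A).valuation y ↔ A.valuation x' ≤ A.valuation y' := by
  rw [val_le_iff _ _ _ (hy.ne_zero hy'), val_le_iff _ _ _ hy']
  exact π.mem_pull A (hx.div hy hy')

theorem Pl.pull_val_eq (π : Pl k F L) (A : ValuationSubring L) {x y : F} {x' y' : L}
    (hx : π.Sp x x') (hy : π.Sp y y') (hx' : x' ≠ 0) (hy' : y' ≠ 0) :
    (π.pull A).valuation x = (π.pull A).valuation y ↔ A.valuation x' = A.valuation y' := by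
  rw [le_antisymm_iff, le_antisymm_iff, π.pull_val_le A hx hy hy', π.pull_val_le A hy hx hx']

theorem Pl.pull_val_lt (π : Pl k F L) (A : ValuationSubring L) {x y : F} {x' y' : L}
    (hx : π.Sp x x') (hy : π.Sp y y') (hx' : x' ≠ 0) :
    (π.pull A).valuation x < (π.pull A).valuation y ↔ A.valuation x' < A.valuation y' := by
  rw [← not_le, ← not_le, π.pull_val_le A hy hx hx']

end Sp

end Pool.Agent.TT
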