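import Pool.Agent.TT.TUnique

set_option autoImplicit false
set_option linter.unusedSectionVars false

/-! TT-6. `←` (from `L` to `L'`): map the parameter `x`, `G`, `c` by `f` (`PCond` is preserved, `IsFam.map`;
`pAB`, `pP`, `pUW` commute with maps: `mkp_map`); `y` is the same (`f` is injective). `→`: from the
relation over `L'` we get `Val` over `L'` (`trel_val`, TT-4), so `Val` over `L` (`IsFam.of_map`, injectivity),
so by `trel_exists` (TT-3) there is a relation over `L` with some `e₀`, `τ₀`, hence over `L'`, and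
`trel_unique` (TT-5) gives `e = e₀`, `τ = τ₀`. -/

namespace Pool.Agent.TT

open Pool.Agent.Helper16 Pool.Agent.Helper16.BB Pool.Agent.ThF Polynomial

section tmap

variable {k σ : Type} [Field k] {n D : ℕ} {L L' : Type} [Field L] [Algebra k L] [Field L']
  [Algebra k L']

theorem tmap_pAB (f : L →ₐ[k] L') (x : Idx σ n D → L) (b : Bool) :
    (pAB x b).map (f : L →+* L') = pAB (fun i => f (x i)) b := by
  rw [pAB, mkp_map, pAB]
  rfl

theorem tmap_pP (f : L →ₐ[k] L') (x : Idx σ n D → L) (j : σ) :
    (pP x j).map (f : L →+* L') = pP (fun i => f (x i)) j := by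
  rw [pP, mkp_map, pP]
  rfl

theorem tmap_pUW (f : L →ₐ[k] L') (x : Idx σ n D → L) (b : Bool) :
    (pUW x b).map (f : L →+* L') = pUW (fun i => f (x i)) b := by
  rw [pUW, mkp_map, pUW]
  rfl

/-- The conditions on the parameters are preserved. -/
theorem tmap_cond {I : Set (MvPolynomial σ (RatFunc k))} {e : ℕ} {j₀ : σ} {i₀ : ℕ}
    {x : Idx σ n D → L} (h : PCond I e j₀ i₀ x) (f : L →ₐ[k] L') :
    PCond I e j₀ i₀ (fun i => f (x i)) := by
  obtain ⟨h1, h2, h3, h4, h5⟩ := h
  refine ⟨fun b i hi => ?_, ?_, ?_, ?_, ?_⟩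
  · rw [← tmap_pAB, coeff_map, h1 b i hi, map_zero]
  · rw [← tmap_pAB, ← tmap_pAB, coeff_map, coeff_map]
    have := congrArg f h2
    rw [map_add, map_mul, map_mul, map_one] at this
    exact this
  · rw [← tmap_pAB, ← tmap_pAB, ← tmap_pUW, ← tmap_pUW, ← Polynomial.map_mul,
      ← Polynomial.map_mul, ← Polynomial.map_add, h3, Polynomial.map_one]
  · rw [← tmap_pP, coeff_map]
    have := congrArg f h4
    rw [map_mul, map_one] at this
    exact this
  · have := h5.map f
    rw [tmap_pAB, tmap_pAB] at this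
    have e : (fun j => (pP x j).map (f : L →+* L')) = pP (fun i => f (x i)) := by
      funext j
      exact tmap_pP f x j
    rw [e] at this
    exact this

end tmap

variable {k σ : Type} [Field k] [Finite k] [Finite σ] {I : Set (MvPolynomial σ (RatFunc k))}
variable {L L' : Type} [Field L] [Algebra k L] [Field L'] [Algebra k L']

/-- From the small to the large field. -/
theorem tmap_up (f : L →ₐ[k] L') {a b : L[X]} {Q : σ → L[X]} {e : ℕ} {τ : Quo (wOne σ) I}
    (h : TRel I a b Q e τ) :
    TRel I (a.map (f : L →+* L')) (b.map (f : L →+* L')) (fun j => (Q j).map (f : L →+* L')) e τ := by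
  obtain ⟨n, D, j₀, i₀, x, G, c, y, he, hx, hG, hc, ha, hb, hQ, hy, hτ⟩ := h
  refine ⟨n, D, j₀, i₀, fun i => f (x i), G.map (f : L →+* L'), f c, y, he, tmap_cond hx f, ?_, ?_,
    ?_, ?_, ?_, ?_, hτ⟩
  · intro h0
    exact hG ((Polynomial.map_eq_zero (f : L →+* L')).1 h0)
  · intro h0
    exact hc ((map_eq_zero f).1 h0)
  · rw [ha, Polynomial.map_mul, tmap_pAB]
  · rw [hb, Polynomial.map_mul, tmap_pAB]
  · intro j
    change (Q j).map (f : L →+* L') = _
    rw [hQ j, Polynomial.map_mul, tmap_pP, Polynomial.map_C]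
    rfl
  · intro q hq
    apply hy q
    have h1 : MvPolynomial.aeval (fun i => f (x i)) q = f (MvPolynomial.aeval x q) := by
      rw [MvPolynomial.comp_aeval_apply]
    rw [h1] at hq
    exact (map_eq_zero f).1 hq

theorem trel_map (hI : ∀ P ∈ I, ∃ d, P.IsHomogeneous d) (f : L →ₐ[k] L') {a b : L[X]}
    {Q : σ → L[X]} {e : ℕ} {τ : Quo (wOne σ) I} :
    TRel I (a.map (f : L →+* L')) (b.map (f : L →+* L')) (fun j => (Q j).map (f : L →+* L')) e τ ↔
      TRel I a b Q e τ := by
  constructor
  · intro h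
    have hv := trel_val hI h
    have hinj : Function.Injective f := f.toRingHom.injective
    have hv' : Val I a b Q := by
      refine ⟨hv.fam.of_map f hinj, ?_, ?_⟩
      · obtain ⟨i, j, hij⟩ := hv.nc
        refine ⟨i, j, fun hc => hij ?_⟩
        rw [coeff_map, coeff_map, coeff_map, coeff_map, ← map_mul, hc, map_mul]
      · obtain ⟨j, hj⟩ := hv.ne
        refine ⟨j, fun hc => hj ?_⟩
        change (Q j).map (f : L →+* L') = 0
        rw [hc, Polynomial.map_zero]
    obtain ⟨e₀, τ₀, h0⟩ := trel_exists hI hv'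
    obtain ⟨rfl, rfl⟩ := trel_unique hI h (tmap_up f h0)
    exact h0
  · exact fun h => tmap_up f h

end Pool.Agent.TT
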