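import Pool.Agent.TT.PlBase
import Pool.Agent.TT.TMap

set_option autoImplicit false
set_option linter.unusedSectionVars false

/-! TT-11. Valid data reduce to valid data (`vred_val`), the reduction at a vertex can be computed
with any surjective place (`mrel_iff`), and the degree and the class at a vertex are unique
(`mrel_unique`). -/

namespace Pool.Agent.TT

open Pool.Agent.Helper16 Pool.Agent.Helper16.BB Pool.Agent.ThF Polynomial

variable {k σ : Type} [Field k] [Finite k] [Finite σ] {I : Set (MvPolynomial σ (RatFunc k))}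
variable {F : Type} [Field F] [Algebra k F]

section aux

variable {L : Type} [Field L] [Algebra k L] (π : Pl k F L)

omit [Finite k] in
theorem munique_fun {x : F} {y y' : L} (h : π.Sp x y) (h' : π.Sp x y') : y = y' := by
  obtain ⟨h1, rfl⟩ := h
  obtain ⟨h2, rfl⟩ := h'
  rfl

omit [Finite k] in
theorem munique_mul {x x' : F} {y y' : L} (h : π.Sp x y) (h' : π.Sp x' y') :
    π.Sp (x * x') (y * y') := by
  obtain ⟨h1, rfl⟩ := h
  obtain ⟨h2, rfl⟩ := h'
  exact ⟨mul_mem h1 h2, by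
    rw [← map_mul]
    rfl⟩

omit [Finite k] in
theorem munique_inv {x : F} {y : L} (h : π.Sp x y) (hy : y ≠ 0) : π.Sp x⁻¹ y⁻¹ := by
  obtain ⟨h1, rfl⟩ := h
  have hx0 : x ≠ 0 := by
    rintro rfl
    apply hy
    have h2 : (⟨0, h1⟩ : π.A) = 0 := rfl
    rw [h2, map_zero]
  have hv : ¬ π.A.valuation x < 1 := fun hv => hy ((π.loc ⟨x, h1⟩).2 hv)
  have hv1 : π.A.valuation x = 1 :=
    le_antisymm ((π.A.valuation_le_one_iff x).2 h1) (not_lt.1 hv)
  have hi : x⁻¹ ∈ π.A := by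
    rw [← π.A.valuation_le_one_iff, map_inv₀, hv1, inv_one]
  refine ⟨hi, ?_⟩
  have h2 : (⟨x, h1⟩ * ⟨x⁻¹, hi⟩ : π.A) = 1 := Subtype.ext (mul_inv_cancel₀ hx0)
  have h3 : π.r ⟨x, h1⟩ * π.r ⟨x⁻¹, hi⟩ = 1 := by
    rw [← map_mul, h2, map_one]
  exact eq_inv_of_mul_eq_one_right h3

omit [Finite k] in
theorem munique_ne {x : F} {y : L} (h : π.Sp x y) (hy : y ≠ 0) : x ≠ 0 := by
  rintro rfl
  obtain ⟨h1, rfl⟩ := h
  apply hy
  have h2 : (⟨0, h1⟩ : π.A) = 0 := rfl
  rw [h2, map_zero]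

omit [Finite k] in
theorem munique_scale {ι : Type} {x : ι → F} {y z : ι → L} {e₁ e₂ : F}
    (h1 : ∀ i, π.Sp (e₁ * x i) (y i)) (h2 : ∀ i, π.Sp (e₂ * x i) (z i)) (hy : ∃ i, y i ≠ 0)
    (hz : ∃ i, z i ≠ 0) : ∃ u : L, u ≠ 0 ∧ ∀ i, z i = u * y i := by
  obtain ⟨i, hi⟩ := hy
  obtain ⟨j, hj⟩ := hz
  have hxi := munique_ne π (h1 i) hi
  have hxj := munique_ne π (h2 j) hj
  have he1 : e₁ ≠ 0 := left_ne_zero_of_mul hxi
  have he2 : e₂ ≠ 0 := left_ne_zero_of_mul hxj
  have hx1 : x i ≠ 0 := right_ne_zero_of_mul hxi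
  have hx2 : x j ≠ 0 := right_ne_zero_of_mul hxj
  have a1 : π.Sp (e₂ / e₁) (z i * (y i)⁻¹) := by
    have h3 := munique_mul π (h2 i) (munique_inv π (h1 i) hi)
    have h4 : e₂ * x i * (e₁ * x i)⁻¹ = e₂ / e₁ := by
      field_simp
    rwa [h4] at h3
  have a2 : π.Sp (e₁ / e₂) (y j * (z j)⁻¹) := by
    have h3 := munique_mul π (h1 j) (munique_inv π (h2 j) hj)
    have h4 : e₁ * x j * (e₂ * x j)⁻¹ = e₁ / e₂ := by
      field_simp
    rwa [h4] at h3
  refine ⟨z i * (y i)⁻¹, ?_, ?_⟩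
  · intro h0
    have h3 := munique_mul π a1 a2
    rw [h0, zero_mul, show e₂ / e₁ * (e₁ / e₂) = 1 by field_simp] at h3
    have h4 : π.Sp (1 : F) (1 : L) := ⟨one_mem _, by
      have h5 : (⟨1, one_mem _⟩ : π.A) = 1 := rfl
      rw [h5, map_one]⟩
    exact zero_ne_one (munique_fun π h3 h4)
  · intro l
    have h3 := munique_mul π a1 (h1 l)
    rw [show e₂ / e₁ * (e₁ * x l) = e₂ * x l by field_simp] at h3
    exact munique_fun π (h2 l) h3

omit [Finite k] in
theorem munique_lift {p : F[X]} (h : ∀ i, p.coeff i ∈ π.A) :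
    ∃ q : π.A[X], q.map π.A.subtype = p ∧ π.SpP p (q.map π.r) := by
  have h1 : p ∈ Polynomial.lifts (π.A.subtype : π.A →+* F) := by
    rw [Polynomial.lifts_iff_coeff_lifts]
    intro i
    exact ⟨⟨p.coeff i, h i⟩, rfl⟩
  obtain ⟨q, hq⟩ := (Polynomial.mem_lifts _).1 h1
  refine ⟨q, hq, fun i => ⟨h i, ?_⟩⟩
  rw [Polynomial.coeff_map]
  congr 1
  apply Subtype.ext
  show p.coeff i = (q.coeff i : F)
  rw [← hq, Polynomial.coeff_map]
  rfl

end aux

theorem vred_val (hI : ∀ P ∈ I, ∃ d, P.IsHomogeneous d) {L : Type} [Field L] [Algebra k L]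
    {π : Pl k F L} {δ : CD σ F} (hδ : IsFam I δ.al δ.be δ.P) {c r : F} {a b : L[X]}
    {Q : σ → L[X]} (h : Vred π δ c r a b Q) : Val I a b Q := by
  obtain ⟨hr, hnc, hne, e, e', he, he', ha, hb, hQ⟩ := h
  refine ⟨?_, hnc, hne⟩
  have hnc' : ∃ i j, (tr c r δ.al).coeff i * (tr c r δ.be).coeff j ≠
      (tr c r δ.al).coeff j * (tr c r δ.be).coeff i := by
    obtain ⟨i, j, hij⟩ := hnc
    refine ⟨i, j, fun h0 => hij ?_⟩
    have h1 := munique_mul π (ha i) (hb j)
    have h2 := munique_mul π (ha j) (hb i)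
    simp only [Polynomial.coeff_C_mul] at h1 h2
    have h3 : e * (tr c r δ.al).coeff i * (e * (tr c r δ.be).coeff j) =
        e * (tr c r δ.al).coeff j * (e * (tr c r δ.be).coeff i) := by
      linear_combination (e * e) * h0
    rw [h3] at h1
    exact munique_fun π h1 h2
  have hF : IsFam I (C e * tr c r δ.al) (C e * tr c r δ.be) (fun j => C e' * tr c r (δ.P j)) :=
    (isFam_mul hI _ _ _ (C e) (C e') (C_ne_zero.2 he) (C_ne_zero.2 he') hnc').2
      (isFam_comp hδ (C c + C r * X))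
  obtain ⟨a0, ha0, ha1⟩ := munique_lift π (p := C e * tr c r δ.al) fun i => (ha i).1
  obtain ⟨b0, hb0, hb1⟩ := munique_lift π (p := C e * tr c r δ.be) fun i => (hb i).1
  choose Q0 hQ0 hQ1 using fun j =>
    munique_lift π (p := C e' * tr c r (δ.P j)) fun i => (hQ j i).1
  letI : Algebra k π.A := RingHom.toAlgebra
    { toFun := fun a => ⟨algebraMap k F a, (π.hk a).choose⟩
      map_one' := Subtype.ext (map_one _)
      map_mul' := fun x y => Subtype.ext (map_mul _ _ _)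
      map_zero' := Subtype.ext (map_zero _)
      map_add' := fun x y => Subtype.ext (map_add _ _ _) }
  let f : π.A →ₐ[k] F := { π.A.subtype with commutes' := fun a => rfl }
  let g : π.A →ₐ[k] L := { π.r with commutes' := fun a => (π.hk a).choose_spec }
  have h1 : IsFam I a0 b0 Q0 := by
    refine IsFam.of_map f Subtype.val_injective ?_
    have e1 : a0.map (f : π.A →+* F) = C e * tr c r δ.al := ha0
    have e2 : b0.map (f : π.A →+* F) = C e * tr c r δ.be := hb0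
    have e3 : (fun j => (Q0 j).map (f : π.A →+* F)) = fun j => C e' * tr c r (δ.P j) :=
      funext hQ0
    rw [e1, e2, e3]
    exact hF
  have h2 := h1.map g
  have e1 : a0.map (g : π.A →+* L) = a := by
    ext i
    exact munique_fun π (ha1 i) (ha i)
  have e2 : b0.map (g : π.A →+* L) = b := by
    ext i
    exact munique_fun π (hb1 i) (hb i)
  have e3 : (fun j => (Q0 j).map (g : π.A →+* L)) = Q := by
    funext j
    ext i
    exact munique_fun π (hQ1 j i) (hQ j i)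
  rw [e1, e2, e3] at h2
  exact h2

/-- The reduction at a vertex, with values in the target of any place. -/
theorem mrel_iff (hI : ∀ P ∈ I, ∃ d, P.IsHomogeneous d) {L : Type} [Field L]
    [Algebra k L] (π : Pl k F L) (hπ : π.Surj) {δ : CD σ F} {c r : F} {e : ℕ}
    {τ : Quo (wOne σ) I} : MRel I π.A δ c r e τ ↔
      ∃ (a b : L[X]) (Q : σ → L[X]), Vred π δ c r a b Q ∧ TRel I a b Q e τ := by
  constructor
  · rintro ⟨L', _, _, π', a', b', Q', hA, ⟨hr, hnc, hne, e₀, e₀', he, he', ha, hb, hQ⟩, hT⟩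
    obtain ⟨f, hf⟩ := pl_factor π hπ π' hA
    have key : ∀ (p : F[X]) (g' : L'[X]), π'.SpP p g' →
        ∃ g : L[X], π.SpP p g ∧ g.map (f : L →+* L') = g' := by
      intro p g' hp
      obtain ⟨q, -, hq⟩ := munique_lift π (p := p) fun i => hA ▸ (hp i).1
      refine ⟨q.map π.r, hq, ?_⟩
      ext i
      rw [Polynomial.coeff_map]
      exact munique_fun π' (hf _ _ (hq i)) (hp i)
    obtain ⟨a, ha1, rfl⟩ := key _ _ ha
    obtain ⟨b, hb1, rfl⟩ := key _ _ hb
    choose Q hQ1 hQ2 using fun j => key _ _ (hQ j)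
    obtain rfl : (fun j => (Q j).map (f : L →+* L')) = Q' := funext hQ2
    refine ⟨a, b, Q, ⟨hr, ?_, ?_, e₀, e₀', he, he', ha1, hb1, hQ1⟩, (trel_map hI f).1 hT⟩
    · obtain ⟨i, j, hij⟩ := hnc
      refine ⟨i, j, fun h0 => hij ?_⟩
      rw [Polynomial.coeff_map, Polynomial.coeff_map, Polynomial.coeff_map, Polynomial.coeff_map,
        ← map_mul, ← map_mul, h0]
    · obtain ⟨j, hj⟩ := hne
      refine ⟨j, fun h0 => hj ?_⟩
      show (Q j).map _ = 0
      rw [h0, Polynomial.map_zero]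
  · rintro ⟨a, b, Q, hV, hT⟩
    exact ⟨L, _, _, π, a, b, Q, rfl, hV, hT⟩

theorem mrel_unique (hI : ∀ P ∈ I, ∃ d, P.IsHomogeneous d) {A : ValuationSubring F}
    {δ : CD σ F} {c r : F} {e e' : ℕ} {τ τ' : Quo (wOne σ) I} (h : MRel I A δ c r e τ)
    (h' : MRel I A δ c r e' τ') : e = e' ∧ τ = τ' := by
  obtain ⟨L, _, _, π, rfl, hπ⟩ := exists_pl (k := k) A
  obtain ⟨a, b, Q, ⟨-, hnc, hne, e₁, e₁', he₁, he₁', ha, hb, hQ⟩, hT⟩ := (mrel_iff hI π hπ).1 h
  obtain ⟨a', b', Q', ⟨-, hnc', hne', e₂, e₂', he₂, he₂', ha', hb', hQ'⟩, hT'⟩ :=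
    (mrel_iff hI π hπ).1 h'
  have nz : ∀ {a b : L[X]}, (∃ i j, a.coeff i * b.coeff j ≠ a.coeff j * b.coeff i) →
      ∃ i, a.coeff i ≠ 0 := by
    rintro a b ⟨i, j, hij⟩
    by_contra hcon
    push Not at hcon
    exact hij (by rw [hcon i, hcon j, zero_mul, zero_mul])
  obtain ⟨u, hu, hu1⟩ := munique_scale π (ι := Bool × ℕ)
    (x := fun p => (cond p.1 (tr c r δ.al) (tr c r δ.be)).coeff p.2)
    (y := fun p => (cond p.1 a b).coeff p.2) (z := fun p => (cond p.1 a' b').coeff p.2)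
    (e₁ := e₁) (e₂ := e₂)
    (by
      rintro ⟨_ | _, i⟩
      · have h1 := hb i
        rwa [Polynomial.coeff_C_mul] at h1
      · have h1 := ha i
        rwa [Polynomial.coeff_C_mul] at h1)
    (by
      rintro ⟨_ | _, i⟩
      · have h1 := hb' i
        rwa [Polynomial.coeff_C_mul] at h1
      · have h1 := ha' i
        rwa [Polynomial.coeff_C_mul] at h1)
    (by
      obtain ⟨i, hi⟩ := nz hnc
      exact ⟨(true, i), hi⟩)
    (by
      obtain ⟨i, hi⟩ := nz hnc'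
      exact ⟨(true, i), hi⟩)
  have nzP : ∀ {Q : σ → L[X]}, (∃ j, Q j ≠ 0) → ∃ p : σ × ℕ, (Q p.1).coeff p.2 ≠ 0 := by
    rintro Q ⟨j, hj⟩
    by_contra hcon
    push Not at hcon
    exact hj (Polynomial.ext fun i => by rw [hcon (j, i), Polynomial.coeff_zero])
  obtain ⟨v, hv, hv1⟩ := munique_scale π (ι := σ × ℕ)
    (x := fun p => (tr c r (δ.P p.1)).coeff p.2)
    (y := fun p => (Q p.1).coeff p.2) (z := fun p => (Q' p.1).coeff p.2)
    (e₁ := e₁') (e₂ := e₂')
    (by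
      rintro ⟨j, i⟩
      have h1 := hQ j i
      rwa [Polynomial.coeff_C_mul] at h1)
    (by
      rintro ⟨j, i⟩
      have h1 := hQ' j i
      rwa [Polynomial.coeff_C_mul] at h1)
    (nzP hne) (nzP hne')
  have ea : a' = C u * a := by
    ext i
    rw [Polynomial.coeff_C_mul]
    exact hu1 (true, i)
  have eb : b' = C u * b := by
    ext i
    rw [Polynomial.coeff_C_mul]
    exact hu1 (false, i)
  have eQ : Q' = fun j => C v * Q j := by
    funext j
    ext i
    rw [Polynomial.coeff_C_mul]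
    exact hv1 (j, i)
  rw [ea, eb, eQ] at hT'
  exact trel_unique hI hT ((trel_mul (C u) (C_ne_zero.2 hu) v hv).1 hT')

end Pool.Agent.TT
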