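import Mathlib
import Pool.Agent.TT.MUnique

set_option autoImplicit false
set_option linter.unusedSectionVars false

/-! TT-12. The valuation theoretic condition for a vertex. -/

namespace Pool.Agent.TT

open Pool.Agent.Helper16 Pool.Agent.Helper16.BB Pool.Agent.ThF Polynomial

variable {k σ : Type} [Field k] [Finite k] [Finite σ] {I : Set (MvPolynomial σ (RatFunc k))}
variable {F : Type} [Field F] [Algebra k F]

/-- Comparison of valuations of nested valuation subrings. -/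
theorem vciff_mono {E : Type} [Field E] {B B' : ValuationSubring E} (h : B ≤ B') {x y : E}
    (hxy : B.valuation x ≤ B.valuation y) : B'.valuation x ≤ B'.valuation y := by
  by_cases hy : y = 0
  · subst hy
    rw [map_zero, le_zero_iff, (Valuation.zero_iff _)] at hxy
    rw [hxy]
  · have h1 : x / y ∈ B := by
      rw [← B.valuation_le_one_iff, map_div₀]
      exact (div_le_one₀ (zero_lt_iff.2 ((Valuation.ne_zero_iff _).2 hy))).2 hxy
    have h2 := (B'.valuation_le_one_iff _).2 (h h1)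
    rw [map_div₀] at h2
    exact (div_le_one₀ (zero_lt_iff.2 ((Valuation.ne_zero_iff _).2 hy))).1 h2

theorem vciff_mono_eq {E : Type} [Field E] {B B' : ValuationSubring E} (h : B ≤ B') {x y : E}
    (hxy : B.valuation x = B.valuation y) : B'.valuation x = B'.valuation y :=
  le_antisymm (vciff_mono h hxy.le) (vciff_mono h hxy.ge)

theorem vciff_pull_le {F' : Type} [Field F'] [Algebra k F'] (π : Pl k F F')
    (A : ValuationSubring F') : π.pull A ≤ π.A := by
  rintro x ⟨h, -⟩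
  exact h

section Sp

variable {L : Type} [Field L] [Algebra k L] (π : Pl k F L)

theorem vciff_sp_mul {x x' : F} {y y' : L} (h : π.Sp x y) (h' : π.Sp x' y') :
    π.Sp (x * x') (y * y') := by
  obtain ⟨h1, h2⟩ := h
  obtain ⟨h1', h2'⟩ := h'
  refine ⟨mul_mem h1 h1', ?_⟩
  have h3 : (⟨x * x', mul_mem h1 h1'⟩ : π.A) = ⟨x, h1⟩ * ⟨x', h1'⟩ := rfl
  rw [h3, map_mul, h2, h2']

theorem vciff_sp_sub {x x' : F} {y y' : L} (h : π.Sp x y) (h' : π.Sp x' y') :
    π.Sp (x - x') (y - y') := by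
  obtain ⟨h1, h2⟩ := h
  obtain ⟨h1', h2'⟩ := h'
  refine ⟨sub_mem h1 h1', ?_⟩
  have h3 : (⟨x - x', sub_mem h1 h1'⟩ : π.A) = ⟨x, h1⟩ - ⟨x', h1'⟩ := rfl
  rw [h3, map_sub, h2, h2']

theorem vciff_sp_val {x : F} {y : L} (h : π.Sp x y) : π.A.valuation x ≤ 1 ∧
    (y = 0 ↔ π.A.valuation x < 1) := by
  obtain ⟨h1, h2⟩ := h
  refine ⟨(π.A.valuation_le_one_iff _).2 h1, ?_⟩
  rw [← h2]
  exact π.loc ⟨x, h1⟩

theorem vciff_sp_val_eq_one {x : F} {y : L} (h : π.Sp x y) (hy : y ≠ 0) :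
    π.A.valuation x = 1 := by
  obtain ⟨h1, h2⟩ := vciff_sp_val π h
  exact le_antisymm h1 (not_lt.1 fun h3 => hy (h2.2 h3))

theorem vciff_exists_sp {x : F} (h : π.A.valuation x ≤ 1) : ∃ y, π.Sp x y :=
  ⟨_, (π.A.valuation_le_one_iff _).1 h, rfl⟩

theorem vciff_sp_ne_zero {x : F} {y : L} (h : π.Sp x y) (h1 : π.A.valuation x = 1) : y ≠ 0 := by
  intro h2
  exact absurd ((vciff_sp_val π h).2.1 h2) (by rw [h1]; exact lt_irrefl _)

/-- The reduction of a polynomial with integral coefficients. -/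
theorem vciff_exists_spP (f : F[X]) (h : ∀ i, π.A.valuation (f.coeff i) ≤ 1) :
    ∃ g : L[X], π.SpP f g := by
  choose y hy using fun i => vciff_exists_sp π (h i)
  refine ⟨∑ i ∈ Finset.range (f.natDegree + 1), C (y i) * X ^ i, ?_⟩
  intro i
  rw [finsetSum_coeff]
  simp only [coeff_C_mul, coeff_X_pow, mul_ite, mul_one, mul_zero]
  rw [Finset.sum_ite_eq]
  split_ifs with hi
  · exact hy i
  · have h1 : f.coeff i = 0 := coeff_eq_zero_of_natDegree_lt (by
      rw [Finset.mem_range] at hi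
      omega)
    rw [h1]
    exact ⟨zero_mem _, by
      have h3 : (⟨0, zero_mem _⟩ : π.A) = 0 := rfl
      rw [h3, map_zero]⟩

end Sp

theorem vciff_tr_ne_zero {E : Type} [Field E] {c r : E} (hr : r ≠ 0) {f : E[X]} (hf : f ≠ 0) :
    tr c r f ≠ 0 := by
  intro h
  apply hf
  have h1 : (tr c r f).comp (C (-c / r) + C r⁻¹ * X) = f := by
    rw [tr, comp_assoc]
    have h2 : ((C c + C r * X : E[X]).comp (C (-c / r) + C r⁻¹ * X)) = X := by
      simp only [add_comp, C_comp, mul_comp, X_comp]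
      rw [mul_add, ← mul_assoc, ← C_mul, ← C_mul, mul_inv_cancel₀ hr, mul_div_cancel₀ _ hr,
        C_1, one_mul, ← add_assoc, ← C_add, add_neg_cancel, C_0, zero_add]
    rw [h2, comp_X]
  rw [← h1, h, zero_comp]

theorem vc_iff (hI : ∀ P ∈ I, ∃ d, P.IsHomogeneous d) {A : ValuationSubring F}
    {δ : CD σ F} (hδ : IsFam I δ.al δ.be δ.P) (hP : ∃ j, δ.P j ≠ 0) (c r : F) :
    VC A δ c r ↔ ∃ e τ, MRel I A δ c r e τ := by
  classical
  constructor
  · rintro ⟨hr, u, hu, hle, i, j, hij⟩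
    obtain ⟨L, _, _, π, rfl, hπ⟩ := exists_pl (k := k) A
    have hvu : π.A.valuation u ≠ 0 := (Valuation.ne_zero_iff _).2 hu
    have hscale : ∀ x : F, π.A.valuation x ≤ π.A.valuation u →
        π.A.valuation (u⁻¹ * x) ≤ 1 := by
      intro x hx
      rw [map_mul, map_inv₀, inv_mul_le_one₀ (zero_lt_iff.2 hvu)]
      exact hx
    obtain ⟨a, ha⟩ := vciff_exists_spP π (C u⁻¹ * tr c r δ.al) (fun i => by
      rw [coeff_C_mul]; exact hscale _ (hle i).1)
    obtain ⟨b, hb⟩ := vciff_exists_spP π (C u⁻¹ * tr c r δ.be) (fun i => by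
      rw [coeff_C_mul]; exact hscale _ (hle i).2)
    -- the coordinates
    obtain ⟨j₀, hj₀⟩ := hP
    have hj₁ : tr c r (δ.P j₀) ≠ 0 := vciff_tr_ne_zero hr hj₀
    obtain ⟨_⟩ := nonempty_fintype σ
    let N : ℕ := (Finset.univ.sup fun j => (tr c r (δ.P j)).natDegree) + 1
    have hN : ∀ j i, (tr c r (δ.P j)).coeff i ≠ 0 → i < N := by
      intro j i h
      have h1 := le_natDegree_of_ne_zero h
      have h2 : (tr c r (δ.P j)).natDegree ≤ Finset.univ.sup fun j => (tr c r (δ.P j)).natDegree :=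
        Finset.le_sup (f := fun j => (tr c r (δ.P j)).natDegree) (Finset.mem_univ j)
      omega
    let S : Finset (σ × ℕ) := ((Finset.univ ×ˢ Finset.range N).filter
      fun q => (tr c r (δ.P q.1)).coeff q.2 ≠ 0)
    have hS : ∀ j i, (tr c r (δ.P j)).coeff i ≠ 0 → (j, i) ∈ S := fun j i h =>
      Finset.mem_filter.2 ⟨Finset.mem_product.2 ⟨Finset.mem_univ _, Finset.mem_range.2 (hN j i h)⟩, h⟩
    have hSne : S.Nonempty := ⟨(j₀, (tr c r (δ.P j₀)).natDegree), hS _ _ (by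
      simpa using hj₁)⟩
    obtain ⟨⟨j₁, i₁⟩, hq, hmax⟩ := S.exists_max_image
      (fun q => π.A.valuation ((tr c r (δ.P q.1)).coeff q.2)) hSne
    have hq0 : (tr c r (δ.P j₁)).coeff i₁ ≠ 0 := (Finset.mem_filter.1 hq).2
    have hvq : π.A.valuation ((tr c r (δ.P j₁)).coeff i₁) ≠ 0 := (Valuation.ne_zero_iff _).2 hq0
    have hle' : ∀ j i, π.A.valuation ((tr c r (δ.P j)).coeff i) ≤
        π.A.valuation ((tr c r (δ.P j₁)).coeff i₁) := by
      intro j i
      by_cases h : (tr c r (δ.P j)).coeff i = 0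
      · rw [h, map_zero]
        exact zero_le
      · exact hmax (j, i) (hS j i h)
    choose Q hQ using fun j => vciff_exists_spP π
      (C ((tr c r (δ.P j₁)).coeff i₁)⁻¹ * tr c r (δ.P j)) (fun i => by
        rw [coeff_C_mul, map_mul, map_inv₀, inv_mul_le_one₀ (zero_lt_iff.2 hvq)]
        exact hle' j i)
    have hVred : Vred π δ c r a b Q := by
      refine ⟨hr, ⟨i, j, ?_⟩, ⟨j₁, ?_⟩, u⁻¹, ((tr c r (δ.P j₁)).coeff i₁)⁻¹, inv_ne_zero hu,
        inv_ne_zero hq0, ha, hb, hQ⟩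
      · have h1 := vciff_sp_sub π (vciff_sp_mul π (ha i) (hb j)) (vciff_sp_mul π (ha j) (hb i))
        rw [coeff_C_mul, coeff_C_mul, coeff_C_mul, coeff_C_mul] at h1
        have h2 := vciff_sp_ne_zero π h1 (by
          have h3 : u⁻¹ * (tr c r δ.al).coeff i * (u⁻¹ * (tr c r δ.be).coeff j) -
              u⁻¹ * (tr c r δ.al).coeff j * (u⁻¹ * (tr c r δ.be).coeff i) =
              u⁻¹ ^ 2 * ((tr c r δ.al).coeff i * (tr c r δ.be).coeff j -
                (tr c r δ.al).coeff j * (tr c r δ.be).coeff i) := by ring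
          rw [h3, map_mul, hij, map_pow, map_inv₀, ← mul_pow, inv_mul_cancel₀ hvu, one_pow])
        exact sub_ne_zero.1 h2
      · intro h0
        have h1 := hQ j₁ i₁
        rw [coeff_C_mul, inv_mul_cancel₀ hq0, h0, coeff_zero] at h1
        exact vciff_sp_ne_zero π h1 (map_one _) rfl
    obtain ⟨e, τ, hT⟩ := trel_exists hI (vred_val hI hδ hVred)
    exact ⟨e, τ, L, _, _, π, a, b, Q, rfl, hVred, hT⟩
  · rintro ⟨e, τ, L, _, _, π, a, b, Q, rfl, ⟨hr, ⟨i, j, hij⟩, -, e₁, e', he₁, -, ha, hb, -⟩, -⟩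
    have hve : π.A.valuation e₁ ≠ 0 := (Valuation.ne_zero_iff _).2 he₁
    have hscale : ∀ x : F, π.A.valuation (e₁ * x) ≤ 1 → π.A.valuation x ≤ π.A.valuation e₁⁻¹ := by
      intro x hx
      rw [map_mul] at hx
      rw [map_inv₀, ← one_mul (π.A.valuation e₁)⁻¹, ← div_eq_mul_inv,
        le_div_iff₀ (zero_lt_iff.2 hve), mul_comm]
      exact hx
    refine ⟨hr, e₁⁻¹, inv_ne_zero he₁, fun i => ⟨hscale _ ?_, hscale _ ?_⟩, i, j, ?_⟩
    · have h1 := (vciff_sp_val π (ha i)).1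
      rwa [coeff_C_mul] at h1
    · have h1 := (vciff_sp_val π (hb i)).1
      rwa [coeff_C_mul] at h1
    · have h1 := vciff_sp_sub π (vciff_sp_mul π (ha i) (hb j)) (vciff_sp_mul π (ha j) (hb i))
      have h2 := vciff_sp_val_eq_one π h1 (sub_ne_zero.2 hij)
      rw [coeff_C_mul, coeff_C_mul, coeff_C_mul, coeff_C_mul] at h2
      have h3 : e₁ * (tr c r δ.al).coeff i * (e₁ * (tr c r δ.be).coeff j) -
          e₁ * (tr c r δ.al).coeff j * (e₁ * (tr c r δ.be).coeff i) =
          e₁ ^ 2 * ((tr c r δ.al).coeff i * (tr c r δ.be).coeff j -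
            (tr c r δ.al).coeff j * (tr c r δ.be).coeff i) := by ring
      rw [h3, map_mul, map_pow] at h2
      rw [map_inv₀, inv_pow]
      exact (eq_inv_of_mul_eq_one_right h2)

/-- Vertices of the composite place are vertices of the place. -/
theorem vc_comp {F' : Type} [Field F'] [Algebra k F'] (π : Pl k F F') {δ : CD σ F} {c r : F}
    (A : ValuationSubring F') (h : VC (π.pull A) δ c r) : VC π.A δ c r := by
  obtain ⟨hr, u, hu, hle, i, j, hij⟩ := h
  have hp := vciff_pull_le π A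
  refine ⟨hr, u, hu, fun i => ⟨vciff_mono hp (hle i).1, vciff_mono hp (hle i).2⟩, i, j, ?_⟩
  rw [← map_pow] at hij ⊢
  exact vciff_mono_eq hp hij

end Pool.Agent.TT
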