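import Mathlib
import Pool.Agent.TT.MEqv
import Pool.Agent.TT.Sp
import Pool.Agent.TT.VCIff

set_option autoImplicit false
set_option linter.unusedSectionVars false

/-! TT-15. Let `(c, r)` be a vertex: by `VC` and `exists_pl` for `A` (surjective place `π : F → L`; `L` is
algebraically closed as `F` is: a monic polynomial over `L` lifts; roots of monic polynomials over `A` are in
`A`) the reductions `a`, `b` of `C u⁻¹ * tr c r δ.al`, `C u⁻¹ * tr c r δ.be` are not proportional. Let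
`d = a - b`, the reduction of `C u⁻¹ * tr c r (δ.al - δ.be)`. None of `a`, `b`, `d` is zero. Write `a = g a₁`, `b = g b₁`
with coprime `a₁`, `b₁`; `a₁, b₁, d₁ = a₁ - b₁` are pairwise coprime and not all constant; in fact at most
one of the three is constant (the leading forms: if two of them are constant then so is the third). So two
of the three have roots `y₁`, `y₂` in `L`, `y₁ ≠ y₂` (coprime). CLAIM: if `y` is a root of `a₁` then
there is a root `x` of `δ.al` in `F` with `(x - c) / r ∈ A` and residue `y`. Let `m`, `n` be the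
multiplicities of `y` as a root of `a`, `b`: `m > n`, so `m ≥ 1`; `tr c r δ.al = const ∏ (X - ξ)` over its
roots `ξ` in `F` (`ξ = (x - c) / r`); the reduction of `C u⁻¹ * tr c r δ.al` is, up to a constant,
the product of the `X - ξ̄` over the `ξ ∈ A` (the factors with `ξ ∉ A` give constants after scaling), so some `ξ`
reduces to `y`. (No comparison of multiplicities is needed: `y` is a root of `a`.) The same for `b` and
for `d` with `δ.al - δ.be`. So there are `p`, `q` in `δ.rts` with `(p - c) / r`, `(q - c) / r` in `A` with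
distinct residues `y₁`, `y₂`; then `v (q - p) = v r` and `v (c - p) ≤ v r`. `δ.rts` are the roots of
`δ.al * δ.be * (δ.al - δ.be)`, which is not zero (`δ.al`, `δ.be` coprime and not both constant).
`lemma_V_splits`: the same proof; `L` need not be algebraically closed, as `a`, `b`, `d` split over `L`
(the reduction of a scaled product of `X - ξ` is a constant times the product of `X - ξ̄`). `lemma_V` is a
special case (`IsAlgClosed.splits`). -/

namespace Pool.Agent.TT

open Pool.Agent.Helper16 Pool.Agent.Helper16.BB Pool.Agent.ThF Polynomial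

variable {k σ : Type} [Field k] [Finite k] [Finite σ] {I : Set (MvPolynomial σ (RatFunc k))}

section aux

variable {F L : Type} [Field F] [Algebra k F] [Field L] [Algebra k L] {π : Pl k F L}

theorem lemv_spP_mul {f f' : F[X]} {g g' : L[X]} (h : π.SpP f g) (h' : π.SpP f' g') :
    π.SpP (f * f') (g * g') := by
  rw [meqv_spP_iff] at h h' ⊢
  obtain ⟨f₀, rfl, rfl⟩ := h
  obtain ⟨f₁, rfl, rfl⟩ := h'
  exact ⟨f₀ * f₁, Polynomial.map_mul _, Polynomial.map_mul _⟩

theorem lemv_spP_sub {f f' : F[X]} {g g' : L[X]} (h : π.SpP f g) (h' : π.SpP f' g') :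
    π.SpP (f - f') (g - g') := by
  intro i
  rw [coeff_sub, coeff_sub]
  exact (h i).sub (h' i)

theorem lemv_spP_X_sub_C {x : F} {y : L} (h : π.Sp x y) : π.SpP (X - C x) (X - C y) := by
  obtain ⟨hx, rfl⟩ := h
  rw [meqv_spP_iff]
  refine ⟨X - C ⟨x, hx⟩, ?_, ?_⟩
  · simp only [Polynomial.map_sub, map_X, map_C]
    rfl
  · simp only [Polynomial.map_sub, map_X, map_C]

theorem lemv_spP_big {x : F} (h : x ∉ π.A) : π.SpP (C (-x⁻¹) * (X - C x)) (1 : L[X]) := by
  have hx0 : x ≠ 0 := fun h0 => h (h0 ▸ zero_mem _)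
  have hi : x⁻¹ ∈ π.A := (π.A.mem_or_inv_mem x).resolve_left h
  have hlt : π.A.valuation x⁻¹ < 1 := by
    rcases lt_or_eq_of_le ((π.A.valuation_le_one_iff _).2 hi) with h1 | h1
    · exact h1
    · exfalso
      apply h
      rw [← π.A.valuation_le_one_iff]
      have h3 := congrArg (fun z => z⁻¹) h1
      simp only [map_inv₀, inv_inv, inv_one] at h3
      exact h3.le
  have hsp : π.Sp x⁻¹ (0 : L) := ⟨hi, (π.loc ⟨x⁻¹, hi⟩).2 hlt⟩
  have h1 : (C (-x⁻¹) * (X - C x) : F[X]) = C 1 - C x⁻¹ * X := by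
    have h2 : (C x⁻¹ * C x : F[X]) = 1 := by rw [← C_mul, inv_mul_cancel₀ hx0, C_1]
    rw [C_neg, C_1]
    linear_combination h2
  have h2 : (1 : L[X]) = C 1 - C 0 * X := by simp
  rw [h1, h2]
  intro i
  rw [coeff_sub, coeff_sub, coeff_C, coeff_C, coeff_C_mul, coeff_C_mul, coeff_X, coeff_X]
  refine Pl.Sp.sub ?_ ?_
  · split_ifs
    · exact Pl.Sp.one π
    · exact Pl.Sp.zero π
  · refine hsp.mul ?_
    split_ifs
    · exact Pl.Sp.one π
    · exact Pl.Sp.zero π

theorem lemv_prod (y : L) (s : Multiset F) (hs : ∀ ξ ∈ s, ξ ∉ π.A ∨ π.Sp ξ y) :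
    ∃ e : F, e ≠ 0 ∧ ∃ m : ℕ,
      π.SpP (C e * (s.map (fun ξ => X - C ξ)).prod) ((X - C y) ^ m) := by
  induction s using Multiset.induction_on with
  | empty =>
    refine ⟨1, one_ne_zero, 0, ?_⟩
    rw [Multiset.map_zero, Multiset.prod_zero, C_1, one_mul, pow_zero]
    intro i
    rw [coeff_one, coeff_one]
    split_ifs
    · exact Pl.Sp.one π
    · exact Pl.Sp.zero π
  | cons ξ s ih =>
    obtain ⟨e, he, m, h⟩ := ih fun ξ' h' => hs ξ' (Multiset.mem_cons_of_mem h')
    rw [Multiset.map_cons, Multiset.prod_cons]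
    rcases hs ξ (Multiset.mem_cons_self _ _) with h1 | h1
    · have hξ0 : ξ ≠ 0 := fun h0 => h1 (h0 ▸ zero_mem _)
      refine ⟨-ξ⁻¹ * e, mul_ne_zero (neg_ne_zero.2 (inv_ne_zero hξ0)) he, m, ?_⟩
      have h2 := lemv_spP_mul (lemv_spP_big h1) h
      rw [one_mul] at h2
      have h3 : (C (-ξ⁻¹ * e) * ((X - C ξ) * (s.map (fun ξ => X - C ξ)).prod) : F[X]) =
          C (-ξ⁻¹) * (X - C ξ) * (C e * (s.map (fun ξ => X - C ξ)).prod) := by
        rw [C_mul]
        ring
      rw [h3]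
      exact h2
    · refine ⟨e, he, m + 1, ?_⟩
      have h2 := lemv_spP_mul (lemv_spP_X_sub_C h1) h
      have h3 : (C e * ((X - C ξ) * (s.map (fun ξ => X - C ξ)).prod) : F[X]) =
          (X - C ξ) * (C e * (s.map (fun ξ => X - C ξ)).prod) := by ring
      rw [h3, pow_succ']
      exact h2

theorem lemv_tr_prod {E : Type} [Field E] {c r : E} (hr : r ≠ 0) (s : Multiset E) :
    ∃ u : E, u ≠ 0 ∧ tr c r ((s.map (fun ξ => X - C ξ)).prod) =
      C u * ((s.map (fun ξ => (ξ - c) / r)).map (fun ξ => X - C ξ)).prod := by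
  induction s using Multiset.induction_on with
  | empty =>
    refine ⟨1, one_ne_zero, ?_⟩
    simp [tr]
  | cons ξ s ih =>
    obtain ⟨u, hu, h⟩ := ih
    refine ⟨r * u, mul_ne_zero hr hu, ?_⟩
    rw [Multiset.map_cons, Multiset.prod_cons, Multiset.map_cons, Multiset.map_cons,
      Multiset.prod_cons]
    have h1 : tr c r ((X - C ξ) * (s.map (fun ξ => X - C ξ)).prod) =
        tr c r (X - C ξ) * tr c r ((s.map (fun ξ => X - C ξ)).prod) := by
      unfold tr
      rw [mul_comp]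
    have h2 : tr c r (X - C ξ) = C r * (X - C ((ξ - c) / r)) := by
      unfold tr
      rw [sub_comp, X_comp, C_comp, mul_sub, ← C_mul, mul_div_cancel₀ _ hr, C_sub]
      ring
    rw [h1, h2, h, C_mul]
    ring

/-- The reduction of a polynomial all whose roots in the disc have the same residue. -/
theorem lemv_red {f : F[X]} (hf : f ≠ 0) (hs : f.Splits) {c r : F} (hr : r ≠ 0) {y : L}
    (hy : ∀ ξ, f.IsRoot ξ → (ξ - c) / r ∉ π.A ∨ π.Sp ((ξ - c) / r) y) {e : F} {g : L[X]}
    (hg : π.SpP (C e * tr c r f) g) (hg0 : g ≠ 0) :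
    ∃ γ : L, γ ≠ 0 ∧ ∃ m : ℕ, g = C γ * (X - C y) ^ m := by
  obtain ⟨e₁, he₁, m, h1⟩ := lemv_prod (π := π) y (f.roots.map (fun ξ => (ξ - c) / r)) (by
    intro ξ hξ
    obtain ⟨ξ', h1, rfl⟩ := Multiset.mem_map.1 hξ
    exact hy ξ' ((mem_roots hf).1 h1))
  obtain ⟨u, hu, h2⟩ := lemv_tr_prod (c := c) hr f.roots
  have h3 : tr c r f = C (f.leadingCoeff * u) *
      ((f.roots.map (fun ξ => (ξ - c) / r)).map (fun ξ => X - C ξ)).prod := by
    conv_lhs => rw [hs.eq_prod_roots]
    have h4 : tr c r (C f.leadingCoeff * (f.roots.map (fun ξ => X - C ξ)).prod) =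
        C f.leadingCoeff * tr c r ((f.roots.map (fun ξ => X - C ξ)).prod) := by
      unfold tr
      rw [mul_comp, C_comp]
    rw [h4, h2, C_mul, mul_assoc]
  have hlu : f.leadingCoeff * u ≠ 0 := mul_ne_zero (leadingCoeff_ne_zero.2 hf) hu
  set q : F[X] := ((f.roots.map (fun ξ => (ξ - c) / r)).map (fun ξ => X - C ξ)).prod with hq
  have hw0 : ((X - C y) ^ m : L[X]) ≠ 0 := pow_ne_zero _ (X_sub_C_ne_zero y)
  obtain ⟨γ, hγ, h5⟩ := munique_scale (π := π) (x := fun i => q.coeff i)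
    (y := fun i => ((X - C y) ^ m : L[X]).coeff i) (z := fun i => g.coeff i) (e₁ := e₁)
    (e₂ := e * (f.leadingCoeff * u))
    (fun i => by
      have := h1 i
      rwa [coeff_C_mul] at this)
    (fun i => by
      have := hg i
      rw [h3, ← mul_assoc, ← C_mul, coeff_C_mul] at this
      exact this)
    (by
      by_contra hcon
      push Not at hcon
      exact hw0 (Polynomial.ext fun i => (hcon i).trans (coeff_zero i).symm))
    (by
      by_contra hcon
      push Not at hcon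
      exact hg0 (Polynomial.ext fun i => (hcon i).trans (coeff_zero i).symm))
  refine ⟨γ, hγ, m, Polynomial.ext fun i => ?_⟩
  rw [coeff_C_mul]
  exact h5 i

/-- The algebra at the end. -/
theorem lemv_alg {E : Type} [Field E] {a b : E[X]} {y α β γ : E} {m n l : ℕ}
    (ha : a = C α * (X - C y) ^ m) (hb : b = C β * (X - C y) ^ n)
    (hd : a - b = C γ * (X - C y) ^ l) (hα : α ≠ 0) (hβ : β ≠ 0) (hγ : γ ≠ 0) : m = n := by
  have hw : ∀ j, ((X - C y : E[X]) ^ j) ≠ 0 := fun j => pow_ne_zero _ (X_sub_C_ne_zero y)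
  have hdeg : ∀ (κ : E) (j : ℕ), κ ≠ 0 → (C κ * (X - C y) ^ j : E[X]).natDegree = j := by
    intro κ j hκ
    rw [natDegree_C_mul hκ, natDegree_pow, natDegree_X_sub_C, mul_one]
  have hda : a.natDegree = m := by rw [ha, hdeg α m hα]
  have hdb : b.natDegree = n := by rw [hb, hdeg β n hβ]
  have hdd : (a - b).natDegree = l := by rw [hd, hdeg γ l hγ]
  rcases lt_trichotomy m n with h | h | h
  · exfalso
    have h1 : (a - b).natDegree = n := by
      rw [natDegree_sub_eq_right_of_natDegree_lt (by rw [hda, hdb]; exact h), hdb]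
    have hl : l = n := hdd.symm.trans h1
    subst hl
    obtain ⟨j, rfl⟩ := Nat.exists_eq_add_of_lt h
    have h2 : (X - C y) ^ m * C α = (X - C y) ^ m * (C (β + γ) * (X - C y) ^ (j + 1)) := by
      rw [ha, hb] at hd
      rw [C_add]
      have h3 : (X - C y : E[X]) ^ (m + j + 1) = (X - C y) ^ m * (X - C y) ^ (j + 1) := by
        rw [← pow_add, add_assoc]
      rw [h3] at hd
      linear_combination hd
    have h3 := mul_left_cancel₀ (hw m) h2
    have h4 := congrArg (eval y) h3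
    simp only [eval_C, eval_mul, eval_pow, eval_sub, eval_X, sub_self] at h4
    rw [zero_pow (Nat.succ_ne_zero j), mul_zero] at h4
    exact hα h4
  · exact h
  · exfalso
    have h1 : (a - b).natDegree = m := by
      rw [natDegree_sub_eq_left_of_natDegree_lt (by rw [hda, hdb]; exact h), hda]
    have hl : l = m := hdd.symm.trans h1
    subst hl
    obtain ⟨j, rfl⟩ := Nat.exists_eq_add_of_lt h
    have h2 : (X - C y) ^ n * C β = (X - C y) ^ n * (C (α - γ) * (X - C y) ^ (j + 1)) := by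
      rw [ha, hb] at hd
      rw [C_sub]
      have h3 : (X - C y : E[X]) ^ (n + j + 1) = (X - C y) ^ n * (X - C y) ^ (j + 1) := by
        rw [← pow_add, add_assoc]
      rw [h3] at hd
      linear_combination -hd
    have h3 := mul_left_cancel₀ (hw n) h2
    have h4 := congrArg (eval y) h3
    simp only [eval_C, eval_mul, eval_pow, eval_sub, eval_X, sub_self] at h4
    rw [zero_pow (Nat.succ_ne_zero j), mul_zero] at h4
    exact hβ h4

end aux

/-- Lemma V, if the zeros, poles and ones of `t` are in `F`. -/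
theorem lemma_V_splits {F : Type} [Field F] [Algebra k F] {A : ValuationSubring F} {δ : CD σ F}
    (hδ : δ.Ok (k := k) I) (hs : (δ.al * δ.be * (δ.al - δ.be)).Splits) {c r : F}
    (h : VC A δ c r) : ∃ p ∈ δ.rts.offDiag, Eqv A c r p.1 (p.2 - p.1) := by
  classical
  by_contra hcon
  push Not at hcon
  obtain ⟨hr, u, hu, hle, i, j, hij⟩ := h
  obtain ⟨L, _, _, π, rfl, hπ⟩ := exists_pl (k := k) A
  have hvu : π.A.valuation u ≠ 0 := (Valuation.ne_zero_iff _).2 hu
  have hvr : π.A.valuation r ≠ 0 := (Valuation.ne_zero_iff _).2 hr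
  have hscale : ∀ x : F, π.A.valuation x ≤ π.A.valuation u →
      π.A.valuation (u⁻¹ * x) ≤ 1 := by
    intro x hx
    rw [map_mul, map_inv₀, inv_mul_le_one₀ (zero_lt_iff.2 hvu)]
    exact hx
  obtain ⟨a, ha⟩ := vciff_exists_spP π (C u⁻¹ * tr c r δ.al) (fun i => by
    rw [coeff_C_mul]; exact hscale _ (hle i).1)
  obtain ⟨b, hb⟩ := vciff_exists_spP π (C u⁻¹ * tr c r δ.be) (fun i => by
    rw [coeff_C_mul]; exact hscale _ (hle i).2)
  have hab : a.coeff i * b.coeff j ≠ a.coeff j * b.coeff i := by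
    have h1 := vciff_sp_sub π (vciff_sp_mul π (ha i) (hb j)) (vciff_sp_mul π (ha j) (hb i))
    rw [coeff_C_mul, coeff_C_mul, coeff_C_mul, coeff_C_mul] at h1
    have h2 := vciff_sp_ne_zero π h1 (by
      have h3 : u⁻¹ * (tr c r δ.al).coeff i * (u⁻¹ * (tr c r δ.be).coeff j) -
          u⁻¹ * (tr c r δ.al).coeff j * (u⁻¹ * (tr c r δ.be).coeff i) =
          u⁻¹ ^ 2 * ((tr c r δ.al).coeff i * (tr c r δ.be).coeff j -
            (tr c r δ.al).coeff j * (tr c r δ.be).coeff i) := by ring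
      rw [h3, map_mul, hij, map_pow, map_inv₀, ← mul_pow, inv_mul_cancel₀ hvu, one_pow])
    exact sub_ne_zero.1 h2
  have hd : π.SpP (C u⁻¹ * tr c r (δ.al - δ.be)) (a - b) := by
    have h1 : C u⁻¹ * tr c r (δ.al - δ.be) = C u⁻¹ * tr c r δ.al - C u⁻¹ * tr c r δ.be := by
      unfold tr
      rw [sub_comp, mul_sub]
    rw [h1]
    exact lemv_spP_sub ha hb
  have ha0 : a ≠ 0 := by
    rintro rfl
    simp at hab
  have hb0 : b ≠ 0 := by
    rintro rfl
    simp at hab
  have hd0 : a - b ≠ 0 := by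
    intro h0
    rw [sub_eq_zero.1 h0] at hab
    exact hab (mul_comm _ _)
  have hz : ∀ {f : F[X]} {g : L[X]}, π.SpP (C u⁻¹ * tr c r f) g → g ≠ 0 → f ≠ 0 := by
    rintro f g hfg hg0 rfl
    apply hg0
    ext n
    have h1 := hfg n
    rw [meqv_tr_zero, mul_zero, coeff_zero] at h1
    rw [coeff_zero]
    exact h1.unique (Pl.Sp.zero π)
  have hal := hz ha ha0
  have hbe := hz hb hb0
  have hdi := hz hd hd0
  have hp0 : δ.al * δ.be * (δ.al - δ.be) ≠ 0 := mul_ne_zero (mul_ne_zero hal hbe) hdi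
  have hsal : δ.al.Splits := hs.of_dvd hp0 ((dvd_mul_right _ _).mul_right _)
  have hsbe : δ.be.Splits := hs.of_dvd hp0 ((dvd_mul_left _ _).mul_right _)
  have hsdi : (δ.al - δ.be).Splits := hs.of_dvd hp0 (dvd_mul_left _ _)
  have hmem : ∀ ξ, δ.al.IsRoot ξ ∨ δ.be.IsRoot ξ ∨ (δ.al - δ.be).IsRoot ξ → ξ ∈ δ.rts := by
    intro ξ hξ
    unfold CD.rts
    rw [Multiset.mem_toFinset, mem_roots hp0, IsRoot.def, eval_mul, eval_mul]
    rcases hξ with h1 | h1 | h1
    · rw [IsRoot.def.1 h1, zero_mul, zero_mul]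
    · rw [IsRoot.def.1 h1, mul_zero, zero_mul]
    · rw [IsRoot.def.1 h1, mul_zero]
  -- all roots in the disc have the same residue
  have hsame : ∀ p ∈ δ.rts, ∀ q ∈ δ.rts, ∀ y₁ y₂ : L, π.Sp ((p - c) / r) y₁ →
      π.Sp ((q - c) / r) y₂ → y₁ = y₂ := by
    intro p hp q hq y₁ y₂ h1 h2
    by_contra hne
    have hpq : p ≠ q := by
      rintro rfl
      exact hne (h1.unique h2)
    apply hcon (p, q) (Finset.mem_offDiag.2 ⟨hp, hq, hpq⟩)
    have h3 := (h2.sub h1).val_eq_one (sub_ne_zero.2 (Ne.symm hne))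
    have h4 : (q - c) / r - (p - c) / r = (q - p) / r := by
      rw [← sub_div]
      congr 1
      ring
    rw [h4, map_div₀] at h3
    refine ⟨((div_eq_one_iff_eq hvr).1 h3).symm, ?_⟩
    have h5 := (π.A.valuation_le_one_iff _).2 h1.mem
    rw [map_div₀, div_le_one₀ (zero_lt_iff.2 hvr), Valuation.map_sub_swap] at h5
    exact h5
  obtain ⟨y, hy⟩ : ∃ y : L, ∀ ξ ∈ δ.rts, (ξ - c) / r ∉ π.A ∨ π.Sp ((ξ - c) / r) y := by
    by_cases hex : ∃ p ∈ δ.rts, (p - c) / r ∈ π.A
    · obtain ⟨p, hp, hpA⟩ := hex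
      obtain ⟨y, hy⟩ := π.exists_sp hpA
      refine ⟨y, fun ξ hξ => ?_⟩
      by_cases hξA : (ξ - c) / r ∈ π.A
      · right
        obtain ⟨y', hy'⟩ := π.exists_sp hξA
        rw [hsame p hp ξ hξ y y' hy hy']
        exact hy'
      · exact Or.inl hξA
    · push Not at hex
      exact ⟨0, fun ξ hξ => Or.inl (hex ξ hξ)⟩
  obtain ⟨α, hα, m, ea⟩ := lemv_red hal hsal hr (fun ξ hξ => hy ξ (hmem ξ (Or.inl hξ))) ha ha0
  obtain ⟨β, hβ, n, eb⟩ := lemv_red hbe hsbe hr (fun ξ hξ => hy ξ (hmem ξ (Or.inr (Or.inl hξ))))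
    hb hb0
  obtain ⟨γ, hγ, l, ed⟩ := lemv_red hdi hsdi hr (fun ξ hξ => hy ξ (hmem ξ (Or.inr (Or.inr hξ))))
    hd hd0
  have hmn := lemv_alg ea eb ed hα hβ hγ
  subst hmn
  apply hab
  rw [ea, eb, coeff_C_mul, coeff_C_mul, coeff_C_mul, coeff_C_mul]
  ring

variable {F : Type} [Field F] [IsAlgClosed F] [Algebra k F]

/-- Lemma V. -/
theorem lemma_V {A : ValuationSubring F} {δ : CD σ F}
    (hδ : δ.Ok (k := k) I) {c r : F} (h : VC A δ c r) :
    ∃ p ∈ δ.rts.offDiag, Eqv A c r p.1 (p.2 - p.1) :=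
  lemma_V_splits hδ (IsAlgClosed.splits _) h

end Pool.Agent.TT
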