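import Mathlib
import Pool.Agent.TT.MUnique
import Pool.Agent.TT.Sp

set_option autoImplicit false
set_option linter.unusedSectionVars false

/-! TT-14. `tr (c₀ + r₀ * c) (r₀ * r) f = tr c r (tr c₀ r₀ f)`. Let `e₀`, `e₀'` be the factors of `h₀`. Then
`π.SpP (tr c r (C e₀ * tr c₀ r₀ δ.al)) (tr c' r' a)`, and so on. `←`: from a place `ρ : F' → L` with
`ρ.A = A` and factors `e₁'`, ... for `⟨a, b, Q, s'⟩` lift the factors to `F` (`hπ`), and compose the
places (a place `F → L` with ring `π.pull A` and residue map `ρ.r ∘ π.r`). `→`: let `ρ` be a surjective place of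
`F'` with ring `A` (`exists_pl`), `ρ ∘ π` is a surjective place with ring `π.pull A`, so by `mrel_iff` (TT-11)
the relation comes from `Vred (ρ ∘ π)` with factors `e`, `e'`. The `π`-reductions of `C e * tr ..` and of
`C e₀ * tr ..` are both defined and nonzero, so they differ by a factor (`munique_scale`). -/

namespace Pool.Agent.TT

open Pool.Agent.Helper16 Pool.Agent.Helper16.BB Pool.Agent.ThF Polynomial

variable {k σ : Type} [Field k] [Finite k] [Finite σ] {I : Set (MvPolynomial σ (RatFunc k))}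
variable {F : Type} [Field F] [Algebra k F]
variable {F' : Type} [Field F'] [Algebra k F']

section comp

omit [Finite k]

variable {L : Type} [Field L] [Algebra k L]

/-- The residue map of a composite place. -/
noncomputable def mcomp_res (π : Pl k F F') (ρ : Pl k F' L) : π.pull ρ.A →+* L where
  toFun x := ρ.r ⟨π.r ⟨x.1, x.2.choose⟩, x.2.choose_spec⟩
  map_one' := by
    have h : (⟨π.r ⟨(1 : π.pull ρ.A).1, (1 : π.pull ρ.A).2.choose⟩,
        (1 : π.pull ρ.A).2.choose_spec⟩ : ρ.A) = 1 := Subtype.ext (map_one π.r)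
    rw [h, map_one]
  map_mul' x y := by
    rw [← map_mul]
    congr 1
    apply Subtype.ext
    change π.r _ = π.r _ * π.r _
    rw [← map_mul]
    rfl
  map_zero' := by
    have h : (⟨π.r ⟨(0 : π.pull ρ.A).1, (0 : π.pull ρ.A).2.choose⟩,
        (0 : π.pull ρ.A).2.choose_spec⟩ : ρ.A) = 0 := Subtype.ext (map_zero π.r)
    rw [h, map_zero]
  map_add' x y := by
    rw [← map_add]
    congr 1
    apply Subtype.ext
    change π.r _ = π.r _ + π.r _
    rw [← map_add]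
    rfl

/-- A composite place. -/
noncomputable def mcomp_pl (π : Pl k F F') (ρ : Pl k F' L) : Pl k F L where
  A := π.pull ρ.A
  r := mcomp_res π ρ
  loc := by
    rintro ⟨x, hx⟩
    obtain ⟨h1, h2⟩ := id hx
    have hs : π.Sp x (π.r ⟨x, h1⟩) := ⟨h1, rfl⟩
    have e1 : mcomp_res π ρ ⟨x, hx⟩ = ρ.r ⟨π.r ⟨x, h1⟩, h2⟩ := rfl
    rw [e1, ρ.loc]
    by_cases h0 : π.r ⟨x, h1⟩ = 0
    · constructor
      · intro _
        change (π.pull ρ.A).valuation x < 1
        by_contra hlt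
        rw [not_lt] at hlt
        have hx0 : x ≠ 0 := by
          rintro rfl
          rw [map_zero] at hlt
          exact absurd hlt (not_le.2 zero_lt_one)
        have hi : x⁻¹ ∈ π.pull ρ.A := by
          rw [← ValuationSubring.valuation_le_one_iff, map_inv₀]
          exact inv_le_one_of_one_le₀ hlt
        have hi' : x⁻¹ ∈ π.A := Pl.pull_le π ρ.A hi
        obtain ⟨y, hy⟩ := π.exists_sp hi'
        have h3 := hs.mul hy
        rw [mul_inv_cancel₀ hx0, h0, zero_mul] at h3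
        exact zero_ne_one (h3.unique (Pl.Sp.one π))
      · intro _
        change ρ.A.valuation (π.r ⟨x, h1⟩) < 1
        rw [h0, map_zero]
        exact zero_lt_one
    · have h3 := π.pull_val_lt ρ.A hs (Pl.Sp.one π) h0
      rw [map_one, map_one] at h3
      exact h3.symm
  hk := by
    intro a
    obtain ⟨h1, h2⟩ := π.hk a
    obtain ⟨h3, h4⟩ := ρ.hk a
    have h5 : algebraMap k F a ∈ π.pull ρ.A := ⟨h1, by rw [h2]; exact h3⟩
    refine ⟨h5, ?_⟩
    have e1 : mcomp_res π ρ ⟨algebraMap k F a, h5⟩ =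
        ρ.r ⟨π.r ⟨algebraMap k F a, h1⟩, h5.choose_spec⟩ := rfl
    rw [e1, ← h4]
    congr 1
    exact Subtype.ext h2

theorem mcomp_sp {π : Pl k F F'} {ρ : Pl k F' L} {x : F} {z : L} :
    (mcomp_pl π ρ).Sp x z ↔ ∃ y, π.Sp x y ∧ ρ.Sp y z := by
  constructor
  · rintro ⟨hx, h⟩
    obtain ⟨h1, h2⟩ := id hx
    exact ⟨π.r ⟨x, h1⟩, ⟨h1, rfl⟩, h2, h⟩
  · rintro ⟨y, ⟨h1, rfl⟩, h2, h3⟩
    exact ⟨⟨h1, h2⟩, h3⟩

theorem mcomp_surj {π : Pl k F F'} (hπ : π.Surj) {ρ : Pl k F' L} (hρ : ρ.Surj) :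
    (mcomp_pl π ρ).Surj := by
  intro z
  obtain ⟨y, hy⟩ := hρ z
  obtain ⟨x, hx⟩ := hπ y
  exact ⟨x, mcomp_sp.2 ⟨y, hx, hy⟩⟩

end comp

section tr

omit [Finite k]

theorem mcomp_tr (c₀ r₀ c r : F) (f : F[X]) :
    tr (c₀ + r₀ * c) (r₀ * r) f = tr c r (tr c₀ r₀ f) := by
  rw [tr, tr, tr, comp_assoc]
  congr 1
  simp only [add_comp, C_comp, mul_comp, X_comp, C_add, C_mul]
  ring

theorem mcomp_C_mul_tr (e c r : F) (f : F[X]) : C e * tr c r f = tr c r (C e * f) := by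
  rw [tr, tr, mul_comp, C_comp]

theorem mcomp_spP_tr {π : Pl k F F'} {f : F[X]} {g : F'[X]} (h : π.SpP f g) {c r : F}
    {c' r' : F'} (hc : π.Sp c c') (hr : π.Sp r r') : π.SpP (tr c r f) (tr c' r' g) := by
  obtain ⟨q, hq, hq'⟩ := munique_lift π (p := f) fun i => (h i).1
  have hg : q.map π.r = g := by
    ext i
    exact (hq' i).unique (h i)
  obtain ⟨hc1, rfl⟩ := hc
  obtain ⟨hr1, rfl⟩ := hr
  have e1 : tr c r f = (q.comp (C ⟨c, hc1⟩ + C ⟨r, hr1⟩ * X)).map π.A.subtype := by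
    rw [tr, ← hq, Polynomial.map_comp, Polynomial.map_add, Polynomial.map_mul, Polynomial.map_C,
      Polynomial.map_C, Polynomial.map_X]
    rfl
  have e2 : tr (π.r ⟨c, hc1⟩) (π.r ⟨r, hr1⟩) g =
      (q.comp (C ⟨c, hc1⟩ + C ⟨r, hr1⟩ * X)).map π.r := by
    rw [tr, ← hg, Polynomial.map_comp, Polynomial.map_add, Polynomial.map_mul, Polynomial.map_C,
      Polynomial.map_C, Polynomial.map_X]
  rw [e1, e2]
  intro i
  rw [Polynomial.coeff_map, Polynomial.coeff_map]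
  generalize (q.comp (C ⟨c, hc1⟩ + C ⟨r, hr1⟩ * X)).coeff i = p
  obtain ⟨p, hp⟩ := p
  exact ⟨hp, rfl⟩

theorem mcomp_tr_ne {c r : F} (hr : r ≠ 0) {f : F[X]} (hf : f ≠ 0) : tr c r f ≠ 0 := by
  intro h
  apply hf
  have h1 : (tr c r f).comp (C (-c / r) + C r⁻¹ * X) = f := by
    rw [tr, comp_assoc]
    have h2 : ((C c + C r * X : F[X]).comp (C (-c / r) + C r⁻¹ * X)) = X := by
      simp only [add_comp, C_comp, mul_comp, X_comp]
      rw [mul_add, ← mul_assoc, ← C_mul, ← C_mul, mul_inv_cancel₀ hr, mul_div_cancel₀ _ hr,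
        C_1, one_mul, ← add_assoc, ← C_add, add_neg_cancel, C_0, zero_add]
    rw [h2, comp_X]
  rw [← h1, h, zero_comp]

theorem mcomp_spP_C_mul {π : Pl k F F'} {f : F[X]} {g : F'[X]} (h : π.SpP f g) {x : F} {y : F'}
    (hx : π.Sp x y) : π.SpP (C x * f) (C y * g) := by
  intro i
  rw [coeff_C_mul, coeff_C_mul]
  exact hx.mul (h i)

end tr

/-- Vertices of a composite place. -/
theorem mrel_comp (hI : ∀ P ∈ I, ∃ d, P.IsHomogeneous d) {F' : Type} [Field F']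
    [Algebra k F'] (π : Pl k F F') (hπ : π.Surj) {δ : CD σ F} {c₀ r₀ : F} {a b : F'[X]}
    {Q : σ → F'[X]} (h₀ : Vred π δ c₀ r₀ a b Q) (s' : F') {c r : F} {c' r' : F'}
    (hc : π.Sp c c') (hr : π.Sp r r') (hr' : r' ≠ 0) (A : ValuationSubring F') {e : ℕ}
    {τ : Quo (wOne σ) I} :
    MRel I (π.pull A) δ (c₀ + r₀ * c) (r₀ * r) e τ ↔ MRel I A ⟨a, b, Q, s'⟩ c' r' e τ := by
  obtain ⟨hr₀, hnc₀, hne₀, e₀, e₀', he₀, he₀', ha₀, hb₀, hQ₀⟩ := h₀
  have key : ∀ {f : F[X]} {g : F'[X]} {x : F}, π.SpP (C x * tr c₀ r₀ f) g →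
      π.SpP (C x * tr (c₀ + r₀ * c) (r₀ * r) f) (tr c' r' g) := by
    intro f g x h
    rw [mcomp_tr, mcomp_C_mul_tr]
    exact mcomp_spP_tr h hc hr
  have ha₁ := key ha₀
  have hb₁ := key hb₀
  have hQ₁ := fun j => key (hQ₀ j)
  have hr0 : r ≠ 0 := hr.ne_zero hr'
  constructor
  · intro h
    obtain ⟨L, _, _, ρ, rfl, hρ⟩ := exists_pl (k := k) A
    obtain ⟨a₁, b₁, Q₁, ⟨-, hnc₁, hne₁, e₁, e₁', he₁, he₁', ha, hb, hQ⟩, hT⟩ :=
      (mrel_iff hI (mcomp_pl π ρ) (mcomp_surj hπ hρ)).1 h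
    -- the reductions for `π`
    have hab : ∀ p : Bool × ℕ, ∃ y : F',
        π.Sp (e₁ * (cond p.1 (tr (c₀ + r₀ * c) (r₀ * r) δ.al)
          (tr (c₀ + r₀ * c) (r₀ * r) δ.be)).coeff p.2) y ∧
        ρ.Sp y ((cond p.1 a₁ b₁).coeff p.2) := by
      rintro ⟨_ | _, i⟩
      · have h1 := hb i
        rw [coeff_C_mul] at h1
        exact mcomp_sp.1 h1
      · have h1 := ha i
        rw [coeff_C_mul] at h1
        exact mcomp_sp.1 h1
    choose y hy hy' using hab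
    have hPP : ∀ p : σ × ℕ, ∃ y : F',
        π.Sp (e₁' * (tr (c₀ + r₀ * c) (r₀ * r) (δ.P p.1)).coeff p.2) y ∧
        ρ.Sp y ((Q₁ p.1).coeff p.2) := by
      rintro ⟨j, i⟩
      have h1 := hQ j i
      rw [coeff_C_mul] at h1
      exact mcomp_sp.1 h1
    choose z hz hz' using hPP
    have nz : ∀ {L : Type} [Field L] {a b : L[X]},
        (∃ i j, a.coeff i * b.coeff j ≠ a.coeff j * b.coeff i) → a ≠ 0 := by
      rintro L _ a b ⟨i, j, hij⟩ rfl
      exact hij (by rw [coeff_zero, coeff_zero, zero_mul, zero_mul])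
    have ex : ∀ {L : Type} [Field L] {a : L[X]}, a ≠ 0 → ∃ i, a.coeff i ≠ 0 := by
      intro L _ a h0
      exact ⟨a.natDegree, by rwa [coeff_natDegree, Ne, leadingCoeff_eq_zero]⟩
    have ynz : ∃ p, y p ≠ 0 := by
      obtain ⟨i, hi⟩ := ex (nz hnc₁)
      refine ⟨(true, i), fun h0 => hi ?_⟩
      have h1 := hy' (true, i)
      rw [h0] at h1
      exact h1.unique (Pl.Sp.zero ρ)
    have znz : ∃ p, z p ≠ 0 := by
      obtain ⟨j, hj⟩ := hne₁
      obtain ⟨i, hi⟩ := ex hj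
      refine ⟨(j, i), fun h0 => hi ?_⟩
      have h1 := hz' (j, i)
      rw [h0] at h1
      exact h1.unique (Pl.Sp.zero ρ)
    obtain ⟨u, hu, hu1⟩ := munique_scale π (ι := Bool × ℕ)
      (x := fun p => (cond p.1 (tr (c₀ + r₀ * c) (r₀ * r) δ.al)
          (tr (c₀ + r₀ * c) (r₀ * r) δ.be)).coeff p.2)
      (y := fun p => (cond p.1 (tr c' r' a) (tr c' r' b)).coeff p.2) (z := y)
      (e₁ := e₀) (e₂ := e₁)
      (by
        rintro ⟨_ | _, i⟩
        · have h1 := hb₁ i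
          rwa [coeff_C_mul] at h1
        · have h1 := ha₁ i
          rwa [coeff_C_mul] at h1)
      hy
      (by
        obtain ⟨i, hi⟩ := ex (mcomp_tr_ne (c := c') hr' (nz hnc₀))
        exact ⟨(true, i), hi⟩)
      ynz
    obtain ⟨v, hv, hv1⟩ := munique_scale π (ι := σ × ℕ)
      (x := fun p => (tr (c₀ + r₀ * c) (r₀ * r) (δ.P p.1)).coeff p.2)
      (y := fun p => (tr c' r' (Q p.1)).coeff p.2) (z := z)
      (e₁ := e₀') (e₂ := e₁')
      (by
        rintro ⟨j, i⟩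
        have h1 := hQ₁ j i
        rwa [coeff_C_mul] at h1)
      hz
      (by
        obtain ⟨j, hj⟩ := hne₀
        obtain ⟨i, hi⟩ := ex (mcomp_tr_ne (c := c') hr' hj)
        exact ⟨(j, i), hi⟩)
      znz
    refine ⟨L, _, _, ρ, a₁, b₁, Q₁, rfl, ⟨hr', hnc₁, hne₁, u, v, hu, hv, ?_, ?_, ?_⟩, hT⟩
    · intro i
      have h1 := hy' (true, i)
      rw [hu1 (true, i)] at h1
      rw [coeff_C_mul]
      exact h1
    · intro i
      have h1 := hy' (false, i)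
      rw [hu1 (false, i)] at h1
      rw [coeff_C_mul]
      exact h1
    · intro j i
      have h1 := hz' (j, i)
      rw [hv1 (j, i)] at h1
      rw [coeff_C_mul]
      exact h1
  · rintro ⟨L, _, _, ρ, a₁, b₁, Q₁, rfl, ⟨-, hnc₁, hne₁, e₁, e₁', he₁, he₁', ha, hb, hQ⟩, hT⟩
    obtain ⟨E, hE⟩ := hπ e₁
    obtain ⟨E', hE'⟩ := hπ e₁'
    have key2 : ∀ {f : F[X]} {g : F'[X]} {q : L[X]} {x E : F} {e : F'}, π.Sp E e →
        π.SpP (C x * tr (c₀ + r₀ * c) (r₀ * r) f) (tr c' r' g) → ρ.SpP (C e * tr c' r' g) q →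
        (mcomp_pl π ρ).SpP (C (E * x) * tr (c₀ + r₀ * c) (r₀ * r) f) q := by
      intro f g q x E e hE h1 h2 i
      rw [C_mul, mul_assoc]
      exact mcomp_sp.2 ⟨_, mcomp_spP_C_mul h1 hE i, h2 i⟩
    exact ⟨L, _, _, mcomp_pl π ρ, a₁, b₁, Q₁, rfl, ⟨mul_ne_zero hr₀ hr0, hnc₁, hne₁, E * e₀,
      E' * e₀', mul_ne_zero (hE.ne_zero he₁) he₀, mul_ne_zero (hE'.ne_zero he₁') he₀',
      key2 hE ha₁ ha, key2 hE hb₁ hb, fun j => key2 hE' (hQ₁ j) (hQ j)⟩, hT⟩

end Pool.Agent.TT
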