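import Pool.Agent.TT.MUnique

set_option autoImplicit false
set_option linter.unusedSectionVars false

/-! TT-16. Let `π` be as in `exists_pl` for `A`, use `mrel_iff`. `s` does not occur in `Vred`. By Gauss' lemma: let `γ`
be a coefficient of largest value of `tr c r G` (not zero), `g` the reduction of `C γ⁻¹ * tr c r G`, not
zero. If `Vred π ⟨a, b, Q, s'⟩ c r a' b' Q'` with factors `e`, `e'` then
`Vred π ⟨G * a, ..⟩ c r (g * a') (g * b') Q'` with factors `e / γ`, `e' / u` (multiplication of a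
non-proportional pair with `g ≠ 0` is non-proportional). Conversely from the factors `ε`, `ε'` for
`⟨G * a, ..⟩` take `ε * γ`: the polynomials `C (ε γ) * tr c r a` have coefficients in `A` by Gauss' lemma
(the Gauss norm is multiplicative). `trel_mul` (TT-4). -/

namespace Pool.Agent.TT

open Pool.Agent.Helper16 Pool.Agent.Helper16.BB Pool.Agent.ThF Polynomial

variable {k σ : Type} [Field k] [Finite k] [Finite σ] {I : Set (MvPolynomial σ (RatFunc k))}
variable {F : Type} [Field F] [Algebra k F]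

/-- Proportional pairs stay proportional after multiplication. -/
theorem mmul_prop {R : Type} [CommRing R] (g a b : R[X])
    (h : ∀ i j, a.coeff i * b.coeff j = a.coeff j * b.coeff i) (i j : ℕ) :
    (g * a).coeff i * (g * b).coeff j = (g * a).coeff j * (g * b).coeff i := by
  have h1 : ∀ i, C (a.coeff i) * b = C (b.coeff i) * a := by
    intro i
    ext j
    rw [coeff_C_mul, coeff_C_mul, h i j, mul_comm]
  have h2 : ∀ i j, a.coeff i * (g * b).coeff j = b.coeff i * (g * a).coeff j := by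
    intro i j
    rw [← coeff_C_mul, ← coeff_C_mul, mul_left_comm, h1 i, mul_left_comm]
  have h3 : C ((g * b).coeff j) * a = C ((g * a).coeff j) * b := by
    ext i
    rw [coeff_C_mul, coeff_C_mul, mul_comm, h2 i j, mul_comm]
  have h4 : C ((g * b).coeff j) * (g * a) = C ((g * a).coeff j) * (g * b) := by
    rw [mul_left_comm, h3, mul_left_comm]
  have h5 := congrArg (fun p => p.coeff i) h4
  simp only [coeff_C_mul] at h5
  rw [mul_comm, h5]

/-- A pair which is proportional after multiplication is proportional. -/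
theorem mmul_prop' {R : Type} [CommRing R] [IsDomain R] (g a b : R[X]) (hg : g ≠ 0)
    (h : ∀ i j, (g * a).coeff i * (g * b).coeff j = (g * a).coeff j * (g * b).coeff i)
    (i j : ℕ) : a.coeff i * b.coeff j = a.coeff j * b.coeff i := by
  have h1 : ∀ i, C ((g * a).coeff i) * b = C ((g * b).coeff i) * a := by
    intro i
    apply mul_left_cancel₀ hg
    rw [mul_left_comm, mul_left_comm g]
    ext j
    rw [coeff_C_mul, coeff_C_mul, h i j, mul_comm]
  have h2 : ∀ j, C (b.coeff j) * a = C (a.coeff j) * b := by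
    intro j
    apply mul_left_cancel₀ hg
    rw [mul_left_comm, mul_left_comm g]
    ext i
    have h3 := congrArg (fun p => p.coeff j) (h1 i)
    simp only [coeff_C_mul] at h3
    rw [coeff_C_mul, coeff_C_mul, mul_comm, h3, mul_comm]
  have h5 := congrArg (fun p => p.coeff i) (h2 j)
  simp only [coeff_C_mul] at h5
  rw [mul_comm, h5]

section aux

variable {L : Type} [Field L] [Algebra k L] (π : Pl k F L)

omit [Finite k] in
theorem mmul_lift {f : F[X]} {f' : L[X]} (h : π.SpP f f') :
    ∃ q : π.A[X], q.map π.A.subtype = f ∧ q.map π.r = f' := by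
  obtain ⟨q, hq, hq'⟩ := munique_lift π (p := f) fun i => (h i).1
  refine ⟨q, hq, ?_⟩
  ext i
  exact munique_fun π (hq' i) (h i)

omit [Finite k] in
theorem mmul_spP {f h : F[X]} {f' h' : L[X]} (hf : π.SpP f f') (hh : π.SpP h h') :
    π.SpP (f * h) (f' * h') := by
  obtain ⟨q, hq, hq'⟩ := mmul_lift π hf
  obtain ⟨p, hp, hp'⟩ := mmul_lift π hh
  have h1 : (q * p).map π.A.subtype = f * h := by rw [Polynomial.map_mul, hq, hp]
  have h2 : (q * p).map π.r = f' * h' := by rw [Polynomial.map_mul, hq', hp']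
  intro i
  rw [← h1, ← h2, Polynomial.coeff_map, Polynomial.coeff_map]
  exact ⟨((q * p).coeff i).2, rfl⟩

omit [Finite k] in
/-- A non-zero polynomial can be scaled such that its reduction is not zero. -/
theorem mmul_scale (f : F[X]) (hf : f ≠ 0) :
    ∃ (γ : F) (g : L[X]), γ ≠ 0 ∧ g ≠ 0 ∧ π.SpP (C γ * f) g := by
  obtain ⟨i₀, hi₀, hmax⟩ := f.support.exists_max_image (fun i => π.A.valuation (f.coeff i))
    (by rwa [Polynomial.support_nonempty])
  have h0 : f.coeff i₀ ≠ 0 := mem_support_iff.1 hi₀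
  have hint : ∀ i, (C (f.coeff i₀)⁻¹ * f).coeff i ∈ π.A := by
    intro i
    rw [coeff_C_mul, ← π.A.valuation_le_one_iff, map_mul, map_inv₀]
    by_cases hi : i ∈ f.support
    · have h1 := hmax i hi
      have hv : π.A.valuation (f.coeff i₀) ≠ 0 := (π.A.valuation.ne_zero_iff).2 h0
      calc (π.A.valuation (f.coeff i₀))⁻¹ * π.A.valuation (f.coeff i)
          ≤ (π.A.valuation (f.coeff i₀))⁻¹ * π.A.valuation (f.coeff i₀) := by gcongr
        _ = 1 := inv_mul_cancel₀ hv
    · have h2 : f.coeff i = 0 := by rwa [mem_support_iff, not_not] at hi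
      rw [h2, map_zero, mul_zero]
      exact zero_le_one
  obtain ⟨q, hq, hq'⟩ := munique_lift π (p := C (f.coeff i₀)⁻¹ * f) hint
  refine ⟨(f.coeff i₀)⁻¹, q.map π.r, inv_ne_zero h0, ?_, hq'⟩
  intro h1
  have h2 := hq' i₀
  rw [h1, coeff_zero, coeff_C_mul, inv_mul_cancel₀ h0] at h2
  have h4 : π.Sp (1 : F) (1 : L) := ⟨one_mem _, by
    have h5 : (⟨1, one_mem _⟩ : π.A) = 1 := rfl
    rw [h5, map_one]⟩
  exact zero_ne_one (munique_fun π h2 h4)

omit [Finite k] in
/-- Gauss' lemma. -/
theorem mmul_gauss {h f p : F[X]} {g p' : L[X]} (hg : g ≠ 0) (hh : π.SpP h g)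
    (hp : π.SpP p p') (hpf : p = h * f) : ∃ f', π.SpP f f' ∧ p' = g * f' := by
  have key : ∀ i, f.coeff i ∈ π.A := by
    by_cases hf : f = 0
    · intro i
      rw [hf, coeff_zero]
      exact zero_mem _
    · obtain ⟨γ, f₁, hγ, hf₁, h1⟩ := mmul_scale π f hf
      have hγ' : γ⁻¹ ∈ π.A := by
        by_contra hcon
        have hγA : γ ∈ π.A := by
          rcases π.A.mem_or_inv_mem γ with h2 | h2
          · exact h2
          · exact absurd h2 hcon
        have hlt : π.A.valuation γ < 1 := by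
          rcases lt_or_eq_of_le ((π.A.valuation_le_one_iff γ).2 hγA) with h | h
          · exact h
          · exfalso
            apply hcon
            rw [← π.A.valuation_le_one_iff, map_inv₀, h, inv_one]
        have h3 : π.Sp γ 0 := ⟨hγA, (π.loc ⟨γ, hγA⟩).2 hlt⟩
        have h4 := mmul_spP π hh h1
        apply mul_ne_zero hg hf₁
        ext i
        rw [coeff_zero]
        have h5 := munique_mul π h3 (hp i)
        rw [zero_mul] at h5
        have h6 : (h * (C γ * f)).coeff i = γ * p.coeff i := by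
          rw [mul_left_comm, coeff_C_mul, hpf]
        have h7 := h4 i
        rw [h6] at h7
        exact munique_fun π h7 h5
      intro i
      have h2 := mul_mem hγ' (h1 i).1
      rwa [coeff_C_mul, inv_mul_cancel_left₀ hγ] at h2
  obtain ⟨q, hq, hq'⟩ := munique_lift π (p := f) key
  refine ⟨q.map π.r, hq', ?_⟩
  have h1 := mmul_spP π hh hq'
  rw [← hpf] at h1
  ext i
  exact munique_fun π (hp i) (h1 i)

end aux

theorem mmul_tr_mul (c r : F) (f g : F[X]) : tr c r (f * g) = tr c r f * tr c r g := by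
  rw [tr, tr, tr, mul_comp]

theorem mmul_tr_C (c r u : F) : tr c r (C u) = C u := by
  rw [tr, C_comp]

theorem mmul_tr_ne {c r : F} (hr : r ≠ 0) {f : F[X]} (hf : f ≠ 0) : tr c r f ≠ 0 := by
  intro h0
  rw [tr, comp_eq_zero_iff] at h0
  rcases h0 with h0 | ⟨-, h0⟩
  · exact hf h0
  · have h1 := congrArg (fun p => p.coeff 1) h0
    simp only [coeff_add, coeff_C_mul, coeff_X_one, mul_one, coeff_C_succ, zero_add] at h1
    exact hr h1

/-- Common factors and the coordinate of the point do not matter. -/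
theorem mrel_mul (hI : ∀ P ∈ I, ∃ d, P.IsHomogeneous d) {A : ValuationSubring F}
    {a b : F[X]} {Q : σ → F[X]} {s s' : F} (G : F[X]) (hG : G ≠ 0) (u : F) (hu : u ≠ 0)
    {c r : F} {e : ℕ} {τ : Quo (wOne σ) I} :
    MRel I A ⟨G * a, G * b, fun j => C u * Q j, s⟩ c r e τ ↔ MRel I A ⟨a, b, Q, s'⟩ c r e τ := by
  obtain ⟨L, _, _, π, rfl, hπ⟩ := exists_pl (k := k) A
  rw [mrel_iff hI π hπ, mrel_iff hI π hπ]
  constructor
  · rintro ⟨a', b', Q', ⟨hr, hnc, hne, ε, ε', hε, hε', ha, hb, hQ⟩, hT⟩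
    obtain ⟨γ, g, hγ, hg, hγg⟩ := mmul_scale π (tr c r G) (mmul_tr_ne hr hG)
    obtain ⟨a'', ha1, ha2⟩ := mmul_gauss π hg hγg ha
      (show C ε * tr c r (G * a) = C γ * tr c r G * (C (ε / γ) * tr c r a) by
        rw [mmul_tr_mul, mul_mul_mul_comm, ← C_mul, mul_div_cancel₀ _ hγ])
    obtain ⟨b'', hb1, hb2⟩ := mmul_gauss π hg hγg hb
      (show C ε * tr c r (G * b) = C γ * tr c r G * (C (ε / γ) * tr c r b) by
        rw [mmul_tr_mul, mul_mul_mul_comm, ← C_mul, mul_div_cancel₀ _ hγ])
    refine ⟨a'', b'', Q', ⟨hr, ?_, hne, ε / γ, ε' * u, div_ne_zero hε hγ, mul_ne_zero hε' hu,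
      ha1, hb1, ?_⟩, ?_⟩
    · by_contra hcon
      push Not at hcon
      obtain ⟨i, j, hij⟩ := hnc
      apply hij
      rw [ha2, hb2]
      exact mmul_prop g a'' b'' hcon i j
    · intro j
      have h1 : C (ε' * u) * tr c r (Q j) = C ε' * tr c r (C u * Q j) := by
        rw [mmul_tr_mul, mmul_tr_C, C_mul, mul_assoc]
      show π.SpP (C (ε' * u) * tr c r (Q j)) (Q' j)
      rw [h1]
      exact hQ j
    · rw [← trel_mul g hg 1 one_ne_zero, ← ha2, ← hb2]
      simpa using hT
  · rintro ⟨a', b', Q', ⟨hr, hnc, hne, ε, ε', hε, hε', ha, hb, hQ⟩, hT⟩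
    obtain ⟨γ, g, hγ, hg, hγg⟩ := mmul_scale π (tr c r G) (mmul_tr_ne hr hG)
    refine ⟨g * a', g * b', Q', ⟨hr, ?_, hne, γ * ε, ε' / u, mul_ne_zero hγ hε,
      div_ne_zero hε' hu, ?_, ?_, ?_⟩, ?_⟩
    · by_contra hcon
      push Not at hcon
      obtain ⟨i, j, hij⟩ := hnc
      exact hij (mmul_prop' g a' b' hg hcon i j)
    · have h1 : C (γ * ε) * tr c r (G * a) = C γ * tr c r G * (C ε * tr c r a) := by
        rw [mmul_tr_mul, C_mul, mul_mul_mul_comm]
      show π.SpP (C (γ * ε) * tr c r (G * a)) (g * a')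
      rw [h1]
      exact mmul_spP π hγg ha
    · have h1 : C (γ * ε) * tr c r (G * b) = C γ * tr c r G * (C ε * tr c r b) := by
        rw [mmul_tr_mul, C_mul, mul_mul_mul_comm]
      show π.SpP (C (γ * ε) * tr c r (G * b)) (g * b')
      rw [h1]
      exact mmul_spP π hγg hb
    · intro j
      have h1 : C (ε' / u) * tr c r (C u * Q j) = C ε' * tr c r (Q j) := by
        rw [mmul_tr_mul, mmul_tr_C, ← mul_assoc, ← C_mul, div_mul_cancel₀ _ hu]
      show π.SpP (C (ε' / u) * tr c r (C u * Q j)) (Q' j)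
      rw [h1]
      exact hQ j
    · have h1 := (trel_mul g hg 1 one_ne_zero).2 hT
      simpa using h1

end Pool.Agent.TT
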