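import Pool.Agent.TT.MUnique

set_option autoImplicit false
set_option linter.unusedSectionVars false

/-! TT-17. From the definition of `mass` and `mrel_unique` (TT-11). -/

namespace Pool.Agent.TT

open Pool.Agent.Helper16 Pool.Agent.Helper16.BB Pool.Agent.ThF Polynomial

variable {k σ : Type} [Field k] [Finite k] [Finite σ] {I : Set (MvPolynomial σ (RatFunc k))}
variable {F : Type} [Field F] [Algebra k F]

theorem mass_eq (hI : ∀ P ∈ I, ∃ d, P.IsHomogeneous d) (φ : Quo (wOne σ) I →ₗ[ℚ] ℚ)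
    {A : ValuationSubring F} {δ : CD σ F} {c r : F} {e : ℕ} {τ : Quo (wOne σ) I}
    (h : MRel I A δ c r e τ) : mass φ A δ c r = e * φ τ := by
  have h0 : ∃ p : ℕ × Quo (wOne σ) I, MRel I A δ c r p.1 p.2 := ⟨(e, τ), h⟩
  obtain ⟨h1, h2⟩ := mrel_unique hI h0.choose_spec h
  rw [mass, dif_pos h0, h1, h2]

theorem mass_eq_zero (φ : Quo (wOne σ) I →ₗ[ℚ] ℚ) {A : ValuationSubring F} {δ : CD σ F} {c r : F}
    (h : ¬ ∃ e τ, MRel I A δ c r e τ) : mass φ A δ c r = 0 := by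
  have h0 : ¬ ∃ p : ℕ × Quo (wOne σ) I, MRel I A δ c r p.1 p.2 := by
    rintro ⟨p, hp⟩
    exact h ⟨p.1, p.2, hp⟩
  rw [mass, dif_neg h0]

theorem mass_add (φ ψ : Quo (wOne σ) I →ₗ[ℚ] ℚ) (A : ValuationSubring F) (δ : CD σ F) (c r : F) :
    mass (φ + ψ) A δ c r = mass φ A δ c r + mass ψ A δ c r := by
  by_cases h : ∃ p : ℕ × Quo (wOne σ) I, MRel I A δ c r p.1 p.2
  · rw [mass, mass, mass, dif_pos h, dif_pos h, dif_pos h, LinearMap.add_apply, mul_add]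
  · rw [mass, mass, mass, dif_neg h, dif_neg h, dif_neg h, add_zero]

theorem mass_smul (φ : Quo (wOne σ) I →ₗ[ℚ] ℚ) (q : ℚ) (A : ValuationSubring F) (δ : CD σ F)
    (c r : F) : mass (q • φ) A δ c r = q * mass φ A δ c r := by
  by_cases h : ∃ p : ℕ × Quo (wOne σ) I, MRel I A δ c r p.1 p.2
  · rw [mass, mass, dif_pos h, dif_pos h, LinearMap.smul_apply, smul_eq_mul]
    ring
  · rw [mass, mass, dif_neg h, dif_neg h, mul_zero]

/-- Equality of masses from a correspondence of the relations. -/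
theorem mass_congr (hI : ∀ P ∈ I, ∃ d, P.IsHomogeneous d) (φ : Quo (wOne σ) I →ₗ[ℚ] ℚ)
    {F' : Type} [Field F'] [Algebra k F'] {A : ValuationSubring F} {δ : CD σ F} {c r : F}
    {A' : ValuationSubring F'} {δ' : CD σ F'} {c' r' : F'}
    (h : ∀ e τ, MRel I A δ c r e τ ↔ MRel I A' δ' c' r' e τ) :
    mass φ A δ c r = mass φ A' δ' c' r' := by
  by_cases h0 : ∃ e τ, MRel I A δ c r e τ
  · obtain ⟨e, τ, h1⟩ := h0
    rw [mass_eq hI φ h1, mass_eq hI φ ((h e τ).1 h1)]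
  · have h2 : ¬ ∃ e τ, MRel I A' δ' c' r' e τ := by
      rintro ⟨e, τ, h3⟩
      exact h0 ⟨e, τ, (h e τ).2 h3⟩
    rw [mass_eq_zero φ h0, mass_eq_zero φ h2]

end Pool.Agent.TT
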