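import Mathlib
import Pool.Agent.TT.Defs

set_option autoImplicit false
set_option linter.unusedSectionVars false

/-! TT-10. `pull_val_le`: `y` is a unit of `π.A` (`y' ≠ 0`), so `x / y` is in `π.pull B` iff `x' / y'` is in `B`
(`π.Sp (x / y) (x' / y')`); `ValuationSubring.valuation_le_iff`-type lemmas (`A.valuation x ≤ A.valuation y`
iff `x / y ∈ A` for `y ≠ 0`). `exists_pull`: `B = {y | ∃ x ∈ A, π.Sp x y}` is a valuation ring of `F'`
(for `y ≠ 0` take a lift `x` with `π.Sp x y`, `x ∈ A` or `x⁻¹ ∈ A`), and `π.pull B = A`: if `x ∈ π.A` has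
`π.r x ∈ B` then `x - x₁` is in the maximal ideal of `π.A` for some `x₁ ∈ A`; the maximal ideal of `π.A` is
contained in the one of `A` (`A ≤ π.A`), so `x ∈ A`. -/

namespace Pool.Agent.TT

open Pool.Agent.Helper16 Pool.Agent.Helper16.BB Pool.Agent.ThF Polynomial

variable {k σ : Type} [Field k] [Finite k] [Finite σ] {I : Set (MvPolynomial σ (RatFunc k))}
variable {F : Type} [Field F] [Algebra k F]
variable {F' : Type} [Field F'] [Algebra k F']

section

omit [Finite k]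

private theorem plcomp_mem (π : Pl k F F') (B : ValuationSubring F') (x : F) :
    x ∈ π.pull B ↔ ∃ h : x ∈ π.A, π.r ⟨x, h⟩ ∈ B := Iff.rfl

private theorem plcomp_mul {π : Pl k F F'} {x y : F} {x' y' : F'} (hx : π.Sp x x')
    (hy : π.Sp y y') : π.Sp (x * y) (x' * y') := by
  obtain ⟨h1, rfl⟩ := hx
  obtain ⟨h2, rfl⟩ := hy
  refine ⟨mul_mem h1 h2, ?_⟩
  rw [← map_mul]
  rfl

private theorem plcomp_add {π : Pl k F F'} {x y : F} {x' y' : F'} (hx : π.Sp x x')
    (hy : π.Sp y y') : π.Sp (x + y) (x' + y') := by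
  obtain ⟨h1, rfl⟩ := hx
  obtain ⟨h2, rfl⟩ := hy
  refine ⟨add_mem h1 h2, ?_⟩
  rw [← map_add]
  rfl

private theorem plcomp_neg {π : Pl k F F'} {x : F} {x' : F'} (hx : π.Sp x x') :
    π.Sp (-x) (-x') := by
  obtain ⟨h1, rfl⟩ := hx
  refine ⟨neg_mem h1, ?_⟩
  rw [← map_neg]
  rfl

private theorem plcomp_one (π : Pl k F F') : π.Sp 1 1 := ⟨one_mem _, map_one _⟩

private theorem plcomp_zero (π : Pl k F F') : π.Sp 0 0 := ⟨zero_mem _, map_zero _⟩

private theorem plcomp_unique {π : Pl k F F'} {x : F} {x' x'' : F'} (hx : π.Sp x x')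
    (hy : π.Sp x x'') : x' = x'' := by
  obtain ⟨h1, rfl⟩ := hx
  obtain ⟨h2, rfl⟩ := hy
  rfl

private theorem plcomp_ne {π : Pl k F F'} {x : F} {x' : F'} (hx : π.Sp x x') (h : x' ≠ 0) :
    x ≠ 0 := by
  rintro rfl
  exact h (plcomp_unique hx (plcomp_zero π))

private theorem plcomp_val {π : Pl k F F'} {x : F} {x' : F'} (hx : π.Sp x x') (h : x' ≠ 0) :
    π.A.valuation x = 1 := by
  obtain ⟨h1, rfl⟩ := hx
  refine le_antisymm ((π.A.valuation_le_one_iff x).2 h1) ?_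
  by_contra hlt
  rw [not_le] at hlt
  exact h ((π.loc ⟨x, h1⟩).2 hlt)

private theorem plcomp_inv {π : Pl k F F'} {x : F} {x' : F'} (hx : π.Sp x x') (h : x' ≠ 0) :
    π.Sp x⁻¹ x'⁻¹ := by
  have hv := plcomp_val hx h
  have hx0 := plcomp_ne hx h
  have hi : x⁻¹ ∈ π.A := by
    rw [← π.A.valuation_le_one_iff, map_inv₀, hv, inv_one]
  refine ⟨hi, ?_⟩
  have h1 : π.Sp (x * x⁻¹) (x' * π.r ⟨x⁻¹, hi⟩) := plcomp_mul hx ⟨hi, rfl⟩
  rw [mul_inv_cancel₀ hx0] at h1
  exact eq_inv_of_mul_eq_one_right (plcomp_unique h1 (plcomp_one π))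

private theorem plcomp_le_iff (A : ValuationSubring F) {x y : F} (hy : y ≠ 0) :
    A.valuation x ≤ A.valuation y ↔ x / y ∈ A := by
  rw [← A.valuation_le_one_iff, map_div₀, div_le_one₀]
  exact zero_lt_iff.2 ((Valuation.ne_zero_iff _).2 hy)

private theorem plcomp_le_iff' (A : ValuationSubring F') {x y : F'} (hy : y ≠ 0) :
    A.valuation x ≤ A.valuation y ↔ x / y ∈ A := by
  rw [← A.valuation_le_one_iff, map_div₀, div_le_one₀]
  exact zero_lt_iff.2 ((Valuation.ne_zero_iff _).2 hy)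

end

theorem pull_le (π : Pl k F F') (B : ValuationSubring F') : π.pull B ≤ π.A := by
  intro x hx
  obtain ⟨h, -⟩ := (plcomp_mem π B x).1 hx
  exact h

theorem pull_top (π : Pl k F F') : π.pull ⊤ = π.A := by
  ext x
  rw [plcomp_mem]
  exact ⟨fun h => h.1, fun h => ⟨h, ValuationSubring.mem_top _⟩⟩

theorem pull_val_le (π : Pl k F F') (B : ValuationSubring F') {x y : F} {x' y' : F'}
    (hx : π.Sp x x') (hy : π.Sp y y') (hy' : y' ≠ 0) :
    (π.pull B).valuation x ≤ (π.pull B).valuation y ↔ B.valuation x' ≤ B.valuation y' := by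
  have hy0 := plcomp_ne hy hy'
  rw [plcomp_le_iff _ hy0, plcomp_le_iff' _ hy', plcomp_mem]
  have h1 : π.Sp (x / y) (x' / y') := by
    rw [div_eq_mul_inv, div_eq_mul_inv]
    exact plcomp_mul hx (plcomp_inv hy hy')
  obtain ⟨h2, h3⟩ := h1
  rw [← h3]
  exact ⟨fun h => h.2, fun h => ⟨h2, h⟩⟩

/-- Every valuation ring contained in the ring of a surjective place is a composite. -/
theorem exists_pull (π : Pl k F F') (hπ : π.Surj) {A : ValuationSubring F} (hA : A ≤ π.A) :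
    ∃ B : ValuationSubring F', π.pull B = A := by
  let B : ValuationSubring F' :=
    { carrier := {y | ∃ x ∈ A, π.Sp x y}
      mul_mem' := by
        rintro _ _ ⟨x, hx, hx'⟩ ⟨y, hy, hy'⟩
        exact ⟨x * y, mul_mem hx hy, plcomp_mul hx' hy'⟩
      one_mem' := ⟨1, one_mem _, plcomp_one π⟩
      add_mem' := by
        rintro _ _ ⟨x, hx, hx'⟩ ⟨y, hy, hy'⟩
        exact ⟨x + y, add_mem hx hy, plcomp_add hx' hy'⟩
      zero_mem' := ⟨0, zero_mem _, plcomp_zero π⟩
      neg_mem' := by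
        rintro _ ⟨x, hx, hx'⟩
        exact ⟨-x, neg_mem hx, plcomp_neg hx'⟩
      mem_or_inv_mem' := by
        intro y
        obtain ⟨x, hx⟩ := hπ y
        by_cases hy : y = 0
        · left
          subst hy
          exact ⟨0, zero_mem _, plcomp_zero π⟩
        · rcases A.mem_or_inv_mem x with h | h
          · exact Or.inl ⟨x, h, hx⟩
          · exact Or.inr ⟨x⁻¹, h, plcomp_inv hx hy⟩ }
  have hB : ∀ y, y ∈ B ↔ ∃ x ∈ A, π.Sp x y := fun y => Iff.rfl
  refine ⟨B, ?_⟩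
  ext x
  rw [plcomp_mem]
  constructor
  · rintro ⟨h1, h2⟩
    obtain ⟨x₁, hx₁, hs⟩ := (hB _).1 h2
    have hs0 : π.Sp (x - x₁) 0 := by
      have h3 : π.Sp x (π.r ⟨x, h1⟩) := ⟨h1, rfl⟩
      have h4 := plcomp_add h3 (plcomp_neg hs)
      rwa [← sub_eq_add_neg, ← sub_eq_add_neg, sub_self] at h4
    obtain ⟨h5, h6⟩ := hs0
    have h7 : π.A.valuation (x - x₁) < 1 := (π.loc ⟨x - x₁, h5⟩).1 h6
    have h8 : x - x₁ ∈ A := by
      rcases A.mem_or_inv_mem (x - x₁) with h | h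
      · exact h
      · by_cases h0 : x - x₁ = 0
        · rw [h0]; exact zero_mem _
        · exfalso
          have h9 : π.A.valuation (x - x₁)⁻¹ ≤ 1 := (π.A.valuation_le_one_iff _).2 (hA h)
          rw [map_inv₀, inv_le_one₀ (zero_lt_iff.2 ((Valuation.ne_zero_iff _).2 h0))] at h9
          exact absurd h7 (not_lt.2 h9)
    have h9 := add_mem h8 hx₁
    rwa [sub_add_cancel] at h9
  · intro h
    exact ⟨hA h, (hB _).2 ⟨x, h, hA h, rfl⟩⟩

end Pool.Agent.TT
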