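import Mathlib
import Pool.Agent.TT.FRCoarseA
import Pool.Agent.TT.LemV
import Pool.Agent.TT.MComp
import Pool.Agent.TT.MMul
import Pool.Agent.TT.Mass
import Pool.Agent.TT.PlComp

set_option autoImplicit false
set_option linter.unusedSectionVars false

/-! TT-26, part C: the vertices of the composite place over a vertex of the place correspond to the vertices of
the reduction. -/

namespace Pool.Agent.TT

open Pool.Agent.Helper16 Pool.Agent.Helper16.BB Pool.Agent.ThF Polynomial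

variable {k σ : Type} [Field k] [Finite k] [Finite σ] {I : Set (MvPolynomial σ (RatFunc k))}
variable {F : Type} [Field F] [Algebra k F] {L : Type} [Field L] [Algebra k L]

theorem frcoarse_eqv_mono {A B : ValuationSubring F} (h : A ≤ B) {c r c' r' : F}
    (hE : Eqv A c r c' r') : Eqv B c r c' r' :=
  ⟨vciff_mono_eq h hE.1, vciff_mono h hE.2⟩

/-- The comparison of discs. -/
theorem frcoarse_eqv_iff (π : Pl k F L) (A' : ValuationSubring L) {c₀ r₀ c r c' r' : F}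
    (hr₀ : r₀ ≠ 0) {x y x' y' : L} (hc : π.Sp c x) (hr : π.Sp r y) (hc' : π.Sp c' x')
    (hr' : π.Sp r' y') (hy : y ≠ 0) (hy' : y' ≠ 0) :
    Eqv (π.pull A') (c₀ + r₀ * c) (r₀ * r) (c₀ + r₀ * c') (r₀ * r') ↔ Eqv A' x y x' y' := by
  have hv : (π.pull A').valuation r₀ ≠ 0 := (Valuation.ne_zero_iff _).2 hr₀
  have hv0 := zero_lt_iff.2 hv
  have e1 : c₀ + r₀ * c - (c₀ + r₀ * c') = r₀ * (c - c') := by ring
  have h1 : (π.pull A').valuation (r₀ * r) = (π.pull A').valuation (r₀ * r') ↔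
      A'.valuation y = A'.valuation y' := by
    rw [map_mul, map_mul]
    constructor
    · intro h
      have h2 := mul_left_cancel₀ hv h
      exact le_antisymm ((pull_val_le π A' hr hr' hy').1 h2.le)
        ((pull_val_le π A' hr' hr hy).1 h2.ge)
    · intro h
      rw [le_antisymm ((pull_val_le π A' hr hr' hy').2 h.le)
        ((pull_val_le π A' hr' hr hy).2 h.ge)]
  have h2 : (π.pull A').valuation (c₀ + r₀ * c - (c₀ + r₀ * c')) ≤ (π.pull A').valuation (r₀ * r) ↔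
      A'.valuation (x - x') ≤ A'.valuation y := by
    rw [e1, map_mul, map_mul, mul_le_mul_iff_right₀ hv0]
    exact pull_val_le π A' (vciff_sp_sub π hc hc') hr hy
  exact and_congr h1 h2

/-- Coordinates relative to a disc. -/
theorem frcoarse_coord (π : Pl k F L) {c₀ r₀ c r : F} (hr₀ : r₀ ≠ 0) (h : Eqv π.A c₀ r₀ c r) :
    ∃ (x y : L) (c₁ r₁ : F), c = c₀ + r₀ * c₁ ∧ r = r₀ * r₁ ∧ π.Sp c₁ x ∧ π.Sp r₁ y ∧ y ≠ 0 := by
  obtain ⟨hr, h1, h2, h3, h4, h5⟩ := meqv_aux h hr₀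
  refine ⟨π.r ⟨(c - c₀) / r₀, h1⟩, π.r ⟨r / r₀, h2⟩, (c - c₀) / r₀, r / r₀, h4, h5, ⟨h1, rfl⟩,
    ⟨h2, rfl⟩, ?_⟩
  refine vciff_sp_ne_zero π (x := r / r₀) ⟨h2, rfl⟩ ?_
  rw [map_div₀, h.1, div_self ((Valuation.ne_zero_iff _).2 hr)]

theorem frcoarse_eqv_base (π : Pl k F L) (c₀ r₀ : F) {c r : F} {x y : L}
    (hc : π.Sp c x) (hr : π.Sp r y) (hy : y ≠ 0) :
    Eqv π.A c₀ r₀ (c₀ + r₀ * c) (r₀ * r) := by
  refine ⟨?_, ?_⟩
  · rw [map_mul, vciff_sp_val_eq_one π hr hy, mul_one]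
  · rw [sub_add_cancel_left, Valuation.map_neg, map_mul]
    exact mul_le_of_le_one_right' (vciff_sp_val π hc).1

/-- The relation for the composite place in terms of the reduction. -/
theorem frcoarse_mrel (hI : ∀ P ∈ I, ∃ d, P.IsHomogeneous d) (π : Pl k F L) (hπ : π.Surj)
    {δ : CD σ F} {c₀ r₀ : F} {a b : L[X]} {Q : σ → L[X]} (h₀ : Vred π δ c₀ r₀ a b Q)
    {G a' b' : L[X]} (hG : G ≠ 0) (ha : a = G * a') (hb : b = G * b') {δ' : CD σ L}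
    (hδ' : δ' = ⟨a', b', Q, 0⟩) {c r : F} {x y : L} (hc : π.Sp c x)
    (hr : π.Sp r y) (hy : y ≠ 0) (A' : ValuationSubring L) (e : ℕ) (τ : Quo (wOne σ) I) :
    MRel I (π.pull A') δ (c₀ + r₀ * c) (r₀ * r) e τ ↔ MRel I A' δ' x y e τ := by
  subst ha hb hδ'
  rw [mrel_comp hI π hπ h₀ 0 hc hr hy A']
  have h1 := mrel_mul hI (A := A') (a := a') (b := b') (Q := Q) (s := 0) (s' := 0) G hG 1
    one_ne_zero (c := x) (r := y) (e := e) (τ := τ)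
  simp only [C_1, one_mul] at h1
  exact h1

open scoped Classical in
/-- The sum over a class of vertices. -/
theorem frcoarse_class [IsAlgClosed F] [IsAlgClosed L] (hI : ∀ P ∈ I, ∃ d, P.IsHomogeneous d)
    (φ : Quo (wOne σ) I →ₗ[ℚ] ℚ) {δ : CD σ F} (hδ : δ.Ok (k := k) I) (π : Pl k F L)
    (hπ : π.Surj) (A' : ValuationSubring L) {c₀ r₀ : F} {a b : L[X]} {Q : σ → L[X]}
    (h₀ : Vred π δ c₀ r₀ a b Q) {G a' b' : L[X]} (hG : G ≠ 0) (ha : a = G * a')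
    (hb : b = G * b') {δ' : CD σ L} (hδe : δ' = ⟨a', b', Q, 0⟩) (hδ' : δ'.Ok (k := k) I) :
    ∑ p ∈ δ.rts.offDiag.filter (fun p => Eqv π.A c₀ r₀ p.1 (p.2 - p.1)),
      mass φ (π.pull A') δ p.1 (p.2 - p.1) / ncl (π.pull A') δ p.1 (p.2 - p.1) =
    ∑ q ∈ δ'.rts.offDiag, mass φ A' δ' q.1 (q.2 - q.1) / ncl A' δ' q.1 (q.2 - q.1) := by
  have hr₀ : r₀ ≠ 0 := h₀.1
  have hAB : π.pull A' ≤ π.A := pull_le π A'
  have hM : ∀ {c r : F} {x y : L}, π.Sp c x → π.Sp r y → y ≠ 0 → ∀ e τ,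
      (MRel I (π.pull A') δ (c₀ + r₀ * c) (r₀ * r) e τ ↔ MRel I A' δ' x y e τ) :=
    fun hc hr hy e τ => frcoarse_mrel hI π hπ h₀ hG ha hb hδe hc hr hy A' e τ
  -- coordinates
  have hx : ∀ p : F × F, ∃ x y : L, Eqv π.A c₀ r₀ p.1 (p.2 - p.1) →
      y ≠ 0 ∧ ∃ c r : F, p.1 = c₀ + r₀ * c ∧ p.2 - p.1 = r₀ * r ∧ π.Sp c x ∧ π.Sp r y := by
    intro p
    by_cases h : Eqv π.A c₀ r₀ p.1 (p.2 - p.1)
    · obtain ⟨x, y, c₁, r₁, h1, h2, h3, h4, h5⟩ := frcoarse_coord π hr₀ h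
      exact ⟨x, y, fun _ => ⟨h5, c₁, r₁, h1, h2, h3, h4⟩⟩
    · exact ⟨0, 0, fun h' => absurd h' h⟩
  choose x y hxy using hx
  have F1 : ∀ p : F × F, Eqv π.A c₀ r₀ p.1 (p.2 - p.1) → ∀ e τ,
      (MRel I (π.pull A') δ p.1 (p.2 - p.1) e τ ↔ MRel I A' δ' (x p) (y p) e τ) := by
    intro p hp e τ
    obtain ⟨h1, c, r, h2, h3, h4, h5⟩ := hxy p hp
    rw [h3, h2]
    exact hM h4 h5 h1 e τ
  have F3 : ∀ p : F × F, Eqv π.A c₀ r₀ p.1 (p.2 - p.1) → ∀ {c r : F} {x' y' : L}, π.Sp c x' →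
      π.Sp r y' → y' ≠ 0 → (Eqv (π.pull A') (c₀ + r₀ * c) (r₀ * r) p.1 (p.2 - p.1) ↔
        Eqv A' x' y' (x p) (y p)) := by
    intro p hp c r x' y' hc hr hy
    obtain ⟨h1, c₁, r₁, h2, h3, h4, h5⟩ := hxy p hp
    rw [h3, h2]
    exact frcoarse_eqv_iff π A' hr₀ hc hr h4 h5 hy h1
  have F2 : ∀ p : F × F, Eqv π.A c₀ r₀ p.1 (p.2 - p.1) → ∀ p' : F × F,
      Eqv π.A c₀ r₀ p'.1 (p'.2 - p'.1) →
      (Eqv (π.pull A') p.1 (p.2 - p.1) p'.1 (p'.2 - p'.1) ↔ Eqv A' (x p) (y p) (x p') (y p')) := by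
    intro p hp p' hp'
    obtain ⟨h1, c₁, r₁, h2, h3, h4, h5⟩ := hxy p hp
    rw [h3, h2]
    exact F3 p' hp' h4 h5 h1
  -- restrict to vertices
  have hS : ∑ p ∈ δ.rts.offDiag.filter (fun p => Eqv π.A c₀ r₀ p.1 (p.2 - p.1)),
      mass φ (π.pull A') δ p.1 (p.2 - p.1) / (ncl (π.pull A') δ p.1 (p.2 - p.1) : ℚ) =
      ∑ p ∈ (δ.rts.offDiag.filter (fun p => Eqv π.A c₀ r₀ p.1 (p.2 - p.1))).filter
        (fun p => ∃ e τ, MRel I (π.pull A') δ p.1 (p.2 - p.1) e τ),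
      mass φ (π.pull A') δ p.1 (p.2 - p.1) / (ncl (π.pull A') δ p.1 (p.2 - p.1) : ℚ) := by
    symm
    refine Finset.sum_subset (Finset.filter_subset _ _) fun p hp hp' => ?_
    rw [mass_eq_zero φ (fun h => hp' (Finset.mem_filter.2 ⟨hp, h⟩)), zero_div]
  have hS' : ∑ q ∈ δ'.rts.offDiag, mass φ A' δ' q.1 (q.2 - q.1) /
      (ncl A' δ' q.1 (q.2 - q.1) : ℚ) =
      ∑ q ∈ δ'.rts.offDiag.filter (fun q => ∃ e τ, MRel I A' δ' q.1 (q.2 - q.1) e τ),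
      mass φ A' δ' q.1 (q.2 - q.1) / (ncl A' δ' q.1 (q.2 - q.1) : ℚ) := by
    symm
    refine Finset.sum_subset (Finset.filter_subset _ _) fun p hp hp' => ?_
    rw [mass_eq_zero φ (fun h => hp' (Finset.mem_filter.2 ⟨hp, h⟩)), zero_div]
  rw [hS, hS']
  have memT : ∀ p, p ∈ (δ.rts.offDiag.filter (fun p => Eqv π.A c₀ r₀ p.1 (p.2 - p.1))).filter
        (fun p => ∃ e τ, MRel I (π.pull A') δ p.1 (p.2 - p.1) e τ) ↔
      (p ∈ δ.rts.offDiag ∧ Eqv π.A c₀ r₀ p.1 (p.2 - p.1)) ∧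
        ∃ e τ, MRel I (π.pull A') δ p.1 (p.2 - p.1) e τ := by
    intro p
    rw [Finset.mem_filter, Finset.mem_filter]
  have memT' : ∀ q, q ∈ δ'.rts.offDiag.filter
        (fun q => ∃ e τ, MRel I A' δ' q.1 (q.2 - q.1) e τ) ↔
      q ∈ δ'.rts.offDiag ∧ ∃ e τ, MRel I A' δ' q.1 (q.2 - q.1) e τ := by
    intro q
    rw [Finset.mem_filter]
  have hsub : ∀ {E : Type} [Field E] {S : Finset E} {p : E × E}, p ∈ S.offDiag →
      p.2 - p.1 ≠ 0 := fun hp => sub_ne_zero.2 (Ne.symm (Finset.mem_offDiag.1 hp).2.2)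
  refine frcoarse_count _ _ (fun p q => Eqv A' (x p) (y p) q.1 (q.2 - q.1)) _ _ _ _ ?_ ?_ ?_ ?_ ?_
  · -- every vertex has an image
    intro p hp
    obtain ⟨⟨hp1, hp2⟩, e, τ, hp3⟩ := (memT p).1 hp
    have h1 := (F1 p hp2 e τ).1 hp3
    obtain ⟨q, hq, hE⟩ := lemma_V hδ' ((vc_iff hI hδ'.fam hδ'.ne _ _).2 ⟨e, τ, h1⟩)
    exact ⟨q, (memT' q).2 ⟨hq, e, τ, (mrel_eqv hI hE (hxy p hp2).1).1 h1⟩, hE⟩
  · -- every vertex of the reduction is an image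
    intro q hq
    obtain ⟨hq1, e, τ, hq2⟩ := (memT' q).1 hq
    obtain ⟨c, hc⟩ := hπ q.1
    obtain ⟨r, hr⟩ := hπ (q.2 - q.1)
    have hq0 := hsub hq1
    have hr0 : r ≠ 0 := munique_ne π hr hq0
    have h1 := (hM hc hr hq0 e τ).2 hq2
    obtain ⟨p, hp, hE⟩ := lemma_V hδ ((vc_iff hI hδ.fam hδ.ne _ _).2 ⟨e, τ, h1⟩)
    have h2 : Eqv π.A c₀ r₀ p.1 (p.2 - p.1) :=
      eqv_trans (frcoarse_eqv_base π c₀ r₀ hc hr hq0) (frcoarse_eqv_mono hAB hE)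
    exact ⟨p, (memT p).2 ⟨⟨hp, h2⟩, e, τ, (mrel_eqv hI hE (mul_ne_zero hr₀ hr0)).1 h1⟩,
      eqv_symm ((F3 p h2 hc hr hq0).1 hE)⟩
  · -- masses
    intro p hp q hq hW
    obtain ⟨⟨hp1, hp2⟩, -⟩ := (memT p).1 hp
    rw [mass_congr hI φ (F1 p hp2)]
    exact mass_congr hI φ fun e τ => mrel_eqv hI hW (hxy p hp2).1
  · -- classes of the reduction
    intro p hp q hq hW
    obtain ⟨⟨hp1, hp2⟩, -⟩ := (memT p).1 hp
    obtain ⟨hq1, e, τ, hq2⟩ := (memT' q).1 hq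
    rw [Nat.cast_inj]
    unfold ncl
    refine congrArg Finset.card ?_
    ext q'
    simp only [Finset.mem_filter]
    constructor
    · rintro ⟨⟨h1, -⟩, h2⟩
      exact ⟨h1, eqv_trans (eqv_symm hW) h2⟩
    · rintro ⟨h1, h2⟩
      exact ⟨⟨h1, e, τ, (mrel_eqv hI h2 (hsub hq1)).1 hq2⟩, eqv_trans hW h2⟩
  · -- classes of the data
    intro p hp q hq hW
    obtain ⟨⟨hp1, hp2⟩, e, τ, hp3⟩ := (memT p).1 hp
    rw [Nat.cast_inj]
    unfold ncl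
    refine congrArg Finset.card ?_
    ext p'
    simp only [Finset.mem_filter]
    constructor
    · rintro ⟨⟨⟨h1, h2⟩, -⟩, h3⟩
      exact ⟨h1, (F2 p hp2 p' h2).2 (eqv_trans hW (eqv_symm h3))⟩
    · rintro ⟨h1, h2⟩
      have h3 : Eqv π.A c₀ r₀ p'.1 (p'.2 - p'.1) := eqv_trans hp2 (frcoarse_eqv_mono hAB h2)
      exact ⟨⟨⟨h1, h3⟩, e, τ, (mrel_eqv hI h2 (hsub hp1)).1 hp3⟩,
        eqv_trans (eqv_symm ((F2 p hp2 p' h3).1 h2)) hW⟩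

end Pool.Agent.TT
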