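import Pool.Agent.TT.Defs

set_option autoImplicit false
set_option linter.unusedSectionVars false

/-! TT-9. `exists_pl`: `L` = the residue field of `A`; `k` is finite, so `algebraMap k F a` is `0` or a root of
unity, hence in `A`; the algebra structure on the residue field is the composite.
`pl_factor`: `π.r` is surjective with kernel the maximal ideal, and `π'.r` kills the maximal ideal
(`π'.A = π.A`; `Ideal.quotientKerEquivOfSurjective`, `Ideal.Quotient.lift`, or `Function.surjInv`).
The other statements on composites: see `PlComp` (TT-10). -/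

namespace Pool.Agent.TT

open Pool.Agent.Helper16 Pool.Agent.Helper16.BB Pool.Agent.ThF Polynomial

variable {k σ : Type} [Field k] [Finite k] [Finite σ] {I : Set (MvPolynomial σ (RatFunc k))}
variable {F : Type} [Field F] [Algebra k F]

theorem plbase_mem (A : ValuationSubring F) (a : k) : algebraMap k F a ∈ A := by
  by_cases ha : a = 0
  · rw [ha, map_zero]
    exact zero_mem _
  · have : Fintype k := Fintype.ofFinite k
    have h1 : a ^ (Fintype.card k - 1) = 1 := FiniteField.pow_card_sub_one_eq_one a ha
    have h2 : A.valuation (algebraMap k F a) ^ (Fintype.card k - 1) = 1 := by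
      rw [← map_pow, ← map_pow, h1, map_one, map_one]
    have h3 : Fintype.card k - 1 ≠ 0 := by
      have := Fintype.one_lt_card (α := k)
      omega
    rw [← A.valuation_le_one_iff]
    exact le_of_eq ((pow_eq_one_iff_of_nonneg zero_le h3).1 h2)

theorem exists_pl (A : ValuationSubring F) :
    ∃ (L : Type) (_ : Field L) (_ : Algebra k L) (π : Pl k F L), π.A = A ∧ π.Surj := by
  let i : k →+* A :=
    { toFun := fun a => ⟨algebraMap k F a, plbase_mem A a⟩
      map_one' := Subtype.ext (map_one _)
      map_mul' := fun x y => Subtype.ext (map_mul _ x y)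
      map_zero' := Subtype.ext (map_zero _)
      map_add' := fun x y => Subtype.ext (map_add _ x y) }
  let alg : Algebra k (IsLocalRing.ResidueField A) :=
    ((IsLocalRing.residue A).comp i).toAlgebra
  refine ⟨IsLocalRing.ResidueField A, inferInstance, alg,
    { A := A
      r := IsLocalRing.residue A
      loc := fun x => by
        rw [IsLocalRing.residue_eq_zero_iff]
        exact A.valuation_lt_one_iff x
      hk := fun a => ⟨plbase_mem A a, rfl⟩ }, rfl, ?_⟩
  intro y
  obtain ⟨x, hx⟩ := IsLocalRing.residue_surjective y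
  exact ⟨x, x.2, hx⟩

theorem pl_factor {L L' : Type} [Field L] [Algebra k L] [Field L'] [Algebra k L'] (π : Pl k F L)
    (hπ : π.Surj) (π' : Pl k F L') (hA : π'.A = π.A) :
    ∃ f : L →ₐ[k] L', ∀ x y, π.Sp x y → π'.Sp x (f y) := by
  obtain ⟨A', r', loc', hk'⟩ := π'
  simp only at hA
  subst hA
  have hs : Function.Surjective π.r := by
    intro y
    obtain ⟨x, h, hx⟩ := hπ y
    exact ⟨⟨x, h⟩, hx⟩
  have hker : ∀ x : π.A, π.r x = 0 → r' x = 0 := fun x hx => (loc' x).2 ((π.loc x).1 hx)
  let g : L →+* L' :=
    RingHom.liftOfRightInverse π.r (Function.surjInv hs) (Function.rightInverse_surjInv hs)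
      ⟨r', fun x hx => hker x hx⟩
  have hg : ∀ x : π.A, g (π.r x) = r' x := fun x =>
    RingHom.liftOfRightInverse_comp_apply π.r (Function.surjInv hs)
      (Function.rightInverse_surjInv hs) ⟨r', fun x hx => hker x hx⟩ x
  refine ⟨{ g with commutes' := fun a => ?_ }, ?_⟩
  · obtain ⟨h, ha⟩ := π.hk a
    obtain ⟨h', ha'⟩ := hk' a
    show g (algebraMap k L a) = algebraMap k L' a
    rw [← ha, hg]
    exact ha'
  · rintro x y ⟨h, hx⟩
    refine ⟨h, ?_⟩
    show r' ⟨x, h⟩ = g y
    rw [← hx, hg]

end Pool.Agent.TT
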