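import Mathlib
import Pool.Agent.TT.PlBase

set_option autoImplicit false
set_option linter.unusedSectionVars false
set_option linter.style.haveILetI false

/-! Project TT, block B: descent of data to a finite extension `E` of `k(t)`, the place of `E` below a
valuation ring. -/

namespace Pool.Agent.TT

open Pool.Agent.Helper16 Pool.Agent.Helper16.BB Pool.Agent.ThF Polynomial

/-- A finite extension of `k(t)` containing finitely many elements. -/
theorem exists_E {K L : Type} [Field K] [Field L] [Algebra K L] [Algebra.IsAlgebraic K L]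
    (S : Finset L) : ∃ E : IntermediateField K L, FiniteDimensional K E ∧ ∀ x ∈ S, x ∈ E := by
  refine ⟨IntermediateField.adjoin K (S : Set L), ?_, fun x hx =>
    IntermediateField.subset_adjoin _ _ hx⟩
  exact IntermediateField.finiteDimensional_adjoin
    (fun x _ => (Algebra.IsAlgebraic.isAlgebraic x).isIntegral)

/-- Descent of polynomials. -/
theorem exists_polyE {K L : Type} [Field K] [Field L] [Algebra K L] (E : IntermediateField K L)
    (p : L[X]) (hp : ∀ i, p.coeff i ∈ E) : ∃ q : E[X], q.map (algebraMap E L) = p := by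
  have h1 : p ∈ Polynomial.lifts (algebraMap E L) := by
    rw [Polynomial.lifts_iff_coeff_lifts]
    intro i
    exact ⟨⟨p.coeff i, hp i⟩, rfl⟩
  exact (Polynomial.mem_lifts p).1 h1

section

variable {k σ : Type} [Field k] [Finite k] [Finite σ] {I : Set (MvPolynomial σ (RatFunc k))}

/-- Descent of data to a finite extension of `k(t)`. -/
theorem exists_dataE {L : Type} [Field L] [IsAlgClosed L]
    [Algebra k L] [Algebra (RatFunc k) L] [IsScalarTower k (RatFunc k) L]
    [Algebra.IsAlgebraic (RatFunc k) L] {n : ℕ} (Δ : Fin n → CD σ L)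
    (hΔ : ∀ l, (Δ l).Ok (k := k) I) (S₀ : Finset L) :
    ∃ (E : IntermediateField (RatFunc k) L) (_ : FiniteDimensional (RatFunc k) E)
      (Δ' : Fin n → CD σ E), (∀ l, Δ l = (Δ' l).map (algebraMap E L)) ∧
      (∀ l, (Δ' l).Ok (k := k) I) ∧
      (∀ l, ((Δ' l).al * (Δ' l).be * ((Δ' l).al - (Δ' l).be)).Splits) ∧ ∀ x ∈ S₀, x ∈ E := by
  classical
  haveI := Fintype.ofFinite σ
  let S : Finset L := S₀ ∪ Finset.univ.biUnion fun l => (Δ l).al.coeffs ∪ (Δ l).be.coeffs ∪
    (Finset.univ.biUnion fun j => ((Δ l).P j).coeffs) ∪ {(Δ l).s} ∪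
    ((Δ l).al * (Δ l).be * ((Δ l).al - (Δ l).be)).roots.toFinset
  obtain ⟨E, hE, hS⟩ := exists_E (K := RatFunc k) S
  have hmem : ∀ l x, x ∈ (Δ l).al.coeffs ∪ (Δ l).be.coeffs ∪
      (Finset.univ.biUnion fun j => ((Δ l).P j).coeffs) ∪ {(Δ l).s} ∪
      ((Δ l).al * (Δ l).be * ((Δ l).al - (Δ l).be)).roots.toFinset → x ∈ E := by
    intro l x hx
    apply hS
    exact Finset.mem_union_right _ (Finset.mem_biUnion.2 ⟨l, Finset.mem_univ _, hx⟩)
  have hlift : ∀ p : L[X], (∀ x ∈ p.coeffs, x ∈ E) → ∃ q : E[X], q.map (algebraMap E L) = p := by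
    intro p hp
    refine exists_polyE E p fun i => ?_
    by_cases h0 : p.coeff i = 0
    · rw [h0]; exact E.zero_mem
    · exact hp _ (Polynomial.coeff_mem_coeffs h0)
  have hal : ∀ l, ∃ q : E[X], q.map (algebraMap E L) = (Δ l).al := fun l =>
    hlift _ fun x hx => hmem l x (by simp only [Finset.mem_union]; tauto)
  have hbe : ∀ l, ∃ q : E[X], q.map (algebraMap E L) = (Δ l).be := fun l =>
    hlift _ fun x hx => hmem l x (by simp only [Finset.mem_union]; tauto)
  have hP : ∀ l j, ∃ q : E[X], q.map (algebraMap E L) = (Δ l).P j := fun l j =>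
    hlift _ fun x hx => hmem l x (by
      simp only [Finset.mem_union, Finset.mem_biUnion, Finset.mem_univ, true_and]
      exact Or.inl (Or.inl (Or.inr ⟨j, hx⟩)))
  choose al' hal' using hal
  choose be' hbe' using hbe
  choose P' hP' using hP
  have hs : ∀ l, (Δ l).s ∈ E := fun l => hmem l _ (by simp)
  let Δ' : Fin n → CD σ E := fun l => ⟨al' l, be' l, P' l, ⟨(Δ l).s, hs l⟩⟩
  have hinj := (algebraMap E L).injective
  have hmap : ∀ l, Δ l = (Δ' l).map (algebraMap E L) := by
    intro l
    have h1 : (Δ' l).map (algebraMap E L) = ⟨(al' l).map (algebraMap E L),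
      (be' l).map (algebraMap E L), fun j => (P' l j).map (algebraMap E L), (Δ l).s⟩ := rfl
    rw [h1, hal', hbe']
    simp only [hP']
  refine ⟨E, hE, Δ', hmap, fun l => ⟨?_, ?_, ?_, ?_⟩, fun l => ?_,
    fun x hx => hS x (Finset.mem_union_left _ hx)⟩
  · apply IsFam.of_map (E.val.restrictScalars k) E.val.injective
    have h1 := (hΔ l).fam
    rw [hmap l] at h1
    exact h1
  · have h1 := (hΔ l).cop
    rw [hmap l] at h1
    exact (Polynomial.isCoprime_map (algebraMap E L)).1 h1
  · have h1 := (hΔ l).pos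
    rw [hmap l] at h1
    have h2 : ((Δ' l).map (algebraMap E L)).b = (Δ' l).b := by
      simp only [CD.b, CD.map, natDegree_map]
    rwa [h2] at h1
  · obtain ⟨j, hj⟩ := (hΔ l).ne
    refine ⟨j, fun h0 => hj ?_⟩
    rw [hmap l]
    change ((Δ' l).P j).map (algebraMap E L) = 0
    rw [h0, Polynomial.map_zero]
  · have h1 : ((Δ' l).al * (Δ' l).be * ((Δ' l).al - (Δ' l).be)).map (algebraMap E L) =
        (Δ l).al * (Δ l).be * ((Δ l).al - (Δ l).be) := by
      rw [Polynomial.map_mul, Polynomial.map_mul, Polynomial.map_sub]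
      simp only [Δ', hal', hbe']
    refine Polynomial.Splits.of_splits_map (algebraMap E L) (IsAlgClosed.splits _) fun a ha => ?_
    rw [h1] at ha
    exact ⟨⟨a, hmem l a (Finset.mem_union_right _ (Multiset.mem_toFinset.2 ha))⟩, rfl⟩

/-- The place below a valuation ring. -/
theorem exists_below {L : Type} [Field L] [Algebra k L] [Algebra (RatFunc k) L]
    [IsScalarTower k (RatFunc k) L] [Algebra.IsAlgebraic (RatFunc k) L]
    (E : IntermediateField (RatFunc k) L) [FiniteDimensional (RatFunc k) E]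
    (A : ValuationSubring L) (hA : A ≠ ⊤) :
    ∃ u : Place k E, ∀ a : E, algebraMap E L a ∈ A ↔ u.val a ≤ 1 := by
  have hE : IsFunctionField k E := (isFunctionField_K (k := k)).of_finite
  let O : ValuationSubring E := A.comap (algebraMap E L)
  have hmemO : ∀ a : E, a ∈ O ↔ algebraMap E L a ∈ A := fun a => Iff.rfl
  have hk : ∀ a : k, algebraMap k E a ∈ O := by
    intro a
    haveI : IsScalarTower k E L := IsScalarTower.of_algebraMap_eq fun a => by
      rw [IsScalarTower.algebraMap_apply k (RatFunc k) L,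
        IsScalarTower.algebraMap_apply k (RatFunc k) E]
      rfl
    rw [hmemO, ← IsScalarTower.algebraMap_apply k E L]
    obtain ⟨L', _, _, π, hπ, -⟩ := exists_pl (k := k) A
    rw [← hπ]
    exact (π.hk a).1
  have hy : ∃ y : E, y ∉ O := by
    by_contra hcon
    push Not at hcon
    apply hA
    rw [eq_top_iff]
    intro x _
    obtain ⟨p, hp, hpx⟩ := Algebra.IsAlgebraic.isAlgebraic (R := RatFunc k) x
    have hint : IsIntegral (RatFunc k) x :=
      (Algebra.IsAlgebraic.isAlgebraic (R := RatFunc k) x).isIntegral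
    have hKA : ∀ c : RatFunc k, algebraMap (RatFunc k) L c ∈ A := fun c => by
      have := hcon (algebraMap (RatFunc k) E c)
      rw [hmemO, ← IsScalarTower.algebraMap_apply (RatFunc k) E L] at this
      exact this
    exact (IntOver.of_isIntegral (s := (0 : L)) hint).mem_valuationSubring A hKA (zero_mem _)
  obtain ⟨y, hy⟩ := hy
  obtain ⟨u, hu⟩ := hE.exists_place O hk y hy
  exact ⟨u, fun a => (hu a).symm⟩

end

end Pool.Agent.TT
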