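import Mathlib
import Pool.Agent.TT.Defs

set_option autoImplicit false
set_option linter.unusedSectionVars false

/-! Project TT, block B (Gauss places of `E(X)/k(t)`): definitions.

`Gl I δ X`: `N = E(X)` is the function field of the rational curve `δ` over the function field `E/k`,
with the structure of an extension of `k(t)` given by `t = al(X)/be(X)`. -/

namespace Pool.Agent.TT

open Pool.Agent.Helper16 Pool.Agent.Helper16.BB Pool.Agent.ThF Polynomial

/-- The class of the specialisation. -/
noncomputable def clv {K σ N : Type} [Field K] [Field N] [Algebra K N] (I : Set (MvPolynomial σ K))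
    (v : Place K N) (x : σ → N) : Quo (wOne σ) I :=
  open scoped Classical in
  if h : ∃ y, IsSp (wOne σ) I v x y then cls (wOne σ) I h.choose else 0

theorem clv_eq {K σ N : Type} [Field K] [Field N] [Algebra K N] [Finite σ]
    {I : Set (MvPolynomial σ K)} (hN : IsFunctionField K N) (v : Place K N) (x : σ → N)
    {y : σ → AlgebraicClosure K} (hy : IsSp (wOne σ) I v x y) : clv I v x = cls (wOne σ) I y := by
  have h : ∃ y, IsSp (wOne σ) I v x y := ⟨y, hy⟩
  rw [clv, dif_pos h]
  exact cls_isSp_eq hN v x _ _ h.choose_spec hy

section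

variable {k E N σ : Type} [Field k] [Field E] [Field N] [Algebra k E] [Algebra k N] [Algebra E N]
  [Algebra (RatFunc k) N] [IsScalarTower k E N] [IsScalarTower k (RatFunc k) N]

/-- The setting of block B. -/
structure Gl (I : Set (MvPolynomial σ (RatFunc k))) (δ : CD σ E) (X : N) : Prop where
  hE : IsFunctionField k E
  hN : IsFunctionField (RatFunc k) N
  hNE : IsFunctionField E N
  iso : ∃ e : RatFunc E ≃ₐ[E] N, e RatFunc.X = X
  ok : δ.Ok (k := k) I
  spl : (δ.al * δ.be * (δ.al - δ.be)).Splits
  ht : tt k N * aeval X δ.be = aeval X δ.al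

/-- The place `v` of `N` lies over the place `u` of `E` (without ramification). -/
def Ov (u : Place k E) (v : Place (RatFunc k) N) : Prop :=
  ∀ a : E, v.val (algebraMap E N a) = u.val a

/-- The coordinate `(X - c) / r` is a unit at `v` and its residue is transcendental over `k`. -/
def ResTr (v : Place (RatFunc k) N) (X : N) (c r : E) : Prop :=
  v.val ((X - algebraMap E N c) / algebraMap E N r) = 1 ∧
    ¬ IsAlgebraic k (v.res ((X - algebraMap E N c) / algebraMap E N r))

end

section

variable {k E : Type} [Field k] [Field E] [Algebra k E]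

/-- The valuation ring of a place. -/
def vs (u : Place k E) : ValuationSubring E := u.val.valuationSubring

theorem mem_vs (u : Place k E) (x : E) : x ∈ vs u ↔ u.val x ≤ 1 := Iff.rfl

theorem vs_valuation_le (u : Place k E) (x y : E) :
    (vs u).valuation x ≤ (vs u).valuation y ↔ u.val x ≤ u.val y := by
  by_cases hy : y = 0
  · subst hy
    simp
  · have h1 : (vs u).valuation y ≠ 0 := (Valuation.ne_zero_iff _).2 hy
    have h2 : u.val y ≠ 0 := (Valuation.ne_zero_iff _).2 hy
    rw [← div_le_one₀ (zero_lt_iff.2 h1), ← div_le_one₀ (zero_lt_iff.2 h2), ← map_div₀,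
      ← map_div₀, ValuationSubring.valuation_le_one_iff, mem_vs]

theorem vs_valuation_lt (u : Place k E) (x y : E) :
    (vs u).valuation x < (vs u).valuation y ↔ u.val x < u.val y := by
  rw [← not_le, ← not_le, vs_valuation_le]

theorem vs_valuation_eq (u : Place k E) (x y : E) :
    (vs u).valuation x = (vs u).valuation y ↔ u.val x = u.val y := by
  rw [le_antisymm_iff, le_antisymm_iff, vs_valuation_le, vs_valuation_le]

theorem vs_valuation_lt_one (u : Place k E) (x : E) : (vs u).valuation x < 1 ↔ u.val x < 1 := by
  have h := vs_valuation_lt u x 1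
  rwa [map_one, map_one] at h

theorem vs_valuation_le_one (u : Place k E) (x : E) : (vs u).valuation x ≤ 1 ↔ u.val x ≤ 1 := by
  have h := vs_valuation_le u x 1
  rwa [map_one, map_one] at h

theorem vs_valuation_eq_one (u : Place k E) (x : E) : (vs u).valuation x = 1 ↔ u.val x = 1 := by
  have h := vs_valuation_eq u x 1
  rwa [map_one, map_one] at h

/-- A place of `E`, as a place with values in its residue field. -/
noncomputable def plE (u : Place k E) : Pl k E u.resField where
  A := vs u
  r :=
    { toFun := fun x => u.res (x : E)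
      map_one' := u.res_one
      map_zero' := u.res_zero
      map_mul' := fun x y => u.res_mul (x := (x : E)) (y := (y : E)) x.2 y.2
      map_add' := fun x y => u.res_add (x := (x : E)) (y := (y : E)) x.2 y.2 }
  loc := fun x => by
    change u.res (x : E) = 0 ↔ _
    rw [u.res_eq_zero_iff (x := (x : E)) x.2, vs_valuation_lt_one]
  hk := fun a => ⟨u.val_algebraMap_le a, u.res_algebraMap a⟩

theorem plE_A (u : Place k E) : (plE u).A = vs u := rfl

theorem plE_Sp (u : Place k E) (x : E) (y : u.resField) :
    (plE u).Sp x y ↔ u.val x ≤ 1 ∧ u.res x = y :=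
  ⟨fun ⟨h, h'⟩ => ⟨h, h'⟩, fun ⟨h, h'⟩ => ⟨h, h'⟩⟩

end

end Pool.Agent.TT
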