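import Mathlib
import Pool.Agent.ThF.OpenA
import Pool.Agent.ThF.StepACore

set_option autoImplicit false
set_option linter.unusedSectionVars false

/-! TT-1. `IsFam I a b Q` says that `(Q_j)` satisfies the equations of `X` over `L(X)` with `t = a / b`.

`isFam_comp`: apply the ring homomorphism `L[X] → L[X]`, `f ↦ f.comp l` (`Polynomial.compRingHom`, it
is a `k`-algebra homomorphism) to the equations, as in `IsFam.map` (ThF/Defs).
`isFam_mul`: let `N = RatFunc L` (or the algebraic closure of it). `a`, `b` are not `0` (by `hnc`), and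
`τ = a / b` is transcendental over `k`: if `τ` is algebraic over `k` then it is algebraic over `L` and in
`RatFunc L`, so it is a constant `c` in `L`, `a = c b`, contradiction to `hnc` (compare
`stepA_transcendental` in ThF/StepACore.lean: with `s = RatFunc.X`). So there is a `k`-algebra
homomorphism `RatFunc k → N` with `X ↦ τ`; let `N` be a `RatFunc k`-algebra by it (local instances,
`IsScalarTower k (RatFunc k) N`; `RatFunc.liftAlgHom`, or see `exists_twist_algebra` in Helper16/GC11 for
how this was done). Then `aeval_bih` (ThF/Defs) with `F = N` and `(a, b, x) = (a, b, Q)`, and with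
`(G a, G b, G' Q)`: both sides are equivalent to the vanishing of `P ∈ I` at `Q`, resp. `G' Q` in `N`,
and `P` is homogeneous (`hI`; `aeval_scale`/`open_aeval_smul` in ThF/OpenA.lean). -/

namespace Pool.Agent.TT

open Pool.Agent.Helper16 Pool.Agent.Helper16.BB Pool.Agent.ThF Polynomial

variable {k σ : Type} [Field k] [Finite σ] {I : Set (MvPolynomial σ (RatFunc k))}
variable {L L' : Type} [Field L] [Algebra k L] [Field L'] [Algebra k L']

/-- The family condition can be tested at a transcendental element. -/
theorem fammul_iff {N : Type} [Field N] [Algebra k N] [Algebra L N] [IsScalarTower k L N]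
    [Algebra (RatFunc k) N] [IsScalarTower k (RatFunc k) N] (s : N)
    (hs : Function.Injective (aeval s : L[X] →ₐ[L] N)) (a b : L[X]) (Q : σ → L[X]) (hb : b ≠ 0)
    (ht : tt k N * aeval s b = aeval s a) :
    IsFam I a b Q ↔ ∀ P ∈ I, MvPolynomial.aeval (fun j => aeval s (Q j)) P = 0 := by
  have hb' : aeval s b ≠ 0 := fun h => hb (hs (h.trans (map_zero _).symm))
  have key : ∀ P : MvPolynomial σ (RatFunc k),
      MvPolynomial.aeval (Sum.elim (fun e : Bool => cond e a b) Q) (bih P) = 0 ↔
      MvPolynomial.aeval (fun j => aeval s (Q j)) P = 0 := by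
    intro P
    rw [← aeval_bih P hb' ht]
    have h2 := MvPolynomial.comp_aeval_apply
      (f := Sum.elim (fun e : Bool => cond e a b) Q)
      ((aeval s : L[X] →ₐ[L] N).restrictScalars k) (bih P)
    have h3 : MvPolynomial.aeval (Sum.elim (fun e : Bool => cond e (aeval s a) (aeval s b))
        (fun j => aeval s (Q j))) (bih P) =
        aeval s (MvPolynomial.aeval (Sum.elim (fun e : Bool => cond e a b) Q) (bih P)) := by
      refine Eq.trans ?_ h2.symm
      congr 2
      funext c
      rcases c with c | c
      · cases c <;> rfl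
      · rfl
    rw [h3]
    constructor
    · intro h
      rw [h, map_zero]
    · intro h
      exact hs (h.trans (map_zero _).symm)
  constructor
  · intro h P hP
    exact (key P).1 (h P hP)
  · intro h P hP
    exact (key P).2 (h P hP)

/-- A field of rational functions with `t = a / b`. -/
theorem fammul_exists (a b : L[X]) (hnc : ∃ i j, a.coeff i * b.coeff j ≠ a.coeff j * b.coeff i) :
    ∃ (N : Type) (_ : Field N) (_ : Algebra k N) (_ : Algebra L N) (_ : IsScalarTower k L N)
      (_ : Algebra (RatFunc k) N) (_ : IsScalarTower k (RatFunc k) N) (s : N),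
      Function.Injective (aeval s : L[X] →ₐ[L] N) ∧ tt k N * aeval s b = aeval s a := by
  have hXtr : Transcendental L (RatFunc.X : RatFunc L) := ratFunc_X_transcendental L
  have hb : b ≠ 0 := by
    rintro rfl
    obtain ⟨i, j, hij⟩ := hnc
    apply hij
    simp
  have hinj : Function.Injective (aeval (RatFunc.X : RatFunc L) : L[X] →ₐ[L] RatFunc L) :=
    transcendental_iff_injective.1 hXtr
  have hb' : aeval (RatFunc.X : RatFunc L) b ≠ 0 := fun h => hb (hinj (h.trans (map_zero _).symm))
  set τ : RatFunc L := aeval (RatFunc.X : RatFunc L) a / aeval (RatFunc.X : RatFunc L) b with hτ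
  have hmul : τ * aeval (RatFunc.X : RatFunc L) b = aeval (RatFunc.X : RatFunc L) a := by
    rw [hτ, div_mul_cancel₀ _ hb']
  have hτtr : Transcendental L τ := stepA_transcendental RatFunc.X τ hXtr a b hnc hmul
  have hτk : Transcendental k τ := fun h => hτtr (h.tower_top L)
  have hinjk : Function.Injective (aeval τ : k[X] →ₐ[k] RatFunc L) :=
    transcendental_iff_injective.1 hτk
  let φ : RatFunc k →ₐ[k] RatFunc L := RatFunc.liftAlgHom (aeval τ)
    (nonZeroDivisors_le_comap_nonZeroDivisors_of_injective _ hinjk)
  have hφX : φ RatFunc.X = τ := by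
    show RatFunc.liftAlgHom _ _ RatFunc.X = τ
    rw [← RatFunc.algebraMap_X, RatFunc.liftAlgHom_apply, RatFunc.num_algebraMap, RatFunc.denom_algebraMap]
    simp
  letI inst : Algebra (RatFunc k) (RatFunc L) := φ.toRingHom.toAlgebra
  refine ⟨RatFunc L, inferInstance, inferInstance, inferInstance, inferInstance, inst, ?_,
    RatFunc.X, hinj, ?_⟩
  · exact IsScalarTower.of_algebraMap_eq fun x => (φ.commutes x).symm
  · show φ RatFunc.X * _ = _
    rw [hφX]
    exact hmul

theorem isFam_mul (hI : ∀ P ∈ I, ∃ d, P.IsHomogeneous d) (a b : L[X]) (Q : σ → L[X]) (G G' : L[X])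
    (hG : G ≠ 0) (hG' : G' ≠ 0) (hnc : ∃ i j, a.coeff i * b.coeff j ≠ a.coeff j * b.coeff i) :
    IsFam I (G * a) (G * b) (fun j => G' * Q j) ↔ IsFam I a b Q := by
  have hb : b ≠ 0 := by
    rintro rfl
    obtain ⟨i, j, hij⟩ := hnc
    apply hij
    simp
  obtain ⟨N, _, _, _, _, _, _, s, hs, ht⟩ := fammul_exists (k := k) a b hnc
  rw [fammul_iff s hs a b Q hb ht, fammul_iff s hs (G * a) (G * b) (fun j => G' * Q j)
    (mul_ne_zero hG hb) (by rw [map_mul, map_mul, ← ht]; ring)]
  have hG's : aeval s G' ≠ 0 := fun h => hG' (hs (h.trans (map_zero _).symm))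
  refine forall₂_congr fun P hP => ?_
  obtain ⟨d, hd⟩ := hI P hP
  have h1 : (fun j => aeval s (G' * Q j)) = fun j => aeval s G' * aeval s (Q j) := by
    funext j
    rw [map_mul]
  rw [h1, open_aeval_smul hd, mul_eq_zero, or_iff_right (pow_ne_zero d hG's)]

theorem isFam_comp {a b : L[X]} {Q : σ → L[X]} (h : IsFam I a b Q) (l : L[X]) :
    IsFam I (a.comp l) (b.comp l) (fun j => (Q j).comp l) := by
  intro P hP
  have h1 := congrArg (((aeval l : L[X] →ₐ[L] L[X]).restrictScalars k)) (h P hP)
  rw [map_zero, MvPolynomial.comp_aeval_apply] at h1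
  convert h1 using 3
  funext e
  rcases e with e | e
  · cases e <;> rfl
  · rfl

end Pool.Agent.TT
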