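import Mathlib
import Pool.Agent.TT.Defs
import Pool.Agent.TT.FamMul

set_option autoImplicit false
set_option linter.unusedSectionVars false

/-! TT-4. `trel_val`: `PCond` contains `IsFam I (pAB x true) (pAB x false) (pP x)`; `isFam_mul` (TT-1) with
`G`, `G' = C c`. Not proportional: `pAB x true`, `pAB x false` are coprime (`PCond.isCoprime`), of degree at
most `e`, and one of their coefficients at `e ≥ 1` is not zero; if `G * A`, `G * B` were proportional
(`a_i b_j = a_j b_i` for all `i`, `j` means that `a = 0` or `b = 0` or `a = u b`), so would be `A`, `B`,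
and a coprime pair is proportional only if both are constant. `ne`: `(pP x j₀).coeff i₀` is a unit.
`trel_deg`: `G * a' = G₁ * A`, `G * b' = G₁ * B`, both pairs coprime: `G` and `G₁` are associated
(each is a gcd), so `a'`, `A` have the same degree, and `b'`, `B`; and `max (deg A) (deg B) = e` by
`PCond` (coefficients beyond `e` vanish, and one coefficient at `e` is not zero).
`trel_mul`: `←`: multiply `G` and `c` of the relation. `→`: if `G * a = G₁ * A`, `G * b = G₁ * B`, `A`, `B`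
coprime, then `G ∣ G₁` (`G` divides `G₁ A` and `G₁ B`, Bezout), `G₁ = G * G₂`, `a = G₂ A`, `b = G₂ B`. -/

namespace Pool.Agent.TT

open Pool.Agent.Helper16 Pool.Agent.Helper16.BB Pool.Agent.ThF Polynomial

variable {k σ : Type} [Field k] [Finite σ] {I : Set (MvPolynomial σ (RatFunc k))}
variable {L L' : Type} [Field L] [Algebra k L] [Field L'] [Algebra k L']

theorem tbase_nc {A B G : L[X]} (hG : G ≠ 0) (hcop : IsCoprime A B)
    (hd : 0 < A.natDegree ∨ 0 < B.natDegree) :
    ∃ i j, (G * A).coeff i * (G * B).coeff j ≠ (G * A).coeff j * (G * B).coeff i := by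
  by_contra hcon
  push Not at hcon
  have key : ∀ i, C ((G * A).coeff i) * B = C ((G * B).coeff i) * A := by
    intro i
    apply mul_left_cancel₀ hG
    rw [mul_left_comm, mul_left_comm G (C ((G * B).coeff i))]
    ext j
    rw [coeff_C_mul, coeff_C_mul, hcon i j, mul_comm]
  by_cases hA : A = 0
  · subst hA
    have h1 : IsUnit B := isCoprime_zero_left.1 hcop
    have h2 : B.natDegree = 0 := natDegree_eq_zero_of_isUnit h1
    rw [natDegree_zero, h2] at hd
    omega
  · have hGA : G * A ≠ 0 := mul_ne_zero hG hA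
    have hα : (G * A).coeff (G * A).natDegree ≠ 0 := leadingCoeff_ne_zero.2 hGA
    have h1 := key (G * A).natDegree
    have h2 : A ∣ C ((G * A).coeff (G * A).natDegree) * B := ⟨_, h1.trans (mul_comm _ _)⟩
    have h3 : A ∣ B := by
      have hu : IsUnit (C ((G * A).coeff (G * A).natDegree) : L[X]) :=
        isUnit_C.2 (isUnit_iff_ne_zero.2 hα)
      exact (hu.dvd_mul_left).1 h2
    have h4 : IsUnit A := hcop.isUnit_of_dvd' dvd_rfl h3
    have h5 : A.natDegree = 0 := natDegree_eq_zero_of_isUnit h4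
    have h6 : B.natDegree = 0 := by
      have h7 : (C ((G * A).coeff (G * A).natDegree) * B).natDegree = B.natDegree :=
        natDegree_C_mul hα
      have h8 : (C ((G * B).coeff (G * A).natDegree) * A).natDegree ≤ A.natDegree :=
        natDegree_C_mul_le _ _
      rw [← h1, h7, h5] at h8
      omega
    omega

theorem tbase_top {n D e : ℕ} {j₀ : σ} {i₀ : ℕ} {x : Idx σ n D → L} (h : PCond I e j₀ i₀ x) :
    (pAB x true).coeff e ≠ 0 ∨ (pAB x false).coeff e ≠ 0 := by
  by_contra hcon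
  push Not at hcon
  have h1 := h.2.1
  rw [hcon.1, hcon.2, mul_zero, mul_zero, add_zero] at h1
  exact zero_ne_one h1

theorem tbase_deg {n D e : ℕ} {j₀ : σ} {i₀ : ℕ} {x : Idx σ n D → L} (h : PCond I e j₀ i₀ x) :
    e = max (pAB x true).natDegree (pAB x false).natDegree := by
  have h1 : ∀ b, (pAB x b).natDegree ≤ e := by
    intro b
    rw [natDegree_le_iff_coeff_eq_zero]
    exact fun i hi => h.1 b i hi
  have h2 := h1 true
  have h3 := h1 false
  rcases tbase_top h with h4 | h4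
  · have h5 := le_natDegree_of_ne_zero h4
    omega
  · have h5 := le_natDegree_of_ne_zero h4
    omega

theorem tbase_pos {n D e : ℕ} {j₀ : σ} {i₀ : ℕ} {x : Idx σ n D → L} (h : PCond I e j₀ i₀ x)
    (he : 1 ≤ e) : 0 < (pAB x true).natDegree ∨ 0 < (pAB x false).natDegree := by
  have h1 := tbase_deg h
  omega

/-- If `G * a = G₁ * A`, `G * b = G₁ * B` and `A`, `B` are coprime, then `a = G₂ A`, `b = G₂ B`. -/
theorem tbase_div {G G₁ A B a b : L[X]} (hG : G ≠ 0) (hcop : IsCoprime A B)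
    (ha : G * a = G₁ * A) (hb : G * b = G₁ * B) :
    ∃ G₂, G₁ = G * G₂ ∧ a = G₂ * A ∧ b = G₂ * B := by
  obtain ⟨u, w, huw⟩ := hcop
  refine ⟨u * a + w * b, ?_, ?_, ?_⟩
  · calc G₁ = G₁ * (u * A + w * B) := by rw [huw, mul_one]
      _ = u * (G₁ * A) + w * (G₁ * B) := by ring
      _ = u * (G * a) + w * (G * b) := by rw [ha, hb]
      _ = G * (u * a + w * b) := by ring
  · apply mul_left_cancel₀ hG
    calc G * a = G₁ * A := ha
      _ = (G₁ * (u * A + w * B)) * A := by rw [huw, mul_one]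
      _ = (u * (G₁ * A) + w * (G₁ * B)) * A := by ring
      _ = (u * (G * a) + w * (G * b)) * A := by rw [ha, hb]
      _ = G * ((u * a + w * b) * A) := by ring
  · apply mul_left_cancel₀ hG
    calc G * b = G₁ * B := hb
      _ = (G₁ * (u * A + w * B)) * B := by rw [huw, mul_one]
      _ = (u * (G₁ * A) + w * (G₁ * B)) * B := by ring
      _ = (u * (G * a) + w * (G * b)) * B := by rw [ha, hb]
      _ = G * ((u * a + w * b) * B) := by ring

theorem trel_val (hI : ∀ P ∈ I, ∃ d, P.IsHomogeneous d) {a b : L[X]} {Q : σ → L[X]}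
    {e : ℕ} {τ : Quo (wOne σ) I} (h : TRel I a b Q e τ) : Val I a b Q := by
  obtain ⟨n, D, j₀, i₀, x, G, c, y, he, hx, hG, hc, rfl, rfl, hQ, -, -⟩ := h
  obtain rfl : Q = fun j => C c * pP x j := funext hQ
  have hcop : IsCoprime (pAB x true) (pAB x false) := hx.isCoprime
  have hd := tbase_pos hx he
  have hnc := tbase_nc (G := 1) one_ne_zero hcop hd
  simp only [one_mul] at hnc
  refine ⟨?_, tbase_nc hG hcop hd, j₀, ?_⟩
  · exact (isFam_mul hI (pAB x true) (pAB x false) (pP x) G (C c) hG (C_ne_zero.2 hc) hnc).2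
      hx.2.2.2.2
  · apply mul_ne_zero (C_ne_zero.2 hc)
    intro h0
    have h2 := hx.2.2.2.1
    rw [h0, coeff_zero, zero_mul] at h2
    exact zero_ne_one h2

theorem trel_deg {a b : L[X]} {Q : σ → L[X]} {e : ℕ} {τ : Quo (wOne σ) I}
    (h : TRel I a b Q e τ) {G a' b' : L[X]} (hG : G ≠ 0) (ha : a = G * a') (hb : b = G * b')
    (hcop : IsCoprime a' b') : e = max a'.natDegree b'.natDegree := by
  obtain ⟨n, D, j₀, i₀, x, G₁, c, y, he, hx, hG₁, hc, ha₁, hb₁, hQ, -, -⟩ := h
  obtain ⟨G₂, -, ha', hb'⟩ := tbase_div hG hx.isCoprime (ha.symm.trans ha₁) (hb.symm.trans hb₁)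
  have hu : IsUnit G₂ := hcop.isUnit_of_dvd' ⟨_, ha'⟩ ⟨_, hb'⟩
  obtain ⟨u, hu0, rfl⟩ := Polynomial.isUnit_iff.1 hu
  have hu1 : u ≠ 0 := hu0.ne_zero
  rw [ha', hb', natDegree_C_mul hu1, natDegree_C_mul hu1]
  exact tbase_deg hx

theorem trel_mul {a b : L[X]} {Q : σ → L[X]} {e : ℕ} {τ : Quo (wOne σ) I} (G : L[X]) (hG : G ≠ 0)
    (c : L) (hc : c ≠ 0) :
    TRel I (G * a) (G * b) (fun j => C c * Q j) e τ ↔ TRel I a b Q e τ := by
  constructor
  · rintro ⟨n, D, j₀, i₀, x, G₁, c₁, y, he, hx, hG₁, hc₁, ha, hb, hQ, hsp, hτ⟩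
    obtain ⟨G₂, hG₂, ha', hb'⟩ := tbase_div hG hx.isCoprime ha hb
    refine ⟨n, D, j₀, i₀, x, G₂, c₁ / c, y, he, hx, ?_, div_ne_zero hc₁ hc, ha', hb', ?_, hsp, hτ⟩
    · rintro rfl
      exact hG₁ (hG₂.trans (mul_zero _))
    · intro j
      have hCc : (C c : L[X]) ≠ 0 := C_ne_zero.2 hc
      apply mul_left_cancel₀ hCc
      have h1 : C c * Q j = C c₁ * pP x j := hQ j
      rw [h1, ← mul_assoc, ← C_mul, mul_div_cancel₀ _ hc]
  · rintro ⟨n, D, j₀, i₀, x, G₁, c₁, y, he, hx, hG₁, hc₁, ha, hb, hQ, hsp, hτ⟩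
    refine ⟨n, D, j₀, i₀, x, G * G₁, c * c₁, y, he, hx, mul_ne_zero hG hG₁, mul_ne_zero hc hc₁,
      ?_, ?_, ?_, hsp, hτ⟩
    · rw [ha, mul_assoc]
    · rw [hb, mul_assoc]
    · intro j
      show C c * Q j = _
      rw [hQ j, C_mul, mul_assoc]

end Pool.Agent.TT
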