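import Mathlib
import Pool.Agent.TT.BDefs
import Pool.Agent.TT.TBase
import Pool.Agent.TT.Theta0

set_option autoImplicit false
set_option linter.unusedSectionVars false
set_option linter.style.haveILetI false

/-! Project TT, block B, B8: a place of good reduction. -/

namespace Pool.Agent.TT

open Pool.Agent.Helper16 Pool.Agent.Helper16.BB Pool.Agent.ThF Polynomial

section places

variable {K N : Type} [Field K] [Field N] [Algebra K N]

/-- There is a place outside a given finite set. -/
theorem bgood_exists_notMem (hN : IsFunctionField K N) (B : Finset (Place K N)) :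
    ∃ u : Place K N, u ∉ B := by
  classical
  obtain ⟨f, hf⟩ : ∃ x : N, Transcendental K x := by
    by_contra h
    push Not at h
    haveI : Algebra.IsAlgebraic K N := ⟨fun x => by
      have := h x
      rwa [Transcendental, not_not] at this⟩
    have h2 := hN.2
    rw [trdeg_eq_zero (R := K) (A := N)] at h2
    exact zero_ne_one h2
  have h1 : ∀ w : Place K N, w.val f ≤ 1 → ∃ p : K[X], p ≠ 0 ∧ w.val (aeval f p) < 1 := by
    intro w hw
    haveI := w.finite_resField hN
    obtain ⟨p, hp, hp0⟩ := Algebra.IsAlgebraic.isAlgebraic (R := K) (w.res f)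
    refine ⟨p, hp, ?_⟩
    obtain ⟨h2, h3⟩ := w.res_aeval hw p
    rw [hp0] at h3
    exact (w.res_eq_zero_iff h2).1 h3
  choose! p hp hpv using h1
  let B' := B.filter fun w => w.val f ≤ 1
  let R : K[X] := X * ∏ w ∈ B', p w
  let P : K[X] := R + C 1
  have hR0 : R ≠ 0 := mul_ne_zero X_ne_zero
    (Finset.prod_ne_zero_iff.2 fun w hw => hp w (Finset.mem_filter.1 hw).2)
  have hRdeg : 0 < R.natDegree := by
    have h2 : R.natDegree = 1 + (∏ w ∈ B', p w).natDegree := by
      rw [natDegree_mul X_ne_zero (right_ne_zero_of_mul hR0), natDegree_X]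
    omega
  have hPdeg : P.natDegree = R.natDegree := natDegree_add_C
  have hP0 : P ≠ 0 := by
    intro h
    rw [h, natDegree_zero] at hPdeg
    omega
  have hPtr : Transcendental K (aeval f P) := by
    rintro ⟨q, hq, hq0⟩
    rw [← aeval_comp] at hq0
    have h2 : q.comp P = 0 := by
      by_contra h3
      exact hf ⟨_, h3, hq0⟩
    rw [comp_eq_zero_iff] at h2
    rcases h2 with h2 | ⟨-, h2⟩
    · exact hq h2
    · rw [h2, natDegree_C] at hPdeg
      omega
  obtain ⟨u, hu⟩ := hN.exists_zero (aeval f P) hPtr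
  refine ⟨u, fun huB => ?_⟩
  by_cases hfu : u.val f ≤ 1
  · have h3 : ∀ q : K[X], u.val (aeval f q) ≤ 1 := fun q => (u.res_aeval hfu q).1
    have huB' : u ∈ B' := Finset.mem_filter.2 ⟨huB, hfu⟩
    have h4 : u.val (aeval f R) < 1 := by
      have h5 : R = (X * ∏ w ∈ B'.erase u, p w) * p u := by
        change X * ∏ w ∈ B', p w = _
        rw [← Finset.prod_erase_mul _ _ huB', mul_assoc]
      rw [h5, map_mul, map_mul]
      exact mul_lt_one_aux (h3 _) (hpv u hfu)
    have h6 : u.val (aeval f P) = 1 := by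
      change u.val (aeval f (R + C 1)) = 1
      rw [map_add, C_1, map_one, Valuation.map_add_eq_of_lt_right u.val (by rw [map_one]; exact h4),
        map_one]
    rw [h6] at hu
    exact lt_irrefl _ hu
  · rw [not_le] at hfu
    have h2 := stepA_val_pole u.val u.triv hfu P hP0
    rw [h2] at hu
    exact absurd hu (not_lt.2 (one_le_pow₀ hfu.le))

/-- There is a place at which finitely many given nonzero elements are units. -/
theorem bgood_exists_unit (hN : IsFunctionField K N) (T : Finset N) :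
    ∃ u : Place K N, ∀ x ∈ T, x ≠ 0 → u.val x = 1 := by
  classical
  choose S hS using fun f : N => hN.product_formula f
  obtain ⟨u, hu⟩ := bgood_exists_notMem hN (T.biUnion S)
  refine ⟨u, fun x hx hx0 => ?_⟩
  rw [← u.ord_eq_zero_iff hx0]
  by_contra h
  exact hu (Finset.mem_biUnion.2 ⟨x, hx, ((hS x).1 u).2 h⟩)

end places

section red

variable {k E : Type} [Field k] [Field E] [Algebra k E]

/-- The residue map as a homomorphism. -/
noncomputable def bgood_resHom (u : Place k E) : u.ring →ₐ[k] u.resField :=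
  { toRingHom := IsLocalRing.residue u.ring
    commutes' := fun _ => rfl }

theorem bgood_aeval {ι : Type} (u : Place k E) (x : ι → E) (hx : ∀ i, u.val (x i) ≤ 1)
    (q : MvPolynomial ι k) : u.val (MvPolynomial.aeval x q) ≤ 1 ∧
      MvPolynomial.aeval (fun i => u.res (x i)) q = u.res (MvPolynomial.aeval x q) := by
  let xr : ι → u.ring := fun i => ⟨x i, hx i⟩
  have h1 : u.ring.val (MvPolynomial.aeval xr q) = MvPolynomial.aeval x q :=
    MvPolynomial.comp_aeval_apply _ _ _
  have h2 : bgood_resHom u (MvPolynomial.aeval xr q) =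
      MvPolynomial.aeval (fun i => bgood_resHom u (xr i)) q :=
    MvPolynomial.comp_aeval_apply _ _ _
  have h3 : ∀ z : u.ring, bgood_resHom u z = u.res (z : E) := fun z => (u.res_of_mem z.2).symm
  rw [← h1]
  refine ⟨(MvPolynomial.aeval xr q).2, ?_⟩
  rw [h3] at h2
  rw [show u.ring.val (MvPolynomial.aeval xr q) = ((MvPolynomial.aeval xr q : u.ring) : E) from rfl,
    h2]
  congr 2
  funext i
  exact (h3 (xr i)).symm

theorem bgood_mkp (u : Place k E) {m : ℕ} (a : Fin (m + 1) → E) (ha : ∀ i, u.val (a i) ≤ 1)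
    (i : ℕ) : u.val ((mkp a).coeff i) ≤ 1 ∧
      u.res ((mkp a).coeff i) = (mkp fun i => u.res (a i)).coeff i := by
  rw [mkp_coeff, mkp_coeff]
  split_ifs with h
  · exact ⟨ha _, rfl⟩
  · exact ⟨by rw [map_zero]; exact zero_le, u.res_zero⟩

theorem bgood_mul {u : Place k E} {f : E[X]} {f' : u.resField[X]}
    (hf : ∀ i, u.val (f.coeff i) ≤ 1 ∧ u.res (f.coeff i) = f'.coeff i) {g : E}
    (hg : u.val g ≤ 1) (i : ℕ) : u.val ((C g * f).coeff i) ≤ 1 ∧
      u.res ((C g * f).coeff i) = (C (u.res g) * f').coeff i := by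
  rw [coeff_C_mul, coeff_C_mul, u.res_mul hg (hf i).1, (hf i).2]
  refine ⟨?_, rfl⟩
  rw [map_mul]
  exact mul_le_one' hg (hf i).1

theorem bgood_tr {F : Type} [Field F] (f : F[X]) : tr 0 1 f = f := by
  rw [tr]
  simp

end red

variable {k E N σ : Type} [Field k] [Field E] [Field N] [Algebra k E] [Algebra k N] [Algebra E N]
  [Algebra (RatFunc k) N] [IsScalarTower k E N] [IsScalarTower k (RatFunc k) N]
variable {I : Set (MvPolynomial σ (RatFunc k))} {δ : CD σ E} {X : N}

/-- B8. -/
theorem gl_good [Finite k] [Finite σ] (hI : ∀ P ∈ I, ∃ d, P.IsHomogeneous d) (h : Gl I δ X)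
    {e : ℕ} {τ : Quo (wOne σ) I} (hτ : TRel I δ.al δ.be δ.P e τ) :
    ∃ (u : Place k E) (a b : u.resField[X]) (Q : σ → u.resField[X]),
      Vred (plE u) δ 0 1 a b Q ∧ TRel I a b Q e τ ∧
      ∀ v : Place (RatFunc k) N, Ov u v → ResTr v X (0 : E) 1 := by
  classical
  obtain ⟨n, D, j₀, i₀, x, G, c, y, he, hx, hG, hc, hal, hbe, hP, hker, hth⟩ := hτ
  -- `G` is constant
  have hGu : IsUnit G := by
    obtain ⟨p, q, hpq⟩ := h.ok.cop
    exact isUnit_of_dvd_one ⟨p * pAB x true + q * pAB x false, by rw [← hpq, hal, hbe]; ring⟩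
  obtain ⟨g, hg, rfl⟩ := Polynomial.isUnit_iff.1 hGu
  have hg0 : g ≠ 0 := hg.ne_zero
  haveI := Fintype.ofFinite (Idx σ n D)
  obtain ⟨u, hu⟩ := bgood_exists_unit h.hE (Finset.univ.image x ∪ {g, c})
  have hx1 : ∀ i, u.val (x i) ≤ 1 := by
    intro i
    by_cases h0 : x i = 0
    · rw [h0, map_zero]
      exact zero_le
    · exact (hu _ (Finset.mem_union_left _ (Finset.mem_image_of_mem _ (Finset.mem_univ _))) h0).le
  have hg1 : u.val g = 1 := hu _ (by simp) hg0
  have hc1 : u.val c = 1 := hu _ (by simp) hc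
  haveI := u.finite_resField h.hE
  let ρ : u.resField →ₐ[k] AlgebraicClosure k := IsAlgClosed.lift
  let x' : Idx σ n D → u.resField := fun i => u.res (x i)
  have hx' : PCond I e j₀ i₀ x' := by
    rw [← pEq_iff (k := k)]
    intro q hq
    rw [(bgood_aeval u x hx1 q).2, (pEq_iff x).2 hx q hq, u.res_zero]
  have hgr : u.res g ≠ 0 := by
    intro h0
    rw [u.res_eq_zero_iff (x := g) hg1.le, hg1] at h0
    exact lt_irrefl _ h0
  have hcr : u.res c ≠ 0 := by
    intro h0
    rw [u.res_eq_zero_iff (x := c) hc1.le, hc1] at h0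
    exact lt_irrefl _ h0
  have hρx : ∀ q : MvPolynomial (Idx σ n D) k, MvPolynomial.aeval x' q = 0 →
      MvPolynomial.aeval (fun i => ρ (x' i)) q = 0 := by
    intro q hq
    rw [← MvPolynomial.comp_aeval_apply, hq, map_zero]
  have hT : TRel I (C (u.res g) * pAB x' true) (C (u.res g) * pAB x' false)
      (fun j => C (u.res c) * pP x' j) e τ := by
    refine ⟨n, D, j₀, i₀, x', C (u.res g), u.res c, fun i => ρ (x' i), he, hx',
      C_ne_zero.2 hgr, hcr, rfl, rfl, fun _ => rfl, hρx, hth.trans ?_⟩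
    refine theta_ker hI he x hx y _ hker fun q hq => hρx q ?_
    rw [(bgood_aeval u x hx1 q).2, hq, u.res_zero]
  have hAB : ∀ b i, u.val ((C g * pAB x b).coeff i) ≤ 1 ∧
      u.res ((C g * pAB x b).coeff i) = (C (u.res g) * pAB x' b).coeff i := by
    intro b i
    exact bgood_mul (fun i => bgood_mkp u _ (fun i => hx1 _) i) hg1.le i
  have hPP : ∀ j i, u.val ((C c * pP x j).coeff i) ≤ 1 ∧
      u.res ((C c * pP x j).coeff i) = (C (u.res c) * pP x' j).coeff i := by
    intro j i
    exact bgood_mul (fun i => bgood_mkp u _ (fun i => hx1 _) i) hc1.le i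
  refine ⟨u, _, _, _, ?_, hT, ?_⟩
  · have hV := trel_val hI hT
    refine ⟨one_ne_zero, hV.nc, hV.ne, 1, 1, one_ne_zero, one_ne_zero, ?_, ?_, ?_⟩
    · intro i
      rw [C_1, one_mul, bgood_tr, hal]
      exact (plE_Sp u _ _).2 (hAB true i)
    · intro i
      rw [C_1, one_mul, bgood_tr, hbe]
      exact (plE_Sp u _ _).2 (hAB false i)
    · intro j i
      rw [C_1, one_mul, bgood_tr, hP j]
      exact (plE_Sp u _ _).2 (hPP j i)
  · intro v hv
    have huv : ∀ a : E, u.val a ≤ 1 ↔ v.val (algebraMap E N a) ≤ 1 := fun a => by rw [hv a]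
    obtain ⟨ψ, hψ⟩ := good_exists_psi h.hE h.hN v u huv ρ
    let A : (AlgebraicClosure k)[X] := (C (u.res g) * pAB x' true).map (ρ : u.resField →+* _)
    let B : (AlgebraicClosure k)[X] := (C (u.res g) * pAB x' false).map (ρ : u.resField →+* _)
    have hrA : Red u ρ δ.al A := by
      intro i
      rw [hal]
      refine ⟨(hAB true i).1, ?_⟩
      rw [(hAB true i).2, coeff_map]
      rfl
    have hrB : Red u ρ δ.be B := by
      intro i
      rw [hbe]
      refine ⟨(hAB false i).1, ?_⟩
      rw [(hAB false i).2, coeff_map]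
      rfl
    have hdeg : ∀ b, (C g * pAB x b).natDegree ≤ e := by
      intro b
      refine (natDegree_C_mul_le _ _).trans ?_
      rw [natDegree_le_iff_coeff_eq_zero]
      exact fun i hi => hx.1 b i hi
    have htop : A.coeff e ≠ 0 ∨ B.coeff e ≠ 0 := by
      have key : ∀ b, (pAB x' b).coeff e ≠ 0 →
          ((C (u.res g) * pAB x' b).map (ρ : u.resField →+* AlgebraicClosure k)).coeff e ≠ 0 := by
        intro b hb
        rw [coeff_map, coeff_C_mul]
        exact (_root_.map_ne_zero _).2 (mul_ne_zero hgr hb)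
      rcases tbase_top hx' with h1 | h1
      · exact Or.inl (key _ h1)
      · exact Or.inr (key _ h1)
    have hX : v.val X ≤ 1 := good_val_le v u huv ρ ψ hψ X δ.al δ.be h.ht A B hrA hrB e
      (by rw [hal]; exact hdeg true) (by rw [hbe]; exact hdeg false) htop
    have hcop : IsCoprime A B := by
      have h1 : IsCoprime (C (u.res g) * pAB x' true) (C (u.res g) * pAB x' false) :=
        (isCoprime_mul_unit_left (isUnit_C.2 (isUnit_iff_ne_zero.2 hgr)) _ _).2 hx'.isCoprime
      exact h1.map (mapRingHom (ρ : u.resField →+* AlgebraicClosure k))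
    have htr : ¬ IsAlgebraic k (v.res X) := by
      intro halg
      obtain ⟨c₀, hc₀⟩ := gs_exists_jc _ (halg.algHom (ψ.restrictScalars k))
      replace hc₀ : jc k c₀ = ψ (v.res X) := hc₀
      obtain ⟨hA1, hA2⟩ := good_red v u huv ρ ψ hψ X hX δ.al A hrA
      obtain ⟨hB1, hB2⟩ := good_red v u huv ρ ψ hψ X hX δ.be B hrB
      have ht : v.val (tt k N) ≤ 1 := v.val_algebraMap_le _
      rw [← hc₀, ev_jc] at hA2 hB2
      have h7 : tt k (AlgebraicClosure (RatFunc k)) * jc k (B.eval c₀) = jc k (A.eval c₀) := by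
        rw [← hB2, ← hA2, ← h.ht, v.res_mul ht hB1, map_mul, tt, v.res_algebraMap, ψ.commutes]
      by_cases hB0 : B.eval c₀ = 0
      · have hA0 : A.eval c₀ = 0 := by
          rw [hB0, map_zero, mul_zero] at h7
          exact (map_eq_zero_iff (jc k) (jc k).toRingHom.injective).1 h7.symm
        obtain ⟨p, q, hpq⟩ := hcop
        have h8 := congrArg (Polynomial.eval c₀) hpq
        rw [eval_add, eval_mul, eval_mul, hA0, hB0, mul_zero, mul_zero, add_zero, eval_one] at h8
        exact zero_ne_one h8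
      · apply good_tt_ne (k := k) (A.eval c₀ / B.eval c₀)
        rw [map_div₀, eq_div_iff ((map_ne_zero_iff (jc k) (jc k).toRingHom.injective).2 hB0)]
        exact h7
    have hXX : (X - algebraMap E N 0) / algebraMap E N 1 = X := by
      rw [map_zero, map_one, sub_zero, div_one]
    rw [ResTr, hXX]
    refine ⟨?_, htr⟩
    refine le_antisymm hX (not_lt.1 fun hlt => htr ?_)
    rw [(v.res_eq_zero_iff (x := X) hX).2 hlt]
    exact isAlgebraic_zero

end Pool.Agent.TT
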