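import Mathlib

set_option autoImplicit false
set_option linter.unusedSectionVars false

/-! Project TT, block B: degrees of rational function fields. -/

namespace Pool.Agent.TT

open Polynomial IntermediateField

/-- A field generated by one transcendental element is a rational function field. -/
theorem brat_exists_equiv {κ M : Type} [Field κ] [Field M] [Algebra κ M] (y : M)
    (hy : Transcendental κ y)
    (htop : ∀ m : M, ∃ p q : κ[X], q ≠ 0 ∧ m * aeval y q = aeval y p) :
    ∃ e : RatFunc κ ≃ₐ[κ] M, ∀ p : κ[X], e (algebraMap κ[X] (RatFunc κ) p) = aeval y p := by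
  have hinj : Function.Injective (aeval y : κ[X] →ₐ[κ] M) :=
    transcendental_iff_injective.1 hy
  have hle : nonZeroDivisors κ[X] ≤ (nonZeroDivisors M).comap (aeval y : κ[X] →ₐ[κ] M) := by
    intro p hp
    rw [Submonoid.mem_comap, mem_nonZeroDivisors_iff_ne_zero]
    intro h
    exact nonZeroDivisors.ne_zero hp (hinj (by rw [map_zero]; exact h))
  let g : RatFunc κ →ₐ[κ] M := RatFunc.liftAlgHom (aeval y) hle
  have hg : ∀ p : κ[X], g (algebraMap κ[X] (RatFunc κ) p) = aeval y p := by
    intro p
    have h1 := RatFunc.liftAlgHom_apply_div' (aeval y : κ[X] →ₐ[κ] M) hle p 1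
    simp only [map_one, div_one] at h1
    exact h1
  have hsurj : Function.Surjective g := by
    intro m
    obtain ⟨p, q, hq, h⟩ := htop m
    have hq' : aeval y q ≠ 0 := fun h0 => hq (hinj (by rw [map_zero]; exact h0))
    refine ⟨algebraMap κ[X] (RatFunc κ) p / algebraMap κ[X] (RatFunc κ) q, ?_⟩
    rw [map_div₀, hg, hg, ← h, mul_div_cancel_right₀ _ hq']
  exact ⟨AlgEquiv.ofBijective g ⟨g.toRingHom.injective, hsurj⟩, hg⟩

/-- Degrees of numerator and denominator of a reduced fraction. -/
theorem brat_natDegree {κ : Type} [Field κ] (a b : κ[X]) (hb : b ≠ 0) (hab : IsCoprime a b) :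
    (algebraMap κ[X] (RatFunc κ) a / algebraMap κ[X] (RatFunc κ) b).num.natDegree = a.natDegree ∧
    (algebraMap κ[X] (RatFunc κ) a / algebraMap κ[X] (RatFunc κ) b).denom.natDegree =
      b.natDegree := by
  set f := algebraMap κ[X] (RatFunc κ) a / algebraMap κ[X] (RatFunc κ) b with hf
  have hb' : algebraMap κ[X] (RatFunc κ) b ≠ 0 := RatFunc.algebraMap_ne_zero hb
  have hd' : algebraMap κ[X] (RatFunc κ) f.denom ≠ 0 := RatFunc.algebraMap_ne_zero f.denom_ne_zero
  have h1 : f.num * b = a * f.denom := by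
    apply RatFunc.algebraMap_injective κ
    rw [map_mul, map_mul]
    have h2 := f.num_div_denom
    rw [div_eq_iff hd'] at h2
    rw [h2, hf]
    field_simp
  have hcop := f.isCoprime_num_denom
  have hA : Associated f.num a := by
    refine associated_of_dvd_dvd ?_ ?_
    · exact hcop.dvd_of_dvd_mul_right (Dvd.intro _ h1)
    · exact hab.dvd_of_dvd_mul_right (Dvd.intro _ h1.symm)
  have hB : Associated f.denom b := by
    refine associated_of_dvd_dvd ?_ ?_
    · exact hcop.symm.dvd_of_dvd_mul_left ⟨a, by rw [h1, mul_comm]⟩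
    · exact hab.symm.dvd_of_dvd_mul_left ⟨f.num, by rw [← h1, mul_comm]⟩
  exact ⟨natDegree_eq_of_degree_eq (degree_eq_degree_of_associated hA),
    natDegree_eq_of_degree_eq (degree_eq_degree_of_associated hB)⟩

attribute [local instance] Polynomial.algebra

open scoped RatFunc

theorem brat_finrank {k κ M : Type} [Field k] [Field κ] [Field M] [Algebra k κ]
    [Algebra.IsAlgebraic k κ] [Algebra (RatFunc k) M] [Algebra κ M]
    (hcomp : ∀ c : k, algebraMap (RatFunc k) M (algebraMap k (RatFunc k) c) =
      algebraMap κ M (algebraMap k κ c))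
    (y : M) (hy : Transcendental κ y)
    (htop : ∀ m : M, ∃ p q : κ[X], q ≠ 0 ∧ m * aeval y q = aeval y p)
    (a b : κ[X]) (hab : IsCoprime a b)
    (hT : algebraMap (RatFunc k) M RatFunc.X * aeval y b = aeval y a) (e : ℕ)
    (he : max a.natDegree b.natDegree = e) (he1 : 1 ≤ e) :
    Module.finrank (RatFunc k) M = Module.finrank k κ * e := by
  obtain ⟨e1, he1'⟩ := brat_exists_equiv y hy htop
  have hinj : Function.Injective (aeval y : κ[X] →ₐ[κ] M) := transcendental_iff_injective.1 hy
  have hb0 : b ≠ 0 := by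
    rintro rfl
    rw [map_zero, mul_zero] at hT
    have ha : a = 0 := hinj (by rw [map_zero, ← hT])
    subst ha
    simp at he
    omega
  have hbM : aeval y b ≠ 0 := fun h => hb0 (hinj (by rw [map_zero]; exact h))
  have hb' : algebraMap κ[X] (RatFunc κ) b ≠ 0 := RatFunc.algebraMap_ne_zero hb0
  set f : RatFunc κ := algebraMap κ[X] (RatFunc κ) a / algebraMap κ[X] (RatFunc κ) b with hf
  obtain ⟨hnum, hden⟩ := brat_natDegree a b hb0 hab
  rw [← hf] at hnum hden
  have hnc : ¬ ∃ c, f = RatFunc.C c := by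
    rintro ⟨c, hc⟩
    rw [hc] at hnum hden
    rw [RatFunc.num_C, natDegree_C] at hnum
    rw [RatFunc.denom_C, natDegree_one] at hden
    omega
  have hftr : Transcendental κ f := f.transcendental_of_ne_C hnc
  have he1f : e1 f = algebraMap (RatFunc k) M RatFunc.X := by
    rw [hf, map_div₀, he1', he1', ← hT, mul_div_cancel_right₀ _ hbM]
  -- the second map
  have hinjf : Function.Injective (aeval f : κ[X] →ₐ[κ] RatFunc κ) :=
    transcendental_iff_injective.1 hftr
  have hle : nonZeroDivisors κ[X] ≤
      (nonZeroDivisors (RatFunc κ)).comap (aeval f : κ[X] →ₐ[κ] RatFunc κ) := by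
    intro p hp
    rw [Submonoid.mem_comap, mem_nonZeroDivisors_iff_ne_zero]
    intro h
    exact nonZeroDivisors.ne_zero hp (hinjf (by rw [map_zero]; exact h))
  let g₀ : RatFunc κ →ₐ[κ] RatFunc κ := RatFunc.liftAlgHom (aeval f) hle
  have hg₀ : ∀ p : κ[X], g₀ (algebraMap κ[X] (RatFunc κ) p) = aeval f p := by
    intro p
    have h1 := RatFunc.liftAlgHom_apply_div' (aeval f : κ[X] →ₐ[κ] RatFunc κ) hle p 1
    simp only [map_one, div_one] at h1
    exact h1
  have hg₀X : g₀ RatFunc.X = f := by
    rw [← RatFunc.algebraMap_X, hg₀, aeval_X]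
  have hrange : g₀.fieldRange = κ⟮f⟯ := by
    rw [AlgHom.fieldRange_eq_map, ← RatFunc.adjoin_X, adjoin_map, Set.image_singleton, hg₀X]
  -- finrank of `RatFunc κ` over the image
  have h1 : Module.finrank g₀.fieldRange (RatFunc κ) = e := by
    rw [hrange, RatFunc.finrank_eq_max_natDegree, hnum, hden, he]
  letI A2 : Algebra (RatFunc κ) M := ((e1 : RatFunc κ →+* M).comp (g₀ : RatFunc κ →+* RatFunc κ)).toAlgebra
  have hA2 : ∀ z, algebraMap (RatFunc κ) M z = e1 (g₀ z) := fun z => rfl
  have h2 : Module.finrank (RatFunc κ) M = e := by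
    rw [← h1]
    let i : RatFunc κ ≃+* g₀.fieldRange := (AlgEquiv.ofInjectiveField g₀).toRingEquiv
    refine Algebra.finrank_eq_of_equiv_equiv i e1.symm.toRingEquiv ?_
    apply RingHom.ext
    intro z
    change (i z : RatFunc κ) = e1.symm (algebraMap (RatFunc κ) M z)
    rw [hA2, AlgEquiv.symm_apply_apply]
    rfl
  haveI : @IsScalarTower (RatFunc k) (RatFunc κ) M (RatFunc.liftAlgebra k (RatFunc κ)).toSMul
      A2.toSMul _ := by
    refine @IsScalarTower.of_algebraMap_eq' (RatFunc k) (RatFunc κ) M _ _ _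
      (RatFunc.liftAlgebra k (RatFunc κ)) A2 _ ?_
    apply IsLocalization.ringHom_ext (nonZeroDivisors k[X])
    apply Polynomial.ringHom_ext
    · intro c
      simp only [RingHom.comp_apply]
      have h3 : algebraMap (RatFunc k) (RatFunc κ) (algebraMap k[X] (RatFunc k) (C c)) =
          algebraMap κ[X] (RatFunc κ) (C (algebraMap k κ c)) := by
        rw [← IsScalarTower.algebraMap_apply k[X] (RatFunc k) (RatFunc κ)]
        change algebraMap κ[X] (RatFunc κ) ((C c).map (algebraMap k κ)) = _
        rw [map_C]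
      rw [h3, hA2, hg₀, aeval_C, e1.commutes, ← hcomp]
      rfl
    · simp only [RingHom.comp_apply]
      have h3 : algebraMap (RatFunc k) (RatFunc κ) (algebraMap k[X] (RatFunc k) X) =
          algebraMap κ[X] (RatFunc κ) X := by
        rw [← IsScalarTower.algebraMap_apply k[X] (RatFunc k) (RatFunc κ)]
        change algebraMap κ[X] (RatFunc κ) (X.map (algebraMap k κ)) = _
        rw [map_X]
      rw [h3, hA2, hg₀, aeval_X, he1f, RatFunc.algebraMap_X]
  rw [← Module.finrank_mul_finrank (RatFunc k) (RatFunc κ) M, h2,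
    RatFunc.finrank_ratFunc_ratFunc]

end Pool.Agent.TT
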