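import Mathlib
import Pool.Agent.TT.BDefs
import Pool.Agent.TT.BRat
import Pool.Agent.ThF.Gauss
import Pool.Agent.ThF.Good

set_option autoImplicit false
set_option linter.unusedSectionVars false

/-! Project TT, block B: degree and class of the places of `E(X)/k(t)`. -/

namespace Pool.Agent.TT

open Pool.Agent.Helper16 Pool.Agent.Helper16.BB Pool.Agent.ThF Polynomial

/-- A place as a valuation with a residue map. -/
noncomputable def bclsGP {K N : Type} [Field K] [Field N] [Algebra K N] (v : Place K N) :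
    GP N (WithZero (Multiplicative ℤ)) v.resField where
  val := v.val
  R := v.res
  add := fun _ _ hx hy => v.res_add hx hy
  mul := fun _ _ hx hy => v.res_mul hx hy
  one := v.res_one
  zero_iff := fun _ hx => v.res_eq_zero_iff hx

section tr

variable {E N : Type} [Field E] [Field N] [Algebra E N]

theorem bcls_aeval_tr {c r : E} (hr : r ≠ 0) (X : N) (G : E[X]) :
    aeval ((X - algebraMap E N c) / algebraMap E N r) (tr c r G) = aeval X G := by
  have hr' : algebraMap E N r ≠ 0 := by simpa using hr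
  rw [tr, aeval_comp]
  congr 1
  simp only [map_add, map_mul, aeval_C, aeval_X]
  rw [mul_div_cancel₀ _ hr']
  ring_nf

theorem bcls_tr_ne_zero {c r : E} (hr : r ≠ 0) {f : E[X]} (hf : f ≠ 0) : tr c r f ≠ 0 := by
  intro h
  apply hf
  have h1 : (tr c r f).comp (C (-c / r) + C r⁻¹ * X) = f := by
    rw [tr, comp_assoc]
    have h2 : ((C c + C r * X : E[X]).comp (C (-c / r) + C r⁻¹ * X)) = X := by
      simp only [add_comp, C_comp, mul_comp, X_comp]
      rw [mul_add, ← mul_assoc, ← C_mul, ← C_mul, mul_inv_cancel₀ hr, mul_div_cancel₀ _ hr,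
        C_1, one_mul, ← add_assoc, ← C_add, add_neg_cancel, C_0, zero_add]
    rw [h2, comp_X]
  rw [← h1, h, zero_comp]

end tr

section B

variable {k E N σ : Type} [Field k] [Field E] [Field N] [Algebra k E] [Algebra k N] [Algebra E N]
  [Algebra (RatFunc k) N] [IsScalarTower k E N] [IsScalarTower k (RatFunc k) N]
variable {I : Set (MvPolynomial σ (RatFunc k))} {δ : CD σ E} {X : N}

theorem bcls_val_iff {u : Place k E} {v : Place (RatFunc k) N} (hv : Ov u v) :
    (∀ a : E, u.val a ≤ 1 ↔ v.val (algebraMap E N a) ≤ 1) ∧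
    (∀ a : E, u.val a < 1 ↔ v.val (algebraMap E N a) < 1) :=
  ⟨fun a => by rw [hv a], fun a => by rw [hv a]⟩

/-- The residue of a polynomial expression. -/
theorem bcls_res {u : Place k E} {v : Place (RatFunc k) N} (hv : Ov u v)
    (θ : u.resField →+* v.resField)
    (hθ : ∀ a : E, u.val a ≤ 1 → θ (u.res a) = v.res (algebraMap E N a)) {Y : N}
    (hY : v.val Y ≤ 1) {F : E[X]} {G : u.resField[X]} (hFG : (plE u).SpP F G) :
    v.val (aeval Y F) ≤ 1 ∧ v.res (aeval Y F) = eval₂ θ (v.res Y) G := by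
  have hc : ∀ i, u.val (F.coeff i) ≤ 1 ∧ u.res (F.coeff i) = G.coeff i :=
    fun i => (plE_Sp u _ _).1 (hFG i)
  have h1 := (bclsGP v).R_eval (fun i => algebraMap E N (F.coeff i)) (F.natDegree + 1)
    (fun i => by
      change v.val _ ≤ 1
      rw [hv]
      exact (hc i).1) hY
  have h2 : aeval Y F = ∑ i ∈ Finset.range (F.natDegree + 1), algebraMap E N (F.coeff i) * Y ^ i := by
    rw [aeval_eq_sum_range]
    exact Finset.sum_congr rfl fun i _ => Algebra.smul_def _ _
  rw [← h2] at h1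
  refine ⟨h1.1, h1.2.trans ?_⟩
  have hdeg : G.natDegree < F.natDegree + 1 := by
    rw [Nat.lt_succ_iff, natDegree_le_iff_coeff_eq_zero]
    intro i hi
    rw [← (hc i).2, coeff_eq_zero_of_natDegree_lt hi, u.res_zero]
  rw [eval₂_eq_sum_range' θ hdeg]
  refine Finset.sum_congr rfl fun i _ => ?_
  change v.res (algebraMap E N (F.coeff i)) * (v.res Y) ^ i = _
  rw [← hθ _ (hc i).1, (hc i).2]

theorem bcls_isAlgebraic [Finite σ] (h : Gl I δ X) {u : Place k E} {v : Place (RatFunc k) N}
    (θ : u.resField →+* v.resField)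
    (hθ : ∀ a : E, u.val a ≤ 1 → θ (u.res a) = v.res (algebraMap E N a))
    (hθk : ∀ a : k, θ (algebraMap k u.resField a) = algebraMap k v.resField a)
    (a : E) (ha : u.val a ≤ 1) : IsAlgebraic k (v.res (algebraMap E N a)) := by
  haveI := u.finite_resField h.hE
  have h1 : IsAlgebraic k (u.res a) := Algebra.IsAlgebraic.isAlgebraic _
  rw [← hθ a ha]
  exact h1.algHom ({ θ with commutes' := hθk } : u.resField →ₐ[k] v.resField)

/-- The data of the residue extension. -/
theorem bcls_theta {u : Place k E} {v : Place (RatFunc k) N} (hv : Ov u v) :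
    ∃ θ : u.resField →+* v.resField,
      (∀ a : E, u.val a ≤ 1 → θ (u.res a) = v.res (algebraMap E N a)) ∧
      (∀ a : k, θ (algebraMap k u.resField a) = algebraMap k v.resField a) := by
  obtain ⟨h1, h2⟩ := bcls_val_iff hv
  obtain ⟨θ, h3, h4⟩ := v.exists_residue_hom u h1 h2
  refine ⟨θ, h3, fun a => ?_⟩
  rw [h4, ← IsScalarTower.algebraMap_apply k (RatFunc k) v.resField]

/-- The scaled reduction of a nonzero polynomial. -/
theorem bcls_scale [Finite σ] (h : Gl I δ X) {u : Place k E} {v : Place (RatFunc k) N}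
    (hv : Ov u v) (θ : u.resField →+* v.resField)
    (hθ : ∀ a : E, u.val a ≤ 1 → θ (u.res a) = v.res (algebraMap E N a))
    (hθk : ∀ a : k, θ (algebraMap k u.resField a) = algebraMap k v.resField a)
    {Y : N} (hY : v.val Y ≤ 1) (hYt : ¬ IsAlgebraic k (v.res Y)) (G : E[X]) (hG : G ≠ 0) :
    ∃ (α : E) (p : u.resField[X]), α ≠ 0 ∧ p ≠ 0 ∧ v.val (aeval Y G) = v.val (algebraMap E N α) ∧
      v.res (aeval Y G / algebraMap E N α) = eval₂ θ (v.res Y) p := by
  obtain ⟨i₀, h0, h1, h2⟩ := (bclsGP v).gauss (k₀ := k) (F := E) (fun a ha => by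
    refine bcls_isAlgebraic h θ hθ hθk a ?_
    rw [← hv a]
    exact ha) hY hYt G hG
  change v.val (aeval Y G) = v.val (algebraMap E N (G.coeff i₀)) at h1
  change ∀ i, v.val (algebraMap E N (G.coeff i)) ≤ v.val (aeval Y G) at h2
  have hα : algebraMap E N (G.coeff i₀) ≠ 0 := by simpa using h0
  have hvα : v.val (algebraMap E N (G.coeff i₀)) ≠ 0 := (Valuation.ne_zero_iff _).2 hα
  have hint : ∀ i, u.val ((G.coeff i₀)⁻¹ * G.coeff i) ≤ 1 := by
    intro i
    rw [← hv, map_mul, map_inv₀, map_mul, map_inv₀, inv_mul_le_one₀ (zero_lt_iff.2 hvα), ← h1]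
    exact h2 i
  -- the reduction
  let p : u.resField[X] := ∑ i ∈ Finset.range (G.natDegree + 1),
    C (u.res ((G.coeff i₀)⁻¹ * G.coeff i)) * Polynomial.X ^ i
  have hp : (plE u).SpP (C (G.coeff i₀)⁻¹ * G) p := by
    intro i
    rw [plE_Sp, coeff_C_mul]
    refine ⟨hint i, ?_⟩
    simp only [p, finsetSum_coeff, coeff_C_mul, coeff_X_pow, mul_ite, mul_one, mul_zero]
    rw [Finset.sum_ite_eq]
    split_ifs with hi
    · rfl
    · have hz : G.coeff i = 0 :=
        coeff_eq_zero_of_natDegree_lt (by rw [Finset.mem_range] at hi; omega)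
      rw [hz, mul_zero, u.res_zero]
  refine ⟨G.coeff i₀, p, h0, ?_, h1, ?_⟩
  · intro hp0
    have h3 := (plE_Sp u _ _).1 (hp i₀)
    rw [coeff_C_mul, inv_mul_cancel₀ h0, hp0, coeff_zero, u.res_one] at h3
    exact one_ne_zero h3.2
  · have h4 := (bcls_res hv θ hθ hY hp).2
    rw [← h4]
    congr 1
    rw [map_mul, aeval_C, map_inv₀, inv_mul_eq_div]

/-- The degree of the reduced fraction. -/
theorem bcls_max_natDegree {κ : Type} [Field κ] [Algebra k κ] {n D e : ℕ} {j₀ : σ} {i₀ : ℕ}
    {x : Idx σ n D → κ} (h : PCond I e j₀ i₀ x) :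
    max (pAB x true).natDegree (pAB x false).natDegree = e := by
  obtain ⟨h1, h2, -⟩ := h
  have hle : ∀ b, (pAB x b).natDegree ≤ e := fun b =>
    natDegree_le_iff_coeff_eq_zero.2 fun i hi => h1 b i hi
  apply le_antisymm (max_le (hle _) (hle _))
  by_contra hlt
  rw [not_le, max_lt_iff] at hlt
  rw [coeff_eq_zero_of_natDegree_lt hlt.1, coeff_eq_zero_of_natDegree_lt hlt.2, mul_zero,
    mul_zero, add_zero] at h2
  exact zero_ne_one h2

/-- B5. The degree of a place over `u`. -/
theorem gl_deg [Finite σ] (h : Gl I δ X) {u : Place k E} {v : Place (RatFunc k) N} (hv : Ov u v)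
    {c r : E} (hr : ResTr v X c r) {a b : u.resField[X]} {Q : σ → u.resField[X]}
    (hV : Vred (plE u) δ c r a b Q) {e : ℕ} {τ : Quo (wOne σ) I} (hτ : TRel I a b Q e τ) :
    v.deg = u.deg * e := by
  obtain ⟨θ, hθ, hθk⟩ := bcls_theta hv
  haveI := u.finite_resField h.hE
  obtain ⟨hr0, -, -, e₁, e₁', he₁, -, ha, hb, -⟩ := hV
  set Y : N := (X - algebraMap E N c) / algebraMap E N r with hYdef
  have hY : v.val Y ≤ 1 := hr.1.le
  have hYt : ¬ IsAlgebraic k (v.res Y) := hr.2
  letI : Algebra u.resField v.resField := θ.toAlgebra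
  haveI : IsScalarTower k u.resField v.resField :=
    IsScalarTower.of_algebraMap_eq fun a => (hθk a).symm
  have htr : Transcendental u.resField (v.res Y) := fun h1 => hYt (h1.restrictScalars k)
  have hae : ∀ p : u.resField[X], aeval (v.res Y) p = eval₂ θ (v.res Y) p := fun p => rfl
  obtain ⟨n, D, j₀, i₀, x, G, c₁, y, he1, hP, hG, hc₁, haG, hbG, -, -, -⟩ := hτ
  refine brat_finrank (k := k) (κ := u.resField) (M := v.resField) ?_ (v.res Y) htr ?_
    (pAB x true) (pAB x false) ⟨_, _, hP.2.2.1⟩ ?_ e (bcls_max_natDegree hP) he1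
  · intro c'
    change _ = θ _
    rw [hθk, ← IsScalarTower.algebraMap_apply k (RatFunc k) v.resField]
  · intro m
    obtain ⟨f, hf, rfl⟩ := v.res_surj m
    obtain ⟨g, hgX⟩ := h.iso
    obtain ⟨z, rfl⟩ := g.surjective f
    have hgp : ∀ p : E[X], g (algebraMap E[X] (RatFunc E) p) = aeval X p := by
      intro p
      rw [← RatFunc.aeval_X_left_eq_algebraMap, ← hgX]
      exact (aeval_algHom_apply g.toAlgHom RatFunc.X p).symm
    have hz : g z * aeval X z.denom = aeval X z.num := by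
      rw [← hgp, ← hgp, ← map_mul]
      congr 1
      have h1 := z.num_div_denom
      rw [div_eq_iff (RatFunc.algebraMap_ne_zero z.denom_ne_zero)] at h1
      exact h1.symm
    by_cases hz0 : z = 0
    · refine ⟨0, 1, one_ne_zero, ?_⟩
      rw [hz0, map_zero, v.res_zero]
      simp
    have hnum : z.num ≠ 0 := RatFunc.num_ne_zero hz0
    obtain ⟨α, p, hα, hp, hp1, hp2⟩ := bcls_scale h hv θ hθ hθk hY hYt (tr c r z.num)
      (bcls_tr_ne_zero hr0 hnum)
    obtain ⟨β, q, hβ, hq, hq1, hq2⟩ := bcls_scale h hv θ hθ hθk hY hYt (tr c r z.denom)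
      (bcls_tr_ne_zero hr0 z.denom_ne_zero)
    rw [bcls_aeval_tr hr0] at hp1 hp2 hq1 hq2
    have hα' : algebraMap E N α ≠ 0 := by simpa using hα
    have hβ' : algebraMap E N β ≠ 0 := by simpa using hβ
    have hvα : v.val (algebraMap E N α) ≠ 0 := (Valuation.ne_zero_iff _).2 hα'
    have hvβ : v.val (algebraMap E N β) ≠ 0 := (Valuation.ne_zero_iff _).2 hβ'
    have hpv : v.val (aeval X z.num / algebraMap E N α) = 1 := by
      rw [map_div₀, hp1, div_self hvα]
    have hqv : v.val (aeval X z.denom / algebraMap E N β) = 1 := by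
      rw [map_div₀, hq1, div_self hvβ]
    have heq : g z * (aeval X z.denom / algebraMap E N β) =
        algebraMap E N (α / β) * (aeval X z.num / algebraMap E N α) := by
      rw [← hz, map_div₀]
      field_simp
    have hαβ : v.val (algebraMap E N (α / β)) ≤ 1 := by
      have h1 := congrArg v.val heq
      rw [map_mul, hqv, mul_one, map_mul, hpv, mul_one] at h1
      rw [← h1]
      exact hf
    have hαβ' : u.val (α / β) ≤ 1 := by rw [← hv]; exact hαβ
    refine ⟨C (u.res (α / β)) * p, q, hq, ?_⟩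
    have h2 := congrArg v.res heq
    rw [v.res_mul hf hqv.le, v.res_mul hαβ hpv.le, hp2, hq2, ← hθ _ hαβ'] at h2
    rw [hae, hae, eval₂_mul, eval₂_C]
    exact h2
  · have h1 := bcls_res hv θ hθ hY ha
    have h2 := bcls_res hv θ hθ hY hb
    rw [map_mul, aeval_C, bcls_aeval_tr hr0] at h1 h2
    have ht : v.val (tt k N) ≤ 1 := v.val_algebraMap_le _
    have h3 : tt k N * (algebraMap E N e₁ * aeval X δ.be) = algebraMap E N e₁ * aeval X δ.al := by
      rw [← h.ht]
      ring
    have h4 := congrArg v.res h3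
    rw [v.res_mul ht h2.1, h1.2, h2.2, haG, hbG, eval₂_mul, eval₂_mul, tt, v.res_algebraMap] at h4
    have hGy : eval₂ θ (v.res Y) G ≠ 0 := fun h0 => htr ⟨G, hG, h0⟩
    rw [hae, hae]
    apply mul_left_cancel₀ hGy
    rw [← h4]
    ring

/-- Factorisation of a specialisation over an algebraic field extension. -/
theorem bcls_rho {κ ι : Type} [Field κ] [Algebra k κ] [Algebra.IsAlgebraic k κ] (x : ι → κ)
    (y : ι → AlgebraicClosure k)
    (hker : ∀ q : MvPolynomial ι k, MvPolynomial.aeval x q = 0 → MvPolynomial.aeval y q = 0) :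
    ∃ ρ : κ →ₐ[k] AlgebraicClosure k, ∀ i, ρ (x i) = y i := by
  let g : MvPolynomial ι k →ₐ[k] κ := MvPolynomial.aeval x
  let g' : MvPolynomial ι k →ₐ[k] AlgebraicClosure k := MvPolynomial.aeval y
  have hs : Function.Surjective g.rangeRestrict := g.rangeRestrict_surjective
  let f₁ : (MvPolynomial ι k ⧸ RingHom.ker g.rangeRestrict) →ₐ[k] AlgebraicClosure k :=
    Ideal.Quotient.liftₐ _ g' (fun q hq => hker q (by
      have h1 : g.rangeRestrict q = 0 := hq
      have h2 := congrArg Subtype.val h1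
      exact h2))
  let f : g.range →ₐ[k] AlgebraicClosure k :=
    f₁.comp (Ideal.quotientKerAlgEquivOfSurjective hs).symm.toAlgHom
  have hf : ∀ q, f (g.rangeRestrict q) = g' q := by
    intro q
    have h1 : (Ideal.quotientKerAlgEquivOfSurjective hs).symm (g.rangeRestrict q) =
        Ideal.Quotient.mk _ q := by
      rw [AlgEquiv.symm_apply_eq]
      rfl
    change f₁ ((Ideal.quotientKerAlgEquivOfSurjective hs).symm (g.rangeRestrict q)) = _
    rw [h1]
    rfl
  have hfi : Function.Injective f := by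
    rw [injective_iff_map_eq_zero]
    intro a ha
    by_contra ha0
    obtain ⟨b, hb⟩ := (Subalgebra.isField_of_algebraic g.range).mul_inv_cancel ha0
    have h1 := congrArg f hb
    rw [map_mul, ha, zero_mul, map_one] at h1
    exact zero_ne_one h1
  letI : Algebra g.range (AlgebraicClosure k) := f.toRingHom.toAlgebra
  haveI : FaithfulSMul g.range (AlgebraicClosure k) :=
    (faithfulSMul_iff_algebraMap_injective _ _).2 hfi
  haveI : IsScalarTower k g.range (AlgebraicClosure k) :=
    IsScalarTower.of_algebraMap_eq fun a => (f.commutes a).symm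
  haveI : Algebra.IsAlgebraic g.range κ := ⟨fun a =>
    (Algebra.IsAlgebraic.isAlgebraic (R := k) a).extendScalars (algebraMap k g.range).injective⟩
  let ρ : κ →ₐ[g.range] AlgebraicClosure k := IsAlgClosed.lift
  refine ⟨ρ.restrictScalars k, fun i => ?_⟩
  have h1 : x i = algebraMap g.range κ (g.rangeRestrict (MvPolynomial.X i)) := by
    change x i = g (MvPolynomial.X i)
    simp [g]
  change ρ (x i) = y i
  rw [h1, ρ.commutes]
  change f _ = y i
  rw [hf]
  simp [g']

theorem bcls_ev_ne {s : AlgebraicClosure (RatFunc k)} (hs : ¬ IsAlgebraic k s)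
    {F : (AlgebraicClosure k)[X]} (hF0 : F ≠ 0) : ev F s ≠ 0 := by
  intro hF
  have h2 := (IsAlgClosed.splits F).eq_prod_roots
  rw [h2] at hF
  rw [ev_mul, ev_C] at hF
  have h3 : jc k F.leadingCoeff ≠ 0 := by
    simpa using hF0
  have h4 := (mul_eq_zero.1 hF).resolve_left h3
  rw [← evHom_apply, map_multiset_prod, Multiset.map_map, Multiset.prod_eq_zero_iff] at h4
  obtain ⟨r, hr, h5⟩ := Multiset.mem_map.1 h4
  apply hs
  rw [Function.comp_apply, map_sub, evHom_apply, evHom_apply, ev_C, sub_eq_zero] at h5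
  have h6 : s = jc k r := by
    rw [← h5]
    exact (eval₂_X _ _).symm
  rw [h6]
  exact (Algebra.IsAlgebraic.isAlgebraic r).algHom (jc k)

/-- B5. The class of a place over `u`. -/
theorem gl_cls [Finite σ] (hI : ∀ P ∈ I, ∃ d, P.IsHomogeneous d) (h : Gl I δ X) {u : Place k E}
    {v : Place (RatFunc k) N} (hv : Ov u v)
    {c r : E} (hr : ResTr v X c r) {a b : u.resField[X]} {Q : σ → u.resField[X]}
    (hV : Vred (plE u) δ c r a b Q) {e : ℕ} {τ : Quo (wOne σ) I} (hτ : TRel I a b Q e τ) :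
    clv I v (fun j => aeval X (δ.P j)) = τ := by
  haveI := u.finite_resField h.hE
  obtain ⟨hr0, -, -, e₁, e₁', he₁, he₁', ha, hb, hQ⟩ := hV
  obtain ⟨n, D, j₀, i₀, x, G, c₁, y, he1, hP, hG, hc₁, haG, hbG, hQP, hker, rfl⟩ := hτ
  obtain ⟨ρ, hρ⟩ := bcls_rho x y hker
  have hle : ∀ a : E, u.val a ≤ 1 ↔ v.val (algebraMap E N a) ≤ 1 := fun a => by rw [hv a]
  obtain ⟨ψ, hψ⟩ := good_exists_psi h.hE h.hN v u hle ρ
  set Y : N := (X - algebraMap E N c) / algebraMap E N r with hYdef
  have hY : v.val Y ≤ 1 := hr.1.le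
  have hYt : ¬ IsAlgebraic k (v.res Y) := hr.2
  have hst : ¬ IsAlgebraic k (ψ (v.res Y)) := by
    intro h1
    apply hYt
    exact (isAlgebraic_algHom_iff (ψ.restrictScalars k) ψ.toRingHom.injective).1 h1
  set s' := ψ (v.res Y) with hs'
  have hred : ∀ (F : E[X]) (G : u.resField[X]), (plE u).SpP F G →
      Red u ρ F (G.map (ρ : u.resField →+* AlgebraicClosure k)) := by
    intro F G hFG i
    obtain ⟨h1, h2⟩ := (plE_Sp u _ _).1 (hFG i)
    refine ⟨h1, ?_⟩
    rw [coeff_map, ← h2]
    rfl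
  have hpm : ∀ b, (pAB x b).map (ρ : u.resField →+* AlgebraicClosure k) = pAB y b := by
    intro b
    rw [pAB, mkp_map, pAB]
    congr 1
    funext i
    exact hρ _
  have hPm : ∀ j, (pP x j).map (ρ : u.resField →+* AlgebraicClosure k) = pP y j := by
    intro j
    rw [pP, mkp_map, pP]
    congr 1
    funext i
    exact hρ _
  have hPy : PCond I e j₀ i₀ y :=
    (pEq_iff y).1 fun q hq => hker q ((pEq_iff x).2 hP q hq)
  obtain ⟨ha1, ha2⟩ := good_red v u hle ρ ψ hψ Y hY _ _ (hred _ _ ha)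
  obtain ⟨hb1, hb2⟩ := good_red v u hle ρ ψ hψ Y hY _ _ (hred _ _ hb)
  rw [map_mul, aeval_C, bcls_aeval_tr hr0] at ha1 ha2 hb1 hb2
  have ht : v.val (tt k N) ≤ 1 := v.val_algebraMap_le _
  have h3 : tt k N * (algebraMap E N e₁ * aeval X δ.be) = algebraMap E N e₁ * aeval X δ.al := by
    rw [← h.ht]
    ring
  have h4 : ψ (v.res (tt k N * (algebraMap E N e₁ * aeval X δ.be))) =
    ψ (v.res (algebraMap E N e₁ * aeval X δ.al)) := by rw [h3]
  rw [v.res_mul ht hb1, map_mul, ha2, hb2, haG, hbG, Polynomial.map_mul, Polynomial.map_mul,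
    hpm, hpm, ev_mul, ev_mul, tt, v.res_algebraMap, ψ.commutes] at h4
  have hGy : ev (G.map (ρ : u.resField →+* AlgebraicClosure k)) s' ≠ 0 :=
    bcls_ev_ne hst ((Polynomial.map_ne_zero_iff ρ.toRingHom.injective).2 hG)
  have h5 : tt k (AlgebraicClosure (RatFunc k)) * ev (pAB y false) s' = ev (pAB y true) s' := by
    apply mul_left_cancel₀ hGy
    rw [← h4, tt]
    ring
  have hrt : IsRt (pAB y true) (pAB y false) s' := by
    refine ⟨fun h0 => ?_, h5⟩
    rw [h0, mul_zero] at h5
    have h6 := congrArg (fun F => ev F s') hPy.2.2.1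
    simp only [ev_add, ev_mul, ← h5, h0, mul_zero, add_zero] at h6
    have h7 : ev (1 : (AlgebraicClosure k)[X]) s' = 1 := eval₂_one _ _
    rw [h7] at h6
    exact zero_ne_one h6
  have hpt := hPy.isPoint hrt
  have hc₁' : jc k (ρ c₁) ≠ 0 := by
    simpa using hc₁
  have h6 : (fun j => ev (pP y j) s') =
      fun j => (jc k (ρ c₁))⁻¹ * (jc k (ρ c₁) * ev (pP y j) s') := by
    funext j
    rw [inv_mul_cancel_left₀ hc₁']
  have h7 : IsPoint (wOne σ) I
      (fun j => (jc k (ρ c₁))⁻¹ * (jc k (ρ c₁) * ev (pP y j) s')) := by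
    rw [← h6]
    exact hpt
  obtain ⟨h8, h9⟩ := cls_const_mul hI (jc k (ρ c₁))⁻¹ (inv_ne_zero hc₁') _ h7
  have hsp : IsSp (wOne σ) I v (fun j => aeval X (δ.P j))
      (fun j => jc k (ρ c₁) * ev (pP y j) s') := by
    refine ⟨h8, ψ, fun _ => algebraMap E N e₁', fun _ => by simpa using he₁', ?_, ?_⟩
    · intro j
      obtain ⟨h10, h11⟩ := good_red v u hle ρ ψ hψ Y hY _ _ (hred _ _ (hQ j))
      rw [map_mul, aeval_C, bcls_aeval_tr hr0] at h10
      rw [scale_wOne]
      exact h10
    · intro j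
      obtain ⟨h10, h11⟩ := good_red v u hle ρ ψ hψ Y hY _ _ (hred _ _ (hQ j))
      rw [map_mul, aeval_C, bcls_aeval_tr hr0, hQP, Polynomial.map_mul, map_C, hPm, ev_mul,
        ev_C] at h11
      rw [scale_wOne]
      exact h11.symm
  rw [clv_eq h.hN v _ hsp, theta_eq hPy hrt, ← h9, ← h6]

end B

end Pool.Agent.TT
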