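import Mathlib
import Pool.Agent.TT.BDefs
import Pool.Agent.TT.Sp

set_option autoImplicit false
set_option linter.unusedSectionVars false
set_option linter.style.haveILetI false

/-! Project TT, block B: comparison of the vertices over `E` and over an extension `F`. -/

namespace Pool.Agent.TT

open Pool.Agent.Helper16 Pool.Agent.Helper16.BB Pool.Agent.ThF Polynomial

section trel

variable {k σ : Type} [Field k] [Finite σ] {I : Set (MvPolynomial σ (RatFunc k))}
variable {L L' : Type} [Field L] [Algebra k L] [Field L'] [Algebra k L']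

/-- From the small to the large field. -/
theorem blift_trel (f : L →ₐ[k] L') {a b : L[X]} {Q : σ → L[X]} {e : ℕ} {τ : Quo (wOne σ) I}
    (h : TRel I a b Q e τ) :
    TRel I (a.map (f : L →+* L')) (b.map (f : L →+* L')) (fun j => (Q j).map (f : L →+* L')) e τ := by
  obtain ⟨n, D, j₀, i₀, x, G, c, y, he, hx, hG, hc, ha, hb, hQ, hy, hτ⟩ := h
  have hpAB : ∀ b, (pAB x b).map (f : L →+* L') = pAB (fun i => f (x i)) b := by
    intro b
    rw [pAB, mkp_map, pAB]
    rfl
  have hpP : ∀ j, (pP x j).map (f : L →+* L') = pP (fun i => f (x i)) j := by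
    intro j
    rw [pP, mkp_map, pP]
    rfl
  have hal : ∀ q : MvPolynomial (Idx σ n D) k,
      MvPolynomial.aeval (fun i => f (x i)) q = f (MvPolynomial.aeval x q) := by
    intro q
    rw [MvPolynomial.comp_aeval_apply]
  refine ⟨n, D, j₀, i₀, fun i => f (x i), G.map (f : L →+* L'), f c, y, he, ?_, ?_, ?_,
    ?_, ?_, ?_, ?_, hτ⟩
  · refine (pEq_iff _).1 fun q hq => ?_
    rw [hal, (pEq_iff x).2 hx q hq, map_zero]
  · intro h0
    exact hG ((Polynomial.map_eq_zero (f : L →+* L')).1 h0)
  · intro h0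
    exact hc ((map_eq_zero f).1 h0)
  · rw [ha, Polynomial.map_mul, hpAB]
  · rw [hb, Polynomial.map_mul, hpAB]
  · intro j
    change (Q j).map (f : L →+* L') = _
    rw [hQ j, Polynomial.map_mul, hpP, Polynomial.map_C]
    rfl
  · intro q hq
    apply hy q
    rw [hal] at hq
    exact (map_eq_zero f).1 hq

end trel

section ov

variable {k E F : Type} [Field k] [Field E] [Algebra k E] [Field F] [Algebra E F]

theorem blift_le (u : Place k E) (A : ValuationSubring F)
    (hA : ∀ a : E, algebraMap E F a ∈ A ↔ u.val a ≤ 1) (x y : E) :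
    A.valuation (algebraMap E F x) ≤ A.valuation (algebraMap E F y) ↔ u.val x ≤ u.val y := by
  by_cases hy : y = 0
  · subst hy
    simp
  · have hy' : algebraMap E F y ≠ 0 := (_root_.map_ne_zero _).2 hy
    rw [val_le_iff _ _ _ hy', ← map_div₀, hA, map_div₀]
    exact div_le_one₀ (zero_lt_iff.2 ((Valuation.ne_zero_iff _).2 hy))

theorem blift_lt (u : Place k E) (A : ValuationSubring F)
    (hA : ∀ a : E, algebraMap E F a ∈ A ↔ u.val a ≤ 1) (x y : E) :
    A.valuation (algebraMap E F x) < A.valuation (algebraMap E F y) ↔ u.val x < u.val y := by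
  rw [← not_le, ← not_le, blift_le u A hA]

theorem blift_eq (u : Place k E) (A : ValuationSubring F)
    (hA : ∀ a : E, algebraMap E F a ∈ A ↔ u.val a ≤ 1) (x y : E) :
    A.valuation (algebraMap E F x) = A.valuation (algebraMap E F y) ↔ u.val x = u.val y := by
  rw [le_antisymm_iff, le_antisymm_iff, blift_le u A hA, blift_le u A hA]

theorem blift_eqv (u : Place k E) (A : ValuationSubring F)
    (hA : ∀ a : E, algebraMap E F a ∈ A ↔ u.val a ≤ 1) (c r c' r' : E) :
    Eqv A (algebraMap E F c) (algebraMap E F r) (algebraMap E F c') (algebraMap E F r') ↔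
      Eqv (vs u) c r c' r' := by
  rw [Eqv, Eqv, blift_eq u A hA, ← map_sub, blift_le u A hA, vs_valuation_eq, vs_valuation_le]

theorem exists_over_vs (u : Place k E) :
    ∃ A : ValuationSubring F, ∀ a : E, algebraMap E F a ∈ A ↔ u.val a ≤ 1 := by
  let f : u.ring →+* F := (algebraMap E F).comp u.ring.val.toRingHom
  obtain ⟨A, hA, hloc⟩ := IsLocalRing.exists_factor_valuationRing f
  let f' : u.ring →+* A := f.codRestrict A.toSubring hA
  have hloc' : IsLocalHom f' := hloc
  refine ⟨A, fun x => ⟨fun hx => ?_, fun hx => (f' ⟨x, hx⟩).2⟩⟩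
  by_contra hlt
  rw [not_le] at hlt
  have hx0 : x ≠ 0 := by
    rintro rfl
    rw [map_zero] at hlt
    exact not_lt_zero hlt
  have h1 : u.val x⁻¹ < 1 := by
    rw [map_inv₀]
    exact inv_lt_one_of_one_lt₀ hlt
  have h2 : IsUnit (f' ⟨x⁻¹, h1.le⟩) := by
    refine isUnit_iff_exists_inv.2 ⟨⟨_, hx⟩, Subtype.ext ?_⟩
    change algebraMap E F x⁻¹ * algebraMap E F x = 1
    rw [← map_mul, inv_mul_cancel₀ hx0, map_one]
  have h3 := (u.isUnit_iff _).1 (isUnit_of_map_unit f' _ h2)
  exact h1.ne h3

variable [Algebra k F] [IsScalarTower k E F]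

/-- The residue field of a valuation ring over a place. -/
theorem blift_exists_pl (u : Place k E) (A : ValuationSubring F)
    (hA : ∀ a : E, algebraMap E F a ∈ A ↔ u.val a ≤ 1) :
    ∃ (L : Type) (_ : Field L) (_ : Algebra k L) (π : Pl k F L), π.A = A := by
  have hk : ∀ a : k, algebraMap k F a ∈ A := by
    intro a
    rw [IsScalarTower.algebraMap_apply k E F, hA]
    exact u.val_algebraMap_le a
  let g : k →+* A := (algebraMap k F).codRestrict A.toSubring hk
  letI : Algebra k (IsLocalRing.ResidueField A) := ((IsLocalRing.residue A).comp g).toAlgebra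
  refine ⟨IsLocalRing.ResidueField A, inferInstance, inferInstance, ⟨A, IsLocalRing.residue A,
    fun x => ?_, fun a => ⟨hk a, rfl⟩⟩, rfl⟩
  rw [IsLocalRing.residue_eq_zero_iff]
  exact (ValuationSubring.valuation_lt_one_iff A x)

/-- The embedding of the residue field. -/
theorem blift_exists_rho {L : Type} [Field L] [Algebra k L] (u : Place k E) (π : Pl k F L)
    (hA : ∀ a : E, algebraMap E F a ∈ π.A ↔ u.val a ≤ 1) :
    ∃ ρ : u.resField →ₐ[k] L, ∀ x : E, u.val x ≤ 1 → π.Sp (algebraMap E F x) (ρ (u.res x)) := by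
  let g : u.ring →+* π.A :=
    { toFun := fun a => ⟨algebraMap E F (a : E), (hA a).2 a.2⟩
      map_one' := Subtype.ext (map_one _)
      map_mul' := fun a b => Subtype.ext (map_mul _ _ _)
      map_zero' := Subtype.ext (map_zero _)
      map_add' := fun a b => Subtype.ext (map_add _ _ _) }
  have hg : IsLocalHom (π.r.comp g) := by
    refine ⟨fun a ha => ?_⟩
    rw [Place.isUnit_iff]
    refine le_antisymm a.2 ?_
    by_contra hlt
    rw [not_le] at hlt
    have h1 : π.A.valuation (algebraMap E F (a : E)) < 1 := by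
      have h2 := (blift_lt u π.A hA (a : E) 1).2 (by rw [map_one]; exact hlt)
      rwa [map_one, map_one] at h2
    have h3 : π.r (g a) = 0 := (π.loc (g a)).2 h1
    exact ha.ne_zero h3
  let ρ : u.resField →+* L := IsLocalRing.ResidueField.lift (π.r.comp g)
  have hρ : ∀ a : u.ring, ρ (IsLocalRing.residue u.ring a) = π.r (g a) := fun a =>
    IsLocalRing.ResidueField.lift_residue_apply _ a
  refine ⟨{ ρ with commutes' := fun c => ?_ }, fun x hx => ?_⟩
  · change ρ (algebraMap k u.resField c) = _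
    have h3 : algebraMap k u.resField c = IsLocalRing.residue u.ring (algebraMap k u.ring c) := rfl
    obtain ⟨h4, h5⟩ := π.hk c
    rw [h3, hρ, ← h5]
    congr 1
    apply Subtype.ext
    change algebraMap E F (algebraMap k E c) = algebraMap k F c
    rw [← IsScalarTower.algebraMap_apply]
  · refine ⟨(hA x).2 hx, ?_⟩
    change _ = ρ (u.res x)
    rw [u.res_of_mem (show x ∈ u.ring from hx), hρ]
    rfl

theorem blift_tr_map (c r : E) (f : E[X]) :
    tr (algebraMap E F c) (algebraMap E F r) (f.map (algebraMap E F)) =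
      (tr c r f).map (algebraMap E F) := by
  rw [tr, tr, Polynomial.map_comp, Polynomial.map_add, Polynomial.map_mul, map_C, map_C, map_X]

/-- The lifted relation. -/
theorem blift_spP {L : Type} [Field L] [Algebra k L] {u : Place k E} {π : Pl k F L}
    {ρ : u.resField →ₐ[k] L}
    (hρ : ∀ x : E, u.val x ≤ 1 → π.Sp (algebraMap E F x) (ρ (u.res x))) {f : E[X]}
    {g : u.resField[X]} (h : (plE u).SpP f g) :
    π.SpP (f.map (algebraMap E F)) (g.map (ρ : u.resField →+* L)) := by
  intro i
  obtain ⟨h1, h2⟩ := (plE_Sp u _ _).1 (h i)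
  rw [coeff_map, coeff_map, ← h2]
  exact hρ _ h1

end ov

section B

variable {k E σ : Type} [Field k] [Field E] [Algebra k E]
variable {I : Set (MvPolynomial σ (RatFunc k))} {δ : CD σ E}

/-- Vertices over `E` give vertices over `F`. -/
theorem mrel_lift [Finite σ] {F : Type} [Field F] [Algebra k F] [Algebra E F]
    [IsScalarTower k E F] (u : Place k E) (A : ValuationSubring F)
    (hA : ∀ a : E, algebraMap E F a ∈ A ↔ u.val a ≤ 1) {c r : E} {a b : u.resField[X]}
    {Q : σ → u.resField[X]} (hV : Vred (plE u) δ c r a b Q) {e : ℕ} {τ : Quo (wOne σ) I}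
    (hτ : TRel I a b Q e τ) :
    MRel I A (δ.map (algebraMap E F)) (algebraMap E F c) (algebraMap E F r) e τ := by
  obtain ⟨L, _, _, π, rfl⟩ := blift_exists_pl u A hA
  obtain ⟨ρ, hρ⟩ := blift_exists_rho u π hA
  refine ⟨L, inferInstance, inferInstance, π, a.map (ρ : u.resField →+* L),
    b.map (ρ : u.resField →+* L), fun j => (Q j).map (ρ : u.resField →+* L), rfl, ?_,
    blift_trel ρ hτ⟩
  obtain ⟨hr, ⟨i, j, hij⟩, ⟨j', hj'⟩, ε, ε', hε, hε', ha, hb, hQ⟩ := hV
  have hcm : ∀ (ε : E) (f : E[X]), C (algebraMap E F ε) *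
      tr (algebraMap E F c) (algebraMap E F r) (f.map (algebraMap E F)) =
      (C ε * tr c r f).map (algebraMap E F) := by
    intro ε f
    rw [blift_tr_map, Polynomial.map_mul, map_C]
  refine ⟨(_root_.map_ne_zero _).2 hr, ⟨i, j, fun h => hij ?_⟩, ⟨j', fun h => hj' ?_⟩,
    algebraMap E F ε, algebraMap E F ε', (_root_.map_ne_zero _).2 hε, (_root_.map_ne_zero _).2 hε', ?_, ?_, ?_⟩
  · rw [coeff_map, coeff_map, coeff_map, coeff_map, ← map_mul, ← map_mul] at h
    exact (ρ : u.resField →+* L).injective h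
  · exact (Polynomial.map_eq_zero (ρ : u.resField →+* L)).1 h
  · change π.SpP (C (algebraMap E F ε) *
      tr (algebraMap E F c) (algebraMap E F r) (δ.al.map (algebraMap E F))) _
    rw [hcm]
    exact blift_spP hρ ha
  · change π.SpP (C (algebraMap E F ε) *
      tr (algebraMap E F c) (algebraMap E F r) (δ.be.map (algebraMap E F))) _
    rw [hcm]
    exact blift_spP hρ hb
  · intro j
    change π.SpP (C (algebraMap E F ε') *
      tr (algebraMap E F c) (algebraMap E F r) ((δ.P j).map (algebraMap E F))) _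
    rw [hcm]
    exact blift_spP hρ (hQ j)

/-- Descent of the scaling factors. -/
theorem blift_descend {F : Type} [Field F] [Algebra k F] [Algebra E F]
    [IsScalarTower k E F] {L : Type} [Field L] [Algebra k L] (u : Place k E) (π : Pl k F L)
    (hA : ∀ a : E, algebraMap E F a ∈ π.A ↔ u.val a ≤ 1) {ρ : u.resField →ₐ[k] L}
    (hρ : ∀ x : E, u.val x ≤ 1 → π.Sp (algebraMap E F x) (ρ (u.res x))) {ι : Type}
    (f : ι → E[X]) (g : ι → L[X]) (ε : F)
    (h : ∀ i, π.SpP (C ε * (f i).map (algebraMap E F)) (g i)) (hg : ∃ i, g i ≠ 0) :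
    ∃ (e₀ : E) (w : L) (q : ι → u.resField[X]), e₀ ≠ 0 ∧ w ≠ 0 ∧
      (∀ i, (plE u).SpP (C e₀ * f i) (q i)) ∧
      ∀ i, g i = C w * (q i).map (ρ : u.resField →+* L) := by
  obtain ⟨i₀, hi₀⟩ := hg
  obtain ⟨m, hm⟩ : ∃ m, (g i₀).coeff m ≠ 0 := by
    by_contra hcon
    push Not at hcon
    exact hi₀ (Polynomial.ext fun i => by rw [hcon i, coeff_zero])
  have hc : ∀ i n, π.Sp (ε * algebraMap E F ((f i).coeff n)) ((g i).coeff n) := by
    intro i n
    have h1 := h i n
    rwa [coeff_C_mul, coeff_map] at h1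
  set α := (f i₀).coeff m with hα
  have h1 := hc i₀ m
  rw [← hα] at h1
  have hne : ε * algebraMap E F α ≠ 0 := h1.ne_zero hm
  have hα0 : α ≠ 0 := by
    intro h0
    rw [h0, map_zero, mul_zero] at hne
    exact hne rfl
  have hv1 := h1.val_eq_one hm
  have hint : ∀ i n, u.val (α⁻¹ * (f i).coeff n) ≤ 1 := by
    intro i n
    rw [← hA, ← π.A.valuation_le_one_iff]
    have h2 := (π.A.valuation_le_one_iff _).2 (hc i n).mem
    have h3 : ε * algebraMap E F ((f i).coeff n) =
        (ε * algebraMap E F α) * algebraMap E F (α⁻¹ * (f i).coeff n) := by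
      rw [mul_assoc, ← map_mul, mul_inv_cancel_left₀ hα0]
    rw [h3, map_mul, hv1, one_mul] at h2
    exact h2
  let q : ι → u.resField[X] := fun i => ∑ n ∈ Finset.range ((f i).natDegree + 1),
    C (u.res (α⁻¹ * (f i).coeff n)) * X ^ n
  have hq : ∀ i n, (q i).coeff n = u.res (α⁻¹ * (f i).coeff n) := by
    intro i n
    simp only [q, finsetSum_coeff, coeff_C_mul, coeff_X_pow, mul_ite, mul_one, mul_zero]
    rw [Finset.sum_ite_eq]
    split_ifs with hi
    · rfl
    · have hz : (f i).coeff n = 0 :=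
        coeff_eq_zero_of_natDegree_lt (by rw [Finset.mem_range] at hi; omega)
      rw [hz, mul_zero, u.res_zero]
  refine ⟨α⁻¹, (g i₀).coeff m, q, inv_ne_zero hα0, hm, ?_, ?_⟩
  · intro i n
    rw [plE_Sp, coeff_C_mul]
    exact ⟨hint i n, (hq i n).symm⟩
  · intro i
    ext n
    rw [coeff_C_mul, coeff_map, hq]
    have h2 := h1.mul (hρ _ (hint i n))
    have h3 : ε * algebraMap E F ((f i).coeff n) =
        (ε * algebraMap E F α) * algebraMap E F (α⁻¹ * (f i).coeff n) := by
      rw [mul_assoc, ← map_mul, mul_inv_cancel_left₀ hα0]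
    have h4 := hc i n
    rw [h3] at h4
    exact h4.unique h2

/-- Vertices over `F` with coordinates in `E` come from `E`. -/
theorem vred_descend [Finite σ] {F : Type} [Field F] [Algebra k F] [Algebra E F]
    [IsScalarTower k E F] (u : Place k E) (A : ValuationSubring F)
    (hA : ∀ a : E, algebraMap E F a ∈ A ↔ u.val a ≤ 1) {c r : E} {e : ℕ} {τ : Quo (wOne σ) I}
    (hM : MRel I A (δ.map (algebraMap E F)) (algebraMap E F c) (algebraMap E F r) e τ) :
    ∃ (a b : u.resField[X]) (Q : σ → u.resField[X]), Vred (plE u) δ c r a b Q := by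
  obtain ⟨L, _, _, π, a, b, Q, rfl, ⟨hr, ⟨i, j, hij⟩, ⟨j', hj'⟩, ε, ε', hε, hε', ha, hb, hQ⟩, -⟩ := hM
  obtain ⟨ρ, hρ⟩ := blift_exists_rho u π hA
  have hr0 : r ≠ 0 := (_root_.map_ne_zero (algebraMap E F)).1 hr
  obtain ⟨e₀, w, q, he₀, hw, hq1, hq2⟩ := blift_descend u π hA hρ
    (fun z : Bool => cond z (tr c r δ.al) (tr c r δ.be)) (fun z => cond z a b) ε (by
      intro z
      cases z
      · change π.SpP (C ε * (tr c r δ.be).map (algebraMap E F)) b
        rw [← blift_tr_map]
        exact hb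
      · change π.SpP (C ε * (tr c r δ.al).map (algebraMap E F)) a
        rw [← blift_tr_map]
        exact ha) (by
      by_contra hcon
      push Not at hcon
      have h1 : a = 0 := hcon true
      rw [h1] at hij
      simp at hij)
  obtain ⟨e₁, w', q', he₁, hw', hq3, hq4⟩ := blift_descend u π hA hρ
    (fun j => tr c r (δ.P j)) Q ε' (by
      intro j
      rw [← blift_tr_map]
      exact hQ j) ⟨j', hj'⟩
  refine ⟨q true, q false, q', hr0, ⟨i, j, fun h => hij ?_⟩, ⟨j', fun h => hj' ?_⟩, e₀, e₁, he₀,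
    he₁, hq1 true, hq1 false, hq3⟩
  · have h1 : a = C w * (q true).map (ρ : u.resField →+* L) := hq2 true
    have h2 : b = C w * (q false).map (ρ : u.resField →+* L) := hq2 false
    have h3 := congrArg (ρ : u.resField →+* L) h
    rw [map_mul, map_mul] at h3
    rw [h1, h2, coeff_C_mul, coeff_C_mul, coeff_C_mul, coeff_C_mul, coeff_map, coeff_map,
      coeff_map, coeff_map]
    linear_combination w ^ 2 * h3
  · rw [hq4 j', h, Polynomial.map_zero, mul_zero]

end B

end Pool.Agent.TT
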