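import Pool.Agent.TT.BGauss

set_option autoImplicit false
set_option linter.unusedSectionVars false
set_option linter.style.haveILetI false

/-! Project TT, block B: the relation of a function, B7 (the total mass is the same at all places of
`E`). -/

namespace Pool.Agent.TT

open Pool.Agent.Helper16 Pool.Agent.Helper16.BB Pool.Agent.ThF Polynomial

section

variable {k E N σ : Type} [Field k] [Field E] [Field N] [Algebra k E] [Algebra k N] [Algebra E N]
  [Algebra (RatFunc k) N] [IsScalarTower k E N] [IsScalarTower k (RatFunc k) N]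
variable {I : Set (MvPolynomial σ (RatFunc k))} {δ : CD σ E} {X : N}

/-- The point of `X` over `N`. -/
theorem Gl.pt (h : Gl I δ X) : IsPoint (wOne σ) I (fun j => aeval X (δ.P j)) := by
  rw [isPoint_wOne]
  refine ⟨?_, fun Q hQ => ?_⟩
  · intro h0
    obtain ⟨j, hj⟩ := h.ok.ne
    exact h.ne hj (congrFun h0 j)
  · rw [← aeval_bih Q (h.ne h.ok.be_ne) h.ht]
    have h1 := congrArg (fun p : E[X] => aeval X p) (h.ok.fam Q hQ)
    simp only [map_zero] at h1
    rw [← h1]
    have h2 := MvPolynomial.comp_aeval_apply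
      (f := Sum.elim (fun e : Bool => cond e δ.al δ.be) δ.P)
      ((aeval X : E[X] →ₐ[E] N).restrictScalars k) (bih Q)
    refine Eq.trans ?_ h2.symm
    congr 2
    funext c
    rcases c with c | c
    · cases c <;> rfl
    · rfl

theorem Gl.exists_sp [Finite σ] (hI : ∀ P ∈ I, ∃ d, P.IsHomogeneous d) (h : Gl I δ X)
    (v : Place (RatFunc k) N) : ∃ y, IsSp (wOne σ) I v (fun j => aeval X (δ.P j)) y := by
  haveI := v.finite_resField h.hN
  obtain ⟨m, -, -, h1⟩ := exists_isSp_wOne hI v _ h.pt IsAlgClosed.lift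
  exact ⟨_, h1⟩

/-- The relation given by a function. -/
theorem Gl.rel [Finite σ] (hI : ∀ P ∈ I, ∃ d, P.IsHomogeneous d) (h : Gl I δ X) (f : N)
    (hf : f ≠ 0) (S : Finset (Place (RatFunc k) N)) (hS : ∀ v, v.ord f ≠ 0 → v ∈ S) :
    ∑ v ∈ S, ((v.ord f * (v.deg : ℤ) : ℤ) : ℚ) • clv I v (fun j => aeval X (δ.P j)) = 0 := by
  classical
  choose y hy using h.exists_sp hI
  have h1 := cls_rel h.hN _ h.pt f hf (S.filter fun v => v.ord f ≠ 0)
    (fun v => by
      rw [Finset.mem_filter]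
      exact ⟨fun h => h.2, fun h => ⟨hS v h, h⟩⟩) y (fun v _ => hy v)
  rw [Finset.sum_filter] at h1
  rw [← h1]
  refine Finset.sum_congr rfl fun v _ => ?_
  rw [clv_eq h.hN v _ (hy v)]
  by_cases h2 : v.ord f = 0
  · simp [h2]
  · rw [if_pos h2]

theorem Ov.ord {u : Place k E} {v : Place (RatFunc k) N} (hv : Ov u v) (a : E) :
    v.ord (algebraMap E N a) = u.ord a := by
  rw [Place.ord, Place.ord, hv]

/-- There are finitely many places over `u`. -/
theorem Gl.exists_over (h : Gl I δ X) (u : Place k E) :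
    ∃ S : Finset (Place (RatFunc k) N), ∀ v, v ∈ S ↔ Ov u v := by
  classical
  obtain ⟨f, hf0, hf1⟩ := u.exists_uniformizer
  obtain ⟨S, hS, -⟩ := h.hN.product_formula (algebraMap E N f)
  refine ⟨S.filter fun v => Ov u v, fun v => ?_⟩
  rw [Finset.mem_filter, hS]
  refine ⟨fun h => h.2, fun hv => ⟨?_, hv⟩⟩
  rw [hv.ord, Ne, u.ord_eq_zero_iff hf0, hf1]
  exact exp_neg_one_lt.ne

/-- B7. -/
theorem gl_const [Finite k] [Finite σ] (hI : ∀ P ∈ I, ∃ d, P.IsHomogeneous d) (h : Gl I δ X)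
    (φ : Quo (wOne σ) I →ₗ[ℚ] ℚ) : ∃ M : ℚ, ∀ (u : Place k E)
      (S : Finset (Place (RatFunc k) N)), (∀ v, v ∈ S ↔ Ov u v) →
      ∑ v ∈ S, (v.deg : ℚ) * φ (clv I v (fun j => aeval X (δ.P j))) = (u.deg : ℚ) * M := by
  classical
  rcases isEmpty_or_nonempty (Place k E) with hemp | ⟨⟨u₀⟩⟩
  · exact ⟨0, fun u => (hemp.false u).elim⟩
  obtain ⟨S₀, hS₀⟩ := h.exists_over u₀
  have hd₀ : (0 : ℚ) < u₀.deg := by exact_mod_cast u₀.deg_pos h.hE
  refine ⟨(∑ v ∈ S₀, (v.deg : ℚ) * φ (clv I v (fun j => aeval X (δ.P j)))) / u₀.deg,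
    fun u S hS => ?_⟩
  by_cases huu : u = u₀
  · subst huu
    have h1 : S = S₀ := by
      ext v
      rw [hS, hS₀]
    rw [h1, mul_div_cancel₀ _ hd₀.ne']
  obtain ⟨g, hg, hgu, hgz, hgp⟩ := h.hE.exists_zero_pole u u₀ huu
  have hg0 : g ≠ 0 := transcendental_ne_zero hg
  have hgN : algebraMap E N g ≠ 0 := (map_ne_zero (algebraMap E N)).2 hg0
  have hdisj : Disjoint S S₀ := by
    rw [Finset.disjoint_left]
    intro v h1 h2
    exact huu (((hS v).1 h1).eq ((hS₀ v).1 h2))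
  have hrel := h.rel hI (algebraMap E N g) hgN (S ∪ S₀) (by
    intro v hv
    have hv1 : v.val (algebraMap E N g) ≠ 1 := by
      rwa [Ne, v.ord_eq_zero_iff hgN] at hv
    obtain ⟨u', hu'⟩ := gl_restrict h hg0 hv1
    rw [hu'] at hv1
    rw [Finset.mem_union, hS, hS₀]
    rcases lt_or_gt_of_ne hv1 with h1 | h1
    · left
      rwa [← hgz u' h1]
    · right
      rwa [← hgp u' h1])
  obtain ⟨T, hT, hprod⟩ := h.hE.product_formula g
  have hTsub : T ⊆ {u, u₀} := by
    intro w hw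
    rw [hT, Ne, w.ord_eq_zero_iff hg0] at hw
    rw [Finset.mem_insert, Finset.mem_singleton]
    rcases lt_or_gt_of_ne hw with h1 | h1
    · left; exact hgz w h1
    · right; exact hgp w h1
  have hprod' : u.ord g * (u.deg : ℤ) + u₀.ord g * (u₀.deg : ℤ) = 0 := by
    rw [← Finset.sum_pair (f := fun w : Place k E => w.ord g * (w.deg : ℤ)) huu, ← hprod]
    symm
    refine Finset.sum_subset hTsub fun w _ hw => ?_
    have h2 : w.ord g = 0 := by
      by_contra h3
      exact hw ((hT w).2 h3)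
    rw [h2, zero_mul]
  rw [Finset.sum_union hdisj] at hrel
  have hrel' := congrArg φ hrel
  rw [map_add, map_sum, map_sum, map_zero] at hrel'
  have hsum : ∀ (u' : Place k E) (S' : Finset (Place (RatFunc k) N)), (∀ v, v ∈ S' ↔ Ov u' v) →
      ∑ v ∈ S', φ (((v.ord (algebraMap E N g) * (v.deg : ℤ) : ℤ) : ℚ) •
        clv I v (fun j => aeval X (δ.P j))) =
      (u'.ord g : ℚ) * ∑ v ∈ S', (v.deg : ℚ) * φ (clv I v (fun j => aeval X (δ.P j))) := by
    intro u' S' hS'
    rw [Finset.mul_sum]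
    refine Finset.sum_congr rfl fun v hv => ?_
    rw [((hS' v).1 hv).ord, map_smul, smul_eq_mul]
    push_cast
    ring
  rw [hsum u S hS, hsum u₀ S₀ hS₀] at hrel'
  have hpos : (0 : ℚ) < u.ord g := by
    exact_mod_cast (u.ord_pos_iff hg0).2 hgu
  have hprod'' : (u.ord g : ℚ) * u.deg + (u₀.ord g : ℚ) * u₀.deg = 0 := by
    exact_mod_cast hprod'
  set A := ∑ v ∈ S, (v.deg : ℚ) * φ (clv I v (fun j => aeval X (δ.P j))) with hA
  set B := ∑ v ∈ S₀, (v.deg : ℚ) * φ (clv I v (fun j => aeval X (δ.P j))) with hB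
  have h3 : (u.ord g : ℚ) * A * u₀.deg = (u.ord g : ℚ) * (u.deg * B) := by
    have h4 : (u.ord g : ℚ) * A = - ((u₀.ord g : ℚ) * B) := by linarith
    rw [h4]
    have h5 : (u.ord g : ℚ) * (u.deg * B) = ((u.ord g : ℚ) * u.deg) * B := by ring
    rw [h5]
    have h6 : (u.ord g : ℚ) * u.deg = - ((u₀.ord g : ℚ) * u₀.deg) := by linarith
    rw [h6]
    ring
  have h7 : A * u₀.deg = u.deg * B := by
    apply mul_left_cancel₀ hpos.ne'
    rw [← mul_assoc]
    exact h3
  rw [mul_div_assoc', ← h7, mul_div_assoc, div_self hd₀.ne', mul_one]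

end

end Pool.Agent.TT
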