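import Pool.Agent.TT.BPlace
import Pool.Agent.TT.BRel
import Pool.Agent.TT.BCls
import Pool.Agent.TT.BLift
import Pool.Agent.TT.VCIff

set_option autoImplicit false
set_option linter.unusedSectionVars false
set_option linter.style.haveILetI false

/-! Project TT, block B, B6: sums over the places over `u` in terms of vertices. -/

namespace Pool.Agent.TT

open Pool.Agent.Helper16 Pool.Agent.Helper16.BB Pool.Agent.ThF Polynomial

section

variable {k E N σ : Type} [Field k] [Field E] [Field N] [Algebra k E] [Algebra k N] [Algebra E N]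
  [Algebra (RatFunc k) N] [IsScalarTower k E N] [IsScalarTower k (RatFunc k) N]
variable {I : Set (MvPolynomial σ (RatFunc k))} {δ : CD σ E} {X : N}

theorem bsum_surj (u : Place k E) : (plE u).Surj := by
  intro y
  obtain ⟨x, hx, hxy⟩ := u.res_surj y
  exact ⟨x, (plE_Sp u _ _).2 ⟨hx, hxy⟩⟩

/-- The reduction at a place over `u`, with its degree and class. -/
theorem bsum_red [Finite k] [Finite σ] (hI : ∀ P ∈ I, ∃ d, P.IsHomogeneous d) (h : Gl I δ X)
    {u : Place k E} {v : Place (RatFunc k) N} (hv : Ov u v) {c r : E} (hr : ResTr v X c r) :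
    ∃ (a b : u.resField[X]) (Q : σ → u.resField[X]) (e : ℕ) (τ : Quo (wOne σ) I),
      Vred (plE u) δ c r a b Q ∧ TRel I a b Q e τ := by
  obtain ⟨e, τ, h1⟩ := (vc_iff (k := k) hI h.ok.fam h.ok.ne c r).1 (gl_vc h hv hr)
  obtain ⟨a, b, Q, h2, h3⟩ := (mrel_iff hI (plE u) (bsum_surj u)).1 h1
  exact ⟨a, b, Q, e, τ, h2, h3⟩

theorem bsum_mass_eq [Finite k] [Finite σ] (hI : ∀ P ∈ I, ∃ d, P.IsHomogeneous d) {F : Type} [Field F]
    [Algebra k F] (φ : Quo (wOne σ) I →ₗ[ℚ] ℚ) {A : ValuationSubring F} {δ : CD σ F} {c r : F}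
    {e : ℕ} {τ : Quo (wOne σ) I} (h : MRel I A δ c r e τ) : mass φ A δ c r = e * φ τ := by
  have h1 : ∃ p : ℕ × Quo (wOne σ) I, MRel I A δ c r p.1 p.2 := ⟨(e, τ), h⟩
  rw [mass, dif_pos h1]
  obtain ⟨h2, h3⟩ := mrel_unique hI h1.choose_spec h
  rw [h2, h3]

/-- The mass of a vertex, over an extension, in terms of the place. -/
theorem bsum_mass [Finite k] [Finite σ] (hI : ∀ P ∈ I, ∃ d, P.IsHomogeneous d) (h : Gl I δ X)
    {F : Type} [Field F] [Algebra k F] [Algebra E F] [IsScalarTower k E F] {u : Place k E}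
    {A : ValuationSubring F} (hA : ∀ a : E, algebraMap E F a ∈ A ↔ u.val a ≤ 1)
    (φ : Quo (wOne σ) I →ₗ[ℚ] ℚ) {v : Place (RatFunc k) N} (hv : Ov u v) {c r : E}
    (hr : ResTr v X c r) :
    (u.deg : ℚ) * mass φ A (δ.map (algebraMap E F)) (algebraMap E F c) (algebraMap E F r) =
      v.deg * φ (clv I v (fun j => aeval X (δ.P j))) := by
  obtain ⟨a, b, Q, e, τ, h1, h2⟩ := bsum_red hI h hv hr
  rw [bsum_mass_eq hI φ (mrel_lift u A hA h1 h2), gl_deg h hv hr h1 h2, gl_cls hI h hv hr h1 h2]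
  push_cast
  ring

/-- The mass is zero if there is no place. -/
theorem bsum_mass_zero [Finite k] [Finite σ] (h : Gl I δ X)
    {F : Type} [Field F] [Algebra k F] [Algebra E F] [IsScalarTower k E F] {u : Place k E}
    {A : ValuationSubring F} (hA : ∀ a : E, algebraMap E F a ∈ A ↔ u.val a ≤ 1)
    (φ : Quo (wOne σ) I →ₗ[ℚ] ℚ) {c r : E}
    (hr : ∀ v : Place (RatFunc k) N, Ov u v → ¬ ResTr v X c r) :
    mass φ A (δ.map (algebraMap E F)) (algebraMap E F c) (algebraMap E F r) = 0 := by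
  rw [mass, dif_neg]
  rintro ⟨⟨e, τ⟩, h1⟩
  obtain ⟨a, b, Q, h2⟩ := vred_descend u A hA h1
  obtain ⟨v, hv, hv'⟩ := gl_place h u h2
  exact hr v hv hv'

/-- The roots over an extension. -/
theorem bsum_rts (hspl : (δ.al * δ.be * (δ.al - δ.be)).Splits) {F : Type} [Field F] [Algebra E F] :
    ∀ y, y ∈ (δ.map (algebraMap E F)).rts ↔ ∃ x ∈ δ.rts, algebraMap E F x = y := by
  classical
  intro y
  have h1 : (δ.map (algebraMap E F)).al * (δ.map (algebraMap E F)).be *
      ((δ.map (algebraMap E F)).al - (δ.map (algebraMap E F)).be) =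
      (δ.al * δ.be * (δ.al - δ.be)).map (algebraMap E F) := by
    rw [Polynomial.map_mul, Polynomial.map_mul, Polynomial.map_sub]
    rfl
  rw [CD.rts, CD.rts, h1, Multiset.mem_toFinset, hspl.roots_map, Multiset.mem_map]
  simp only [Multiset.mem_toFinset]

/-- B6. The sum over the places over `u` in terms of vertices. -/
theorem gl_sum [Finite k] [Finite σ] (hI : ∀ P ∈ I, ∃ d, P.IsHomogeneous d) (h : Gl I δ X)
    {F : Type} [Field F] [Algebra k F] [Algebra E F] [IsScalarTower k E F] (u : Place k E)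
    (A : ValuationSubring F) (hA : ∀ a : E, algebraMap E F a ∈ A ↔ u.val a ≤ 1)
    (φ : Quo (wOne σ) I →ₗ[ℚ] ℚ) :
    ∃ S : Finset (Place (RatFunc k) N), (∀ v, v ∈ S ↔ Ov u v) ∧
      ∀ (ω : Place (RatFunc k) N → ℚ) (H : F × F → ℚ),
        (∀ (c r : E) (v : Place (RatFunc k) N), Ov u v → ResTr v X c r →
          H (algebraMap E F c, algebraMap E F r) = ω v) →
        ∑ v ∈ S, ω v * v.deg * φ (clv I v (fun j => aeval X (δ.P j))) =
          u.deg * ∑ p ∈ (δ.map (algebraMap E F)).rts.offDiag,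
            mass φ A (δ.map (algebraMap E F)) p.1 (p.2 - p.1) /
              ncl A (δ.map (algebraMap E F)) p.1 (p.2 - p.1) * H (p.1, p.2 - p.1) := by
  classical
  obtain ⟨S, hS⟩ := h.exists_over u
  refine ⟨S, hS, fun ω H hH => ?_⟩
  set f : E →+* F := algebraMap E F with hf
  have hfi : Function.Injective f := (algebraMap E F).injective
  set δ' := δ.map f with hδ'
  have hm : ∀ y, y ∈ δ'.rts ↔ ∃ x ∈ δ.rts, f x = y := bsum_rts h.spl
  have hoff : δ'.rts.offDiag = δ.rts.offDiag.image (Prod.map f f) := by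
    ext ⟨y, y'⟩
    simp only [Finset.mem_offDiag, Finset.mem_image, Prod.exists, Prod.map_apply, Prod.mk.injEq,
      hm]
    constructor
    · rintro ⟨⟨x, hx, rfl⟩, ⟨x', hx', rfl⟩, hne⟩
      exact ⟨x, x', ⟨hx, hx', fun h => hne (by rw [h])⟩, rfl, rfl⟩
    · rintro ⟨x, x', ⟨hx, hx', hne⟩, rfl, rfl⟩
      exact ⟨⟨x, hx, rfl⟩, ⟨x', hx', rfl⟩, fun h => hne (hfi h)⟩
  have hinj : Function.Injective (Prod.map f f) := hfi.prodMap hfi
  let n : Place (RatFunc k) N → ℕ := fun v =>
    (δ.rts.offDiag.filter fun q => ResTr v X q.1 (q.2 - q.1)).card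
  have hncl : ∀ (v : Place (RatFunc k) N), Ov u v → ∀ c r : E, ResTr v X c r →
      ncl A δ' (f c) (f r) = n v := by
    intro v hv c r hr
    rw [ncl, hoff, Finset.filter_image, Finset.card_image_of_injective _ hinj]
    congr 1
    refine Finset.filter_congr fun q _ => ?_
    rw [resTr_iff h hv hr, ← blift_eqv u A hA, map_sub]
    rfl
  have hn : ∀ v, Ov u v → (n v : ℚ) ≠ 0 := by
    intro v hv
    obtain ⟨b, hb, hbv⟩ := hv.nontriv
    obtain ⟨p, hp, hp'⟩ := gl_class h v b hb hbv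
    have h1 : 0 < n v := Finset.card_pos.2 ⟨p, Finset.mem_filter.2 ⟨hp, hp'⟩⟩
    exact_mod_cast h1.ne'
  have key : ∀ p ∈ δ.rts.offDiag, (u.deg : ℚ) * (mass φ A δ' (f p.1) (f p.2 - f p.1) /
      ncl A δ' (f p.1) (f p.2 - f p.1) * H (f p.1, f p.2 - f p.1)) =
      ∑ v ∈ S, if ResTr v X p.1 (p.2 - p.1) then
        ω v * v.deg * φ (clv I v (fun j => aeval X (δ.P j))) / n v else 0 := by
    intro p _
    have hsub : f p.2 - f p.1 = f (p.2 - p.1) := by rw [hf, map_sub]
    rw [hsub]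
    by_cases hex : ∃ v : Place (RatFunc k) N, Ov u v ∧ ResTr v X p.1 (p.2 - p.1)
    · obtain ⟨v, hv, hr⟩ := hex
      rw [Finset.sum_eq_single v]
      · rw [if_pos hr, hncl v hv _ _ hr, hH _ _ v hv hr]
        have h1 := bsum_mass hI h hA φ hv hr
        calc (u.deg : ℚ) * (mass φ A δ' (f p.1) (f (p.2 - p.1)) / n v * ω v) =
            (u.deg * mass φ A δ' (f p.1) (f (p.2 - p.1))) * (ω v / n v) := by ring
          _ = (v.deg * φ (clv I v (fun j => aeval X (δ.P j)))) * (ω v / n v) := by rw [h1]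
          _ = _ := by ring
      · intro v' hv' hne
        rw [if_neg]
        intro hr'
        exact hne (gl_unique h ((hS v').1 hv') hv hr' hr)
      · intro hnS
        exact absurd ((hS v).2 hv) hnS
    · push Not at hex
      rw [bsum_mass_zero h hA φ hex, zero_div, zero_mul, mul_zero]
      symm
      refine Finset.sum_eq_zero fun v hv => ?_
      rw [if_neg (hex v ((hS v).1 hv))]
  rw [hoff, Finset.sum_image (fun x _ y _ hxy => hinj hxy), Finset.mul_sum]
  simp only [Prod.map_fst, Prod.map_snd]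
  rw [Finset.sum_congr rfl key, Finset.sum_comm]
  refine Finset.sum_congr rfl fun v hv => ?_
  rw [← Finset.sum_filter, Finset.sum_const, nsmul_eq_mul]
  rw [mul_div_cancel₀]
  exact hn v ((hS v).1 hv)

end

end Pool.Agent.TT
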