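import Mathlib
import Pool.Agent.TT.BField
import Pool.Agent.TT.BGood
import Pool.Agent.TT.BSum
import Pool.Agent.TT.LemV
import Pool.Agent.TT.Mass

set_option autoImplicit false
set_option linter.unusedSectionVars false
set_option linter.style.haveILetI false

/-! TT-27 (block B, helper16). The total mass is `b` times the class of the curve: reduce to a function field
`E` containing everything, `u` the place of `E` below `A`, and compare with a place of good reduction
(`g ∈ E^*` with divisor `m (deg u' u - deg u u')`). -/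

namespace Pool.Agent.TT

open Pool.Agent.Helper16 Pool.Agent.Helper16.BB Pool.Agent.ThF Polynomial

section

variable {k σ : Type} [Field k] [Finite k] [Finite σ] {I : Set (MvPolynomial σ (RatFunc k))}

/-- The trivial valuation ring. -/
theorem total_mass_top (hI : ∀ P ∈ I, ∃ d, P.IsHomogeneous d) {L : Type} [Field L] [IsAlgClosed L]
    [Algebra k L] (φ : Quo (wOne σ) I →ₗ[ℚ] ℚ) (δ : CD σ L)
    (hδ : δ.Ok (k := k) I) {e : ℕ} {τ : Quo (wOne σ) I}
    (h : TRel I δ.al δ.be δ.P e τ) :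
    ∑ p ∈ (open scoped Classical in δ.rts.offDiag), mass φ ⊤ δ p.1 (p.2 - p.1) /
      ncl ⊤ δ p.1 (p.2 - p.1) = e * φ τ := by
  classical
  let π : Pl k L L :=
    { A := ⊤
      r := ValuationSubring.subtype ⊤
      loc := fun x => by
        have h1 : (⊤ : ValuationSubring L).valuation (x : L) < 1 ↔ (x : L) = 0 := by
          constructor
          · intro h2
            by_contra h3
            have h4 : (⊤ : ValuationSubring L).valuation (x : L)⁻¹ ≤ 1 :=
              ((⊤ : ValuationSubring L).valuation_le_one_iff _).2 trivial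
            rw [map_inv₀] at h4
            exact absurd h2 (not_lt.2 ((inv_le_one₀ (zero_lt_iff.2
              ((Valuation.ne_zero_iff _).2 h3))).1 h4))
          · intro h2
            rw [h2, map_zero]
            exact zero_lt_one
        rw [h1]
        rfl
      hk := fun a => ⟨trivial, rfl⟩ }
  have hSp : ∀ x : L, π.Sp x x := fun x => ⟨trivial, rfl⟩
  have hval1 : ∀ x : L, x ≠ 0 → (⊤ : ValuationSubring L).valuation x = 1 := by
    intro x hx
    refine le_antisymm (((⊤ : ValuationSubring L).valuation_le_one_iff _).2 trivial) ?_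
    have h4 : (⊤ : ValuationSubring L).valuation x⁻¹ ≤ 1 :=
      ((⊤ : ValuationSubring L).valuation_le_one_iff _).2 trivial
    rw [map_inv₀] at h4
    exact (inv_le_one₀ (zero_lt_iff.2 ((Valuation.ne_zero_iff _).2 hx))).1 h4
  have hM : ∀ c r : L, r ≠ 0 → MRel I ⊤ δ c r e τ := by
    intro c r hr
    have h1 := (trel_affine hI c r hr).2 h
    have hV := trel_val hI h1
    refine ⟨L, inferInstance, inferInstance, π, tr c r δ.al, tr c r δ.be,
      fun j => tr c r (δ.P j), rfl, ⟨hr, hV.nc, hV.ne, 1, 1, one_ne_zero, one_ne_zero, ?_, ?_,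
        fun j => ?_⟩, h1⟩
    all_goals
      rw [C_1, one_mul]
      exact fun i => hSp _
  have hE : ∀ p ∈ δ.rts.offDiag, ∀ q ∈ δ.rts.offDiag,
      Eqv ⊤ p.1 (p.2 - p.1) q.1 (q.2 - q.1) := by
    intro p hp q hq
    have h1 : p.2 - p.1 ≠ 0 := sub_ne_zero.2 (Finset.mem_offDiag.1 hp).2.2.symm
    have h2 : q.2 - q.1 ≠ 0 := sub_ne_zero.2 (Finset.mem_offDiag.1 hq).2.2.symm
    refine ⟨by rw [hval1 _ h1, hval1 _ h2], ?_⟩
    rw [hval1 _ h1]
    exact ((⊤ : ValuationSubring L).valuation_le_one_iff _).2 trivial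
  have hncl : ∀ p ∈ δ.rts.offDiag, ncl ⊤ δ p.1 (p.2 - p.1) = δ.rts.offDiag.card := by
    intro p hp
    rw [ncl, Finset.filter_true_of_mem fun q hq => hE p hp q hq]
  have hne : 0 < δ.rts.offDiag.card := by
    have h1 : VC ⊤ δ 0 1 := (vc_iff hI hδ.fam hδ.ne 0 1).2 ⟨e, τ, hM 0 1 one_ne_zero⟩
    obtain ⟨p, hp, -⟩ := lemma_V hδ h1
    exact Finset.card_pos.2 ⟨p, hp⟩
  have hterm : ∀ p ∈ δ.rts.offDiag, mass φ ⊤ δ p.1 (p.2 - p.1) / ncl ⊤ δ p.1 (p.2 - p.1) =
      (e * φ τ) / δ.rts.offDiag.card := by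
    intro p hp
    rw [hncl p hp, mass_eq hI φ (hM _ _ (sub_ne_zero.2 (Finset.mem_offDiag.1 hp).2.2.symm))]
  rw [Finset.sum_congr rfl hterm, Finset.sum_const, nsmul_eq_mul]
  have h3 : (δ.rts.offDiag.card : ℚ) ≠ 0 := by exact_mod_cast hne.ne'
  rw [mul_div_cancel₀ _ h3]

/-- Total mass (block B). -/
theorem total_mass (hI : ∀ P ∈ I, ∃ d, P.IsHomogeneous d) {L : Type} [Field L] [IsAlgClosed L]
    [Algebra k L] [Algebra (RatFunc k) L] [IsScalarTower k (RatFunc k) L]
    [Algebra.IsAlgebraic (RatFunc k) L] (φ : Quo (wOne σ) I →ₗ[ℚ] ℚ) (δ : CD σ L)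
    (hδ : δ.Ok (k := k) I) (A : ValuationSubring L) {e : ℕ} {τ : Quo (wOne σ) I}
    (h : TRel I δ.al δ.be δ.P e τ) :
    ∑ p ∈ (open scoped Classical in δ.rts.offDiag), mass φ A δ p.1 (p.2 - p.1) /
      ncl A δ p.1 (p.2 - p.1) = e * φ τ := by
  classical
  by_cases hA : A = ⊤
  · subst hA
    exact total_mass_top hI φ δ hδ h
  obtain ⟨E, _, Δ', hΔ, hok, hspl, -⟩ := exists_dataE (k := k) (I := I) (fun _ : Fin 1 => δ)
    (fun _ => hδ) ∅
  have hδ' := hΔ 0
  set δ' := Δ' 0 with hδ'def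
  have hst : IsScalarTower k E L := IsScalarTower.of_algebraMap_eq fun a => by
    rw [IsScalarTower.algebraMap_apply k (RatFunc k) L,
      IsScalarTower.algebraMap_apply k (RatFunc k) E]
    rfl
  have hE : IsFunctionField k E := (isFunctionField_K (k := k)).of_finite
  obtain ⟨u, hu⟩ := exists_below (k := k) E A hA
  obtain ⟨N, _, _, _, _, _, _, X, hG⟩ := exists_gl hE δ' (hok 0) (hspl 0)
  obtain ⟨M, hM⟩ := gl_const hI hG φ
  -- the sum at `u`
  obtain ⟨S, hS, hsum⟩ := gl_sum hI hG u A hu φ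
  have h1 := hsum (fun _ => 1) (fun _ => 1) (fun _ _ _ _ _ => rfl)
  simp only [one_mul, mul_one] at h1
  rw [hM u S hS, ← hδ'] at h1
  have hdu : (0 : ℚ) < u.deg := by exact_mod_cast u.deg_pos hE
  have h2 := mul_left_cancel₀ hdu.ne' h1
  rw [← h2]
  -- the place of good reduction
  have hτ' : TRel I δ'.al δ'.be δ'.P e τ := by
    rw [hδ'] at h
    exact (trel_map hI (E.val.restrictScalars k)).1 h
  obtain ⟨u₁, a, b, Q, hV, hT, hv⟩ := gl_good hI hG hτ'
  obtain ⟨v₁, hv₁, hr₁⟩ := gl_place hG u₁ hV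
  have hS₁ : ∀ v, v ∈ ({v₁} : Finset (Place (RatFunc k) N)) ↔ Ov u₁ v := by
    intro v
    rw [Finset.mem_singleton]
    constructor
    · rintro rfl
      exact hv₁
    · intro hv'
      exact gl_unique hG hv' hv₁ (hv v hv') hr₁
  have h3 := hM u₁ _ hS₁
  rw [Finset.sum_singleton, gl_deg hG hv₁ hr₁ hV hT, gl_cls hI hG hv₁ hr₁ hV hT] at h3
  have hd₁ : (0 : ℚ) < u₁.deg := by exact_mod_cast u₁.deg_pos hE
  apply mul_left_cancel₀ hd₁.ne'
  rw [← h3]
  push_cast
  ring

end

end Pool.Agent.TT
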