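import Mathlib
import Pool.Agent.TT.FR0
import Pool.Agent.TT.FRCoarseB
import Pool.Agent.TT.FRCoarseC
import Pool.Agent.TT.TotalMass

set_option autoImplicit false
set_option linter.unusedSectionVars false

/-! TT-26. Let `π : F → L` be the surjective place of `B` (`exists_pl`); `L` is algebraically closed (`F` is: lift a monic
polynomial) and algebraic over `RatFunc k` (`halg`; `RatFunc k → L` by `hK`). `A = π.pull A'` (`exists_pull`). Every vertex
pair of `A` is one of `B` (`vc_comp`). As `A ≤ B`, `A`-equivalent pairs are `B`-equivalent, and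
`gv B` is the value of the same element `m ^ b / u` as `gv A` (`exists_gv`, `gv_eq`: comparisons for `A` imply those
for `B`). So `F_B`-values: raise `v_A(g)^n = ∏ gv_A^z` to `v_B(g)^n = ∏ gv_B^z` (apply `mapOfLE`), and group the
pairs by `B`-classes: it remains to show, for every pair `p₀` in `δ.rts.offDiag` which is a vertex of `B`:
`∑ over p ∈ δ.rts.offDiag, p ∼_B p₀, of mass φ A δ p / ncl A δ p = mass φ B δ p₀`; (for pairs which are not
vertices of `B` all masses are zero; then `∏_p gv_B(p)^(mass_A(p)/ncl_A(p)) = ∏_p gv_B(p)^(mass_B(p)/ncl_B(p))`, as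
`gv_B` is constant on `B`-classes, `gv_eqv`).
Let `Vred π δ p₀.1 (p₀.2 - p₀.1) a b Q` be the reduction, `TRel I a b Q e τ`, `mass φ B δ p₀ = e φ(τ)`; write `a = G a'`,
`b = G b'` with coprime `a'`, `b'`, `δ' = ⟨a', b', Q, s'⟩`, `δ'.Ok`. `total_mass` for `δ'` and `A'`:
`∑ over q ∈ δ'.rts.offDiag of mass φ A' δ' q / ncl A' δ' q = e φ(τ)`. Both sums are sums over classes of vertices: for
`p ∼_B p₀` let `q = ` residues of `((p.1 - p₀.1)/(p₀.2 - p₀.1), (p.2 - p₀.1)/(p₀.2 - p₀.1))` — a pair `(x, y)` of elements of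
`L`, `x ≠ y`. By `mrel_comp` and `mrel_mul` `(p.1, p.2 - p.1)` is an `A`-vertex with `e₁`, `τ₁` iff `(x, y - x)` is an
`A'`-vertex of `δ'` with `e₁`, `τ₁`, and `∼_A` corresponds to `∼_A'`. Conversely every `A'`-vertex class of `δ'` is the
image of some `p` in `δ.rts.offDiag` with `p ∼_B p₀`: lift a pair `(x, y - x)` to `F`, get an `A`-vertex of `δ`, and
apply `lemma_V` (TT-15); and every `A'`-vertex is equivalent to some `q ∈ δ'.rts.offDiag` (`lemma_V` for `δ'`). The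
combinatorial lemma: `∑_{p ∈ S} m(p) / #(class of p in S) = ∑ over classes meeting S`, for both.
Please split this module if you like (combinatorial lemma; correspondence of classes). -/

namespace Pool.Agent.TT

open Pool.Agent.Helper16 Pool.Agent.Helper16.BB Pool.Agent.ThF Polynomial

variable {k σ : Type} [Field k] [Finite k] [Finite σ] {I : Set (MvPolynomial σ (RatFunc k))}
variable {F : Type} [Field F] [IsAlgClosed F] [Algebra k F]

open scoped Classical in
/-- The sum of the masses for `A` over a class for `B`. -/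
theorem frcoarse_sum [Algebra (RatFunc k) F] [IsScalarTower k (RatFunc k) F]
    (hI : ∀ P ∈ I, ∃ d, P.IsHomogeneous d) (φ : Quo (wOne σ) I →ₗ[ℚ] ℚ) (δ : CD σ F)
    (hδ : δ.Ok (k := k) I) {L : Type} [Field L] [Algebra k L] (π : Pl k F L) (hπ : π.Surj)
    (A' : ValuationSubring L)
    (hK : ∀ c : RatFunc k, algebraMap (RatFunc k) F c ∈ π.A)
    (halg : ∀ x ∈ π.A, ∃ p : (RatFunc k)[X], p ≠ 0 ∧ π.A.valuation (aeval x p) < 1) {p₀ : F × F}
    (hp₀ : p₀ ∈ δ.rts.offDiag) :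
    ∑ p ∈ δ.rts.offDiag.filter (fun p => Eqv π.A p₀.1 (p₀.2 - p₀.1) p.1 (p.2 - p.1)),
      mass φ (π.pull A') δ p.1 (p.2 - p.1) / ncl (π.pull A') δ p.1 (p.2 - p.1) =
    mass φ π.A δ p₀.1 (p₀.2 - p₀.1) := by
  haveI := frcoarse_algClosed π hπ
  obtain ⟨_, _, _⟩ := frcoarse_alg π hπ hK halg
  by_cases hv : ∃ e τ, MRel I π.A δ p₀.1 (p₀.2 - p₀.1) e τ
  · obtain ⟨e, τ, hM⟩ := hv
    obtain ⟨a, b, Q, hV, hT⟩ := (mrel_iff hI π hπ).1 hM
    have hval := vred_val hI hδ.fam hV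
    have ha0 : a ≠ 0 := by
      rintro rfl
      obtain ⟨i, j, hij⟩ := hval.nc
      exact hij (by simp)
    obtain ⟨G, a', b', U, W, hGm, ha, hb, hbez⟩ := exists_gcd a b ha0
    have hG : G ≠ 0 := hGm.ne_zero
    have hcop : IsCoprime a' b' := ⟨U, W, hbez⟩
    have hnc : ∃ i j, a'.coeff i * b'.coeff j ≠ a'.coeff j * b'.coeff i := by
      by_contra hc
      push Not at hc
      obtain ⟨i, j, hij⟩ := hval.nc
      refine hij ((meqv_prop_iff a b).2 ?_ i j)
      rcases (meqv_prop_iff a' b').1 hc with h | ⟨u, h⟩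
      · left
        rw [ha, h, mul_zero]
      · right
        refine ⟨u, ?_⟩
        rw [hb, h, ha]
        ring
    have hfam : IsFam I a' b' Q := by
      have h1 := isFam_mul hI a' b' Q G 1 hG one_ne_zero hnc
      simp only [one_mul] at h1
      rw [← h1, ← ha, ← hb]
      exact hval.fam
    have hδ' : (⟨a', b', Q, 0⟩ : CD σ L).Ok (k := k) I := by
      refine ⟨hfam, hcop, ?_, hval.ne⟩
      rw [Nat.pos_iff_ne_zero]
      intro h0
      have h1 : max a'.natDegree b'.natDegree = 0 := h0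
      have h2 : a'.natDegree = 0 := by omega
      have h3 : b'.natDegree = 0 := by omega
      rw [Polynomial.natDegree_eq_zero] at h2 h3
      obtain ⟨u, rfl⟩ := h2
      obtain ⟨w, rfl⟩ := h3
      obtain ⟨i, j, hij⟩ := hnc
      apply hij
      simp only [coeff_C]
      split_ifs <;> ring
    have hT' : TRel I a' b' Q e τ := by
      have h1 := trel_mul (I := I) (a := a') (b := b') (Q := Q) (e := e) (τ := τ) G hG 1
        one_ne_zero
      simp only [C_1, one_mul] at h1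
      rw [← h1, ← ha, ← hb]
      exact hT
    rw [frcoarse_class hI φ hδ π hπ A' hV hG ha hb rfl hδ', mass_eq hI φ hM]
    exact total_mass hI φ ⟨a', b', Q, 0⟩ hδ' A' hT'
  · rw [mass_eq_zero φ hv]
    refine Finset.sum_eq_zero fun p hp => ?_
    obtain ⟨hp1, hp2⟩ := Finset.mem_filter.1 hp
    rw [mass_eq_zero φ, zero_div]
    rintro ⟨e, τ, h⟩
    obtain ⟨e', τ', h'⟩ := (vc_iff hI hδ.fam hδ.ne _ _).1
      (vc_comp π A' ((vc_iff hI hδ.fam hδ.ne _ _).2 ⟨e, τ, h⟩))
    exact hv ⟨e', τ', (mrel_eqv hI hp2 (fr0_sub hp₀)).2 h'⟩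

/-- R3. Coarsening to a valuation ring with residue field algebraic over `K`. -/
theorem frel_coarse [Algebra (RatFunc k) F] [IsScalarTower k (RatFunc k) F]
    (hI : ∀ P ∈ I, ∃ d, P.IsHomogeneous d) (φ : Quo (wOne σ) I →ₗ[ℚ] ℚ) (δ : CD σ F)
    (hδ : δ.Ok (k := k) I) {A B : ValuationSubring F} (hAB : A ≤ B)
    (hK : ∀ c : RatFunc k, algebraMap (RatFunc k) F c ∈ B)
    (halg : ∀ x ∈ B, ∃ p : (RatFunc k)[X], p ≠ 0 ∧ B.valuation (aeval x p) < 1) {g : F}
    (h : FRel φ A δ g) : FRel φ B δ g := by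
  classical
  obtain ⟨hg, n, z, hn, hz, hv⟩ := h
  obtain ⟨L, iL, iaL, π, hπA, hπ⟩ := exists_pl (k := k) B
  subst hπA
  obtain ⟨A', rfl⟩ := exists_pull π hπ hAB
  -- comparison for `B`
  have hG : ∀ p : F × F, ∃ x : F, p ∈ δ.rts.offDiag →
      gv (π.pull A') δ p.1 (p.2 - p.1) = (π.pull A').valuation x ∧
      gv π.A δ p.1 (p.2 - p.1) = π.A.valuation x := by
    intro p
    by_cases hp : p ∈ δ.rts.offDiag
    · obtain ⟨m, u, hm, hm0, hu, hi, h1, h2, h3, h4⟩ :=
        exists_gv (π.pull A') (fr0_be hp) p.1 (fr0_sub hp)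
      exact ⟨m ^ δ.b / u, fun _ => ⟨h4, gv_eq hm (vciff_mono hAB h1) (vciff_mono hAB h2) hi
        fun i => vciff_mono hAB (h3 i)⟩⟩
    · exact ⟨0, fun h => absurd h hp⟩
  choose G hG using hG
  have hv' : π.A.valuation g ^ n = ∏ p ∈ δ.rts.offDiag, gv π.A δ p.1 (p.2 - p.1) ^ z p := by
    have h1 : (π.pull A').valuation (g ^ n) =
        (π.pull A').valuation (∏ p ∈ δ.rts.offDiag, G p ^ z p) := by
      rw [map_pow, hv, map_prod]
      refine Finset.prod_congr rfl fun p hp => ?_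
      rw [map_zpow₀, (hG p hp).1]
    have h2 := vciff_mono_eq hAB h1
    rw [map_pow, map_prod] at h2
    rw [h2]
    refine Finset.prod_congr rfl fun p hp => ?_
    rw [map_zpow₀, (hG p hp).2]
  obtain ⟨n', w, hn', hw⟩ := fr0_den δ.rts.offDiag
    (fun p => mass φ π.A δ p.1 (p.2 - p.1) / ncl π.A δ p.1 (p.2 - p.1))
  refine ⟨hg, n', w, hn', hw, ?_⟩
  have h1 : (π.A.valuation g ^ n') ^ n =
      (∏ p ∈ δ.rts.offDiag, gv π.A δ p.1 (p.2 - p.1) ^ w p) ^ n := by
    rw [← pow_mul, mul_comm n' n, pow_mul, hv', ← Finset.prod_pow, ← Finset.prod_pow]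
    have h2 : ∀ (y : F × F → ℤ) (N : ℕ), ∏ p ∈ δ.rts.offDiag, (gv π.A δ p.1 (p.2 - p.1) ^ y p) ^ N =
        ∏ p ∈ δ.rts.offDiag, gv π.A δ p.1 (p.2 - p.1) ^ (y p * N) := by
      intro y N
      refine Finset.prod_congr rfl fun p hp => ?_
      rw [zpow_mul, zpow_natCast]
    rw [h2, h2]
    refine frcoarse_prod _ (fun p q => Eqv π.A p.1 (p.2 - p.1) q.1 (q.2 - q.1))
      (fun p => eqv_refl _ _ _) (fun p q => eqv_symm) (fun p q r => eqv_trans) _
      (fun p hp => fr0_gv hp) (fun p hp q hq hE => gv_eqv hE (fr0_sub hp)) _ _ ?_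
    intro p₀ hp₀
    have h3 := frcoarse_sum hI φ δ hδ π hπ A' hK halg hp₀
    have h4 : ((∑ q ∈ δ.rts.offDiag.filter
        (fun q => Eqv π.A p₀.1 (p₀.2 - p₀.1) q.1 (q.2 - q.1)), z q * (n' : ℤ) : ℤ) : ℚ) =
        n * n' * mass φ π.A δ p₀.1 (p₀.2 - p₀.1) := by
      rw [← h3, Finset.mul_sum]
      push_cast
      refine Finset.sum_congr rfl fun p hp => ?_
      rw [hz p (Finset.mem_filter.1 hp).1]
      ring
    have h5 : ((∑ q ∈ δ.rts.offDiag.filter
        (fun q => Eqv π.A p₀.1 (p₀.2 - p₀.1) q.1 (q.2 - q.1)), w q * (n : ℤ) : ℤ) : ℚ) =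
        n * n' * mass φ π.A δ p₀.1 (p₀.2 - p₀.1) := by
      have hcard : ((δ.rts.offDiag.filter
          (fun q => Eqv π.A p₀.1 (p₀.2 - p₀.1) q.1 (q.2 - q.1))).card : ℚ) =
          ncl π.A δ p₀.1 (p₀.2 - p₀.1) := rfl
      have hncl : (ncl π.A δ p₀.1 (p₀.2 - p₀.1) : ℚ) ≠ 0 := by
        rw [Nat.cast_ne_zero]
        exact (ncl_pos π.A δ hp₀).ne'
      push_cast
      have h6 : ∀ p ∈ δ.rts.offDiag.filter
          (fun q => Eqv π.A p₀.1 (p₀.2 - p₀.1) q.1 (q.2 - q.1)), (w p : ℚ) * n =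
          n' * (mass φ π.A δ p₀.1 (p₀.2 - p₀.1) / ncl π.A δ p₀.1 (p₀.2 - p₀.1)) * n := by
        intro p hp
        obtain ⟨hp1, hp2⟩ := Finset.mem_filter.1 hp
        rw [hw p hp1, ← ncl_eqv δ hp2,
          mass_congr hI φ (fun e τ => mrel_eqv hI hp2 (fr0_sub hp₀))]
      rw [Finset.sum_congr rfl h6, Finset.sum_const, nsmul_eq_mul, hcard]
      field_simp
    exact_mod_cast h4.trans h5.symm
  exact (pow_left_inj₀ zero_le zero_le hn.ne').1 h1

end Pool.Agent.TT
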