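import Mathlib
import Pool.Agent.TT.BDefs
import Pool.Agent.ThF.StepACore

set_option autoImplicit false
set_option linter.unusedSectionVars false
set_option linter.style.haveILetI false

/-! Project TT, block B: existence of the setting, basic properties. -/

namespace Pool.Agent.TT

open Pool.Agent.Helper16 Pool.Agent.Helper16.BB Pool.Agent.ThF Polynomial

section ok

variable {k E σ : Type} [Field k] [Field E] [Algebra k E]
variable {I : Set (MvPolynomial σ (RatFunc k))} {δ : CD σ E}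

theorem CD.Ok.al_ne (h : δ.Ok (k := k) I) : δ.al ≠ 0 := by
  intro h0
  have h1 := h.cop
  rw [h0, isCoprime_zero_left] at h1
  have h2 := h.pos
  rw [CD.b, h0, natDegree_zero, natDegree_eq_zero_of_isUnit h1] at h2
  exact lt_irrefl _ h2

theorem CD.Ok.be_ne (h : δ.Ok (k := k) I) : δ.be ≠ 0 := by
  intro h0
  have h1 := h.cop
  rw [h0, isCoprime_zero_right] at h1
  have h2 := h.pos
  rw [CD.b, h0, natDegree_zero, natDegree_eq_zero_of_isUnit h1] at h2
  exact lt_irrefl _ h2

theorem CD.Ok.sub_ne (h : δ.Ok (k := k) I) : δ.al - δ.be ≠ 0 := by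
  intro h0
  have h1 := h.cop
  rw [sub_eq_zero.1 h0, isCoprime_self] at h1
  have h2 := h.pos
  rw [CD.b, sub_eq_zero.1 h0, natDegree_eq_zero_of_isUnit h1] at h2
  exact lt_irrefl _ h2

theorem CD.Ok.mul_ne (h : δ.Ok (k := k) I) : δ.al * δ.be * (δ.al - δ.be) ≠ 0 :=
  mul_ne_zero (mul_ne_zero h.al_ne h.be_ne) h.sub_ne

theorem CD.Ok.nc (h : δ.Ok (k := k) I) :
    ∃ i j, δ.al.coeff i * δ.be.coeff j ≠ δ.al.coeff j * δ.be.coeff i := by
  by_contra hcon
  push Not at hcon
  have h1 : C (δ.be.leadingCoeff) * δ.al = C (δ.al.coeff δ.be.natDegree) * δ.be := by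
    ext i
    rw [coeff_C_mul, coeff_C_mul]
    have := hcon i δ.be.natDegree
    rw [coeff_natDegree] at this
    linear_combination this
  have h2 : δ.be.leadingCoeff ≠ 0 := leadingCoeff_ne_zero.2 h.be_ne
  have h3 : δ.be ∣ δ.al := by
    refine ⟨C (δ.be.leadingCoeff)⁻¹ * C (δ.al.coeff δ.be.natDegree), ?_⟩
    calc δ.al = C (δ.be.leadingCoeff)⁻¹ * (C (δ.be.leadingCoeff) * δ.al) := by
          rw [← mul_assoc, ← C_mul, inv_mul_cancel₀ h2, C_1, one_mul]
      _ = _ := by rw [h1]; ring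
  have h4 : IsUnit δ.be := h.cop.isUnit_of_dvd' h3 dvd_rfl
  have h5 : δ.al.coeff δ.be.natDegree ≠ 0 := by
    intro h0
    rw [h0, C_0, zero_mul] at h1
    exact (mul_ne_zero (by simpa using h2) h.al_ne) h1
  have h6 : δ.al ∣ δ.be := by
    refine ⟨C (δ.al.coeff δ.be.natDegree)⁻¹ * C (δ.be.leadingCoeff), ?_⟩
    calc δ.be = C (δ.al.coeff δ.be.natDegree)⁻¹ * (C (δ.al.coeff δ.be.natDegree) * δ.be) := by
          rw [← mul_assoc, ← C_mul, inv_mul_cancel₀ h5, C_1, one_mul]
      _ = _ := by rw [← h1]; ring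
  have h7 : IsUnit δ.al := h.cop.isUnit_of_dvd' dvd_rfl h6
  have h8 := h.pos
  rw [CD.b, natDegree_eq_zero_of_isUnit h4, natDegree_eq_zero_of_isUnit h7] at h8
  exact lt_irrefl _ h8

theorem CD.mem_rts {x : E} (h : δ.Ok (k := k) I) :
    x ∈ δ.rts ↔ (δ.al * δ.be * (δ.al - δ.be)).eval x = 0 := by
  classical
  rw [CD.rts]
  refine Multiset.mem_toFinset.trans ?_
  rw [mem_roots h.mul_ne, IsRoot.def]

end ok

/-- B0. -/
theorem exists_gl {k E σ : Type} [Field k] [Field E] [Algebra k E]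
    {I : Set (MvPolynomial σ (RatFunc k))} (hE : IsFunctionField k E) (δ : CD σ E)
    (hδ : δ.Ok (k := k) I) (hspl : (δ.al * δ.be * (δ.al - δ.be)).Splits) :
    ∃ (N : Type) (_ : Field N) (_ : Algebra k N) (_ : Algebra E N) (_ : Algebra (RatFunc k) N)
      (_ : IsScalarTower k E N) (_ : IsScalarTower k (RatFunc k) N) (X : N), Gl I δ X := by
  have hXtr := ratFunc_X_transcendental E
  have hβX : aeval (RatFunc.X : RatFunc E) δ.be ≠ 0 := fun h => hXtr ⟨δ.be, hδ.be_ne, h⟩
  set τ : RatFunc E := aeval (RatFunc.X : RatFunc E) δ.al / aeval (RatFunc.X : RatFunc E) δ.be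
    with hτ
  have hτtr : Transcendental E τ := by
    apply stepA_transcendental RatFunc.X τ hXtr δ.al δ.be hδ.nc
    rw [hτ, div_mul_cancel₀ _ hβX]
  obtain ⟨N, _, _, _, _, _, _, e, heX, hN, hNL⟩ := exists_twist_algebra E hE τ
    (fun h => hτtr (h.tower_top E))
  have hes : ∀ p : E[X], aeval (e RatFunc.X) p = e (aeval (RatFunc.X : RatFunc E) p) := by
    intro p
    exact aeval_algHom_apply e.toAlgHom RatFunc.X p
  refine ⟨N, inferInstance, inferInstance, inferInstance, inferInstance, inferInstance,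
    inferInstance, e RatFunc.X, hE, hN, hNL, ⟨e, rfl⟩, hδ, hspl, ?_⟩
  rw [tt, heX, hes, hes, ← map_mul, hτ, div_mul_cancel₀ _ hβX]

section gl

variable {k E N σ : Type} [Field k] [Field E] [Field N] [Algebra k E] [Algebra k N] [Algebra E N]
  [Algebra (RatFunc k) N] [IsScalarTower k E N] [IsScalarTower k (RatFunc k) N]
variable {I : Set (MvPolynomial σ (RatFunc k))} {δ : CD σ E} {X : N}

theorem Gl.tr (h : Gl I δ X) : Transcendental E X := by
  obtain ⟨e, rfl⟩ := h.iso
  intro h1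
  apply ratFunc_X_transcendental E
  have h2 := h1.algHom e.symm.toAlgHom
  simpa using h2

theorem Gl.ne (h : Gl I δ X) {G : E[X]} (hG : G ≠ 0) : aeval X G ≠ 0 :=
  fun h1 => h.tr ⟨G, hG, h1⟩

/-- Every element of `N` is a quotient of polynomials in `X`. -/
theorem Gl.frac (h : Gl I δ X) (x : N) : ∃ F G : E[X], G ≠ 0 ∧ x = aeval X F / aeval X G := by
  obtain ⟨e, rfl⟩ := h.iso
  refine ⟨(e.symm x).num, (e.symm x).denom, RatFunc.denom_ne_zero _, ?_⟩
  have hes : ∀ p : E[X], aeval (e RatFunc.X) p = e (algebraMap E[X] (RatFunc E) p) := by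
    intro p
    have h1 : aeval (e RatFunc.X) p = e (aeval (RatFunc.X : RatFunc E) p) :=
      aeval_algHom_apply e.toAlgHom RatFunc.X p
    rw [h1, RatFunc.aeval_X_left_eq_algebraMap]
  rw [hes, hes, ← map_div₀, RatFunc.num_div_denom, AlgEquiv.apply_symm_apply]

theorem Gl.val_tt (_h : Gl I δ X) (v : Place (RatFunc k) N) : v.val (tt k N) = 1 :=
  v.triv _ RatFunc.X_ne_zero

theorem Gl.res_tt (h : Gl I δ X) (v : Place (RatFunc k) N) :
    ¬ IsAlgebraic k (v.res (tt k N)) := by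
  rw [tt, v.res_algebraMap]
  intro h1
  haveI := v.finite_resField h.hN
  let φ : v.resField →ₐ[RatFunc k] AlgebraicClosure (RatFunc k) := IsAlgClosed.lift
  have h2 := h1.algHom (φ.restrictScalars k)
  rw [AlgHom.restrictScalars_apply, φ.commutes] at h2
  exact transcendental_tb h2

theorem Gl.div (h : Gl I δ X) : tt k N = aeval X δ.al / aeval X δ.be := by
  rw [eq_div_iff (h.ne h.ok.be_ne), h.ht]

end gl

end Pool.Agent.TT
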