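import Mathlib
import Pool.Agent.TT.Defs

set_option autoImplicit false
set_option linter.unusedSectionVars false

/-! TT-21. `T` = all nonzero elements among: the coefficients of `δ.al`, `δ.be`, `δ.al - δ.be`, of the `δ.P j`, of
`tr p.1 (p.2 - p.1) δ.be` for `p ∈ δ.rts.offDiag`; the `δ.s`, the elements of `δ.rts`, their differences, the
differences `δ.s - p`; and the coefficients of Bezout polynomials `U`, `W`. Nonzero elements of `T` are units,
so all these are in `π.A`; `δ'` = reductions (`IsFam` as in `vred_val`: the polynomials have coefficients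
in `π.A`). Coprime: reduce the Bezout identity. The degrees are preserved as the leading coefficients are
units. `ρ` = the residue (of the elements of `δ.rts`); it is injective on `δ.rts` as the differences are
units, and maps it onto `δ'.rts`: `δ.al * δ.be * (δ.al - δ.be) = const ∏ (X - x)` reduces to the
corresponding product, with a leading coefficient which is a unit (the product of the leading
coefficients of `δ.al`, `δ.be`, `δ.al - δ.be`). -/

namespace Pool.Agent.TT

open Pool.Agent.Helper16 Pool.Agent.Helper16.BB Pool.Agent.ThF Polynomial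

variable {k σ : Type} [Field k] [Finite k] [Finite σ] {I : Set (MvPolynomial σ (RatFunc k))}
variable {F : Type} [Field F] [Algebra k F]

section Red

variable {F' : Type} [Field F'] [Algebra k F']

/-- The `k`-algebra structure of the valuation ring of a place. -/
noncomputable def redAlg (π : Pl k F F') : Algebra k π.A :=
  ((algebraMap k F).codRestrict π.A.toSubring (fun a => (π.hk a).choose)).toAlgebra

/-- Polynomials with integral coefficients lift. -/
theorem red_lift (π : Pl k F F') (f : F[X]) (h : ∀ i, f.coeff i ∈ π.A) :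
    ∃ g : π.A[X], g.map π.A.subtype = f := by
  have h1 : f ∈ Polynomial.lifts π.A.subtype := by
    rw [Polynomial.lifts_iff_coeff_lifts]
    intro n
    exact ⟨⟨f.coeff n, h n⟩, rfl⟩
  obtain ⟨g, hg⟩ := (Polynomial.mem_lifts _).1 h1
  exact ⟨g, hg⟩

theorem red_spP (π : Pl k F F') (g : π.A[X]) : π.SpP (g.map π.A.subtype) (g.map π.r) := by
  intro i
  rw [coeff_map, coeff_map]
  exact ⟨(g.coeff i).2, rfl⟩

theorem red_r_ne (π : Pl k F F') (x : π.A) (h : π.A.valuation (x : F) = 1) : π.r x ≠ 0 := by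
  intro h1
  rw [π.loc] at h1
  rw [h] at h1
  exact lt_irrefl _ h1

theorem red_natDegree (π : Pl k F F') (g : π.A[X])
    (h : g ≠ 0 → π.A.valuation ((g.map π.A.subtype).leadingCoeff) = 1) :
    (g.map π.r).natDegree = (g.map π.A.subtype).natDegree := by
  have hinj : Function.Injective π.A.subtype := Subtype.val_injective
  rw [natDegree_map_eq_of_injective hinj]
  by_cases hg : g = 0
  · rw [hg]
    simp
  · apply natDegree_map_of_leadingCoeff_ne_zero
    apply red_r_ne
    have h2 := h hg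
    rw [leadingCoeff_map_of_injective hinj] at h2
    exact h2

theorem red_ne_zero (π : Pl k F F') (g : π.A[X]) (hg : g.map π.A.subtype ≠ 0)
    (h : π.A.valuation ((g.map π.A.subtype).leadingCoeff) = 1) : g.map π.r ≠ 0 := by
  have hinj : Function.Injective π.A.subtype := Subtype.val_injective
  intro h1
  have h2 : (g.map π.r).coeff g.natDegree = 0 := by rw [h1, coeff_zero]
  rw [coeff_map] at h2
  rw [leadingCoeff_map_of_injective hinj] at h
  exact red_r_ne π g.leadingCoeff h h2

theorem red_fam (π : Pl k F F') {a b : π.A[X]} {Q : σ → π.A[X]}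
    (h : IsFam I (a.map π.A.subtype) (b.map π.A.subtype) (fun j => (Q j).map π.A.subtype)) :
    IsFam I (a.map π.r) (b.map π.r) (fun j => (Q j).map π.r) := by
  letI : Algebra k π.A := redAlg π
  let f : π.A →ₐ[k] F := ⟨π.A.subtype, fun a => rfl⟩
  let g : π.A →ₐ[k] F' := ⟨π.r, fun a => (π.hk a).choose_spec⟩
  have h1 : IsFam I a b Q := IsFam.of_map f Subtype.val_injective h
  exact IsFam.map h1 g

theorem red_prod (π : Pl k F F') (ρ : F → F') (s : Multiset F)
    (hs : ∀ x ∈ s, ∃ h : x ∈ π.A, π.r ⟨x, h⟩ = ρ x) :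
    ∃ g : π.A[X], g.map π.A.subtype = (s.map (fun a => X - C a)).prod ∧
      g.map π.r = (s.map (fun a => X - C (ρ a))).prod := by
  induction s using Multiset.induction_on with
  | empty => exact ⟨1, by simp, by simp⟩
  | cons x s ih =>
    obtain ⟨g, hg1, hg2⟩ := ih (fun y hy => hs y (Multiset.mem_cons_of_mem hy))
    obtain ⟨hx, hx'⟩ := hs x (Multiset.mem_cons_self x s)
    refine ⟨(X - C ⟨x, hx⟩) * g, ?_, ?_⟩
    · rw [Polynomial.map_mul, hg1, Polynomial.map_sub, map_X, map_C, Multiset.map_cons,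
        Multiset.prod_cons]
      rfl
    · rw [Polynomial.map_mul, hg2, Polynomial.map_sub, map_X, map_C, Multiset.map_cons,
        Multiset.prod_cons, hx']

end Red

theorem red_H_ne {δ : CD σ F} (hδ : δ.Ok (k := k) I) : δ.al * δ.be * (δ.al - δ.be) ≠ 0 := by
  have hpos := hδ.pos
  have hcop := hδ.cop
  have h1 : δ.al ≠ 0 := by
    intro h
    have h2 : IsUnit δ.be := by
      rw [h] at hcop
      exact isCoprime_zero_left.1 hcop
    rw [CD.b, h, natDegree_zero, natDegree_eq_zero_of_isUnit h2] at hpos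
    simp at hpos
  have h2 : δ.be ≠ 0 := by
    intro h
    have h2 : IsUnit δ.al := by
      rw [h] at hcop
      exact isCoprime_zero_right.1 hcop
    rw [CD.b, h, natDegree_zero, natDegree_eq_zero_of_isUnit h2] at hpos
    simp at hpos
  have h3 : δ.al - δ.be ≠ 0 := by
    intro h
    have h4 := sub_eq_zero.1 h
    have h2 : IsUnit δ.al := by
      rw [← h4] at hcop
      exact isCoprime_self.1 hcop
    rw [CD.b, ← h4, natDegree_eq_zero_of_isUnit h2] at hpos
    simp at hpos
  exact mul_ne_zero (mul_ne_zero h1 h2) h3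

/-- Reduction of the data at a place at which finitely many elements are units. -/
theorem exists_red [IsAlgClosed F] (hI : ∀ P ∈ I, ∃ d, P.IsHomogeneous d) (δ : CD σ F)
    (hδ : δ.Ok (k := k) I) :
    ∃ T : Finset F, 0 ∉ T ∧ ∀ (F' : Type) [Field F'] [IsAlgClosed F'] [Algebra k F']
      (π : Pl k F F'), (∀ x ∈ T, π.A.valuation x = 1) →
      ∃ (δ' : CD σ F') (ρ : F → F'), δ'.Ok (k := k) I ∧ δ'.b = δ.b ∧ π.SpD δ δ' ∧
        (∀ x ∈ δ.rts, π.Sp x (ρ x)) ∧ Set.BijOn ρ δ.rts δ'.rts ∧
        (∀ p ∈ δ.rts.offDiag, π.A.valuation (p.2 - p.1) = 1 ∧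
          (δ.s ≠ p.1 → π.A.valuation (δ.s - p.1) = 1) ∧
          ∀ i, (tr p.1 (p.2 - p.1) δ.be).coeff i ≠ 0 →
            π.A.valuation ((tr p.1 (p.2 - p.1) δ.be).coeff i) = 1) := by
  classical
  haveI : Fintype σ := Fintype.ofFinite σ
  obtain ⟨U, W, hUW⟩ := hδ.cop
  set S : Finset F := δ.al.coeffs ∪ δ.be.coeffs ∪ (Finset.univ.biUnion fun j => (δ.P j).coeffs) ∪
    (δ.rts.offDiag.biUnion fun p => (tr p.1 (p.2 - p.1) δ.be).coeffs) ∪ {δ.s} ∪ δ.rts ∪
    (δ.rts.offDiag.image fun p => p.2 - p.1) ∪ (δ.rts.image fun p => δ.s - p) ∪ U.coeffs ∪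
    W.coeffs with hS
  refine ⟨S.erase 0, by simp, ?_⟩
  intro F' _ _ _ π hT
  have hT1 : ∀ x ∈ S, x ≠ 0 → π.A.valuation x = 1 := fun x hx hx0 =>
    hT x (Finset.mem_erase.2 ⟨hx0, hx⟩)
  have hT2 : ∀ x, (x ≠ 0 → x ∈ S) → x ∈ π.A := by
    intro x hx
    by_cases h : x = 0
    · rw [h]; exact zero_mem _
    · exact (π.A.valuation_le_one_iff x).1 (hT1 x (hx h) h).le
  have hal : ∀ i, δ.al.coeff i ≠ 0 → δ.al.coeff i ∈ S := by
    intro i hi
    have := coeff_mem_coeffs hi
    simp only [hS, Finset.mem_union]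
    tauto
  have hbe : ∀ i, δ.be.coeff i ≠ 0 → δ.be.coeff i ∈ S := by
    intro i hi
    have := coeff_mem_coeffs hi
    simp only [hS, Finset.mem_union]
    tauto
  have hU : ∀ i, U.coeff i ≠ 0 → U.coeff i ∈ S := by
    intro i hi
    have := coeff_mem_coeffs hi
    simp only [hS, Finset.mem_union]
    tauto
  have hW : ∀ i, W.coeff i ≠ 0 → W.coeff i ∈ S := by
    intro i hi
    have := coeff_mem_coeffs hi
    simp only [hS, Finset.mem_union]
    tauto
  have hP : ∀ j i, (δ.P j).coeff i ≠ 0 → (δ.P j).coeff i ∈ S := by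
    intro j i hi
    have h1 : (δ.P j).coeff i ∈ Finset.univ.biUnion fun j => (δ.P j).coeffs :=
      Finset.mem_biUnion.2 ⟨j, Finset.mem_univ j, coeff_mem_coeffs hi⟩
    simp only [hS, Finset.mem_union]
    tauto
  have hs : δ.s ∈ S := by
    have h1 : δ.s ∈ ({δ.s} : Finset F) := Finset.mem_singleton_self _
    simp only [hS, Finset.mem_union]
    tauto
  have hrts : ∀ x ∈ δ.rts, x ∈ S := by
    intro x hx
    simp only [hS, Finset.mem_union]
    tauto
  have htr : ∀ p ∈ δ.rts.offDiag, ∀ i, (tr p.1 (p.2 - p.1) δ.be).coeff i ≠ 0 →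
      (tr p.1 (p.2 - p.1) δ.be).coeff i ∈ S := by
    intro p hp i hi
    have h1 : (tr p.1 (p.2 - p.1) δ.be).coeff i ∈
        δ.rts.offDiag.biUnion fun p => (tr p.1 (p.2 - p.1) δ.be).coeffs :=
      Finset.mem_biUnion.2 ⟨p, hp, coeff_mem_coeffs hi⟩
    simp only [hS, Finset.mem_union]
    tauto
  have hd : ∀ p ∈ δ.rts.offDiag, p.2 - p.1 ∈ S := by
    intro p hp
    have h1 : p.2 - p.1 ∈ δ.rts.offDiag.image fun p => p.2 - p.1 := Finset.mem_image_of_mem _ hp
    simp only [hS, Finset.mem_union]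
    tauto
  have hds : ∀ p ∈ δ.rts, δ.s - p ∈ S := by
    intro p hp
    have h1 : δ.s - p ∈ δ.rts.image fun p => δ.s - p := Finset.mem_image_of_mem _ hp
    simp only [hS, Finset.mem_union]
    tauto
  clear_value S
  obtain ⟨gal, hgal⟩ := red_lift π δ.al (fun i => hT2 _ (hal i))
  obtain ⟨gbe, hgbe⟩ := red_lift π δ.be (fun i => hT2 _ (hbe i))
  obtain ⟨gU, hgU⟩ := red_lift π U (fun i => hT2 _ (hU i))
  obtain ⟨gW, hgW⟩ := red_lift π W (fun i => hT2 _ (hW i))
  choose gP hgP using fun j => red_lift π (δ.P j) (fun i => hT2 _ (hP j i))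
  have hinj : Function.Injective π.A.subtype := Subtype.val_injective
  have hsA : δ.s ∈ π.A := hT2 _ (fun _ => hs)
  let ρ : F → F' := fun x => if h : x ∈ π.A then π.r ⟨x, h⟩ else 0
  have hρ : ∀ x ∈ δ.rts, ∃ h : x ∈ π.A, π.r ⟨x, h⟩ = ρ x := by
    intro x hx
    have h1 : x ∈ π.A := hT2 _ (fun _ => hrts x hx)
    refine ⟨h1, ?_⟩
    simp only [ρ]
    rw [dif_pos h1]
  let δ' : CD σ F' := ⟨gal.map π.r, gbe.map π.r, fun j => (gP j).map π.r, π.r ⟨δ.s, hsA⟩⟩
  have hb : δ'.b = δ.b := by
    have h1 : (gal.map π.r).natDegree = δ.al.natDegree := by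
      rw [red_natDegree, hgal]
      intro h0
      have h1 : δ.al ≠ 0 := by
        rw [← hgal]
        exact (Polynomial.map_ne_zero_iff hinj).2 h0
      rw [hgal]
      exact hT1 _ (hal _ (leadingCoeff_ne_zero.2 h1)) (leadingCoeff_ne_zero.2 h1)
    have h2 : (gbe.map π.r).natDegree = δ.be.natDegree := by
      rw [red_natDegree, hgbe]
      intro h0
      have h1 : δ.be ≠ 0 := by
        rw [← hgbe]
        exact (Polynomial.map_ne_zero_iff hinj).2 h0
      rw [hgbe]
      exact hT1 _ (hbe _ (leadingCoeff_ne_zero.2 h1)) (leadingCoeff_ne_zero.2 h1)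
    show max _ _ = max _ _
    rw [← h1, ← h2]
  have hok : δ'.Ok (k := k) I := by
    refine ⟨?_, ?_, ?_, ?_⟩
    · apply red_fam
      rw [hgal, hgbe, funext hgP]
      exact hδ.fam
    · refine ⟨gU.map π.r, gW.map π.r, ?_⟩
      have h1 : gU * gal + gW * gbe = 1 := by
        apply Polynomial.map_injective π.A.subtype hinj
        rw [Polynomial.map_add, Polynomial.map_mul, Polynomial.map_mul, hgU, hgal, hgW, hgbe, hUW,
          Polynomial.map_one]
      have h2 := congrArg (Polynomial.map π.r) h1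
      rw [Polynomial.map_add, Polynomial.map_mul, Polynomial.map_mul, Polynomial.map_one] at h2
      exact h2
    · rw [hb]
      exact hδ.pos
    · obtain ⟨j, hj⟩ := hδ.ne
      refine ⟨j, ?_⟩
      apply red_ne_zero
      · rw [hgP]
        exact hj
      · rw [hgP]
        exact hT1 _ (hP j _ (leadingCoeff_ne_zero.2 hj)) (leadingCoeff_ne_zero.2 hj)
  have hH := red_H_ne hδ
  have hH' := red_H_ne hok
  refine ⟨δ', ρ, hok, hb, ⟨?_, ?_, ?_, ⟨hsA, rfl⟩⟩, hρ, ?_, ?_⟩
  · have := red_spP π gal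
    rwa [hgal] at this
  · have := red_spP π gbe
    rwa [hgbe] at this
  · intro j
    have := red_spP π (gP j)
    rwa [hgP] at this
  · have hroots : ∀ x ∈ (δ.al * δ.be * (δ.al - δ.be)).roots, x ∈ δ.rts := by
      intro x hx
      exact Multiset.mem_toFinset.2 hx
    obtain ⟨g, hg1, hg2⟩ := red_prod π ρ (δ.al * δ.be * (δ.al - δ.be)).roots
      (fun x hx => hρ x (hroots x hx))
    have hfac := (IsAlgClosed.splits (δ.al * δ.be * (δ.al - δ.be))).eq_prod_roots
    have hGH : (gal * gbe * (gal - gbe)).map π.A.subtype = δ.al * δ.be * (δ.al - δ.be) := by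
      rw [Polynomial.map_mul, Polynomial.map_mul, Polynomial.map_sub, hgal, hgbe]
    have hlc : ((gal * gbe * (gal - gbe)).leadingCoeff : F) =
        (δ.al * δ.be * (δ.al - δ.be)).leadingCoeff := by
      rw [← hGH, leadingCoeff_map_of_injective hinj]
      rfl
    have hG : gal * gbe * (gal - gbe) = C (gal * gbe * (gal - gbe)).leadingCoeff * g := by
      apply Polynomial.map_injective π.A.subtype hinj
      rw [hGH, Polynomial.map_mul, map_C, hg1]
      conv_lhs => rw [hfac]
      congr 2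
      exact hlc.symm
    have hG' : δ'.al * δ'.be * (δ'.al - δ'.be) =
        C (π.r (gal * gbe * (gal - gbe)).leadingCoeff) *
          ((δ.al * δ.be * (δ.al - δ.be)).roots.map (fun a => X - C (ρ a))).prod := by
      have h1 := congrArg (Polynomial.map π.r) hG
      rw [Polynomial.map_mul (p := C _), map_C, hg2] at h1
      rw [← h1, Polynomial.map_mul, Polynomial.map_mul, Polynomial.map_sub]
    have hlc' : π.r (gal * gbe * (gal - gbe)).leadingCoeff ≠ 0 := by
      intro h0
      rw [h0, C_0, zero_mul] at hG'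
      exact hH' hG'
    refine ⟨?_, ?_, ?_⟩
    · intro x hx
      have hx1 : x ∈ (δ.al * δ.be * (δ.al - δ.be)).roots := Multiset.mem_toFinset.1 hx
      show ρ x ∈ ((δ'.rts : Finset F') : Set F')
      rw [Finset.mem_coe, CD.rts, Multiset.mem_toFinset, mem_roots hH', IsRoot.def, hG', eval_mul,
        eval_multiset_prod]
      apply mul_eq_zero_of_right
      apply Multiset.prod_eq_zero
      rw [Multiset.mem_map]
      refine ⟨X - C (ρ x), Multiset.mem_map.2 ⟨x, hx1, rfl⟩, ?_⟩
      simp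
    · intro x hx y hy hxy
      by_contra hne
      have hp : ((x, y) : F × F) ∈ δ.rts.offDiag :=
        Finset.mem_offDiag.2 ⟨hx, hy, hne⟩
      obtain ⟨hxA, hx'⟩ := hρ x hx
      obtain ⟨hyA, hy'⟩ := hρ y hy
      have h1 : π.A.valuation (y - x) = 1 := hT1 _ (hd _ hp) (sub_ne_zero.2 (Ne.symm hne))
      have h2 : π.r (⟨y, hyA⟩ - ⟨x, hxA⟩) ≠ 0 := red_r_ne π _ h1
      apply h2
      rw [map_sub, hx', hy', hxy, sub_self]
    · intro y hy
      have hy1 : y ∈ (δ'.rts : Finset F') := hy
      rw [CD.rts, Multiset.mem_toFinset, mem_roots hH', IsRoot.def, hG', eval_mul, eval_C,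
        mul_eq_zero, or_iff_right hlc', eval_multiset_prod, Multiset.prod_eq_zero_iff,
        Multiset.mem_map] at hy1
      obtain ⟨q, hq, hq0⟩ := hy1
      obtain ⟨x, hx, rfl⟩ := Multiset.mem_map.1 hq
      refine ⟨x, hroots x hx, ?_⟩
      rw [eval_sub, eval_X, eval_C, sub_eq_zero] at hq0
      exact hq0.symm
  · intro p hp
    obtain ⟨hp1, hp2, hp3⟩ := Finset.mem_offDiag.1 hp
    refine ⟨hT1 _ (hd p hp) (sub_ne_zero.2 (Ne.symm hp3)), ?_, ?_⟩
    · intro h
      exact hT1 _ (hds _ hp1) (sub_ne_zero.2 h)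
    · intro i hi
      exact hT1 _ (htr p hp i hi) hi

end Pool.Agent.TT
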