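import Mathlib
import Pool.Agent.TT.BBase
import Pool.Agent.TT.Gv
import Pool.Agent.TT.MComp
import Pool.Agent.TT.MEqv
import Pool.Agent.TT.Mass
import Pool.Agent.TT.Red

set_option autoImplicit false
set_option linter.unusedSectionVars false

/-! TT-24. `T`, `δ'`, `ρ` from `exists_red`. `p ↦ (ρ p.1, ρ p.2)` is a bijection of `δ.rts.offDiag` to `δ'.rts.offDiag`.
`Vred π δ 0 1 δ'.al δ'.be δ'.P` (factors `1`; `tr 0 1 f = f`), so `mrel_comp` (TT-14) with `c₀ = 0`, `r₀ = 1` gives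
`MRel I (π.pull A) δ p.1 (p.2 - p.1) e τ ↔ MRel I A δ' (ρ p.1) (ρ p.2 - ρ p.1) e τ` (`⟨δ'.al, δ'.be, δ'.P, δ'.s⟩ = δ'`);
`mass_congr`. `ncl`: `Eqv` is preserved (`pull_val_le`, TT-10). `gv`: by `exists_gv` for `π.pull A` it is the value of
`g_p = m ^ b / u` with `m`, `u` units of `π.A` (if `m = δ.s - p.1` then it is not zero, so it is in `T`), and `gv A δ'` is
the value of its residue (`gv_eq`; `δ'.b = δ.b`, `tr` commutes with the reduction). So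
`v(g)^n = ∏ v(g_p)^z_p` for `π.pull A` iff the same for the residues and `A` (`pull_val_le` both ways; all these
elements are units of `π.A`). -/

namespace Pool.Agent.TT

open Pool.Agent.Helper16 Pool.Agent.Helper16.BB Pool.Agent.ThF Polynomial

variable {k σ : Type} [Field k] [Finite k] [Finite σ] {I : Set (MvPolynomial σ (RatFunc k))}
variable {F : Type} [Field F] [IsAlgClosed F] [Algebra k F]

theorem frred_zpow {F' : Type} [Field F'] [Algebra k F'] {π : Pl k F F'} {x : F} {y : F'}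
    (h : π.Sp x y) (hy : y ≠ 0) (z : ℤ) : π.Sp (x ^ z) (y ^ z) := by
  obtain ⟨n, rfl | rfl⟩ := z.eq_nat_or_neg
  · simpa using h.pow n
  · simpa using (h.pow n).inv (pow_ne_zero n hy)

/-- R4. Reduction along a place at which finitely many elements are units. -/
theorem frel_red (hI : ∀ P ∈ I, ∃ d, P.IsHomogeneous d) (δ : CD σ F) (hδ : δ.Ok (k := k) I) :
    ∃ T : Finset F, 0 ∉ T ∧ ∀ (F' : Type) [Field F'] [IsAlgClosed F'] [Algebra k F']
      (π : Pl k F F'), π.Surj → (∀ x ∈ T, π.A.valuation x = 1) →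
      ∃ δ' : CD σ F', δ'.Ok (k := k) I ∧ δ'.b = δ.b ∧ π.SpD δ δ' ∧
        ∀ (φ : Quo (wOne σ) I →ₗ[ℚ] ℚ) (A : ValuationSubring F') (g : F) (g' : F'), g' ≠ 0 →
          π.Sp g g' → (FRel φ (π.pull A) δ g ↔ FRel φ A δ' g') := by
  classical
  obtain ⟨T, hT0, hT⟩ := exists_red hI δ hδ
  refine ⟨T, hT0, fun F' _ _ _ π hπ hu => ?_⟩
  obtain ⟨δ', ρ, hok, hb, hsp, hρ, hbij, hun⟩ := hT F' π hu
  refine ⟨δ', hok, hb, hsp, fun φ A g g' hg' hgg' => ?_⟩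
  have hinj : ∀ x ∈ δ.rts, ∀ y ∈ δ.rts, ρ x = ρ y → x = y := fun x hx y hy h =>
    hbij.injOn (Finset.mem_coe.2 hx) (Finset.mem_coe.2 hy) h
  have hmaps : ∀ p ∈ δ.rts.offDiag, (ρ p.1, ρ p.2) ∈ δ'.rts.offDiag := by
    intro p hp
    rw [Finset.mem_offDiag] at hp ⊢
    exact ⟨Finset.mem_coe.1 (hbij.mapsTo (Finset.mem_coe.2 hp.1)),
      Finset.mem_coe.1 (hbij.mapsTo (Finset.mem_coe.2 hp.2.1)),
      fun h => hp.2.2 (hinj _ hp.1 _ hp.2.1 h)⟩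
  have hsurj : ∀ q ∈ δ'.rts.offDiag, ∃ p ∈ δ.rts.offDiag, (ρ p.1, ρ p.2) = q := by
    intro q hq
    rw [Finset.mem_offDiag] at hq
    obtain ⟨x, hx, hx'⟩ := hbij.surjOn (Finset.mem_coe.2 hq.1)
    obtain ⟨y, hy, hy'⟩ := hbij.surjOn (Finset.mem_coe.2 hq.2.1)
    refine ⟨(x, y), Finset.mem_offDiag.2 ⟨Finset.mem_coe.1 hx, Finset.mem_coe.1 hy, ?_⟩,
      Prod.ext hx' hy'⟩
    rintro h
    apply hq.2.2
    rw [← hx', ← hy']
    exact congrArg ρ h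
  have hinj2 : ∀ p ∈ δ.rts.offDiag, ∀ q ∈ δ.rts.offDiag,
      (ρ p.1, ρ p.2) = (ρ q.1, ρ q.2) → p = q := by
    intro p hp q hq h
    rw [Finset.mem_offDiag] at hp hq
    rw [Prod.mk.injEq] at h
    exact Prod.ext (hinj _ hp.1 _ hq.1 h.1) (hinj _ hp.2.1 _ hq.2.1 h.2)
  -- specialisations
  have hs1 : ∀ p ∈ δ.rts.offDiag, π.Sp p.1 (ρ p.1) ∧ π.Sp (p.2 - p.1) (ρ p.2 - ρ p.1) ∧
      ρ p.2 - ρ p.1 ≠ 0 := by
    intro p hp
    have hp' := Finset.mem_offDiag.1 hp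
    refine ⟨hρ _ hp'.1, (hρ _ hp'.2.1).sub (hρ _ hp'.1), ?_⟩
    have h1 := Finset.mem_offDiag.1 (hmaps p hp)
    exact sub_ne_zero.2 (Ne.symm h1.2.2)
  have hV : Vred π δ 0 1 δ'.al δ'.be δ'.P := by
    have htr : ∀ f : F[X], C (1 : F) * tr 0 1 f = f := by
      intro f
      unfold tr
      simp
    refine ⟨one_ne_zero, hok.nc, hok.ne, 1, 1, one_ne_zero, one_ne_zero, ?_, ?_, fun j => ?_⟩
    · rw [htr]; exact hsp.al
    · rw [htr]; exact hsp.be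
    · rw [htr]; exact hsp.P j
  -- masses
  have hmass : ∀ p ∈ δ.rts.offDiag, mass φ (π.pull A) δ p.1 (p.2 - p.1) =
      mass φ A δ' (ρ p.1) (ρ p.2 - ρ p.1) := by
    intro p hp
    obtain ⟨h1, h2, h3⟩ := hs1 p hp
    refine mass_congr hI φ fun e τ => ?_
    have h4 := mrel_comp hI π hπ hV δ'.s h1 h2 h3 A (e := e) (τ := τ)
    rw [zero_add, one_mul, one_mul] at h4
    exact h4
  -- classes
  have heqv : ∀ p ∈ δ.rts.offDiag, ∀ q ∈ δ.rts.offDiag,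
      (Eqv (π.pull A) p.1 (p.2 - p.1) q.1 (q.2 - q.1) ↔
        Eqv A (ρ p.1) (ρ p.2 - ρ p.1) (ρ q.1) (ρ q.2 - ρ q.1)) := by
    intro p hp q hq
    obtain ⟨h1, h2, h3⟩ := hs1 p hp
    obtain ⟨h1', h2', h3'⟩ := hs1 q hq
    unfold Eqv
    rw [π.pull_val_eq A h2 h2' h3 h3', π.pull_val_le A (h1.sub h1') h2 h3]
  have hncl : ∀ p ∈ δ.rts.offDiag, ncl (π.pull A) δ p.1 (p.2 - p.1) =
      ncl A δ' (ρ p.1) (ρ p.2 - ρ p.1) := by
    intro p hp
    unfold ncl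
    refine Finset.card_bij (fun q _ => (ρ q.1, ρ q.2)) ?_ ?_ ?_
    · intro q hq
      rw [Finset.mem_filter] at hq ⊢
      exact ⟨hmaps q hq.1, (heqv p hp q hq.1).1 hq.2⟩
    · intro q hq q' hq' h
      rw [Finset.mem_filter] at hq hq'
      exact hinj2 q hq.1 q' hq'.1 h
    · intro q' hq'
      rw [Finset.mem_filter] at hq'
      obtain ⟨q, hq, rfl⟩ := hsurj q' hq'.1
      exact ⟨q, Finset.mem_filter.2 ⟨hq, (heqv p hp q hq).2 hq'.2⟩, rfl⟩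
  -- values
  have hgv : ∀ p : F × F, ∃ h h', p ∈ δ.rts.offDiag → (h' ≠ 0 ∧ π.Sp h h' ∧
      gv (π.pull A) δ p.1 (p.2 - p.1) = (π.pull A).valuation h ∧
      gv A δ' (ρ p.1) (ρ p.2 - ρ p.1) = A.valuation h') := by
    intro p
    by_cases hp : p ∈ δ.rts.offDiag
    swap
    · exact ⟨0, 0, fun h => absurd h hp⟩
    obtain ⟨h1, h2, h3⟩ := hs1 p hp
    obtain ⟨u1, u2, u3⟩ := hun p hp
    have hr : p.2 - p.1 ≠ 0 := h2.ne_zero h3
    obtain ⟨m, u, hm, hm0, hu0, ⟨i, hi⟩, c1, c2, c3, hgve⟩ :=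
      exists_gv (π.pull A) hδ.be_ne p.1 hr
    have hsm : ∃ m', π.Sp m m' ∧ m' ≠ 0 ∧ (m' = δ'.s - ρ p.1 ∨ m' = ρ p.2 - ρ p.1) := by
      rcases hm with hm | hm
      · have h4 : π.Sp m (δ'.s - ρ p.1) := by
          rw [hm]
          exact hsp.s.sub h1
        obtain ⟨m', h5, h6⟩ := π.exists_sp_ne_zero (x := m) (by
          rw [hm]
          exact u2 (fun h => hm0 (by rw [hm, h, sub_self])))
        exact ⟨m', h5, h6, Or.inl (h5.unique h4)⟩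
      · exact ⟨ρ p.2 - ρ p.1, by rw [hm]; exact h2, h3, Or.inr rfl⟩
    obtain ⟨m', hmm', hm'0, hm'⟩ := hsm
    have hbe : π.SpP (tr p.1 (p.2 - p.1) δ.be) (tr (ρ p.1) (ρ p.2 - ρ p.1) δ'.be) :=
      meqv_sp_tr hsp.be h1 h2
    obtain ⟨u', huu', hu'0⟩ := π.exists_sp_ne_zero (x := u) (by
      rw [← hi]
      exact u3 i (by rw [hi]; exact hu0))
    have hi' : (tr (ρ p.1) (ρ p.2 - ρ p.1) δ'.be).coeff i = u' := by
      have h4 := hbe i
      rw [hi] at h4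
      exact h4.unique huu'
    refine ⟨m ^ δ.b / u, m' ^ δ.b / u', fun _ => ⟨div_ne_zero (pow_ne_zero _ hm'0) hu'0,
      (hmm'.pow _).div huu' hu'0, hgve, ?_⟩⟩
    rw [← hb]
    refine gv_eq hm' ?_ ?_ ⟨i, hi'⟩ ?_
    · exact (π.pull_val_le A (hsp.s.sub h1) hmm' hm'0).1 c1
    · exact (π.pull_val_le A h2 hmm' hm'0).1 c2
    · intro l
      exact (π.pull_val_le A (hbe l) huu' hu'0).1 (c3 l)
  choose h h' hh using hgv
  -- the equation
  have key : ∀ (n : ℕ) (z : F × F → ℤ) (z' : F' × F' → ℤ),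
      (∀ p ∈ δ.rts.offDiag, z' (ρ p.1, ρ p.2) = z p) →
      (((π.pull A).valuation g ^ n =
          ∏ p ∈ δ.rts.offDiag, gv (π.pull A) δ p.1 (p.2 - p.1) ^ z p) ↔
        (A.valuation g' ^ n = ∏ q ∈ δ'.rts.offDiag, gv A δ' q.1 (q.2 - q.1) ^ z' q)) := by
    intro n z z' hz
    have e1 : ∏ p ∈ δ.rts.offDiag, gv (π.pull A) δ p.1 (p.2 - p.1) ^ z p =
        (π.pull A).valuation (∏ p ∈ δ.rts.offDiag, h p ^ z p) := by
      rw [map_prod]
      refine Finset.prod_congr rfl fun p hp => ?_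
      rw [(hh p hp).2.2.1, map_zpow₀]
    have e2 : ∏ q ∈ δ'.rts.offDiag, gv A δ' q.1 (q.2 - q.1) ^ z' q =
        A.valuation (∏ p ∈ δ.rts.offDiag, h' p ^ z p) := by
      rw [map_prod]
      refine (Finset.prod_bij (fun p _ => (ρ p.1, ρ p.2)) hmaps
        (fun p hp q hq => hinj2 p hp q hq) (fun q hq => ?_) fun p hp => ?_).symm
      · obtain ⟨p, hp, hpq⟩ := hsurj q hq
        exact ⟨p, hp, hpq⟩
      · rw [hz p hp, (hh p hp).2.2.2, map_zpow₀]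
    rw [e1, e2, ← map_pow, ← map_pow]
    refine π.pull_val_eq A (hgg'.pow n) (Pl.Sp.prod _ fun p hp => ?_) (pow_ne_zero n hg')
      (Finset.prod_ne_zero_iff.2 fun p hp => zpow_ne_zero _ (hh p hp).1)
    exact frred_zpow (hh p hp).2.1 (hh p hp).1 _
  constructor
  · rintro ⟨hg, n, z, hn, hz, he⟩
    let ι : F' → F := Function.invFunOn ρ (δ.rts : Set F)
    have hι : ∀ x ∈ δ.rts, ι (ρ x) = x := fun x hx =>
      hbij.injOn.leftInvOn_invFunOn (Finset.mem_coe.2 hx)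
    have hz' : ∀ p ∈ δ.rts.offDiag, z (ι (ρ p.1), ι (ρ p.2)) = z p := by
      intro p hp
      have hp' := Finset.mem_offDiag.1 hp
      rw [hι _ hp'.1, hι _ hp'.2.1]
    refine ⟨hg', n, fun q => z (ι q.1, ι q.2), hn, ?_, ?_⟩
    · intro q hq
      obtain ⟨p, hp, rfl⟩ := hsurj q hq
      dsimp only
      rw [hz' p hp, hz p hp, hmass p hp, hncl p hp]
    · exact (key n z (fun q => z (ι q.1, ι q.2)) hz').1 he
  · rintro ⟨-, n, z, hn, hz, he⟩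
    refine ⟨hgg'.ne_zero hg', n, fun p => z (ρ p.1, ρ p.2), hn, ?_, ?_⟩
    · intro p hp
      have h1 := hz _ (hmaps p hp)
      dsimp only at h1 ⊢
      rw [h1, hmass p hp, hncl p hp]
    · exact (key n (fun p => z (ρ p.1, ρ p.2)) z (fun p _ => rfl)).2 he

end Pool.Agent.TT
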