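import Pool.Agent.TT.Gv
import Pool.Agent.TT.Sp
import Pool.Agent.Helper51.TT.ULim

set_option autoImplicit false
set_option linter.unusedSectionVars false

/-! TT-19. See Pool/Agent/Helper51/TT/ULim.lean (helper51; may be imported). `ultra_le`: `x / y ∈ B`;
for `y = 0` both sides say `x = 0`. `ultra_lt`: the negation (`Ultrafilter.eventually_not`). `ultra_ncl`:
finitely many conditions `Eqv`. `ultra_gv`: `exists_gv` for `B` gives `m`, `u`; the finitely many
comparisons (the coefficients of `tr c r δ.be` of index `≤ natDegree`) hold for `U`-most `A i`; `gv_eq`. -/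

namespace Pool.Agent.TT

open Pool.Agent.Helper16 Pool.Agent.Helper16.BB Pool.Agent.ThF Polynomial

variable {k σ : Type} [Field k] [Finite k] [Finite σ] {I : Set (MvPolynomial σ (RatFunc k))}
variable {F : Type} [Field F] [Algebra k F]
variable {ι : Type} {U : Ultrafilter ι} {A : ι → ValuationSubring F} {B : ValuationSubring F}

theorem ultra_le (hB : ∀ x, x ∈ B ↔ ∀ᶠ i in U, x ∈ A i) (x y : F) :
    B.valuation x ≤ B.valuation y ↔ ∀ᶠ i in U, (A i).valuation x ≤ (A i).valuation y := by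
  by_cases hy : y = 0
  · subst hy
    have h1 : B.valuation x ≤ B.valuation 0 ↔ x = 0 := by
      rw [map_zero, le_zero_iff, map_eq_zero]
    have h2 : ∀ i, ((A i).valuation x ≤ (A i).valuation 0 ↔ x = 0) := by
      intro i
      rw [map_zero, le_zero_iff, map_eq_zero]
    simp only [h1, h2]
    exact Filter.eventually_const.symm
  · rw [val_le_iff _ _ _ hy, hB]
    exact Filter.eventually_congr (Filter.Eventually.of_forall fun i => (val_le_iff _ _ _ hy).symm)

theorem ultra_lt (hB : ∀ x, x ∈ B ↔ ∀ᶠ i in U, x ∈ A i) (x y : F) :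
    B.valuation x < B.valuation y ↔ ∀ᶠ i in U, (A i).valuation x < (A i).valuation y := by
  rw [← not_le, ultra_le hB, ← Ultrafilter.eventually_not]
  exact Filter.eventually_congr (Filter.Eventually.of_forall fun i => not_le)

theorem ultra_eqv (hB : ∀ x, x ∈ B ↔ ∀ᶠ i in U, x ∈ A i) (c r c' r' : F) :
    Eqv B c r c' r' ↔ ∀ᶠ i in U, Eqv (A i) c r c' r' := by
  unfold Eqv
  rw [le_antisymm_iff, ultra_le hB, ultra_le hB, ultra_le hB, ← Filter.eventually_and,
    ← Filter.eventually_and]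
  exact Filter.eventually_congr (Filter.Eventually.of_forall fun i => by rw [le_antisymm_iff])

theorem ultra_ncl (hB : ∀ x, x ∈ B ↔ ∀ᶠ i in U, x ∈ A i) (δ : CD σ F) (c r : F) :
    ∀ᶠ i in U, ncl (A i) δ c r = ncl B δ c r := by
  classical
  have h1 : ∀ᶠ i in (U : Filter ι), ∀ p ∈ δ.rts.offDiag,
      (Eqv (A i) c r p.1 (p.2 - p.1) ↔ Eqv B c r p.1 (p.2 - p.1)) := by
    rw [Filter.eventually_all_finset]
    intro p _
    by_cases h : Eqv B c r p.1 (p.2 - p.1)
    · filter_upwards [(ultra_eqv hB _ _ _ _).1 h] with i hi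
      exact iff_of_true hi h
    · have h2 := h
      rw [ultra_eqv hB, ← Ultrafilter.eventually_not] at h2
      filter_upwards [h2] with i hi
      exact iff_of_false hi h
  filter_upwards [h1] with i hi
  unfold ncl
  congr 1
  exact Finset.filter_congr fun p hp => hi p hp

theorem ultra_gv (hB : ∀ x, x ∈ B ↔ ∀ᶠ i in U, x ∈ A i) {δ : CD σ F} (hδ : δ.be ≠ 0) (c : F)
    {r : F} (hr : r ≠ 0) : ∃ g : F, g ≠ 0 ∧ gv B δ c r = B.valuation g ∧
      ∀ᶠ i in U, gv (A i) δ c r = (A i).valuation g := by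
  obtain ⟨m, u, hm, hm0, hu0, hu, h1, h2, h3, h4⟩ := exists_gv B hδ c hr
  refine ⟨m ^ δ.b / u, div_ne_zero (pow_ne_zero _ hm0) hu0, h4, ?_⟩
  have h5 : ∀ᶠ i in (U : Filter ι), ∀ j ∈ Finset.range ((tr c r δ.be).natDegree + 1),
      (A i).valuation ((tr c r δ.be).coeff j) ≤ (A i).valuation u := by
    rw [Filter.eventually_all_finset]
    intro j _
    exact (ultra_le hB _ _).1 (h3 j)
  filter_upwards [(ultra_le hB _ _).1 h1, (ultra_le hB _ _).1 h2, h5] with i h6 h7 h8
  refine gv_eq hm h6 h7 hu fun j => ?_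
  by_cases hj : j ≤ (tr c r δ.be).natDegree
  · exact h8 j (Finset.mem_range.2 (Nat.lt_succ_of_le hj))
  · rw [Polynomial.coeff_eq_zero_of_natDegree_lt (not_le.1 hj), map_zero]
    exact zero_le

/-- Existence of the limit. -/
theorem exists_ultra (U : Ultrafilter ι) (A : ι → ValuationSubring F) :
    ∃ B : ValuationSubring F, ∀ x, x ∈ B ↔ ∀ᶠ i in U, x ∈ A i :=
  ⟨Pool.Agent.Helper51.TT.ulim U A, fun _ => Iff.rfl⟩

end Pool.Agent.TT
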