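import Mathlib
import Pool.Agent.TT.Mass
import Pool.Agent.TT.UBase
import Pool.Agent.TT.VCIff

set_option autoImplicit false
set_option linter.unusedSectionVars false

/-! TT-20. `ultra_mrel`: let `π` be the surjective place of `B` (`exists_pl`) with residue field `L`; by `mrel_iff`,
`Vred π δ c r a b Q` (factors `e₁`, `e₁'`) and `TRel I a b Q e τ` with data `x`, `G`, `c₀`, `y`. Choose lifts
to `B`: `x̃ : Idx σ n D → F`, `G̃ ∈ F[X]` with coefficients in `B`, `c̃`, `c̃⁻¹`. The following hold modulo the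
maximal ideal of `B`, i.e. certain elements of `F` have value `< 1` for `B`, hence for `U`-most `A i`
(`ultra_lt`), and the lifts are in `A i` for `U`-most `i` (`ultra_le`): the finitely many nontrivial
coefficients of `C e₁ * tr c r δ.al - G̃ * pAB x̃ true`, .. `- G̃ * pAB x̃ false`, `C e₁' * tr c r (δ.P j) - C c̃ * pP x̃ j`;
the equations `q(x̃)` for generators `q` of the kernel `𝔮` of `aeval x : k[Idx] → L` (a finitely generated
ideal, which contains `pEq I n D e j₀ i₀` by `pEq_iff`); and `G̃ ≠ 0`, `a_i b_j - a_j b_i ≠ 0`, `Q ≠ 0`,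
`c̃ ≠ 0` mod the maximal ideal (units stay units). Let `π_i` be the surjective place of `A i`. So `Vred π_i δ c r a_i b_i Q_i`
with the reductions, `a_i = G_i * pAB x_i true`, ..., `PCond` for `x_i` (`pEq_iff`), and `x_i` is a zero of
`𝔮`. Let `y_i` be a specialisation of `x_i` (`exists_ksp`); `y_i` and `y` are zeros of `𝔮`, i.e. both
satisfy all relations of `x`, so `theta I y_i = theta I y` by `theta_ker` (TT-2). Hence `MRel I (A i) δ c r e τ`.
`ultra_mass`: if `(c, r)` is a vertex for `B`: `ultra_mrel`, `mass_eq`. If not: `VC B δ c r` fails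
(`vc_iff`); if `r ≠ 0`, let `u` be a coefficient of `tr c r δ.al`, `tr c r δ.be` of largest value for `B`
(not zero); `v (a_i b_j - a_j b_i) < v u ^ 2` for all `i`, `j`, so for `U`-most `A i` also (finitely many
indices), and `u` is a coefficient of largest value; then `VC (A i) δ c r` fails (any `u'` as in `VC`
satisfies `v u ≤ v u'`). -/

namespace Pool.Agent.TT

open Pool.Agent.Helper16 Pool.Agent.Helper16.BB Pool.Agent.ThF Polynomial

variable {k σ : Type} [Field k] [Finite k] [Finite σ] {I : Set (MvPolynomial σ (RatFunc k))}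
variable {F : Type} [Field F] [Algebra k F]
variable {ι : Type} {U : Ultrafilter ι} {A : ι → ValuationSubring F} {B : ValuationSubring F}

theorem umrel_sp_aeval {L : Type} [Field L] [Algebra k L] (π : Pl k F L) {N : Type} {t : N → F}
    {s : N → L} (h : ∀ n, π.Sp (t n) (s n)) (p : MvPolynomial N k) :
    π.Sp (MvPolynomial.aeval t p) (MvPolynomial.aeval s p) := by
  induction p using MvPolynomial.induction_on with
  | C a =>
    rw [MvPolynomial.aeval_C, MvPolynomial.aeval_C]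
    exact π.hk a
  | add p q hp hq =>
    rw [map_add, map_add]
    exact hp.add hq
  | mul_X p n hp =>
    rw [map_mul, map_mul, MvPolynomial.aeval_X, MvPolynomial.aeval_X]
    exact hp.mul (h n)

/-- Relations between residues for `B` hold for most of the `A i`. -/
theorem umrel_transfer (hB : ∀ x, x ∈ B ↔ ∀ᶠ i in U, x ∈ A i) {L : Type} [Field L]
    [Algebra k L] (π : Pl k F L) (hπ : π.A = B) {N : Type} [Finite N] {t : N → F} {s : N → L}
    (h : ∀ n, π.Sp (t n) (s n)) :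
    ∀ᶠ i in U, ∀ (L' : Type) [Field L'] [Algebra k L'] (π' : Pl k F L'), π'.A = A i →
      ∃ g : (MvPolynomial.aeval s : MvPolynomial N k →ₐ[k] L).range →ₐ[k] L',
        ∀ n, π'.Sp (t n) (g ⟨s n, MvPolynomial.X n, MvPolynomial.aeval_X s n⟩) := by
  let f : MvPolynomial N k →ₐ[k] L := MvPolynomial.aeval s
  obtain ⟨gens, hgens⟩ : (RingHom.ker f).FG := IsNoetherian.noetherian _
  have h1 : ∀ᶠ i in U, ∀ n, t n ∈ A i := by
    rw [Filter.eventually_all]
    intro n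
    exact (hB _).1 (hπ ▸ (h n).1)
  have h2 : ∀ᶠ i in U, ∀ q ∈ gens, (A i).valuation (MvPolynomial.aeval t q) < 1 := by
    rw [Filter.eventually_all_finset]
    intro q hq
    have h3 : MvPolynomial.aeval s q = 0 := by
      have h4 : q ∈ RingHom.ker f := hgens ▸ Ideal.subset_span hq
      exact h4
    have h5 := umrel_sp_aeval π h q
    rw [h3] at h5
    have h6 := h5.eq_zero_iff.1 rfl
    rw [hπ, ← map_one B.valuation, ultra_lt hB] at h6
    filter_upwards [h6] with i hi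
    rwa [map_one] at hi
  filter_upwards [h1, h2] with i h1 h2 L' _ _ π' hπ'
  have h3 : ∀ n, t n ∈ π'.A := fun n => hπ' ▸ h1 n
  let s' : N → L' := fun n => π'.r ⟨t n, h3 n⟩
  have hs' : ∀ n, π'.Sp (t n) (s' n) := fun n => ⟨h3 n, rfl⟩
  let f' : MvPolynomial N k →ₐ[k] L' := MvPolynomial.aeval s'
  have hker : ∀ q ∈ RingHom.ker f, f' q = 0 := by
    have h4 : RingHom.ker f ≤ RingHom.ker f' := by
      rw [← hgens, Ideal.span_le]
      intro q hq
      have h5 := h2 q hq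
      rw [← hπ'] at h5
      exact (umrel_sp_aeval π' hs' q).eq_zero_iff.2 h5
    exact fun q hq => h4 hq
  let e := Ideal.quotientKerAlgEquivOfSurjective (f := f.rangeRestrict) f.rangeRestrict_surjective
  have hker' : ∀ q ∈ RingHom.ker f.rangeRestrict, f' q = 0 := by
    intro q hq
    apply hker
    have h4 : f.rangeRestrict q = 0 := hq
    exact congrArg Subtype.val h4
  let g : f.range →ₐ[k] L' := (Ideal.Quotient.liftₐ (RingHom.ker f.rangeRestrict) f' hker').comp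
    (e.symm : f.range →ₐ[k] _)
  have hg : ∀ p, g (f.rangeRestrict p) = f' p := by
    intro p
    have h4 : e.symm (f.rangeRestrict p) = Ideal.Quotient.mk _ p := by
      rw [AlgEquiv.symm_apply_eq]
      rfl
    change (Ideal.Quotient.liftₐ (RingHom.ker f.rangeRestrict) f' hker')
      (e.symm (f.rangeRestrict p)) = _
    rw [h4]
    rfl
  refine ⟨g, fun n => ?_⟩
  have h5 : (⟨s n, MvPolynomial.X n, MvPolynomial.aeval_X s n⟩ : f.range) =
      f.rangeRestrict (MvPolynomial.X n) := Subtype.ext (MvPolynomial.aeval_X s n).symm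
  rw [h5, hg]
  have h6 : f' (MvPolynomial.X n) = s' n := MvPolynomial.aeval_X s' n
  rw [h6]
  exact hs' n

theorem umrel_transfer_set (hB : ∀ x, x ∈ B ↔ ∀ᶠ i in U, x ∈ A i) {L : Type} [Field L]
    [Algebra k L] (π : Pl k F L) (hπ : π.A = B) {T : Set F} (hT : T.Finite)
    (hTA : ∀ x ∈ T, x ∈ π.A) :
    ∃ R : Subalgebra k L, (∀ x ∈ T, ∀ y, π.Sp x y → y ∈ R) ∧
      ∀ᶠ i in U, ∀ (L' : Type) [Field L'] [Algebra k L'] (π' : Pl k F L'), π'.A = A i →
        ∃ g : R →ₐ[k] L', ∀ x ∈ T, ∀ y (hy : y ∈ R), π.Sp x y → π'.Sp x (g ⟨y, hy⟩) := by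
  have : Finite T := hT
  have h1 : ∀ n : T, π.Sp (n : F) (π.r ⟨n, hTA n n.2⟩) := fun n => ⟨hTA n n.2, rfl⟩
  refine ⟨(MvPolynomial.aeval (fun n : T => π.r ⟨(n : F), hTA n n.2⟩) :
    MvPolynomial T k →ₐ[k] L).range, ?_, ?_⟩
  rotate_left
  · have h2 := umrel_transfer hB π hπ h1
    filter_upwards [h2] with i h2 L' _ _ π' hπ'
    obtain ⟨g, hg⟩ := h2 L' π' hπ'
    refine ⟨g, fun x hx y hy hxy => ?_⟩
    have h3 := hg ⟨x, hx⟩
    have h4 : y = π.r ⟨x, hTA x hx⟩ := hxy.unique (h1 ⟨x, hx⟩)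
    subst h4
    exact h3
  · intro x hx y hxy
    have h4 : y = π.r ⟨x, hTA x hx⟩ := hxy.unique (h1 ⟨x, hx⟩)
    subst h4
    exact ⟨MvPolynomial.X ⟨x, hx⟩, MvPolynomial.aeval_X _ _⟩

theorem umrel_coeff_finite {R : Type} [Semiring R] (p : R[X]) : (Set.range p.coeff).Finite := by
  classical
  refine (Finset.finite_toSet (insert 0 (p.support.image p.coeff))).subset ?_
  rintro _ ⟨i, rfl⟩
  by_cases h : p.coeff i = 0
  · rw [h]
    simp
  · simp only [Finset.coe_insert, Finset.coe_image, Set.mem_insert_iff]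
    right
    exact ⟨i, by simpa using h, rfl⟩

theorem umrel_poly {L : Type} [Field L] [Algebra k L] (R : Subalgebra k L) {p : L[X]}
    (h : ∀ i, p.coeff i ∈ R) :
    ∃ q : R[X], q.map ((R.val : R →ₐ[k] L) : R →+* L) = p ∧ ∀ i, q.coeff i = ⟨p.coeff i, h i⟩ := by
  have h1 : p ∈ Polynomial.lifts ((R.val : R →ₐ[k] L) : R →+* L) := by
    rw [Polynomial.lifts_iff_coeff_lifts]
    intro i
    exact ⟨⟨p.coeff i, h i⟩, rfl⟩
  obtain ⟨q, hq⟩ := (Polynomial.mem_lifts _).1 h1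
  refine ⟨q, hq, fun i => Subtype.ext ?_⟩
  have h2 := congrArg (fun f => f.coeff i) hq
  simp only [Polynomial.coeff_map] at h2
  exact h2

theorem umrel_unit {L L' : Type} [Field L] [Algebra k L] [Field L'] [Algebra k L']
    {R : Subalgebra k L} (g : R →ₐ[k] L') {z : R} (hz : (z : L) ≠ 0) (hz' : (z : L)⁻¹ ∈ R) :
    g z ≠ 0 := by
  intro h
  have h1 : z * ⟨(z : L)⁻¹, hz'⟩ = 1 := Subtype.ext (mul_inv_cancel₀ hz)
  have h2 := congrArg g h1
  rw [map_mul, h, zero_mul, map_one] at h2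
  exact zero_ne_one h2

theorem ultra_mrel (hI : ∀ P ∈ I, ∃ d, P.IsHomogeneous d)
    (hB : ∀ x, x ∈ B ↔ ∀ᶠ i in U, x ∈ A i) {δ : CD σ F} {c r : F} {e : ℕ} {τ : Quo (wOne σ) I}
    (h : MRel I B δ c r e τ) : ∀ᶠ i in U, MRel I (A i) δ c r e τ := by
  classical
  obtain ⟨L, _, _, π, hπB, hπ⟩ := exists_pl (k := k) B
  rw [← hπB] at h
  obtain ⟨a, b, Q, ⟨hr, ⟨m₁, m₂, hm⟩, ⟨j₁, hj₁⟩, e₁, e₁', he₁, he₁', ha, hb, hQ⟩, n, D, j₀, i₀, x,
    G, c₀, y, he, hx, hG, hc₀, hax, hbx, hQx, hy, rfl⟩ := (mrel_iff hI π hπ).1 h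
  obtain ⟨i₁, hi₁⟩ : ∃ i₁, (Q j₁).coeff i₁ ≠ 0 := by
    by_contra hcon
    push Not at hcon
    exact hj₁ (Polynomial.ext fun i => by rw [hcon i, Polynomial.coeff_zero])
  choose lift hlift using hπ
  let W : Set L := Set.range x ∪ Set.range G.coeff ∪ {c₀, c₀⁻¹, G.leadingCoeff⁻¹,
    ((Q j₁).coeff i₁)⁻¹, (a.coeff m₁ * b.coeff m₂ - a.coeff m₂ * b.coeff m₁)⁻¹}
  have hW : W.Finite := ((Set.finite_range x).union (umrel_coeff_finite G)).union
    (Set.toFinite _)
  let T : Set F := (Set.range (C e₁ * tr c r δ.al).coeff ∪ Set.range (C e₁ * tr c r δ.be).coeff ∪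
    ⋃ j, Set.range (C e₁' * tr c r (δ.P j)).coeff) ∪ lift '' W
  have hT : T.Finite := (((umrel_coeff_finite _).union (umrel_coeff_finite _)).union
    (Set.finite_iUnion fun j => umrel_coeff_finite _)).union (hW.image _)
  have hTA : ∀ z ∈ T, z ∈ π.A := by
    rintro z (((⟨i, rfl⟩ | ⟨i, rfl⟩) | hz) | ⟨w, -, rfl⟩)
    · exact (ha i).1
    · exact (hb i).1
    · obtain ⟨j, i, rfl⟩ := Set.mem_iUnion.1 hz
      exact (hQ j i).1
    · exact (hlift w).1
  obtain ⟨R, hR, hev⟩ := umrel_transfer_set hB π hπB hT hTA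
  have hTa : ∀ i, (C e₁ * tr c r δ.al).coeff i ∈ T := fun i => Or.inl (Or.inl (Or.inl ⟨i, rfl⟩))
  have hTb : ∀ i, (C e₁ * tr c r δ.be).coeff i ∈ T := fun i => Or.inl (Or.inl (Or.inr ⟨i, rfl⟩))
  have hTQ : ∀ j i, (C e₁' * tr c r (δ.P j)).coeff i ∈ T := fun j i =>
    Or.inl (Or.inr (Set.mem_iUnion.2 ⟨j, i, rfl⟩))
  have hWR : ∀ w ∈ W, w ∈ R := fun w hw => hR _ (Or.inr ⟨w, hw, rfl⟩) _ (hlift w)
  obtain ⟨a₀, ha₀, ha₁⟩ := umrel_poly R (p := a) fun i => hR _ (hTa i) _ (ha i)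
  obtain ⟨b₀, hb₀, hb₁⟩ := umrel_poly R (p := b) fun i => hR _ (hTb i) _ (hb i)
  choose Q₀ hQ₀ hQ₁ using fun j => umrel_poly R (p := Q j) fun i => hR _ (hTQ j i) _ (hQ j i)
  obtain ⟨G₀, hG₀, hG₁⟩ := umrel_poly R (p := G) fun i => hWR _ (Or.inl (Or.inr ⟨i, rfl⟩))
  let x₀ : Idx σ n D → R := fun i => ⟨x i, hWR _ (Or.inl (Or.inl ⟨i, rfl⟩))⟩
  let c₁ : R := ⟨c₀, hWR _ (Or.inr (by simp))⟩
  have hinj : Function.Injective ((R.val : R →ₐ[k] L) : R →+* L) := Subtype.val_injective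
  have hpAB : ∀ bb, (pAB x₀ bb).map ((R.val : R →ₐ[k] L) : R →+* L) = pAB x bb := by
    intro bb
    rw [pAB, mkp_map, pAB]
    rfl
  have hpP : ∀ j, (pP x₀ j).map ((R.val : R →ₐ[k] L) : R →+* L) = pP x j := by
    intro j
    rw [pP, mkp_map, pP]
    rfl
  have hax₀ : a₀ = G₀ * pAB x₀ true := by
    apply Polynomial.map_injective _ hinj
    rw [Polynomial.map_mul, hpAB, ha₀, hG₀, hax]
  have hbx₀ : b₀ = G₀ * pAB x₀ false := by
    apply Polynomial.map_injective _ hinj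
    rw [Polynomial.map_mul, hpAB, hb₀, hG₀, hbx]
  have hQx₀ : ∀ j, Q₀ j = C c₁ * pP x₀ j := by
    intro j
    apply Polynomial.map_injective _ hinj
    rw [Polynomial.map_mul, hpP, hQ₀, hQx, Polynomial.map_C]
    rfl
  have hrel : ∀ q : MvPolynomial (Idx σ n D) k, MvPolynomial.aeval x q = 0 →
      MvPolynomial.aeval x₀ q = 0 := by
    intro q hq
    apply Subtype.val_injective
    have h1 : MvPolynomial.aeval x q = R.val (MvPolynomial.aeval x₀ q) := by
      rw [MvPolynomial.comp_aeval_apply]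
      rfl
    rw [h1] at hq
    exact hq
  filter_upwards [hev] with i hi
  obtain ⟨L', _, _, π', hπ', -⟩ := exists_pl (k := k) (A i)
  obtain ⟨g, hg⟩ := hi L' π' hπ'
  have hgpAB : ∀ bb, (pAB x₀ bb).map (g : R →+* L') = pAB (fun i => g (x₀ i)) bb := by
    intro bb
    rw [pAB, mkp_map, pAB]
    rfl
  have hgpP : ∀ j, (pP x₀ j).map (g : R →+* L') = pP (fun i => g (x₀ i)) j := by
    intro j
    rw [pP, mkp_map, pP]
    rfl
  have hgrel : ∀ q : MvPolynomial (Idx σ n D) k, MvPolynomial.aeval x q = 0 →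
      MvPolynomial.aeval (fun i => g (x₀ i)) q = 0 := by
    intro q hq
    have h1 : MvPolynomial.aeval (fun i => g (x₀ i)) q = g (MvPolynomial.aeval x₀ q) := by
      rw [MvPolynomial.comp_aeval_apply]
    rw [h1, hrel q hq, map_zero]
  have hPC : PCond I e j₀ i₀ (fun i => g (x₀ i)) :=
    (pEq_iff (k := k) _).1 fun q hq => hgrel q ((pEq_iff (k := k) x).2 hx q hq)
  obtain ⟨y', hy'⟩ := exists_ksp (k := k) (fun i => g (x₀ i))
  have hth : theta I y = theta I y' :=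
    theta_ker hI he x hx y y' hy fun q hq => hy' q (hgrel q hq)
  refine ⟨L', _, _, π', a₀.map (g : R →+* L'), b₀.map (g : R →+* L'),
    fun j => (Q₀ j).map (g : R →+* L'), hπ', ⟨hr, ⟨m₁, m₂, ?_⟩, ⟨j₁, ?_⟩, e₁, e₁', he₁, he₁', ?_, ?_, ?_⟩,
    n, D, j₀, i₀, fun i => g (x₀ i), G₀.map (g : R →+* L'), g c₁, y', he, hPC, ?_, ?_, ?_, ?_, ?_,
    hy', hth⟩
  · simp only [Polynomial.coeff_map]
    intro h0
    have h1 : g (a₀.coeff m₁ * b₀.coeff m₂ - a₀.coeff m₂ * b₀.coeff m₁) = 0 := by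
      rw [map_sub, map_mul, map_mul, sub_eq_zero]
      exact h0
    have h2 : ((a₀.coeff m₁ * b₀.coeff m₂ - a₀.coeff m₂ * b₀.coeff m₁ : R) : L) =
        a.coeff m₁ * b.coeff m₂ - a.coeff m₂ * b.coeff m₁ := by
      rw [ha₁, ha₁, hb₁, hb₁]
      rfl
    refine umrel_unit g (z := a₀.coeff m₁ * b₀.coeff m₂ - a₀.coeff m₂ * b₀.coeff m₁) ?_ ?_ h1
    · rw [h2]
      exact sub_ne_zero.2 hm
    · rw [h2]
      exact hWR _ (Or.inr (by simp))
  · intro h0
    have h1 := congrArg (fun f => f.coeff i₁) h0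
    simp only [Polynomial.coeff_map, Polynomial.coeff_zero] at h1
    refine umrel_unit g (z := (Q₀ j₁).coeff i₁) ?_ ?_ h1
    · rw [hQ₁]
      exact hi₁
    · rw [hQ₁]
      exact hWR _ (Or.inr (by simp))
  · intro m
    rw [Polynomial.coeff_map, ha₁]
    exact hg _ (hTa m) _ _ (ha m)
  · intro m
    rw [Polynomial.coeff_map, hb₁]
    exact hg _ (hTb m) _ _ (hb m)
  · intro j m
    rw [Polynomial.coeff_map, hQ₁]
    exact hg _ (hTQ j m) _ _ (hQ j m)
  · intro h0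
    have h1 := congrArg (fun f => f.coeff G.natDegree) h0
    simp only [Polynomial.coeff_map, Polynomial.coeff_zero] at h1
    refine umrel_unit g (z := G₀.coeff G.natDegree) ?_ ?_ h1
    · rw [hG₁]
      exact leadingCoeff_ne_zero.2 hG
    · rw [hG₁]
      exact hWR _ (Or.inr (Or.inr (Or.inr (Or.inl rfl))))
  · exact umrel_unit g (z := c₁) hc₀ (hWR _ (Or.inr (Or.inr (Or.inl rfl))))
  · rw [hax₀, Polynomial.map_mul, hgpAB]
  · rw [hbx₀, Polynomial.map_mul, hgpAB]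
  · intro j
    change (Q₀ j).map (g : R →+* L') = _
    rw [hQx₀, Polynomial.map_mul, hgpP, Polynomial.map_C]
    rfl

/-- If `VC` fails for the limit, it fails for most members. -/
theorem umrel_not_vc (hB : ∀ x, x ∈ B ↔ ∀ᶠ i in U, x ∈ A i) {δ : CD σ F} {c r : F}
    (hal : δ.al ≠ 0 ∨ δ.be ≠ 0) (h : ¬ VC B δ c r) : ∀ᶠ i in U, ¬ VC (A i) δ c r := by
  classical
  by_cases hr : r = 0
  · exact Filter.Eventually.of_forall fun i hi => hi.1 hr
  let E : Set F := Set.range (tr c r δ.al).coeff ∪ Set.range (tr c r δ.be).coeff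
  have hE : E.Finite := (umrel_coeff_finite _).union (umrel_coeff_finite _)
  have hEne : E.Nonempty := ⟨_, Or.inl ⟨0, rfl⟩⟩
  obtain ⟨u, huE, hmax⟩ := Set.exists_max_image E (fun z => B.valuation z) hE hEne
  have hu : u ≠ 0 := by
    rintro rfl
    have h0 : ∀ z ∈ E, z = 0 := by
      intro z hz
      have h1 := hmax z hz
      simp only [map_zero, le_zero_iff, Valuation.zero_iff] at h1
      exact h1
    rcases hal with h1 | h1
    · apply vciff_tr_ne_zero (c := c) hr h1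
      ext i
      exact h0 _ (Or.inl ⟨i, rfl⟩)
    · apply vciff_tr_ne_zero (c := c) hr h1
      ext i
      exact h0 _ (Or.inr ⟨i, rfl⟩)
  have hlt : ∀ i j, B.valuation ((tr c r δ.al).coeff i * (tr c r δ.be).coeff j -
      (tr c r δ.al).coeff j * (tr c r δ.be).coeff i) < B.valuation (u ^ 2) := by
    intro i j
    refine lt_of_le_of_ne ?_ fun h1 => h ⟨hr, u, hu, fun i => ⟨hmax _ (Or.inl ⟨i, rfl⟩),
      hmax _ (Or.inr ⟨i, rfl⟩)⟩, i, j, by rw [h1, map_pow]⟩
    refine (Valuation.map_sub _ _ _).trans (max_le ?_ ?_)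
    · rw [map_mul, map_pow, pow_two]
      exact mul_le_mul' (hmax _ (Or.inl ⟨i, rfl⟩)) (hmax _ (Or.inr ⟨j, rfl⟩))
    · rw [map_mul, map_pow, pow_two]
      exact mul_le_mul' (hmax _ (Or.inl ⟨j, rfl⟩)) (hmax _ (Or.inr ⟨i, rfl⟩))
  -- the finite set of minors
  let M : Set F := Set.image2 (fun z w => z - w) (Set.image2 (fun z w => z * w) E E)
    (Set.image2 (fun z w => z * w) E E)
  have hM : M.Finite := Set.Finite.image2 _ (Set.Finite.image2 _ hE hE)
    (Set.Finite.image2 _ hE hE)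
  have hev : ∀ᶠ i in U, ∀ z ∈ M, B.valuation z < B.valuation (u ^ 2) →
      (A i).valuation z < (A i).valuation (u ^ 2) := by
    rw [Filter.eventually_all_finite hM]
    intro z _
    by_cases hz : B.valuation z < B.valuation (u ^ 2)
    · filter_upwards [(ultra_lt hB _ _).1 hz] with i hi _
      exact hi
    · exact Filter.Eventually.of_forall fun i hi => absurd hi hz
  filter_upwards [hev] with i hev
  rintro ⟨-, u', hu', hle, m, m', hmm⟩
  have h1 : (A i).valuation u ≤ (A i).valuation u' := by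
    rcases huE with ⟨l, rfl⟩ | ⟨l, rfl⟩
    · exact (hle l).1
    · exact (hle l).2
  have h2 := hev ((tr c r δ.al).coeff m * (tr c r δ.be).coeff m' -
      (tr c r δ.al).coeff m' * (tr c r δ.be).coeff m)
    ⟨_, ⟨_, Or.inl ⟨m, rfl⟩, _, Or.inr ⟨m', rfl⟩, rfl⟩, _,
      ⟨_, Or.inl ⟨m', rfl⟩, _, Or.inr ⟨m, rfl⟩, rfl⟩, rfl⟩ (hlt m m')
  rw [hmm, map_pow] at h2
  exact absurd (pow_le_pow_left₀ zero_le h1 2) (not_le.2 h2)

theorem ultra_mass (hI : ∀ P ∈ I, ∃ d, P.IsHomogeneous d) (φ : Quo (wOne σ) I →ₗ[ℚ] ℚ)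
    (hB : ∀ x, x ∈ B ↔ ∀ᶠ i in U, x ∈ A i) {δ : CD σ F} (hδ : δ.Ok (k := k) I) (c r : F) :
    ∀ᶠ i in U, mass φ (A i) δ c r = mass φ B δ c r := by
  by_cases h : ∃ e τ, MRel I B δ c r e τ
  · obtain ⟨e, τ, h⟩ := h
    filter_upwards [ultra_mrel hI hB h] with i hi
    rw [mass_eq hI φ h, mass_eq hI φ hi]
  · have h1 : ¬ VC B δ c r := fun h2 => h ((vc_iff hI hδ.fam hδ.ne c r).1 h2)
    have hal : δ.al ≠ 0 ∨ δ.be ≠ 0 := by
      by_contra hcon
      push Not at hcon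
      have h2 := hδ.pos
      rw [CD.b, hcon.1, hcon.2] at h2
      simp at h2
    filter_upwards [umrel_not_vc hB hal h1] with i hi
    have h2 : ¬ ∃ e τ, MRel I (A i) δ c r e τ := fun h3 => hi ((vc_iff hI hδ.fam hδ.ne c r).2 h3)
    rw [mass_eq_zero φ h, mass_eq_zero φ h2]

end Pool.Agent.TT
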