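import Mathlib
import Pool.Agent.TT.UMrel

set_option autoImplicit false
set_option linter.unusedSectionVars false

/-! TT-23. For every `p ∈ δ.rts.offDiag`: `ultra_mass`, `ultra_ncl`, `ultra_gv` (element `g_p`). Choose `n`, `z` for `B`, and
`g` with `g ^ n = ∏ g_p ^ z_p`. For `U`-most `i` the same `n`, `z`, `g` work for `A i`. -/

namespace Pool.Agent.TT

open Pool.Agent.Helper16 Pool.Agent.Helper16.BB Pool.Agent.ThF Polynomial

variable {k σ : Type} [Field k] [Finite k] [Finite σ] {I : Set (MvPolynomial σ (RatFunc k))}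
variable {F : Type} [Field F] [IsAlgClosed F] [Algebra k F]

/-- The denominator of `t` is not zero. -/
theorem frultra_be {δ : CD σ F} (hδ : δ.Ok (k := k) I) : δ.be ≠ 0 := by
  intro h
  have h1 := hδ.cop
  rw [h, isCoprime_zero_right] at h1
  have h2 := natDegree_eq_zero_of_isUnit h1
  have h3 := hδ.pos
  unfold CD.b at h3
  rw [h2, h] at h3
  simp at h3

/-- Common denominators. -/
theorem frultra_den {α : Type} [DecidableEq α] (S : Finset α) (f : α → ℚ) :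
    ∃ (n : ℕ) (z : α → ℤ), 0 < n ∧ ∀ p ∈ S, (z p : ℚ) = n * f p := by
  refine ⟨∏ p ∈ S, (f p).den, fun p => (f p).num * ∏ q ∈ S.erase p, ((f q).den : ℤ),
    Finset.prod_pos fun p _ => (f p).den_pos, ?_⟩
  intro p hp
  have h1 : ((∏ q ∈ S, (f q).den : ℕ) : ℚ) =
      ((f p).den : ℚ) * ∏ q ∈ S.erase p, ((f q).den : ℚ) := by
    rw [Nat.cast_prod, Finset.mul_prod_erase S (fun q => ((f q).den : ℚ)) hp]
  have h2 : ((f p).den : ℚ) * f p = (f p).num := Rat.den_mul_eq_num (f p)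
  rw [h1]
  push_cast
  rw [← h2]
  ring

/-- R2. Limits along ultrafilters. -/
theorem frel_ultra (hI : ∀ P ∈ I, ∃ d, P.IsHomogeneous d) (φ : Quo (wOne σ) I →ₗ[ℚ] ℚ)
    (δ : CD σ F) (hδ : δ.Ok (k := k) I) {ι : Type} (U : Ultrafilter ι)
    (A : ι → ValuationSubring F) (B : ValuationSubring F) (hB : ∀ x, x ∈ B ↔ ∀ᶠ i in U, x ∈ A i) :
    ∃ g, FRel φ B δ g ∧ ∀ᶠ i in U, FRel φ (A i) δ g := by
  classical
  have key : ∀ p : F × F, ∃ g : F, p ∈ δ.rts.offDiag →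
      (g ≠ 0 ∧ gv B δ p.1 (p.2 - p.1) = B.valuation g ∧
        ∀ᶠ i in U, gv (A i) δ p.1 (p.2 - p.1) = (A i).valuation g) := by
    intro p
    by_cases hp : p ∈ δ.rts.offDiag
    · have hne : p.2 - p.1 ≠ 0 := by
        rw [Finset.mem_offDiag] at hp
        exact sub_ne_zero.2 (Ne.symm hp.2.2)
      obtain ⟨g, h1, h2, h3⟩ := ultra_gv hB (frultra_be hδ) p.1 hne
      exact ⟨g, fun _ => ⟨h1, h2, h3⟩⟩
    · exact ⟨0, fun h => absurd h hp⟩
  choose gp hgp using key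
  obtain ⟨n, z, hn, hz⟩ := frultra_den δ.rts.offDiag
    (fun p => mass φ B δ p.1 (p.2 - p.1) / ncl B δ p.1 (p.2 - p.1))
  obtain ⟨g, hg⟩ := IsAlgClosed.exists_pow_nat_eq (∏ p ∈ δ.rts.offDiag, gp p ^ z p) hn
  have hg0 : g ≠ 0 := by
    rintro rfl
    rw [zero_pow hn.ne'] at hg
    have h1 : (∏ p ∈ δ.rts.offDiag, gp p ^ z p) ≠ 0 :=
      Finset.prod_ne_zero_iff.2 fun p hp => zpow_ne_zero _ (hgp p hp).1
    exact h1 hg.symm
  have hval : ∀ C : ValuationSubring F,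
      (∀ p ∈ δ.rts.offDiag, gv C δ p.1 (p.2 - p.1) = C.valuation (gp p)) →
      C.valuation g ^ n = ∏ p ∈ δ.rts.offDiag, gv C δ p.1 (p.2 - p.1) ^ z p := by
    intro C hC
    rw [← map_pow, hg, map_prod]
    refine Finset.prod_congr rfl fun p hp => ?_
    rw [map_zpow₀, hC p hp]
  refine ⟨g, ⟨hg0, n, z, hn, hz, hval B fun p hp => (hgp p hp).2.1⟩, ?_⟩
  have h1 : ∀ᶠ i in U, ∀ p ∈ δ.rts.offDiag,
      gv (A i) δ p.1 (p.2 - p.1) = (A i).valuation (gp p) :=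
    (Filter.eventually_all_finset _).2 fun p hp => (hgp p hp).2.2
  have h2 : ∀ᶠ i in U, ∀ p ∈ δ.rts.offDiag,
      mass φ (A i) δ p.1 (p.2 - p.1) = mass φ B δ p.1 (p.2 - p.1) :=
    (Filter.eventually_all_finset _).2 fun p _ => ultra_mass hI φ hB hδ _ _
  have h3 : ∀ᶠ i in U, ∀ p ∈ δ.rts.offDiag,
      ncl (A i) δ p.1 (p.2 - p.1) = ncl B δ p.1 (p.2 - p.1) :=
    (Filter.eventually_all_finset _).2 fun p _ => ultra_ncl hB δ _ _
  filter_upwards [h1, h2, h3] with i h1 h2 h3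
  refine ⟨hg0, n, z, hn, ?_, hval (A i) h1⟩
  intro p hp
  rw [h2 p hp, h3 p hp]
  exact hz p hp

end Pool.Agent.TT
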