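import Mathlib
import Pool.Agent.TT.FRCoarse
import Pool.Agent.TT.FRRed
import Pool.Agent.TT.FRUltra

set_option autoImplicit false
set_option linter.unusedSectionVars false

/-! Project TT: the properties R0-R5 for finite families of data (`FRels`). -/

namespace Pool.Agent.TT

open Pool.Agent.Helper16 Pool.Agent.Helper16.BB Pool.Agent.ThF Polynomial

section FRels

variable {k σ : Type} [Field k] [Finite k] [Finite σ] {I : Set (MvPolynomial σ (RatFunc k))}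
variable {F : Type} [Field F] [IsAlgClosed F] [Algebra k F]

theorem frels_exists (hI : ∀ P ∈ I, ∃ d, P.IsHomogeneous d) (φ : Quo (wOne σ) I →ₗ[ℚ] ℚ)
    (A : ValuationSubring F) {m : ℕ} (Δ : Fin m → CD σ F) (hΔ : ∀ l, (Δ l).Ok (k := k) I) :
    ∃ g, FRels φ A Δ g := by
  choose γ hγ using fun l => frel_exists hI φ A (Δ l) (hΔ l)
  exact ⟨∏ l, γ l, γ, hγ, rfl⟩

theorem FRels.ne_zero {φ : Quo (wOne σ) I →ₗ[ℚ] ℚ} {A : ValuationSubring F} {m : ℕ}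
    {Δ : Fin m → CD σ F} {g : F} (h : FRels φ A Δ g) : g ≠ 0 := by
  obtain ⟨γ, hγ, h⟩ := h
  have h1 : ∏ l, γ l ≠ 0 := Finset.prod_ne_zero_iff.2 fun l _ => (hγ l).1
  intro h0
  rw [h0, map_zero] at h
  exact (A.valuation.ne_zero_iff.2 h1) h.symm

theorem frels_iff (φ : Quo (wOne σ) I →ₗ[ℚ] ℚ) {A : ValuationSubring F} {m : ℕ}
    {Δ : Fin m → CD σ F} {g : F} (h : FRels φ A Δ g) (g' : F) :
    FRels φ A Δ g' ↔ A.valuation g' = A.valuation g := by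
  obtain ⟨γ, hγ, h⟩ := h
  constructor
  · rintro ⟨γ', hγ', h'⟩
    rw [h, h', map_prod, map_prod]
    refine Finset.prod_congr rfl fun l _ => ?_
    exact (frel_iff φ (hγ l) (γ' l)).1 (hγ' l)
  · intro h'
    exact ⟨γ, hγ, h'.trans h⟩

theorem frels_mul (φ ψ : Quo (wOne σ) I →ₗ[ℚ] ℚ) {A : ValuationSubring F} {m : ℕ}
    {Δ : Fin m → CD σ F} {g g' : F} (h : FRels φ A Δ g) (h' : FRels ψ A Δ g') :
    FRels (φ + ψ) A Δ (g * g') := by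
  obtain ⟨γ, hγ, h⟩ := h
  obtain ⟨γ', hγ', h'⟩ := h'
  refine ⟨fun l => γ l * γ' l, fun l => frel_add (hγ l) (hγ' l), ?_⟩
  rw [Finset.prod_mul_distrib, map_mul, map_mul, h, h']

theorem frels_zsmul {φ : Quo (wOne σ) I →ₗ[ℚ] ℚ} {A : ValuationSubring F} {m : ℕ}
    {Δ : Fin m → CD σ F} {g : F} (h : FRels φ A Δ g) (n : ℤ) :
    FRels ((n : ℚ) • φ) A Δ (g ^ n) := by
  obtain ⟨γ, hγ, h⟩ := h
  refine ⟨fun l => γ l ^ n, fun l => frel_zsmul (hγ l) n, ?_⟩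
  rw [Finset.prod_zpow, map_zpow₀, map_zpow₀, h]

theorem frels_neg {φ : Quo (wOne σ) I →ₗ[ℚ] ℚ} {A : ValuationSubring F} {m : ℕ}
    {Δ : Fin m → CD σ F} {g : F} (h : FRels φ A Δ g) : FRels (-φ) A Δ g⁻¹ := by
  have h1 := frels_zsmul h (-1)
  have h2 : (((-1 : ℤ) : ℚ) • φ) = -φ := by
    rw [Int.cast_neg, Int.cast_one, neg_smul, one_smul]
  rwa [h2, zpow_neg_one] at h1

theorem frels_neg_iff {φ : Quo (wOne σ) I →ₗ[ℚ] ℚ} {A : ValuationSubring F} {m : ℕ}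
    {Δ : Fin m → CD σ F} {g : F} : FRels (-φ) A Δ g ↔ FRels φ A Δ g⁻¹ := by
  constructor
  · intro h
    have := frels_neg h
    rwa [neg_neg] at this
  · intro h
    have := frels_neg h
    rwa [inv_inv] at this

theorem frels_ultra (hI : ∀ P ∈ I, ∃ d, P.IsHomogeneous d) (φ : Quo (wOne σ) I →ₗ[ℚ] ℚ)
    {m : ℕ} (Δ : Fin m → CD σ F) (hΔ : ∀ l, (Δ l).Ok (k := k) I) {ι : Type} (U : Ultrafilter ι)
    (A : ι → ValuationSubring F) (B : ValuationSubring F) (hB : ∀ x, x ∈ B ↔ ∀ᶠ i in U, x ∈ A i) :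
    ∃ g, FRels φ B Δ g ∧ ∀ᶠ i in U, FRels φ (A i) Δ g := by
  choose γ hγ hγ' using fun l => frel_ultra hI φ (Δ l) (hΔ l) U A B hB
  refine ⟨∏ l, γ l, ⟨γ, hγ, rfl⟩, ?_⟩
  have h1 : ∀ᶠ i in (U : Filter ι), ∀ l, FRel φ (A i) (Δ l) (γ l) :=
    Filter.eventually_all.2 hγ'
  filter_upwards [h1] with i hi
  exact ⟨γ, hi, rfl⟩

theorem frels_coarse [Algebra (RatFunc k) F] [IsScalarTower k (RatFunc k) F]
    (hI : ∀ P ∈ I, ∃ d, P.IsHomogeneous d) (φ : Quo (wOne σ) I →ₗ[ℚ] ℚ)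
    {m : ℕ} (Δ : Fin m → CD σ F) (hΔ : ∀ l, (Δ l).Ok (k := k) I)
    {A B : ValuationSubring F} (hAB : A ≤ B)
    (hK : ∀ c : RatFunc k, algebraMap (RatFunc k) F c ∈ B)
    (halg : ∀ x ∈ B, ∃ p : (RatFunc k)[X], p ≠ 0 ∧ B.valuation (aeval x p) < 1) {g : F}
    (h : FRels φ A Δ g) : FRels φ B Δ g := by
  obtain ⟨γ, hγ, h⟩ := h
  exact ⟨γ, fun l => frel_coarse hI φ (Δ l) (hΔ l) hAB hK halg (hγ l), val_eq_of_le hAB h⟩

theorem frels_red (hI : ∀ P ∈ I, ∃ d, P.IsHomogeneous d) {m : ℕ} (Δ : Fin m → CD σ F)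
    (hΔ : ∀ l, (Δ l).Ok (k := k) I) :
    ∃ T : Finset F, 0 ∉ T ∧ ∀ (F' : Type) [Field F'] [IsAlgClosed F'] [Algebra k F']
      (π : Pl k F F'), π.Surj → (∀ x ∈ T, π.A.valuation x = 1) →
      ∃ Δ' : Fin m → CD σ F', (∀ l, (Δ' l).Ok (k := k) I) ∧ (∀ l, (Δ' l).b = (Δ l).b) ∧
        (∀ l, π.SpD (Δ l) (Δ' l)) ∧
        ∀ (φ : Quo (wOne σ) I →ₗ[ℚ] ℚ) (A : ValuationSubring F') (g : F) (g' : F'), g' ≠ 0 →
          π.Sp g g' → (FRels φ (π.pull A) Δ g ↔ FRels φ A Δ' g') := by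
  classical
  choose T hT0 hT using fun l => frel_red hI (Δ l) (hΔ l)
  refine ⟨Finset.univ.biUnion T, ?_, ?_⟩
  · intro h
    obtain ⟨l, -, hl⟩ := Finset.mem_biUnion.1 h
    exact hT0 l hl
  · intro F' _ _ _ π hπ hu
    choose Δ' h1 h2 h3 h4 using fun l => hT l F' π hπ fun x hx =>
      hu x (Finset.mem_biUnion.2 ⟨l, Finset.mem_univ _, hx⟩)
    refine ⟨Δ', h1, h2, h3, ?_⟩
    intro φ A g g' hg' hg
    -- representatives of the reduced values, and lifts of them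
    choose γ' hγ' using fun l => frel_exists hI φ A (Δ' l) (h1 l)
    choose γ hγ using fun l => hπ (γ' l)
    have hγF : ∀ l, FRel φ (π.pull A) (Δ l) (γ l) := fun l =>
      (h4 l φ A (γ l) (γ' l) (hγ' l).1 (hγ l)).2 (hγ' l)
    have hP : FRels φ (π.pull A) Δ (∏ l, γ l) := ⟨γ, hγF, rfl⟩
    have hP' : FRels φ A Δ' (∏ l, γ' l) := ⟨γ', hγ', rfl⟩
    rw [frels_iff φ hP g, frels_iff φ hP' g']
    exact π.pull_val_eq A hg (Pl.Sp.prod _ fun l _ => hγ l) hg'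
      (Finset.prod_ne_zero_iff.2 fun l _ => (hγ' l).1)

end FRels

end Pool.Agent.TT
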