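import Pool.Agent.TT.C3
import Pool.Agent.TT.Frels

set_option autoImplicit false
set_option linter.unusedSectionVars false

/-! Project TT, block C, module C10: finite support.

PLAN. Let Bad be the set of places v for which there is B above v with not FRels φ B Δ 1. Suppose Bad is
infinite; choose an injection i -> v_i from ℕ into Bad (Set.Infinite.natEmbedding) and B_i. Let U be a
nonprincipal ultrafilter on ℕ (Filter.hyperfilter ℕ). For x <> 0 in F, finite_bad (C3) for {x} shows
B_i.valuation x = 1 for all but finitely many i, so for U-most i. So x in top iff for U-most i x in B_i: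
frels_ultra (TT/Frels) with B = top gives g with FRels φ top Δ g and FRels φ (B_i) Δ g for U-most i; g <> 0
(FRels.ne_zero), B_i.valuation g = 1 for U-most i, so by frels_iff FRels φ (B_i) Δ 1 for some i.
Contradiction. -/

namespace Pool.Agent.TT

open Pool.Agent.Helper16 Pool.Agent.Helper16.BB Pool.Agent.ThF Polynomial

variable {k σ N F : Type} [Field k] [Finite k] [Finite σ] {I : Set (MvPolynomial σ (RatFunc k))}
  [Field N] [Field F] [Algebra k F] [Algebra (RatFunc k) N]
  [Algebra (RatFunc k) F] [Algebra N F] [IsScalarTower k (RatFunc k) F]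
  [IsScalarTower (RatFunc k) N F] [Algebra.IsAlgebraic N F] [IsAlgClosed F]

theorem curve_support (hI : ∀ P ∈ I, ∃ d, P.IsHomogeneous d) (hN : IsFunctionField (RatFunc k) N)
    (φ : Quo (wOne σ) I →ₗ[ℚ] ℚ) {n : ℕ} (Δ : Fin n → CD σ F) (hΔ : ∀ l, (Δ l).Ok (k := k) I) :
    ∃ S : Finset (Place (RatFunc k) N), ∀ v, v ∉ S → ∀ B : ValuationSubring F, Above B v →
      FRels φ B Δ 1 := by
  classical
  let Bad : Set (Place (RatFunc k) N) :=
    {v | ∃ B : ValuationSubring F, Above B v ∧ ¬ FRels φ B Δ 1}
  by_cases hfin : Bad.Finite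
  · refine ⟨hfin.toFinset, fun v hv B hB => ?_⟩
    by_contra h
    exact hv (hfin.mem_toFinset.2 ⟨B, hB, h⟩)
  · exfalso
    have hinf : Bad.Infinite := hfin
    let e : ℕ ↪ Bad := hinf.natEmbedding
    choose B hB hB' using fun i : ℕ => (e i).2
    have hunit : ∀ x : F, x ≠ 0 →
        ∀ᶠ i in (Filter.hyperfilter ℕ : Filter ℕ), (B i).valuation x = 1 := by
      intro x hx
      obtain ⟨S, hS⟩ := finite_bad (F := F) hN {x} (by simpa using hx.symm)
      have hf : {i : ℕ | ((e i : Bad) : Place (RatFunc k) N) ∈ S}.Finite := by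
        refine Set.Finite.preimage (f := fun i : ℕ => ((e i : Bad) : Place (RatFunc k) N)) ?_
          S.finite_toSet
        intro i _ j _ hij
        exact e.injective (Subtype.ext hij)
      have hc : ∀ᶠ i in Filter.cofinite, ((e i : Bad) : Place (RatFunc k) N) ∉ S := by
        rw [Filter.eventually_cofinite]
        simpa using hf
      have hc' := hc.filter_mono (Filter.hyperfilter_le_cofinite (α := ℕ))
      filter_upwards [hc'] with i hi
      exact hS _ hi (B i) (hB i) x (by simp)
    have htop : ∀ x : F, x ∈ (⊤ : ValuationSubring F) ↔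
        ∀ᶠ i in (Filter.hyperfilter ℕ : Filter ℕ), x ∈ B i := by
      intro x
      refine ⟨fun _ => ?_, fun _ => ValuationSubring.mem_top x⟩
      by_cases hx : x = 0
      · subst hx
        exact Filter.Eventually.of_forall fun i => (B i).zero_mem
      · filter_upwards [hunit x hx] with i hi
        rw [← (B i).valuation_le_one_iff, hi]
    obtain ⟨g, hg, hg'⟩ := frels_ultra hI φ Δ hΔ (Filter.hyperfilter ℕ) B ⊤ htop
    have hg0 : g ≠ 0 := hg.ne_zero
    obtain ⟨i, hi1, hi2⟩ := (hg'.and (hunit g hg0)).exists
    refine hB' i ((frels_iff φ hi1 1).2 ?_)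
    rw [map_one, hi2]

end Pool.Agent.TT
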