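import Pool.Agent.TT.Defs

set_option autoImplicit false
set_option linter.unusedSectionVars false

/-! Project TT, block C (curves): definitions. `N` is a function field of one variable over
`K = k(t)`, `F` an algebraic closure of `N`. -/

namespace Pool.Agent.TT

open Pool.Agent.Helper16 Pool.Agent.Helper16.BB Pool.Agent.ThF Polynomial

/-- The valuation ring `B` of `F` contains `K`. -/
def HasK (K : Type) {F : Type} [Field K] [Field F] [Algebra K F] (B : ValuationSubring F) : Prop :=
  ∀ c : K, algebraMap K F c ∈ B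

/-- The valuation ring `B` of `F` lies above the place `v` of `N`. -/
def Above {K N F : Type} [Field K] [Field N] [Algebra K N] [Field F] [Algebra N F]
    (B : ValuationSubring F) (v : Place K N) : Prop :=
  ∀ x : N, algebraMap N F x ∈ B ↔ v.val x ≤ 1

/-- The place `π` of `F` with values in the algebraic closure of `K` is the identity on `K`. -/
def Pl.OverK {k F : Type} [Field k] [Field F] [Algebra k F] [Algebra (RatFunc k) F]
    (π : Pl k F (Kb k)) : Prop :=
  ∀ c : RatFunc k, π.Sp (algebraMap (RatFunc k) F c) (algebraMap (RatFunc k) (Kb k) c)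

/-- `z` is a point of `X` over `N`, and the `Δ l` are curves over `F` through `z`, with
parameter `s`, on which `t` has the right value at `s`. -/
structure Crv {k σ N F : Type} [Field k] [Field N] [Field F] [Algebra k F]
    [Algebra (RatFunc k) N] [Algebra (RatFunc k) F] [Algebra N F]
    (I : Set (MvPolynomial σ (RatFunc k))) (z : σ → N) {n : ℕ} (Δ : Fin n → CD σ F) : Prop where
  pos : 0 < n
  ok : ∀ l, (Δ l).Ok (k := k) I
  root : ∀ l, (Δ l).be.eval (Δ l).s ≠ 0 ∧
    tt k F * (Δ l).be.eval (Δ l).s = (Δ l).al.eval (Δ l).s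
  pt : IsPoint (wOne σ) I z
  prop : ∀ l, ∃ c : F, c ≠ 0 ∧ ∀ j, ((Δ l).P j).eval (Δ l).s = c * algebraMap N F (z j)

/-- Lower bound for the values `F_B(Δ)` at the valuation rings `B` over `K`:
`|F_B| ^ m ≥ |q| max(1, |a|)`. -/
def Low {k σ F : Type} [Field k] [Finite σ] [Field F] [Algebra k F] [Algebra (RatFunc k) F]
    {I : Set (MvPolynomial σ (RatFunc k))} (φ : Quo (wOne σ) I →ₗ[ℚ] ℚ) {n : ℕ}
    (Δ : Fin n → CD σ F) (m : ℕ) (q a : F) : Prop :=
  ∀ B : ValuationSubring F, HasK (RatFunc k) B → B ≠ ⊤ → ∀ g, FRels φ B Δ g →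
    B.valuation q * max 1 (B.valuation a) ≤ B.valuation g ^ m

end Pool.Agent.TT
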