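import Mathlib
import Pool.Agent.TT.CDefs

set_option autoImplicit false
set_option linter.unusedSectionVars false

/-! Project TT, block C, module C3: finitely many nonzero elements of `F` are units above almost all
places.

PLAN. It suffices to treat one x <> 0 (union of finite sets). p = minpoly N x. For every nonzero
coefficient c of p the set of v with v.ord c <> 0 is finite (IsFunctionField.product_formula). Let v be
outside: all coefficients are in v.ring and p.coeff 0 is a unit. B above v: x is integral over B (p is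
monic with coefficients in B), so x in B; and x * (p / X)(x) = - p.coeff 0 up to sign
(p.divX_mul_X_add), the right side a unit of B, so x is a unit of B (valuation 1). -/

namespace Pool.Agent.TT

open Pool.Agent.Helper16 Pool.Agent.Helper16.BB Pool.Agent.ThF Polynomial

variable {K N F : Type} [Field K] [Field N] [Field F] [Algebra K N] [Algebra N F] [Algebra K F]
  [IsScalarTower K N F] [Algebra.IsAlgebraic N F]

theorem c3_mem (B : ValuationSubring F) (p : N[X]) (hp : p.Monic) (x : F) (hx : aeval x p = 0)
    (h : ∀ i, algebraMap N F (p.coeff i) ∈ B) : x ∈ B := by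
  have h1 : ∀ c ∈ (p.map (algebraMap N F)).coeffs, c ∈ B.toSubring := by
    intro c hc
    obtain ⟨n, -, rfl⟩ := Polynomial.mem_coeffs_iff.1 hc
    rw [coeff_map]
    exact h n
  have h1' : (↑((p.map (algebraMap N F)).coeffs) : Set F) ⊆ B.toSubring := h1
  have h2 : IsIntegral B.toSubring x := by
    refine ⟨(p.map (algebraMap N F)).toSubring B.toSubring h1', ?_, ?_⟩
    · rw [Polynomial.monic_toSubring]
      exact hp.map _
    · have h3 := Polynomial.map_toSubring (p.map (algebraMap N F)) B.toSubring h1'
      have h4 : (algebraMap B.toSubring F) = B.toSubring.subtype := rfl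
      rw [h4, ← Polynomial.eval_map, h3, Polynomial.eval_map]
      exact hx
  have h5 : IsIntegral B x := h2
  obtain ⟨y, hy⟩ := (IsIntegrallyClosed.isIntegral_iff (R := B) (K := F)).1 h5
  rw [← hy]
  exact y.2

theorem c3_aeval_mem (B : ValuationSubring F) (p : N[X]) (x : F) (hx : x ∈ B)
    (h : ∀ i, algebraMap N F (p.coeff i) ∈ B) : aeval x p ∈ B := by
  rw [Polynomial.aeval_eq_sum_range]
  refine sum_mem fun i _ => ?_
  rw [Algebra.smul_def]
  exact mul_mem (h i) (pow_mem hx i)

theorem c3_one (hN : IsFunctionField K N) (x : F) (hx : x ≠ 0) :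
    ∃ S : Finset (Place K N), ∀ v, v ∉ S → ∀ B : ValuationSubring F, Above B v →
      B.valuation x = 1 := by
  classical
  have hint : IsIntegral N x := Algebra.IsIntegral.isIntegral x
  choose S hS hS' using fun c : N => hN.product_formula c
  refine ⟨(Finset.range ((minpoly N x).natDegree + 1)).biUnion fun i => S ((minpoly N x).coeff i),
    fun v hv B hB => ?_⟩
  have hc : ∀ i, (minpoly N x).coeff i ≠ 0 → v.val ((minpoly N x).coeff i) = 1 := by
    intro i hi
    have h1 : i ∈ Finset.range ((minpoly N x).natDegree + 1) := by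
      rw [Finset.mem_range]
      exact Nat.lt_succ_of_le (Polynomial.le_natDegree_of_ne_zero hi)
    have h2 : v ∉ S ((minpoly N x).coeff i) := fun h => hv (Finset.mem_biUnion.2 ⟨i, h1, h⟩)
    rw [hS, not_not] at h2
    exact (v.ord_eq_zero_iff hi).1 h2
  have hmem : ∀ i, algebraMap N F ((minpoly N x).coeff i) ∈ B := by
    intro i
    rw [hB]
    by_cases hi : (minpoly N x).coeff i = 0
    · rw [hi, map_zero]
      exact zero_le_one
    · exact (hc i hi).le
  have hxB : x ∈ B := c3_mem B _ (minpoly.monic hint) x (minpoly.aeval N x) hmem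
  have h0 : (minpoly N x).coeff 0 ≠ 0 := minpoly.coeff_zero_ne_zero hint hx
  have hu : B.valuation (algebraMap N F ((minpoly N x).coeff 0)) = 1 := by
    refine le_antisymm ((B.valuation_le_one_iff _).2 (hmem 0)) ?_
    have h1 : (algebraMap N F ((minpoly N x).coeff 0))⁻¹ ∈ B := by
      rw [← map_inv₀, hB, map_inv₀, hc 0 h0, inv_one]
    have h2 := (B.valuation_le_one_iff _).2 h1
    rw [map_inv₀] at h2
    have h3 : B.valuation (algebraMap N F ((minpoly N x).coeff 0)) ≠ 0 := by
      rw [Valuation.ne_zero_iff]
      exact (_root_.map_ne_zero _).2 h0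
    exact (inv_le_one₀ (zero_lt_iff.2 h3)).1 h2
  have hw : aeval x (minpoly N x).divX ∈ B := by
    refine c3_aeval_mem B _ x hxB fun i => ?_
    rw [Polynomial.coeff_divX]
    exact hmem _
  have he : aeval x (minpoly N x).divX * x = - algebraMap N F ((minpoly N x).coeff 0) := by
    have h1 := congrArg (aeval x) (Polynomial.divX_mul_X_add (minpoly N x))
    rw [minpoly.aeval, map_add, map_mul, aeval_X, aeval_C] at h1
    exact eq_neg_of_add_eq_zero_left h1
  have hv1 : B.valuation (aeval x (minpoly N x).divX) * B.valuation x = 1 := by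
    rw [← map_mul, he, Valuation.map_neg, hu]
  have hw1 : B.valuation (aeval x (minpoly N x).divX) ≤ 1 := (B.valuation_le_one_iff _).2 hw
  have hx1 : B.valuation x ≤ 1 := (B.valuation_le_one_iff _).2 hxB
  refine le_antisymm hx1 ?_
  calc (1 : B.ValueGroup) = B.valuation (aeval x (minpoly N x).divX) * B.valuation x := hv1.symm
    _ ≤ 1 * B.valuation x := mul_le_mul_left hw1 _
    _ = B.valuation x := one_mul _

/-- Finitely many nonzero elements of `F` are units above almost all places. -/
theorem finite_bad (hN : IsFunctionField K N) (T : Finset F) (hT : (0 : F) ∉ T) :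
    ∃ S : Finset (Place K N), ∀ v, v ∉ S → ∀ B : ValuationSubring F, Above B v →
      ∀ x ∈ T, B.valuation x = 1 := by
  classical
  have h : ∀ x : F, ∃ S : Finset (Place K N), x ≠ 0 → ∀ v, v ∉ S →
      ∀ B : ValuationSubring F, Above B v → B.valuation x = 1 := by
    intro x
    by_cases hx : x = 0
    · exact ⟨∅, fun h => absurd hx h⟩
    · obtain ⟨S, hS⟩ := c3_one hN x hx
      exact ⟨S, fun _ => hS⟩
  choose S hS using h
  refine ⟨T.biUnion S, fun v hv B hB x hx => ?_⟩
  have hx0 : x ≠ 0 := fun h0 => hT (h0 ▸ hx)
  exact hS x hx0 v (fun h => hv (Finset.mem_biUnion.2 ⟨x, hx, h⟩)) B hB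

end Pool.Agent.TT
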