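import Pool.Agent.TT.CDefs
import Pool.Agent.TT.Sp

set_option autoImplicit false
set_option linter.unusedSectionVars false

/-! Project TT, block C, module C4: the smallest valuation ring containing `A` and `K`. -/

namespace Pool.Agent.TT

open Pool.Agent.Helper16 Pool.Agent.Helper16.BB Pool.Agent.ThF Polynomial

variable {K F : Type} [Field K] [Field F] [Algebra K F]

/-- The valuation ring generated by `A` and `K`. -/
def coarseK (K : Type) {F : Type} [Field K] [Field F] [Algebra K F] (A : ValuationSubring F) :
    ValuationSubring F where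
  carrier := {x | ∃ c : K, c ≠ 0 ∧ A.valuation x ≤ A.valuation (algebraMap K F c)}
  mul_mem' := by
    rintro x y ⟨c, hc, hx⟩ ⟨d, hd, hy⟩
    refine ⟨c * d, mul_ne_zero hc hd, ?_⟩
    rw [map_mul, map_mul, map_mul]
    exact mul_le_mul' hx hy
  one_mem' := ⟨1, one_ne_zero, by rw [map_one, map_one, map_one]⟩
  add_mem' := by
    rintro x y ⟨c, hc, hx⟩ ⟨d, hd, hy⟩
    rcases le_total (A.valuation (algebraMap K F c)) (A.valuation (algebraMap K F d)) with h | h
    · exact ⟨d, hd, (A.valuation.map_add x y).trans (max_le (hx.trans h) hy)⟩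
    · exact ⟨c, hc, (A.valuation.map_add x y).trans (max_le hx (hy.trans h))⟩
  zero_mem' := ⟨1, one_ne_zero, by rw [map_zero]; exact zero_le⟩
  neg_mem' := by
    rintro x ⟨c, hc, hx⟩
    exact ⟨c, hc, by rw [Valuation.map_neg]; exact hx⟩
  mem_or_inv_mem' := by
    intro x
    rcases A.mem_or_inv_mem x with h | h
    · left
      exact ⟨1, one_ne_zero, by rw [map_one, map_one]; exact (A.valuation_le_one_iff x).2 h⟩
    · right
      exact ⟨1, one_ne_zero, by rw [map_one, map_one]; exact (A.valuation_le_one_iff _).2 h⟩

theorem mem_coarseK (A : ValuationSubring F) (x : F) :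
    x ∈ coarseK K A ↔ ∃ c : K, c ≠ 0 ∧ A.valuation x ≤ A.valuation (algebraMap K F c) := Iff.rfl

/-- The smallest valuation ring containing `A` and `K`. -/
theorem exists_coarse (A : ValuationSubring F) :
    ∃ B : ValuationSubring F, A ≤ B ∧ HasK K B ∧
      ∀ x y : F, y ≠ 0 → (∀ c : K, c ≠ 0 →
        A.valuation x < A.valuation y * A.valuation (algebraMap K F c)) →
        B.valuation x < B.valuation y := by
  refine ⟨coarseK K A, ?_, ?_, ?_⟩
  · intro x hx
    exact ⟨1, one_ne_zero, by rw [map_one, map_one]; exact (A.valuation_le_one_iff x).2 hx⟩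
  · intro c
    by_cases hc : c = 0
    · rw [hc, map_zero]
      exact zero_mem _
    · exact ⟨c, hc, le_rfl⟩
  · intro x y hy h
    rw [← not_le]
    intro hle
    by_cases hx : x = 0
    · rw [hx, map_zero, le_zero_iff] at hle
      exact hy (by simpa using hle)
    · rw [val_le_iff _ _ _ hx] at hle
      obtain ⟨c, hc, hyx⟩ := hle
      have h1 := h c⁻¹ (inv_ne_zero hc)
      have hx0 : 0 < A.valuation x := zero_lt_iff.2 (by simpa using hx)
      have hc0 : A.valuation (algebraMap K F c) ≠ 0 := by simpa using hc
      rw [map_div₀, div_le_iff₀ hx0] at hyx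
      rw [map_inv₀, map_inv₀] at h1
      have h2 : A.valuation y * (A.valuation (algebraMap K F c))⁻¹ ≤ A.valuation x := by
        calc A.valuation y * (A.valuation (algebraMap K F c))⁻¹
            ≤ (A.valuation (algebraMap K F c) * A.valuation x) *
              (A.valuation (algebraMap K F c))⁻¹ := mul_le_mul_left hyx _
          _ = A.valuation x := by
            rw [mul_comm (A.valuation (algebraMap K F c)), mul_assoc, mul_inv_cancel₀ hc0, mul_one]
      exact absurd h1 (not_lt.2 h2)

end Pool.Agent.TT
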