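import Pool.Agent.TT.C1
import Pool.Agent.TT.C4
import Pool.Agent.TT.Frels

set_option autoImplicit false
set_option linter.unusedSectionVars false

/-! Project TT, block C, module C5: the limit argument. -/

namespace Pool.Agent.TT

open Pool.Agent.Helper16 Pool.Agent.Helper16.BB Pool.Agent.ThF Polynomial

section ultra

variable {F : Type} [Field F]

/-- The limit of valuation rings along an ultrafilter. -/
def ultraLim {ι : Type} (U : Ultrafilter ι) (A : ι → ValuationSubring F) : ValuationSubring F where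
  carrier := {x | ∀ᶠ i in (U : Filter ι), x ∈ A i}
  mul_mem' := by
    intro x y hx hy
    filter_upwards [hx, hy] with i hi hi'
    exact mul_mem hi hi'
  one_mem' := Filter.Eventually.of_forall fun i => one_mem _
  add_mem' := by
    intro x y hx hy
    filter_upwards [hx, hy] with i hi hi'
    exact add_mem hi hi'
  zero_mem' := Filter.Eventually.of_forall fun i => zero_mem _
  neg_mem' := by
    intro x hx
    filter_upwards [hx] with i hi
    exact neg_mem hi
  mem_or_inv_mem' := by
    intro x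
    have h : ∀ᶠ i in (U : Filter ι), x ∈ A i ∨ x⁻¹ ∈ A i :=
      Filter.Eventually.of_forall fun i => (A i).mem_or_inv_mem x
    exact Ultrafilter.eventually_or.1 h

theorem mem_ultraLim {ι : Type} (U : Ultrafilter ι) (A : ι → ValuationSubring F) (x : F) :
    x ∈ ultraLim U A ↔ ∀ᶠ i in (U : Filter ι), x ∈ A i := Iff.rfl

theorem ultraLim_val_lt {ι : Type} (U : Ultrafilter ι) (A : ι → ValuationSubring F) {x y : F}
    (hx : x ≠ 0) (h : ∀ᶠ i in (U : Filter ι), (A i).valuation x < (A i).valuation y) :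
    (ultraLim U A).valuation x < (ultraLim U A).valuation y := by
  rw [← not_le, val_le_iff _ _ _ hx, mem_ultraLim]
  intro h'
  have h2 : ∀ᶠ i in (U : Filter ι), False := by
    filter_upwards [h, h'] with i hi hi'
    rw [← val_le_iff _ _ _ hx] at hi'
    exact absurd hi (not_lt.2 hi')
  rw [Filter.eventually_false_iff_eq_bot] at h2
  exact U.neBot.ne h2

end ultra

variable {k σ N F : Type} [Field k] [Finite k] [Finite σ] {I : Set (MvPolynomial σ (RatFunc k))}
  [Field N] [Field F] [Algebra k F] [Algebra (RatFunc k) N]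
  [Algebra (RatFunc k) F] [Algebra N F] [IsScalarTower k (RatFunc k) F]
  [IsScalarTower (RatFunc k) N F] [Algebra.IsAlgebraic N F] [IsAlgClosed F]

/-- If `F_B(Δ)` is bounded below at all valuation rings over `K`, then so is the value of the
reductions of `Δ` at almost all places, up to finitely many constants of `K`. -/
theorem curve_limit (hI : ∀ P ∈ I, ∃ d, P.IsHomogeneous d) (hN : IsFunctionField (RatFunc k) N)
    (φ : Quo (wOne σ) I →ₗ[ℚ] ℚ) {n : ℕ} (Δ : Fin n → CD σ F) (hΔ : ∀ l, (Δ l).Ok (k := k) I)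
    {m : ℕ} {q a : F} (hq : q ≠ 0) (ha : a ≠ 0) (hlow : Low φ Δ m q a) :
    ∃ (T : Finset F) (C : Finset (RatFunc k)), 0 ∉ T ∧ 0 ∉ C ∧ ∀ π : Pl k F (Kb k), π.OverK →
      π.Surj → (∀ x ∈ T, π.A.valuation x = 1) →
      ∃ Δ' : Fin n → CD σ (Kb k), (∀ l, (Δ' l).Ok (k := k) I) ∧ (∀ l, (Δ' l).b = (Δ l).b) ∧
        (∀ l, π.SpD (Δ l) (Δ' l)) ∧ ∀ q' a' : Kb k, π.Sp q q' → π.Sp a a' → q' ≠ 0 ∧ a' ≠ 0 ∧
          ∀ A : ValuationSubring (Kb k), ∀ g, FRels φ A Δ' g →
            A.valuation q' * max 1 (A.valuation a') *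
              ∏ c ∈ C, min 1 (A.valuation (algebraMap (RatFunc k) (Kb k) c)) ≤
                A.valuation g ^ m := by
  classical
  obtain ⟨T₀, hT₀, hred⟩ := frels_red hI Δ hΔ
  set T : Finset F := insert q (insert a T₀) with hT
  have hT0 : (0 : F) ∉ T := by
    rw [hT, Finset.mem_insert, Finset.mem_insert]
    rintro (h | h | h)
    · exact hq h.symm
    · exact ha h.symm
    · exact hT₀ h
  by_contra hcon
  -- a counterexample for every finite set of constants
  have key : ∀ C : Finset (RatFunc k), ∃ (A : ValuationSubring F) (g : F), g ≠ 0 ∧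
      FRels φ A Δ g ∧ ∀ c ∈ C, c ≠ 0 → A.valuation g ^ m <
        A.valuation q * max 1 (A.valuation a) * A.valuation (algebraMap (RatFunc k) F c) := by
    intro C
    by_contra hC
    apply hcon
    refine ⟨T, C.erase 0, hT0, Finset.notMem_erase _ _, ?_⟩
    intro π hπK hπ hu
    obtain ⟨Δ', h1, h2, h3, h4⟩ := hred (Kb k) π hπ fun x hx =>
      hu x (Finset.mem_insert_of_mem (Finset.mem_insert_of_mem hx))
    refine ⟨Δ', h1, h2, h3, ?_⟩
    intro q' a' hq' ha'
    have hvq : π.A.valuation q = 1 := hu q (Finset.mem_insert_self _ _)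
    have hva : π.A.valuation a = 1 :=
      hu a (Finset.mem_insert_of_mem (Finset.mem_insert_self _ _))
    have hq0 : q' ≠ 0 := by
      intro h
      rw [hq'.eq_zero_iff, hvq] at h
      exact lt_irrefl _ h
    have ha0 : a' ≠ 0 := by
      intro h
      rw [ha'.eq_zero_iff, hva] at h
      exact lt_irrefl _ h
    refine ⟨hq0, ha0, ?_⟩
    intro A g' hg'
    by_contra hlt
    rw [not_le] at hlt
    apply hC
    have hg0 : g' ≠ 0 := hg'.ne_zero
    obtain ⟨g, hg⟩ := hπ g'
    refine ⟨π.pull A, g, hg.ne_zero hg0, (h4 φ A g g' hg0 hg).2 hg', ?_⟩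
    intro c hc hc0
    have hcS : π.Sp (algebraMap (RatFunc k) F c) (algebraMap (RatFunc k) (Kb k) c) := hπK c
    have hc0' : algebraMap (RatFunc k) (Kb k) c ≠ 0 := by simpa using hc0
    -- the product is at most the factor at `c`
    have hprod : ∏ c ∈ C.erase 0, min 1 (A.valuation (algebraMap (RatFunc k) (Kb k) c)) ≤
        A.valuation (algebraMap (RatFunc k) (Kb k) c) := by
      have hmem : c ∈ C.erase 0 := Finset.mem_erase.2 ⟨hc0, hc⟩
      rw [← Finset.mul_prod_erase _ _ hmem]
      calc _ ≤ A.valuation (algebraMap (RatFunc k) (Kb k) c) * 1 :=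
            mul_le_mul' (min_le_right _ _)
              (Finset.prod_le_one' fun i _ => min_le_left _ _)
        _ = _ := mul_one _
    have hlt2 : A.valuation (g' ^ m) < A.valuation q' * max 1 (A.valuation a') *
        A.valuation (algebraMap (RatFunc k) (Kb k) c) := by
      rw [map_pow]
      exact hlt.trans_le (mul_le_mul' le_rfl hprod)
    rcases le_total (A.valuation a') 1 with hle | hle
    · rw [max_eq_left hle, mul_one, ← map_mul] at hlt2
      have h5 := (π.pull_val_lt A (hg.pow m) (hq'.mul hcS) (pow_ne_zero m hg0)).2 hlt2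
      rw [map_pow, map_mul] at h5
      refine h5.trans_le ?_
      have h6 : (π.pull A).valuation q * 1 ≤
          (π.pull A).valuation q * max 1 ((π.pull A).valuation a) :=
        mul_le_mul' le_rfl (le_max_left _ _)
      rw [mul_one] at h6
      exact mul_le_mul' h6 le_rfl
    · rw [max_eq_right hle, ← map_mul, ← map_mul] at hlt2
      have h5 := (π.pull_val_lt A (hg.pow m) ((hq'.mul ha').mul hcS) (pow_ne_zero m hg0)).2 hlt2
      rw [map_pow, map_mul, map_mul] at h5
      refine h5.trans_le ?_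
      have h6 : (π.pull A).valuation q * (π.pull A).valuation a ≤
          (π.pull A).valuation q * max 1 ((π.pull A).valuation a) :=
        mul_le_mul' le_rfl (le_max_right _ _)
      exact mul_le_mul' h6 le_rfl
  choose A g hg0 hg hlt using key
  -- the limit
  set U : Ultrafilter (Finset (RatFunc k)) := Ultrafilter.of Filter.atTop with hU
  have hUmem : ∀ c : RatFunc k, ∀ᶠ C in (U : Filter (Finset (RatFunc k))), c ∈ C := by
    intro c
    have h1 : ∀ᶠ C in (Filter.atTop : Filter (Finset (RatFunc k))), c ∈ C := by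
      filter_upwards [Filter.eventually_ge_atTop ({c} : Finset (RatFunc k))] with C hC
      exact hC (Finset.mem_singleton_self c)
    exact (Ultrafilter.of_le _) h1
  obtain ⟨g₀, hg₀, hev⟩ := frels_ultra hI φ Δ hΔ U A (ultraLim U A) (fun x => Iff.rfl)
  have hg₀0 : g₀ ≠ 0 := hg₀.ne_zero
  -- `a₁` is the larger one of `1` and `a`
  obtain ⟨a₁, ha₁0, ha₁, ha₁'⟩ : ∃ a₁ : F, a₁ ≠ 0 ∧ (∀ B : ValuationSubring F,
      B.valuation a₁ ≤ max 1 (B.valuation a)) ∧
      ∀ᶠ C in (U : Filter (Finset (RatFunc k))), max 1 ((A C).valuation a) =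
        (A C).valuation a₁ := by
    by_cases h : ∀ᶠ C in (U : Filter (Finset (RatFunc k))), (A C).valuation a ≤ 1
    · refine ⟨1, one_ne_zero, fun B => by rw [map_one]; exact le_max_left _ _, ?_⟩
      filter_upwards [h] with C hC
      rw [max_eq_left hC, map_one]
    · refine ⟨a, ha, fun B => le_max_right _ _, ?_⟩
      have h' : ∀ᶠ C in (U : Filter (Finset (RatFunc k))), ¬ (A C).valuation a ≤ 1 :=
        Ultrafilter.eventually_not.2 h
      filter_upwards [h'] with C hC
      rw [max_eq_right (not_le.1 hC).le]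
  have hlim : ∀ c : RatFunc k, c ≠ 0 → (ultraLim U A).valuation (g₀ ^ m) <
      (ultraLim U A).valuation (q * a₁) *
        (ultraLim U A).valuation (algebraMap (RatFunc k) F c) := by
    intro c hc
    rw [← map_mul]
    apply ultraLim_val_lt U A (pow_ne_zero m hg₀0)
    filter_upwards [hUmem c, hev, ha₁'] with C h1 h2 h3
    have h4 := hlt C c h1 hc
    rw [h3, ← (frels_iff φ (hg C) g₀).1 h2] at h4
    rw [map_pow, map_mul, map_mul]
    exact h4
  -- the coarsening
  obtain ⟨B, hAB, hKB, hB⟩ := exists_coarse (K := RatFunc k) (ultraLim U A)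
  have hlt3 : B.valuation (g₀ ^ m) < B.valuation (q * a₁) :=
    hB _ _ (mul_ne_zero hq ha₁0) hlim
  have htop : B ≠ ⊤ := by
    rintro rfl
    have h1 : ((⊤ : ValuationSubring F).valuation (q * a₁)) ≤
        (⊤ : ValuationSubring F).valuation (g₀ ^ m) := by
      rw [val_le_iff _ _ _ (pow_ne_zero m hg₀0)]
      exact ValuationSubring.mem_top _
    exact absurd hlt3 (not_lt.2 h1)
  have hgB : FRels φ B Δ g₀ := frels_coarse hI φ Δ hΔ hAB hKB
    (fun x hx => residue_algebraic hN B hKB htop x hx) hg₀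
  have h1 := hlow B hKB htop g₀ hgB
  rw [map_pow, map_mul] at hlt3
  exact absurd (h1.trans_lt hlt3) (not_lt.2 (mul_le_mul' le_rfl (ha₁ B)))

end Pool.Agent.TT
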