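import Mathlib
import Pool.Agent.TT.Defs

set_option autoImplicit false
set_option linter.unusedSectionVars false
set_option linter.style.haveILetI false

/-! Project TT, block B: heights on the algebraic closure of `k(t)`. -/

namespace Pool.Agent.TT

open Pool.Agent.Helper16 Pool.Agent.Helper16.BB Pool.Agent.ThF Polynomial

/-- The subfield `k(a)`. -/
noncomputable def sfk (k : Type) [Field k] {L : Type} [Field L] [Algebra k L] (a : L) :
    Subfield L := (IntermediateField.adjoin k {a}).toSubfield

theorem sfk_map {k L L' : Type} [Field k] [Field L] [Algebra k L] [Field L'] [Algebra k L']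
    (f : L →ₐ[k] L') (a : L) : (sfk k a).map (f : L →+* L') = sfk k (f a) := by
  have h1 : (IntermediateField.adjoin k {a}).map f = IntermediateField.adjoin k {f a} := by
    rw [IntermediateField.adjoin_map, Set.image_singleton]
  have h2 := congrArg IntermediateField.toSubfield h1
  rw [sfk, sfk, ← h2]
  rfl

theorem sfk_top {k L : Type} [Field k] [Field L] [Algebra k L] (a : L) :
    (sfk k a).relfinrank ⊤ = Module.finrank (IntermediateField.adjoin k {a}) L := by
  rw [Subfield.relfinrank_top_right]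
  rfl

/-- The height. -/
noncomputable def hgt (k : Type) [Field k] (a : Kb k) : ℚ :=
  open scoped Classical in
  if Transcendental k a then
    ((sfk k a).relfinrank (sfk (RatFunc k) a) : ℚ) /
      ((⊥ : IntermediateField (RatFunc k) (Kb k)).toSubfield.relfinrank (sfk (RatFunc k) a) : ℚ)
  else 0

section

variable {k : Type} [Field k]

theorem sfk_range (E : IntermediateField (RatFunc k) (Kb k)) :
    (⊤ : Subfield E).map (algebraMap E (Kb k)) = E.toSubfield := by
  ext x
  simp only [Subfield.mem_map, Subfield.mem_top, true_and]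
  constructor
  · rintro ⟨y, rfl⟩
    exact y.2
  · intro hx
    exact ⟨⟨x, hx⟩, rfl⟩

theorem sfk_le (a : Kb k) : sfk k a ≤ sfk (RatFunc k) a := by
  have h1 : Set.range (algebraMap k (Kb k)) ∪ {a} ⊆
      Set.range (algebraMap (RatFunc k) (Kb k)) ∪ {a} := by
    refine Set.union_subset_union_left _ ?_
    rintro _ ⟨c, rfl⟩
    exact ⟨algebraMap k (RatFunc k) c, (IsScalarTower.algebraMap_apply k (RatFunc k) (Kb k) c).symm⟩
  exact Subfield.closure_mono h1

theorem hgt_eq (E : IntermediateField (RatFunc k) (Kb k)) [FiniteDimensional (RatFunc k) E]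
    (a : E) (ha : Transcendental k (a : Kb k)) :
    (Module.finrank (IntermediateField.adjoin k {a}) E : ℚ) =
      Module.finrank (RatFunc k) E * hgt k a := by
  haveI hst : IsScalarTower k E (Kb k) := IsScalarTower.of_algebraMap_eq fun a => by
    rw [IsScalarTower.algebraMap_apply k (RatFunc k) (Kb k),
      IsScalarTower.algebraMap_apply k (RatFunc k) E]
    rfl
  have h1 : Module.finrank (IntermediateField.adjoin k {a}) E =
      (sfk k (a : Kb k)).relfinrank E.toSubfield := by
    have h2 := Subfield.relfinrank_map_map (sfk k a) ⊤ (algebraMap E (Kb k))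
    rw [sfk_top, sfk_range] at h2
    rw [← h2]
    congr 1
    exact sfk_map (IsScalarTower.toAlgHom k E (Kb k)) a
  have h3 : sfk (RatFunc k) (a : Kb k) ≤ E.toSubfield := by
    have h4 : IntermediateField.adjoin (RatFunc k) {(a : Kb k)} ≤ E :=
      IntermediateField.adjoin_le_iff.2 (by
        rintro _ rfl
        exact a.2)
    exact h4
  have h5 : sfk k (a : Kb k) ≤ sfk (RatFunc k) (a : Kb k) := sfk_le _
  have h6 : (⊥ : IntermediateField (RatFunc k) (Kb k)).toSubfield ≤
      sfk (RatFunc k) (a : Kb k) := by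
    have h4 : (⊥ : IntermediateField (RatFunc k) (Kb k)) ≤
      IntermediateField.adjoin (RatFunc k) {(a : Kb k)} := bot_le
    exact h4
  have h7 := Subfield.relfinrank_mul_relfinrank h5 h3
  have h8 := Subfield.relfinrank_mul_relfinrank h6 h3
  have h9 : (⊥ : IntermediateField (RatFunc k) (Kb k)).toSubfield.relfinrank E.toSubfield =
      Module.finrank (RatFunc k) E := IntermediateField.relfinrank_bot_left E
  have h10 : 0 < Module.finrank (RatFunc k) E := Module.finrank_pos
  rw [h9] at h8
  have h11 : (⊥ : IntermediateField (RatFunc k) (Kb k)).toSubfield.relfinrank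
      (sfk (RatFunc k) (a : Kb k)) ≠ 0 := by
    intro h0
    rw [h0, zero_mul] at h8
    omega
  have h12 : ((⊥ : IntermediateField (RatFunc k) (Kb k)).toSubfield.relfinrank
      (sfk (RatFunc k) (a : Kb k)) : ℚ) ≠ 0 := by exact_mod_cast h11
  rw [h1, ← h7, ← h8, hgt, if_pos ha]
  push_cast
  field_simp

theorem hgt_nonneg (a : Kb k) : 0 ≤ hgt k a := by
  unfold hgt
  split_ifs
  · positivity
  · exact le_rfl

theorem hgt_t (m : ℕ) : (m : ℚ) ≤ hgt k (tt k (Kb k) ^ m) := by
  rcases Nat.eq_zero_or_pos m with rfl | hm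
  · simpa using hgt_nonneg _
  have htr : Transcendental k (tt k (Kb k) ^ m) := (transcendental_tb (k := k)).pow hm
  have h1 : sfk (RatFunc k) (tt k (Kb k) ^ m) =
      (⊥ : IntermediateField (RatFunc k) (Kb k)).toSubfield := by
    have h2 : IntermediateField.adjoin (RatFunc k) {tt k (Kb k) ^ m} = ⊥ := by
      rw [IntermediateField.adjoin_simple_eq_bot_iff, IntermediateField.mem_bot]
      exact ⟨RatFunc.X ^ m, by rw [map_pow]⟩
    rw [sfk, h2]
  rw [hgt, if_pos htr, h1, Subfield.relfinrank_self, Nat.cast_one, div_one]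
  have h3 : (⊤ : Subfield (RatFunc k)).map (algebraMap (RatFunc k) (Kb k)) =
      (⊥ : IntermediateField (RatFunc k) (Kb k)).toSubfield := by
    ext x
    simp only [Subfield.mem_map, Subfield.mem_top, true_and]
    exact IntermediateField.mem_bot.symm
  have h4 := Subfield.relfinrank_map_map (sfk k ((RatFunc.X : RatFunc k) ^ m)) ⊤
    (algebraMap (RatFunc k) (Kb k))
  rw [h3, sfk_top] at h4
  have h5 : (sfk k ((RatFunc.X : RatFunc k) ^ m)).map (algebraMap (RatFunc k) (Kb k)) =
      sfk k (tt k (Kb k) ^ m) := by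
    have h6 := sfk_map (IsScalarTower.toAlgHom k (RatFunc k) (Kb k)) ((RatFunc.X : RatFunc k) ^ m)
    rw [map_pow] at h6
    exact h6
  rw [h5] at h4
  rw [h4]
  have h7 := RatFunc.finrank_eq_max_natDegree ((RatFunc.X : RatFunc k) ^ m)
  rw [h7]
  have h8 : ((RatFunc.X : RatFunc k) ^ m).num = Polynomial.X ^ m := by
    have h9 : (RatFunc.X : RatFunc k) ^ m = algebraMap k[X] (RatFunc k) (Polynomial.X ^ m) := by
      rw [map_pow, RatFunc.algebraMap_X]
    rw [h9, RatFunc.num_algebraMap]
  rw [h8, natDegree_X_pow]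
  exact_mod_cast le_max_left _ _

/-- B12. Heights. -/
theorem exists_height (k : Type) [Field k] [Finite k] :
    ∃ ht : Kb k → ℚ, (∀ a, 0 ≤ ht a) ∧ (∀ m : ℕ, (m : ℚ) ≤ ht (tt k (Kb k) ^ m)) ∧
      ∀ (E : IntermediateField (RatFunc k) (Kb k)) [FiniteDimensional (RatFunc k) E] (a : E),
        a ≠ 0 → ∃ U₀ : Finset (Place k E), ∀ U : Finset (Place k E), U₀ ⊆ U →
          ∑ u ∈ U, (u.deg : ℚ) * max 0 (u.ord a : ℚ) = Module.finrank (RatFunc k) E * ht a ∧
          ∑ u ∈ U, (u.deg : ℚ) * max 0 (-u.ord a : ℚ) = Module.finrank (RatFunc k) E * ht a ∧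
          ∑ u ∈ U, (u.deg : ℚ) * (u.ord a : ℚ) = 0 := by
  classical
  refine ⟨hgt k, hgt_nonneg, hgt_t, ?_⟩
  intro E _ a ha0
  have hE : IsFunctionField k E := (isFunctionField_K (k := k)).of_finite
  haveI hst : IsScalarTower k E (Kb k) := IsScalarTower.of_algebraMap_eq fun a => by
    rw [IsScalarTower.algebraMap_apply k (RatFunc k) (Kb k),
      IsScalarTower.algebraMap_apply k (RatFunc k) E]
    rfl
  by_cases halg : IsAlgebraic k a
  · have h1 : ∀ u : Place k E, u.ord a = 0 := fun u =>
      (u.ord_eq_zero_iff ha0).2 (u.val_eq_one_of_algebraic halg ha0)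
    have h2 : hgt k (a : Kb k) = 0 := by
      have h3 : ¬ Transcendental k (a : Kb k) := fun h =>
        h (halg.algHom (IsScalarTower.toAlgHom k E (Kb k)))
      rw [hgt, if_neg h3]
    refine ⟨∅, fun U _ => ?_⟩
    simp [h1, h2]
  · have htr : Transcendental k (a : Kb k) := by
      intro h
      apply halg
      exact (isAlgebraic_algebraMap_iff (algebraMap E (Kb k)).injective).1 h
    obtain ⟨S, hS, hSsum, -⟩ := hE.zeros a halg
    obtain ⟨S', hS', hSsum', -⟩ := hE.zeros a⁻¹ (transcendental_inv halg)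
    rw [finrank_inv] at hSsum'
    have hfin := hgt_eq E a htr
    refine ⟨S ∪ S', fun U hU => ?_⟩
    have hSU : S ⊆ U := Finset.subset_union_left.trans hU
    have hSU' : S' ⊆ U := Finset.subset_union_right.trans hU
    have h1 : ∑ u ∈ U, (u.deg : ℚ) * max 0 (u.ord a : ℚ) =
        Module.finrank (RatFunc k) E * hgt k a := by
      rw [← hfin]
      have h3 : ((∑ v ∈ S, v.ord a * (v.deg : ℤ) : ℤ) : ℚ) =
        (Module.finrank (IntermediateField.adjoin k {a}) E : ℚ) := by
        rw [hSsum]
        simp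
      rw [← h3]
      push_cast
      symm
      have h4 : ∑ u ∈ S, (u.ord a : ℚ) * (u.deg : ℚ) =
          ∑ u ∈ S, (u.deg : ℚ) * max 0 (u.ord a : ℚ) := by
        refine Finset.sum_congr rfl fun u hu => ?_
        have h5 := (u.ord_pos_iff ha0).2 ((hS u).1 hu)
        rw [max_eq_right (by exact_mod_cast h5.le), mul_comm]
      rw [h4]
      refine Finset.sum_subset hSU fun u _ hu => ?_
      have h5 : u.ord a ≤ 0 := by
        by_contra h6
        rw [not_le] at h6
        exact hu ((hS u).2 ((u.ord_pos_iff ha0).1 h6))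
      rw [max_eq_left (by exact_mod_cast h5), mul_zero]
    have h2 : ∑ u ∈ U, (u.deg : ℚ) * max 0 (-u.ord a : ℚ) =
        Module.finrank (RatFunc k) E * hgt k a := by
      rw [← hfin]
      have h3 : ((∑ v ∈ S', v.ord a⁻¹ * (v.deg : ℤ) : ℤ) : ℚ) =
        (Module.finrank (IntermediateField.adjoin k {a}) E : ℚ) := by
        rw [hSsum']
        simp
      rw [← h3]
      push_cast
      symm
      have ha0' : a⁻¹ ≠ 0 := inv_ne_zero ha0
      have h4 : ∑ u ∈ S', (u.ord a⁻¹ : ℚ) * (u.deg : ℚ) =
          ∑ u ∈ S', (u.deg : ℚ) * max 0 (-u.ord a : ℚ) := by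
        refine Finset.sum_congr rfl fun u hu => ?_
        have h5 := (u.ord_pos_iff ha0').2 ((hS' u).1 hu)
        rw [u.ord_inv] at h5 ⊢
        push_cast
        rw [max_eq_right (by
          have : (0 : ℚ) < ((-u.ord a : ℤ) : ℚ) := by exact_mod_cast h5
          push_cast at this
          exact this.le), mul_comm]
      rw [h4]
      refine Finset.sum_subset hSU' fun u _ hu => ?_
      have h5 : 0 ≤ u.ord a := by
        by_contra h6
        rw [not_le] at h6
        apply hu
        rw [hS', ← u.ord_pos_iff ha0', u.ord_inv]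
        omega
      rw [max_eq_left (by
        have : (0 : ℚ) ≤ (u.ord a : ℚ) := by exact_mod_cast h5
        linarith), mul_zero]
    refine ⟨h1, h2, ?_⟩
    have h3 : ∑ u ∈ U, (u.deg : ℚ) * (u.ord a : ℚ) =
        ∑ u ∈ U, (u.deg : ℚ) * max 0 (u.ord a : ℚ) -
        ∑ u ∈ U, (u.deg : ℚ) * max 0 (-u.ord a : ℚ) := by
      rw [← Finset.sum_sub_distrib]
      refine Finset.sum_congr rfl fun u _ => ?_
      rw [← mul_sub]
      congr 1
      rcases le_total 0 (u.ord a : ℚ) with h4 | h4
      · rw [max_eq_right h4, max_eq_left (by linarith), sub_zero]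
      · rw [max_eq_left h4, max_eq_right (by linarith)]
        ring
    rw [h3, h1, h2, sub_self]

end

end Pool.Agent.TT
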