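import Pool.Agent.TT.BRel

set_option autoImplicit false
set_option linter.unusedSectionVars false
set_option linter.style.haveILetI false

/-! Project TT, block B, B11: the formula for the class of the point with parameter `δ.s`. -/

namespace Pool.Agent.TT

open Pool.Agent.Helper16 Pool.Agent.Helper16.BB Pool.Agent.ThF Polynomial IntermediateField

section

variable {k E N σ : Type} [Field k] [Field E] [Field N] [Algebra k E] [Algebra k N] [Algebra E N]
  [Algebra (RatFunc k) N] [IsScalarTower k E N] [IsScalarTower k (RatFunc k) N]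
variable {I : Set (MvPolynomial σ (RatFunc k))} {δ : CD σ E} {X : N}

theorem bform_transcendental (h : Gl I δ X) (s : E) :
    Transcendental E (X - algebraMap E N s) := by
  intro h1
  apply h.tr
  have h2 : X = (X - algebraMap E N s) + algebraMap E N s := by ring
  rw [h2]
  exact h1.add (isAlgebraic_algebraMap _)

/-- The place `X = s` of `N / E`. -/
theorem bform_zero (h : Gl I δ X) (s : E) : ∃ w : Place E N,
    (∀ w' : Place E N, w'.val (X - algebraMap E N s) < 1 → w' = w) ∧
    w.val (X - algebraMap E N s) < 1 ∧ w.ord (X - algebraMap E N s) = 1 ∧ w.deg = 1 := by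
  set g : N := X - algebraMap E N s with hg
  have hgtr := bform_transcendental h s
  have hg0 : g ≠ 0 := transcendental_ne_zero hgtr
  have htop : E⟮g⟯ = ⊤ := by
    rw [eq_top_iff]
    rintro x -
    have hX : X ∈ E⟮g⟯ := by
      have h2 : X = g + algebraMap E N s := by rw [hg]; ring
      rw [h2]
      exact add_mem (mem_adjoin_simple_self E g) (E⟮g⟯.algebraMap_mem s)
    obtain ⟨F, G, hG, rfl⟩ := h.frac x
    have h3 : ∀ p : E[X], aeval X p ∈ E⟮g⟯ := by
      intro p
      exact (Algebra.adjoin_le (S := E⟮g⟯.toSubalgebra) (by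
        rintro y rfl
        exact hX)) (aeval_mem_adjoin_singleton E X)
    exact div_mem (h3 F) (h3 G)
  have hfin : Module.finrank E⟮g⟯ N = 1 := by
    rw [htop]
    exact IntermediateField.finrank_top
  obtain ⟨S, hS, hsum, -⟩ := h.hNE.zeros g hgtr
  rw [hfin] at hsum
  have hpos : ∀ w ∈ S, 0 < w.ord g ∧ (0 : ℤ) < w.deg := by
    intro w hw
    refine ⟨(w.ord_pos_iff hg0).2 ((hS w).1 hw), ?_⟩
    exact_mod_cast w.deg_pos h.hNE
  obtain ⟨w, hw⟩ := h.hNE.exists_zero g hgtr
  have hwS : w ∈ S := (hS w).2 hw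
  have hterm : ∀ w ∈ S, 0 < w.ord g * (w.deg : ℤ) := fun w hw =>
    mul_pos (hpos w hw).1 (hpos w hw).2
  refine ⟨w, ?_, hw, ?_⟩
  · intro w' hw'
    by_contra hne
    have hw'S : w' ∈ S := (hS w').2 hw'
    classical
    have h1 : ∑ v ∈ ({w', w} : Finset (Place E N)), v.ord g * (v.deg : ℤ) ≤
        ∑ v ∈ S, v.ord g * (v.deg : ℤ) := by
      refine Finset.sum_le_sum_of_subset_of_nonneg ?_ fun v hv _ => (hterm v hv).le
      intro v hv
      rcases Finset.mem_insert.1 hv with rfl | hv
      · exact hw'S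
      · rw [Finset.mem_singleton.1 hv]
        exact hwS
    rw [Finset.sum_pair hne, hsum] at h1
    have h2 := hterm w hwS
    have h3 := hterm w' hw'S
    push_cast at h1
    omega
  · have h1 : w.ord g * (w.deg : ℤ) ≤ ∑ v ∈ S, v.ord g * (v.deg : ℤ) :=
      Finset.single_le_sum (f := fun v : Place E N => v.ord g * (v.deg : ℤ))
        (fun v hv => (hterm v hv).le) hwS
    rw [hsum] at h1
    have h2 := hterm w hwS
    push_cast at h1
    have h3 : w.ord g * (w.deg : ℤ) = 1 := by omega
    have h4 := Int.eq_one_or_neg_one_of_mul_eq_one h3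
    have h5 : w.ord g = 1 := by
      have := (hpos w hwS).1
      omega
    rw [h5, one_mul] at h3
    exact ⟨h5, by exact_mod_cast h3⟩

/-- The degree over `K` of a place of `N` trivial on `E` and rational over `E`. -/
theorem bform_deg [Algebra (RatFunc k) E] [IsScalarTower k (RatFunc k) E] (w : Place E N)
    (hw : w.deg = 1) (v : Place (RatFunc k) N) (hv : v.val = w.val)
    (hclose : v.val (tt k N - algebraMap E N (tt k E)) < 1) :
    v.deg = Module.finrank (RatFunc k) E := by
  have hmem : ∀ a : E, algebraMap E N a ∈ v.ring := by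
    intro a
    rw [v.mem_ring, hv]
    exact w.val_algebraMap_le a
  let j : E →+* v.resField :=
    { toFun := fun a => v.res (algebraMap E N a)
      map_one' := by rw [map_one, v.res_one]
      map_mul' := fun a b => by rw [map_mul, v.res_mul (hmem a) (hmem b)]
      map_zero' := by rw [map_zero, v.res_zero]
      map_add' := fun a b => by rw [map_add, v.res_add (hmem a) (hmem b)] }
  have hj : ∀ a : E, j a = v.res (algebraMap E N a) := fun a => rfl
  have hcomp : algebraMap (RatFunc k) v.resField = j.comp (algebraMap (RatFunc k) E) := by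
    apply ratFunc_hom_ext
    · intro a
      rw [RingHom.comp_apply, hj, ← v.res_algebraMap, ← IsScalarTower.algebraMap_apply k (RatFunc k) E,
        ← IsScalarTower.algebraMap_apply k E N, ← IsScalarTower.algebraMap_apply k (RatFunc k) N]
    · rw [RingHom.comp_apply, hj, ← v.res_algebraMap, ← sub_eq_zero,
        ← v.res_sub (v.ring.algebraMap_mem _) (hmem _),
        v.res_eq_zero_iff (sub_mem (v.ring.algebraMap_mem _) (hmem _))]
      exact hclose
  let J : E →ₐ[RatFunc k] v.resField :=
    { toRingHom := j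
      commutes' := fun c => (RingHom.congr_fun hcomp c).symm }
  have hsurj : Function.Surjective J := by
    intro r
    obtain ⟨x, hx, rfl⟩ := v.res_surj r
    have hx' : w.val x ≤ 1 := by
      rw [← hv]
      exact hx
    obtain ⟨a, ha⟩ := exists_smul_eq_of_finrank_eq_one (K := E) (V := w.resField) hw
      one_ne_zero (w.res x)
    refine ⟨a, ?_⟩
    change v.res (algebraMap E N a) = v.res x
    have h1 : w.res (algebraMap E N a) = w.res x := by
      rw [w.res_algebraMap, ← ha, Algebra.smul_def, mul_one]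
    rw [← sub_eq_zero, ← w.res_sub (w.ring.algebraMap_mem _) hx',
      w.res_eq_zero_iff (sub_mem (w.ring.algebraMap_mem _) hx')] at h1
    rw [← sub_eq_zero, ← v.res_sub (hmem _) hx, v.res_eq_zero_iff (sub_mem (hmem _) hx), hv]
    exact h1
  have e : E ≃ₐ[RatFunc k] v.resField := AlgEquiv.ofBijective J ⟨J.toRingHom.injective, hsurj⟩
  exact (e.toLinearEquiv.finrank_eq).symm

/-- B11. -/
theorem gl_formula [Finite k] [Finite σ] [Algebra (RatFunc k) E] [IsScalarTower k (RatFunc k) E]
    [FiniteDimensional (RatFunc k) E] (hI : ∀ P ∈ I, ∃ d, P.IsHomogeneous d) (h : Gl I δ X)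
    (j₀ : E →ₐ[RatFunc k] Kb k) (hs : δ.be.eval δ.s ≠ 0)
    (hts : tt k E * δ.be.eval δ.s = δ.al.eval δ.s)
    (hx : IsPoint (wOne σ) I (fun j => j₀ ((δ.P j).eval δ.s)))
    (S : Place k E → Finset (Place (RatFunc k) N)) (hS : ∀ u v, v ∈ S u ↔ Ov u v) :
    ∃ U₀ : Finset (Place k E), ∀ U : Finset (Place k E), U₀ ⊆ U →
      (cls (wOne σ) I (fun j => j₀ ((δ.P j).eval δ.s)) : Quo (wOne σ) I) =
        -((δ.b * Module.finrank (RatFunc k) E : ℕ) : ℚ)⁻¹ • ∑ u ∈ U, ∑ v ∈ S u,
          ((v.ord ((X - algebraMap E N δ.s) ^ δ.b / aeval X δ.be) * (v.deg : ℤ) : ℤ) : ℚ) •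
            clv I v (fun j => aeval X (δ.P j)) := by
  classical
  have httr : Transcendental k (tt k E) := transcendental_t E
  have hβ : δ.be ≠ 0 := h.ok.be_ne
  have hα : δ.al ≠ 0 := h.ok.al_ne
  have hβs : aeval X δ.be ≠ 0 := h.ne hβ
  have hτ := h.ht
  obtain ⟨A, B, hcop⟩ := h.ok.cop
  have hev : ∀ p : E[X], aeval (algebraMap E N δ.s) p = algebraMap E N (p.eval δ.s) := by
    intro p
    rw [aeval_algebraMap_apply, coe_aeval_eq_eval]
  set g : N := X - algebraMap E N δ.s with hg
  have hgtr : Transcendental E g := bform_transcendental h δ.s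
  have hg0 : g ≠ 0 := transcendental_ne_zero hgtr
  set f : N := g ^ δ.b / aeval X δ.be with hf
  have hf0 : f ≠ 0 := div_ne_zero (pow_ne_zero _ hg0) hβs
  have hconst : ∀ v : Valuation N (WithZero (Multiplicative ℤ)),
      (∀ a : E, a ≠ 0 → v (algebraMap E N a) = 1) → ∀ a : E, v (algebraMap E N a) ≤ 1 := by
    intro v htriv a
    by_cases ha : a = 0
    · rw [ha, map_zero, map_zero]; exact zero_le
    · rw [htriv a ha]
  have hclose : ∀ v : Valuation N (WithZero (Multiplicative ℤ)),
      (∀ a : E, a ≠ 0 → v (algebraMap E N a) = 1) → v g < 1 →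
      v (tt k N - algebraMap E N (tt k E)) < 1 ∧ v (aeval X δ.be) = 1 ∧
      ∀ j, v (aeval X (δ.P j) - algebraMap E N ((δ.P j).eval δ.s)) < 1 := by
    intro v htriv hv
    have hc := hconst v htriv
    have hs1 : v X ≤ 1 := by
      have : X = g + algebraMap E N δ.s := by rw [hg]; ring
      rw [this]
      exact (v.map_add _ _).trans (max_le hv.le (hc _))
    have hd : ∀ p : E[X], v (aeval X p - algebraMap E N (p.eval δ.s)) < 1 := by
      intro p
      rw [← hev]
      exact val_aeval_sub_lt v hc hs1 hv p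
    have hβ1 : v (algebraMap E N (δ.be.eval δ.s)) = 1 := htriv _ hs
    have hβs1 : v (aeval X δ.be) = 1 := by
      have h1 : aeval X δ.be = (aeval X δ.be - algebraMap E N (δ.be.eval δ.s)) +
        algebraMap E N (δ.be.eval δ.s) := by ring
      rw [h1, Valuation.map_add_eq_of_lt_right v (by rw [hβ1]; exact hd δ.be), hβ1]
    refine ⟨?_, hβs1, fun j => hd (δ.P j)⟩
    have hαs1 : v (aeval X δ.al) ≤ 1 := val_aeval_le v hc hs1 δ.al
    have hτ1 : v (tt k N) ≤ 1 := by
      rw [← hτ, map_mul, hβs1, mul_one] at hαs1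
      exact hαs1
    have h1 : algebraMap E N (tt k E) * algebraMap E N (δ.be.eval δ.s) =
        algebraMap E N (δ.al.eval δ.s) := by rw [← map_mul, hts]
    have h2 : (tt k N - algebraMap E N (tt k E)) * algebraMap E N (δ.be.eval δ.s) =
        (aeval X δ.al - algebraMap E N (δ.al.eval δ.s)) -
        tt k N * (aeval X δ.be - algebraMap E N (δ.be.eval δ.s)) := by
      linear_combination -h1 + hτ
    have h5 : v ((tt k N - algebraMap E N (tt k E)) * algebraMap E N (δ.be.eval δ.s)) < 1 := by
      rw [h2]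
      refine v.map_sub_lt (hd δ.al) ?_
      rw [map_mul]
      exact mul_lt_one_aux hτ1 (hd δ.be)
    rwa [map_mul, hβ1, mul_one] at h5
  -- the place `X = s`
  obtain ⟨w, hwu, hw, hword, hwdeg⟩ := bform_zero h δ.s
  obtain ⟨hw1, hw2, hw3⟩ := hclose w.val w.triv hw
  obtain ⟨v₀, hv₀⟩ := exists_place_of_close w (tt k E) httr hw1
  have hv₀tr : ∀ a : E, a ≠ 0 → v₀.val (algebraMap E N a) = 1 := by rw [hv₀]; exact w.triv
  have hv₀g : v₀.val g < 1 := by rw [hv₀]; exact hw
  have hv₀deg : v₀.deg = Module.finrank (RatFunc k) E :=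
    bform_deg w hwdeg v₀ hv₀ (by rw [hv₀]; exact hw1)
  have hv₀ord : v₀.ord f = δ.b := by
    have h1 : v₀.val f = w.val g ^ δ.b := by
      rw [hv₀, hf, map_div₀, hw2, div_one, map_pow]
    have h2 : w.ord g = 1 := hword
    rw [Place.ord] at h2 ⊢
    rw [h1, WithZero.log_pow]
    simp only [nsmul_eq_mul]
    rw [← mul_neg, h2, mul_one]
  have hv₀cls : clv I v₀ (fun j => aeval X (δ.P j)) =
      cls (wOne σ) I (fun j => j₀ ((δ.P j).eval δ.s)) := by
    refine clv_eq h.hN v₀ _ ?_
    exact isSp_trivial h.hN v₀ hv₀tr (by rw [hv₀]; exact hw1) j₀ (fun j => (δ.P j).eval δ.s) _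
      (fun j => by rw [hv₀]; exact hw3 j) hx
  -- classification of the zeros and poles of `f`
  have hclass : ∀ v : Place (RatFunc k) N, v.ord f ≠ 0 → v = v₀ ∨ ∃ u : Place k E, Ov u v := by
    intro v hvf
    by_cases htriv : ∀ a : E, a ≠ 0 → v.val (algebraMap E N a) = 1
    · left
      have hc := hconst v.val htriv
      have hvt : v.val (tt k N) = 1 := v.triv _ RatFunc.X_ne_zero
      have hαβ : v.val (aeval X δ.al) = v.val (aeval X δ.be) := by
        rw [← hτ, map_mul, hvt, one_mul]
      by_cases hs1 : v.val X ≤ 1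
      · have hβs1 : v.val (aeval X δ.be) = 1 := by
          refine le_antisymm (val_aeval_le v.val hc hs1 δ.be) ?_
          by_contra hlt
          rw [not_le] at hlt
          have h1 : v.val (aeval X (A * δ.al + B * δ.be)) < 1 := by
            rw [map_add, map_mul, map_mul]
            refine v.val.map_add_lt ?_ ?_
            · rw [map_mul]
              exact mul_lt_one_aux (val_aeval_le v.val hc hs1 A) (by rw [hαβ]; exact hlt)
            · rw [map_mul]
              exact mul_lt_one_aux (val_aeval_le v.val hc hs1 B) hlt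
          rw [hcop, map_one, map_one] at h1
          exact lt_irrefl _ h1
        have hg1 : v.val g < 1 := by
          refine lt_of_le_of_ne ((v.val.map_sub _ _).trans (max_le hs1 (hc _))) ?_
          intro h1
          apply hvf
          rw [v.ord_eq_zero_iff hf0, hf, map_div₀, map_pow, h1, hβs1, one_pow, div_one]
        have h2 := hwu ⟨v.val, v.surj, htriv⟩ hg1
        apply Place.ext_val
        rw [hv₀, ← h2]
      · exfalso
        rw [not_le] at hs1
        have h1 := stepA_val_pole v.val htriv hs1 δ.al hα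
        have h2 := stepA_val_pole v.val htriv hs1 δ.be hβ
        have h3 : δ.al.natDegree = δ.be.natDegree := by
          rw [h1, h2] at hαβ
          exact pow_right_injective₀ (zero_lt_one.trans hs1) hs1.ne' hαβ
        apply hvf
        have h4 : v.val g = v.val X := by
          rw [hg]
          exact Valuation.map_sub_eq_of_lt_left v.val ((hc _).trans_lt hs1)
        rw [v.ord_eq_zero_iff hf0, hf, map_div₀, map_pow, h2, h4, CD.b, h3, max_self, div_self]
        exact pow_ne_zero _ (zero_lt_one.trans hs1).ne'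
    · right
      push Not at htriv
      obtain ⟨b, hb0, hb⟩ := htriv
      exact gl_restrict h hb0 hb
  obtain ⟨T, hT, -⟩ := h.hN.product_formula f
  have hv₀n : ∀ u : Place k E, ¬ Ov u v₀ := by
    intro u hu
    obtain ⟨b, hb0, hb⟩ := hu.nontriv
    exact hb (hv₀tr b hb0)
  let uf : Place (RatFunc k) N → Option (Place k E) := fun v =>
    if h : ∃ u : Place k E, Ov u v then some h.choose else none
  refine ⟨T.biUnion fun v => (uf v).toFinset, fun U hU => ?_⟩
  have hsum := h.rel hI f hf0 (insert v₀ (U.biUnion S)) (by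
    intro v hvf
    rcases hclass v hvf with rfl | hu
    · exact Finset.mem_insert_self _ _
    · refine Finset.mem_insert_of_mem (Finset.mem_biUnion.2 ⟨hu.choose, hU ?_,
        (hS _ _).2 hu.choose_spec⟩)
      refine Finset.mem_biUnion.2 ⟨v, (hT v).2 hvf, ?_⟩
      change _ ∈ (if h : ∃ u : Place k E, Ov u v then some h.choose else none : Option _).toFinset
      rw [dif_pos hu]
      simp)
  rw [Finset.sum_insert, Finset.sum_biUnion, hv₀cls, hv₀deg, hv₀ord] at hsum
  · have hb : ((δ.b * Module.finrank (RatFunc k) E : ℕ) : ℚ) ≠ 0 := by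
      have h1 : 0 < δ.b := h.ok.pos
      have h2 : 0 < Module.finrank (RatFunc k) E := Module.finrank_pos
      exact_mod_cast (Nat.mul_pos h1 h2).ne'
    have h3 : (((δ.b : ℤ) * (Module.finrank (RatFunc k) E : ℤ) : ℤ) : ℚ) =
        ((δ.b * Module.finrank (RatFunc k) E : ℕ) : ℚ) := by push_cast; rfl
    rw [h3] at hsum
    rw [neg_smul, ← smul_neg, eq_inv_smul_iff₀ hb]
    exact eq_neg_of_add_eq_zero_left hsum
  · intro u _ u' _ huu
    rw [Function.onFun, Finset.disjoint_left]
    intro v h1 h2
    exact huu (((hS _ _).1 h1).eq ((hS _ _).1 h2))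
  · intro h1
    obtain ⟨u, -, hu⟩ := Finset.mem_biUnion.1 h1
    exact hv₀n u ((hS _ _).1 hu)

end

end Pool.Agent.TT
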