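import Mathlib
import Pool.Agent.TT.BFormula
import Pool.Agent.TT.BSum
import Pool.Agent.TT.Gv
import Pool.Agent.TT.Mass

set_option autoImplicit false
set_option linter.unusedSectionVars false
set_option linter.style.haveILetI false

/-! Project TT, block B: the sum formula for one curve. -/

namespace Pool.Agent.TT

open Pool.Agent.Helper16 Pool.Agent.Helper16.BB Pool.Agent.ThF Polynomial

section ovr

variable {k E F : Type} [Field k] [Field E] [Field F] [Algebra k E] [Algebra E F]

/-- Comparison of the values of elements of `E`. -/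
theorem over_le (u : Place k E) (A : ValuationSubring F)
    (hA : ∀ a : E, algebraMap E F a ∈ A ↔ u.val a ≤ 1) (x y : E) :
    A.valuation (algebraMap E F x) ≤ A.valuation (algebraMap E F y) ↔ u.val x ≤ u.val y := by
  by_cases hy : y = 0
  · subst hy
    rw [map_zero, map_zero, map_zero, le_zero_iff, le_zero_iff, Valuation.zero_iff,
      Valuation.zero_iff, map_eq_zero]
  · have h1 : A.valuation (algebraMap E F y) ≠ 0 := (Valuation.ne_zero_iff _).2 (by simpa using hy)
    have h2 : u.val y ≠ 0 := (Valuation.ne_zero_iff _).2 hy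
    rw [← div_le_one₀ (zero_lt_iff.2 h1), ← div_le_one₀ (zero_lt_iff.2 h2), ← map_div₀,
      ← map_div₀, ← map_div₀, ValuationSubring.valuation_le_one_iff, hA]

theorem over_eq (u : Place k E) (A : ValuationSubring F)
    (hA : ∀ a : E, algebraMap E F a ∈ A ↔ u.val a ≤ 1) (x y : E) :
    A.valuation (algebraMap E F x) = A.valuation (algebraMap E F y) ↔ u.val x = u.val y := by
  rw [le_antisymm_iff, le_antisymm_iff, over_le u A hA, over_le u A hA]

theorem tr_map_alg (c r : E) (f : E[X]) :
    tr (algebraMap E F c) (algebraMap E F r) (f.map (algebraMap E F)) =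
      (tr c r f).map (algebraMap E F) := by
  rw [tr, tr, Polynomial.map_comp, Polynomial.map_add, Polynomial.map_mul, map_C, map_C, map_X]

end ovr

section

variable {k E N σ : Type} [Field k] [Field E] [Field N] [Algebra k E] [Algebra k N] [Algebra E N]
  [Algebra (RatFunc k) N] [IsScalarTower k E N] [IsScalarTower k (RatFunc k) N]
variable {I : Set (MvPolynomial σ (RatFunc k))} {δ : CD σ E} {X : N}

/-- The value of `gv` at a vertex. -/
theorem gv_over (h : Gl I δ X) {F : Type} [Field F] [Algebra E F] {u : Place k E}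
    {v : Place (RatFunc k) N} (hv : Ov u v) {c r : E} (hr : ResTr v X c r) (A : ValuationSubring F)
    (hA : ∀ a : E, algebraMap E F a ∈ A ↔ u.val a ≤ 1) :
    ∃ x : E, x ≠ 0 ∧ gv A (δ.map (algebraMap E F)) (algebraMap E F c) (algebraMap E F r) =
      A.valuation (algebraMap E F x) ∧
      u.ord x = v.ord ((X - algebraMap E N δ.s) ^ δ.b / aeval X δ.be) := by
  have hbe := h.ok.be_ne
  obtain ⟨i₀, hi0, hi1, hi2⟩ := hv.gauss h hr δ.be hbe
  rw [hi1] at hi2
  set β := (tr c r δ.be).coeff i₀ with hβ
  have hgn : gn A (tr (algebraMap E F c) (algebraMap E F r) (δ.map (algebraMap E F)).be) =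
      A.valuation (algebraMap E F β) := by
    have h1 : tr (algebraMap E F c) (algebraMap E F r) (δ.map (algebraMap E F)).be =
        (tr c r δ.be).map (algebraMap E F) := tr_map_alg c r δ.be
    rw [h1]
    refine gn_eq (fun i => ?_) ⟨i₀, by rw [coeff_map]⟩
    rw [coeff_map, over_le u A hA]
    exact hi2 i
  -- the value of `X - s`
  obtain ⟨m, hm0, hm1, hm2⟩ : ∃ m : E, m ≠ 0 ∧ v.val (X - algebraMap E N δ.s) = u.val m ∧
      max (A.valuation (algebraMap E F δ.s - algebraMap E F c)) (A.valuation (algebraMap E F r)) =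
        A.valuation (algebraMap E F m) := by
    obtain ⟨j₀, hj0, hj1, hj2⟩ := hv.gauss h hr (Polynomial.X - C δ.s) (X_sub_C_ne_zero δ.s)
    rw [map_sub, aeval_X, aeval_C] at hj1 hj2
    rw [tr_X_sub] at hj0 hj1 hj2
    rw [hj1] at hj2
    set m := (C (c - δ.s) + C r * Polynomial.X : E[X]).coeff j₀ with hm
    refine ⟨m, hj0, hj1, ?_⟩
    have h0 := hj2 0
    have h1 := hj2 1
    have h0' : u.val (c - δ.s) ≤ u.val m := by simpa using h0
    have h1' : u.val r ≤ u.val m := by simpa using h1
    have hsc : A.valuation (algebraMap E F δ.s - algebraMap E F c) =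
        A.valuation (algebraMap E F (c - δ.s)) := by
      rw [← Valuation.map_neg, map_sub]
      congr 1
      ring
    rw [hsc]
    apply le_antisymm
    · exact max_le ((over_le u A hA _ _).2 h0') ((over_le u A hA _ _).2 h1')
    · have hcase : m = c - δ.s ∨ m = r := by
        rcases j₀ with _ | _ | j
        · left; rw [hm]; simp
        · right; rw [hm]; simp
        · exfalso
          apply hj0
          rw [hm, coeff_add, coeff_C_succ, coeff_C_mul, coeff_X, if_neg (by omega), mul_zero, zero_add]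
      rcases hcase with h2 | h2
      · rw [h2]; exact le_max_left _ _
      · rw [h2]; exact le_max_right _ _
  have hb : (δ.map (algebraMap E F)).b = δ.b := by
    simp only [CD.b, CD.map, natDegree_map]
  refine ⟨m ^ δ.b / β, div_ne_zero (pow_ne_zero _ hm0) hi0, ?_, ?_⟩
  · rw [gv, hgn, hb]
    change max (A.valuation (algebraMap E F δ.s - algebraMap E F c)) _ ^ δ.b / _ = _
    rw [hm2, map_div₀, map_pow, map_div₀, map_pow]
  · rw [Place.ord, Place.ord, map_div₀, map_div₀, map_pow, map_pow, hm1, hi1]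

/-- The sum formula for one curve. -/
theorem exists_W {k σ : Type} [Field k] [Finite k] [Finite σ]
    {I : Set (MvPolynomial σ (RatFunc k))} (hI : ∀ P ∈ I, ∃ d, P.IsHomogeneous d)
    (φ : Quo (wOne σ) I →ₗ[ℚ] ℚ) (E : IntermediateField (RatFunc k) (Kb k))
    [FiniteDimensional (RatFunc k) E] (δ : CD σ E) (hδ : δ.Ok (k := k) I)
    (hspl : (δ.al * δ.be * (δ.al - δ.be)).Splits) (hs : δ.be.eval δ.s ≠ 0)
    (hts : tt k E * δ.be.eval δ.s = δ.al.eval δ.s)
    (hx : IsPoint (wOne σ) I (fun j => E.val ((δ.P j).eval δ.s))) :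
    ∃ (W : Place k E → ℚ) (U₀ : Finset (Place k E)),
      (∀ U : Finset (Place k E), U₀ ⊆ U → ∑ u ∈ U, (u.deg : ℚ) * W u =
        -((δ.b * Module.finrank (RatFunc k) E : ℕ) : ℚ) *
          φ (cls (wOne σ) I (fun j => E.val ((δ.P j).eval δ.s)))) ∧
      ∀ (u : Place k E) (A : ValuationSubring (Kb k)),
        (∀ a : E, algebraMap E (Kb k) a ∈ A ↔ u.val a ≤ 1) →
        ∀ g, FRel φ A (δ.map (algebraMap E (Kb k))) g → ∃ (n : ℕ) (x : E), 0 < n ∧ x ≠ 0 ∧
          A.valuation g ^ n = A.valuation (algebraMap E (Kb k) x) ∧ (u.ord x : ℚ) = n * W u := by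
  classical
  have hE : IsFunctionField k E := (isFunctionField_K (k := k)).of_finite
  haveI hst : IsScalarTower k E (Kb k) := IsScalarTower.of_algebraMap_eq fun a => by
    rw [IsScalarTower.algebraMap_apply k (RatFunc k) (Kb k),
      IsScalarTower.algebraMap_apply k (RatFunc k) E]
    rfl
  obtain ⟨N, _, _, _, _, _, _, X, hG⟩ := exists_gl hE δ hδ hspl
  choose S hS using hG.exists_over
  set f : N := (X - algebraMap E N δ.s) ^ δ.b / aeval X δ.be with hf
  set x : σ → N := fun j => aeval X (δ.P j) with hxdef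
  obtain ⟨U₀, hU₀⟩ := gl_formula hI hG E.val hs hts hx S hS
  have hd : ∀ u : Place k E, (0 : ℚ) < u.deg := fun u => by exact_mod_cast u.deg_pos hE
  have hb : ((δ.b * Module.finrank (RatFunc k) E : ℕ) : ℚ) ≠ 0 := by
    have h1 : 0 < δ.b * Module.finrank (RatFunc k) E := Nat.mul_pos hδ.pos Module.finrank_pos
    exact_mod_cast h1.ne'
  refine ⟨fun u => (∑ v ∈ S u, (v.ord f : ℚ) * v.deg * φ (clv I v x)) / u.deg, U₀,
    fun U hU => ?_, fun u A hA g hg => ?_⟩
  · have h1 := congrArg φ (hU₀ U hU)
    rw [map_smul, smul_eq_mul, map_sum] at h1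
    rw [h1, ← mul_assoc, neg_mul_neg, mul_inv_cancel₀ hb, one_mul]
    refine Finset.sum_congr rfl fun u _ => ?_
    rw [mul_div_cancel₀ _ (hd u).ne', map_sum]
    refine Finset.sum_congr rfl fun v _ => ?_
    rw [map_smul, smul_eq_mul]
    push_cast
    ring
  · obtain ⟨S', hS', hsum⟩ := gl_sum hI hG u A hA φ
    have hSS : S u = S' := by
      ext v
      rw [hS, hS']
    -- the function `H`
    let H : Kb k × Kb k → ℚ := fun p =>
      if h : ∃ (v : Place (RatFunc k) N) (c r : E), Ov u v ∧ ResTr v X c r ∧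
        algebraMap E (Kb k) c = p.1 ∧ algebraMap E (Kb k) r = p.2 then (h.choose.ord f : ℚ) else 0
    have hinj := (algebraMap E (Kb k)).injective
    have hH : ∀ (c r : E) (v : Place (RatFunc k) N), Ov u v → ResTr v X c r →
        H (algebraMap E (Kb k) c, algebraMap E (Kb k) r) = (v.ord f : ℚ) := by
      intro c r v hv hr
      have h1 : ∃ (v : Place (RatFunc k) N) (c' r' : E), Ov u v ∧ ResTr v X c' r' ∧
        algebraMap E (Kb k) c' = algebraMap E (Kb k) c ∧
          algebraMap E (Kb k) r' = algebraMap E (Kb k) r := ⟨v, c, r, hv, hr, rfl, rfl⟩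
      have h2 : H (algebraMap E (Kb k) c, algebraMap E (Kb k) r) = (h1.choose.ord f : ℚ) :=
        dif_pos h1
      rw [h2]
      obtain ⟨c', r', h3, h4, h5, h6⟩ := h1.choose_spec
      have h7 := hinj h5
      have h8 := hinj h6
      subst h7
      subst h8
      rw [gl_unique hG h3 hv h4 hr]
    have h1 := hsum (fun v => (v.ord f : ℚ)) H hH
    obtain ⟨hg0, n, z, hn, hz, hgz⟩ := hg
    set δ' := δ.map (algebraMap E (Kb k)) with hδ'
    -- the elements for the pairs
    have hrts : ∀ p ∈ δ'.rts, ∃ c : E, algebraMap E (Kb k) c = p := by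
      intro p hp
      have h2 : δ'.al * δ'.be * (δ'.al - δ'.be) =
          (δ.al * δ.be * (δ.al - δ.be)).map (algebraMap E (Kb k)) := by
        rw [Polynomial.map_mul, Polynomial.map_mul, Polynomial.map_sub]
        rfl
      have h3 : p ∈ (δ'.al * δ'.be * (δ'.al - δ'.be)).roots := Multiset.mem_toFinset.1 hp
      rw [h2, hspl.roots_map] at h3
      obtain ⟨c, -, hc⟩ := Multiset.mem_map.1 h3
      exact ⟨c, hc⟩
    have hpair : ∀ p ∈ δ'.rts.offDiag, ∃ y : E, y ≠ 0 ∧
        gv A δ' p.1 (p.2 - p.1) ^ z p = A.valuation (algebraMap E (Kb k) y) ^ z p ∧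
        (z p : ℚ) * u.ord y = (z p : ℚ) * H (p.1, p.2 - p.1) := by
      intro p hp
      obtain ⟨c, hc⟩ := hrts p.1 (Finset.mem_offDiag.1 hp).1
      obtain ⟨d, hd'⟩ := hrts p.2 (Finset.mem_offDiag.1 hp).2.1
      by_cases hV : ∃ e τ, MRel I A δ' p.1 (p.2 - p.1) e τ
      · obtain ⟨e, τ, hM⟩ := hV
        have hpd : p.2 - p.1 = algebraMap E (Kb k) (d - c) := by rw [map_sub, hc, hd']
        rw [hpd, ← hc] at hM
        obtain ⟨a, b, Q, hVr⟩ := vred_descend u A hA hM
        obtain ⟨v, hv, hr⟩ := gl_place hG u hVr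
        obtain ⟨y, hy0, hy1, hy2⟩ := gv_over hG hv hr A hA
        refine ⟨y, hy0, ?_, ?_⟩
        · rw [hpd, ← hc, hδ', hy1]
        · rw [hpd, ← hc, hH c (d - c) v hv hr, hy2]
      · refine ⟨1, one_ne_zero, ?_, ?_⟩
        all_goals
          have h2 : z p = 0 := by
            have h3 := hz p hp
            rw [mass_eq_zero φ hV, zero_div, mul_zero] at h3
            exact_mod_cast h3
          rw [h2]
          simp
    choose! y hy using hpair
    refine ⟨n, ∏ p ∈ δ'.rts.offDiag, y p ^ z p, hn, ?_, ?_, ?_⟩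
    · exact Finset.prod_ne_zero_iff.2 fun p hp => zpow_ne_zero _ (hy p hp).1
    · rw [hgz, map_prod, map_prod]
      refine Finset.prod_congr rfl fun p hp => ?_
      rw [(hy p hp).2.1, map_zpow₀, map_zpow₀]
    · have hord : ∀ s : Finset (Kb k × Kb k), (∀ p ∈ s, y p ≠ 0) →
          (u.ord (∏ p ∈ s, y p ^ z p) : ℚ) = ∑ p ∈ s, (z p : ℚ) * u.ord (y p) := by
        intro s
        induction s using Finset.induction_on with
        | empty =>
          intro _
          simp [u.ord_one]
        | insert p s hp ih =>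
          intro hs
          rw [Finset.prod_insert hp, Finset.sum_insert hp, u.ord_mul
            (zpow_ne_zero _ (hs p (Finset.mem_insert_self _ _)))
            (Finset.prod_ne_zero_iff.2 fun q hq => zpow_ne_zero _
              (hs q (Finset.mem_insert_of_mem hq)))]
          push_cast
          rw [ih fun q hq => hs q (Finset.mem_insert_of_mem hq)]
          congr 1
          have h2 : u.ord (y p ^ z p) = z p * u.ord (y p) := by
            rw [Place.ord, Place.ord, map_zpow₀, WithZero.log_zpow, smul_eq_mul]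
            ring
          rw [h2]
          push_cast
          ring
      rw [hord _ fun p hp => (hy p hp).1]
      change _ = (n : ℚ) * ((∑ v ∈ S u, (v.ord f : ℚ) * v.deg * φ (clv I v x)) / u.deg)
      rw [hSS, h1, mul_div_cancel_left₀ _ (hd u).ne', Finset.mul_sum]
      refine Finset.sum_congr rfl fun p hp => ?_
      rw [(hy p hp).2.2, hz p hp]
      ring

end

end Pool.Agent.TT
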