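import Mathlib
import Pool.Agent.TT.BField
import Pool.Agent.TT.BHt
import Pool.Agent.TT.BW
import Pool.Agent.TT.FR0

set_option autoImplicit false
set_option linter.unusedSectionVars false
set_option linter.style.haveILetI false

/-! Project TT, block B: the sum formula as an inequality (R6). -/

namespace Pool.Agent.TT

open Pool.Agent.Helper16 Pool.Agent.Helper16.BB Pool.Agent.ThF Polynomial

section aux

variable {k E F : Type} [Field k] [Field E] [Field F] [Algebra k E] [Algebra E F]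

theorem ord_prod {ι : Type} (u : Place k E) (s : Finset ι) (y : ι → E) (hy : ∀ i ∈ s, y i ≠ 0) :
    u.ord (∏ i ∈ s, y i) = ∑ i ∈ s, u.ord (y i) := by
  classical
  induction s using Finset.induction_on with
  | empty => simp [u.ord_one]
  | insert a s ha ih =>
    rw [Finset.prod_insert ha, Finset.sum_insert ha, u.ord_mul (hy a (Finset.mem_insert_self _ _))
      (Finset.prod_ne_zero_iff.2 fun i hi => hy i (Finset.mem_insert_of_mem hi)),
      ih fun i hi => hy i (Finset.mem_insert_of_mem hi)]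

theorem ord_pow' (u : Place k E) (y : E) (n : ℕ) : u.ord (y ^ n) = n * u.ord y := by
  rw [Place.ord, Place.ord, map_pow, WithZero.log_pow, nsmul_eq_mul]
  ring

theorem ord_le_of_val_le (u : Place k E) {x y : E} (hx : x ≠ 0) (hy : y ≠ 0)
    (h : u.val x ≤ u.val y) : u.ord y ≤ u.ord x := by
  rw [Place.ord, Place.ord, neg_le_neg_iff]
  exact (WithZero.log_le_log ((Valuation.ne_zero_iff _).2 hx) ((Valuation.ne_zero_iff _).2 hy)).2 h

/-- The inequality at one place. -/
theorem local_ineq (u : Place k E) (A : ValuationSubring F)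
    (hA : ∀ a : E, algebraMap E F a ∈ A ↔ u.val a ≤ 1) {n m : ℕ}
    (γ : Fin n → F) (nn : Fin n → ℕ) (x : Fin n → E) (W : Fin n → ℚ) (hnn : ∀ l, 0 < nn l)
    (hx : ∀ l, x l ≠ 0)
    (hγ : ∀ l, A.valuation (γ l) ^ nn l = A.valuation (algebraMap E F (x l)))
    (hW : ∀ l, (u.ord (x l) : ℚ) = nn l * W l) (q a : E) (hq : q ≠ 0) (ha : a ≠ 0)
    (T : Finset E) (hT : 0 ∉ T)
    (h : A.valuation (algebraMap E F q) * max 1 (A.valuation (algebraMap E F a)) *
      ∏ c ∈ T, min 1 (A.valuation (algebraMap E F c)) ≤ A.valuation (∏ l, γ l) ^ m) :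
    (m : ℚ) * ∑ l, W l ≤ (u.ord q : ℚ) - max 0 (-u.ord a : ℚ) + ∑ c ∈ T, max 0 (u.ord c : ℚ) := by
  classical
  -- the element on the left
  have h1 : ∃ a₁ : E, a₁ ≠ 0 ∧ max 1 (A.valuation (algebraMap E F a)) =
      A.valuation (algebraMap E F a₁) ∧ (u.ord a₁ : ℚ) = - max 0 (-u.ord a : ℚ) := by
    by_cases hc : u.val a ≤ 1
    · refine ⟨1, one_ne_zero, ?_, ?_⟩
      · rw [map_one, map_one]
        exact max_eq_left ((A.valuation_le_one_iff _).2 ((hA a).2 hc))
      · have h2 := (u.ord_nonneg_iff ha).2 hc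
        rw [u.ord_one, max_eq_left (by
          rw [neg_nonpos]
          exact_mod_cast h2)]
        simp
    · rw [not_le] at hc
      refine ⟨a, ha, ?_, ?_⟩
      · refine max_eq_right ?_
        by_contra h2
        rw [not_le] at h2
        exact absurd ((hA a).1 ((A.valuation_le_one_iff _).1 h2.le)) (not_le.2 hc)
      · have h2 := (u.ord_neg_iff ha).2 hc
        have h3 : (0 : ℚ) ≤ -u.ord a := by
          have : (u.ord a : ℚ) < 0 := by exact_mod_cast h2
          linarith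
        rw [max_eq_right h3]
        ring
  have h2 : ∀ c ∈ T, ∃ c₁ : E, c₁ ≠ 0 ∧ min 1 (A.valuation (algebraMap E F c)) =
      A.valuation (algebraMap E F c₁) ∧ (u.ord c₁ : ℚ) = max 0 (u.ord c : ℚ) := by
    intro c hcT
    have hc0 : c ≠ 0 := fun h0 => hT (h0 ▸ hcT)
    by_cases hc : u.val c ≤ 1
    · refine ⟨c, hc0, min_eq_right ((A.valuation_le_one_iff _).2 ((hA c).2 hc)), ?_⟩
      have h3 := (u.ord_nonneg_iff hc0).2 hc
      rw [max_eq_right (by exact_mod_cast h3)]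
    · rw [not_le] at hc
      refine ⟨1, one_ne_zero, ?_, ?_⟩
      · rw [map_one, map_one]
        refine min_eq_left ?_
        by_contra h3
        rw [not_le] at h3
        exact absurd ((hA c).1 ((A.valuation_le_one_iff _).1 h3.le)) (not_le.2 hc)
      · have h3 := (u.ord_neg_iff hc0).2 hc
        rw [u.ord_one, max_eq_left (by
          have : (u.ord c : ℚ) < 0 := by exact_mod_cast h3
          exact this.le)]
        simp
  obtain ⟨a₁, ha₁, ha₂, ha₃⟩ := h1
  choose! c₁ hc₁ using h2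
  set y : E := q * a₁ * ∏ c ∈ T, c₁ c with hy
  have hy0 : y ≠ 0 := mul_ne_zero (mul_ne_zero hq ha₁)
    (Finset.prod_ne_zero_iff.2 fun c hc => (hc₁ c hc).1)
  have hyv : A.valuation (algebraMap E F q) * max 1 (A.valuation (algebraMap E F a)) *
      ∏ c ∈ T, min 1 (A.valuation (algebraMap E F c)) = A.valuation (algebraMap E F y) := by
    rw [hy, map_mul, map_mul, map_mul, map_mul, ha₂, map_prod, map_prod]
    congr 1
    exact Finset.prod_congr rfl fun c hc => (hc₁ c hc).2.1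
  have hyo : (u.ord y : ℚ) = (u.ord q : ℚ) - max 0 (-u.ord a : ℚ) +
      ∑ c ∈ T, max 0 (u.ord c : ℚ) := by
    rw [hy, u.ord_mul (mul_ne_zero hq ha₁) (Finset.prod_ne_zero_iff.2 fun c hc => (hc₁ c hc).1),
      u.ord_mul hq ha₁, ord_prod u T c₁ fun c hc => (hc₁ c hc).1]
    push_cast
    rw [ha₃, Finset.sum_congr rfl fun c hc => (hc₁ c hc).2.2]
    ring
  rw [hyv] at h
  -- the element on the right
  set P : ℕ := ∏ l, nn l with hP
  have hPpos : 0 < P := Finset.prod_pos fun l _ => hnn l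
  set z : E := ∏ l, x l ^ (P / nn l) with hz
  have hz0 : z ≠ 0 := Finset.prod_ne_zero_iff.2 fun l _ => pow_ne_zero _ (hx l)
  have hdiv : ∀ l, nn l * (P / nn l) = P := fun l =>
    Nat.mul_div_cancel' (Finset.dvd_prod_of_mem nn (Finset.mem_univ l))
  have hzv : A.valuation (∏ l, γ l) ^ P = A.valuation (algebraMap E F z) := by
    rw [hz, map_prod, map_prod, map_prod, ← Finset.prod_pow]
    refine Finset.prod_congr rfl fun l _ => ?_
    rw [map_pow, map_pow, ← hγ l, ← pow_mul, hdiv l]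
  have hzo : (u.ord z : ℚ) = P * ∑ l, W l := by
    rw [hz, ord_prod u _ _ fun l _ => pow_ne_zero _ (hx l), Finset.mul_sum]
    push_cast
    refine Finset.sum_congr rfl fun l _ => ?_
    rw [ord_pow']
    push_cast
    rw [hW l, ← mul_assoc]
    congr 1
    have h3 := hdiv l
    have h4 : ((P / nn l : ℕ) : ℚ) * (nn l : ℚ) = (P : ℚ) := by
      exact_mod_cast (mul_comm _ _).trans h3
    exact h4
  -- compare
  have h3 : A.valuation (algebraMap E F (y ^ P)) ≤ A.valuation (algebraMap E F (z ^ m)) := by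
    rw [map_pow, map_pow, map_pow, map_pow, ← hzv, ← pow_mul, mul_comm P m, pow_mul]
    exact pow_le_pow_left' h P
  rw [over_le u A hA] at h3
  have h4 := ord_le_of_val_le u (pow_ne_zero P hy0) (pow_ne_zero m hz0) h3
  rw [ord_pow', ord_pow'] at h4
  have h5 : (m : ℚ) * u.ord z ≤ P * u.ord y := by exact_mod_cast h4
  rw [hzo, hyo] at h5
  have hPq : (0 : ℚ) < P := by exact_mod_cast hPpos
  have h6 : (P : ℚ) * ((m : ℚ) * ∑ l, W l) ≤ P * ((u.ord q : ℚ) - max 0 (-u.ord a : ℚ) +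
      ∑ c ∈ T, max 0 (u.ord c : ℚ)) := by
    refine le_trans (le_of_eq ?_) h5
    ring
  exact le_of_mul_le_mul_left h6 hPq

end aux

variable {k σ : Type} [Field k] [Finite k] [Finite σ] {I : Set (MvPolynomial σ (RatFunc k))}

/-- R6. The sum formula over the algebraic closure of `K`, as an inequality. -/
theorem sum_bound (hI : ∀ P ∈ I, ∃ d, P.IsHomogeneous d) :
    ∃ ht : Kb k → ℚ, (∀ a, 0 ≤ ht a) ∧ (∀ m : ℕ, (m : ℚ) ≤ ht (tt k (Kb k) ^ m)) ∧
      ∀ (φ : Quo (wOne σ) I →ₗ[ℚ] ℚ) (n : ℕ) (Δ : Fin n → CD σ (Kb k)),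
        (∀ l, (Δ l).Ok (k := k) I) →
        (∀ l, (Δ l).be.eval (Δ l).s ≠ 0 ∧
          tt k (Kb k) * (Δ l).be.eval (Δ l).s = (Δ l).al.eval (Δ l).s) →
        (∀ l, IsPoint (wOne σ) I (fun j => ((Δ l).P j).eval (Δ l).s)) →
        ∀ (q a : Kb k), q ≠ 0 → a ≠ 0 → ∀ m : ℕ, 0 < m → ∀ T : Finset (RatFunc k), 0 ∉ T →
        (∀ A : ValuationSubring (Kb k), A ≠ ⊤ → ∀ g, FRels φ A Δ g →
          A.valuation q * max 1 (A.valuation a) *
            ∏ c ∈ T, min 1 (A.valuation (algebraMap (RatFunc k) (Kb k) c)) ≤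
              A.valuation g ^ m) →
        ht a - ∑ c ∈ T, ht (algebraMap (RatFunc k) (Kb k) c) ≤
          m * ∑ l, ((Δ l).b : ℚ) * φ (cls (wOne σ) I (fun j => ((Δ l).P j).eval (Δ l).s)) := by
  classical
  obtain ⟨ht, h1, h2, h3⟩ := exists_height k
  refine ⟨ht, h1, h2, ?_⟩
  intro φ n Δ hok hst hpt q a hq ha m hm T hT hyp
  obtain ⟨E, hfd, Δ', hΔ, hok', hspl, hmem⟩ := exists_dataE (k := k) Δ hok {q, a}
  obtain ⟨q', rfl⟩ : ∃ q' : E, algebraMap E (Kb k) q' = q := ⟨⟨q, hmem q (by simp)⟩, rfl⟩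
  obtain ⟨a', rfl⟩ : ∃ a' : E, algebraMap E (Kb k) a' = a := ⟨⟨a, hmem a (by simp)⟩, rfl⟩
  have hinj := (algebraMap E (Kb k)).injective
  have hE : IsFunctionField k E := (isFunctionField_K (k := k)).of_finite
  have hq' : q' ≠ 0 := by
    rintro rfl
    exact hq (map_zero _)
  have ha' : a' ≠ 0 := by
    rintro rfl
    exact ha (map_zero _)
  have heval : ∀ l (p : E[X]), (p.map (algebraMap E (Kb k))).eval
      (algebraMap E (Kb k) (Δ' l).s) = algebraMap E (Kb k) (p.eval (Δ' l).s) := by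
    intro l p
    rw [eval_map_algebraMap, aeval_algebraMap_apply, coe_aeval_eq_eval]
  have hbe : ∀ l, (Δ l).be.eval (Δ l).s = algebraMap E (Kb k) ((Δ' l).be.eval (Δ' l).s) := by
    intro l
    rw [hΔ l]
    exact heval l _
  have hal : ∀ l, (Δ l).al.eval (Δ l).s = algebraMap E (Kb k) ((Δ' l).al.eval (Δ' l).s) := by
    intro l
    rw [hΔ l]
    exact heval l _
  have hP : ∀ l, (fun j => ((Δ l).P j).eval (Δ l).s) =
      fun j => E.val (((Δ' l).P j).eval (Δ' l).s) := by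
    intro l
    funext j
    rw [hΔ l]
    exact heval l _
  have hb : ∀ l, (Δ l).b = (Δ' l).b := by
    intro l
    rw [hΔ l]
    simp only [CD.b, CD.map, natDegree_map]
  have hW : ∀ l, ∃ (W : Place k E → ℚ) (U₀ : Finset (Place k E)),
      (∀ U : Finset (Place k E), U₀ ⊆ U → ∑ u ∈ U, (u.deg : ℚ) * W u =
        -(((Δ' l).b * Module.finrank (RatFunc k) E : ℕ) : ℚ) *
          φ (cls (wOne σ) I (fun j => E.val (((Δ' l).P j).eval (Δ' l).s)))) ∧
      ∀ (u : Place k E) (A : ValuationSubring (Kb k)),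
        (∀ a : E, algebraMap E (Kb k) a ∈ A ↔ u.val a ≤ 1) →
        ∀ g, FRel φ A ((Δ' l).map (algebraMap E (Kb k))) g → ∃ (n : ℕ) (x : E), 0 < n ∧ x ≠ 0 ∧
          A.valuation g ^ n = A.valuation (algebraMap E (Kb k) x) ∧
          (u.ord x : ℚ) = n * W u := by
    intro l
    refine exists_W hI φ E (Δ' l) (hok' l) (hspl l) ?_ ?_ ?_
    · intro h0
      apply (hst l).1
      rw [hbe l, h0, map_zero]
    · apply hinj
      rw [map_mul, ← hbe l, ← hal l, ← (hst l).2]
      rfl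
    · have h4 := hpt l
      rwa [hP l] at h4
  choose W U₁ hW1 hW2 using hW
  obtain ⟨Uq, hUq⟩ := h3 E q' hq'
  obtain ⟨Ua, hUa⟩ := h3 E a' ha'
  set T' : Finset E := T.image (algebraMap (RatFunc k) E) with hT'
  have hT'0 : (0 : E) ∉ T' := by
    rw [hT', Finset.mem_image]
    rintro ⟨c, hc, h0⟩
    exact hT (((map_eq_zero _).1 h0) ▸ hc)
  have hinjT : Set.InjOn (algebraMap (RatFunc k) E) (T : Set (RatFunc k)) :=
    (algebraMap (RatFunc k) E).injective.injOn
  have hUc : ∀ c : E, ∃ U₀ : Finset (Place k E), c ≠ 0 → ∀ U : Finset (Place k E), U₀ ⊆ U →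
      ∑ u ∈ U, (u.deg : ℚ) * max 0 (u.ord c : ℚ) =
        Module.finrank (RatFunc k) E * ht c := by
    intro c
    by_cases hc : c = 0
    · exact ⟨∅, fun h => absurd hc h⟩
    · obtain ⟨U₀, hU₀⟩ := h3 E c hc
      exact ⟨U₀, fun _ U hU => (hU₀ U hU).1⟩
  choose Uc hUc using hUc
  set U : Finset (Place k E) := Uq ∪ Ua ∪ (Finset.univ.biUnion U₁) ∪ T'.biUnion Uc with hU
  have hUq' := (hUq U (by
    rw [hU]
    exact (Finset.subset_union_left.trans Finset.subset_union_left).trans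
      Finset.subset_union_left)).2.2
  have hUa' := (hUa U (by
    rw [hU]
    exact (Finset.subset_union_right.trans Finset.subset_union_left).trans
      Finset.subset_union_left)).2.1
  have hUW : ∀ l, U₁ l ⊆ U := by
    intro l
    rw [hU]
    exact ((Finset.subset_biUnion_of_mem U₁ (Finset.mem_univ l)).trans
      Finset.subset_union_right).trans Finset.subset_union_left
  have hUc' : ∀ c ∈ T', ∑ u ∈ U, (u.deg : ℚ) * max 0 (u.ord c : ℚ) =
        Module.finrank (RatFunc k) E * ht c := by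
    intro c hc
    refine hUc c (fun h0 => hT'0 (h0 ▸ hc)) U ?_
    rw [hU]
    exact (Finset.subset_biUnion_of_mem Uc hc).trans Finset.subset_union_right
  -- the inequality at each place
  have hloc : ∀ u : Place k E, (m : ℚ) * ∑ l, W l u ≤ (u.ord q' : ℚ) - max 0 (-u.ord a' : ℚ) +
      ∑ c ∈ T', max 0 (u.ord c : ℚ) := by
    intro u
    obtain ⟨A, hA⟩ := exists_over_vs (F := Kb k) u
    have hAtop : A ≠ ⊤ := by
      rintro rfl
      obtain ⟨f, hf0, hf1⟩ := u.exists_uniformizer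
      have h4 : u.val f⁻¹ ≤ 1 := (hA f⁻¹).1 trivial
      rw [map_inv₀, hf1] at h4
      have h5 : (1 : WithZero (Multiplicative ℤ)) < (WithZero.exp (-1 : ℤ))⁻¹ :=
        (one_lt_inv₀ (by simp)).2 exp_neg_one_lt
      exact absurd h4 (not_le.2 h5)
    have hγ : ∀ l, ∃ γ, FRel φ A (Δ l) γ := fun l => frel_exists hI φ A (Δ l) (hok l)
    choose γ hγ using hγ
    have h4 := hyp A hAtop (∏ l, γ l) ⟨γ, hγ, rfl⟩
    have h5 : ∀ l, ∃ (n : ℕ) (x : E), 0 < n ∧ x ≠ 0 ∧
        A.valuation (γ l) ^ n = A.valuation (algebraMap E (Kb k) x) ∧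
          (u.ord x : ℚ) = n * W l u := by
      intro l
      refine hW2 l u A hA (γ l) ?_
      rw [← hΔ l]
      exact hγ l
    choose nn x hnn hx0 hxv hxo using h5
    refine local_ineq u A hA γ nn x (fun l => W l u) hnn hx0 hxv hxo q' a' hq' ha' T' hT'0 ?_
    rw [hT', Finset.prod_image fun x _ y _ h => (algebraMap (RatFunc k) E).injective h]
    exact h4
  -- sum over all places
  have hsum := Finset.sum_le_sum fun u (_ : u ∈ U) =>
    mul_le_mul_of_nonneg_left (hloc u) (Nat.cast_nonneg (α := ℚ) u.deg)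
  have hL : ∑ u ∈ U, (u.deg : ℚ) * ((m : ℚ) * ∑ l, W l u) =
      (m : ℚ) * ∑ l, ∑ u ∈ U, (u.deg : ℚ) * W l u := by
    rw [Finset.sum_comm, Finset.mul_sum]
    refine Finset.sum_congr rfl fun u _ => ?_
    rw [Finset.mul_sum, Finset.mul_sum, Finset.mul_sum]
    refine Finset.sum_congr rfl fun l _ => ?_
    ring
  have hR : ∑ u ∈ U, (u.deg : ℚ) * ((u.ord q' : ℚ) - max 0 (-u.ord a' : ℚ) +
      ∑ c ∈ T', max 0 (u.ord c : ℚ)) = (∑ u ∈ U, (u.deg : ℚ) * (u.ord q' : ℚ)) -
        (∑ u ∈ U, (u.deg : ℚ) * max 0 (-u.ord a' : ℚ)) +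
        ∑ c ∈ T', ∑ u ∈ U, (u.deg : ℚ) * max 0 (u.ord c : ℚ) := by
    rw [Finset.sum_comm (s := T'), ← Finset.sum_sub_distrib, ← Finset.sum_add_distrib]
    refine Finset.sum_congr rfl fun u _ => ?_
    rw [mul_add, mul_sub, Finset.mul_sum]
  rw [hL, hR, hUq', hUa', Finset.sum_congr rfl hUc'] at hsum
  rw [Finset.sum_congr rfl fun l (_ : l ∈ Finset.univ) => hW1 l U (hUW l)] at hsum
  set d : ℚ := (Module.finrank (RatFunc k) E : ℚ) with hd
  have hdpos : 0 < d := by
    rw [hd]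
    exact_mod_cast Module.finrank_pos (R := RatFunc k) (M := E)
  have hfin : d * (ht (algebraMap E (Kb k) a') -
      ∑ c ∈ T, ht (algebraMap (RatFunc k) (Kb k) c)) ≤
      d * (m * ∑ l, ((Δ l).b : ℚ) * φ (cls (wOne σ) I (fun j => ((Δ l).P j).eval (Δ l).s))) := by
    have h4 : ∑ c ∈ T', d * ht (c : Kb k) =
        d * ∑ c ∈ T, ht (algebraMap (RatFunc k) (Kb k) c) := by
      rw [hT', Finset.sum_image fun x _ y _ h => (algebraMap (RatFunc k) E).injective h,
        Finset.mul_sum]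
      rfl
    rw [h4] at hsum
    have h5 : (m : ℚ) * ∑ l, -(((Δ' l).b * Module.finrank (RatFunc k) E : ℕ) : ℚ) *
        φ (cls (wOne σ) I (fun j => E.val (((Δ' l).P j).eval (Δ' l).s))) =
        - (d * (m * ∑ l, ((Δ l).b : ℚ) *
          φ (cls (wOne σ) I (fun j => ((Δ l).P j).eval (Δ l).s)))) := by
      rw [Finset.mul_sum, Finset.mul_sum, Finset.mul_sum, ← Finset.sum_neg_distrib]
      refine Finset.sum_congr rfl fun l _ => ?_
      rw [hP l, hb l, hd]
      push_cast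
      ring
    rw [h5] at hsum
    have h6 : (algebraMap E (Kb k) a' : Kb k) = (a' : Kb k) := rfl
    rw [h6, mul_sub]
    linarith
  exact le_of_mul_le_mul_left hfin hdpos

end Pool.Agent.TT
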