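import Pool.Agent.TT.C2
import Pool.Agent.TT.C3
import Pool.Agent.TT.C5
import Pool.Agent.TT.SumBound

set_option autoImplicit false
set_option linter.unusedSectionVars false

/-! Project TT, block C, module C6: the bound for the values of the functional on the
specialisations. -/

namespace Pool.Agent.TT

open Pool.Agent.Helper16 Pool.Agent.Helper16.BB Pool.Agent.ThF Polynomial

theorem isPoint_const_mul {K σ : Type} [Field K] [Finite σ] {I : Set (MvPolynomial σ K)}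
    (hI : ∀ P ∈ I, ∃ d, P.IsHomogeneous d) {c : AlgebraicClosure K} (hc : c ≠ 0)
    {x : σ → AlgebraicClosure K} (hx : IsPoint (wOne σ) I x) :
    IsPoint (wOne σ) I (fun j => c * x j) ∧
      cls (wOne σ) I (fun j => c * x j) = cls (wOne σ) I x := by
  have h1 : (fun j => c⁻¹ * (fun j => c * x j) j) = x := by
    funext j
    change c⁻¹ * (c * x j) = x j
    rw [← mul_assoc, inv_mul_cancel₀ hc, one_mul]
  have h2 := cls_const_mul hI c⁻¹ (inv_ne_zero hc) (fun j => c * x j) (by rw [h1]; exact hx)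
  rw [h1] at h2
  exact ⟨h2.1, h2.2.symm⟩

variable {k σ N F : Type} [Field k] [Finite k] [Finite σ] {I : Set (MvPolynomial σ (RatFunc k))}
  [Field N] [Field F] [Algebra k F] [Algebra (RatFunc k) N]
  [Algebra (RatFunc k) F] [Algebra N F] [IsScalarTower k (RatFunc k) F]
  [IsScalarTower (RatFunc k) N F] [Algebra.IsAlgebraic N F] [IsAlgClosed F]

theorem curve_bound (hI : ∀ P ∈ I, ∃ d, P.IsHomogeneous d) (hN : IsFunctionField (RatFunc k) N)
    (φ : Quo (wOne σ) I →ₗ[ℚ] ℚ) (z : σ → N) {n : ℕ} (Δ : Fin n → CD σ F) (hΔ : Crv (k := k) I z Δ)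
    {m : ℕ} (hm : 0 < m) {q a : F} (hq : q ≠ 0) (ha : a ≠ 0) (hlow : Low φ Δ m q a) :
    ∃ (ht : Kb k → ℚ) (S : Finset (Place (RatFunc k) N)) (M c : ℚ), (∀ x, 0 ≤ ht x) ∧
      (∀ i : ℕ, (i : ℚ) ≤ ht (tt k (Kb k) ^ i)) ∧ 0 < c ∧
      ∀ v, v ∉ S → ∀ f : v.resField →ₐ[RatFunc k] Kb k, ∃ (π : Pl k F (Kb k)) (a' : Kb k),
        (∀ x : N, v.val x ≤ 1 → π.Sp (algebraMap N F x) (f (v.res x))) ∧ π.Sp a a' ∧
        ∀ y, IsSp (wOne σ) I v z y → ht a' - M ≤ c * φ (cls (wOne σ) I y) := by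
  classical
  haveI := Fintype.ofFinite σ
  obtain ⟨ht, hht0, hhtt, hbound⟩ := sum_bound (k := k) hI
  obtain ⟨T, C, hT0, hC0, hlim⟩ := curve_limit hI hN φ Δ hΔ.ok hq ha hlow
  choose c hc0 hc using hΔ.prop
  -- the finite set of elements which have to be units
  set T' : Finset F := (insert q (insert a (T ∪ Finset.univ.image c ∪
    Finset.univ.image (fun l => (Δ l).be.eval (Δ l).s) ∪
    Finset.univ.image (fun j => algebraMap N F (z j))))).erase 0 with hT'
  obtain ⟨S, hS⟩ := finite_bad (K := RatFunc k) hN T' (Finset.notMem_erase _ _)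
  have hbpos : ∀ l, 0 < (Δ l).b := fun l => (hΔ.ok l).pos
  have hsum : (0 : ℚ) < ∑ l, ((Δ l).b : ℚ) := by
    haveI : Nonempty (Fin n) := ⟨⟨0, hΔ.pos⟩⟩
    apply Finset.sum_pos _ Finset.univ_nonempty
    intro l _
    exact_mod_cast hbpos l
  refine ⟨ht, S, ∑ c ∈ C, ht (algebraMap (RatFunc k) (Kb k) c), m * ∑ l, ((Δ l).b : ℚ), hht0, hhtt,
    mul_pos (by exact_mod_cast hm) hsum, ?_⟩
  intro v hv f
  obtain ⟨π, hπK, hπ, hAb, hπN⟩ := exists_pl_above (F := F) hN v f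
  have hunit : ∀ x ∈ T', π.A.valuation x = 1 := hS v hv π.A hAb
  have hmem : ∀ x : F, x ≠ 0 → x ∈ (insert q (insert a (T ∪ Finset.univ.image c ∪
    Finset.univ.image (fun l => (Δ l).be.eval (Δ l).s) ∪
    Finset.univ.image (fun j => algebraMap N F (z j))))) → π.A.valuation x = 1 :=
    fun x hx0 hx => hunit x (Finset.mem_erase.2 ⟨hx0, hx⟩)
  have hunitT : ∀ x ∈ T, π.A.valuation x = 1 := fun x hx =>
    hmem x (fun h => hT0 (h ▸ hx)) (by simp [hx])
  obtain ⟨Δ', hok, hb, hsp, hend⟩ := hlim π hπK hπ hunitT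
  obtain ⟨q', hq', -⟩ := π.exists_sp_ne_zero (hmem q hq (by simp))
  obtain ⟨a', ha', -⟩ := π.exists_sp_ne_zero (hmem a ha (by simp))
  obtain ⟨hq'0, ha'0, hA⟩ := hend q' a' hq' ha'
  refine ⟨π, a', hπN, ha', ?_⟩
  intro y hy
  -- the reduction of the point
  obtain ⟨m₀, hm₀, -, hy1⟩ := exists_isSp_wOne hI v z hΔ.pt f
  set y1 : σ → Kb k := fun j => f (v.res (z j / z m₀)) with hy1def
  have hzunit : ∀ j, z j ≠ 0 → π.A.valuation (algebraMap N F (z j)) = 1 := by
    intro j hj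
    apply hmem _ (by simpa using hj)
    simp
  have hzval : ∀ j, v.val (z j) ≤ 1 := by
    intro j
    by_cases hj : z j = 0
    · rw [hj, map_zero]
      exact zero_le
    · rw [← hAb]
      exact (π.A.valuation_le_one_iff _).1 (hzunit j hj).le
  have hzval1 : v.val (z m₀) = 1 := by
    refine le_antisymm (hzval m₀) ?_
    have h1 : v.val (z m₀)⁻¹ ≤ 1 := by
      rw [← hAb, ← π.A.valuation_le_one_iff, map_inv₀, map_inv₀, hzunit m₀ hm₀, inv_one]
    rw [map_inv₀] at h1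
    have h2 : 0 < v.val (z m₀) := zero_lt_iff.2 (by simpa using hm₀)
    exact (inv_le_one₀ h2).1 h1
  set r : Kb k := f (v.res (z m₀)) with hr
  have hr0 : r ≠ 0 := by
    rw [hr]
    intro h
    have h1 : v.res (z m₀) = 0 := (map_eq_zero f).1 h
    rw [v.res_eq_zero_iff (hzval m₀), hzval1] at h1
    exact lt_irrefl _ h1
  have hzsp : ∀ j, π.Sp (algebraMap N F (z j)) (r * y1 j) := by
    intro j
    have h1 := hπN (z j) (hzval j)
    have h2 : v.res (z j) = v.res (z m₀) * v.res (z j / z m₀) := by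
      have h3 : v.val (z j / z m₀) ≤ 1 := by
        rw [map_div₀, hzval1, div_one]
        exact hzval j
      rw [← v.res_mul (hzval m₀) h3, mul_div_cancel₀ _ hm₀]
    rw [h2, map_mul] at h1
    exact h1
  -- the points on the reduced curves
  have hpt : ∀ l, ∃ c' : Kb k, c' ≠ 0 ∧
      ∀ j, ((Δ' l).P j).eval (Δ' l).s = c' * y1 j := by
    intro l
    obtain ⟨c', hc', hc'0⟩ := π.exists_sp_ne_zero (hmem (c l) (hc0 l) (by simp))
    refine ⟨c' * r, mul_ne_zero hc'0 hr0, fun j => ?_⟩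
    have h1 : π.Sp (((Δ l).P j).eval (Δ l).s) (((Δ' l).P j).eval (Δ' l).s) :=
      ((hsp l).P j).eval (hsp l).s
    have h2 := hc'.mul (hzsp j)
    rw [← hc l j] at h2
    rw [h1.unique h2]
    ring
  have hroot : ∀ l, (Δ' l).be.eval (Δ' l).s ≠ 0 ∧
      tt k (Kb k) * (Δ' l).be.eval (Δ' l).s = (Δ' l).al.eval (Δ' l).s := by
    intro l
    have h1 : π.Sp ((Δ l).be.eval (Δ l).s) ((Δ' l).be.eval (Δ' l).s) := (hsp l).be.eval (hsp l).s
    have h2 : π.Sp ((Δ l).al.eval (Δ l).s) ((Δ' l).al.eval (Δ' l).s) := (hsp l).al.eval (hsp l).s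
    have h3 : π.A.valuation ((Δ l).be.eval (Δ l).s) = 1 := by
      apply hmem _ (hΔ.root l).1
      simp
    refine ⟨?_, ?_⟩
    · intro h0
      rw [h1.eq_zero_iff, h3] at h0
      exact lt_irrefl _ h0
    · have h4 : π.Sp (tt k F) (tt k (Kb k)) := hπK RatFunc.X
      have h5 := h4.mul h1
      rw [(hΔ.root l).2] at h5
      exact h5.unique h2
  have hy1pt : IsPoint (wOne σ) I y1 := hy1.1
  have hfun : ∀ l, IsPoint (wOne σ) I (fun j => ((Δ' l).P j).eval (Δ' l).s) ∧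
      cls (wOne σ) I (fun j => ((Δ' l).P j).eval (Δ' l).s) = cls (wOne σ) I y1 := by
    intro l
    obtain ⟨c', hc', h⟩ := hpt l
    have h1 : (fun j => ((Δ' l).P j).eval (Δ' l).s) = fun j => c' * y1 j := funext h
    rw [h1]
    exact isPoint_const_mul hI hc' hy1pt
  have hfin := hbound φ n Δ' hok hroot (fun l => (hfun l).1) q' a' hq'0 ha'0 m hm C hC0
    (fun A _ g hg => hA A g hg)
  have hcls : cls (wOne σ) I y1 = cls (wOne σ) I y := cls_isSp_eq hN v z y1 y hy1 hy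
  have hsumeq : (m : ℚ) * ∑ l, ((Δ' l).b : ℚ) *
      φ (cls (wOne σ) I (fun j => ((Δ' l).P j).eval (Δ' l).s)) =
      m * (∑ l, ((Δ l).b : ℚ)) * φ (cls (wOne σ) I y) := by
    rw [mul_assoc, Finset.sum_mul]
    congr 1
    refine Finset.sum_congr rfl fun l _ => ?_
    rw [(hfun l).2, hb l, hcls]
  rw [hsumeq] at hfin
  exact hfin

end Pool.Agent.TT
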