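import Pool.Agent.Helper16.FF10

set_option autoImplicit false
set_option linter.style.haveILetI false

/-! Riemann's inequality, in the form: for a finite set `T` of places there is a bound such that
every divisor supported in `T` of degree at least this bound is at least a principal divisor. -/

namespace Pool.Agent.TT

open Polynomial IntermediateField Pool.Agent.Helper16

variable {K N : Type} [Field K] [Field N] [Algebra K N]

theorem finrank_le_cut_steps (v : Place K N) (hv : Module.Finite K v.resField) (e : ℤ) (k : ℕ)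
    (W : Submodule K N) [FiniteDimensional K W] (hW : W ≤ v.filt (e + k)) :
    Module.finrank K W ≤ Module.finrank K (W ⊓ v.filt e : Submodule K N) + k * v.deg := by
  induction k generalizing W with
  | zero =>
    have : W ⊓ v.filt e = W := inf_eq_left.2 (by simpa using hW)
    rw [this]
    omega
  | succ k ih =>
    have h1 := v.finrank_le_cut hv (e + k) W (by
      have : e + (k : ℤ) + 1 = e + ((k + 1 : ℕ) : ℤ) := by push_cast; ring
      rw [this]
      exact hW)
    haveI : FiniteDimensional K (W ⊓ v.filt (e + k) : Submodule K N) :=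
      Submodule.finiteDimensional_inf_left _ _
    have h2 := ih (W ⊓ v.filt (e + k)) inf_le_right
    have h3 : (W ⊓ v.filt (e + k)) ⊓ v.filt e ≤ W ⊓ v.filt e :=
      inf_le_inf_right _ inf_le_left
    have h4 : Module.finrank K ((W ⊓ v.filt (e + k)) ⊓ v.filt e : Submodule K N) ≤
        Module.finrank K (W ⊓ v.filt e : Submodule K N) := by
      haveI : FiniteDimensional K (W ⊓ v.filt e : Submodule K N) :=
        Submodule.finiteDimensional_inf_left _ _
      exact Submodule.finrank_mono h3
    have h5 : (k + 1) * v.deg = k * v.deg + v.deg := by ring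
    omega

theorem finrank_le_cut_levels (hres : ∀ v : Place K N, Module.Finite K v.resField)
    (T : Finset (Place K N)) (e : Place K N → ℤ) (k : Place K N → ℕ)
    (W : Submodule K N) [FiniteDimensional K W] (hW : ∀ v ∈ T, W ≤ v.filt (e v + k v)) :
    Module.finrank K W ≤
      Module.finrank K (W ⊓ ⨅ v ∈ T, v.filt (e v) : Submodule K N) + ∑ v ∈ T, k v * v.deg := by
  classical
  induction T using Finset.induction_on with
  | empty =>
    have h0 : W ⊓ ⨅ v ∈ (∅ : Finset (Place K N)), v.filt (e v) = W := by simp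
    rw [h0]
    simp
  | insert a T ha ih =>
    have h1 := ih (fun v hv => hW v (Finset.mem_insert_of_mem hv))
    haveI : FiniteDimensional K (W ⊓ ⨅ v ∈ T, v.filt (e v) : Submodule K N) :=
      Submodule.finiteDimensional_inf_left _ _
    have h2 := finrank_le_cut_steps a (hres a) (e a) (k a) (W ⊓ ⨅ v ∈ T, v.filt (e v))
      (inf_le_left.trans (hW a (Finset.mem_insert_self _ _)))
    rw [Finset.sum_insert ha]
    have h3 : (W ⊓ ⨅ v ∈ T, v.filt (e v)) ⊓ a.filt (e a) = W ⊓ ⨅ v ∈ insert a T, v.filt (e v) := by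
      rw [Finset.iInf_insert, inf_assoc, inf_comm (⨅ v ∈ T, v.filt (e v))]
    rw [h3] at h2
    omega

theorem one_lt_val_of_single_pole (hN : IsFunctionField K N) (a : Place K N) (f : N)
    (hf : Transcendental K f) (hv : ∀ v : Place K N, v ≠ a → v.val f ≤ 1) : 1 < a.val f := by
  have hinv : Transcendental K f⁻¹ := transcendental_inv hf
  have hf0 : f ≠ 0 := transcendental_ne_zero hf
  obtain ⟨S, hS, hsum, hpos⟩ := hN.zeros f⁻¹ hinv
  have hne : S.Nonempty := by
    by_contra hcon
    rw [Finset.not_nonempty_iff_eq_empty] at hcon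
    rw [hcon, Finset.sum_empty] at hsum
    omega
  obtain ⟨v, hvS⟩ := hne
  have h1 := (hS v).1 hvS
  have h2 : 1 < v.val f := by
    rw [map_inv₀] at h1
    by_contra hcon
    rw [not_lt] at hcon
    have h0 : v.val f ≠ 0 := by simpa using hf0
    exact absurd h1 (not_lt.2 ((one_le_inv₀ (zero_lt_iff.2 h0)).2 hcon))
  by_cases hva : v = a
  · rwa [hva] at h2
  · exact absurd h2 (not_lt.2 (hv v hva))

/-- A function whose poles are exactly at a given finite nonempty set of places. -/
theorem exists_pole_set (hN : IsFunctionField K N) (T : Finset (Place K N)) (hT : T.Nonempty) :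
    ∃ s : N, Transcendental K s ∧ ∀ v : Place K N, v ∈ T ↔ 1 < v.val s := by
  classical
  induction T using Finset.induction_on with
  | empty => exact absurd hT Finset.not_nonempty_empty
  | insert a T ha ih =>
    obtain ⟨f, hf, hfv⟩ := hN.exists_single_pole a
    have hfa := one_lt_val_of_single_pole hN a f hf hfv
    by_cases hTe : T.Nonempty
    · obtain ⟨s, hs, hsv⟩ := ih hTe
      have h1 : a.val s ≤ 1 := by
        rw [← not_lt, ← hsv a]
        exact ha
      have ha' : a.val (s + f) = a.val f :=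
        Valuation.map_add_eq_of_lt_right a.val (h1.trans_lt hfa)
      have hT' : ∀ v ∈ T, v.val (s + f) = v.val s := by
        intro v hv
        have h2 : v ≠ a := fun h => ha (h ▸ hv)
        exact Valuation.map_add_eq_of_lt_left v.val ((hfv v h2).trans_lt ((hsv v).1 hv))
      have hsf0 : s + f ≠ 0 := by
        intro h
        rw [h, map_zero] at ha'
        rw [← ha'] at hfa
        exact absurd hfa (not_lt.2 zero_le_one)
      refine ⟨s + f, a.transcendental_of_val_ne_one hsf0 (by rw [ha']; exact hfa.ne'), ?_⟩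
      intro v
      rw [Finset.mem_insert]
      constructor
      · rintro (rfl | hv)
        · rw [ha']; exact hfa
        · rw [hT' v hv]; exact (hsv v).1 hv
      · intro hv
        by_contra hcon
        push Not at hcon
        have h3 : v.val s ≤ 1 := by
          rw [← not_lt, ← hsv v]
          exact hcon.2
        exact absurd hv (not_lt.2 ((v.val.map_add s f).trans (max_le h3 (hfv v hcon.1))))
    · rw [Finset.not_nonempty_iff_eq_empty] at hTe
      subst hTe
      refine ⟨f, hf, fun v => ?_⟩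
      simp only [insert_empty_eq, Finset.mem_singleton]
      constructor
      · rintro rfl
        exact hfa
      · intro hv
        by_contra hcon
        exact absurd hv (not_lt.2 (hfv v hcon))

/-- Riemann's inequality. -/
theorem riem (hN : IsFunctionField K N) (T : Finset (Place K N)) :
    ∃ g : ℤ, ∀ D : Place K N → ℤ, (∀ v, v ∉ T → D v = 0) → g ≤ ∑ v ∈ T, D v * (v.deg : ℤ) →
      ∃ q : N, q ≠ 0 ∧ ∀ v : Place K N, v.ord q ≤ D v := by
  classical
  by_cases hTe : T.Nonempty
  swap
  · rw [Finset.not_nonempty_iff_eq_empty] at hTe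
    subst hTe
    refine ⟨1, fun D _ h => ?_⟩
    simp at h
  obtain ⟨s, hstr, hsv⟩ := exists_pole_set hN T hTe
  set y := s⁻¹ with hy
  have hs0 : s ≠ 0 := transcendental_ne_zero hstr
  have hy0 : y ≠ 0 := inv_ne_zero hs0
  have hytr : Transcendental K y := transcendental_inv hstr
  have hsy : s = y⁻¹ := by rw [hy, inv_inv]
  obtain ⟨T', hT', hsum, -⟩ := hN.zeros y hytr
  have hTT' : T' = T := by
    ext v
    rw [hT', hsv, hy, map_inv₀]
    have h0 : v.val s ≠ 0 := by simpa using hs0
    exact inv_lt_one₀ (zero_lt_iff.2 h0)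
  subst hTT'
  haveI := hN.finiteDimensional s hstr
  have hn : Module.finrank K⟮s⟯ N = Module.finrank K⟮y⟯ N := by rw [hy, finrank_inv]
  obtain ⟨n, hnn⟩ : ∃ n, Module.finrank K⟮s⟯ N = n := ⟨_, rfl⟩
  have hnpos : 0 < n := by rw [← hnn]; exact Module.finrank_pos
  rw [hnn] at hn
  obtain ⟨x, hxi, hxint⟩ : ∃ x : Fin n → N, LinearIndependent K⟮s⟯ x ∧ ∀ i, IntOver K s (x i) :=
    hnn ▸ exists_integral_basis s hstr
  let k : Place K N → ℕ := fun v => (v.ord y).toNat
  have hk : ∀ v ∈ T', (k v : ℤ) = v.ord y ∧ 1 ≤ k v := by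
    intro v hv
    have h1 : 0 < v.ord y := (v.ord_pos_iff hy0).2 ((hT' v).1 hv)
    refine ⟨Int.toNat_of_nonneg h1.le, ?_⟩
    have : (k v : ℤ) = v.ord y := Int.toNat_of_nonneg h1.le
    omega
  have hvs : ∀ v ∈ T', v.val s = WithZero.exp (k v : ℤ) := by
    intro v hv
    have h0 : v.val y ≠ 0 := by simpa using hy0
    rw [(hk v hv).1, hsy, map_inv₀, Place.ord, ← WithZero.exp_log h0, WithZero.log_exp,
      WithZero.exp_neg]
  have hx0 : ∀ i, x i ≠ 0 := fun i => hxi.ne_zero i
  obtain ⟨j, hj⟩ : ∃ j : ℕ, ∀ v ∈ T', ∀ i, WithZero.log (v.val (x i)) ≤ j := by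
    refine ⟨∑ v ∈ T', ∑ i, (WithZero.log (v.val (x i))).toNat, fun v hv i => ?_⟩
    have h1 : (WithZero.log (v.val (x i))).toNat ≤ ∑ i, (WithZero.log (v.val (x i))).toNat :=
      Finset.single_le_sum (f := fun i => (WithZero.log (v.val (x i))).toNat)
        (fun _ _ => Nat.zero_le _) (Finset.mem_univ i)
    have h2 : ∑ i, (WithZero.log (v.val (x i))).toNat ≤
        ∑ v ∈ T', ∑ i, (WithZero.log (v.val (x i))).toNat :=
      Finset.single_le_sum (f := fun v : Place K N => ∑ i, (WithZero.log (v.val (x i))).toNat)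
        (fun _ _ => Nat.zero_le _) hv
    have h3 := Int.self_le_toNat (WithZero.log (v.val (x i)))
    have h4 : ((WithZero.log (v.val (x i))).toNat : ℤ) ≤
        ((∑ v ∈ T', ∑ i, (WithZero.log (v.val (x i))).toNat : ℕ) : ℤ) := by
      exact_mod_cast h1.trans h2
    exact h3.trans h4
  refine ⟨(j : ℤ) * (∑ v ∈ T', (v.deg : ℤ)), fun D hD hdeg => ?_⟩
  -- choose `M` large
  obtain ⟨M, hM⟩ : ∃ M : ℕ, ∀ v ∈ T', D v ≤ M := by
    refine ⟨∑ v ∈ T', (D v).toNat, fun v hv => ?_⟩
    have h1 : (D v).toNat ≤ ∑ v ∈ T', (D v).toNat :=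
      Finset.single_le_sum (f := fun v => (D v).toNat) (fun _ _ => Nat.zero_le _) hv
    exact (Int.self_le_toNat (D v)).trans (by exact_mod_cast h1)
  let F : Fin (M + 1) × Fin n → N := fun p => s ^ (p.1 : ℕ) * x p.2
  have hF : LinearIndependent K F := linearIndependent_pow_mul s hstr x hxi (M + 1)
  let W : Submodule K N := Submodule.span K (Set.range F)
  haveI : FiniteDimensional K W := FiniteDimensional.span_of_finite K (Set.finite_range F)
  have hWdim : Module.finrank K W = (M + 1) * n := by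
    rw [finrank_span_eq_card hF]
    simp
  have hW1 : ∀ v ∈ T', W ≤ v.filt ((M * k v + j : ℕ) : ℤ) := by
    intro v hv
    rw [Submodule.span_le]
    rintro _ ⟨p, rfl⟩
    change v.val (s ^ (p.1 : ℕ) * x p.2) ≤ _
    rw [map_mul, map_pow, hvs v hv, ← WithZero.exp_log (show v.val (x p.2) ≠ 0 by simpa using hx0 p.2),
      ← WithZero.exp_nsmul, ← WithZero.exp_add, WithZero.exp_le_exp]
    have h1 := hj v hv p.2
    have h2 : (p.1 : ℕ) ≤ M := Nat.lt_succ_iff.1 p.1.2
    have h4 : (p.1 : ℕ) * k v ≤ M * k v := Nat.mul_le_mul_right _ h2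
    have h5 : (((p.1 : ℕ) * k v : ℕ) : ℤ) ≤ ((M * k v : ℕ) : ℤ) := by exact_mod_cast h4
    simp only [nsmul_eq_mul]
    push_cast at h5 ⊢
    linarith
  have hW2 : ∀ v : Place K N, v ∉ T' → W ≤ v.filt 0 := by
    intro v hv
    have h1 : v.val s ≤ 1 := by
      rw [← not_lt, ← hsv v]
      exact hv
    rw [Submodule.span_le]
    rintro _ ⟨p, rfl⟩
    change v.val (s ^ (p.1 : ℕ) * x p.2) ≤ _
    rw [map_mul, map_pow, WithZero.exp_zero]
    exact mul_le_one' (pow_le_one' h1 _) ((hxint p.2).mem_ring v h1)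
  let κ : Place K N → ℕ := fun v => ((M * k v + j : ℕ) - D v : ℤ).toNat
  have hκ : ∀ v ∈ T', (κ v : ℤ) = (M * k v + j : ℕ) - D v := by
    intro v hv
    apply Int.toNat_of_nonneg
    have h1 := hM v hv
    have h2 := (hk v hv).2
    have h3 : M * 1 ≤ M * k v := Nat.mul_le_mul_left _ h2
    have h4 : (M : ℤ) ≤ ((M * k v + j : ℕ) : ℤ) := by
      have : M ≤ M * k v + j := by omega
      exact_mod_cast this
    linarith
  have hcut := finrank_le_cut_levels (fun v : Place K N => v.finite_resField hN) T'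
    D κ W (fun v hv => by
      rw [hκ v hv, add_sub_cancel]
      exact hW1 v hv)
  set W' : Submodule K N := W ⊓ ⨅ v ∈ T', v.filt (D v) with hW'
  have hsum2 : ∑ v ∈ T', (k v : ℤ) * (v.deg : ℤ) = (n : ℤ) := by
    rw [hn, ← hsum]
    exact Finset.sum_congr rfl fun v hv => by rw [(hk v hv).1]
  have hsum3 : ((∑ v ∈ T', κ v * v.deg : ℕ) : ℤ) =
      M * n + j * (∑ v ∈ T', (v.deg : ℤ)) - ∑ v ∈ T', D v * (v.deg : ℤ) := by
    push_cast
    rw [← hsum2, Finset.mul_sum, Finset.mul_sum, ← Finset.sum_add_distrib, ← Finset.sum_sub_distrib]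
    refine Finset.sum_congr rfl fun v hv => ?_
    rw [hκ v hv]
    push_cast
    ring
  have hpos : 0 < Module.finrank K W' := by
    have h1 : (Module.finrank K W : ℤ) ≤ (Module.finrank K W' : ℤ) +
        ((∑ v ∈ T', κ v * v.deg : ℕ) : ℤ) := by exact_mod_cast hcut
    rw [hsum3, hWdim] at h1
    push_cast at h1
    have h2 : (0 : ℤ) < n := by exact_mod_cast hnpos
    have h3 : (0 : ℤ) < Module.finrank K W' := by
      have h4 : ((M : ℤ) + 1) * n = M * n + n := by ring
      linarith
    exact_mod_cast h3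
  have hfin : Module.Finite K W' := Submodule.finiteDimensional_inf_left _ _
  haveI : Nontrivial W' := Module.finrank_pos_iff.1 hpos
  obtain ⟨f, hf⟩ := exists_ne (0 : W')
  have hf0 : (f : N) ≠ 0 := fun h => hf (Subtype.ext h)
  refine ⟨(f : N)⁻¹, inv_ne_zero hf0, fun v => ?_⟩
  have hvf0 : v.val (f : N) ≠ 0 := by simpa using hf0
  have hord : v.ord ((f : N)⁻¹) = WithZero.log (v.val (f : N)) := by
    rw [Place.ord, map_inv₀, WithZero.log_inv, neg_neg]
  rw [hord]
  by_cases hv : v ∈ T'
  · have h1 : (f : N) ∈ ⨅ v ∈ T', v.filt (D v) := f.2.2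
    rw [Submodule.mem_iInf] at h1
    have h2 := h1 v
    rw [Submodule.mem_iInf] at h2
    have h3 := h2 hv
    rw [v.mem_filt, ← WithZero.exp_log hvf0, WithZero.exp_le_exp] at h3
    exact h3
  · have h3 := hW2 v hv f.2.1
    rw [v.mem_filt, ← WithZero.exp_log hvf0, WithZero.exp_le_exp] at h3
    rw [hD v hv]
    exact h3

end Pool.Agent.TT
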