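import Mathlib
import Pool.Agent.TT.CRiem
import Pool.Agent.ThF.Defs

set_option autoImplicit false
set_option linter.unusedSectionVars false

/-! Project TT, block C, module C7: a functional which is bounded below on the specialisations of a
point over a function field is constant on them. -/

namespace Pool.Agent.TT

open Pool.Agent.Helper16 Pool.Agent.Helper16.BB Pool.Agent.ThF Polynomial

variable {K σ N : Type} [Field K] [Finite σ] {I : Set (MvPolynomial σ K)} [Field N] [Algebra K N]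

theorem c7_exists_isSp (hI : ∀ P ∈ I, ∃ d, P.IsHomogeneous d) (hN : IsFunctionField K N)
    (z : σ → N) (hz : IsPoint (wOne σ) I z) (v : Place K N) :
    ∃ y, IsSp (wOne σ) I v z y := by
  haveI := v.finite_resField hN
  obtain ⟨m, -, -, h⟩ := exists_isSp_wOne hI v z hz (IsAlgClosed.lift : v.resField →ₐ[K] _)
  exact ⟨_, h⟩

/-- The numerical part: if every principal divisor is orthogonal to `a` and `a` is bounded below,
then `a` is constant. -/
theorem c7_const (hN : IsFunctionField K N) (a : Place K N → ℚ) (C : ℚ) (hC : ∀ u, C ≤ a u)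
    (hrel : ∀ q : N, q ≠ 0 → ∀ S : Finset (Place K N), (∀ u, u ∈ S ↔ u.ord q ≠ 0) →
      ∑ u ∈ S, ((u.ord q * (u.deg : ℤ) : ℤ) : ℚ) * a u = 0) (v v' : Place K N) :
    a v' ≤ a v := by
  classical
  by_contra hlt
  rw [not_le] at hlt
  have hne : v ≠ v' := fun h => by rw [h] at hlt; exact lt_irrefl _ hlt
  obtain ⟨g, hg⟩ := riem hN {v, v'}
  have hd : 0 < v.deg := v.deg_pos hN
  have hd' : 0 < v'.deg := v'.deg_pos hN
  obtain ⟨m, hm⟩ := exists_nat_gt ((g.toNat : ℚ) * v.deg * (a v - C) / (a v' - a v))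
  have hpos : 0 < a v' - a v := sub_pos.2 hlt
  rw [div_lt_iff₀ hpos] at hm
  obtain ⟨D, hDv, hDv', hD0⟩ : ∃ D : Place K N → ℤ,
      D v = (m : ℤ) * v'.deg + g.toNat ∧ D v' = -((m : ℤ) * v.deg) ∧
      ∀ u, u ≠ v → u ≠ v' → D u = 0 := by
    refine ⟨fun u => if u = v then (m : ℤ) * v'.deg + g.toNat
      else if u = v' then -((m : ℤ) * v.deg) else 0, if_pos rfl, ?_, fun u h1 h2 => ?_⟩
    · exact (if_neg hne.symm).trans (if_pos rfl)
    · exact (if_neg h1).trans (if_neg h2)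
  have hsumD : ∑ u ∈ ({v, v'} : Finset (Place K N)), D u * (u.deg : ℤ) = g.toNat * v.deg := by
    rw [Finset.sum_pair hne, hDv, hDv']
    ring
  obtain ⟨q, hq0, hq⟩ := hg D (fun u hu => by
      rw [Finset.mem_insert, Finset.mem_singleton, not_or] at hu
      exact hD0 u hu.1 hu.2) (by
      rw [hsumD]
      have h1 : (g.toNat : ℤ) * 1 ≤ g.toNat * v.deg :=
        mul_le_mul_of_nonneg_left (by exact_mod_cast hd) (Int.natCast_nonneg _)
      have h2 := Int.self_le_toNat g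
      linarith)
  obtain ⟨S, hS, hsum⟩ := hN.product_formula q
  have hr := hrel q hq0 S hS
  set U : Finset (Place K N) := S ∪ {v, v'} with hU
  have hSU : S ⊆ U := Finset.subset_union_left
  have hTU : ({v, v'} : Finset (Place K N)) ⊆ U := Finset.subset_union_right
  have hord0 : ∀ u, u ∉ S → u.ord q = 0 := fun u hu => by
    by_contra h
    exact hu ((hS u).2 h)
  have e1 : ∑ u ∈ U, ((u.ord q * (u.deg : ℤ) : ℤ) : ℚ) * a u = 0 := by
    rw [← hr]
    refine (Finset.sum_subset hSU fun u _ hu => ?_).symm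
    rw [hord0 u hu]
    simp
  have e2 : ∑ u ∈ U, ((u.ord q * (u.deg : ℤ) : ℤ) : ℚ) = 0 := by
    have h1 : ∑ u ∈ U, (u.ord q * (u.deg : ℤ) : ℤ) = 0 := by
      rw [← hsum]
      refine (Finset.sum_subset hSU fun u _ hu => ?_).symm
      rw [hord0 u hu]
      simp
    exact_mod_cast congrArg (fun z : ℤ => (z : ℚ)) h1
  have hDT : ∀ u, u ∉ ({v, v'} : Finset (Place K N)) → D u = 0 := fun u hu => by
    rw [Finset.mem_insert, Finset.mem_singleton, not_or] at hu
    exact hD0 u hu.1 hu.2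
  have e3 : ∑ u ∈ U, ((D u * (u.deg : ℤ) : ℤ) : ℚ) = g.toNat * v.deg := by
    have h1 : ∑ u ∈ U, (D u * (u.deg : ℤ) : ℤ) = g.toNat * v.deg := by
      rw [← hsumD]
      refine (Finset.sum_subset hTU fun u _ hu => ?_).symm
      rw [hDT u hu]
      simp
    exact_mod_cast congrArg (fun z : ℤ => (z : ℚ)) h1
  have e4 : ∑ u ∈ U, ((D u * (u.deg : ℤ) : ℤ) : ℚ) * a u =
      ((m : ℚ) * v'.deg + g.toNat) * v.deg * a v - m * v.deg * v'.deg * a v' := by
    rw [← Finset.sum_subset hTU fun u _ hu => by rw [hDT u hu]; simp, Finset.sum_pair hne, hDv,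
      hDv']
    push_cast
    ring
  have e5 : ∑ u ∈ U, (((D u * (u.deg : ℤ) : ℤ) : ℚ) - ((u.ord q * (u.deg : ℤ) : ℤ) : ℚ)) * C ≤
      ∑ u ∈ U, (((D u * (u.deg : ℤ) : ℤ) : ℚ) - ((u.ord q * (u.deg : ℤ) : ℤ) : ℚ)) * a u := by
    refine Finset.sum_le_sum fun u _ => mul_le_mul_of_nonneg_left (hC u) ?_
    have h1 : u.ord q * (u.deg : ℤ) ≤ D u * (u.deg : ℤ) :=
      mul_le_mul_of_nonneg_right (hq u) (Int.natCast_nonneg _)
    have h2 : ((u.ord q * (u.deg : ℤ) : ℤ) : ℚ) ≤ ((D u * (u.deg : ℤ) : ℤ) : ℚ) := by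
      exact_mod_cast h1
    linarith
  rw [← Finset.sum_mul, Finset.sum_sub_distrib, e2, e3, sub_zero] at e5
  simp only [sub_mul] at e5
  rw [Finset.sum_sub_distrib, e1, e4, sub_zero] at e5
  have hdd : (1 : ℚ) ≤ v.deg * v'.deg := by
    have : 1 ≤ v.deg * v'.deg := Nat.succ_le_of_lt (Nat.mul_pos hd hd')
    exact_mod_cast this
  have h1 : (m : ℚ) * (a v' - a v) ≤ m * (v.deg * v'.deg) * (a v' - a v) := by
    have h2 : (m : ℚ) * 1 ≤ m * (v.deg * v'.deg) :=
      mul_le_mul_of_nonneg_left hdd (Nat.cast_nonneg m)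
    rw [mul_one] at h2
    exact mul_le_mul_of_nonneg_right h2 hpos.le
  nlinarith

theorem const_of_bdd_below (hI : ∀ P ∈ I, ∃ d, P.IsHomogeneous d) (hN : IsFunctionField K N)
    (φ : Quo (wOne σ) I →ₗ[ℚ] ℚ) (z : σ → N) (hz : IsPoint (wOne σ) I z)
    (S : Finset (Place K N)) (C : ℚ)
    (h : ∀ v, v ∉ S → ∀ y, IsSp (wOne σ) I v z y → C ≤ φ (cls (wOne σ) I y))
    {v v' : Place K N} {y y' : σ → AlgebraicClosure K} (hy : IsSp (wOne σ) I v z y)
    (hy' : IsSp (wOne σ) I v' z y') : φ (cls (wOne σ) I y) = φ (cls (wOne σ) I y') := by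
  classical
  choose Y hY using c7_exists_isSp hI hN z hz
  have hb : ∀ u : Place K N, -(|C| + ∑ u ∈ S, |φ (cls (wOne σ) I (Y u))|) ≤
      φ (cls (wOne σ) I (Y u)) := by
    intro u
    have h0 : 0 ≤ ∑ u ∈ S, |φ (cls (wOne σ) I (Y u))| := Finset.sum_nonneg fun _ _ => abs_nonneg _
    by_cases hu : u ∈ S
    · have h1 : |φ (cls (wOne σ) I (Y u))| ≤ ∑ u ∈ S, |φ (cls (wOne σ) I (Y u))| :=
        Finset.single_le_sum (f := fun u => |φ (cls (wOne σ) I (Y u))|)
          (fun _ _ => abs_nonneg _) hu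
      have h2 := neg_abs_le (φ (cls (wOne σ) I (Y u)))
      have h3 := abs_nonneg C
      linarith
    · have h1 := h u hu (Y u) (hY u)
      have h2 := neg_abs_le C
      linarith
  have hrel : ∀ q : N, q ≠ 0 → ∀ S : Finset (Place K N), (∀ u, u ∈ S ↔ u.ord q ≠ 0) →
      ∑ u ∈ S, ((u.ord q * (u.deg : ℤ) : ℤ) : ℚ) * φ (cls (wOne σ) I (Y u)) = 0 := by
    intro q hq S hS
    have h1 := congrArg φ (cls_rel hN z hz q hq S hS Y (fun u _ => hY u))
    rw [map_sum, map_zero] at h1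
    simpa only [map_smul, smul_eq_mul] using h1
  have key := c7_const hN (fun u => φ (cls (wOne σ) I (Y u))) _ hb hrel
  rw [cls_isSp_eq hN v z y (Y v) hy (hY v), cls_isSp_eq hN v' z y' (Y v') hy' (hY v')]
  exact le_antisymm (key v' v) (key v v')

end Pool.Agent.TT
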