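import Mathlib
import Pool.Agent.Helper16.BBGermDefs
import Pool.Agent.Helper16.FF8
import Pool.Agent.Helper56.BBTrdeg
import Pool.Agent.ThF.Extend

set_option autoImplicit false
set_option linter.unusedSectionVars false

/-! Project TT, block C, module C8: a nonconstant function takes the values `t ^ i` outside a finite
set of places.

PLAN. For every i the function a - t^i is transcendental over K, so it has a zero v_i
(IsFunctionField.zeros, the sum is positive so the set is nonempty): v_i.val (a - t^i) < 1, so
v_i.val a <= 1 and v_i.res a = t^i (res_sub, res_algebraMap, res_eq_zero_iff). If i <> j and v_i = v_j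
then v.val (t^i - t^j) < 1, impossible by v.triv. So i -> v_i is injective, only finitely many i have
v_i in S; take i₀ larger than all of them. -/

namespace Pool.Agent.TT

open Pool.Agent.Helper16 Pool.Agent.Helper16.BB Pool.Agent.ThF Polynomial

variable {k N : Type} [Field k] [Field N] [Algebra (RatFunc k) N]

theorem c8_zero (hN : IsFunctionField (RatFunc k) N) (a : N)
    (ha : Transcendental (RatFunc k) a) (c : RatFunc k) :
    ∃ v : Place (RatFunc k) N, v.val (a - algebraMap (RatFunc k) N c) < 1 := by
  have htr : Transcendental (RatFunc k) (a - algebraMap (RatFunc k) N c) := by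
    intro h
    apply ha
    have h2 := h.add (isAlgebraic_algebraMap c)
    rwa [sub_add_cancel] at h2
  obtain ⟨S, h1, h2, h3⟩ := hN.zeros _ htr
  by_contra hne
  push Not at hne
  have hS : S = ∅ := by
    apply Finset.eq_empty_of_forall_notMem
    intro v hv
    exact absurd ((h1 v).1 hv) (not_lt.2 (hne v))
  rw [hS, Finset.sum_empty] at h2
  omega

theorem c8_pow_ne {i j : ℕ} (h : i ≠ j) : (RatFunc.X ^ i - RatFunc.X ^ j : RatFunc k) ≠ 0 := by
  intro h0
  have h1 : (RatFunc.X ^ i : RatFunc k) = RatFunc.X ^ j := sub_eq_zero.1 h0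
  rw [← RatFunc.algebraMap_X, ← map_pow, ← map_pow] at h1
  have h2 : (X ^ i : k[X]) = X ^ j := RatFunc.algebraMap_injective k h1
  have h3 := congrArg Polynomial.natDegree h2
  rw [Polynomial.natDegree_X_pow, Polynomial.natDegree_X_pow] at h3
  exact h h3

theorem exists_value (hN : IsFunctionField (RatFunc k) N) (a : N)
    (ha : Transcendental (RatFunc k) a) (S : Finset (Place (RatFunc k) N)) :
    ∃ i₀ : ℕ, ∀ i, i₀ ≤ i → ∃ v, v ∉ S ∧ v.val a ≤ 1 ∧
      v.res a = algebraMap (RatFunc k) v.resField (RatFunc.X ^ i) := by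
  classical
  have key : ∀ i : ℕ, ∃ v : Place (RatFunc k) N,
      v.val (a - algebraMap (RatFunc k) N (RatFunc.X ^ i)) < 1 := fun i => c8_zero hN a ha _
  choose v hv using key
  have hinj : Function.Injective v := by
    intro i j hij
    by_contra hne
    have h1 := hv i
    have h2 := hv j
    rw [← hij] at h2
    have h3 : (v i).val ((a - algebraMap (RatFunc k) N (RatFunc.X ^ j)) -
        (a - algebraMap (RatFunc k) N (RatFunc.X ^ i))) < 1 := (v i).val.map_sub_lt h2 h1
    have h4 : (a - algebraMap (RatFunc k) N (RatFunc.X ^ j)) -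
        (a - algebraMap (RatFunc k) N (RatFunc.X ^ i)) =
        algebraMap (RatFunc k) N (RatFunc.X ^ i - RatFunc.X ^ j) := by
      rw [map_sub]; ring
    rw [h4, (v i).triv _ (c8_pow_ne hne)] at h3
    exact lt_irrefl _ h3
  have hfin : (v ⁻¹' (S : Set (Place (RatFunc k) N))).Finite :=
    S.finite_toSet.preimage hinj.injOn
  obtain ⟨B, hB⟩ := hfin.bddAbove
  refine ⟨B + 1, fun i hi => ⟨v i, ?_, ?_, ?_⟩⟩
  · intro hmem
    have h5 : i ≤ B := hB (show i ∈ v ⁻¹' (S : Set (Place (RatFunc k) N)) from hmem)
    omega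
  · have h6 : (v i).val ((a - algebraMap (RatFunc k) N (RatFunc.X ^ i)) +
        algebraMap (RatFunc k) N (RatFunc.X ^ i)) ≤ 1 :=
      (v i).val.map_add_le (hv i).le ((v i).val_algebraMap_le _)
    rwa [sub_add_cancel] at h6
  · have hc : algebraMap (RatFunc k) N (RatFunc.X ^ i) ∈ (v i).ring :=
      (v i).val_algebraMap_le _
    have hm : a - algebraMap (RatFunc k) N (RatFunc.X ^ i) ∈ (v i).ring := (hv i).le
    have h7 := (v i).res_add hm hc
    rw [sub_add_cancel, ((v i).res_eq_zero_iff hm).2 (hv i), zero_add, (v i).res_algebraMap] at h7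
    exact h7

end Pool.Agent.TT
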