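import Mathlib
import Pool.Agent.Helper53.FFDiv
import Pool.Agent.TT.C10
import Pool.Agent.TT.C6
import Pool.Agent.TT.C7
import Pool.Agent.TT.C8

set_option autoImplicit false
set_option linter.unusedSectionVars false

/-! Project TT, block C, module C11: the degree of the divisor of the functional on a curve is zero.

PLAN. D v = v.ord (q v). Support: C10 gives S₀; for v outside S₀ take B above v (exists_pl_above, C2, with any
embedding of the residue field), FRels φ B Δ 1, so B.valuation (q v) = 1, v.val (q v) = 1 (above_val).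
LEMMA (for every φ, q): if in addition sum over v in S₀ of D v * deg v < 0 then False. Proof: a in N
transcendental over K (Helper53/FFDiv exists_transcendental); P v = max (0, - v.ord a), finite support
(product_formula). T = S₀ ∪ support of P. For M large, D' v = - M * D v - P v has degree >= g of
riem (TT/CRiem) for T, so there is r <> 0 with v.ord r <= - M D v - P v, i.e.
v.val (q v) ^ M >= v.val (r⁻¹) * max 1 (v.val a). So for every B over K, B <> top (above some v by
exists_above, comparison by above_val), FRels φ B Δ g: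
B.valuation g ^ (m * M) = B.valuation (q v) ^ M >= B.valuation (r⁻¹) * max 1 (B.valuation a), that is
Low φ Δ (m * M) r⁻¹ a. curve_bound (C6) gives ht, S, Mb, c with ht a' - Mb <= c φ(cls y). As ht >= 0, φ is
bounded below by - Mb / c on the specialisations outside S, so it is constant on them, = κ
(const_of_bdd_below, C7). By exists_value (C8) for all large i there is v outside S with
v.val a <= 1, v.res a = t^i; with the π of curve_bound for v (any embedding f) Sp.unique gives
a' = f (t^i) = tt ^ i, so i - Mb <= c κ for all large i: contradiction.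
Apply the LEMMA to (φ, q) if the degree is negative, and to (- φ, q⁻¹) if it is positive
(frels_neg_iff). -/

namespace Pool.Agent.TT

open Pool.Agent.Helper16 Pool.Agent.Helper16.BB Pool.Agent.ThF Polynomial

variable {k σ N F : Type} [Field k] [Finite k] [Finite σ] {I : Set (MvPolynomial σ (RatFunc k))}
  [Field N] [Field F] [Algebra k F] [Algebra (RatFunc k) N]
  [Algebra (RatFunc k) F] [Algebra N F] [IsScalarTower k (RatFunc k) F]
  [IsScalarTower (RatFunc k) N F] [Algebra.IsAlgebraic N F] [IsAlgClosed F]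

theorem c11_val_le {K : Type} [Field K] [Algebra K N] (v : Place K N) {x y : N} (hx : x ≠ 0)
    (hy : y ≠ 0) : v.val x ≤ v.val y ↔ v.ord y ≤ v.ord x := by
  unfold Place.ord
  rw [← WithZero.log_le_log (by simpa using hx) (by simpa using hy)]
  omega

theorem c11_ord_pow {K : Type} [Field K] [Algebra K N] (v : Place K N) {x : N} (hx : x ≠ 0)
    (n : ℕ) : v.ord (x ^ n) = n * v.ord x := by
  induction n with
  | zero => simp [v.ord_one]
  | succ n ih =>
    rw [pow_succ, v.ord_mul (pow_ne_zero n hx) hx, ih]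
    push_cast
    ring

theorem c11_emb (hN : IsFunctionField (RatFunc k) N) (v : Place (RatFunc k) N) :
    Nonempty (v.resField →ₐ[RatFunc k] Kb k) := by
  haveI := v.finite_resField hN
  exact ⟨IsAlgClosed.lift⟩

theorem c11_sp (hI : ∀ P ∈ I, ∃ d, P.IsHomogeneous d) (hN : IsFunctionField (RatFunc k) N)
    (z : σ → N) (hz : IsPoint (wOne σ) I z) (v : Place (RatFunc k) N) :
    ∃ y, IsSp (wOne σ) I v z y := by
  obtain ⟨f⟩ := c11_emb hN v
  obtain ⟨m, -, -, h⟩ := exists_isSp_wOne hI v z hz f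
  exact ⟨_, h⟩

theorem c11_neg (hI : ∀ P ∈ I, ∃ d, P.IsHomogeneous d) (hN : IsFunctionField (RatFunc k) N)
    (φ : Quo (wOne σ) I →ₗ[ℚ] ℚ) (z : σ → N) {n : ℕ} (Δ : Fin n → CD σ F) (hΔ : Crv (k := k) I z Δ)
    {m : ℕ} (hm : 0 < m) (q : Place (RatFunc k) N → N) (hq : ∀ v, q v ≠ 0)
    (h : ∀ v, ∀ B : ValuationSubring F, Above B v → ∀ g, FRels φ B Δ g →
      B.valuation g ^ m = B.valuation (algebraMap N F (q v)))
    (S₀ : Finset (Place (RatFunc k) N)) (hS₀ : ∀ v, v.ord (q v) ≠ 0 → v ∈ S₀)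
    (hneg : ∑ v ∈ S₀, v.ord (q v) * (v.deg : ℤ) < 0) : False := by
  classical
  obtain ⟨a, ha⟩ := Pool.Agent.Helper53.FFDiv.exists_transcendental hN
  have ha0 : a ≠ 0 := by
    rintro rfl
    exact ha (isAlgebraic_zero)
  obtain ⟨Sa, hSa, -⟩ := hN.product_formula a
  set T := S₀ ∪ Sa with hT
  obtain ⟨g, hg⟩ := riem hN T
  set P : Place (RatFunc k) N → ℤ := fun v => max 0 (- v.ord a) with hP
  have hP0 : ∀ v, 0 ≤ P v := fun v => le_max_left _ _
  set p : ℤ := ∑ v ∈ T, P v * (v.deg : ℤ) with hp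
  set M : ℕ := (g + p).toNat + 1 with hM
  have hMle : g + p ≤ M := by
    rw [hM]
    push_cast
    have := Int.self_le_toNat (g + p)
    linarith
  have hsumT : ∑ v ∈ T, v.ord (q v) * (v.deg : ℤ) = ∑ v ∈ S₀, v.ord (q v) * (v.deg : ℤ) := by
    symm
    refine Finset.sum_subset Finset.subset_union_left fun v _ hv => ?_
    have : v.ord (q v) = 0 := by
      by_contra h0
      exact hv (hS₀ v h0)
    rw [this, zero_mul]
  obtain ⟨r, hr0, hr⟩ := hg (fun v => - (M : ℤ) * v.ord (q v) - P v) (by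
    intro v hv
    rw [hT, Finset.mem_union, not_or] at hv
    have h1 : v.ord (q v) = 0 := by
      by_contra h0
      exact hv.1 (hS₀ v h0)
    have h2 : v.ord a = 0 := by
      by_contra h0
      exact hv.2 ((hSa v).2 h0)
    simp [h1, hP, h2]) (by
    have h1 : ∑ v ∈ T, (- (M : ℤ) * v.ord (q v) - P v) * (v.deg : ℤ) =
        - (M : ℤ) * ∑ v ∈ T, v.ord (q v) * (v.deg : ℤ) - p := by
      rw [hp, Finset.mul_sum, ← Finset.sum_sub_distrib]
      refine Finset.sum_congr rfl fun v _ => ?_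
      ring
    rw [h1, hsumT]
    have h2 : (1 : ℤ) ≤ - ∑ v ∈ S₀, v.ord (q v) * (v.deg : ℤ) := by linarith
    have h3 : (0 : ℤ) ≤ M := Int.natCast_nonneg _
    nlinarith)
  have hri : r⁻¹ ≠ 0 := inv_ne_zero hr0
  -- the lower bound
  have hlow : Low (k := k) φ Δ (m * M) (algebraMap N F r⁻¹) (algebraMap N F a) := by
    intro B hB htop g' hg'
    obtain ⟨v, hv⟩ := exists_above (N := N) hN B hB htop
    rw [pow_mul, h v B hv g' hg', ← map_pow, ← map_pow]
    have hqM : q v ^ M ≠ 0 := pow_ne_zero M (hq v)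
    have h5 := hr v
    have h6 := hP0 v
    have h7 : - v.ord a ≤ P v := le_max_right _ _
    have hA : B.valuation (algebraMap N F r⁻¹) ≤ B.valuation (algebraMap N F (q v ^ M)) := by
      rw [above_val hv, c11_val_le v hri hqM, c11_ord_pow v (hq v), v.ord_inv]
      linarith
    have hA' : B.valuation (algebraMap N F (r⁻¹ * a)) ≤
        B.valuation (algebraMap N F (q v ^ M)) := by
      rw [above_val hv, c11_val_le v (mul_ne_zero hri ha0) hqM, c11_ord_pow v (hq v),
        v.ord_mul hri ha0, v.ord_inv]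
      linarith
    rcases le_total 1 (B.valuation (algebraMap N F a)) with h8 | h8
    · rw [max_eq_right h8, ← map_mul, ← map_mul]
      exact hA'
    · rw [max_eq_left h8, mul_one]
      exact hA
  have hMpos : 0 < m * M := Nat.mul_pos hm (by omega)
  have hinj : Function.Injective (algebraMap N F) := (algebraMap N F).injective
  obtain ⟨ht, S, Mb, c, h1, h2, hc, h3⟩ := curve_bound hI hN φ z Δ hΔ hMpos
    ((map_ne_zero_iff _ hinj).2 hri) ((map_ne_zero_iff _ hinj).2 ha0) hlow
  -- the functional is bounded below on the specialisations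
  have hbdd : ∀ v, v ∉ S → ∀ y, IsSp (wOne σ) I v z y → - Mb / c ≤ φ (cls (wOne σ) I y) := by
    intro v hv y hy
    obtain ⟨f⟩ := c11_emb hN v
    obtain ⟨π, a', -, -, h4⟩ := h3 v hv f
    have h5 := h4 y hy
    have h6 := h1 a'
    rw [div_le_iff₀ hc]
    linarith
  obtain ⟨i₀, hi₀⟩ := exists_value hN a ha S
  obtain ⟨v₁, hv₁, -, -⟩ := hi₀ i₀ le_rfl
  obtain ⟨y₁, hy₁⟩ := c11_sp hI hN z hΔ.pt v₁
  set κ : ℚ := φ (cls (wOne σ) I y₁) with hκ
  obtain ⟨i, hi⟩ := exists_nat_gt (Mb + c * κ)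
  obtain ⟨v, hv, hva, hres⟩ := hi₀ (max i i₀) (le_max_right _ _)
  obtain ⟨f⟩ := c11_emb hN v
  obtain ⟨π, a', hπ, ha', h4⟩ := h3 v hv f
  obtain ⟨y, hy⟩ := c11_sp hI hN z hΔ.pt v
  have h5 := h4 y hy
  rw [const_of_bdd_below hI hN φ z hΔ.pt S (- Mb / c) hbdd hy hy₁, ← hκ] at h5
  have h6 : a' = tt k (Kb k) ^ (max i i₀) := by
    refine ha'.unique ?_
    have := hπ a hva
    rwa [hres, AlgHom.commutes, map_pow] at this
  have h7 := h2 (max i i₀)
  rw [h6] at h5
  have h8 : (i : ℚ) ≤ ((max i i₀ : ℕ) : ℚ) := by exact_mod_cast le_max_left _ _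
  linarith

theorem curve_degree (hI : ∀ P ∈ I, ∃ d, P.IsHomogeneous d) (hN : IsFunctionField (RatFunc k) N)
    (φ : Quo (wOne σ) I →ₗ[ℚ] ℚ) (z : σ → N) {n : ℕ} (Δ : Fin n → CD σ F) (hΔ : Crv (k := k) I z Δ)
    {m : ℕ} (hm : 0 < m) (q : Place (RatFunc k) N → N) (hq : ∀ v, q v ≠ 0)
    (h : ∀ v, ∀ B : ValuationSubring F, Above B v → ∀ g, FRels φ B Δ g →
      B.valuation g ^ m = B.valuation (algebraMap N F (q v))) :
    ∃ S : Finset (Place (RatFunc k) N), (∀ v, v.ord (q v) ≠ 0 → v ∈ S) ∧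
      ∑ v ∈ S, v.ord (q v) * (v.deg : ℤ) = 0 := by
  obtain ⟨S₀, hS₀⟩ := curve_support (N := N) hI hN φ Δ hΔ.ok
  have hsupp : ∀ v, v.ord (q v) ≠ 0 → v ∈ S₀ := by
    intro v hv
    by_contra hcon
    apply hv
    obtain ⟨f⟩ := c11_emb hN v
    obtain ⟨π, -, -, hA, -⟩ := exists_pl_above (F := F) hN v f
    have h1 := h v π.A hA 1 (hS₀ v hcon π.A hA)
    rw [map_one, one_pow] at h1
    rw [v.ord_eq_zero_iff (hq v)]
    have h2 : π.A.valuation (algebraMap N F (1 : N)) = π.A.valuation (algebraMap N F (q v)) := by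
      rw [map_one, map_one]
      exact h1
    have h3 := (above_val hA (1 : N) (q v)).1 h2.le
    have h4 := (above_val hA (q v) (1 : N)).1 h2.ge
    rw [map_one] at h3 h4
    exact le_antisymm h4 h3
  refine ⟨S₀, hsupp, ?_⟩
  rcases lt_trichotomy (∑ v ∈ S₀, v.ord (q v) * (v.deg : ℤ)) 0 with hlt | heq | hgt
  · exact (c11_neg hI hN φ z Δ hΔ hm q hq h S₀ hsupp hlt).elim
  · exact heq
  · refine (c11_neg hI hN (-φ) z Δ hΔ hm (fun v => (q v)⁻¹) (fun v => inv_ne_zero (hq v)) ?_ S₀
      ?_ ?_).elim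
    · intro v B hB g hg
      have h1 := h v B hB g⁻¹ (frels_neg_iff.1 hg)
      rw [map_inv₀, inv_pow] at h1
      rw [map_inv₀, map_inv₀, ← h1, inv_inv]
    · intro v hv
      rw [v.ord_inv, neg_ne_zero] at hv
      exact hsupp v hv
    · have h1 : ∑ v ∈ S₀, v.ord (q v)⁻¹ * (v.deg : ℤ) =
          - ∑ v ∈ S₀, v.ord (q v) * (v.deg : ℤ) := by
        rw [← Finset.sum_neg_distrib]
        refine Finset.sum_congr rfl fun v _ => ?_
        rw [v.ord_inv]
        ring
      rw [h1]
      linarith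

end Pool.Agent.TT
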