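import Pool.Agent.TT.C6
import Pool.Agent.TT.C7

set_option autoImplicit false
set_option linter.unusedSectionVars false

/-! Project TT, block C, module C9: if the value is bounded below by a principal divisor then the
functional is constant on the curve. -/

namespace Pool.Agent.TT

open Pool.Agent.Helper16 Pool.Agent.Helper16.BB Pool.Agent.ThF Polynomial

variable {k σ N F : Type} [Field k] [Finite k] [Finite σ] {I : Set (MvPolynomial σ (RatFunc k))}
  [Field N] [Field F] [Algebra k F] [Algebra (RatFunc k) N]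
  [Algebra (RatFunc k) F] [Algebra N F] [IsScalarTower k (RatFunc k) F]
  [IsScalarTower (RatFunc k) N F] [Algebra.IsAlgebraic N F] [IsAlgClosed F]

/-- Under the hypotheses of `curve_bound` the functional is constant on the specialisations. -/
theorem curve_const_of_low (hI : ∀ P ∈ I, ∃ d, P.IsHomogeneous d)
    (hN : IsFunctionField (RatFunc k) N)
    (φ : Quo (wOne σ) I →ₗ[ℚ] ℚ) (z : σ → N) {n : ℕ} (Δ : Fin n → CD σ F) (hΔ : Crv (k := k) I z Δ)
    {m : ℕ} (hm : 0 < m) {q a : F} (hq : q ≠ 0) (ha : a ≠ 0) (hlow : Low φ Δ m q a)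
    {v v' : Place (RatFunc k) N} {y y' : σ → Kb k} (hy : IsSp (wOne σ) I v z y)
    (hy' : IsSp (wOne σ) I v' z y') : φ (cls (wOne σ) I y) = φ (cls (wOne σ) I y') := by
  obtain ⟨ht, S, M, c, hht, -, hc, h⟩ := curve_bound hI hN φ z Δ hΔ hm hq ha hlow
  refine const_of_bdd_below hI hN φ z hΔ.pt S (-M / c) ?_ hy hy'
  intro u hu x hx
  obtain ⟨f⟩ := PtFunctor.exists_emb hN u
  obtain ⟨π, a', -, -, h1⟩ := h u hu f
  have h2 := h1 x hx
  have h3 := hht a'
  rw [div_le_iff₀ hc]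
  linarith

theorem curve_const (hI : ∀ P ∈ I, ∃ d, P.IsHomogeneous d) (hN : IsFunctionField (RatFunc k) N)
    (φ : Quo (wOne σ) I →ₗ[ℚ] ℚ) (z : σ → N) {n : ℕ} (Δ : Fin n → CD σ F) (hΔ : Crv (k := k) I z Δ)
    {m : ℕ} (hm : 0 < m) {q : F} (hq : q ≠ 0) (hlow : Low φ Δ m q 1)
    {v v' : Place (RatFunc k) N} {y y' : σ → Kb k} (hy : IsSp (wOne σ) I v z y)
    (hy' : IsSp (wOne σ) I v' z y') : φ (cls (wOne σ) I y) = φ (cls (wOne σ) I y') :=
  curve_const_of_low hI hN φ z Δ hΔ hm hq one_ne_zero hlow hy hy'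

end Pool.Agent.TT
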