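import Pool.Agent.TT.DCen
import Pool.Agent.ThF.Gauss

set_option autoImplicit false
set_option linter.unusedSectionVars false
set_option linter.style.haveILetI false

/-! Project TT, block D9c: valuation rings of the algebraic closure of a function field above a
place. -/

namespace Pool.Agent.TT

open Pool.Agent.Helper16 Pool.Agent.Helper16.BB Pool.Agent.Helper16.GT Pool.Agent.ThF Polynomial

variable {k σ : Type} [Field k] [Finite σ]
variable {N : Type} [Field N] [Algebra (RatFunc k) N]

/-- Above every place there is a valuation ring (`LocalSubring.exists_le_valuationSubring` or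
`ThF.gs_exists_GP`, `Valuation.valuationSubring`); it contains `K`. -/
theorem above_exists (hN : IsFunctionField (RatFunc k) N) (v : Place (RatFunc k) N) :
    ∃ A : ValuationSubring (AlgebraicClosure N), OverK k A ∧
      ∀ y : N, algebraMap N (AlgebraicClosure N) y ∈ A ↔ v.val y ≤ 1 := by
  obtain ⟨Γ, _, g, φ, hgv, hgR⟩ := gs_exists_GP hN v
  refine ⟨g.val.valuationSubring, fun c => ?_, fun y => ?_⟩
  · rw [Valuation.mem_valuationSubring_iff,
      IsScalarTower.algebraMap_apply (RatFunc k) N (AlgebraicClosure N), hgv]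
    exact v.val_algebraMap_le c
  · rw [Valuation.mem_valuationSubring_iff, hgv]

theorem dabove_val (v : Place (RatFunc k) N) (A : ValuationSubring (AlgebraicClosure N))
    (hv : ∀ y : N, algebraMap N (AlgebraicClosure N) y ∈ A ↔ v.val y ≤ 1) (y : N) :
    A.valuation (algebraMap N (AlgebraicClosure N) y) = 1 ↔ v.val y = 1 := by
  have h1 : ∀ z : N, A.valuation (algebraMap N (AlgebraicClosure N) z) ≤ 1 ↔ v.val z ≤ 1 := by
    intro z
    rw [ValuationSubring.valuation_le_one_iff, hv]
  by_cases hy : y = 0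
  · subst hy
    rw [map_zero, map_zero, map_zero]
    simp
  have hy1 : algebraMap N (AlgebraicClosure N) y ≠ 0 := by simpa using hy
  have h2 := h1 y⁻¹
  rw [map_inv₀, map_inv₀, map_inv₀] at h2
  have h3 : A.valuation (algebraMap N (AlgebraicClosure N) y) ≠ 0 := by simpa using hy
  have h4 : v.val y ≠ 0 := by simpa using hy
  rw [inv_le_one₀ (zero_lt_iff.2 h3), inv_le_one₀ (zero_lt_iff.2 h4)] at h2
  rw [le_antisymm_iff, le_antisymm_iff, h1, h2]

theorem dabove_nonVan (v : Place (RatFunc k) N) (x : σ → N) (j : σ) (hj : x j ≠ 0)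
    (h1 : ∀ i, v.val ((x j)⁻¹ * x i) ≤ 1) (F : MvPolynomial σ (RatFunc k)) (n : ℕ)
    (hF : F.IsHomogeneous n) :
    NonVan v x F ↔ v.val (MvPolynomial.aeval (fun i => (x j)⁻¹ * x i) F) = 1 := by
  constructor
  · rintro ⟨c, hc, hc1⟩
    rw [dcen_hom c x F n hF, dcen_scale x j hj F n hF, ← mul_assoc, ← mul_pow, map_mul,
      map_pow] at hc1
    have h2 : v.val (MvPolynomial.aeval (fun i => (x j)⁻¹ * x i) F) ≤ 1 :=
      (aeval_res_eq v _ h1 F).1
    have h3 : v.val (c * x j) ^ n ≤ 1 := pow_le_one₀ zero_le (hc j)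
    refine le_antisymm h2 ?_
    rw [← hc1]
    exact mul_le_of_le_one_left' h3
  · intro h
    exact ⟨(x j)⁻¹, h1, h⟩

/-- For valuation rings above `v` the conditions `NVal` and `NonVan` are the same: compare both with the
value of `F` at the coordinates divided by the one of largest value. -/
theorem above_nval (v : Place (RatFunc k) N) (A : ValuationSubring (AlgebraicClosure N))
    (hA : OverK k A) (hv : ∀ y : N, algebraMap N (AlgebraicClosure N) y ∈ A ↔ v.val y ≤ 1)
    (x : σ → N) (hx : x ≠ 0) (F : MvPolynomial σ (RatFunc k)) (n : ℕ) (hF : F.IsHomogeneous n) :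
    NVal A (fun j => algebraMap N (AlgebraicClosure N) (x j)) F ↔ NonVan v x F := by
  have hx' : (fun j => algebraMap N (AlgebraicClosure N) (x j)) ≠ 0 := by
    intro h
    refine hx (funext fun j => ?_)
    have h1 := congrFun h j
    simpa using h1
  obtain ⟨j, hj, h1⟩ := nval_norm A _ hx'
  have hj' : x j ≠ 0 := by simpa using hj
  have h2 : ∀ i, v.val ((x j)⁻¹ * x i) ≤ 1 := by
    intro i
    have h3 := h1 i
    rw [ValuationSubring.valuation_le_one_iff, ← map_inv₀, ← map_mul, hv] at h3
    exact h3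
  rw [nval_iff A hA _ j hj h1 F n hF, dabove_nonVan v x j hj' h2 F n hF, ← dabove_val v A hv]
  have h4 : (fun i => (algebraMap N (AlgebraicClosure N) (x j))⁻¹ *
      algebraMap N (AlgebraicClosure N) (x i)) =
      fun i => algebraMap N (AlgebraicClosure N) ((x j)⁻¹ * x i) := by
    funext i
    rw [map_mul, map_inv₀]
  rw [h4]
  have h5 := aeval_comp_eq (IsScalarTower.toAlgHom (RatFunc k) N (AlgebraicClosure N))
    (fun i => (x j)⁻¹ * x i) F
  rw [show MvPolynomial.aeval (fun i => algebraMap N (AlgebraicClosure N) ((x j)⁻¹ * x i)) F =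
    algebraMap N (AlgebraicClosure N) (MvPolynomial.aeval (fun i => (x j)⁻¹ * x i) F) from h5]

theorem dabove_alg (y : σ → N) (hy : ∀ i, IsAlgebraic (RatFunc k) (y i))
    (F : MvPolynomial σ (RatFunc k)) : IsAlgebraic (RatFunc k) (MvPolynomial.aeval y F) := by
  induction F using MvPolynomial.induction_on with
  | C a => rw [MvPolynomial.aeval_C]; exact isAlgebraic_algebraMap a
  | add p q hp hq => rw [map_add]; exact hp.add hq
  | mul_X p i hp =>
    rw [map_mul, MvPolynomial.aeval_X]
    exact hp.mul (hy i)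

theorem dabove_val_le (v : Place (RatFunc k) N) (y : N) (hy : IsAlgebraic (RatFunc k) y) :
    v.val y ≤ 1 := by
  by_cases h0 : y = 0
  · rw [h0, map_zero]
    exact zero_le
  · rw [v.val_eq_one_of_algebraic hy h0]

/-- A form not vanishing at a constant point does not vanish at its specialisations. -/
theorem nonVan_const (hN : IsFunctionField (RatFunc k) N) (v : Place (RatFunc k) N) (x : σ → N)
    (hc : ∀ i j, x i ≠ 0 → IsAlgebraic (RatFunc k) (x j / x i))
    (F : MvPolynomial σ (RatFunc k)) (n : ℕ) (hF : F.IsHomogeneous n)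
    (h : MvPolynomial.aeval x F ≠ 0) : NonVan v x F := by
  by_cases hx : ∃ j, x j ≠ 0
  · obtain ⟨j, hj⟩ := hx
    have h1 : ∀ i, IsAlgebraic (RatFunc k) ((x j)⁻¹ * x i) := by
      intro i
      rw [inv_mul_eq_div]
      exact hc j i hj
    refine ⟨(x j)⁻¹, fun i => dabove_val_le v _ (h1 i), ?_⟩
    refine v.val_eq_one_of_algebraic (dabove_alg _ h1 F) fun h0 => h ?_
    rw [dcen_scale x j hj F n hF, h0, mul_zero]
  · push Not at hx
    refine ⟨1, fun j => ?_, ?_⟩
    · rw [hx j, mul_zero, map_zero]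
      exact zero_le
    · refine v.val_eq_one_of_algebraic (dabove_alg _ (fun j => ?_) F) ?_
      · rw [hx j, mul_zero]
        exact isAlgebraic_zero
      · rw [dcen_hom 1 x F n hF, one_pow, one_mul]
        exact h

/-- Embeddings of the field of constants in the algebraic closure differ by an automorphism. -/
theorem dabove_conj (v v' : Place (RatFunc k) N)
    (φ : v.resField →ₐ[RatFunc k] AlgebraicClosure (RatFunc k))
    (φ' : v'.resField →ₐ[RatFunc k] AlgebraicClosure (RatFunc k)) :
    ∃ τ : AlgebraicClosure (RatFunc k) ≃ₐ[RatFunc k] AlgebraicClosure (RatFunc k),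
      ∀ a : N, IsAlgebraic (RatFunc k) a → φ' (v'.res a) = τ (φ (v.res a)) := by
  let L := algebraicClosure (RatFunc k) N
  have hL : ∀ (w : Place (RatFunc k) N) (a : L), (a : N) ∈ w.ring := fun w a =>
    dabove_val_le w _ (mem_algebraicClosure_iff.1 a.2)
  let i : (w : Place (RatFunc k) N) → L →ₐ[RatFunc k] w.ring := fun w =>
    { toFun := fun a => ⟨a, hL w a⟩
      map_one' := rfl
      map_mul' := fun _ _ => rfl
      map_zero' := rfl
      map_add' := fun _ _ => rfl
      commutes' := fun _ => rfl }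
  let ψ : L →ₐ[RatFunc k] AlgebraicClosure (RatFunc k) := (v.resRed φ).comp (i v)
  let ψ' : L →ₐ[RatFunc k] AlgebraicClosure (RatFunc k) := (v'.resRed φ').comp (i v')
  have hψ : ∀ a : L, ψ a = φ (v.res a) := fun a => v.resRed_apply φ (hL v a)
  have hψ' : ∀ a : L, ψ' a = φ' (v'.res a) := fun a => v'.resRed_apply φ' (hL v' a)
  letI : Algebra L (AlgebraicClosure (RatFunc k)) := ψ.toAlgebra
  haveI : IsScalarTower (RatFunc k) L (AlgebraicClosure (RatFunc k)) :=
    IsScalarTower.of_algebraMap_eq fun a => (ψ.commutes a).symm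
  haveI : Normal (RatFunc k) (AlgebraicClosure (RatFunc k)) := inferInstance
  let τ₀ : AlgebraicClosure (RatFunc k) →ₐ[RatFunc k] AlgebraicClosure (RatFunc k) :=
    ψ'.liftNormal (AlgebraicClosure (RatFunc k))
  have hτ₀ : ∀ a : L, τ₀ (ψ a) = ψ' a := fun a =>
    ψ'.liftNormal_commutes (AlgebraicClosure (RatFunc k)) a
  refine ⟨AlgEquiv.ofBijective τ₀ (Algebra.IsAlgebraic.algHom_bijective τ₀), fun a ha => ?_⟩
  have h1 := hτ₀ ⟨a, mem_algebraicClosure_iff.2 ha⟩
  rw [hψ, hψ'] at h1
  exact h1.symm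

/-- All specialisations of a constant point have the same class: they are conjugate up to a scalar
(`cls_conj`, `cls_smul`; two embeddings of a finite extension of `K` in the algebraic closure differ by
an automorphism). -/
theorem cls_const (hN : IsFunctionField (RatFunc k) N) {I : Set (MvPolynomial σ (RatFunc k))}
    (hI : ∀ P ∈ I, ∃ d, P.IsHomogeneous d) (x : σ → N) (hx : IsPoint (wOne σ) I x)
    (hc : ∀ i j, x i ≠ 0 → IsAlgebraic (RatFunc k) (x j / x i)) (v v' : Place (RatFunc k) N)
    (y y' : σ → AlgebraicClosure (RatFunc k)) (hy : IsSp (wOne σ) I v x y)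
    (hy' : IsSp (wOne σ) I v' x y') : cls (wOne σ) I y = cls (wOne σ) I y' := by
  obtain ⟨hyp, φ, c, hc0, hcv, hyc⟩ := hy
  obtain ⟨hyp', φ', c', hc0', hcv', hyc'⟩ := hy'
  have hx0 := ((isPoint_wOne I x).1 hx).1
  obtain ⟨j, hj⟩ : ∃ j, x j ≠ 0 := by
    by_contra h
    push Not at h
    exact hx0 (funext h)
  obtain ⟨τ, hτ⟩ := dabove_conj v v' φ φ'
  -- the specialisation is a multiple of the residues of the ratios
  have key : ∀ (w : Place (RatFunc k) N)
      (χ : w.resField →ₐ[RatFunc k] AlgebraicClosure (RatFunc k)) (d : Unit → N)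
      (z : σ → AlgebraicClosure (RatFunc k)), (∀ i, d i ≠ 0) →
      (∀ i, scale (wOne σ) d x i ∈ w.ring) → (∀ i, z i = χ (w.res (scale (wOne σ) d x i))) →
      z ≠ 0 → z j ≠ 0 ∧ z = z j • fun i => χ (w.res (x i / x j)) := by
    intro w χ d z hd hdw hz hz0
    have h1 : ∀ i, z i = z j * χ (w.res (x i / x j)) := by
      intro i
      have hm : x i / x j ∈ w.ring := dabove_val_le w _ (hc j i hj)
      rw [hz i, hz j, ← map_mul, ← w.res_mul (hdw j) hm]
      congr 2
      rw [scale_wOne, Pi.smul_apply, Pi.smul_apply, smul_eq_mul, smul_eq_mul]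
      field_simp
    refine ⟨fun h0 => hz0 (funext fun i => ?_), funext fun i => ?_⟩
    · rw [h1 i, h0, zero_mul]
      rfl
    · rw [Pi.smul_apply, smul_eq_mul]
      exact h1 i
  obtain ⟨h1, h2⟩ := key v φ c y hc0 hcv hyc ((isPoint_wOne I y).1 hyp).1
  obtain ⟨h3, h4⟩ := key v' φ' c' y' hc0' hcv' hyc' ((isPoint_wOne I y').1 hyp').1
  set u : σ → AlgebraicClosure (RatFunc k) := fun i => φ (v.res (x i / x j)) with hu
  have hu1 : u = (y j)⁻¹ • y := by
    rw [eq_inv_smul_iff₀ h1]
    exact h2.symm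
  have hupt : IsPoint (wOne σ) I u := by
    rw [hu1, isPoint_wOne]
    refine ⟨smul_ne_zero (inv_ne_zero h1) ((isPoint_wOne I y).1 hyp).1, fun P hP => ?_⟩
    obtain ⟨n, hn⟩ := hI P hP
    have h7 := dcen_hom (y j)⁻¹ y P n hn
    rw [((isPoint_wOne I y).1 hyp).2 P hP, mul_zero] at h7
    exact h7
  have h5 : (fun i => φ' (v'.res (x i / x j))) = fun i => τ (u i) := by
    funext i
    exact hτ _ (hc j i hj)
  rw [h5] at h4
  have hupt' : IsPoint (wOne σ) I (fun i => τ (u i)) := by
    rw [isPoint_wOne]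
    refine ⟨fun h0 => ((isPoint_wOne I u).1 hupt).1 (funext fun i => ?_), fun P hP => ?_⟩
    · have h7 := congrFun h0 i
      simpa using h7
    · have h7 := aeval_comp_eq τ.toAlgHom u P
      rw [((isPoint_wOne I u).1 hupt).2 P hP, map_zero] at h7
      exact h7
  rw [h2, h4, cls_smul _ h1 u hupt, cls_smul _ h3 _ hupt', cls_conj τ u hupt]

end Pool.Agent.TT
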