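import Pool.Agent.TT.DLim

set_option autoImplicit false
set_option linter.unusedSectionVars false

/-! Project TT, block D8: the bad set has codimension at least two. -/

namespace Pool.Agent.TT

open Pool.Agent.Helper16 Pool.Agent.Helper16.BB Pool.Agent.Helper16.GT Pool.Agent.ThF Polynomial

variable {k σ : Type} [Field k] [Finite k] [Finite σ] {I : Set (MvPolynomial σ (RatFunc k))}
variable {Fx : Type} [Field Fx] [Algebra k Fx] [Algebra (RatFunc k) Fx]
  [IsScalarTower k (RatFunc k) Fx] {η : σ → Fx} {j₀ : σ}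

theorem dbad_val_top {E : Type} [Field E] {x : E} (hx : x ≠ 0) :
    (⊤ : ValuationSubring E).valuation x = 1 := by
  have h1 := ((⊤ : ValuationSubring E).valuation_le_one_iff x).2 (ValuationSubring.mem_top x)
  have h2 := ((⊤ : ValuationSubring E).valuation_le_one_iff x⁻¹).2 (ValuationSubring.mem_top _)
  refine le_antisymm h1 (not_lt.1 fun h3 => ?_)
  rw [map_inv₀] at h2
  have h4 : (⊤ : ValuationSubring E).valuation x ≠ 0 := by simpa using hx
  exact absurd ((one_lt_inv₀ (zero_lt_iff.2 h4)).2 h3) (not_lt.2 h2)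

/-- `FVal` for the trivial valuation ring. -/
theorem dbad_fval_top (φ : Quo (wOne σ) I →ₗ[ℚ] ℚ) (n : ℕ) {m : ℕ}
    (Δ : Fin m → CD σ (AlgebraicClosure Fx)) {q : AlgebraicClosure Fx} (hq : q ≠ 0) :
    FVal φ n (⊤ : ValuationSubring (AlgebraicClosure Fx)) Δ q := by
  intro g hg
  rw [dbad_val_top hg.ne_zero, dbad_val_top hq, one_pow]

theorem dbad_ne (hη : IsGen I η j₀) {F G : MvPolynomial σ (RatFunc k)}
    (h : ∃ m, F.IsHomogeneous m ∧ G.IsHomogeneous m) (hF : F ∉ Ideal.span I)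
    (hG : G ∉ Ideal.span I) :
    MvPolynomial.aeval (ηo η) F / MvPolynomial.aeval (ηo η) G ≠ 0 := by
  obtain ⟨m, h1, h2⟩ := h
  exact div_ne_zero (fun h0 => hF ((eta_mem hη F m h1).1 h0))
    (fun h0 => hG ((eta_mem hη G m h2).1 h0))

/-- D8. The bad set has codimension two. Proof: `R` is the set of the pairs `(F_P, G_P)`,
`P ∈ D.support`, with `ord_P F_P - ord_P G_P = D P` (`d1_pair`), and of `(1, 1)`.
Let `Bad` be the set of `B` over `K` such that for every `p ∈ R` with `LocE D B p` there is `B'` over `K`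
with the same centre and not `FVal φ n B' Δ p`. Apply `d8_core`: let `Bs` be a limit of bad `B`'s with
centre `P` or `⊤`. There is `p ∈ R` with `D P = ord p` (`(1, 1)` if `P ∉ D.support` or `Bs = ⊤`); by
`d8_le` or `d8_le_top` eventually `LocE D B p`, so there are `f B` over `K` with the same centre as `B`
and not `FVal φ n (f B) Δ p`. Let `Bs' = ulim U f`; by `nval_lim` it has the same centre as `Bs`; so
`FVal φ n Bs' Δ p` by `hD` (or since it is `⊤`, by `d4_top`), contradiction to `d8_val`. -/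
theorem d8_bad (hI : ∀ P ∈ I, ∃ d, P.IsHomogeneous d) (hpr : (Ideal.span I).IsPrime)
    (hreg : RegOne (Ideal.span I)) (hη : IsGen I η j₀) {m : ℕ}
    (Δ : Fin m → CD σ (AlgebraicClosure Fx)) (hΔ : CFam I Δ (ηo η))
    (φ : Quo (wOne σ) I →ₗ[ℚ] ℚ) (n : ℕ) (D : Dv (Ideal.span I)) (hD : DivOf φ n η Δ D) :
    ∃ (R : Set (MvPolynomial σ (RatFunc k) × MvPolynomial σ (RatFunc k)))
      (J : Set (MvPolynomial σ (RatFunc k))), R.Finite ∧
      (∀ p ∈ R, (∃ m, p.1.IsHomogeneous m ∧ p.2.IsHomogeneous m) ∧ p.1 ∉ Ideal.span I ∧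
        p.2 ∉ Ideal.span I) ∧
      (∀ E ∈ J, ∃ m, E.IsHomogeneous m) ∧ (∀ P, IsPD (Ideal.span I) P → ∃ E ∈ J, E ∉ P) ∧
      (∃ E ∈ J, E ∉ Ideal.span I) ∧
      ∀ B : ValuationSubring (AlgebraicClosure Fx), OverK k B → (∃ E ∈ J, NVal B (ηo η) E) →
        ∃ p ∈ R, LocE (Ideal.span I) D B (ηo η) p.1 p.2 ∧
          ∀ B' : ValuationSubring (AlgebraicClosure Fx), OverK k B' → SameC k B B' (ηo η) →
            FVal φ n B' Δ (MvPolynomial.aeval (ηo η) p.1 / MvPolynomial.aeval (ηo η) p.2) := by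
  classical
  have hhom := d1_span hI
  choose Fp Gp mp hFh hGh hF1 hG1 hord using
    fun P : {P // IsPD (Ideal.span I) P} => d1_pair hpr hhom hreg P.1 P.2 (D P)
  set R : Set (MvPolynomial σ (RatFunc k) × MvPolynomial σ (RatFunc k)) :=
    insert (1, 1) ((fun P => (Fp P, Gp P)) '' (D.support : Set {P // IsPD (Ideal.span I) P}))
    with hR
  have hRfin : R.Finite := (D.support.finite_toSet.image _).insert _
  have h1I : (1 : MvPolynomial σ (RatFunc k)) ∉ Ideal.span I :=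
    (Ideal.ne_top_iff_one _).1 hpr.ne_top
  have hRp : ∀ p ∈ R, (∃ m, p.1.IsHomogeneous m ∧ p.2.IsHomogeneous m) ∧ p.1 ∉ Ideal.span I ∧
      p.2 ∉ Ideal.span I := by
    rintro p (rfl | ⟨P, -, rfl⟩)
    · exact ⟨⟨0, MvPolynomial.isHomogeneous_one _ _, MvPolynomial.isHomogeneous_one _ _⟩,
        h1I, h1I⟩
    · exact ⟨⟨mp P, hFh P, hGh P⟩, hF1 P, hG1 P⟩
  set Bad : Set (ValuationSubring (AlgebraicClosure Fx)) := {B | OverK k B ∧ ∀ p ∈ R,
    LocE (Ideal.span I) D B (ηo η) p.1 p.2 → ∃ B' : ValuationSubring (AlgebraicClosure Fx),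
      OverK k B' ∧ SameC k B B' (ηo η) ∧
        ¬ FVal φ n B' Δ (MvPolynomial.aeval (ηo η) p.1 / MvPolynomial.aeval (ηo η) p.2)}
    with hBad
  obtain ⟨J, hJ1, hJ2, hJ3, hJ4⟩ := d8_core hI hpr hη Bad (fun B hB => hB.1) (by
    intro U Bs hBs hBsK hcase
    have hx : ηo η ≠ 0 := eta_ne hη
    -- the pair
    obtain ⟨p, hpR, hploc, hpval⟩ : ∃ p ∈ R,
        (∀ᶠ i : Bad in (U : Filter Bad), LocE (Ideal.span I) D i.1 (ηo η) p.1 p.2) ∧
        ∀ Bs' : ValuationSubring (AlgebraicClosure Fx), OverK k Bs' →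
          (∀ (F : MvPolynomial σ (RatFunc k)) (n : ℕ), F.IsHomogeneous n →
            (NVal Bs' (ηo η) F ↔ NVal Bs (ηo η) F)) →
          FVal φ n Bs' Δ
            (MvPolynomial.aeval (ηo η) p.1 / MvPolynomial.aeval (ηo η) p.2) := by
      rcases hcase with hT | ⟨P, hP, hc⟩
      · refine ⟨(1, 1), Set.mem_insert _ _, ?_, ?_⟩
        · refine d8_le_top hI hpr hη D U (fun i => i.1) (fun i => i.2.1) (fun x => ?_) 1 1 0
            (MvPolynomial.isHomogeneous_one _ _) (MvPolynomial.isHomogeneous_one _ _) h1I h1I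
          exact (hBs x).1 (by rw [hT]; exact ValuationSubring.mem_top x)
        · intro Bs' hK' hs
          have hBs' : Bs' = ⊤ := d4_top hI hpr hη Bs' hK' (fun F n hF hFI => by
            rw [hs F n hF, hT]
            exact nval_top (ηo η) hx F n hF (fun h0 => hFI ((eta_mem hη F n hF).1 h0)))
          rw [hBs']
          exact dbad_fval_top φ n Δ (dbad_ne hη
            ⟨0, MvPolynomial.isHomogeneous_one _ _, MvPolynomial.isHomogeneous_one _ _⟩ h1I h1I)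
      · obtain ⟨p, hpR, hpo⟩ : ∃ p ∈ R, D ⟨P, hP⟩ =
            (ordP (Ideal.span I) P p.1 : ℤ) - (ordP (Ideal.span I) P p.2 : ℤ) := by
          by_cases h0 : D ⟨P, hP⟩ = 0
          · exact ⟨(1, 1), Set.mem_insert _ _, by rw [h0]; simp⟩
          · exact ⟨(Fp ⟨P, hP⟩, Gp ⟨P, hP⟩), Set.mem_insert_of_mem _
              ⟨⟨P, hP⟩, Finsupp.mem_support_iff.2 h0, rfl⟩, hord ⟨P, hP⟩⟩
        obtain ⟨⟨m', h1, h2⟩, h3, h4⟩ := hRp p hpR
        refine ⟨p, hpR, ?_, ?_⟩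
        · exact d8_le hI hpr hη D U (fun i => i.1) (fun i => i.2.1) Bs hBs P hP hc p.1 p.2 m'
            h1 h2 h3 h4 hpo
        · intro Bs' hK' hs
          exact hD ⟨P, hP⟩ Bs' hK' (fun F n hF => by rw [hs F n hF]; exact hc F n hF)
            p.1 p.2 m' h1 h2 h3 h4 hpo
    -- the family of bad companions
    have hf : ∀ i : Bad, ∃ B' : ValuationSubring (AlgebraicClosure Fx), OverK k B' ∧
        (LocE (Ideal.span I) D i.1 (ηo η) p.1 p.2 → SameC k i.1 B' (ηo η) ∧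
        ¬ FVal φ n B' Δ (MvPolynomial.aeval (ηo η) p.1 / MvPolynomial.aeval (ηo η) p.2)) := by
      intro i
      by_cases hl : LocE (Ideal.span I) D i.1 (ηo η) p.1 p.2
      · obtain ⟨B', h1, h2, h3⟩ := i.2.2 p hpR hl
        exact ⟨B', h1, fun _ => ⟨h2, h3⟩⟩
      · exact ⟨i.1, i.2.1, fun h => absurd h hl⟩
    choose f hfK hfl using hf
    have hl1 := nval_lim U f (Helper51.TT.ulim U f) (fun x => Iff.rfl)
      (Filter.Eventually.of_forall hfK) (ηo η) hx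
    have hl2 := nval_lim U (fun i : Bad => i.1) Bs hBs
      (Filter.Eventually.of_forall fun i : Bad => i.2.1) (ηo η) hx
    have hsame : ∀ (F : MvPolynomial σ (RatFunc k)) (n : ℕ), F.IsHomogeneous n →
        (NVal (Helper51.TT.ulim U f) (ηo η) F ↔ NVal Bs (ηo η) F) := by
      intro F n' hF
      rw [hl1.2 F n' hF, hl2.2 F n' hF]
      refine Filter.eventually_congr ?_
      filter_upwards [hploc] with i hi
      exact ((hfl i hi).1 F n' hF).symm
    have hv := hpval _ hl1.1 hsame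
    obtain ⟨⟨m', h1, h2⟩, h3, h4⟩ := hRp p hpR
    have hev := d8_val hI Δ hΔ φ n U f (Helper51.TT.ulim U f) (fun x => Iff.rfl) _
      (dbad_ne hη ⟨m', h1, h2⟩ h3 h4) hv
    obtain ⟨i, hi1, hi2⟩ := (hploc.and hev).exists
    exact (hfl i hi1).2 hi2)
  refine ⟨R, J, hRfin, hRp, hJ1, hJ2, hJ3, fun B hB hE => ?_⟩
  obtain ⟨E, hEJ, hEB⟩ := hE
  by_contra hcon
  refine hJ4 B ⟨hB, fun p hp hl => ?_⟩ E hEJ hEB
  by_contra h2
  refine hcon ⟨p, hp, hl, fun B' hB' hs => ?_⟩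
  by_contra h3
  exact h2 ⟨B', hB', hs, h3⟩

/-- D8'. The same for a principal divisor: apply `d8_core` to the set of all `B` over `K` with not
`FVal φ n B Δ (F₀ / G₀)`, and `d8_val`. -/
theorem d8_prin (hI : ∀ P ∈ I, ∃ d, P.IsHomogeneous d) (hpr : (Ideal.span I).IsPrime)
    (hη : IsGen I η j₀) {m : ℕ}
    (Δ : Fin m → CD σ (AlgebraicClosure Fx)) (hΔ : CFam I Δ (ηo η))
    (φ : Quo (wOne σ) I →ₗ[ℚ] ℚ) (n : ℕ) (F₀ G₀ : MvPolynomial σ (RatFunc k)) (d : ℕ)
    (hF : F₀.IsHomogeneous d) (hG : G₀.IsHomogeneous d) (hF1 : F₀ ∉ Ideal.span I)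
    (hG1 : G₀ ∉ Ideal.span I)
    (hD : DivOf φ n η Δ fun P => (ordP (Ideal.span I) P.1 F₀ : ℤ) - (ordP (Ideal.span I) P.1 G₀ : ℤ)) :
    ∃ J : Set (MvPolynomial σ (RatFunc k)), (∀ E ∈ J, ∃ m, E.IsHomogeneous m) ∧
      (∀ P, IsPD (Ideal.span I) P → ∃ E ∈ J, E ∉ P) ∧ (∃ E ∈ J, E ∉ Ideal.span I) ∧
      ∀ B : ValuationSubring (AlgebraicClosure Fx), OverK k B → (∃ E ∈ J, NVal B (ηo η) E) →
        FVal φ n B Δ (MvPolynomial.aeval (ηo η) F₀ / MvPolynomial.aeval (ηo η) G₀) := by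
  have hq := dbad_ne hη ⟨d, hF, hG⟩ hF1 hG1
  obtain ⟨J, hJ1, hJ2, hJ3, hJ4⟩ := d8_core hI hpr hη
    {B | OverK k B ∧ ¬ FVal φ n B Δ
      (MvPolynomial.aeval (ηo η) F₀ / MvPolynomial.aeval (ηo η) G₀)}
    (fun B hB => hB.1) (by
      intro U Bs hBs hBsK hcase
      have hv : FVal φ n Bs Δ
          (MvPolynomial.aeval (ηo η) F₀ / MvPolynomial.aeval (ηo η) G₀) := by
        rcases hcase with hT | ⟨P, hP, hc⟩
        · rw [hT]
          exact dbad_fval_top φ n Δ hq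
        · exact hD ⟨P, hP⟩ Bs hBsK hc F₀ G₀ d hF hG hF1 hG1 rfl
      obtain ⟨i, hi⟩ := (d8_val hI Δ hΔ φ n U (fun i => i.1) Bs hBs _ hq hv).exists
      exact i.2.2 hi)
  refine ⟨J, hJ1, hJ2, hJ3, fun B hB hE => ?_⟩
  obtain ⟨E, hEJ, hEB⟩ := hE
  by_contra hcon
  exact hJ4 B ⟨hB, hcon⟩ E hEJ hEB

end Pool.Agent.TT
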