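import Mathlib

set_option autoImplicit false
set_option linter.style.haveILetI false

/-! Valuation subrings of a finite normal extension with the same trace on the base field are
conjugate. -/

namespace Pool.Agent.TT

open Polynomial
open scoped Pointwise

/-- Let `O` be an integrally closed subring of a field `M`, `x` a root of a polynomial with
coefficients in `O`, not all in the ideal `𝔫`. Then `x` or `x⁻¹` is a fraction with denominator
outside `𝔫`. -/
theorem vc_frac {M : Type} [Field M] (O : Subring M) (hO : ∀ x : M, IsIntegral O x → x ∈ O)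
    (𝔫 : Ideal O) (x : M) :
    ∀ (m : ℕ) (P : O[X]), P.natDegree = m → aeval x P = 0 → ∀ n, P.coeff n ∉ 𝔫 →
    (∃ a b : O, b ∉ 𝔫 ∧ x = (a : M) / b) ∨ (∃ a b : O, b ∉ 𝔫 ∧ x⁻¹ = (a : M) / b) := by
  intro m
  induction m using Nat.strong_induction_on with | h m IH =>
  intro P hm hPx n hn
  have hP0 : P ≠ 0 := by
    rintro rfl
    exact hn (by simp)
  by_cases hl : P.leadingCoeff ∈ 𝔫
  · obtain _ | m := m
    · obtain ⟨r, rfl⟩ := natDegree_eq_zero.mp hm
      rw [aeval_C] at hPx
      have hr : r = 0 := Subtype.ext hPx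
      subst hr
      exact absurd (by simp : (C (0 : O) : O[X]).coeff n ∈ 𝔫) hn
    · have hi : IsIntegral O (P.leadingCoeff • x) := isIntegral_leadingCoeff_smul P x hPx
      obtain ⟨a, ha⟩ : ∃ a : O, (a : M) = P.leadingCoeff • x := ⟨⟨_, hO _ hi⟩, rfl⟩
      have ha' : (a : M) = (P.leadingCoeff : M) * x := by rw [ha]; rfl
      by_cases haN : a ∈ 𝔫
      · have hnd : n ≠ P.natDegree := by
          rintro rfl
          exact hn hl
        refine IH _ ?_ (P.eraseLead + C a * X ^ m) rfl ?_ n ?_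
        · have h1 : (P.eraseLead + C a * X ^ m).natDegree ≤ m := by
            have h2 := eraseLead_natDegree_le P
            have h3 : P.eraseLead.natDegree ≤ m := by omega
            refine (natDegree_add_le _ _).trans (max_le h3 ?_)
            exact natDegree_C_mul_X_pow_le a m
          omega
        · have h4 : aeval x P.eraseLead = - ((P.leadingCoeff : M) * x ^ (m + 1)) := by
            have h5 := P.eraseLead_add_monomial_natDegree_leadingCoeff
            rw [hm] at h5
            have h6 : aeval x P = aeval x P.eraseLead + (P.leadingCoeff : M) * x ^ (m + 1) := by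
              conv_lhs => rw [← h5]
              rw [map_add, aeval_monomial]
              rfl
            rw [hPx] at h6
            linear_combination -h6
          rw [map_add, h4, map_mul, aeval_C, map_pow, aeval_X]
          change - ((P.leadingCoeff : M) * x ^ (m + 1)) + (a : M) * x ^ m = 0
          rw [ha']
          ring
        · intro h7
          rw [coeff_add, eraseLead_coeff_of_ne n hnd, coeff_C_mul, coeff_X_pow] at h7
          apply hn
          split_ifs at h7 with h8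
          · rw [mul_one] at h7
            exact (𝔫.add_mem_iff_left haN).1 h7
          · rwa [mul_zero, add_zero] at h7
      · right
        refine ⟨P.leadingCoeff, a, haN, ?_⟩
        have ha0 : (a : M) ≠ 0 := by
          intro h
          apply haN
          have : a = 0 := Subtype.ext h
          rw [this]
          exact 𝔫.zero_mem
        have hx0 : x ≠ 0 := by
          rintro rfl
          apply ha0
          rw [ha', mul_zero]
        rw [ha']
        have hl0 : (P.leadingCoeff : M) ≠ 0 := by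
          intro h
          apply ha0
          rw [ha', h, zero_mul]
        field_simp
  · left
    have hi : IsIntegral O (P.leadingCoeff • x) := isIntegral_leadingCoeff_smul P x hPx
    obtain ⟨a, ha⟩ : ∃ a : O, (a : M) = P.leadingCoeff • x := ⟨⟨_, hO _ hi⟩, rfl⟩
    have ha' : (a : M) = (P.leadingCoeff : M) * x := by rw [ha]; rfl
    refine ⟨a, P.leadingCoeff, hl, ?_⟩
    have hl0 : (P.leadingCoeff : M) ≠ 0 := by
      intro h
      apply hP0
      rw [← leadingCoeff_eq_zero]
      exact Subtype.ext h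
    rw [ha']
    field_simp

/-- Elements integral over a subring of a valuation ring are in the valuation ring. -/
theorem vc_integral_mem {Ω : Type} [Field Ω] (B : ValuationSubring Ω) (R : Subring Ω)
    (hR : R ≤ B.toSubring) {x : Ω} (hx : IsIntegral R x) : x ∈ B := by
  obtain ⟨p, hp, hpx⟩ := hx
  have h1 : IsIntegral B x := by
    refine ⟨p.map (Subring.inclusion hR), hp.map _, ?_⟩
    rw [eval₂_map]
    exact hpx
  obtain ⟨y, hy⟩ := IsIntegrallyClosed.algebraMap_eq_of_integral h1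
  rw [← hy]
  exact y.2

/-- Every element of the valuation ring `B` is a fraction of elements of `O`, if every element is a
root of a polynomial with coefficients in `O` and a coefficient one. -/
theorem vc_fraction {Ω : Type} [Field Ω] (B : ValuationSubring Ω) (O : Subring Ω)
    (hO : ∀ x : Ω, IsIntegral O x → x ∈ O) (hOB : O ≤ B.toSubring)
    (hpol : ∀ x : Ω, ∃ P : O[X], aeval x P = 0 ∧ ∃ n, P.coeff n = 1) (x : Ω) (hx : x ∈ B) :
    ∃ a b : O, B.valuation (b : Ω) = 1 ∧ x = (a : Ω) / b := by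
  let 𝔫 : Ideal O :=
    { carrier := {a | B.valuation (a : Ω) < 1}
      add_mem' := fun {a b} ha hb => (B.valuation.map_add_lt ha hb)
      zero_mem' := by simp
      smul_mem' := fun c a ha => by
        change B.valuation ((c : Ω) * a) < 1
        rw [map_mul, mul_comm]
        exact mul_lt_one_of_lt_of_le ha ((B.valuation_le_one_iff _).2 (hOB c.2)) }
  have hn : ∀ a : O, a ∉ 𝔫 → B.valuation (a : Ω) = 1 := fun a ha =>
    le_antisymm ((B.valuation_le_one_iff _).2 (hOB a.2)) (not_lt.1 ha)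
  obtain ⟨P, hP, n, hn1⟩ := hpol x
  have hn2 : P.coeff n ∉ 𝔫 := by
    rw [hn1]
    intro h
    have h2 : B.valuation ((1 : O) : Ω) < 1 := h
    simp at h2
  rcases vc_frac O hO 𝔫 x P.natDegree P rfl hP n hn2 with ⟨a, b, hb, hab⟩ | ⟨a, b, hb, hab⟩
  · exact ⟨a, b, hn b hb, hab⟩
  · have hb1 := hn b hb
    by_cases hx0 : x = 0
    · exact ⟨0, 1, by simp, by simp [hx0]⟩
    · have hb0 : (b : Ω) ≠ 0 := by
        intro h0
        rw [h0, map_zero] at hb1
        exact zero_ne_one hb1
      have ha0 : (a : Ω) ≠ 0 := by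
        intro h0
        rw [h0, zero_div, inv_eq_zero] at hab
        exact hx0 hab
      have h3 : x = (b : Ω) / a := by
        rw [← inv_inv x, hab, inv_div]
      refine ⟨b, a, ?_, h3⟩
      have h4 : B.valuation x ≤ 1 := (B.valuation_le_one_iff _).2 hx
      rw [h3, map_div₀, hb1, one_div] at h4
      have h5 : B.valuation (a : Ω) ≤ 1 := (B.valuation_le_one_iff _).2 (hOB a.2)
      refine le_antisymm h5 ?_
      have h6 : B.valuation (a : Ω) ≠ 0 := by simpa using ha0
      exact (inv_le_one₀ (zero_lt_iff.2 h6)).1 h4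

/-- The Galois case. -/
theorem vc_galois {K₁ Ω : Type} [Field K₁] [Field Ω] [Algebra K₁ Ω] [IsGalois K₁ Ω]
    (B₁ B₂ : ValuationSubring Ω)
    (h : ∀ x : K₁, algebraMap K₁ Ω x ∈ B₁ ↔ algebraMap K₁ Ω x ∈ B₂) :
    ∃ τ : Ω ≃ₐ[K₁] Ω, ∀ x, x ∈ B₁ ↔ τ x ∈ B₂ := by
  classical
  let R : Subring Ω := B₁.toSubring ⊓ (algebraMap K₁ Ω).range
  have hR1 : R ≤ B₁.toSubring := inf_le_left
  have hR2 : R ≤ B₂.toSubring := by
    rintro _ ⟨h1, ⟨y, rfl⟩⟩
    exact (h y).1 h1
  let Oa : Subalgebra R Ω := integralClosure R Ω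
  have hint : ∀ (g : Ω ≃ₐ[K₁] Ω) (x : Ω), IsIntegral R x → IsIntegral R (g x) := by
    rintro g x ⟨p, hp, hpx⟩
    refine ⟨p, hp, ?_⟩
    have h1 : ((g : Ω →+* Ω)).comp (algebraMap R Ω) = algebraMap R Ω := by
      ext ⟨_, h1, ⟨y, rfl⟩⟩
      exact g.commutes y
    have h2 := congrArg (g : Ω →+* Ω) hpx
    rw [map_zero, hom_eval₂, h1] at h2
    exact h2
  letI : MulSemiringAction (Ω ≃ₐ[K₁] Ω) Oa :=
    { smul := fun g x => ⟨g x.1, hint g x.1 x.2⟩
      one_smul := fun x => rfl
      mul_smul := fun g g' x => rfl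
      smul_zero := fun g => Subtype.ext (map_zero g)
      smul_add := fun g x y => Subtype.ext (map_add g x.1 y.1)
      smul_one := fun g => Subtype.ext (map_one g)
      smul_mul := fun g x y => Subtype.ext (map_mul g x.1 y.1) }
  have hsm : ∀ (g : Ω ≃ₐ[K₁] Ω) (x : Oa), ((g • x : Oa) : Ω) = g x.1 := fun g x => rfl
  haveI : SMulCommClass (Ω ≃ₐ[K₁] Ω) R Oa := by
    constructor
    rintro g ⟨_, h1, ⟨y, rfl⟩⟩ x
    apply Subtype.ext
    change g (algebraMap K₁ Ω y * x.1) = algebraMap K₁ Ω y * g x.1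
    rw [map_mul, AlgEquiv.commutes]
  letI : TopologicalSpace Oa := ⊥
  haveI : DiscreteTopology Oa := ⟨rfl⟩
  haveI : ContinuousSMul (Ω ≃ₐ[K₁] Ω) Oa := by
    constructor
    rw [continuous_prod_of_discrete_right]
    intro x
    rw [continuous_discrete_rng]
    intro y
    by_cases hy : ∃ g₀ : Ω ≃ₐ[K₁] Ω, g₀ • x = y
    · obtain ⟨g₀, rfl⟩ := hy
      have h1 : ((fun g : Ω ≃ₐ[K₁] Ω => g • x) ⁻¹' {g₀ • x}) =
          (fun g => g₀⁻¹ * g) ⁻¹' (MulAction.stabilizer (Ω ≃ₐ[K₁] Ω) (x : Ω) : Set _) := by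
        ext g
        rw [Set.mem_preimage, Set.mem_singleton_iff, Set.mem_preimage, SetLike.mem_coe,
          MulAction.mem_stabilizer_iff, Subtype.ext_iff, hsm, hsm, mul_smul]
        change g x.1 = g₀ x.1 ↔ g₀⁻¹ (g x.1) = x.1
        constructor
        · intro h2
          rw [h2]
          exact g₀.symm_apply_apply x.1
        · intro h2
          have h3 : g₀ (g₀⁻¹ (g x.1)) = g x.1 := g₀.apply_symm_apply (g x.1)
          rw [← h3, h2]
      rw [h1]
      exact (stabilizer_isOpen_of_isIntegral (K := K₁) (x : Ω)).preimage (continuous_const_mul _)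
    · have h1 : ((fun g : Ω ≃ₐ[K₁] Ω => g • x) ⁻¹' {y}) = ∅ := by
        ext g
        simp only [Set.mem_preimage, Set.mem_singleton_iff, Set.mem_empty_iff_false, iff_false]
        exact fun h2 => hy ⟨g, h2⟩
      rw [h1]
      exact isOpen_empty
  haveI : Algebra.IsInvariant R Oa (Ω ≃ₐ[K₁] Ω) := by
    constructor
    intro b hb
    have h1 : (b : Ω) ∈ (⊥ : IntermediateField K₁ Ω) := by
      rw [InfiniteGalois.mem_bot_iff_fixed]
      intro g
      exact congrArg Subtype.val (hb g)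
    rw [IntermediateField.mem_bot] at h1
    obtain ⟨y, hy⟩ := h1
    have h2 : (b : Ω) ∈ B₁ := vc_integral_mem B₁ R hR1 b.2
    refine ⟨⟨(b : Ω), h2, ⟨y, hy⟩⟩, Subtype.ext rfl⟩
  -- the two prime ideals
  have hOB1 : ∀ x : Oa, (x : Ω) ∈ B₁ := fun x => vc_integral_mem B₁ R hR1 x.2
  have hOB2 : ∀ x : Oa, (x : Ω) ∈ B₂ := fun x => vc_integral_mem B₂ R hR2 x.2
  have mk : ∀ B : ValuationSubring Ω, (∀ x : Oa, (x : Ω) ∈ B) → ∃ P : Ideal Oa, P.IsPrime ∧
      ∀ x : Oa, x ∈ P ↔ B.valuation (x : Ω) < 1 := by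
    intro B hB
    let f : Oa →+* B := (Oa.val : Oa →+* Ω).codRestrict B.toSubring (fun x => hB x)
    refine ⟨(IsLocalRing.maximalIdeal B).comap f, inferInstance, fun x => ?_⟩
    rw [Ideal.mem_comap, ValuationSubring.valuation_lt_one_iff]
    rfl
  obtain ⟨P₁, hP₁, hP₁m⟩ := mk B₁ hOB1
  obtain ⟨P₂, hP₂, hP₂m⟩ := mk B₂ hOB2
  have hlt : ∀ y : K₁, B₁.valuation (algebraMap K₁ Ω y) < 1 ↔
      B₂.valuation (algebraMap K₁ Ω y) < 1 := by
    intro y
    by_cases hy : y = 0
    · subst hy; simp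
    · have key : ∀ B : ValuationSubring Ω, B.valuation (algebraMap K₁ Ω y) < 1 ↔
          algebraMap K₁ Ω y⁻¹ ∉ B := by
        intro B
        have h0 : B.valuation (algebraMap K₁ Ω y) ≠ 0 := by simpa using hy
        rw [← B.valuation_le_one_iff, map_inv₀, map_inv₀, not_le, one_lt_inv₀ (zero_lt_iff.2 h0)]
      rw [key, key, h]
  have hunder : P₁.under R = P₂.under R := by
    ext ⟨_, h1, ⟨y, rfl⟩⟩
    rw [Ideal.under_def, Ideal.under_def, Ideal.mem_comap, Ideal.mem_comap, hP₁m, hP₂m]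
    exact hlt y
  obtain ⟨g, hg⟩ := Algebra.IsInvariant.exists_smul_of_under_eq_of_profinite
    (A := R) (G := Ω ≃ₐ[K₁] Ω) P₁ P₂ hunder
  have hg' : ∀ b : Oa, B₁.valuation (b : Ω) < 1 ↔ B₂.valuation (g (b : Ω)) < 1 := by
    intro b
    rw [← hP₁m, ← hsm, ← hP₂m, hg, Ideal.smul_mem_pointwise_smul_iff]
  -- every element is a root of a polynomial over `R` with a coefficient one
  let O : Subring Ω := Oa.toSubring
  have hO : ∀ x : Ω, IsIntegral O x → x ∈ O := by
    intro x hx
    have h1 : IsIntegral Oa x := hx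
    exact isIntegral_trans (R := R) (A := Oa) x h1
  have hpol : ∀ x : Ω, ∃ P : O[X], aeval x P = 0 ∧ ∃ n, P.coeff n = 1 := by
    intro x
    have hx : IsIntegral K₁ x := Algebra.IsIntegral.isIntegral x
    set p := minpoly K₁ x with hp
    have hp0 : p ≠ 0 := minpoly.ne_zero hx
    obtain ⟨i₀, hi₀, hmax⟩ := Finset.exists_max_image p.support
      (fun i => B₁.valuation (algebraMap K₁ Ω (p.coeff i))) (by simpa using hp0)
    have hc0 : p.coeff i₀ ≠ 0 := by simpa using hi₀
    have hmem : ∀ i, algebraMap K₁ Ω ((p.coeff i₀)⁻¹ * p.coeff i) ∈ O := by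
      intro i
      have h1 : algebraMap K₁ Ω ((p.coeff i₀)⁻¹ * p.coeff i) ∈ B₁ := by
        by_cases hi : p.coeff i = 0
        · rw [hi, mul_zero, map_zero]
          exact zero_mem _
        · rw [← B₁.valuation_le_one_iff, map_mul, map_inv₀, map_mul, map_inv₀]
          have h2 := hmax i (by simpa using hi)
          have h3 : B₁.valuation (algebraMap K₁ Ω (p.coeff i₀)) ≠ 0 := by simpa using hc0
          exact (inv_mul_le_one₀ (zero_lt_iff.2 h3)).2 h2
      exact isIntegral_algebraMap (R := R) (x := ⟨_, h1, ⟨_, rfl⟩⟩)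
    have hcoef : ∀ i, ((C (p.coeff i₀)⁻¹ * p).map (algebraMap K₁ Ω)).coeff i =
        algebraMap K₁ Ω ((p.coeff i₀)⁻¹ * p.coeff i) := by
      intro i
      rw [coeff_map, coeff_C_mul]
    have hsub : (↑((C (p.coeff i₀)⁻¹ * p).map (algebraMap K₁ Ω)).coeffs : Set Ω) ⊆ O := by
      intro y hy
      obtain ⟨i, -, rfl⟩ := mem_coeffs_iff.1 hy
      rw [hcoef]
      exact hmem i
    refine ⟨((C (p.coeff i₀)⁻¹ * p).map (algebraMap K₁ Ω)).toSubring O hsub, ?_, i₀, ?_⟩
    · rw [aeval_def, ← eval_map]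
      have h1 := map_toSubring ((C (p.coeff i₀)⁻¹ * p).map (algebraMap K₁ Ω)) O hsub
      change eval x (map O.subtype _) = 0
      rw [h1, Polynomial.map_mul, eval_mul]
      have h2 : eval x (p.map (algebraMap K₁ Ω)) = 0 := by
        rw [eval_map, ← aeval_def, hp]
        exact minpoly.aeval K₁ x
      rw [h2, mul_zero]
    · apply Subtype.ext
      have h1 := coeff_toSubring ((C (p.coeff i₀)⁻¹ * p).map (algebraMap K₁ Ω)) O hsub (n := i₀)
      rw [h1, hcoef, inv_mul_cancel₀ hc0, map_one]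
      rfl
  have hOB : O ≤ B₁.toSubring := fun x hx => hOB1 ⟨x, hx⟩
  have hfr := fun x hx => vc_fraction B₁ O hO hOB hpol x hx
  have hone : ∀ b : Oa, B₁.valuation (b : Ω) = 1 → B₂.valuation (g (b : Ω)) = 1 := by
    intro b hb
    refine le_antisymm ((B₂.valuation_le_one_iff _).2 (hOB2 (g • b))) (not_lt.1 fun h1 => ?_)
    rw [← hg', hb] at h1
    exact lt_irrefl _ h1
  refine ⟨g, fun x => ⟨fun hx => ?_, fun hx => ?_⟩⟩
  · obtain ⟨a, b, hb, rfl⟩ := hfr x hx
    rw [map_div₀, ← B₂.valuation_le_one_iff, map_div₀, hone b hb, div_one]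
    exact (B₂.valuation_le_one_iff _).2 (hOB2 (g • (a : Oa)))
  · by_contra hx1
    have hx2 : x⁻¹ ∈ B₁ := (B₁.mem_or_inv_mem x).resolve_left hx1
    obtain ⟨a, b, hb, hab⟩ := hfr _ hx2
    have hx0 : x ≠ 0 := by
      rintro rfl
      exact hx1 (zero_mem _)
    have h1 : B₁.valuation (a : Ω) < 1 := by
      have h2 : B₁.valuation x⁻¹ < 1 := by
        have h0 : B₁.valuation x ≠ 0 := by simpa using hx0
        rw [map_inv₀]
        refine inv_lt_one_of_one_lt₀ ?_
        rw [← not_le, B₁.valuation_le_one_iff]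
        exact hx1
      rwa [hab, map_div₀, hb, div_one] at h2
    have h3 : B₂.valuation (g (a : Ω)) < 1 := (hg' (a : Oa)).1 h1
    have h4 : B₂.valuation (g x⁻¹) < 1 := by
      rw [hab, map_div₀, map_div₀, hone b hb, div_one]
      exact h3
    have h5 : B₂.valuation (g x) ≤ 1 := (B₂.valuation_le_one_iff _).2 hx
    have h6 : B₂.valuation (g x) * B₂.valuation (g x⁻¹) = 1 := by
      rw [← map_mul, ← map_mul, mul_inv_cancel₀ hx0, map_one, map_one]
    have h7 : B₂.valuation (g x) * B₂.valuation (g x⁻¹) < 1 := by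
      rw [mul_comm]
      exact mul_lt_one_of_lt_of_le h4 h5
    rw [h6] at h7
    exact lt_irrefl _ h7

/-- Powers. -/
theorem vc_pow_mem {Ω : Type} [Field Ω] (B : ValuationSubring Ω) (x : Ω) (n : ℕ) (hn : n ≠ 0) :
    x ^ n ∈ B ↔ x ∈ B := by
  rw [← B.valuation_le_one_iff, ← B.valuation_le_one_iff, map_pow]
  exact pow_le_one_iff_of_nonneg zero_le hn

/-- D2. Two valuation subrings of an algebraic closure of `F₀` with the same intersection with `F₀`
are conjugate. -/
theorem d2_conj {F₀ : Type} [Field F₀] (B₁ B₂ : ValuationSubring (AlgebraicClosure F₀))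
    (h : ∀ x : F₀, algebraMap F₀ (AlgebraicClosure F₀) x ∈ B₁ ↔
      algebraMap F₀ (AlgebraicClosure F₀) x ∈ B₂) :
    ∃ τ : AlgebraicClosure F₀ ≃ₐ[F₀] AlgebraicClosure F₀, ∀ x, x ∈ B₁ ↔ τ x ∈ B₂ := by
  let F₁ := perfectClosure F₀ (AlgebraicClosure F₀)
  have : PerfectField F₁ := inferInstance
  have : Algebra.IsAlgebraic F₁ (AlgebraicClosure F₀) :=
    Algebra.IsAlgebraic.tower_top (K := F₀) F₁
  have : Algebra.IsSeparable F₁ (AlgebraicClosure F₀) := inferInstance
  have : IsAlgClosure F₁ (AlgebraicClosure F₀) := ⟨inferInstance, inferInstance⟩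
  have : Normal F₁ (AlgebraicClosure F₀) := IsAlgClosure.normal F₁ _
  have : IsGalois F₁ (AlgebraicClosure F₀) := ⟨⟩
  obtain ⟨τ, hτ⟩ := vc_galois (K₁ := F₁) B₁ B₂ (by
    rintro ⟨x, hx⟩
    obtain ⟨n, y, hy⟩ := mem_perfectClosure_iff.1 hx
    have hq : ringExpChar F₀ ^ n ≠ 0 := pow_ne_zero _ (expChar_pos F₀ _).ne'
    change x ∈ B₁ ↔ x ∈ B₂
    rw [← vc_pow_mem B₁ x _ hq, ← vc_pow_mem B₂ x _ hq, ← hy]
    exact h y)
  exact ⟨τ.restrictScalars F₀, hτ⟩

end Pool.Agent.TT
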