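import Pool.Agent.TT.DCen
import Pool.Agent.TT.DOrd
import Pool.Agent.TT.VConj

set_option autoImplicit false
set_option linter.unusedSectionVars false

/-! Project TT, block D4b: valuation rings of the algebraic closure of the function field with centre
a prime divisor. -/

namespace Pool.Agent.TT

open Pool.Agent.Helper16 Pool.Agent.Helper16.BB Pool.Agent.Helper16.GT Pool.Agent.ThF Polynomial

variable {k σ : Type} [Field k] [Finite σ] {I : Set (MvPolynomial σ (RatFunc k))}
variable {Fx : Type} [Field Fx] [Algebra (RatFunc k) Fx] {η : σ → Fx} {j₀ : σ}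

theorem eta_ne (hη : IsGen I η j₀) : ηo η ≠ 0 := by
  intro h
  have h1 := congrFun h j₀
  simp only [ηo, Pi.zero_apply, hη.one, map_one] at h1
  exact one_ne_zero h1

/-- Forms at the generic point over the algebraic closure. -/
theorem eta_mem (hη : IsGen I η j₀) (F : MvPolynomial σ (RatFunc k)) (n : ℕ)
    (hF : F.IsHomogeneous n) : MvPolynomial.aeval (ηo η) F = 0 ↔ F ∈ Ideal.span I := by
  have h1 : MvPolynomial.aeval (ηo η) F =
      algebraMap Fx (AlgebraicClosure Fx) (MvPolynomial.aeval η F) := by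
    have := MvPolynomial.aeval_algebraMap_apply (AlgebraicClosure Fx) η F
    rw [← this]
    rfl
  rw [h1, ← hη.mem F n hF]
  exact map_eq_zero _

/-- `z` is a quotient of forms of the same degree with denominator outside `P`. -/
def dprime_Rep {E : Type} [Field E] [Algebra (RatFunc k) E] (x : σ → E)
    (P : Ideal (MvPolynomial σ (RatFunc k))) (Q : MvPolynomial σ (RatFunc k) → Prop) (z : E) :
    Prop :=
  ∃ (F G : MvPolynomial σ (RatFunc k)) (m : ℕ), F.IsHomogeneous m ∧ G.IsHomogeneous m ∧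
    G ∉ P ∧ Q F ∧ z = MvPolynomial.aeval x F / MvPolynomial.aeval x G

section rep

variable {E : Type} [Field E] [Algebra (RatFunc k) E] {x : σ → E}
  {P : Ideal (MvPolynomial σ (RatFunc k))}

theorem dprime_hom {F : MvPolynomial σ (RatFunc k)} {n : ℕ} (hF : F.IsHomogeneous n) (c : E)
    (y : σ → E) : MvPolynomial.aeval (fun i => c * y i) F = c ^ n * MvPolynomial.aeval y F := by
  rw [MvPolynomial.aeval_def, MvPolynomial.aeval_def, MvPolynomial.eval₂_eq,
    MvPolynomial.eval₂_eq, Finset.mul_sum]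
  refine Finset.sum_congr rfl fun d hd => ?_
  have h1 : ∏ i ∈ d.support, (c * y i) ^ d i =
      c ^ n * ∏ i ∈ d.support, y i ^ d i := by
    simp_rw [mul_pow]
    rw [Finset.prod_mul_distrib, Finset.prod_pow_eq_pow_sum]
    congr 2
    have h2 := hF (MvPolynomial.mem_support_iff.1 hd)
    rw [← h2, Finsupp.weight_apply, Finsupp.sum]
    simp
  rw [h1]
  ring

theorem dprime_add (hP : P.IsPrime)
    (hne : ∀ G : MvPolynomial σ (RatFunc k), ∀ n, G.IsHomogeneous n → G ∉ P →
      MvPolynomial.aeval x G ≠ 0) {J : Ideal (MvPolynomial σ (RatFunc k))} {z w : E}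
    (hz : dprime_Rep x P (· ∈ J) z) (hw : dprime_Rep x P (· ∈ J) w) :
    dprime_Rep x P (· ∈ J) (z + w) := by
  obtain ⟨F, G, m, hF, hG, hGP, hQ, rfl⟩ := hz
  obtain ⟨F', G', m', hF', hG', hGP', hQ', rfl⟩ := hw
  have h1 := hne G m hG hGP
  have h2 := hne G' m' hG' hGP'
  refine ⟨F * G' + F' * G, G * G', m + m', (hF.mul hG').add ?_, hG.mul hG', ?_, ?_, ?_⟩
  · rw [add_comm m m']
    exact hF'.mul hG
  · intro h
    rcases hP.mem_or_mem h with h | h
    · exact hGP h
    · exact hGP' h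
  · exact J.add_mem (J.mul_mem_right _ hQ) (J.mul_mem_right _ hQ')
  · simp only [map_add, map_mul]
    field_simp

theorem dprime_mul (hP : P.IsPrime)
    {J J' : Ideal (MvPolynomial σ (RatFunc k))} {z w : E}
    (hz : dprime_Rep x P (· ∈ J) z) (hw : dprime_Rep x P (· ∈ J') w) :
    dprime_Rep x P (fun F => F ∈ J ∧ F ∈ J') (z * w) := by
  obtain ⟨F, G, m, hF, hG, hGP, hQ, rfl⟩ := hz
  obtain ⟨F', G', m', hF', hG', hGP', hQ', rfl⟩ := hw
  refine ⟨F * F', G * G', m + m', hF.mul hF', hG.mul hG', ?_,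
    ⟨J.mul_mem_right _ hQ, J'.mul_mem_left _ hQ'⟩, ?_⟩
  · intro h
    rcases hP.mem_or_mem h with h | h
    · exact hGP h
    · exact hGP' h
  · simp only [map_mul]
    rw [div_mul_div_comm]

theorem dprime_mono {Q Q' : MvPolynomial σ (RatFunc k) → Prop} (h : ∀ F, Q F → Q' F) {z : E}
    (hz : dprime_Rep x P Q z) : dprime_Rep x P Q' z := by
  obtain ⟨F, G, m, hF, hG, hGP, hQ, rfl⟩ := hz
  exact ⟨F, G, m, hF, hG, hGP, h F hQ, rfl⟩

theorem dprime_neg {J : Ideal (MvPolynomial σ (RatFunc k))} {z : E}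
    (hz : dprime_Rep x P (· ∈ J) z) : dprime_Rep x P (· ∈ J) (-z) := by
  obtain ⟨F, G, m, hF, hG, hGP, hQ, rfl⟩ := hz
  refine ⟨-F, G, m, ?_, hG, hGP, J.neg_mem hQ, ?_⟩
  · have h1 := hF.mul (MvPolynomial.isHomogeneous_C σ (-1 : RatFunc k))
    rw [add_zero] at h1
    have h2 : F * MvPolynomial.C (-1 : RatFunc k) = -F := by simp
    rwa [h2] at h1
  · rw [map_neg, neg_div]

theorem dprime_zero (hP : P.IsPrime) {J : Ideal (MvPolynomial σ (RatFunc k))} :
    dprime_Rep x P (· ∈ J) (0 : E) := by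
  refine ⟨0, 1, 0, MvPolynomial.isHomogeneous_zero _ _ _, MvPolynomial.isHomogeneous_one _ _, ?_,
    J.zero_mem, ?_⟩
  · exact fun h => hP.ne_top ((Ideal.eq_top_iff_one _).2 h)
  · simp

theorem dprime_const (hP : P.IsPrime) (c : RatFunc k) :
    dprime_Rep x P (· ∈ (⊤ : Ideal (MvPolynomial σ (RatFunc k)))) (algebraMap (RatFunc k) E c) := by
  refine ⟨MvPolynomial.C c, 1, 0, MvPolynomial.isHomogeneous_C _ _,
    MvPolynomial.isHomogeneous_one _ _, ?_, Submodule.mem_top, ?_⟩
  · exact fun h => hP.ne_top ((Ideal.eq_top_iff_one _).2 h)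
  · simp

/-- The subring of these quotients. -/
def dprime_S (hP : P.IsPrime)
    (hne : ∀ G : MvPolynomial σ (RatFunc k), ∀ n, G.IsHomogeneous n → G ∉ P →
      MvPolynomial.aeval x G ≠ 0) : Subring E where
  carrier := {z | dprime_Rep x P (· ∈ (⊤ : Ideal (MvPolynomial σ (RatFunc k)))) z}
  mul_mem' := fun hz hw => dprime_mono (fun F h => h.1) (dprime_mul hP hz hw)
  one_mem' := by
    have := dprime_const (x := x) hP (1 : RatFunc k)
    rwa [map_one] at this
  add_mem' := fun hz hw => dprime_add hP hne hz hw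
  zero_mem' := dprime_zero hP
  neg_mem' := fun hz => dprime_neg hz

/-- The ideal of the quotients with numerator in `P`. -/
def dprime_M (hP : P.IsPrime)
    (hne : ∀ G : MvPolynomial σ (RatFunc k), ∀ n, G.IsHomogeneous n → G ∉ P →
      MvPolynomial.aeval x G ≠ 0) : Ideal (dprime_S hP hne) where
  carrier := {z | dprime_Rep x P (· ∈ P) (z : E)}
  add_mem' := fun hz hw => dprime_add hP hne hz hw
  zero_mem' := dprime_zero hP
  smul_mem' := fun c _ hz => dprime_mono (fun _ h => h.2) (dprime_mul hP c.2 hz)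

end rep

/-- A form outside a homogeneous prime ideal containing the equations does not vanish. -/
theorem dprime_ne (hη : IsGen I η j₀) {P : Ideal (MvPolynomial σ (RatFunc k))}
    (hIP : Ideal.span I ≤ P) (G : MvPolynomial σ (RatFunc k)) (n : ℕ) (hG : G.IsHomogeneous n)
    (hGP : G ∉ P) : MvPolynomial.aeval (ηo η) G ≠ 0 := fun h =>
  hGP (hIP ((eta_mem hη G n hG).1 h))

/-- D4b. Existence of a valuation ring with given centre `P` (`X j ∉ P`). Proof: the elements
`F / G` (values at `ηo η`), `F`, `G` forms of the same degree, `G ∉ P`, form a subring of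
`AlgebraicClosure Fx`, and those with `F ∈ P` a proper ideal of it; apply
`Ideal.image_subset_nonunits_valuationSubring` and `nval_iff` with the coordinate `j`. -/
theorem d4_exists (hI : ∀ P ∈ I, ∃ d, P.IsHomogeneous d) (hη : IsGen I η j₀)
    (P : Ideal (MvPolynomial σ (RatFunc k))) (hP : P.IsPrime)
    (hhom : ∀ F ∈ P, ∀ n, MvPolynomial.homogeneousComponent n F ∈ P) (hIP : Ideal.span I ≤ P)
    (j : σ) (hj : MvPolynomial.X j ∉ P) :
    ∃ B : ValuationSubring (AlgebraicClosure Fx), OverK k B ∧ Cen B (ηo η) P := by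
  have hne := dprime_ne hη hIP
  set x := ηo η with hx
  have hM : dprime_M hP hne ≠ ⊤ := by
    intro h
    have h1 : (1 : dprime_S hP hne) ∈ dprime_M hP hne := by rw [h]; exact Submodule.mem_top
    obtain ⟨F, G, m, hF, hG, hGP, hFP, h2⟩ := h1
    have h3 := hne G m hG hGP
    have h4 : MvPolynomial.aeval x F = MvPolynomial.aeval x G := by
      have h5 : (1 : AlgebraicClosure Fx) = MvPolynomial.aeval x F / MvPolynomial.aeval x G := h2
      rw [eq_div_iff h3, one_mul] at h5
      exact h5.symm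
    have h6 : F - G ∈ Ideal.span I := by
      rw [← eta_mem hη (F - G) m (hF.sub hG), map_sub, ← hx, h4, sub_self]
    apply hGP
    have h7 := P.sub_mem hFP (hIP h6)
    rwa [sub_sub_cancel] at h7
  obtain ⟨B, hB1, hB2⟩ := Ideal.image_subset_nonunits_valuationSubring _ hM
  have hS : ∀ z, dprime_Rep x P (· ∈ (⊤ : Ideal (MvPolynomial σ (RatFunc k)))) z → z ∈ B :=
    fun z hz => hB1 hz
  have hSM : ∀ z, dprime_Rep x P (· ∈ P) z → B.valuation z < 1 := by
    intro z hz
    have h1 : z ∈ B.nonunits := hB2 ⟨⟨z, dprime_mono (fun F _ => Submodule.mem_top) hz⟩, hz, rfl⟩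
    exact h1
  have hB : OverK k B := fun c => hS _ (dprime_const hP c)
  refine ⟨B, hB, ?_⟩
  have hXj : (MvPolynomial.X j : MvPolynomial σ (RatFunc k)).IsHomogeneous 1 :=
    MvPolynomial.isHomogeneous_X _ _
  have hxj : x j ≠ 0 := by
    have := hne _ 1 hXj hj
    rwa [MvPolynomial.aeval_X] at this
  have hnorm : ∀ i, B.valuation ((x j)⁻¹ * x i) ≤ 1 := by
    intro i
    rw [B.valuation_le_one_iff]
    apply hS
    refine ⟨MvPolynomial.X i, MvPolynomial.X j, 1, MvPolynomial.isHomogeneous_X _ _, hXj, hj,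
      Submodule.mem_top, ?_⟩
    rw [MvPolynomial.aeval_X, MvPolynomial.aeval_X, div_eq_inv_mul]
  intro F n hF
  have hev : MvPolynomial.aeval (fun i => (x j)⁻¹ * x i) F =
      MvPolynomial.aeval x F /
        MvPolynomial.aeval x (MvPolynomial.X j ^ n : MvPolynomial σ (RatFunc k)) := by
    rw [map_pow, MvPolynomial.aeval_X, dprime_hom hF, inv_pow, div_eq_inv_mul]
  rw [nval_iff B hB x j hxj hnorm F n hF, hev]
  have hXn : (MvPolynomial.X j ^ n : MvPolynomial σ (RatFunc k)).IsHomogeneous n := by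
    have := hXj.pow n
    rwa [one_mul] at this
  have hXnP : (MvPolynomial.X j ^ n : MvPolynomial σ (RatFunc k)) ∉ P := fun h =>
    hj (hP.mem_of_pow_mem n h)
  generalize (MvPolynomial.X j ^ n : MvPolynomial σ (RatFunc k)) = T at hXn hXnP
  constructor
  · intro hFP
    exact (hSM _ ⟨F, T, n, hF, hXn, hXnP, hFP, rfl⟩).ne
  · intro h
    by_contra hFP
    apply h
    have h1 : B.valuation (MvPolynomial.aeval x F / MvPolynomial.aeval x T) ≤ 1 :=
      (B.valuation_le_one_iff _).2 (hS _ ⟨F, T, n, hF, hXn, hXnP, Submodule.mem_top, rfl⟩)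
    have h2 : B.valuation (MvPolynomial.aeval x T / MvPolynomial.aeval x F) ≤ 1 :=
      (B.valuation_le_one_iff _).2 (hS _ ⟨T, F, n, hXn, hF, hFP, Submodule.mem_top, rfl⟩)
    have h3 := hne F n hF hFP
    have h4 := hne T n hXn hXnP
    have h5 : B.valuation (MvPolynomial.aeval x F / MvPolynomial.aeval x T) *
        B.valuation (MvPolynomial.aeval x T / MvPolynomial.aeval x F) = 1 := by
      rw [← map_mul, div_mul_div_cancel₀ h4, div_self h3, map_one]
    refine le_antisymm h1 ?_
    rw [← h5]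
    calc _ ≤ B.valuation (MvPolynomial.aeval x F / MvPolynomial.aeval x T) * 1 :=
          mul_le_mul_right h2 _
      _ = _ := mul_one _

/-- The conclusion of D4c for one valuation ring. -/
theorem dprime_val (hη : IsGen I η j₀) (P : Ideal (MvPolynomial σ (RatFunc k))) (hP : P.IsPrime)
    (hIP : Ideal.span I ≤ P)
    {B : ValuationSubring (AlgebraicClosure Fx)} (hB : OverK k B) (hc : Cen B (ηo η) P)
    (F G : MvPolynomial σ (RatFunc k)) (m : ℕ) (hF : F.IsHomogeneous m) (hG : G.IsHomogeneous m)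
    (hFP : F ∉ P) (hGP : G ∉ P) :
    B.valuation (MvPolynomial.aeval (ηo η) F / MvPolynomial.aeval (ηo η) G) = 1 := by
  refine nval_div B hB (ηo η) (eta_ne hη) F G m hF hG ?_ ?_
  · by_contra h
    exact hFP ((hc F m hF).2 h)
  · by_contra h
    exact hGP ((hc G m hG).2 h)

/-- D4c. The orders along `P` and the valuation. Proof: `π` from `d1_gen`, `π' = X j ^ d` with
`X j ∉ P`. -/
theorem d4_ord (hI : ∀ P ∈ I, ∃ d, P.IsHomogeneous d) (hpr : (Ideal.span I).IsPrime)
    (hreg : RegOne (Ideal.span I)) (hη : IsGen I η j₀)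
    (P : Ideal (MvPolynomial σ (RatFunc k))) (hP : IsPD (Ideal.span I) P) :
    ∃ (π π' : MvPolynomial σ (RatFunc k)) (d : ℕ), π.IsHomogeneous d ∧ π'.IsHomogeneous d ∧
      π ∉ Ideal.span I ∧ π' ∉ Ideal.span I ∧
      ∀ B : ValuationSubring (AlgebraicClosure Fx), OverK k B → Cen B (ηo η) P →
        B.valuation (MvPolynomial.aeval (ηo η) π / MvPolynomial.aeval (ηo η) π') < 1 ∧
        ∀ (F G : MvPolynomial σ (RatFunc k)) (m : ℕ), F.IsHomogeneous m → G.IsHomogeneous m →
          F ∉ Ideal.span I → G ∉ Ideal.span I →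
          B.valuation (MvPolynomial.aeval (ηo η) F / MvPolynomial.aeval (ηo η) G) =
            B.valuation (MvPolynomial.aeval (ηo η) π / MvPolynomial.aeval (ηo η) π') ^
              ((ordP (Ideal.span I) P F : ℤ) - (ordP (Ideal.span I) P G : ℤ)) := by
  obtain ⟨π, d, hπh, hπP, hπJ, hπ⟩ := d1_gen hpr (d1_span hI) hreg P hP
  obtain ⟨j, hj⟩ := hP.proj
  have hIP : Ideal.span I ≤ P := hP.lt.le
  have hpP := hP.prime
  set π' : MvPolynomial σ (RatFunc k) := MvPolynomial.X j ^ d with hπ'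
  have hπ'h : π'.IsHomogeneous d := by
    have := (MvPolynomial.isHomogeneous_X (RatFunc k) j).pow d
    rwa [one_mul] at this
  have hπ'P : π' ∉ P := fun h => hj (hpP.mem_of_pow_mem d h)
  refine ⟨π, π', d, hπh, hπ'h, hπJ, fun h => hπ'P (hIP h), fun B hB hc => ⟨?_, ?_⟩⟩
  · refine nval_div_lt B hB (ηo η) (eta_ne hη) π π' d hπh hπ'h ((hc π d hπh).1 hπP) ?_
    by_contra h
    exact hπ'P ((hc π' d hπ'h).2 h)
  · intro F G m hF hG hFJ hGJ
    obtain ⟨G1, H1, a1, b1, hG1, hH1, hd1, hG1P, hH1P, he1⟩ := hπ F m hF hFJ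
    obtain ⟨G2, H2, a2, b2, hG2, hH2, hd2, hG2P, hH2P, he2⟩ := hπ G m hG hGJ
    set e1 := ordP (Ideal.span I) P F
    set e2 := ordP (Ideal.span I) P G
    have hx : ∀ A ∈ Ideal.span I, MvPolynomial.aeval (ηo η) A = 0 := by
      intro A hA
      have h1 : Ideal.span I ≤ RingHom.ker
          (MvPolynomial.aeval (ηo η) : MvPolynomial σ (RatFunc k) →ₐ[RatFunc k] _).toRingHom := by
        rw [Ideal.span_le]
        intro A hA
        obtain ⟨d, hd⟩ := hI A hA
        exact (eta_mem hη A d hd).2 (Ideal.subset_span hA)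
      exact h1 hA
    have q1 := hx _ he1
    have q2 := hx _ he2
    simp only [map_sub, map_mul, map_pow, sub_eq_zero] at q1 q2
    have nG1 := dprime_ne hη hIP G1 a1 hG1 hG1P
    have nG2 := dprime_ne hη hIP G2 a2 hG2 hG2P
    have nH1 := dprime_ne hη hIP H1 b1 hH1 hH1P
    have nH2 := dprime_ne hη hIP H2 b2 hH2 hH2P
    have nπ : MvPolynomial.aeval (ηo η) π ≠ 0 := fun h => hπJ ((eta_mem hη π d hπh).1 h)
    have nπ' := dprime_ne hη hIP π' d hπ'h hπ'P
    have nF : MvPolynomial.aeval (ηo η) F ≠ 0 := fun h => hFJ ((eta_mem hη F m hF).1 h)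
    have nG : MvPolynomial.aeval (ηo η) G ≠ 0 := fun h => hGJ ((eta_mem hη G m hG).1 h)
    -- the unit
    have hu := dprime_val hη P hpP hIP hB hc (H1 * G2 * π' ^ e1) (G1 * H2 * π' ^ e2)
      (b1 + a2 + d * e1) ((hH1.mul hG2).mul (hπ'h.pow e1))
      (by
        have h1 := (hG1.mul hH2).mul (hπ'h.pow e2)
        have h2 : a1 + b2 + d * e2 = b1 + a2 + d * e1 := by omega
        rwa [h2] at h1)
      (fun h => by
        rcases hpP.mem_or_mem h with h | h
        · rcases hpP.mem_or_mem h with h | h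
          · exact hH1P h
          · exact hG2P h
        · exact hπ'P (hpP.mem_of_pow_mem _ h))
      (fun h => by
        rcases hpP.mem_or_mem h with h | h
        · rcases hpP.mem_or_mem h with h | h
          · exact hG1P h
          · exact hH2P h
        · exact hπ'P (hpP.mem_of_pow_mem _ h))
    have key : MvPolynomial.aeval (ηo η) F / MvPolynomial.aeval (ηo η) G =
        (MvPolynomial.aeval (ηo η) (H1 * G2 * π' ^ e1) /
          MvPolynomial.aeval (ηo η) (G1 * H2 * π' ^ e2)) *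
        (MvPolynomial.aeval (ηo η) π / MvPolynomial.aeval (ηo η) π') ^ ((e1 : ℤ) - (e2 : ℤ)) := by
      simp only [map_mul, map_pow]
      rw [div_zpow, zpow_sub₀ nπ, zpow_sub₀ nπ']
      simp only [zpow_natCast]
      have hF' : MvPolynomial.aeval (ηo η) F =
          MvPolynomial.aeval (ηo η) H1 * MvPolynomial.aeval (ηo η) π ^ e1 /
            MvPolynomial.aeval (ηo η) G1 := by
        rw [eq_div_iff nG1, mul_comm, q1]
      have hG' : MvPolynomial.aeval (ηo η) G =
          MvPolynomial.aeval (ηo η) H2 * MvPolynomial.aeval (ηo η) π ^ e2 /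
            MvPolynomial.aeval (ηo η) G2 := by
        rw [eq_div_iff nG2, mul_comm, q2]
      rw [hF', hG']
      field_simp
    rw [key, map_mul, hu, one_mul, map_zpow₀]

/-- D4d. Every element of the function field is a quotient of forms of the same degree
(`IntermediateField.adjoin_induction` with `hη.top`; `η j = X j / X j₀`). -/
theorem d4_quot (hI : ∀ P ∈ I, ∃ d, P.IsHomogeneous d) (hpr : (Ideal.span I).IsPrime)
    (hη : IsGen I η j₀) (f : Fx) :
    ∃ (F G : MvPolynomial σ (RatFunc k)) (m : ℕ), F.IsHomogeneous m ∧ G.IsHomogeneous m ∧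
      G ∉ Ideal.span I ∧
      algebraMap Fx (AlgebraicClosure Fx) f =
        MvPolynomial.aeval (ηo η) F / MvPolynomial.aeval (ηo η) G := by
  have hne := dprime_ne hη (P := Ideal.span I) le_rfl
  have hf : f ∈ IntermediateField.adjoin (RatFunc k) (Set.range η) := by
    rw [hη.top]
    exact IntermediateField.mem_top
  have key : dprime_Rep (ηo η) (Ideal.span I) (· ∈ (⊤ : Ideal (MvPolynomial σ (RatFunc k))))
      (algebraMap Fx (AlgebraicClosure Fx) f) := by
    induction hf using IntermediateField.adjoin_induction with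
    | mem y hy =>
      obtain ⟨i, rfl⟩ := hy
      have h1 : MvPolynomial.aeval (ηo η) (MvPolynomial.X j₀ : MvPolynomial σ (RatFunc k)) = 1 := by
        rw [MvPolynomial.aeval_X]
        simp only [ηo, hη.one, map_one]
      refine ⟨MvPolynomial.X i, MvPolynomial.X j₀, 1, MvPolynomial.isHomogeneous_X _ _,
        MvPolynomial.isHomogeneous_X _ _, ?_, Submodule.mem_top, ?_⟩
      · intro h
        rw [← eta_mem hη _ 1 (MvPolynomial.isHomogeneous_X _ _), h1] at h
        exact one_ne_zero h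
      · rw [h1, div_one, MvPolynomial.aeval_X]
        rfl
    | algebraMap c =>
      rw [← IsScalarTower.algebraMap_apply]
      exact dprime_const hpr c
    | add y z hy hz h1 h2 =>
      rw [map_add]
      exact dprime_add hpr hne h1 h2
    | inv y hy h1 =>
      obtain ⟨F, G, m, hF, hG, hGP, -, h2⟩ := h1
      rw [map_inv₀, h2, inv_div]
      by_cases hFJ : F ∈ Ideal.span I
      · rw [(eta_mem hη F m hF).2 hFJ, div_zero]
        exact dprime_zero hpr
      · exact ⟨G, F, m, hG, hF, hFJ, Submodule.mem_top, rfl⟩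
    | mul y z hy hz h1 h2 =>
      rw [map_mul]
      exact dprime_mono (fun F h => h.1) (dprime_mul hpr h1 h2)
  obtain ⟨F, G, m, hF, hG, hGP, -, h⟩ := key
  exact ⟨F, G, m, hF, hG, hGP, h⟩

/-- D4e. Two valuation rings with centre `P` are conjugate: by `d4_quot` and `d4_ord` they have the
same intersection with `Fx`; apply `d2_conj`. -/
theorem d4_conj (hI : ∀ P ∈ I, ∃ d, P.IsHomogeneous d) (hpr : (Ideal.span I).IsPrime)
    (hreg : RegOne (Ideal.span I)) (hη : IsGen I η j₀)
    (P : Ideal (MvPolynomial σ (RatFunc k))) (hP : IsPD (Ideal.span I) P)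
    (B B' : ValuationSubring (AlgebraicClosure Fx)) (hB : OverK k B) (hB' : OverK k B')
    (hc : Cen B (ηo η) P) (hc' : Cen B' (ηo η) P) :
    ∃ τ : AlgebraicClosure Fx ≃ₐ[Fx] AlgebraicClosure Fx, ∀ x, x ∈ B ↔ τ x ∈ B' := by
  obtain ⟨π, π', d, hπh, hπ'h, hπJ, hπ'J, hord⟩ := d4_ord hI hpr hreg hη P hP
  have nπ : MvPolynomial.aeval (ηo η) π / MvPolynomial.aeval (ηo η) π' ≠ 0 := by
    refine div_ne_zero ?_ ?_
    · exact fun h => hπJ ((eta_mem hη π d hπh).1 h)
    · exact fun h => hπ'J ((eta_mem hη π' d hπ'h).1 h)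
  have key : ∀ (A : ValuationSubring (AlgebraicClosure Fx)), OverK k A → Cen A (ηo η) P →
      ∀ (F G : MvPolynomial σ (RatFunc k)) (m : ℕ), F.IsHomogeneous m → G.IsHomogeneous m →
      F ∉ Ideal.span I → G ∉ Ideal.span I →
      (MvPolynomial.aeval (ηo η) F / MvPolynomial.aeval (ηo η) G ∈ A ↔
        (0 : ℤ) ≤ (ordP (Ideal.span I) P F : ℤ) - (ordP (Ideal.span I) P G : ℤ)) := by
    intro A hA hcA F G m hF hG hFJ hGJ
    obtain ⟨h1, h2⟩ := hord A hA hcA
    rw [← A.valuation_le_one_iff, h2 F G m hF hG hFJ hGJ]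
    have h0 : 0 < A.valuation (MvPolynomial.aeval (ηo η) π / MvPolynomial.aeval (ηo η) π') := by
      rw [zero_lt_iff]
      simpa using nπ
    exact zpow_le_one_iff_right_of_lt_one₀ h0 h1
  apply d2_conj
  intro f
  obtain ⟨F, G, m, hF, hG, hGJ, h⟩ := d4_quot hI hpr hη f
  rw [h]
  by_cases hFJ : F ∈ Ideal.span I
  · rw [(eta_mem hη F m hF).2 hFJ, zero_div]
    exact ⟨fun _ => zero_mem _, fun _ => zero_mem _⟩
  · rw [key B hB hc F G m hF hG hFJ hGJ, key B' hB' hc' F G m hF hG hFJ hGJ]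

/-- D4f. A valuation ring over `K` at whose centre no form outside `I` vanishes is everything: it
contains `Fx` by `d4_quot` and `nval_div`, and is integrally closed. -/
theorem d4_top (hI : ∀ P ∈ I, ∃ d, P.IsHomogeneous d) (hpr : (Ideal.span I).IsPrime)
    (hη : IsGen I η j₀)
    (B : ValuationSubring (AlgebraicClosure Fx)) (hB : OverK k B)
    (h : ∀ (F : MvPolynomial σ (RatFunc k)) (n : ℕ), F.IsHomogeneous n → F ∉ Ideal.span I →
      NVal B (ηo η) F) : B = ⊤ := by
  have hFx : ∀ f : Fx, algebraMap Fx (AlgebraicClosure Fx) f ∈ B := by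
    intro f
    obtain ⟨F, G, m, hF, hG, hGJ, h1⟩ := d4_quot hI hpr hη f
    rw [h1]
    by_cases hFJ : F ∈ Ideal.span I
    · rw [(eta_mem hη F m hF).2 hFJ, zero_div]
      exact zero_mem _
    · rw [← B.valuation_le_one_iff]
      exact (nval_div B hB (ηo η) (eta_ne hη) F G m hF hG (h F m hF hFJ) (h G m hG hGJ)).le
  rw [eq_top_iff]
  intro x _
  have hx : IsIntegral Fx x := Algebra.IsIntegral.isIntegral x
  have hxB : IsIntegral B x := by
    obtain ⟨p, hp, hpx⟩ := hx
    have hlift : p.map (algebraMap Fx (AlgebraicClosure Fx)) ∈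
        Polynomial.lifts (algebraMap B (AlgebraicClosure Fx)) := by
      rw [Polynomial.lifts_iff_coeff_lifts]
      intro n
      rw [Polynomial.coeff_map]
      exact ⟨⟨_, hFx (p.coeff n)⟩, rfl⟩
    obtain ⟨q, hq, -, hqm⟩ := Polynomial.lifts_and_natDegree_eq_and_monic hlift (hp.map _)
    refine ⟨q, hqm, ?_⟩
    rw [← Polynomial.eval_map, hq, Polynomial.eval_map]
    exact hpx
  obtain ⟨y, hy⟩ := IsIntegrallyClosed.isIntegral_iff.1 hxB
  rw [← hy]
  exact y.2

end Pool.Agent.TT
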