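import Pool.Agent.TT.Defs

set_option autoImplicit false
set_option linter.unusedSectionVars false

/-! Project TT, block D: extension of homomorphisms to places, surjectivity of places. -/

namespace Pool.Agent.TT

open Polynomial

section graph

variable {F L : Type} [Field F] [Field L]

/-- A maximal functional subring of `F × L` containing a given one. -/
theorem exists_maximal_graph (G0 : Subring (F × L)) (h0 : ∀ y, ((0 : F), y) ∈ G0 → y = 0) :
    ∃ G : Subring (F × L), G0 ≤ G ∧ (∀ y, ((0 : F), y) ∈ G → y = 0) ∧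
      ∀ G' : Subring (F × L), G ≤ G' → (∀ y, ((0 : F), y) ∈ G' → y = 0) → G' ≤ G := by
  obtain ⟨G, hG0, hG, hmax⟩ := zorn_le_nonempty₀
    {G : Subring (F × L) | ∀ y, ((0 : F), y) ∈ G → y = 0} (by
      intro c hc hchain G1 hG1
      refine ⟨sSup c, ?_, fun z hz => le_sSup hz⟩
      intro y hy
      obtain ⟨G, hG, hy'⟩ := (Subring.mem_sSup_of_directedOn ⟨G1, hG1⟩ hchain.directedOn).1 hy
      exact hc hG y hy') G0 h0
  exact ⟨G, hG0, hG, fun G' hle hG' => hmax hG' hle⟩

theorem graph_unique {G : Subring (F × L)} (hG : ∀ y, ((0 : F), y) ∈ G → y = 0) {x : F}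
    {y y' : L} (h : (x, y) ∈ G) (h' : (x, y') ∈ G) : y = y' := by
  have h1 := G.sub_mem h h'
  rw [Prod.mk_sub_mk, sub_self] at h1
  exact sub_eq_zero.1 (hG _ h1)

/-- In a maximal graph, elements with nonzero value are invertible. -/
theorem graph_inv {G : Subring (F × L)} (hG : ∀ y, ((0 : F), y) ∈ G → y = 0)
    (hmax : ∀ G' : Subring (F × L), G ≤ G' → (∀ y, ((0 : F), y) ∈ G' → y = 0) → G' ≤ G)
    {x : F} {y : L} (h : (x, y) ∈ G) (hy : y ≠ 0) : x ≠ 0 ∧ (x⁻¹, y⁻¹) ∈ G := by
  have hx : x ≠ 0 := by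
    rintro rfl
    exact hy (hG y h)
  refine ⟨hx, ?_⟩
  -- the subring of all `(a / x ^ n, b / y ^ n)`
  let G' : Subring (F × L) :=
    { carrier := {z | ∃ n : ℕ, (x ^ n * z.1, y ^ n * z.2) ∈ G}
      mul_mem' := by
        rintro z w ⟨n, hn⟩ ⟨m, hm⟩
        refine ⟨n + m, ?_⟩
        have h1 := G.mul_mem hn hm
        rw [Prod.mk_mul_mk] at h1
        convert h1 using 2
        · rw [Prod.fst_mul]; ring
        · rw [Prod.snd_mul]; ring
      one_mem' := by
        refine ⟨0, ?_⟩
        have h1 : ((x ^ 0 * (1 : F × L).1, y ^ 0 * (1 : F × L).2) : F × L) = 1 := by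
          rw [pow_zero, pow_zero, one_mul, one_mul]
        rw [h1]
        exact G.one_mem
      add_mem' := by
        rintro z w ⟨n, hn⟩ ⟨m, hm⟩
        refine ⟨n + m, ?_⟩
        have h2 : ∀ j : ℕ, (x ^ j, y ^ j) ∈ G := fun j => by
          have := G.pow_mem h j
          rwa [Prod.pow_mk] at this
        have h1 := G.add_mem (G.mul_mem (h2 m) hn) (G.mul_mem (h2 n) hm)
        rw [Prod.mk_mul_mk, Prod.mk_mul_mk, Prod.mk_add_mk] at h1
        convert h1 using 2
        · rw [Prod.fst_add]; ring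
        · rw [Prod.snd_add]; ring
      zero_mem' := by
        refine ⟨0, ?_⟩
        have h1 : ((x ^ 0 * (0 : F × L).1, y ^ 0 * (0 : F × L).2) : F × L) = 0 := by
          rw [pow_zero, pow_zero, one_mul, one_mul]
        rw [h1]
        exact G.zero_mem
      neg_mem' := by
        rintro z ⟨n, hn⟩
        refine ⟨n, ?_⟩
        have h1 := G.neg_mem hn
        rw [Prod.neg_mk] at h1
        convert h1 using 2
        · rw [Prod.fst_neg]; ring
        · rw [Prod.snd_neg]; ring }
  have h1 : G ≤ G' := fun z hz => ⟨0, by simpa using hz⟩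
  have h2 : ∀ c, ((0 : F), c) ∈ G' → c = 0 := by
    rintro c ⟨n, hn⟩
    simp only [mul_zero] at hn
    have h3 := hG _ hn
    exact (mul_eq_zero.1 h3).resolve_left (pow_ne_zero _ hy)
  apply hmax G' h1 h2
  refine ⟨1, ?_⟩
  simp only [pow_one]
  rw [mul_inv_cancel₀ hx, mul_inv_cancel₀ hy]
  exact G.one_mem

/-- Adjoining a pair to a maximal graph. -/
theorem graph_adjoin {G : Subring (F × L)}
    (hmax : ∀ G' : Subring (F × L), G ≤ G' → (∀ y, ((0 : F), y) ∈ G' → y = 0) → G' ≤ G)
    {x : F} {y : L} (h : (x, y) ∉ G) :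
    ∃ P : (G : Subring (F × L))[X], (P.map ((RingHom.fst F L).comp G.subtype)).eval x = 0 ∧
      (P.map ((RingHom.snd F L).comp G.subtype)).eval y ≠ 0 := by
  by_contra hcon
  push Not at hcon
  apply h
  let Φ : (G : Subring (F × L))[X] →+* F × L := eval₂RingHom G.subtype (x, y)
  have hΦ : ∀ P : (G : Subring (F × L))[X], Φ P =
      ((P.map ((RingHom.fst F L).comp G.subtype)).eval x,
        (P.map ((RingHom.snd F L).comp G.subtype)).eval y) := by
    intro P
    have h1 : (RingHom.fst F L).comp Φ = (evalRingHom x).comp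
        (mapRingHom ((RingHom.fst F L).comp G.subtype)) := by
      apply Polynomial.ringHom_ext
      · intro a
        simp [Φ]
      · simp [Φ]
    have h2 : (RingHom.snd F L).comp Φ = (evalRingHom y).comp
        (mapRingHom ((RingHom.snd F L).comp G.subtype)) := by
      apply Polynomial.ringHom_ext
      · intro a
        simp [Φ]
      · simp [Φ]
    exact Prod.ext (RingHom.congr_fun h1 P) (RingHom.congr_fun h2 P)
  have h1 : G ≤ Φ.range := fun z hz => ⟨C ⟨z, hz⟩, by simp [Φ]⟩
  have h2 : ∀ c, ((0 : F), c) ∈ Φ.range → c = 0 := by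
    rintro c ⟨P, hP⟩
    rw [hΦ P] at hP
    have h3 := congrArg Prod.fst hP
    have h4 := congrArg Prod.snd hP
    simp only at h3 h4
    rw [← h4]
    exact hcon P h3
  exact hmax _ h1 h2 ⟨X, by simp [Φ]⟩

end graph

/-- Extension of a homomorphism to an algebraically closed field to a place. -/
theorem pl_extend {k F L : Type} [Field k] [Field F] [Field L] [IsAlgClosed L] [Algebra k F]
    [Algebra k L] (D : Subalgebra k F) (ψ : D →ₐ[k] L) :
    ∃ π : Pl k F L, ∀ x : D, π.Sp (x : F) (ψ x) := by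
  let G0 : Subring (F × L) := (RingHom.prod (D.val : D →+* F) (ψ : D →+* L)).range
  have hG0 : ∀ x : D, ((x : F), ψ x) ∈ G0 := fun x => ⟨x, rfl⟩
  have h0 : ∀ y, ((0 : F), y) ∈ G0 → y = 0 := by
    rintro y ⟨x, hx⟩
    have h1 : (x : F) = 0 := congrArg Prod.fst hx
    have h2 : ψ x = y := congrArg Prod.snd hx
    have h3 : x = 0 := Subtype.ext h1
    rw [← h2, h3, map_zero]
  obtain ⟨G, hle, hG, hmax⟩ := exists_maximal_graph G0 h0
  -- the projection
  let R : Subring F := G.map (RingHom.fst F L)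
  have hR : ∀ x, x ∈ R ↔ ∃ y, (x, y) ∈ G := by
    intro x
    constructor
    · rintro ⟨⟨a, b⟩, hab, rfl⟩
      exact ⟨b, hab⟩
    · rintro ⟨y, hy⟩
      exact ⟨(x, y), hy, rfl⟩
  let m : Ideal R :=
    { carrier := {a | ((a : F), (0 : L)) ∈ G}
      add_mem' := by
        intro a b ha hb
        have := G.add_mem ha hb
        rw [Prod.mk_add_mk, add_zero] at this
        exact this
      zero_mem' := G.zero_mem
      smul_mem' := by
        intro c a ha
        obtain ⟨y, hy⟩ := (hR c).1 c.2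
        have := G.mul_mem hy ha
        rw [Prod.mk_mul_mk, mul_zero] at this
        exact this }
  have hm : m ≠ ⊤ := by
    intro h
    have h1 : (1 : R) ∈ m := by rw [h]; trivial
    have h2 : ((1 : F), (0 : L)) ∈ G := h1
    exact one_ne_zero (graph_unique hG G.one_mem h2)
  obtain ⟨V, hRV, hmV⟩ := Ideal.image_subset_nonunits_valuationSubring m hm
  have hmV' : ∀ a : F, (a, (0 : L)) ∈ G → V.valuation a < 1 := by
    intro a ha
    have h1 : a ∈ R := (hR a).2 ⟨0, ha⟩
    have h2 : a ∈ V.nonunits := hmV ⟨⟨a, h1⟩, ha, rfl⟩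
    exact (ValuationSubring.mem_nonunits_iff V).1 h2
  -- the residue field
  let κ : Subfield L :=
    { (G.map (RingHom.snd F L)) with
      inv_mem' := by
        rintro y ⟨⟨a, b⟩, hab, rfl⟩
        by_cases hb : b = 0
        · subst hb
          change (0 : L)⁻¹ ∈ _
          rw [inv_zero]
          exact ⟨0, G.zero_mem, rfl⟩
        · exact ⟨(a⁻¹, b⁻¹), (graph_inv hG hmax hab hb).2, rfl⟩ }
  have hκ : ∀ z : G, (z : F × L).2 ∈ κ := fun z => ⟨z, z.2, rfl⟩
  have hVR : ∀ x, x ∈ V → ∃ y, (x, y) ∈ G := by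
    intro x hx
    by_contra hcon
    push Not at hcon
    let q : G →+* κ := ((RingHom.snd F L).comp G.subtype).codRestrict κ.toSubring hκ
    have hq : Function.Surjective q := by
      rintro ⟨y, ⟨a, b⟩, hab, rfl⟩
      exact ⟨⟨(a, b), hab⟩, rfl⟩
    have hqL : (κ.subtype : κ →+* L).comp q = (RingHom.snd F L).comp G.subtype := rfl
    let ev : (G : Subring (F × L))[X] →+* F := (evalRingHom x).comp
      (mapRingHom ((RingHom.fst F L).comp G.subtype))
    let J : Ideal κ[X] := (RingHom.ker ev).map (mapRingHom q)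
    have hsurj : Function.Surjective (mapRingHom q) := Polynomial.map_surjective q hq
    have hJ : J = ⊤ := by
      by_contra hJ
      obtain ⟨d, hd⟩ := (IsPrincipalIdealRing.principal J).principal
      have hd' : J = Ideal.span {d} := hd
      have hroot : ∃ y : L, (d.map κ.subtype).eval y = 0 := by
        by_cases hd0 : d = 0
        · exact ⟨0, by rw [hd0]; simp⟩
        · have hdu : ¬ IsUnit d := fun hu => hJ (by rw [hd']; exact Ideal.span_singleton_eq_top.2 hu)
          have h1 : (d.map κ.subtype).degree ≠ 0 := by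
            rw [degree_map]
            intro h2
            exact hdu (Polynomial.isUnit_iff_degree_eq_zero.2 h2)
          exact IsAlgClosed.exists_root _ h1
      obtain ⟨y, hy⟩ := hroot
      obtain ⟨P, hP1, hP2⟩ := graph_adjoin hmax (hcon y)
      have h3 : mapRingHom q P ∈ J := Ideal.mem_map_of_mem _ hP1
      rw [hd', Ideal.mem_span_singleton] at h3
      obtain ⟨e, he⟩ := h3
      apply hP2
      have h4 : P.map ((RingHom.snd F L).comp G.subtype) = (d * e).map κ.subtype := by
        rw [← he, ← hqL, coe_mapRingHom, Polynomial.map_map]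
      rw [h4, Polynomial.map_mul, eval_mul, hy, zero_mul]
    have h1 : (1 : κ[X]) ∈ J := by rw [hJ]; trivial
    obtain ⟨P, hP, hP1⟩ := (Ideal.mem_map_iff_of_surjective _ hsurj).1 h1
    -- the coefficients
    have hc : ∀ i, ((P.coeff i : F × L)).2 = (1 : L[X]).coeff i := by
      intro i
      have h2 : (mapRingHom q P).coeff i = (1 : κ[X]).coeff i := by rw [hP1]
      rw [coe_mapRingHom, coeff_map] at h2
      have h3 : ((P.coeff i : F × L)).2 = (((1 : κ[X]).coeff i : κ) : L) := congrArg Subtype.val h2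
      rw [h3, coeff_one, coeff_one]
      split_ifs <;> simp
    have h5 : ev P = 0 := hP
    have h6 : ev P = ∑ i ∈ Finset.range (P.natDegree + 1), ((P.coeff i : F × L)).1 * x ^ i := by
      change (P.map ((RingHom.fst F L).comp G.subtype)).eval x = _
      rw [eval_map, eval₂_eq_sum_range]
      rfl
    rw [h6, Finset.sum_range_succ'] at h5
    have hx1 : V.valuation x ≤ 1 := (V.valuation_le_one_iff x).2 hx
    have h7 : V.valuation (∑ i ∈ Finset.range P.natDegree,
        ((P.coeff (i + 1) : F × L)).1 * x ^ (i + 1)) < 1 := by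
      refine Valuation.map_sum_lt _ one_ne_zero ?_
      intro i _
      rw [map_mul, map_pow]
      refine mul_lt_one_of_lt_of_le (hmV' _ ?_) (pow_le_one' hx1 _)
      have h8 := hc (i + 1)
      rw [coeff_one, if_neg (by omega)] at h8
      have h9 := (P.coeff (i + 1)).2
      rw [← h8]
      exact h9
    have h10 : V.valuation (((P.coeff 0 : F × L)).1 - 1) < 1 := by
      apply hmV'
      have h8 := hc 0
      rw [coeff_one, if_pos rfl] at h8
      have h9 := G.sub_mem (P.coeff 0).2 G.one_mem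
      have h11 : ((P.coeff 0 : F × L)) - 1 = (((P.coeff 0 : F × L)).1 - 1, (0 : L)) := by
        refine Prod.ext rfl ?_
        change ((P.coeff 0 : F × L)).2 - 1 = 0
        rw [h8, sub_self]
      rw [h11] at h9
      exact h9
    rw [pow_zero, mul_one] at h5
    have h12 : (1 : F) = -((∑ i ∈ Finset.range P.natDegree,
        ((P.coeff (i + 1) : F × L)).1 * x ^ (i + 1)) + (((P.coeff 0 : F × L)).1 - 1)) := by
      linear_combination h5
    have h13 : V.valuation (1 : F) < 1 := by
      rw [h12, Valuation.map_neg]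
      exact Valuation.map_add_lt _ h7 h10
    rw [map_one] at h13
    exact lt_irrefl _ h13
  -- the place
  have hval : ∀ x, x ∈ V ↔ ∃ y, (x, y) ∈ G :=
    fun x => ⟨hVR x, fun h => hRV ((hR x).2 h)⟩
  choose r hr using fun x : V => hVR x x.2
  have hruniq : ∀ (x : V) (y : L), ((x : F), y) ∈ G → r x = y :=
    fun x y h => graph_unique hG (hr x) h
  let ρ : V →+* L :=
    { toFun := r
      map_one' := hruniq 1 1 G.one_mem
      map_mul' := fun a b => hruniq (a * b) _ (by
        have := G.mul_mem (hr a) (hr b)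
        rwa [Prod.mk_mul_mk] at this)
      map_zero' := hruniq 0 0 G.zero_mem
      map_add' := fun a b => hruniq (a + b) _ (by
        have := G.add_mem (hr a) (hr b)
        rwa [Prod.mk_add_mk] at this) }
  have hk : ∀ a : k, (algebraMap k F a, algebraMap k L a) ∈ G := by
    intro a
    have h1 := hle (hG0 (algebraMap k D a))
    rw [AlgHom.commutes] at h1
    exact h1
  refine ⟨⟨V, ρ, ?_, ?_⟩, ?_⟩
  · intro x
    constructor
    · intro h
      apply hmV'
      have h1 := hr x
      have h2 : r x = 0 := h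
      rw [h2] at h1
      exact h1
    · intro h
      by_contra h1
      have h2 := graph_inv hG hmax (hr x) h1
      have h3 : (x : F)⁻¹ ∈ V := (hval _).2 ⟨_, h2.2⟩
      have h4 := (V.valuation_le_one_iff _).2 h3
      rw [map_inv₀] at h4
      have h5 : V.valuation (x : F) ≠ 0 := (V.valuation.ne_zero_iff).2 h2.1
      have h6 : 1 ≤ V.valuation (x : F) := by
        rwa [inv_le_one₀ (zero_lt_iff.2 h5)] at h4
      exact absurd h (not_lt.2 h6)
  · intro a
    exact ⟨(hval _).2 ⟨_, hk a⟩, hruniq _ _ (hk a)⟩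
  · intro x
    exact ⟨(hval _).2 ⟨_, hle (hG0 x)⟩, hruniq _ _ (hle (hG0 x))⟩

/-- A place of an algebraically closed field is surjective as soon as the target is algebraic over
its image. -/
theorem pl_surj {k F L : Type} [Field k] [Field F] [Field L] [IsAlgClosed F] [Algebra k F]
    [Algebra k L] (π : Pl k F L)
    (h : ∀ y : L, ∃ p : Polynomial L, p ≠ 0 ∧ (∀ i, ∃ x, π.Sp x (p.coeff i)) ∧ p.eval y = 0) :
    π.Surj := by
  intro y
  obtain ⟨p, hp0, hp, hy⟩ := h y
  -- make it monic
  have hl0 : p.leadingCoeff ≠ 0 := leadingCoeff_ne_zero.2 hp0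
  obtain ⟨c, hcA, hc⟩ := hp p.natDegree
  have hcv : ¬ π.A.valuation c < 1 := by
    intro hlt
    have h1 := (π.loc ⟨c, hcA⟩).2 hlt
    rw [hc] at h1
    exact hl0 h1
  have hc0 : c ≠ 0 := by
    rintro rfl
    exact hcv (by rw [map_zero]; exact zero_lt_one)
  have hciA : c⁻¹ ∈ π.A := by
    rw [← π.A.valuation_le_one_iff, map_inv₀]
    exact inv_le_one_of_one_le₀ (not_lt.1 hcv)
  have hci : π.r ⟨c⁻¹, hciA⟩ = p.leadingCoeff⁻¹ := by
    have h1 : π.r ⟨c, hcA⟩ * π.r ⟨c⁻¹, hciA⟩ = 1 := by
      rw [← map_mul]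
      have h1 : (⟨c, hcA⟩ * ⟨c⁻¹, hciA⟩ : π.A) = 1 := Subtype.ext (mul_inv_cancel₀ hc0)
      rw [h1, map_one]
    rw [hc] at h1
    exact (eq_inv_of_mul_eq_one_right h1)
  let p1 : L[X] := C p.leadingCoeff⁻¹ * p
  have hp1 : p1.Monic := monic_C_mul_of_mul_leadingCoeff_eq_one (inv_mul_cancel₀ hl0)
  have hp1c : p1 ∈ Polynomial.lifts π.r := by
    rw [Polynomial.lifts_iff_coeff_lifts]
    intro i
    obtain ⟨x, hxA, hx⟩ := hp i
    refine ⟨⟨c⁻¹, hciA⟩ * ⟨x, hxA⟩, ?_⟩
    rw [map_mul, hci, hx, coeff_C_mul]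
  obtain ⟨P, hP, -, hPm⟩ := Polynomial.lifts_and_natDegree_eq_and_monic hp1c hp1
  -- the roots of `P` in `F` are in `A`
  have hsp := IsAlgClosed.splits (P.map (algebraMap π.A F))
  have hprod := hsp.eq_prod_roots
  have hmon : (P.map (algebraMap π.A F)).Monic := hPm.map _
  rw [hmon.leadingCoeff, C_1, one_mul] at hprod
  have hroot : ∀ a ∈ (P.map (algebraMap π.A F)).roots, a ∈ π.A := by
    intro a ha
    have h1 : (P.map (algebraMap π.A F)).eval a = 0 := (mem_roots'.1 ha).2
    have h2 : IsIntegral π.A a := ⟨P, hPm, by rw [← eval_map]; exact h1⟩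
    obtain ⟨b, hb⟩ := IsIntegrallyClosed.isIntegral_iff.1 h2
    rw [← hb]
    exact b.2
  obtain ⟨t, ht⟩ : ∃ t : Multiset π.A, t.map (algebraMap π.A F) =
      (P.map (algebraMap π.A F)).roots := by
    refine ⟨(P.map (algebraMap π.A F)).roots.attach.map fun a => ⟨a.1, hroot a.1 a.2⟩, ?_⟩
    rw [Multiset.map_map]
    conv_rhs => rw [← Multiset.attach_map_val (P.map (algebraMap π.A F)).roots]
    rfl
  have hPt : P = (t.map fun a => X - C a).prod := by
    apply Polynomial.map_injective (algebraMap π.A F) (IsFractionRing.injective π.A F)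
    rw [hprod, ← ht, Multiset.map_map, Polynomial.map_multiset_prod, Multiset.map_map]
    congr 1
    refine Multiset.map_congr rfl fun a _ => ?_
    simp
  have h3 : p1.eval y = 0 := by
    rw [eval_mul, hy, mul_zero]
  rw [← hP, hPt, Polynomial.map_multiset_prod, Multiset.map_map, eval_multiset_prod,
    Multiset.map_map, Multiset.prod_eq_zero_iff] at h3
  obtain ⟨a, ha, h4⟩ := Multiset.mem_map.1 h3
  refine ⟨a, a.2, ?_⟩
  simp only [Function.comp_apply, Polynomial.map_sub, map_X, map_C, eval_sub, eval_X, eval_C] at h4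
  exact (sub_eq_zero.1 h4).symm

end Pool.Agent.TT
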