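import Mathlib
import Pool.Agent.Helper16.GT.Stmt
import Pool.Agent.TT.PlExt
import Pool.Agent.TT.Sp

set_option autoImplicit false
set_option linter.unusedSectionVars false

/-! Project TT, block D9b: surjectivity of a place. -/

namespace Pool.Agent.TT

open Pool.Agent.Helper16 Pool.Agent.Helper16.BB Pool.Agent.Helper16.GT Pool.Agent.ThF Polynomial

/-- D9b. Surjectivity of a place of an algebraically closed field with values in the algebraic closure
of a function field `N` of one variable, if a transcendental element of `N` is in the image: apply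
`pl_surj`: the image is a subring containing `K` and `w`, and every `y` is algebraic over `K(w)`, so a
root of a nonzero polynomial with coefficients in `K[w]` (clear denominators). -/
theorem pl_surj_curve {k : Type} [Field k] {Ω : Type} [Field Ω] [IsAlgClosed Ω] [Algebra k Ω]
    [Algebra (RatFunc k) Ω] [IsScalarTower k (RatFunc k) Ω]
    {N : Type} [Field N] [Algebra k N] [Algebra (RatFunc k) N] [IsScalarTower k (RatFunc k) N]
    (hN : IsFunctionField (RatFunc k) N) (π : Pl k Ω (AlgebraicClosure N))
    (hK : ∀ c : RatFunc k, π.Sp (algebraMap _ Ω c) (algebraMap _ (AlgebraicClosure N) c))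
    (w : N) (hw : Transcendental (RatFunc k) w) (x : Ω)
    (hx : π.Sp x (algebraMap N (AlgebraicClosure N) w)) : π.Surj := by
  let S : Subalgebra (RatFunc k) N :=
    { carrier := {a | ∃ x, π.Sp x (algebraMap N (AlgebraicClosure N) a)}
      mul_mem' := by
        rintro a b ⟨x, hx⟩ ⟨y, hy⟩
        exact ⟨x * y, by rw [map_mul]; exact hx.mul hy⟩
      add_mem' := by
        rintro a b ⟨x, hx⟩ ⟨y, hy⟩
        exact ⟨x + y, by rw [map_add]; exact hx.add hy⟩
      algebraMap_mem' := by
        intro c
        refine ⟨algebraMap _ Ω c, ?_⟩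
        rw [← IsScalarTower.algebraMap_apply (RatFunc k) N (AlgebraicClosure N)]
        exact hK c }
  have hS : ∀ a, a ∈ S ↔ ∃ x, π.Sp x (algebraMap N (AlgebraicClosure N) a) := fun a => Iff.rfl
  let M : IntermediateField (RatFunc k) N := S.toIntermediateField (by
    intro a ha
    by_cases h0 : a = 0
    · rw [h0, inv_zero]
      exact S.zero_mem
    · obtain ⟨x, hx⟩ := (hS a).1 ha
      refine (hS _).2 ⟨x⁻¹, ?_⟩
      rw [map_inv₀]
      refine hx.inv ?_
      intro h1
      exact h0 ((map_eq_zero _).1 h1))
  have hM : IntermediateField.adjoin (RatFunc k) {w} ≤ M := by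
    rw [IntermediateField.adjoin_le_iff]
    rintro a rfl
    exact (hS _).2 ⟨x, hx⟩
  have h1 : FiniteDimensional (IntermediateField.adjoin (RatFunc k) {w}) N :=
    IsFunctionField.finiteDimensional hN w hw
  have h2 : Algebra.IsAlgebraic (IntermediateField.adjoin (RatFunc k) {w}) (AlgebraicClosure N) :=
    Algebra.IsAlgebraic.trans _ N _
  refine pl_surj π fun y => ?_
  obtain ⟨p, hp0, hp⟩ := Algebra.IsAlgebraic.isAlgebraic
    (R := IntermediateField.adjoin (RatFunc k) {w}) y
  refine ⟨p.map (algebraMap _ (AlgebraicClosure N)), ?_, fun i => ?_, ?_⟩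
  · exact (Polynomial.map_ne_zero_iff (FaithfulSMul.algebraMap_injective _ _)).2 hp0
  · rw [coeff_map]
    have h3 : (p.coeff i : N) ∈ M := hM (p.coeff i).2
    obtain ⟨x, hx⟩ := (hS _).1 h3
    refine ⟨x, ?_⟩
    rw [IsScalarTower.algebraMap_apply _ N (AlgebraicClosure N)]
    exact hx
  · rw [eval_map_algebraMap]
    exact hp

end Pool.Agent.TT
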