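import Pool.Agent.ThF.Lift

set_option autoImplicit false

/-! Versions of `exists_extend`, `lift_ext`, `lift_main` in which the open set does not depend on the
algebraically closed field. -/

namespace Pool.Agent.TT

open Pool.Agent.Helper16 Pool.Agent.Helper16.BB Pool.Agent.ThF Polynomial

/-- Extension of homomorphisms over a nonempty open subset, which does not depend on the field. -/
theorem exists_extend_u {K C D : Type} [Field K] [CommRing C] [IsDomain C]
    [CommRing D] [IsDomain D] [Algebra K C] [Algebra K D] [Algebra C D] [IsScalarTower K C D]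
    [Algebra.FiniteType C D] (hinj : Function.Injective (algebraMap C D)) :
    ∃ c : C, c ≠ 0 ∧ ∀ (Ω : Type) [Field Ω] [IsAlgClosed Ω] [Algebra K Ω] (χ : C →ₐ[K] Ω), χ c ≠ 0 →
      ∃ ψ : D →ₐ[K] Ω, ∀ a, ψ (algebraMap C D a) = χ a := by
  classical
  let F := FractionRing C
  let T := TensorProduct C F D
  -- nontriviality
  haveI : Nontrivial T := by
    let FD := FractionRing D
    have hCFD : Function.Injective (algebraMap C FD) := by
      rw [IsScalarTower.algebraMap_eq C D FD]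
      exact (IsFractionRing.injective D FD).comp hinj
    let f : F →ₐ[C] FD := IsFractionRing.liftAlgHom (g := Algebra.ofId C FD) hCFD
    let gg : D →ₐ[C] FD := IsScalarTower.toAlgHom C D FD
    let t : T →ₐ[C] FD := Algebra.TensorProduct.lift f gg (fun _ _ => Commute.all _ _)
    exact RingHom.domain_nontrivial t.toRingHom
  obtain ⟨m, hm⟩ := Ideal.exists_maximal T
  let E := T ⧸ m
  letI : Field E := Ideal.Quotient.field m
  haveI : Algebra.FiniteType F E := by
    exact Algebra.FiniteType.trans (S := T) inferInstance inferInstance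
  haveI : Module.Finite F E := finite_of_finite_type_of_isJacobsonRing F E
  haveI : Algebra.IsAlgebraic F E := inferInstance
  haveI : Algebra.IsAlgebraic C E := by
    exact (IsFractionRing.comap_isAlgebraic_iff (A := C) (K := F) (C := E)).mpr inferInstance
  have hCE : Function.Injective (algebraMap C E) := by
    rw [IsScalarTower.algebraMap_eq C F E]
    exact (algebraMap F E).injective.comp (IsFractionRing.injective C F)
  let φ : D →ₐ[C] E := ((Ideal.Quotient.mkₐ C m)).comp
    (Algebra.TensorProduct.includeRight : D →ₐ[C] T)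
  obtain ⟨s, hs⟩ := (Algebra.FiniteType.out : (⊤ : Subalgebra C D).FG)
  obtain ⟨c, hc0, hc⟩ := Algebra.IsAlgebraic.exists_integral_multiples C (s.image φ)
  refine ⟨c, hc0, ?_⟩
  intro Ω _ _ _ χ hχ
  obtain ⟨ψ, hψ⟩ := extend_aux hCE φ s hs c
    (fun x hx => hc _ (Finset.mem_image_of_mem _ hx)) χ.toRingHom hχ
  refine ⟨{ ψ with
    commutes' := by
      intro k
      change ψ (algebraMap K D k) = algebraMap K Ω k
      rw [IsScalarTower.algebraMap_apply K C D, hψ]
      exact χ.commutes k }, ?_⟩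
  intro a
  exact hψ a

theorem lift_ext_u {K M : Type} [Field K] [Field M] [Algebra K M]
    (C D : Subalgebra K M) (hCD : C ≤ D) (hD : D.FG) :
    ∃ c : C, c ≠ 0 ∧ ∀ (Ω : Type) [Field Ω] [IsAlgClosed Ω] [Algebra K Ω] (χ : C →ₐ[K] Ω), χ c ≠ 0 →
      ∃ ψ : D →ₐ[K] Ω, ∀ a : C, ψ (Subalgebra.inclusion hCD a) = χ a := by
  let _ : Algebra C D := (Subalgebra.inclusion hCD).toRingHom.toAlgebra
  have _ : IsScalarTower K C D := IsScalarTower.of_algebraMap_eq fun x => rfl
  have _ : Algebra.FiniteType K D := D.fg_iff_finiteType.1 hD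
  have _ : Algebra.FiniteType C D := Algebra.FiniteType.of_restrictScalars_finiteType K C D
  exact exists_extend_u (K := K) (C := C) (D := D) (Subalgebra.inclusion_injective hCD)

theorem lift_main_u {K M σ : Type} [Field K] [Field M] [Algebra K M]
    [Finite σ] (ξ : σ → M) (j0 : σ) (hj0 : ξ j0 ≠ 0) (D : Subalgebra K M)
    (hD : D.FG) (hξD : ∀ j, ξ j / ξ j0 ∈ D) :
    ∃ h : MvPolynomial σ K, (∃ d, h.IsHomogeneous d) ∧ MvPolynomial.aeval ξ h ≠ 0 ∧
      ∀ (Ω : Type) [Field Ω] [IsAlgClosed Ω] [Algebra K Ω] (x : σ → Ω), (∀ P : MvPolynomial σ K, (∃ d, P.IsHomogeneous d) →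
        MvPolynomial.aeval ξ P = 0 → MvPolynomial.aeval x P = 0) →
        MvPolynomial.aeval x h ≠ 0 →
        x j0 ≠ 0 ∧ ∃ ψ : D →ₐ[K] Ω, ∀ j, ψ ⟨ξ j / ξ j0, hξD j⟩ = x j / x j0 := by
  set u : σ → M := fun j => ξ j / ξ j0 with hu
  set f : MvPolynomial σ K →ₐ[K] M := MvPolynomial.aeval u with hf
  have hCD : f.range ≤ D := by
    rw [hf, ← Algebra.adjoin_range_eq_range_aeval, Algebra.adjoin_le_iff]
    rintro _ ⟨j, rfl⟩
    exact hξD j
  obtain ⟨c, hc, hext⟩ := lift_ext_u f.range D hCD hD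
  obtain ⟨⟨c0, hc0⟩⟩ : Nonempty {g // f g = c.1} := by
    obtain ⟨g, hg⟩ := c.2
    exact ⟨⟨g, hg⟩⟩
  obtain ⟨N, G, hG, hG'⟩ := lift_homog j0 c0
  refine ⟨G * MvPolynomial.X j0, ⟨N + 1, hG.mul (MvPolynomial.isHomogeneous_X K j0)⟩, ?_, ?_⟩
  · rw [map_mul, MvPolynomial.aeval_X, hG' M ξ hj0]
    refine mul_ne_zero (mul_ne_zero (pow_ne_zero _ hj0) ?_) hj0
    change f c0 ≠ 0
    rw [hc0]
    intro h0
    exact hc (Subtype.ext h0)
  · intro Ω _ _ _ x hx hxh
    rw [map_mul, MvPolynomial.aeval_X] at hxh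
    have hx0 : x j0 ≠ 0 := right_ne_zero_of_mul hxh
    refine ⟨hx0, ?_⟩
    have hG0 : MvPolynomial.aeval x G ≠ 0 := left_ne_zero_of_mul hxh
    rw [hG' Ω x hx0] at hG0
    obtain ⟨χ, hχ⟩ := lift_factor f (MvPolynomial.aeval (fun j => x j / x j0)) (by
      intro g hg
      obtain ⟨N', G1, hG1, hG1'⟩ := lift_homog j0 g
      have h1 : MvPolynomial.aeval ξ G1 = 0 := by
        rw [hG1' M ξ hj0]
        change _ * f g = 0
        rw [hg, mul_zero]
      have h2 := hx G1 ⟨N', hG1⟩ h1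
      rw [hG1' Ω x hx0] at h2
      exact (mul_eq_zero.1 h2).resolve_left (pow_ne_zero _ hx0))
    have hcc : f.rangeRestrict c0 = c := Subtype.ext hc0
    obtain ⟨ψ, hψ⟩ := hext Ω χ (by
      rw [← hcc, hχ]
      exact right_ne_zero_of_mul hG0)
    refine ⟨ψ, fun j => ?_⟩
    have h3 := hψ (f.rangeRestrict (MvPolynomial.X j))
    rw [hχ, MvPolynomial.aeval_X] at h3
    rw [← h3]
    congr 1
    apply Subtype.ext
    change ξ j / ξ j0 = f (MvPolynomial.X j)
    rw [hf, MvPolynomial.aeval_X]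

end Pool.Agent.TT
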