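import Pool.Agent.TT.DRed
import Pool.Agent.TT.DPrime
import Pool.Agent.TT.DSurj
import Pool.Agent.TT.LiftU
import Pool.Agent.TT.Frels

set_option autoImplicit false
set_option linter.unusedSectionVars false

/-! Project TT, block D9: reduction to curves on `X`. -/

namespace Pool.Agent.TT

open Pool.Agent.Helper16 Pool.Agent.Helper16.BB Pool.Agent.Helper16.GT Pool.Agent.ThF Polynomial

variable {k σ : Type} [Field k] [Finite k] [Finite σ] {I : Set (MvPolynomial σ (RatFunc k))}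
variable {Fx : Type} [Field Fx] [Algebra k Fx] [Algebra (RatFunc k) Fx]
  [IsScalarTower k (RatFunc k) Fx] {η : σ → Fx} {j₀ : σ}

/-- An element of the ideal generated by `I` vanishes at the points of the zero set of `I`. -/
theorem dcurve_span {K N τ : Type} [Field K] [Field N] [Algebra K N] {J : Set (MvPolynomial τ K)}
    (x : τ → N) (hx : ∀ P ∈ J, MvPolynomial.aeval x P = 0) {F : MvPolynomial τ K}
    (hF : F ∈ Ideal.span J) : MvPolynomial.aeval x F = 0 := by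
  have h : Ideal.span J ≤ RingHom.ker (MvPolynomial.aeval x : MvPolynomial τ K →ₐ[K] N) :=
    Ideal.span_le.2 hx
  exact h hF

/-- An element of which the inverse is integral has nonzero residue. -/
theorem dcurve_ne {k F L : Type} [Field k] [Field F] [Field L] [Algebra k F] [Algebra k L]
    {π : Pl k F L} {a : F} {y z : L} (ha : a ≠ 0) (h : π.Sp a y) (h' : π.Sp a⁻¹ z) : y ≠ 0 := by
  intro hy
  have h1 := h.mul h'
  rw [mul_inv_cancel₀ ha, hy, zero_mul] at h1
  exact one_ne_zero ((Pl.Sp.one π).unique h1)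

/-- If `x j / x i` is transcendental, then so is one of `x j / x j₀`, `x i / x j₀`. -/
theorem dcurve_transc {K N τ : Type} [Field K] [Field N] [Algebra K N] (x : τ → N) (j₀ : τ)
    (h0 : x j₀ ≠ 0) (h : ∃ i j, x i ≠ 0 ∧ Transcendental K (x j / x i)) :
    ∃ m, Transcendental K (x m / x j₀) := by
  obtain ⟨i, j, hi, hij⟩ := h
  by_contra hcon
  push Not at hcon
  have h1 : IsAlgebraic K (x i / x j₀) := by
    by_contra h1
    exact hcon i h1
  have h2 : IsAlgebraic K (x j / x j₀) := by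
    by_contra h2
    exact hcon j h2
  apply hij
  have h3 : x j / x i = (x j / x j₀) * (x i / x j₀)⁻¹ := by
    field_simp
  rw [h3]
  exact h2.mul h1.inv

/-- The core: a place of `Ω` with values in `AlgebraicClosure N` gives all the conclusions. -/
theorem dcurve_core {Ω : Type} [Field Ω] [IsAlgClosed Ω] [Algebra k Ω] [Algebra (RatFunc k) Ω]
    [IsScalarTower k (RatFunc k) Ω] {L : Type} [Field L] [IsAlgClosed L] [Algebra k L]
    [Algebra (RatFunc k) L] [IsScalarTower k (RatFunc k) L]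
    (ξ : σ → Ω) (hξ : ξ j₀ = 1) {m : ℕ} (Δ : Fin m → CD σ Ω) (hΔ : CFam I Δ ξ)
    (R : Set (MvPolynomial σ (RatFunc k))) (hR : ∀ F ∈ R, ∃ m, F.IsHomogeneous m)
    (hR0 : ∀ F ∈ R, MvPolynomial.aeval ξ F ≠ 0)
    (T : Finset Ω) (hT0 : 0 ∉ T)
    (hT : ∀ (π : Pl k Ω L), π.Surj → (∀ x ∈ T, π.A.valuation x = 1) →
      ∃ Δ' : Fin m → CD σ L, (∀ l, (Δ' l).Ok (k := k) I) ∧ (∀ l, (Δ' l).b = (Δ l).b) ∧
        (∀ l, π.SpD (Δ l) (Δ' l)) ∧
        ∀ (φ : Quo (wOne σ) I →ₗ[ℚ] ℚ) (A : ValuationSubring L) (g : Ω) (g' : L), g' ≠ 0 →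
          π.Sp g g' → (FRels φ (π.pull A) Δ g ↔ FRels φ A Δ' g'))
    (π : Pl k Ω L) (hπ : π.Surj)
    (hK : ∀ c : RatFunc k, π.Sp (algebraMap _ Ω c) (algebraMap _ L c))
    (hT1 : ∀ a ∈ T, a ∈ π.A ∧ a⁻¹ ∈ π.A)
    (hbe : ∀ l, ((Δ l).be.eval (Δ l).s)⁻¹ ∈ π.A)
    (hP : ∀ l, (((Δ l).P j₀).eval (Δ l).s)⁻¹ ∈ π.A)
    (hRi : ∀ F ∈ R, (MvPolynomial.aeval ξ F)⁻¹ ∈ π.A)
    (x : σ → L) (hx0 : x j₀ ≠ 0) (hxz : ∀ j, π.Sp (ξ j) ((x j₀)⁻¹ * x j)) :
    (∀ F ∈ R, MvPolynomial.aeval x F ≠ 0) ∧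
        ∃ Δ' : Fin m → CD σ L,
          CFam I Δ' x ∧
          ∀ A : ValuationSubring L, OverK k A →
            ∃ B : ValuationSubring Ω, OverK k B ∧
              (∀ (F : MvPolynomial σ (RatFunc k)) (n : ℕ), F.IsHomogeneous n →
                (NVal B ξ F ↔ NVal A x F)) ∧
              ∀ (φ : Quo (wOne σ) I →ₗ[ℚ] ℚ) (n : ℕ), ∀ F ∈ R, ∀ G ∈ R,
                (∃ m, F.IsHomogeneous m ∧ G.IsHomogeneous m) →
                FVal φ n B Δ (MvPolynomial.aeval ξ F / MvPolynomial.aeval ξ G) →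
                FVal φ n A Δ' (MvPolynomial.aeval x F / MvPolynomial.aeval x G) := by
  have ha0 : (x j₀)⁻¹ ≠ 0 := inv_ne_zero hx0
  have hsp : ∀ F : MvPolynomial σ (RatFunc k), π.Sp (MvPolynomial.aeval ξ F)
      (MvPolynomial.aeval (fun j => (x j₀)⁻¹ * x j) F) := fun F => sp_aeval π hK ξ _ hxz F
  have hz0 : ∀ F ∈ R, MvPolynomial.aeval (fun j => (x j₀)⁻¹ * x j) F ≠ 0 := by
    intro F hF
    obtain ⟨y, hy⟩ := π.exists_sp (hRi F hF)
    exact dcurve_ne (hR0 F hF) (hsp F) hy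
  have hne : ∀ F ∈ R, MvPolynomial.aeval x F ≠ 0 := by
    intro F hF h0
    obtain ⟨d, hd⟩ := hR F hF
    have h1 := hz0 F hF
    rw [open_aeval_smul hd, h0, mul_zero] at h1
    exact h1 rfl
  refine ⟨hne, ?_⟩
  obtain ⟨Δ', hok, -, hsd, hrel⟩ := hT π hπ (by
    intro a ha
    obtain ⟨h1, h2⟩ := hT1 a ha
    obtain ⟨y, hy⟩ := π.exists_sp h1
    obtain ⟨z, hz⟩ := π.exists_sp h2
    refine hy.val_eq_one (dcurve_ne ?_ hy hz)
    rintro rfl
    exact hT0 ha)
  refine ⟨Δ', ⟨hΔ.pos, hok, ?_, ?_⟩, ?_⟩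
  · intro l
    have h1 := (hsd l).be.eval (hsd l).s
    have h2 := (hsd l).al.eval (hsd l).s
    obtain ⟨y, hy⟩ := π.exists_sp (hbe l)
    refine ⟨dcurve_ne (hΔ.t l).1 h1 hy, ?_⟩
    have h3 : π.Sp (tt k Ω) (tt k L) := hK RatFunc.X
    have h4 := h3.mul h1
    rw [(hΔ.t l).2] at h4
    exact h4.unique h2
  · intro l
    obtain ⟨c, hc, hcj⟩ := hΔ.pt l
    have h1 : ((Δ l).P j₀).eval (Δ l).s = c := by rw [hcj j₀, hξ, mul_one]
    have h2 := ((hsd l).P j₀).eval (hsd l).s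
    obtain ⟨y, hy⟩ := π.exists_sp (hP l)
    have h3 : ((Δ' l).P j₀).eval (Δ' l).s ≠ 0 := dcurve_ne (by rw [h1]; exact hc) h2 hy
    refine ⟨((Δ' l).P j₀).eval (Δ' l).s * (x j₀)⁻¹, mul_ne_zero h3 ha0, ?_⟩
    intro j
    have h4 := ((hsd l).P j).eval (hsd l).s
    rw [hcj j] at h4
    rw [h1] at h2
    rw [mul_assoc]
    exact h4.unique (h2.mul (hxz j))
  · intro A hA
    refine ⟨π.pull A, overK_pull π hK A hA, ?_, ?_⟩
    · intro F n hF
      have hz : (fun j => (x j₀)⁻¹ * x j) ≠ 0 := by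
        intro h0
        have h1 := congrFun h0 j₀
        change (x j₀)⁻¹ * x j₀ = 0 at h1
        rw [inv_mul_cancel₀ hx0] at h1
        exact one_ne_zero h1
      rw [nval_pull π hK ξ _ hxz hz A hA F n hF, nval_smul A x _ ha0 F]
    · intro φ n F hF G hG hFG hval
      obtain ⟨d, hFd, hGd⟩ := hFG
      have h1 : π.Sp (MvPolynomial.aeval ξ F / MvPolynomial.aeval ξ G)
          (MvPolynomial.aeval x F / MvPolynomial.aeval x G) := by
        have h2 := (hsp F).div (hsp G) (hz0 G hG)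
        rw [open_aeval_smul hFd, open_aeval_smul hGd,
          mul_div_mul_left _ _ (pow_ne_zero _ ha0)] at h2
        exact h2
      exact fval_red π hπ Δ Δ' φ n A (hrel φ A) (fun g' hg' => hg'.ne_zero) _ _ h1
        (div_ne_zero (hne F hF) (hne G hG)) hval

/-- D9. Reduction to a curve. Proof: `T l` from `frel_red` for `Δ l`. Let `D` be the
`RatFunc k`-subalgebra of `AlgebraicClosure Fx` generated by the `ηo η j`, the coefficients of all
`Δ l`, the `(Δ l).s`, the constants `c l` and `(c l)⁻¹` of `hΔ.pt`, the inverses of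
`(Δ l).be.eval (Δ l).s`, the elements of `T l` and their inverses, and the inverses of
`aeval (ηo η) F`, `F ∈ R`. `lift_main_u` (with `K = RatFunc k`, `M = AlgebraicClosure Fx`,
`ξ = ηo η`) gives `h` and, for `x` as in the statement (with values in `AlgebraicClosure N`),
`x j₀ ≠ 0` and `ψ : D →ₐ AlgebraicClosure N` with `ψ (ηo η j) = x j / x j₀`. (Its first hypothesis: a
form vanishing at `ηo η` is in `span I` by `eta_mem`, so it vanishes at `x`.)
`pl_extend` (over `k`) gives `π`, `pl_surj_curve` its surjectivity (`w = x j / x j₀` for suitable `j`,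
since some quotient of coordinates is transcendental), `frel_red` the data `Δ' l`; `CFam` by `sp_eval`.
For `A` over `K` put `B = π.pull A`; `overK_pull`, `nval_pull` (with `z j = x j / x j₀`, and
`nval_smul`), `val_red` (the value of `F / G` at `ηo η` specialises to that at `x`). -/
theorem d9_curve (hI : ∀ P ∈ I, ∃ d, P.IsHomogeneous d) (hpr : (Ideal.span I).IsPrime)
    (hη : IsGen I η j₀) {m : ℕ} (Δ : Fin m → CD σ (AlgebraicClosure Fx))
    (hΔ : CFam I Δ (ηo η)) (R : Set (MvPolynomial σ (RatFunc k))) (hRf : R.Finite)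
    (hR : ∀ F ∈ R, (∃ m, F.IsHomogeneous m) ∧ F ∉ Ideal.span I) :
    ∃ (h : MvPolynomial σ (RatFunc k)), (∃ m, h.IsHomogeneous m) ∧ h ∉ Ideal.span I ∧
      ∀ (N : Type) [Field N] [Algebra k N] [Algebra (RatFunc k) N] [IsScalarTower k (RatFunc k) N]
        (x : σ → N), IsFunctionField (RatFunc k) N → IsPoint (wOne σ) I x →
        (∃ i j, x i ≠ 0 ∧ Transcendental (RatFunc k) (x j / x i)) →
        MvPolynomial.aeval x h ≠ 0 →
        (∀ F ∈ R, MvPolynomial.aeval x F ≠ 0) ∧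
        ∃ Δ' : Fin m → CD σ (AlgebraicClosure N),
          CFam I Δ' (fun j => algebraMap N (AlgebraicClosure N) (x j)) ∧
          ∀ A : ValuationSubring (AlgebraicClosure N), OverK k A →
            ∃ B : ValuationSubring (AlgebraicClosure Fx), OverK k B ∧
              (∀ (F : MvPolynomial σ (RatFunc k)) (n : ℕ), F.IsHomogeneous n →
                (NVal B (ηo η) F ↔ NVal A (fun j => algebraMap N (AlgebraicClosure N) (x j)) F)) ∧
              ∀ (φ : Quo (wOne σ) I →ₗ[ℚ] ℚ) (n : ℕ), ∀ F ∈ R, ∀ G ∈ R,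
                (∃ m, F.IsHomogeneous m ∧ G.IsHomogeneous m) →
                FVal φ n B Δ (MvPolynomial.aeval (ηo η) F / MvPolynomial.aeval (ηo η) G) →
                FVal φ n A Δ' (algebraMap N (AlgebraicClosure N)
                  (MvPolynomial.aeval x F / MvPolynomial.aeval x G)) := by
  classical
  have hξ1 : ηo η j₀ = 1 := by
    change algebraMap Fx (AlgebraicClosure Fx) (η j₀) = 1
    rw [hη.one, map_one]
  obtain ⟨T, hT0, hT⟩ := frels_red hI Δ hΔ.ok
  -- the subalgebra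
  let S : Set (AlgebraicClosure Fx) := Set.range (ηo η) ∪ ((T : Set (AlgebraicClosure Fx)) ∪
    ((fun a => a⁻¹) '' (T : Set (AlgebraicClosure Fx)))) ∪
    (Set.range (fun l => ((Δ l).be.eval (Δ l).s)⁻¹) ∪
      Set.range (fun l => (((Δ l).P j₀).eval (Δ l).s)⁻¹)) ∪
    ((fun F => (MvPolynomial.aeval (ηo η) F)⁻¹) '' R)
  have hS : S.Finite := by
    refine Set.Finite.union (Set.Finite.union (Set.Finite.union (Set.finite_range _)
      (Set.Finite.union T.finite_toSet (T.finite_toSet.image _)))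
      (Set.Finite.union (Set.finite_range _) (Set.finite_range _))) (hRf.image _)
  let D : Subalgebra (RatFunc k) (AlgebraicClosure Fx) := Algebra.adjoin (RatFunc k) S
  have hD : D.FG := ⟨hS.toFinset, by rw [hS.coe_toFinset]⟩
  have hSD : ∀ a ∈ S, a ∈ D := fun a ha => Algebra.subset_adjoin ha
  have hξD : ∀ j, ηo η j / ηo η j₀ ∈ D := by
    intro j
    rw [hξ1, div_one]
    exact hSD _ (Or.inl (Or.inl (Or.inl ⟨j, rfl⟩)))
  obtain ⟨h, ⟨d, hd⟩, hh0, hlift⟩ := lift_main_u (ηo η) j₀ (by rw [hξ1]; exact one_ne_zero)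
    D hD hξD
  refine ⟨h, ⟨d, hd⟩, fun hmem => hh0 ((eta_mem hη h d hd).2 hmem), ?_⟩
  intro N _ _ _ _ x hN hx htr hxh
  rw [isPoint_wOne] at hx
  have hx' : ∀ F : MvPolynomial σ (RatFunc k),
      MvPolynomial.aeval (fun j => algebraMap N (AlgebraicClosure N) (x j)) F =
        algebraMap N (AlgebraicClosure N) (MvPolynomial.aeval x F) :=
    fun F => MvPolynomial.aeval_algebraMap_apply (AlgebraicClosure N) x F
  obtain ⟨hx0, ψ, hψ⟩ := hlift (AlgebraicClosure N)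
    (fun j => algebraMap N (AlgebraicClosure N) (x j)) (by
      rintro P ⟨e, he⟩ hP
      rw [hx', dcurve_span x hx.2 ((eta_mem hη P e he).1 hP), map_zero]) (by
      rw [hx']
      exact (_root_.map_ne_zero _).2 hxh)
  obtain ⟨π, hπD⟩ := pl_extend (D.restrictScalars k) (ψ.restrictScalars k)
  have hπD' : ∀ (a : AlgebraicClosure Fx) (ha : a ∈ D), π.Sp a (ψ ⟨a, ha⟩) :=
    fun a ha => hπD ⟨a, ha⟩
  have hSA : ∀ a ∈ S, a ∈ π.A := fun a ha => (hπD' a (hSD a ha)).mem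
  have hK : ∀ c : RatFunc k, π.Sp (algebraMap _ (AlgebraicClosure Fx) c)
      (algebraMap _ (AlgebraicClosure N) c) := by
    intro c
    have h1 := hπD' (algebraMap _ (AlgebraicClosure Fx) c) (D.algebraMap_mem c)
    have h2 : ψ ⟨algebraMap _ (AlgebraicClosure Fx) c, D.algebraMap_mem c⟩ =
        algebraMap _ (AlgebraicClosure N) c := ψ.commutes c
    rwa [h2] at h1
  have hxz : ∀ j, π.Sp (ηo η j) ((algebraMap N (AlgebraicClosure N) (x j₀))⁻¹ *
      algebraMap N (AlgebraicClosure N) (x j)) := by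
    intro j
    have h1 := hπD' _ (hξD j)
    rw [hψ j, hξ1, div_one, div_eq_inv_mul] at h1
    exact h1
  have hx0N : x j₀ ≠ 0 := fun h0 => hx0 (by rw [h0, map_zero])
  have hsurj : π.Surj := by
    obtain ⟨i, hi⟩ := dcurve_transc x j₀ hx0N htr
    refine pl_surj_curve hN π hK (x i / x j₀) hi (ηo η i) ?_
    rw [map_div₀, div_eq_inv_mul]
    exact hxz i
  obtain ⟨hne, Δ', hfam, hA⟩ := dcurve_core (ηo η) hξ1 Δ hΔ R (fun F hF => (hR F hF).1)
    (fun F hF h0 => by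
      obtain ⟨⟨e, he⟩, hF2⟩ := hR F hF
      exact hF2 ((eta_mem hη F e he).1 h0)) T hT0
    (fun π' => hT (AlgebraicClosure N) π') π hsurj hK
    (fun a ha => ⟨hSA _ (Or.inl (Or.inl (Or.inr (Or.inl ha)))),
      hSA _ (Or.inl (Or.inl (Or.inr (Or.inr ⟨a, ha, rfl⟩))))⟩)
    (fun l => hSA _ (Or.inl (Or.inr (Or.inl ⟨l, rfl⟩))))
    (fun l => hSA _ (Or.inl (Or.inr (Or.inr ⟨l, rfl⟩))))
    (fun F hF => hSA _ (Or.inr ⟨F, hF, rfl⟩))
    (fun j => algebraMap N (AlgebraicClosure N) (x j)) hx0 hxz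
  refine ⟨fun F hF h0 => hne F hF (by rw [hx', h0, map_zero]), Δ', hfam, ?_⟩
  intro A hAK
  obtain ⟨B, hB1, hB2, hB3⟩ := hA A hAK
  refine ⟨B, hB1, hB2, ?_⟩
  intro φ n F hF G hG hFG hval
  have h1 := hB3 φ n F hF G hG hFG hval
  rw [hx', hx', ← map_div₀] at h1
  exact h1

end Pool.Agent.TT
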