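import Mathlib
import Pool.Agent.TT.C11
import Pool.Agent.TT.C9
import Pool.Agent.TT.DAbove
import Pool.Agent.TT.DBad
import Pool.Agent.TT.DCurve
import Pool.Agent.TT.E.NormB

set_option autoImplicit false
set_option linter.unusedSectionVars false

/-! Project TT, block D10: the divisor of a functional is numerically trivial; a functional with
principal divisor is constant on curves. -/

namespace Pool.Agent.TT

open Pool.Agent.Helper16 Pool.Agent.Helper16.BB Pool.Agent.Helper16.GT Pool.Agent.ThF Polynomial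

variable {k σ : Type} [Field k] [Finite k] [Finite σ] {I : Set (MvPolynomial σ (RatFunc k))}
variable {Fx : Type} [Field Fx] [Algebra k Fx] [Algebra (RatFunc k) Fx]
  [IsScalarTower k (RatFunc k) Fx] {η : σ → Fx} {j₀ : σ}

/-- The curve data of block C from the data of block D. -/
theorem dnum_crv {N : Type} [Field N] [Algebra k N] [Algebra (RatFunc k) N]
    [IsScalarTower k (RatFunc k) N] {x : σ → N} (hx : IsPoint (wOne σ) I x) {m : ℕ}
    {Δ' : Fin m → CD σ (AlgebraicClosure N)}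
    (h : CFam I Δ' (fun j => algebraMap N (AlgebraicClosure N) (x j))) :
    Crv (k := k) I x Δ' where
  pos := h.pos
  ok := h.ok
  root := h.t
  pt := hx
  prop := h.pt

theorem dnum_point {N : Type} [Field N] [Algebra (RatFunc k) N] {x : σ → N}
    (hx : IsPoint (wOne σ) (Ideal.span I : Set (MvPolynomial σ (RatFunc k))) x) :
    IsPoint (wOne σ) I x :=
  (isPoint_wOne I x).2 ⟨((isPoint_wOne _ x).1 hx).1,
    fun P hP => ((isPoint_wOne _ x).1 hx).2 P (Ideal.subset_span hP)⟩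

/-- The product of a form `h₁` and finitely many forms, none in the prime ideal. -/
theorem dnum_prod {ι : Type} (hpr : (Ideal.span I).IsPrime) (s : Finset ι)
    (h₁ : MvPolynomial σ (RatFunc k)) (E : ι → MvPolynomial σ (RatFunc k))
    (hh : ∃ m, h₁.IsHomogeneous m) (hE : ∀ i, ∃ m, (E i).IsHomogeneous m)
    (hh1 : h₁ ∉ Ideal.span I) (hE1 : ∀ i, E i ∉ Ideal.span I) :
    (∃ m, (h₁ * ∏ i ∈ s, E i).IsHomogeneous m) ∧ h₁ * ∏ i ∈ s, E i ∉ Ideal.span I := by
  obtain ⟨m, hm⟩ := hh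
  choose e he using hE
  constructor
  · exact ⟨_, hm.mul (MvPolynomial.IsHomogeneous.prod s E e fun i _ => he i)⟩
  · intro h
    rcases hpr.mem_or_mem h with h | h
    · exact hh1 h
    · obtain ⟨i, -, hi⟩ := (hpr.prod_mem_iff).1 h
      exact hE1 i hi

/-- D10a. Proof: `R, J` from `d8_bad`, `h₁` from `d9_curve` for the set of all first and second
components of members of `R`, for every `P` in the support of `D` a form `E_P ∈ P`, `∉ span I`
(`d1_form`). In the definition of `NumTriv` take `J`, `h = h₁ * ∏ E_P`, and `n = 1`. Let `N, x` be given;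
`Algebra k N` by composition. If all `x j / x i` are algebraic over `K` take `F = G = 1` and `S = ∅`: for
`P` in the support of `D`, `E_P` does not vanish at `x(v)` (`nonVan_const`), so `D P = 0` for the `P`
through `x(v)`, and `ordP 1 = 0` (`d1_zero`). Otherwise let `Δ'` be as in `d9_curve`. For every place `v`
choose `A v` above `v` (`above_exists`), `B v` from `d9_curve`, `E ∈ J` with `NonVan v x E` gives
`NVal (B v) (ηo η) E` (`above_nval`), so `d8_bad` gives `p v ∈ R`; `F v, G v` its components,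
`q v = F v (x) / G v (x)`. If `A` is any valuation ring above `v`, the `B` of `d9_curve` has the same
centre as `B v`, so `FVal φ n B Δ` and `FVal φ n A Δ' (q v)`. Apply `curve_degree` (TT/C11) to `Δ'`
(`Crv` from `CFam`); all valuation rings above `v` contain `K`. `LocEq.eq` from `LocE` by the equality of
the centres. -/
theorem d10_num (hI : ∀ P ∈ I, ∃ d, P.IsHomogeneous d) (hpr : (Ideal.span I).IsPrime)
    (hreg : RegOne (Ideal.span I)) (hη : IsGen I η j₀) {m : ℕ}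
    (Δ : Fin m → CD σ (AlgebraicClosure Fx)) (hΔ : CFam I Δ (ηo η))
    (φ : Quo (wOne σ) I →ₗ[ℚ] ℚ) (n : ℕ) (hn : 0 < n) (D : Dv (Ideal.span I))
    (hD : DivOf φ n η Δ D) : D ∈ NumTriv (Ideal.span I) := by
  classical
  obtain ⟨R, J, hRf, hR, hJh, hJP, hJI, hJ⟩ := d8_bad hI hpr hreg hη Δ hΔ φ n D hD
  have hR'f : (Prod.fst '' R ∪ Prod.snd '' R).Finite := (hRf.image _).union (hRf.image _)
  have hR'h : ∀ F ∈ Prod.fst '' R ∪ Prod.snd '' R,
      (∃ m, F.IsHomogeneous m) ∧ F ∉ Ideal.span I := by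
    rintro F (⟨p, hp, rfl⟩ | ⟨p, hp, rfl⟩)
    · obtain ⟨⟨m, h1, h2⟩, h3, h4⟩ := hR p hp
      exact ⟨⟨m, h1⟩, h3⟩
    · obtain ⟨⟨m, h1, h2⟩, h3, h4⟩ := hR p hp
      exact ⟨⟨m, h2⟩, h4⟩
  obtain ⟨h₁, hh₁, hh₁I, hcur⟩ := d9_curve hI hpr hη Δ hΔ _ hR'f hR'h
  have hE : ∀ P : {P // IsPD (Ideal.span I) P}, ∃ F : MvPolynomial σ (RatFunc k),
      (∃ m, F.IsHomogeneous m) ∧ F ∈ P.1 ∧ F ∉ Ideal.span I := by
    intro P
    obtain ⟨F, m, h1, h2, h3⟩ := d1_form P.1 P.2
    exact ⟨F, ⟨m, h1⟩, h2, h3⟩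
  choose E hEh hEP hEI using hE
  obtain ⟨hh, hhI⟩ := dnum_prod hpr D.support h₁ E hh₁ hEh hh₁I hEI
  apply AddSubgroup.subset_closure
  refine ⟨J, h₁ * ∏ P ∈ D.support, E P, 1, hJh, hJP, hh, hhI, one_pos, ?_⟩
  intro N _ _ x hN hxs hxh hxJ
  letI algkN : Algebra k N := Algebra.compHom N (algebraMap k (RatFunc k))
  haveI : IsScalarTower k (RatFunc k) N := IsScalarTower.of_algebraMap_eq fun _ => rfl
  have hx : IsPoint (wOne σ) I x := dnum_point hxs
  have hx0 : x ≠ 0 := ((isPoint_wOne I x).1 hx).1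
  rw [map_mul, map_prod] at hxh
  have hxh₁ : MvPolynomial.aeval x h₁ ≠ 0 := left_ne_zero_of_mul hxh
  have hxE : ∀ P ∈ D.support, MvPolynomial.aeval x (E P) ≠ 0 :=
    Finset.prod_ne_zero_iff.1 (right_ne_zero_of_mul hxh)
  by_cases hcst : ∀ i j, x i ≠ 0 → IsAlgebraic (RatFunc k) (x j / x i)
  · refine ⟨fun _ => 1, fun _ => 1, ∅, fun v => ⟨⟨0, MvPolynomial.isHomogeneous_one _ _,
      MvPolynomial.isHomogeneous_one _ _⟩, by simp, by simp, ?_⟩, ?_, by simp⟩
    · intro P hP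
      have h1 : D P = 0 := by
        by_contra h0
        have hPs : P ∈ D.support := Finsupp.mem_support_iff.2 h0
        obtain ⟨m', hm'⟩ := hEh P
        exact hP (E P) (hEP P) (hEh P) (nonVan_const hN v x hcst (E P) m' hm' (hxE P hPs))
      rw [h1, mul_zero, sub_self]
    · intro v hv
      exact absurd (by simp [Place.ord]) hv
  · have htr : ∃ i j, x i ≠ 0 ∧ Transcendental (RatFunc k) (x j / x i) := by
      by_contra hcon
      apply hcst
      intro i j hi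
      by_contra h2
      exact hcon ⟨i, j, hi, h2⟩
    obtain ⟨hR0, Δ', hΔ', hAB⟩ := hcur N x hN hx htr hxh₁
    have hcen : ∀ (v : Place (RatFunc k) N) (A : ValuationSubring (AlgebraicClosure N)),
        OverK k A → (∀ y : N, algebraMap N (AlgebraicClosure N) y ∈ A ↔ v.val y ≤ 1) →
        ∃ B : ValuationSubring (AlgebraicClosure Fx), OverK k B ∧
          (∀ (F : MvPolynomial σ (RatFunc k)) (n : ℕ), F.IsHomogeneous n →
            (NVal B (ηo η) F ↔ NonVan v x F)) ∧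
          ∀ p ∈ R, FVal φ n B Δ (MvPolynomial.aeval (ηo η) p.1 / MvPolynomial.aeval (ηo η) p.2) →
            FVal φ n A Δ' (algebraMap N (AlgebraicClosure N)
              (MvPolynomial.aeval x p.1 / MvPolynomial.aeval x p.2)) := by
      intro v A hA hv
      obtain ⟨B, hB1, hB2, hB3⟩ := hAB A hA
      refine ⟨B, hB1, fun F n' hF => (hB2 F n' hF).trans
        (above_nval v A hA hv x hx0 F n' hF), fun p hp hFV => ?_⟩
      exact hB3 φ n p.1 (Or.inl ⟨p, hp, rfl⟩) p.2 (Or.inr ⟨p, hp, rfl⟩) (hR p hp).1 hFV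
    have hsel : ∀ v : Place (RatFunc k) N, ∃ p ∈ R,
        ((∀ P : {P // IsPD (Ideal.span I) P}, (∀ E ∈ P.1, (∃ m, E.IsHomogeneous m) →
          ¬ NonVan v x E) →
            D P = (ordP (Ideal.span I) P.1 p.1 : ℤ) - (ordP (Ideal.span I) P.1 p.2 : ℤ)) ∧
        ∀ A : ValuationSubring (AlgebraicClosure N), OverK k A →
          (∀ y : N, algebraMap N (AlgebraicClosure N) y ∈ A ↔ v.val y ≤ 1) →
          FVal φ n A Δ' (algebraMap N (AlgebraicClosure N)
              (MvPolynomial.aeval x p.1 / MvPolynomial.aeval x p.2))) := by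
      intro v
      obtain ⟨A, hA, hv⟩ := above_exists hN v
      obtain ⟨B, hB1, hB2, hB3⟩ := hcen v A hA hv
      obtain ⟨F, hFJ, hFv⟩ := hxJ v
      obtain ⟨m', hm'⟩ := hJh F hFJ
      obtain ⟨p, hp, hloc, hval⟩ := hJ B hB1 ⟨F, hFJ, (hB2 F m' hm').2 hFv⟩
      refine ⟨p, hp, fun P hP => hloc P fun G hG hGh => ?_, fun A' hA' hv' => ?_⟩
      · obtain ⟨m'', hm''⟩ := hGh
        rw [hB2 G m'' hm'']
        exact hP G hG ⟨m'', hm''⟩
      · obtain ⟨B', hB1', hB2', hB3'⟩ := hcen v A' hA' hv'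
        exact hB3' p hp (hval B' hB1' fun F n' hF => (hB2 F n' hF).trans (hB2' F n' hF).symm)
    choose p hp hloc hval using hsel
    have h1 : ∀ v, MvPolynomial.aeval x (p v).1 ≠ 0 :=
      fun v => hR0 _ (Or.inl ⟨p v, hp v, rfl⟩)
    have h2 : ∀ v, MvPolynomial.aeval x (p v).2 ≠ 0 :=
      fun v => hR0 _ (Or.inr ⟨p v, hp v, rfl⟩)
    obtain ⟨S, hS1, hS2⟩ := curve_degree hI hN φ x Δ' (dnum_crv hx hΔ') hn
      (fun v => MvPolynomial.aeval x (p v).1 / MvPolynomial.aeval x (p v).2)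
      (fun v => div_ne_zero (h1 v) (h2 v))
      (fun v A hA g hg => hval v A hA.hasK hA g hg)
    refine ⟨fun v => (p v).1, fun v => (p v).2, S, fun v => ⟨(hR (p v) (hp v)).1, h1 v, h2 v, ?_⟩,
      hS1, hS2⟩
    intro P hP
    rw [Nat.cast_one, one_mul]
    exact hloc v P hP

/-- D10b. Proof: `J` from `d8_prin`, `h` from `d9_curve` with `R = {F₀, G₀}`. For constant `x` use
`cls_const`. Otherwise, for every valuation ring `A` over `K` of the algebraic closure of `N`, `A ≠ ⊤`,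
there is a place `v` of `N` below it (see TT/C2, `exists_above`), some `E ∈ J` with `NonVan v x E`, so
`NVal B (ηo η) E` (`above_nval`) for the `B` of `d9_curve`, so `FVal φ n B Δ (F₀ / G₀)`, and
`FVal φ n A Δ' f` for `f = F₀(x) / G₀(x)`. Apply `curve_const` (TT/C9) with `q = f`. -/
theorem d10_const (hI : ∀ P ∈ I, ∃ d, P.IsHomogeneous d) (hpr : (Ideal.span I).IsPrime)
    (hη : IsGen I η j₀) {m : ℕ}
    (Δ : Fin m → CD σ (AlgebraicClosure Fx)) (hΔ : CFam I Δ (ηo η))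
    (φ : Quo (wOne σ) I →ₗ[ℚ] ℚ) (n : ℕ) (hn : 0 < n) (F₀ G₀ : MvPolynomial σ (RatFunc k)) (d : ℕ)
    (hF : F₀.IsHomogeneous d) (hG : G₀.IsHomogeneous d) (hF1 : F₀ ∉ Ideal.span I)
    (hG1 : G₀ ∉ Ideal.span I)
    (hD : DivOf φ n η Δ fun P => (ordP (Ideal.span I) P.1 F₀ : ℤ) - (ordP (Ideal.span I) P.1 G₀ : ℤ)) :
    ∃ (J : Set (MvPolynomial σ (RatFunc k))) (h : MvPolynomial σ (RatFunc k)),
      (∀ F ∈ J, ∃ m, F.IsHomogeneous m) ∧ (∀ P, IsPD (Ideal.span I) P → ∃ F ∈ J, F ∉ P) ∧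
      (∃ m, h.IsHomogeneous m) ∧ h ∉ Ideal.span I ∧
      ∀ (N : Type) [Field N] [Algebra (RatFunc k) N] (z : σ → N), IsFunctionField (RatFunc k) N →
        IsPoint (wOne σ) I z → MvPolynomial.aeval z h ≠ 0 →
        (∀ v : Place (RatFunc k) N, ∃ F ∈ J, NonVan v z F) → E.CstOn I φ z := by
  classical
  obtain ⟨J, hJh, hJP, hJI, hJ⟩ := d8_prin hI hpr hη Δ hΔ φ n F₀ G₀ d hF hG hF1 hG1 hD
  obtain ⟨h, hhh, hhI, hcur⟩ := d9_curve hI hpr hη Δ hΔ {F₀, G₀}
    (Set.toFinite _) (by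
      rintro F (rfl | rfl)
      · exact ⟨⟨d, hF⟩, hF1⟩
      · exact ⟨⟨d, hG⟩, hG1⟩)
  refine ⟨J, h, hJh, hJP, hhh, hhI, ?_⟩
  intro N _ _ z hN hz hzh hzJ v v' y y' hy hy'
  by_cases hcst : ∀ i j, z i ≠ 0 → IsAlgebraic (RatFunc k) (z j / z i)
  · rw [cls_const hN hI z hz hcst v v' y y' hy hy']
  · have htr : ∃ i j, z i ≠ 0 ∧ Transcendental (RatFunc k) (z j / z i) := by
      by_contra hcon
      apply hcst
      intro i j hi
      by_contra h2
      exact hcon ⟨i, j, hi, h2⟩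
    letI algkN : Algebra k N := Algebra.compHom N (algebraMap k (RatFunc k))
    haveI : IsScalarTower k (RatFunc k) N := IsScalarTower.of_algebraMap_eq fun _ => rfl
    have hz0 : z ≠ 0 := ((isPoint_wOne I z).1 hz).1
    obtain ⟨hR0, Δ', hΔ', hAB⟩ := hcur N z hN hz htr hzh
    have h1 : MvPolynomial.aeval z F₀ ≠ 0 := hR0 _ (Set.mem_insert _ _)
    have h2 : MvPolynomial.aeval z G₀ ≠ 0 := hR0 _ (Set.mem_insert_of_mem _ rfl)
    have hq : algebraMap N (AlgebraicClosure N)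
        (MvPolynomial.aeval z F₀ / MvPolynomial.aeval z G₀) ≠ 0 := by
      rw [Ne, map_eq_zero]
      exact div_ne_zero h1 h2
    refine curve_const hI hN φ z Δ' (dnum_crv hz hΔ') hn hq ?_ hy hy'
    intro A hA htop g hg
    obtain ⟨w, hw⟩ := exists_above hN A hA htop
    obtain ⟨B, hB1, hB2, hB3⟩ := hAB A hA
    obtain ⟨E, hEJ, hEv⟩ := hzJ w
    obtain ⟨m', hm'⟩ := hJh E hEJ
    have h3 := hJ B hB1 ⟨E, hEJ, (hB2 E m' hm').2
      ((above_nval w A hA hw z hz0 E m' hm').2 hEv)⟩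
    have h4 := hB3 φ n F₀ (Set.mem_insert _ _) G₀ (Set.mem_insert_of_mem _ rfl) ⟨d, hF, hG⟩ h3
    rw [h4 g hg, map_one, max_self, mul_one]

end Pool.Agent.TT
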