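import Mathlib
import Pool.Agent.TT.Gv

set_option autoImplicit false
set_option linter.unusedSectionVars false

/-! TT-25. Transport of structure. `MRel I (A.comap τ) δ c r e t ↔ MRel I A (δ.map τ) (τ c) (τ r) e t` (compose the
place with `τ`, resp. its inverse), so the masses agree (`mass_congr`); `(δ.map τ).rts` is the image of
`δ.rts`; `Eqv`, `ncl`, `gv`, `gn` are transported (the value groups of `A.comap τ` and `A` are different
types: compare via `exists_gv`, `gv_eq` and `(A.comap τ).valuation x ≤ (A.comap τ).valuation y ↔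
A.valuation (τ x) ≤ A.valuation (τ y)`, as in TT-24). -/

namespace Pool.Agent.TT

open Pool.Agent.Helper16 Pool.Agent.Helper16.BB Pool.Agent.ThF Polynomial

namespace FRMapAux

variable {k σ : Type} [Field k] {F F' : Type} [Field F] [Algebra k F] [Field F'] [Algebra k F']

theorem val_le (τ : F ≃ₐ[k] F') (A : ValuationSubring F') (x y : F) :
    (A.comap (τ : F →+* F')).valuation x ≤ (A.comap (τ : F →+* F')).valuation y ↔
      A.valuation (τ x) ≤ A.valuation (τ y) := by
  rw [ValuationSubring.valuation_le_iff, ValuationSubring.valuation_le_iff]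
  constructor
  · rintro ⟨a, ha⟩
    refine ⟨⟨τ a, a.2⟩, ?_⟩
    rw [← ha, map_mul]
  · rintro ⟨b, hb⟩
    refine ⟨⟨τ.symm b, ?_⟩, ?_⟩
    · rw [ValuationSubring.mem_comap]
      simp
    · apply τ.injective
      rw [map_mul]
      simpa using hb

theorem val_eq (τ : F ≃ₐ[k] F') (A : ValuationSubring F') (x y : F) :
    (A.comap (τ : F →+* F')).valuation x = (A.comap (τ : F →+* F')).valuation y ↔
      A.valuation (τ x) = A.valuation (τ y) := by
  rw [le_antisymm_iff, le_antisymm_iff, val_le, val_le]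

theorem val_lt (τ : F ≃ₐ[k] F') (A : ValuationSubring F') (x y : F) :
    (A.comap (τ : F →+* F')).valuation x < (A.comap (τ : F →+* F')).valuation y ↔
      A.valuation (τ x) < A.valuation (τ y) := by
  rw [lt_iff_not_ge, lt_iff_not_ge, val_le]

theorem eqv_map (τ : F ≃ₐ[k] F') (A : ValuationSubring F') (c r c' r' : F) :
    Eqv A (τ c) (τ r) (τ c') (τ r') ↔ Eqv (A.comap (τ : F →+* F')) c r c' r' := by
  unfold Eqv
  rw [val_eq, val_le, map_sub τ c c']

/-- Transport of a place. -/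
noncomputable def tp (τ : F ≃ₐ[k] F') {L : Type} [Field L] [Algebra k L] (π : Pl k F' L) :
    Pl k F L where
  A := π.A.comap (τ : F →+* F')
  r := π.r.comp (((τ : F →+* F').comp (π.A.comap (τ : F →+* F')).subtype).codRestrict
    π.A.toSubring (fun x => x.2))
  loc := by
    intro x
    have h1 := π.loc ⟨τ x, x.2⟩
    have h2 := val_lt τ π.A (x : F) 1
    rw [map_one, map_one, map_one] at h2
    rw [h2]
    exact h1
  hk := by
    intro a
    obtain ⟨h, h'⟩ := π.hk a
    have h3 : τ (algebraMap k F a) = algebraMap k F' a := τ.commutes a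
    refine ⟨?_, ?_⟩
    · rw [ValuationSubring.mem_comap]
      show τ (algebraMap k F a) ∈ π.A
      rw [h3]
      exact h
    · rw [← h']
      show π.r ⟨τ (algebraMap k F a), _⟩ = _
      congr 1
      exact Subtype.ext h3

theorem tp_sp (τ : F ≃ₐ[k] F') {L : Type} [Field L] [Algebra k L] (π : Pl k F' L) (x : F) (y : L) :
    (tp τ π).Sp x y ↔ π.Sp (τ x) y := Iff.rfl

theorem tr_map (τ : F ≃ₐ[k] F') (c r : F) (f : F[X]) :
    (tr c r f).map (τ : F →+* F') = tr (τ c) (τ r) (f.map (τ : F →+* F')) := by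
  unfold tr
  rw [Polynomial.map_comp]
  simp

theorem tp_spp (τ : F ≃ₐ[k] F') {L : Type} [Field L] [Algebra k L] (π : Pl k F' L) (e' : F')
    (c r : F) (f : F[X]) (g : L[X])
    (h : π.SpP (C e' * tr (τ c) (τ r) (f.map (τ : F →+* F'))) g) :
    (tp τ π).SpP (C (τ.symm e') * tr c r f) g := by
  intro i
  rw [tp_sp]
  have h1 := h i
  rw [← tr_map, coeff_C_mul, coeff_map] at h1
  rw [coeff_C_mul, map_mul, AlgEquiv.apply_symm_apply]
  exact h1

theorem mrel_map_aux [Finite σ] {I : Set (MvPolynomial σ (RatFunc k))} (τ : F ≃ₐ[k] F')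
    (A : ValuationSubring F')
    (δ : CD σ F) (c r : F) (e : ℕ) (t : Quo (wOne σ) I)
    (h : MRel I A (δ.map (τ : F →+* F')) (τ c) (τ r) e t) :
    MRel I (A.comap (τ : F →+* F')) δ c r e t := by
  obtain ⟨L, i1, i2, π, a, b, Q, hA, ⟨h1, h2, h3, e1, e2, h4, h5, h6, h7, h8⟩, hT⟩ := h
  refine ⟨L, i1, i2, tp τ π, a, b, Q, ?_, ⟨?_, h2, h3, τ.symm e1, τ.symm e2, ?_, ?_, ?_, ?_, ?_⟩,
    hT⟩
  · show π.A.comap (τ : F →+* F') = _
    rw [hA]
  · intro h
    exact h1 (by rw [h, map_zero])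
  · simpa using h4
  · simpa using h5
  · exact tp_spp τ π e1 c r δ.al a h6
  · exact tp_spp τ π e1 c r δ.be b h7
  · exact fun j => tp_spp τ π e2 c r (δ.P j) (Q j) (h8 j)

theorem map_symm (τ : F ≃ₐ[k] F') (δ : CD σ F) :
    (δ.map (τ : F →+* F')).map (τ.symm : F' →+* F) = δ := by
  have h1 : (τ.symm : F' →+* F).comp (τ : F →+* F') = RingHom.id F := by
    ext x
    simp
  cases δ with
  | mk al be P s =>
    unfold CD.map
    simp only [Polynomial.map_map, h1, Polynomial.map_id]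
    congr 1
    simp

theorem comap_symm (τ : F ≃ₐ[k] F') (A : ValuationSubring F') :
    (A.comap (τ : F →+* F')).comap (τ.symm : F' →+* F) = A := by
  ext x
  rw [ValuationSubring.mem_comap, ValuationSubring.mem_comap]
  simp

theorem mrel_map [Finite σ] {I : Set (MvPolynomial σ (RatFunc k))} (τ : F ≃ₐ[k] F')
    (A : ValuationSubring F')
    (δ : CD σ F) (c r : F) (e : ℕ) (t : Quo (wOne σ) I) :
    MRel I A (δ.map (τ : F →+* F')) (τ c) (τ r) e t ↔
    MRel I (A.comap (τ : F →+* F')) δ c r e t := by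
  constructor
  · exact mrel_map_aux τ A δ c r e t
  · intro h
    have h1 := mrel_map_aux τ.symm (A.comap (τ : F →+* F')) (δ.map (τ : F →+* F')) (τ c) (τ r) e t
    rw [map_symm, comap_symm, AlgEquiv.symm_apply_apply, AlgEquiv.symm_apply_apply] at h1
    exact h1 h

theorem mass_map [Finite σ] {I : Set (MvPolynomial σ (RatFunc k))}
    (φ : Quo (wOne σ) I →ₗ[ℚ] ℚ) (τ : F ≃ₐ[k] F') (A : ValuationSubring F')
    (δ : CD σ F) (c r : F) :
    mass φ A (δ.map (τ : F →+* F')) (τ c) (τ r) = mass φ (A.comap (τ : F →+* F')) δ c r := by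
  have h : (fun p : ℕ × Quo (wOne σ) I => MRel I A (δ.map (τ : F →+* F')) (τ c) (τ r) p.1 p.2) =
      fun p => MRel I (A.comap (τ : F →+* F')) δ c r p.1 p.2 := by
    funext p
    exact propext (mrel_map τ A δ c r p.1 p.2)
  have key : ∀ P Q : ℕ × Quo (wOne σ) I → Prop, P = Q →
      @dite ℚ (∃ p, P p) (Classical.propDecidable _)
        (fun h => (h.choose.1 : ℚ) * φ h.choose.2) (fun _ => 0) =
      @dite ℚ (∃ p, Q p) (Classical.propDecidable _)
        (fun h => (h.choose.1 : ℚ) * φ h.choose.2) (fun _ => 0) := by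
    rintro P _ rfl
    rfl
  exact key _ _ h

theorem mem_rts (τ : F ≃ₐ[k] F') (δ : CD σ F) (x : F) :
    τ x ∈ (δ.map (τ : F →+* F')).rts ↔ x ∈ δ.rts := by
  classical
  unfold CD.rts
  have h1 : (δ.map (τ : F →+* F')).al * (δ.map (τ : F →+* F')).be *
      ((δ.map (τ : F →+* F')).al - (δ.map (τ : F →+* F')).be) =
      (δ.al * δ.be * (δ.al - δ.be)).map (τ : F →+* F') := by
    simp [CD.map]
  rw [h1, Multiset.mem_toFinset, Multiset.mem_toFinset, mem_roots', mem_roots',
    Polynomial.map_ne_zero_iff τ.injective]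
  have h2 := Polynomial.isRoot_map_iff (f := (τ : F →+* F')) (p := δ.al * δ.be * (δ.al - δ.be))
    (x := x) τ.injective
  exact and_congr_right fun _ => h2

theorem ncl_map (τ : F ≃ₐ[k] F') (A : ValuationSubring F') (δ : CD σ F) (c r : F) :
    ncl A (δ.map (τ : F →+* F')) (τ c) (τ r) = ncl (A.comap (τ : F →+* F')) δ c r := by
  classical
  unfold ncl
  symm
  refine Finset.card_nbij' (fun p => (τ p.1, τ p.2)) (fun p => (τ.symm p.1, τ.symm p.2)) ?_ ?_ ?_ ?_
  · intro p hp
    simp only [Finset.coe_filter, Finset.mem_offDiag, Set.mem_ofPred_eq] at hp ⊢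
    rw [mem_rts, mem_rts, ← map_sub, eqv_map]
    exact ⟨⟨hp.1.1, hp.1.2.1, fun h => hp.1.2.2 (τ.injective h)⟩, hp.2⟩
  · intro p hp
    obtain ⟨p1, p2⟩ := p
    obtain ⟨x1, rfl⟩ := τ.surjective p1
    obtain ⟨x2, rfl⟩ := τ.surjective p2
    simp only [Finset.coe_filter, Finset.mem_offDiag, Set.mem_ofPred_eq] at hp ⊢
    rw [mem_rts, mem_rts, ← map_sub, eqv_map] at hp
    rw [AlgEquiv.symm_apply_apply, AlgEquiv.symm_apply_apply]
    exact ⟨⟨hp.1.1, hp.1.2.1, fun h => hp.1.2.2 (by rw [h])⟩, hp.2⟩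
  · intro p _
    simp
  · intro p _
    simp

theorem gv_map [Finite σ] (τ : F ≃ₐ[k] F') (A : ValuationSubring F') (δ : CD σ F) (hδ : δ.be ≠ 0) (c : F)
    {r : F} (hr : r ≠ 0) : ∃ w : F, gv (A.comap (τ : F →+* F')) δ c r =
      (A.comap (τ : F →+* F')).valuation w ∧
      gv A (δ.map (τ : F →+* F')) (τ c) (τ r) = A.valuation (τ w) := by
  obtain ⟨m, u, hm, hm0, hu0, ⟨i, hi⟩, h1, h2, h3, h4⟩ :=
    exists_gv (A.comap (τ : F →+* F')) hδ c hr
  refine ⟨m ^ δ.b / u, h4, ?_⟩
  have hb : (δ.map (τ : F →+* F')).b = δ.b := by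
    unfold CD.b CD.map
    simp [Polynomial.natDegree_map]
  have hco : ∀ i, (tr (τ c) (τ r) (δ.map (τ : F →+* F')).be).coeff i = τ ((tr c r δ.be).coeff i) := by
    intro i
    have h5 := congrArg (fun f => f.coeff i) (tr_map τ c r δ.be)
    simp only [coeff_map] at h5
    exact h5.symm
  have hs : (δ.map (τ : F →+* F')).s = τ δ.s := rfl
  refine (gv_eq (m := τ m) (u := τ u) ?_ ?_ ?_ ?_ ?_).trans ?_
  · rcases hm with hm | hm
    · left
      rw [hm, hs, map_sub]
    · right
      rw [hm]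
  · rw [hs, ← map_sub]
    exact (val_le τ A _ _).1 h1
  · exact (val_le τ A _ _).1 h2
  · exact ⟨i, by rw [hco, hi]⟩
  · intro j
    rw [hco]
    exact (val_le τ A _ _).1 (h3 j)
  · rw [hb, map_div₀ τ, map_pow τ]

theorem frel_aux [Finite k] [Finite σ] {I : Set (MvPolynomial σ (RatFunc k))}
    (φ : Quo (wOne σ) I →ₗ[ℚ] ℚ) (τ : F ≃ₐ[k] F') (A : ValuationSubring F')
    (δ : CD σ F) (g : F) (h : FRel φ (A.comap (τ : F →+* F')) δ g) :
    FRel φ A (δ.map (τ : F →+* F')) (τ g) := by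
  classical
  obtain ⟨hg, n, z, hn, hz, hp⟩ := h
  have hmem : ∀ p : F × F, (τ p.1, τ p.2) ∈ (δ.map (τ : F →+* F')).rts.offDiag ↔
      p ∈ δ.rts.offDiag := by
    intro p
    rw [Finset.mem_offDiag, Finset.mem_offDiag, mem_rts, mem_rts]
    simp
  refine ⟨by simpa using hg, n, fun q => z (τ.symm q.1, τ.symm q.2), hn, ?_, ?_⟩
  · rintro ⟨q1, q2⟩ hq
    obtain ⟨x1, rfl⟩ := τ.surjective q1
    obtain ⟨x2, rfl⟩ := τ.surjective q2
    have hq' := (hmem (x1, x2)).1 hq
    have h1 := hz _ hq'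
    simp only [AlgEquiv.symm_apply_apply] at h1 ⊢
    rw [h1, ← map_sub, mass_map, ncl_map]
  · by_cases hδ : δ.be = 0
    · have h0 : δ.rts = ∅ := by
        unfold CD.rts
        rw [hδ]
        simp
      have h0' : (δ.map (τ : F →+* F')).rts = ∅ := by
        unfold CD.rts CD.map
        simp only [hδ]
        simp
      rw [h0] at hp
      rw [h0']
      simp only [Finset.offDiag_empty, Finset.prod_empty] at hp ⊢
      have h2 := (val_eq τ A (g ^ n) 1).1 (by rw [map_pow, hp, map_one])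
      rw [map_pow, map_pow, map_one, map_one] at h2
      exact h2
    · have hw : ∀ p : F × F, ∃ w : F, p ∈ δ.rts.offDiag →
          gv (A.comap (τ : F →+* F')) δ p.1 (p.2 - p.1) = (A.comap (τ : F →+* F')).valuation w ∧
          gv A (δ.map (τ : F →+* F')) (τ p.1) (τ (p.2 - p.1)) = A.valuation (τ w) := by
        intro p
        by_cases hp' : p ∈ δ.rts.offDiag
        · obtain ⟨w, hw⟩ := gv_map τ A δ hδ p.1 (r := p.2 - p.1)
            (sub_ne_zero.2 fun h => (Finset.mem_offDiag.1 hp').2.2 h.symm)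
          exact ⟨w, fun _ => hw⟩
        · exact ⟨0, fun h => absurd h hp'⟩
      choose w hw using hw
      have h1 : (A.comap (τ : F →+* F')).valuation (g ^ n) =
          (A.comap (τ : F →+* F')).valuation (∏ p ∈ δ.rts.offDiag, w p ^ z p) := by
        rw [map_pow, hp, map_prod]
        refine Finset.prod_congr rfl fun p hp' => ?_
        rw [map_zpow₀, (hw p hp').1]
      have h2 := (val_eq τ A _ _).1 h1
      rw [map_pow, map_pow, map_prod, map_prod] at h2
      rw [h2]
      refine Finset.prod_nbij' (fun p => (τ p.1, τ p.2)) (fun p => (τ.symm p.1, τ.symm p.2))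
        ?_ ?_ ?_ ?_ ?_
      · intro p hp'
        exact (hmem p).2 hp'
      · rintro ⟨q1, q2⟩ hq
        obtain ⟨x1, rfl⟩ := τ.surjective q1
        obtain ⟨x2, rfl⟩ := τ.surjective q2
        simp only [AlgEquiv.symm_apply_apply]
        exact (hmem (x1, x2)).1 hq
      · intro p _
        simp
      · intro p _
        simp
      · intro p hp'
        simp only [AlgEquiv.symm_apply_apply]
        rw [map_zpow₀, map_zpow₀, ← map_sub, (hw p hp').2]

end FRMapAux

variable {k σ : Type} [Field k] [Finite k] [Finite σ] {I : Set (MvPolynomial σ (RatFunc k))}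
variable {F : Type} [Field F] [IsAlgClosed F] [Algebra k F]

/-- R5. Transport by isomorphisms. -/
theorem frel_map (φ : Quo (wOne σ) I →ₗ[ℚ] ℚ) {F' : Type} [Field F'] [IsAlgClosed F']
    [Algebra k F'] (τ : F ≃ₐ[k] F') (A : ValuationSubring F') (δ : CD σ F) (g : F) :
    FRel φ A (δ.map (τ : F →+* F')) (τ g) ↔ FRel φ (A.comap (τ : F →+* F')) δ g := by
  constructor
  · intro h
    have h1 := FRMapAux.frel_aux φ τ.symm (A.comap (τ : F →+* F')) (δ.map (τ : F →+* F')) (τ g)
    rw [FRMapAux.map_symm, FRMapAux.comap_symm, AlgEquiv.symm_apply_apply] at h1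
    exact h1 h
  · exact FRMapAux.frel_aux φ τ A δ g

end Pool.Agent.TT
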