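import Mathlib
import Pool.Agent.TT.DDefs
import Pool.Agent.TT.FRMap
import Pool.Agent.TT.Frels

set_option autoImplicit false
set_option linter.unusedSectionVars false

/-! Project TT: further properties of `FRels`: permutations, transport, `FVal`. -/

namespace Pool.Agent.TT

open Pool.Agent.Helper16 Pool.Agent.Helper16.BB Pool.Agent.Helper16.GT Pool.Agent.ThF Polynomial

variable {k σ : Type} [Field k] [Finite k] [Finite σ] {I : Set (MvPolynomial σ (RatFunc k))}
variable {F : Type} [Field F] [IsAlgClosed F] [Algebra k F] {m : ℕ}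

theorem frels_perm {φ : Quo (wOne σ) I →ₗ[ℚ] ℚ} {A : ValuationSubring F} {Δ : Fin m → CD σ F}
    {g : F} (p : Fin m ≃ Fin m) (h : FRels φ A (fun l => Δ (p l)) g) : FRels φ A Δ g := by
  obtain ⟨γ, hγ, h⟩ := h
  refine ⟨fun l => γ (p.symm l), fun l => ?_, ?_⟩
  · have h1 := hγ (p.symm l)
    simpa only [Equiv.apply_symm_apply] using h1
  · rw [h]
    congr 1
    exact (Equiv.prod_comp p.symm γ).symm

theorem frels_map (φ : Quo (wOne σ) I →ₗ[ℚ] ℚ) {F' : Type} [Field F'] [IsAlgClosed F']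
    [Algebra k F'] (τ : F ≃ₐ[k] F') (A : ValuationSubring F') (Δ : Fin m → CD σ F) {g : F}
    (h : FRels φ (A.comap (τ : F →+* F')) Δ g) :
    FRels φ A (fun l => (Δ l).map (τ : F →+* F')) (τ g) := by
  obtain ⟨γ, hγ, h⟩ := h
  refine ⟨fun l => τ (γ l), fun l => (frel_map φ τ A (Δ l) (γ l)).2 (hγ l), ?_⟩
  rw [← map_prod]
  by_cases hg : g = 0
  · subst hg
    rw [map_zero] at h
    have h1 : ∏ l, γ l = 0 := by
      by_contra h0
      exact ((A.comap (τ : F →+* F')).valuation.ne_zero_iff.2 h0) h.symm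
    rw [h1]
  · have h0 : ∏ l, γ l ≠ 0 := Finset.prod_ne_zero_iff.2 fun l _ => (hγ l).1
    have key : ∀ x y : F, y ≠ 0 →
        (A.comap (τ : F →+* F')).valuation x ≤ (A.comap (τ : F →+* F')).valuation y →
        A.valuation (τ x) ≤ A.valuation (τ y) := by
      intro x y hy hxy
      rw [val_le_iff _ _ _ hy, ValuationSubring.mem_comap] at hxy
      rw [val_le_iff _ _ _ (by simpa using hy), ← map_div₀]
      exact hxy
    exact le_antisymm (key _ _ h0 h.le) (key _ _ hg h.ge)

/-- `FVal` from one representative. -/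
theorem fval_of {φ : Quo (wOne σ) I →ₗ[ℚ] ℚ} {A : ValuationSubring F} {Δ : Fin m → CD σ F} {g : F}
    (h : FRels φ A Δ g) (n : ℕ) (q : F) (hq : A.valuation g ^ n = A.valuation q) :
    FVal φ n A Δ q := by
  intro g' hg'
  rw [(frels_iff φ h g').1 hg', hq]

end Pool.Agent.TT
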