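import Mathlib
import Pool.Agent.TT.DPrime
import Pool.Agent.TT.DRels

set_option autoImplicit false
set_option linter.unusedSectionVars false

/-! Project TT, block D6: the divisor of a functional. -/

namespace Pool.Agent.TT

open Pool.Agent.Helper16 Pool.Agent.Helper16.BB Pool.Agent.Helper16.GT Pool.Agent.ThF Polynomial

variable {k σ : Type} [Field k] [Finite k] [Finite σ] {I : Set (MvPolynomial σ (RatFunc k))}
variable {Fx : Type} [Field Fx] [Algebra k Fx] [Algebra (RatFunc k) Fx]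
  [IsScalarTower k (RatFunc k) Fx] {η : σ → Fx} {j₀ : σ}

/-- Values and an automorphism. -/
theorem dq_val_le {E : Type} [Field E] (B B' : ValuationSubring E) (τ : E ≃+* E)
    (hτ : ∀ x, x ∈ B ↔ τ x ∈ B') {x y : E} (h : B.valuation x ≤ B.valuation y) :
    B'.valuation (τ x) ≤ B'.valuation (τ y) := by
  by_cases hy : y = 0
  · subst hy
    rw [map_zero] at h
    have hx : x = 0 := by simpa using h
    rw [hx]
  · have hy' : τ y ≠ 0 := by simpa using hy
    rw [val_le_iff _ _ _ hy] at h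
    rw [val_le_iff _ _ _ hy', ← map_div₀]
    exact (hτ _).1 h

theorem dq_val_eq {E : Type} [Field E] (B B' : ValuationSubring E) (τ : E ≃+* E)
    (hτ : ∀ x, x ∈ B ↔ τ x ∈ B') {x y : E} (h : B.valuation x = B.valuation y) :
    B'.valuation (τ x) = B'.valuation (τ y) :=
  le_antisymm (dq_val_le B B' τ hτ h.le) (dq_val_le B B' τ hτ h.ge)

/-- Transport of representatives of the value of the functional by an automorphism. -/
theorem dq_frels {m : ℕ} (Δ : Fin m → CD σ (AlgebraicClosure Fx)) (hst : Stab Δ)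
    (φ : Quo (wOne σ) I →ₗ[ℚ] ℚ) (B B' : ValuationSubring (AlgebraicClosure Fx))
    (τ : AlgebraicClosure Fx ≃ₐ[Fx] AlgebraicClosure Fx) (hτ : ∀ x, x ∈ B ↔ τ x ∈ B')
    {g : AlgebraicClosure Fx} (h : FRels φ B Δ g) : FRels φ B' Δ (τ g) := by
  obtain ⟨p, hp⟩ := hst τ
  have hB : B = B'.comap ((τ.restrictScalars k : AlgebraicClosure Fx ≃ₐ[k] AlgebraicClosure Fx) :
      AlgebraicClosure Fx →+* AlgebraicClosure Fx) := by
    ext x
    rw [ValuationSubring.mem_comap]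
    exact hτ x
  rw [hB] at h
  have h1 := frels_map φ (τ.restrictScalars k) B' Δ h
  have h2 : (fun l => (Δ l).map ((τ.restrictScalars k :
      AlgebraicClosure Fx ≃ₐ[k] AlgebraicClosure Fx) :
      AlgebraicClosure Fx →+* AlgebraicClosure Fx)) = fun l => Δ (p l) := by
    funext l
    exact hp l
  rw [h2] at h1
  exact frels_perm p h1

/-- The rational number `r` is the value of the functional, the value `u` being the unit. -/
def DqRel (φ : Quo (wOne σ) I →ₗ[ℚ] ℚ) {E : Type} [Field E] [Algebra k E]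
    (B : ValuationSubring E) {m : ℕ} (Δ : Fin m → CD σ E) (u : B.ValueGroup) (r : ℚ) : Prop :=
  ∃ (g : E) (M : ℕ) (a : ℤ), FRels φ B Δ g ∧ 0 < M ∧ r = a / M ∧ B.valuation g ^ M = u ^ a

section rel

variable {E : Type} [Field E] [IsAlgClosed E] [Algebra k E] {B : ValuationSubring E} {m : ℕ}
  {Δ : Fin m → CD σ E} {u : B.ValueGroup} {φ ψ : Quo (wOne σ) I →ₗ[ℚ] ℚ}

theorem dq_unique (hu0 : u ≠ 0) (hu1 : u < 1) {r r' : ℚ} (h : DqRel φ B Δ u r)
    (h' : DqRel φ B Δ u r') : r = r' := by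
  obtain ⟨g, M, a, hg, hM, rfl, hv⟩ := h
  obtain ⟨g', M', a', hg', hM', rfl, hv'⟩ := h'
  rw [(frels_iff φ hg g').1 hg'] at hv'
  have h1 : u ^ (a * (M' : ℤ)) = u ^ (a' * (M : ℤ)) := by
    rw [zpow_mul, zpow_mul, zpow_natCast, zpow_natCast, ← hv, ← hv', ← pow_mul, ← pow_mul,
      mul_comm]
  have h2 : a * (M' : ℤ) = a' * (M : ℤ) :=
    (zpow_right_strictAnti₀ (zero_lt_iff.2 hu0) hu1).injective h1
  have hM0 : (M : ℚ) ≠ 0 := by exact_mod_cast hM.ne'
  have hM0' : (M' : ℚ) ≠ 0 := by exact_mod_cast hM'.ne'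
  rw [div_eq_div_iff hM0 hM0']
  exact_mod_cast h2

theorem dq_add (hu0 : u ≠ 0) {r s : ℚ} (h : DqRel φ B Δ u r) (h' : DqRel ψ B Δ u s) :
    DqRel (φ + ψ) B Δ u (r + s) := by
  obtain ⟨g, M, a, hg, hM, rfl, hv⟩ := h
  obtain ⟨g', M', a', hg', hM', rfl, hv'⟩ := h'
  have hM0 : (M : ℚ) ≠ 0 := by exact_mod_cast hM.ne'
  have hM0' : (M' : ℚ) ≠ 0 := by exact_mod_cast hM'.ne'
  refine ⟨g * g', M * M', a * M' + M * a', frels_mul φ ψ hg hg', Nat.mul_pos hM hM', ?_, ?_⟩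
  · rw [div_add_div _ _ hM0 hM0']
    push_cast
    rfl
  · rw [map_mul, mul_pow, pow_mul, hv, mul_comm M M', pow_mul, hv', zpow_add₀ hu0, zpow_mul,
      mul_comm (M : ℤ) a', zpow_mul, zpow_natCast, zpow_natCast]

theorem dq_zsmul (c : ℤ) {r : ℚ} (h : DqRel φ B Δ u r) :
    DqRel ((c : ℚ) • φ) B Δ u (c * r) := by
  obtain ⟨g, M, a, hg, hM, rfl, hv⟩ := h
  refine ⟨g ^ c, M, c * a, frels_zsmul hg c, hM, ?_, ?_⟩
  · push_cast
    rw [mul_div_assoc]
  · rw [map_zpow₀, ← zpow_natCast, ← zpow_mul, mul_comm c (M : ℤ), zpow_mul, zpow_natCast, hv,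
      ← zpow_mul, mul_comm a c]

/-- The value of the functional from the rational number. -/
theorem dq_fval {r : ℚ} (h : DqRel φ B Δ u r) (n : ℕ) (a : ℤ) (hr : (n : ℚ) * r = a) (q : E)
    (hq : B.valuation q = u ^ a) : FVal φ n B Δ q := by
  obtain ⟨g, M, b, hg, hM, rfl, hv⟩ := h
  refine fval_of hg n q ?_
  have hM0 : (M : ℚ) ≠ 0 := by exact_mod_cast hM.ne'
  have h1 : (b : ℤ) * (n : ℤ) = a * (M : ℤ) := by
    have h2 : (b : ℚ) * n = a * M := by
      rw [← hr]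
      field_simp
    exact_mod_cast h2
  have h3 : (B.valuation g ^ n) ^ M = B.valuation q ^ M := by
    rw [← pow_mul, mul_comm n M, pow_mul, hv, hq, ← zpow_natCast, ← zpow_mul, h1, zpow_mul,
      zpow_natCast]
  exact (pow_left_inj₀ zero_le zero_le hM.ne').1 h3

end rel

theorem dq_aeval (H : MvPolynomial σ (RatFunc k)) :
    MvPolynomial.aeval (ηo η) H = algebraMap Fx (AlgebraicClosure Fx) (MvPolynomial.aeval η H) := by
  exact MvPolynomial.aeval_algebraMap_apply (AlgebraicClosure Fx) η H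

/-- Existence of the rational number. -/
theorem dq_exists (hI : ∀ P ∈ I, ∃ d, P.IsHomogeneous d) (hpr : (Ideal.span I).IsPrime)
    (hη : IsGen I η j₀) {m : ℕ} (Δ : Fin m → CD σ (AlgebraicClosure Fx))
    (hΔ : CFam I Δ (ηo η)) (P : Ideal (MvPolynomial σ (RatFunc k)))
    (B : ValuationSubring (AlgebraicClosure Fx)) (u : B.ValueGroup)
    (hu : ∀ (F G : MvPolynomial σ (RatFunc k)) (m : ℕ), F.IsHomogeneous m → G.IsHomogeneous m →
      F ∉ Ideal.span I → G ∉ Ideal.span I →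
      B.valuation (MvPolynomial.aeval (ηo η) F / MvPolynomial.aeval (ηo η) G) =
        u ^ ((ordP (Ideal.span I) P F : ℤ) - (ordP (Ideal.span I) P G : ℤ)))
    (φ : Quo (wOne σ) I →ₗ[ℚ] ℚ) : ∃ r, DqRel φ B Δ u r := by
  obtain ⟨g, hg⟩ := frels_exists hI φ B Δ hΔ.ok
  obtain ⟨M, x, hM, hx, hMx⟩ := gs_exists_pow (N := Fx) B.valuation g hg.ne_zero
    (Algebra.IsAlgebraic.isAlgebraic g)
  obtain ⟨F, G, e, hF, hG, hG1, hFG⟩ := d4_quot hI hpr hη x
  have hF1 : F ∉ Ideal.span I := by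
    intro h
    rw [(eta_mem hη F e hF).2 h, zero_div] at hFG
    exact hx (by simpa using hFG)
  refine ⟨_, g, M, (ordP (Ideal.span I) P F : ℤ) - (ordP (Ideal.span I) P G : ℤ), hg, hM, rfl, ?_⟩
  rw [hMx, hFG, hu F G e hF hG hF1 hG1]

/-- D6a. If `FVal` holds for one valuation ring with centre `P` then for all: conjugacy (`d4_conj`),
`frels_map`, `frels_perm` and `Stab`; the right hand side is in `Fx` so it is fixed. -/
theorem d6_conj (hI : ∀ P ∈ I, ∃ d, P.IsHomogeneous d) (hpr : (Ideal.span I).IsPrime)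
    (hreg : RegOne (Ideal.span I)) (hη : IsGen I η j₀) {m : ℕ}
    (Δ : Fin m → CD σ (AlgebraicClosure Fx)) (hΔ : CFam I Δ (ηo η)) (hst : Stab Δ)
    (φ : Quo (wOne σ) I →ₗ[ℚ] ℚ) (P : Ideal (MvPolynomial σ (RatFunc k)))
    (hP : IsPD (Ideal.span I) P) (B B' : ValuationSubring (AlgebraicClosure Fx)) (hB : OverK k B)
    (hB' : OverK k B') (hc : Cen B (ηo η) P) (hc' : Cen B' (ηo η) P) (n : ℕ)
    (F G : MvPolynomial σ (RatFunc k))
    (h : FVal φ n B Δ (MvPolynomial.aeval (ηo η) F / MvPolynomial.aeval (ηo η) G)) :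
    FVal φ n B' Δ (MvPolynomial.aeval (ηo η) F / MvPolynomial.aeval (ηo η) G) := by
  obtain ⟨τ, hτ⟩ := d4_conj hI hpr hreg hη P hP B B' hB hB' hc hc'
  obtain ⟨g, hg⟩ := frels_exists hI φ B Δ hΔ.ok
  have h1 := dq_frels Δ hst φ B B' τ hτ hg
  refine fval_of h1 n _ ?_
  have h2 := h g hg
  rw [← map_pow] at h2
  have h3 := dq_val_eq B B' (τ : AlgebraicClosure Fx ≃+* AlgebraicClosure Fx) hτ h2
  rw [map_pow, map_pow] at h3
  have h4 : ∀ H : MvPolynomial σ (RatFunc k),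
      τ (MvPolynomial.aeval (ηo η) H) = MvPolynomial.aeval (ηo η) H := by
    intro H
    rw [dq_aeval, AlgEquiv.commutes]
  have h5 : τ (MvPolynomial.aeval (ηo η) F / MvPolynomial.aeval (ηo η) G) =
      MvPolynomial.aeval (ηo η) F / MvPolynomial.aeval (ηo η) G := by
    rw [map_div₀, h4, h4]
  have h6 : (τ : AlgebraicClosure Fx ≃+* AlgebraicClosure Fx)
      (MvPolynomial.aeval (ηo η) F / MvPolynomial.aeval (ηo η) G) =
      MvPolynomial.aeval (ηo η) F / MvPolynomial.aeval (ηo η) G := h5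
  rw [h6] at h3
  exact h3

/-- D6. The divisor of the functional, with rational coefficients. Proof: choose (by `P` only) `B` with
centre `P` (`d4_exists`) and `π, π'` from `d4_ord`, `ϖ = π / π'`. For `φ` take `g` with
`FRels φ B Δ g` (`frels_exists`); by `gs_exists_pow` and `d4_quot`, `d4_ord` the value of `g ^ M` is
that of `ϖ ^ a`, `M > 0`; the quotient `d φ P = a / M` is unique since the value of `ϖ` is `< 1`, which
gives additivity by `frels_add`, `frels_zsmul`. If `n * d φ P = ord F - ord G` then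
`v(g) ^ (n M) = v(F / G) ^ M`, so `v(g) ^ n = v(F / G)`. For the other valuation rings: `d6_conj`. -/
theorem d6_dq (hI : ∀ P ∈ I, ∃ d, P.IsHomogeneous d) (hpr : (Ideal.span I).IsPrime)
    (hreg : RegOne (Ideal.span I)) (hη : IsGen I η j₀) {m : ℕ}
    (Δ : Fin m → CD σ (AlgebraicClosure Fx)) (hΔ : CFam I Δ (ηo η)) (hst : Stab Δ) :
    ∃ d : (Quo (wOne σ) I →ₗ[ℚ] ℚ) → {P // IsPD (Ideal.span I) P} → ℚ,
      (∀ φ ψ P, d (φ + ψ) P = d φ P + d ψ P) ∧ (∀ (c : ℤ) φ P, d ((c : ℚ) • φ) P = c * d φ P) ∧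
      ∀ φ P (n : ℕ) (a : ℤ), (n : ℚ) * d φ P = a → DivAt φ n η Δ P.1 a := by
  have key : ∀ P : {P // IsPD (Ideal.span I) P}, ∃ (B : ValuationSubring (AlgebraicClosure Fx))
      (u : B.ValueGroup), OverK k B ∧ Cen B (ηo η) P.1 ∧ u ≠ 0 ∧ u < 1 ∧
      ∀ (F G : MvPolynomial σ (RatFunc k)) (m : ℕ), F.IsHomogeneous m → G.IsHomogeneous m →
        F ∉ Ideal.span I → G ∉ Ideal.span I →
        B.valuation (MvPolynomial.aeval (ηo η) F / MvPolynomial.aeval (ηo η) G) =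
          u ^ ((ordP (Ideal.span I) P.1 F : ℤ) - (ordP (Ideal.span I) P.1 G : ℤ)) := by
    intro P
    obtain ⟨j, hj⟩ := P.2.proj
    obtain ⟨B, hB, hc⟩ := d4_exists hI hη P.1 P.2.prime P.2.hom P.2.lt.le j hj
    obtain ⟨π, π', d, hπ, hπ', hπ1, hπ1', h⟩ := d4_ord hI hpr hreg hη P.1 P.2
    obtain ⟨h1, h2⟩ := h B hB hc
    refine ⟨B, _, hB, hc, ?_, h1, h2⟩
    rw [B.valuation.ne_zero_iff]
    exact div_ne_zero (fun h0 => hπ1 ((eta_mem hη π d hπ).1 h0))
      (fun h0 => hπ1' ((eta_mem hη π' d hπ').1 h0))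
  choose B u hB hc hu0 hu1 hu using key
  choose d hd using fun (φ : Quo (wOne σ) I →ₗ[ℚ] ℚ) (P : {P // IsPD (Ideal.span I) P}) =>
    dq_exists hI hpr hη Δ hΔ P.1 (B P) (u P) (hu P) φ
  refine ⟨d, fun φ ψ P => ?_, fun c φ P => ?_, fun φ P n a ha => ?_⟩
  · exact dq_unique (hu0 P) (hu1 P) (hd (φ + ψ) P) (dq_add (hu0 P) (hd φ P) (hd ψ P))
  · exact dq_unique (hu0 P) (hu1 P) (hd _ P) (dq_zsmul c (hd φ P))
  · intro B' hB' hc' F G e hF hG hF1 hG1 hFG
    refine d6_conj hI hpr hreg hη Δ hΔ hst φ P.1 P.2 (B P) B' (hB P) hB' (hc P) hc' n F G ?_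
    refine dq_fval (hd φ P) n a ha _ ?_
    rw [hu P F G e hF hG hF1 hG1, hFG]

end Pool.Agent.TT
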