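import Mathlib
import Pool.Agent.TT.DPrime
import Pool.Agent.TT.Frels

set_option autoImplicit false
set_option linter.unusedSectionVars false

/-! Project TT, block D7: finite support. -/

namespace Pool.Agent.TT

open Pool.Agent.Helper16 Pool.Agent.Helper16.BB Pool.Agent.Helper16.GT Pool.Agent.ThF Polynomial

variable {k σ : Type} [Field k] [Finite k] [Finite σ] {I : Set (MvPolynomial σ (RatFunc k))}
variable {Fx : Type} [Field Fx] [Algebra k Fx] [Algebra (RatFunc k) Fx]
  [IsScalarTower k (RatFunc k) Fx] {η : σ → Fx} {j₀ : σ}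

/-- D7. Finite support. Proof: if there are infinitely many `P` with `d P ≠ 0`, take an ultrafilter on
this set which contains no finite set, valuation rings `B_P` with centre `P` (`d4_exists`), `B` the
limit. Every form `∉ span I` is in finitely many `P` (`d1_fin`), so by `nval_lim` and `d4_top` `B = ⊤`.
Take `g` from `frels_ultra`: `g` is a unit of `B = ⊤`, so of most `B_P`. On the other hand, with
`n = (d P).den`, `a = (d P).num ≠ 0`, `v_P(g) ^ n = v_P(ϖ_P) ^ a ≠ 1`, where `ϖ_P = π / π'` from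
`d4_ord` and `DivAt` is applied with `F, G` from `d1_pair`. -/
theorem d7_finite (hI : ∀ P ∈ I, ∃ d, P.IsHomogeneous d) (hpr : (Ideal.span I).IsPrime)
    (hreg : RegOne (Ideal.span I)) (hη : IsGen I η j₀) {m : ℕ}
    (Δ : Fin m → CD σ (AlgebraicClosure Fx)) (hΔ : CFam I Δ (ηo η)) (φ : Quo (wOne σ) I →ₗ[ℚ] ℚ)
    (d : {P // IsPD (Ideal.span I) P} → ℚ)
    (hd : ∀ P (n : ℕ) (a : ℤ), (n : ℚ) * d P = a → DivAt φ n η Δ P.1 a) :
    {P | d P ≠ 0}.Finite := by
  classical
  by_contra hinf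
  have hinf' : {P | d P ≠ 0}.Infinite := hinf
  have : Infinite {P | d P ≠ 0} := hinf'.to_subtype
  have hspan := d1_span hI
  have hx : ηo η ≠ 0 := eta_ne hη
  -- valuation rings with the given centres
  have hex : ∀ P : {P | d P ≠ 0}, ∃ B : ValuationSubring (AlgebraicClosure Fx),
      OverK k B ∧ Cen B (ηo η) P.1.1 := by
    intro P
    obtain ⟨j, hj⟩ := P.1.2.proj
    exact d4_exists hI hη P.1.1 P.1.2.prime P.1.2.hom P.1.2.lt.le j hj
  choose B hBK hBC using hex
  set U : Ultrafilter {P | d P ≠ 0} := Filter.hyperfilter {P | d P ≠ 0} with hU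
  have hlim : ∀ x, x ∈ Helper51.TT.ulim U B ↔ ∀ᶠ i in (U : Filter {P | d P ≠ 0}), x ∈ B i :=
    fun x => Iff.rfl
  obtain ⟨hOv, hNV⟩ := nval_lim (k := k) U B (Helper51.TT.ulim U B) hlim
    (Filter.Eventually.of_forall hBK) (ηo η) hx
  -- the limit is everything
  have htop : Helper51.TT.ulim U B = ⊤ := by
    refine d4_top hI hpr hη _ hOv fun F n hF hFI => ?_
    rw [hNV F n hF]
    have hfin := d1_fin hpr hspan F n hF hFI
    have hfin' : {P : {P | d P ≠ 0} | F ∈ P.1.1}.Finite := by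
      have hinj : Set.InjOn (fun P : {P | d P ≠ 0} => P.1.1) {P : {P | d P ≠ 0} | F ∈ P.1.1} := by
        intro P _ Q _ h
        exact Subtype.ext (Subtype.ext h)
      refine Set.Finite.of_finite_image (hfin.subset ?_) hinj
      rintro _ ⟨P, hP, rfl⟩
      exact ⟨P.1.2, hP⟩
    have hcof : {P : {P | d P ≠ 0} | F ∈ P.1.1}ᶜ ∈ (U : Filter {P | d P ≠ 0}) :=
      Filter.compl_mem_hyperfilter_of_finite hfin'
    filter_upwards [hcof] with P hP
    by_contra h
    exact hP ((hBC P F n hF).2 h)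
  obtain ⟨g, hg, hgU⟩ := frels_ultra hI φ Δ hΔ.ok U B (Helper51.TT.ulim U B) hlim
  have h1 : ∀ᶠ i in (U : Filter {P | d P ≠ 0}), g ∈ B i := by
    rw [← hlim, htop]
    exact ValuationSubring.mem_top g
  have h2 : ∀ᶠ i in (U : Filter {P | d P ≠ 0}), g⁻¹ ∈ B i := by
    rw [← hlim, htop]
    exact ValuationSubring.mem_top g⁻¹
  obtain ⟨i, hgi, hg1, hg2⟩ := (hgU.and (h1.and h2)).exists
  have hg0 : g ≠ 0 := hg.ne_zero
  have hv : (B i).valuation g = 1 := by
    refine le_antisymm (((B i).valuation_le_one_iff g).2 hg1) ?_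
    have h3 := ((B i).valuation_le_one_iff g⁻¹).2 hg2
    rw [map_inv₀] at h3
    have h4 : (B i).valuation g ≠ 0 := (Valuation.ne_zero_iff _).2 hg0
    exact (inv_le_one₀ (zero_lt_iff.2 h4)).1 h3
  -- contradiction at `i`
  have hn : ((d i.1).den : ℚ) * d i.1 = (d i.1).num := by
    rw [mul_comm]
    exact Rat.mul_den_eq_num _
  have hD := hd i.1 (d i.1).den (d i.1).num hn
  obtain ⟨F, G, m', hF, hG, hFI, hGI, ha⟩ := d1_pair hpr hspan hreg i.1.1 i.1.2 (d i.1).num
  have hq := hD (B i) (hBK i) (hBC i) F G m' hF hG hFI hGI ha g hgi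
  rw [hv, one_pow] at hq
  obtain ⟨π, π', e, hπ, hπ', hπI, hπ'I, hord⟩ := d4_ord hI hpr hreg hη i.1.1 i.1.2
  obtain ⟨hlt, hval⟩ := hord (B i) (hBK i) (hBC i)
  rw [hval F G m' hF hG hFI hGI, ← ha] at hq
  set w := (B i).valuation (MvPolynomial.aeval (ηo η) π / MvPolynomial.aeval (ηo η) π') with hw
  have hw0 : w ≠ 0 := by
    rw [hw, Valuation.ne_zero_iff]
    refine div_ne_zero ?_ ?_
    · exact fun h => hπI ((eta_mem hη π e hπ).1 h)
    · exact fun h => hπ'I ((eta_mem hη π' e hπ').1 h)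
  have hnum : (d i.1).num ≠ 0 := Rat.num_ne_zero.2 i.2
  have hpw : ∀ n : ℕ, n ≠ 0 → w ^ n < 1 := fun n hn => pow_lt_one₀ zero_le hlt hn
  obtain ⟨n, h | h⟩ := Int.eq_nat_or_neg (d i.1).num
  · rw [h, zpow_natCast] at hq
    have hn0 : n ≠ 0 := by
      rintro rfl
      exact hnum (by simpa using h)
    exact absurd hq.symm (hpw n hn0).ne
  · rw [h, zpow_neg, zpow_natCast] at hq
    have hn0 : n ≠ 0 := by
      rintro rfl
      exact hnum (by simpa using h)
    have h5 : w ^ n = 1 := by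
      rw [← inv_inv (w ^ n), ← hq, inv_one]
    exact absurd h5 (hpw n hn0).ne

end Pool.Agent.TT
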