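import Mathlib
import Pool.Agent.TT.AsmA
import Pool.Agent.TT.DFam
import Pool.Agent.TT.DGen
import Pool.Agent.TT.DNum
import Pool.Agent.TT.DQ
import Pool.Agent.TT.DSupp
import Pool.Agent.TT.E.Main
import Pool.Agent.ThF.Final

set_option autoImplicit false
set_option linter.unusedSectionVars false

/-! Project TT, block F: assembly. -/

namespace Pool.Agent.TT

open Pool.Agent.Helper16 Pool.Agent.Helper16.BB Pool.Agent.Helper16.GT Pool.Agent.ThF Polynomial

/-- Common denominators. -/
theorem asm_den {X : Type} {r : ℕ} (f : Fin r → X → ℚ) (hf : ∀ i, {P | f i P ≠ 0}.Finite) :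
    ∃ (n : ℕ) (D : Fin r → (X →₀ ℤ)), 0 < n ∧ ∀ i P, (n : ℚ) * f i P = D i P := by
  classical
  set n : ℕ := ∏ i, ∏ P ∈ (hf i).toFinset, (f i P).den with hn
  have hn0 : 0 < n := Finset.prod_pos fun i _ => Finset.prod_pos fun P _ => (f i P).den_pos
  have hint : ∀ i P, ∃ a : ℤ, (n : ℚ) * f i P = a := by
    intro i P
    by_cases hP : f i P = 0
    · exact ⟨0, by rw [hP]; simp⟩
    · have h1 : (f i P).den ∣ n := by
        have h2 : (f i P).den ∣ ∏ P ∈ (hf i).toFinset, (f i P).den :=
          Finset.dvd_prod_of_mem _ ((hf i).mem_toFinset.2 hP)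
        exact h2.trans (Finset.dvd_prod_of_mem _ (Finset.mem_univ i))
      obtain ⟨b, hb⟩ := h1
      refine ⟨b * (f i P).num, ?_⟩
      rw [hb]
      push_cast
      have h3 : ((f i P).den : ℚ) ≠ 0 := by exact_mod_cast (f i P).den_pos.ne'
      have h4 : f i P = (f i P).num / (f i P).den := (Rat.num_div_den (f i P)).symm
      calc ((f i P).den : ℚ) * b * f i P
          = b * ((f i P).den * f i P) := by ring
        _ = b * (f i P).num := by
          congr 1
          rw [mul_comm]
          exact Rat.mul_den_eq_num _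
  choose a ha using hint
  refine ⟨n, fun i => Finsupp.onFinset (hf i).toFinset (a i) ?_, hn0, fun i P => ?_⟩
  · intro P hP
    rw [(hf i).mem_toFinset]
    intro h0
    apply hP
    have h1 := ha i P
    rw [h0, mul_zero] at h1
    exact_mod_cast h1.symm
  · rw [ha]
    rfl

/-- F4. Theorem T. Proof: `Fx, η, j₀, e` from `d5_gen`, `Δ` from `d5_family`, `d` from `d6_dq`, finite
dimensionality from `ThF.main` (its hypotheses from those of `Target`), `φ i` from
`exists_functionals`. By `d7_finite` there is `n > 0` such that all `n * d (φ i) P` are integers; `D i`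
the corresponding divisors: `D i ∈ NumTriv` by `d10_num`. If `∑ c i D i ∈ Prin` then with
`φ = ∑ c i φ i` the divisor `n d φ` is that of `F₀ / G₀` (`prin_iff`, additivity in `d6_dq`); `d10_const`
and `E.const_of_codim_two` (and TT/C7 `const_of_bdd_below` for its second hypothesis) show that `φ` is
constant on points, so `c = 0` by `exists_functionals`. Conclude by `rank_le_of_indep`. -/
theorem target : Target := by
  intro k _ _ σ _ I hI hpr hreg L _ _ j hj ξ hξ h1 h2
  -- the function field and the family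
  obtain ⟨Fx, _, _, _, _, η, j₀, e, hη, he⟩ := d5_gen j hI ξ hξ h1 h2
  have he1 : e (tt k Fx) ∉ Set.range (algebraMap L (RatFunc L)) := by
    rw [he]
    exact hj
  obtain ⟨m, Δ, hΔ, hst⟩ := d5_family hI hη e he1
  obtain ⟨d, hadd, hsmul, hdiv⟩ := d6_dq hI hpr hreg hη Δ hΔ hst
  -- finiteness
  have hfin : Module.Finite ℚ (A0 (wOne σ) I) := by
    letI : Algebra (RatFunc k) (RatFunc L) := (j : RatFunc k →+* RatFunc L).toAlgebra
    haveI : IsScalarTower k (RatFunc k) (RatFunc L) :=
      IsScalarTower.of_algebraMap_eq fun x => (j.commutes x).symm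
    refine (ThF.main hI (L := L) hj ξ ?_ ?_).1
    · rw [isPoint_wOne]
      exact ⟨hξ, h1⟩
    · rintro P ⟨n, hP⟩ h3 x hx
      have h4 : P ∈ Ideal.span I := h2 n P hP h3
      have h5 : Ideal.span I ≤ RingHom.ker (MvPolynomial.aeval x :
          MvPolynomial σ (RatFunc k) →ₐ[RatFunc k] AlgebraicClosure (RatFunc k)).toRingHom := by
        rw [Ideal.span_le]
        intro Q hQ
        exact hx.2 Q hQ
      exact h5 h4
  have hrank : dimA0 (wOne σ) I = (Module.finrank ℚ (A0 (wOne σ) I) : Cardinal) := by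
    rw [dimA0, Module.finrank_eq_rank]
  rw [hrank]
  obtain ⟨φ, hφ⟩ := exists_functionals I hfin
  obtain ⟨n, D, hn, hD⟩ := asm_den (fun i => d (φ i)) fun i =>
    d7_finite hI hpr hreg hη Δ hΔ (φ i) (d (φ i)) fun P n a h => hdiv (φ i) P n a h
  have hDiv : ∀ i, DivOf (φ i) n η Δ (D i) := fun i P => hdiv (φ i) P n (D i P) (hD i P)
  refine rank_le_of_indep (NumTriv (Ideal.span I)) (Prin (Ideal.span I)) _ D
    (fun i => d10_num hI hpr hreg hη Δ hΔ (φ i) n hn (D i) (hDiv i)) ?_
  intro c hc
  obtain ⟨d₀, F₀, G₀, hF, hG, hF1, hG1, hFG⟩ := prin_iff hpr (d1_span hI) hreg _ hc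
  have hd0 : ∀ P, d 0 P = 0 := by
    intro P
    have h3 := hsmul 0 0 P
    simpa using h3
  have hsum : ∀ (s : Finset (Fin (Module.finrank ℚ (A0 (wOne σ) I)))) P,
      d (∑ i ∈ s, (c i : ℚ) • φ i) P = ∑ i ∈ s, (c i : ℚ) * d (φ i) P := by
    classical
    intro s P
    induction s using Finset.induction_on with
    | empty => rw [Finset.sum_empty, Finset.sum_empty, hd0]
    | insert i s hi ih =>
      rw [Finset.sum_insert hi, Finset.sum_insert hi, hadd, hsmul, ih]
  have hdivφ : DivOf (∑ i, (c i : ℚ) • φ i) n η Δ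
      fun P => (ordP (Ideal.span I) P.1 F₀ : ℤ) - (ordP (Ideal.span I) P.1 G₀ : ℤ) := by
    intro P
    refine hdiv _ P n _ ?_
    beta_reduce
    rw [hsum, ← hFG P, Finset.mul_sum, Finsupp.finset_sum_apply, Int.cast_sum]
    refine Finset.sum_congr rfl fun i _ => ?_
    have h3 := hD i P
    rw [Finsupp.smul_apply, smul_eq_mul, Int.cast_mul, ← h3]
    ring
  obtain ⟨J, h, hJ, hJP, hh, hhI, hconst⟩ := d10_const hI hpr hη Δ hΔ _ n hn F₀ G₀ d₀ hF hG hF1 hG1
    hdivφ
  have : Infinite (RatFunc k) := Infinite.of_injective (algebraMap k[X] (RatFunc k))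
    (IsFractionRing.injective _ _)
  obtain ⟨a, ha⟩ := E.const_of_codim_two hI hpr hJ hJP _ h hh hhI hconst (by
    rintro N _ _ z hN hz ⟨a, ha⟩ v v' y y' hy hy'
    exact const_of_bdd_below hI hN _ z hz ∅ a (fun v _ y hy => ha v y hy) hy hy')
  exact hφ c ⟨a, ha⟩

end Pool.Agent.TT
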