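import Pool.Agent.TT.BBase

set_option autoImplicit false
set_option linter.unusedSectionVars false
set_option linter.style.haveILetI false

/-! Project TT, block B, B1: every place of `N` which is not trivial on `E` is a Gauss place, with
respect to the coordinate given by two zeros, poles or ones of `t`. -/

namespace Pool.Agent.TT

open Pool.Agent.Helper16 Pool.Agent.Helper16.BB Pool.Agent.ThF Polynomial

/-- A monomial in `τ` and `τ - 1` is transcendental. -/
theorem alg_of_zpow {k Ω : Type} [Field k] [Field Ω] [Algebra k Ω] {τ : Ω}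
    (h1 : τ - 1 ≠ 0) {m m' : ℤ} (hm : m ≠ 0) (hm' : m' ≠ 0)
    (h : IsAlgebraic k (τ ^ m' * (τ - 1) ^ (-m))) : IsAlgebraic k τ := by
  classical
  by_contra hτ
  have hτ0 : τ ≠ 0 := by
    rintro rfl
    exact hτ isAlgebraic_zero
  wlog hpos : 0 < m' generalizing m m'
  · have h2 : IsAlgebraic k (τ ^ (-m') * (τ - 1) ^ (- -m)) := by
      have h3 := h.inv
      rw [mul_inv, ← zpow_neg, ← zpow_neg] at h3
      exact h3
    exact this (neg_ne_zero.2 hm) (neg_ne_zero.2 hm') h2
      (by have := lt_of_le_of_ne (not_lt.1 hpos) hm'; omega)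
  obtain ⟨a, rfl⟩ := Int.eq_ofNat_of_zero_le hpos.le
  have ha : 0 < a := by exact_mod_cast hpos
  rcases lt_or_gt_of_ne hm with h2 | h2
  · obtain ⟨b, hb⟩ := Int.eq_ofNat_of_zero_le (a := -m) (by omega)
    rw [hb] at h
    have hb0 : 0 < b := by omega
    refine stepA_transcendental (L := k) τ (τ ^ (a : ℤ) * (τ - 1) ^ (b : ℤ)) hτ
      (X ^ a * (X - 1) ^ b) 1 ⟨a + b, 0, ?_⟩ ?_ h
    · have h3 : (X ^ a * (X - 1) ^ b : k[X]).coeff (a + b) = 1 := by
        have h4 : (X ^ a * (X - 1) ^ b : k[X]).Monic := by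
          have h5 : (X - 1 : k[X]).Monic := by
            simpa using monic_X_sub_C (1 : k)
          exact (monic_X_pow a).mul (h5.pow b)
        have h6 : (X ^ a * (X - 1) ^ b : k[X]).natDegree = a + b := by
          have h5 : (X - 1 : k[X]).Monic := by
            simpa using monic_X_sub_C (1 : k)
          have h7 : (X - 1 : k[X]).natDegree = 1 := by
            simpa using natDegree_X_sub_C (1 : k)
          rw [(monic_X_pow a).natDegree_mul (h5.pow b), natDegree_X_pow, h5.natDegree_pow, h7,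
            mul_one]
        have h8 := h4.coeff_natDegree
        rwa [h6] at h8
      have h4 : (1 : k[X]).coeff (a + b) = 0 := by
        rw [coeff_one, if_neg (by omega)]
      rw [h3, h4, mul_zero, coeff_one_zero, mul_one]
      exact one_ne_zero
    · simp
  · obtain ⟨b, rfl⟩ := Int.eq_ofNat_of_zero_le h2.le
    have hb0 : 0 < b := by exact_mod_cast h2
    have h0 : (τ - 1) ^ b ≠ 0 := pow_ne_zero _ h1
    refine stepA_transcendental (L := k) τ (τ ^ (a : ℤ) * (τ - 1) ^ (-(b : ℤ))) hτ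
      (X ^ a) ((X - 1) ^ b) ⟨a, 0, ?_⟩ ?_ h
    · have h3 : ((X - 1) ^ b : k[X]).coeff 0 = (-1) ^ b := by
        rw [coeff_zero_eq_eval_zero]
        simp
      rw [h3, coeff_X_pow, if_pos rfl, coeff_X_pow, if_neg (by omega), zero_mul, one_mul]
      exact pow_ne_zero _ (neg_ne_zero.2 one_ne_zero)
    · simp only [map_pow, map_sub, aeval_X, map_one]
      rw [zpow_neg, zpow_natCast, zpow_natCast]
      field_simp

section

variable {k E N σ : Type} [Field k] [Field E] [Field N] [Algebra k E] [Algebra k N] [Algebra E N]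
  [Algebra (RatFunc k) N] [IsScalarTower k E N] [IsScalarTower k (RatFunc k) N]
variable {I : Set (MvPolynomial σ (RatFunc k))} {δ : CD σ E} {X : N}

/-- Units with residue algebraic over `k`. -/
def UAlg (v : Place (RatFunc k) N) (w : N) : Prop := v.val w = 1 ∧ IsAlgebraic k (v.res w)

theorem UAlg.ne_zero {v : Place (RatFunc k) N} {w : N} (h : UAlg v w) : w ≠ 0 := by
  rintro rfl
  have := h.1
  rw [map_zero] at this
  exact zero_ne_one this

theorem UAlg.mul {v : Place (RatFunc k) N} {w w' : N} (h : UAlg v w) (h' : UAlg v w') :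
    UAlg v (w * w') := by
  refine ⟨by rw [map_mul, h.1, h'.1, one_mul], ?_⟩
  rw [v.res_mul (show w ∈ v.ring from h.1.le) (show w' ∈ v.ring from h'.1.le)]
  exact h.2.mul h'.2

theorem UAlg.inv {v : Place (RatFunc k) N} {w : N} (h : UAlg v w) : UAlg v w⁻¹ := by
  have h1 : v.val w⁻¹ = 1 := by rw [map_inv₀, h.1, inv_one]
  refine ⟨h1, ?_⟩
  have h2 : v.res w⁻¹ = (v.res w)⁻¹ := by
    refine eq_inv_of_mul_eq_one_left ?_
    rw [← v.res_mul (show w⁻¹ ∈ v.ring from h1.le) (show w ∈ v.ring from h.1.le),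
      inv_mul_cancel₀ h.ne_zero, v.res_one]
  rw [h2]
  exact h.2.inv

theorem UAlg.one (v : Place (RatFunc k) N) : UAlg v (1 : N) :=
  ⟨map_one _, by rw [v.res_one]; exact isAlgebraic_one⟩

theorem UAlg.pow {v : Place (RatFunc k) N} {w : N} (h : UAlg v w) (n : ℕ) : UAlg v (w ^ n) := by
  induction n with
  | zero => rw [pow_zero]; exact UAlg.one v
  | succ n ih => rw [pow_succ]; exact ih.mul h

theorem UAlg.zpow {v : Place (RatFunc k) N} {w : N} (h : UAlg v w) (n : ℤ) : UAlg v (w ^ n) := by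
  cases n with
  | ofNat n => rw [Int.ofNat_eq_natCast, zpow_natCast]; exact h.pow n
  | negSucc n => rw [zpow_negSucc]; exact (h.pow _).inv

/-- Residues of the elements of `E`. -/
theorem UAlg.of_E (hE : IsFunctionField k E) {v : Place (RatFunc k) N} {b : E} (hb : b ≠ 0)
    (hbv : v.val (algebraMap E N b) ≠ 1) {a : E} (ha : v.val (algebraMap E N a) = 1) :
    UAlg v (algebraMap E N a) := ⟨ha, residue_algebraic hE v b hb hbv a ha.le⟩

/-- An element whose difference from `1` is not a unit. -/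
theorem UAlg.of_lt {v : Place (RatFunc k) N} {w : N} (h : v.val (w - 1) < 1) : UAlg v w := by
  have h1 : w = (w - 1) + 1 := by ring
  have h2 : v.val w = 1 := by
    rw [h1, Valuation.map_add_eq_of_lt_right v.val (by rw [map_one]; exact h), map_one]
  refine ⟨h2, ?_⟩
  have h3 : v.res w = 1 := by
    rw [h1, v.res_add (show w - 1 ∈ v.ring from h.le) (one_mem _),
      (v.res_eq_zero_iff (show w - 1 ∈ v.ring from h.le)).2 h, v.res_one, zero_add]
  rw [h3]
  exact isAlgebraic_one

/-- Constants times powers of `x` times units with algebraic residue. -/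
def GoodM (E : Type) [Field E] [Algebra E N] (v : Place (RatFunc k) N) (x : N) (m : ℤ) (w : N) :
    Prop := ∃ (d : E) (w' : N), d ≠ 0 ∧ UAlg v w' ∧ w = algebraMap E N d * x ^ m * w'

theorem GoodM.mul {v : Place (RatFunc k) N} {x : N} (hx : x ≠ 0) {m m' : ℤ} {w w' : N}
    (h : GoodM E v x m w) (h' : GoodM E v x m' w') : GoodM E v x (m + m') (w * w') := by
  obtain ⟨d, u, hd, hu, rfl⟩ := h
  obtain ⟨d', u', hd', hu', rfl⟩ := h'
  refine ⟨d * d', u * u', mul_ne_zero hd hd', hu.mul hu', ?_⟩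
  rw [map_mul, zpow_add₀ hx]
  ring

theorem GoodM.inv {v : Place (RatFunc k) N} {x : N} {m : ℤ} {w : N}
    (h : GoodM E v x m w) : GoodM E v x (-m) w⁻¹ := by
  obtain ⟨d, u, hd, hu, rfl⟩ := h
  refine ⟨d⁻¹, u⁻¹, inv_ne_zero hd, hu.inv, ?_⟩
  rw [map_inv₀, zpow_neg]
  rw [mul_inv, mul_inv]

theorem GoodM.const (v : Place (RatFunc k) N) (x : N) {d : E} (hd : d ≠ 0) :
    GoodM E v x 0 (algebraMap E N d) :=
  ⟨d, 1, hd, UAlg.one v, by rw [zpow_zero, mul_one, mul_one]⟩

theorem GoodM.poly {v : Place (RatFunc k) N} {x : N} (hx : x ≠ 0) (X : N) {G : E[X]} (hG : G ≠ 0)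
    (hs : G.Splits) (h : ∀ r ∈ G.roots, ∃ m, GoodM E v x m (X - algebraMap E N r)) :
    ∃ m, GoodM E v x m (aeval X G) := by
  have h1 : aeval X G = algebraMap E N G.leadingCoeff *
      (G.roots.map fun r => X - algebraMap E N r).prod := by
    conv_lhs => rw [hs.eq_prod_roots]
    rw [map_mul, aeval_C, map_multiset_prod, Multiset.map_map]
    congr 2
    refine Multiset.map_congr rfl fun r _ => ?_
    simp
  rw [h1]
  have h2 : ∀ s : Multiset E, (∀ r ∈ s, ∃ m, GoodM E v x m (X - algebraMap E N r)) →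
      ∃ m, GoodM E v x m (s.map fun r => X - algebraMap E N r).prod := by
    intro s
    induction s using Multiset.induction_on with
    | empty =>
      intro _
      refine ⟨0, ?_⟩
      have := GoodM.const v x (one_ne_zero (α := E))
      simpa using this
    | cons a s ih =>
      intro hs
      obtain ⟨m, hm⟩ := ih fun r hr => hs r (Multiset.mem_cons_of_mem hr)
      obtain ⟨m', hm'⟩ := hs a (Multiset.mem_cons_self a s)
      refine ⟨m' + m, ?_⟩
      rw [Multiset.map_cons, Multiset.prod_cons]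
      exact hm'.mul hx hm
  obtain ⟨m, hm⟩ := h2 _ h
  exact ⟨0 + m, (GoodM.const v x (leadingCoeff_ne_zero.2 hG)).mul hx hm⟩

/-- B1. -/
theorem gl_class (h : Gl I δ X) (v : Place (RatFunc k) N) (b : E) (hb : b ≠ 0)
    (hbv : v.val (algebraMap E N b) ≠ 1) :
    ∃ p ∈ δ.rts.offDiag, ResTr v X p.1 (p.2 - p.1) := by
  classical
  by_contra hcon
  push Not at hcon
  have hal := h.ok.al_ne
  have hbe := h.ok.be_ne
  have hsub := h.ok.sub_ne
  -- there is a root
  have hne : δ.rts.Nonempty := by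
    have h1 : (δ.al * δ.be * (δ.al - δ.be)).roots ≠ 0 := by
      intro h0
      have h2 := h.spl.natDegree_eq_card_roots
      rw [h0, Multiset.card_zero, natDegree_mul (mul_ne_zero hal hbe) hsub,
        natDegree_mul hal hbe] at h2
      have h3 := h.ok.pos
      rw [CD.b] at h3
      omega
    obtain ⟨r, hr⟩ := Multiset.exists_mem_of_ne_zero h1
    exact ⟨r, (CD.mem_rts h.ok).2 ((mem_roots h.ok.mul_ne).1 hr)⟩
  obtain ⟨p₀, hp₀, hmin⟩ := δ.rts.exists_min_image (fun r => v.val (X - algebraMap E N r)) hne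
  set x : N := X - algebraMap E N p₀ with hx
  have hXr : ∀ r : E, X - algebraMap E N r ≠ 0 := by
    intro r h0
    apply h.tr
    rw [sub_eq_zero.1 h0]
    exact isAlgebraic_algebraMap r
  have hx0 : x ≠ 0 := hXr p₀
  have hgood : ∀ r ∈ δ.rts, ∃ m, GoodM E v x m (X - algebraMap E N r) := by
    intro r hr
    have hd : X - algebraMap E N r = x - algebraMap E N (r - p₀) := by
      rw [hx, map_sub]; ring
    by_cases hrp : r = p₀
    · refine ⟨1, 1, 1, one_ne_zero, UAlg.one v, ?_⟩
      rw [hrp, map_one, zpow_one, one_mul, mul_one]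
    have hrp' : r - p₀ ≠ 0 := sub_ne_zero.2 hrp
    have hrp'' : algebraMap E N (r - p₀) ≠ 0 := (map_ne_zero (algebraMap E N)).2 hrp'
    rcases lt_trichotomy (v.val (algebraMap E N (r - p₀))) (v.val x) with h1 | h1 | h1
    · -- `X - r = x (1 - (r - p₀)/x)`
      refine ⟨1, 1, (X - algebraMap E N r) / x, one_ne_zero, UAlg.of_lt ?_, ?_⟩
      · have h2 : (X - algebraMap E N r) / x - 1 = - (algebraMap E N (r - p₀) / x) := by
          rw [hd]
          field_simp
          ring
        rw [h2, Valuation.map_neg, map_div₀]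
        exact (div_lt_one₀ (zero_lt_iff.2 ((Valuation.ne_zero_iff _).2 hx0))).2 h1
      · rw [map_one, zpow_one, one_mul, mul_div_cancel₀ _ hx0]
    · -- the pair `(p₀, r)`
      have hpair : (p₀, r) ∈ δ.rts.offDiag := Finset.mem_offDiag.2 ⟨hp₀, hr, Ne.symm hrp⟩
      have h2 : v.val (x / algebraMap E N (r - p₀)) = 1 := by
        rw [map_div₀, h1, div_self ((Valuation.ne_zero_iff _).2 hx0)]
      have h3 : UAlg v (x / algebraMap E N (r - p₀)) := by
        refine ⟨h2, ?_⟩
        by_contra h4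
        exact hcon _ hpair ⟨h2, h4⟩
      refine ⟨0, r - p₀, (X - algebraMap E N r) / algebraMap E N (r - p₀), hrp', ?_, ?_⟩
      · have h4 : (X - algebraMap E N r) / algebraMap E N (r - p₀) =
            x / algebraMap E N (r - p₀) - 1 := by
          rw [hd]
          field_simp
        have h5 : v.val ((X - algebraMap E N r) / algebraMap E N (r - p₀)) = 1 := by
          refine le_antisymm ?_ ?_
          · rw [h4]
            refine (v.val.map_sub _ _).trans (max_le h2.le (map_one v.val).le)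
          · have h6 := hmin r hr
            change v.val x ≤ _ at h6
            rw [map_div₀, h1]
            exact (one_le_div₀ (zero_lt_iff.2 ((Valuation.ne_zero_iff _).2 hx0))).2 h6
        refine ⟨h5, ?_⟩
        rw [h4, v.res_sub (show _ ∈ v.ring from h2.le) (one_mem _), v.res_one]
        exact h3.2.sub isAlgebraic_one
      · rw [zpow_zero, mul_one, mul_div_cancel₀ _ hrp'']
    · -- `X - r = -(r - p₀) (1 - x/(r - p₀))`
      refine ⟨0, -(r - p₀), (X - algebraMap E N r) / algebraMap E N (-(r - p₀)),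
        neg_ne_zero.2 hrp', UAlg.of_lt ?_, ?_⟩
      · have h2 : (X - algebraMap E N r) / algebraMap E N (-(r - p₀)) - 1 =
            - (x / algebraMap E N (r - p₀)) := by
          rw [hd, map_neg]
          field_simp
          ring
        rw [h2, Valuation.map_neg, map_div₀]
        exact (div_lt_one₀ (zero_lt_iff.2 ((Valuation.ne_zero_iff _).2 hrp''))).2 h1
      · have h3 : algebraMap E N (-(r - p₀)) ≠ 0 := by
          rw [map_neg]; exact neg_ne_zero.2 hrp''
        rw [zpow_zero, mul_one, mul_div_cancel₀ _ h3]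
  -- the three polynomials
  have hroots : ∀ G : E[X], G ∣ δ.al * δ.be * (δ.al - δ.be) → G ≠ 0 →
      ∃ m, GoodM E v x m (aeval X G) := by
    intro G hG hG0
    refine GoodM.poly hx0 X hG0 (h.spl.of_dvd h.ok.mul_ne hG) fun r hr => hgood r ?_
    rw [CD.mem_rts h.ok]
    obtain ⟨H, hH⟩ := hG
    rw [hH, eval_mul, (mem_roots hG0).1 hr, zero_mul]
  obtain ⟨m₁, h₁⟩ := hroots δ.al ⟨δ.be * (δ.al - δ.be), by ring⟩ hal
  obtain ⟨m₂, h₂⟩ := hroots δ.be ⟨δ.al * (δ.al - δ.be), by ring⟩ hbe
  obtain ⟨m₃, h₃⟩ := hroots (δ.al - δ.be) ⟨δ.al * δ.be, by ring⟩ hsub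
  have hdiv := h.div
  have hbe' := h.ne hbe
  have ht : GoodM E v x (m₁ + -m₂) (tt k N) := by
    rw [hdiv, div_eq_mul_inv]
    exact h₁.mul hx0 h₂.inv
  have ht1 : GoodM E v x (m₃ + -m₂) (tt k N - 1) := by
    have h4 : tt k N - 1 = aeval X (δ.al - δ.be) * (aeval X δ.be)⁻¹ := by
      rw [hdiv, map_sub]
      field_simp
    rw [h4]
    exact h₃.mul hx0 h₂.inv
  have hvt := h.val_tt v
  have hres := h.res_tt v
  have hv1 : v.val (tt k N - 1) = 1 := by
    have h4 : tt k N - 1 = algebraMap (RatFunc k) N (RatFunc.X - 1) := by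
      rw [map_sub, map_one]
    rw [h4]
    apply v.triv
    intro h5
    apply ratFunc_X_transcendental k
    rw [sub_eq_zero.1 h5]
    exact isAlgebraic_one
  have hr1 : v.res (tt k N - 1) = v.res (tt k N) - 1 := by
    rw [v.res_sub (show _ ∈ v.ring from hvt.le) (one_mem _), v.res_one]
  have key0 : ∀ w : N, v.val w = 1 → GoodM E v x 0 w → IsAlgebraic k (v.res w) := by
    rintro w hw ⟨d, w', hd, hw', hww⟩
    rw [zpow_zero, mul_one] at hww
    have h5 : v.val (algebraMap E N d) = 1 := by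
      rw [hww, map_mul, hw'.1, mul_one] at hw
      exact hw
    have h6 := (UAlg.of_E h.hE hb hbv h5).mul hw'
    rw [← hww] at h6
    exact h6.2
  set m := m₁ + -m₂ with hmdef
  set m' := m₃ + -m₂ with hm'def
  have hm : m ≠ 0 := by
    intro h0
    rw [h0] at ht
    exact hres (key0 _ hvt ht)
  have hm' : m' ≠ 0 := by
    intro h0
    rw [h0] at ht1
    have h5 := key0 _ hv1 ht1
    rw [hr1] at h5
    apply hres
    have h6 := h5.add (isAlgebraic_one (R := k) (A := v.resField))
    rwa [sub_add_cancel] at h6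
  have ht0 : tt k N ≠ 0 := by
    intro h0
    rw [h0, map_zero] at hvt
    exact zero_ne_one hvt
  have ht10 : tt k N - 1 ≠ 0 := by
    intro h0
    rw [h0, map_zero] at hv1
    exact zero_ne_one hv1
  have hzp : ∀ (w : N) (n n' : ℤ), w ≠ 0 → GoodM E v x n w → GoodM E v x (n * n') (w ^ n') := by
    rintro w n n' hw ⟨d, w', hd, hw', hww⟩
    refine ⟨d ^ n', w' ^ n', zpow_ne_zero _ hd, hw'.zpow n', ?_⟩
    rw [hww, mul_zpow, mul_zpow, map_zpow₀, zpow_mul]
  have h6 : GoodM E v x 0 (tt k N ^ m' * (tt k N - 1) ^ (-m)) := by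
    have h7 := (hzp _ _ m' ht0 ht).mul hx0 (hzp _ _ (-m) ht10 ht1)
    have h8 : m * m' + m' * -m = 0 := by ring
    rwa [h8] at h7
  have h7 : v.val (tt k N ^ m' * (tt k N - 1) ^ (-m)) = 1 := by
    rw [map_mul, map_zpow₀, map_zpow₀, hvt, hv1, one_zpow, one_zpow, one_mul]
  have h8 := key0 _ h7 h6
  have hrz : ∀ (w : N) (n : ℤ), v.val w = 1 → v.val (w ^ n) = 1 ∧ v.res (w ^ n) = v.res w ^ n := by
    intro w n hw
    have hw0 : w ≠ 0 := by
      rintro rfl
      rw [map_zero] at hw
      exact zero_ne_one hw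
    have h9 : ∀ n : ℕ, v.val (w ^ n) = 1 ∧ v.res (w ^ n) = v.res w ^ n := fun n =>
      ⟨by rw [map_pow, hw, one_pow], v.res_pow (show w ∈ v.ring from hw.le) n⟩
    cases n with
    | ofNat n =>
      rw [Int.ofNat_eq_natCast, zpow_natCast, zpow_natCast]
      exact h9 n
    | negSucc n =>
      rw [zpow_negSucc, zpow_negSucc]
      obtain ⟨h10, h11⟩ := h9 (n + 1)
      have h12 : v.val (w ^ (n + 1))⁻¹ = 1 := by rw [map_inv₀, h10, inv_one]
      refine ⟨h12, ?_⟩
      rw [← h11]
      refine eq_inv_of_mul_eq_one_left ?_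
      rw [← v.res_mul (show _ ∈ v.ring from h12.le) (show _ ∈ v.ring from h10.le),
        inv_mul_cancel₀ (pow_ne_zero _ hw0), v.res_one]
  obtain ⟨ha1, ha2⟩ := hrz (tt k N) m' hvt
  obtain ⟨hb1, hb2⟩ := hrz (tt k N - 1) (-m) hv1
  rw [v.res_mul (show _ ∈ v.ring from ha1.le) (show _ ∈ v.ring from hb1.le), ha2, hb2, hr1] at h8
  refine hres (alg_of_zpow ?_ hm hm' h8)
  rw [← hr1]
  intro h0
  rw [v.res_eq_zero_iff (show _ ∈ v.ring from hv1.le), hv1] at h0
  exact lt_irrefl _ h0

end

end Pool.Agent.TT
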