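import Mathlib
import Pool.Agent.TT.BClass
import Pool.Agent.ThF.Gauss

set_option autoImplicit false
set_option linter.unusedSectionVars false
set_option linter.style.haveILetI false

/-! Project TT, block B, B2, B3: Gauss' lemma, restriction to `E`, uniqueness. -/

namespace Pool.Agent.TT

open Pool.Agent.Helper16 Pool.Agent.Helper16.BB Pool.Agent.ThF Polynomial

/-- The residue map of a place. -/
noncomputable def gpl {K N : Type} [Field K] [Field N] [Algebra K N] (v : Place K N) :
    GP N (WithZero (Multiplicative ℤ)) v.resField where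
  val := v.val
  R := v.res
  add := fun x y hx hy => v.res_add (show x ∈ v.ring from hx) (show y ∈ v.ring from hy)
  mul := fun x y hx hy => v.res_mul (show x ∈ v.ring from hx) (show y ∈ v.ring from hy)
  one := v.res_one
  zero_iff := fun x hx => v.res_eq_zero_iff (show x ∈ v.ring from hx)

section tr

variable {E N : Type} [Field E] [Field N] [Algebra E N]

theorem aeval_tr (X : N) (c : E) {r : E} (hr : r ≠ 0) (G : E[X]) :
    aeval ((X - algebraMap E N c) / algebraMap E N r) (tr c r G) = aeval X G := by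
  rw [tr, aeval_comp]
  congr 1
  rw [map_add, map_mul, aeval_C, aeval_C, aeval_X, mul_div_cancel₀ _ (by simpa using hr),
    add_sub_cancel]

theorem tr_ne_zero {c r : E} (hr : r ≠ 0) {G : E[X]} (hG : G ≠ 0) : tr c r G ≠ 0 := by
  intro h0
  apply hG
  have h1 : (tr c r G).comp (C (-(c / r)) + C r⁻¹ * X) = G := by
    rw [tr, comp_assoc]
    have h2 : (C c + C r * X : E[X]).comp (C (-(c / r)) + C r⁻¹ * X) = X := by
      simp only [add_comp, mul_comp, C_comp, X_comp]
      rw [mul_add, ← mul_assoc, ← C_mul, ← C_mul, mul_inv_cancel₀ hr, C_1, one_mul]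
      have h3 : r * -(c / r) = -c := by
        rw [mul_neg, mul_div_cancel₀ _ hr]
      rw [h3, C_neg]
      ring
    rw [h2, comp_X]
  rw [← h1, h0, zero_comp]

theorem tr_X_sub (c r c' : E) : tr c r (X - C c') = C (c - c') + C r * X := by
  rw [tr, sub_comp, X_comp, C_comp, C_sub]
  ring

end tr

section

variable {k E N σ : Type} [Field k] [Field E] [Field N] [Algebra k E] [Algebra k N] [Algebra E N]
  [Algebra (RatFunc k) N] [IsScalarTower k E N] [IsScalarTower k (RatFunc k) N]
variable {I : Set (MvPolynomial σ (RatFunc k))} {δ : CD σ E} {X : N}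

theorem ResTr.ne {v : Place (RatFunc k) N} {c r : E} (h : ResTr v X c r) : r ≠ 0 := by
  rintro rfl
  have h1 := h.1
  rw [map_zero, div_zero, map_zero] at h1
  exact zero_ne_one h1

/-- B2. -/
theorem gl_gauss (h : Gl I δ X) {v : Place (RatFunc k) N} {b : E} (hb : b ≠ 0)
    (hbv : v.val (algebraMap E N b) ≠ 1) {c r : E} (hr : ResTr v X c r) (G : E[X]) (hG : G ≠ 0) :
    ∃ i₀, (tr c r G).coeff i₀ ≠ 0 ∧
      v.val (aeval X G) = v.val (algebraMap E N ((tr c r G).coeff i₀)) ∧
      ∀ i, v.val (algebraMap E N ((tr c r G).coeff i)) ≤ v.val (aeval X G) := by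
  have h1 := (gpl v).gauss (k₀ := k) (F := E)
    (fun a ha => residue_algebraic h.hE v b hb hbv a ha) (y := (X - algebraMap E N c) /
      algebraMap E N r) hr.1.le hr.2 (tr c r G) (tr_ne_zero hr.ne hG)
  rw [aeval_tr X c hr.ne] at h1
  exact h1

theorem gl_restrict (h : Gl I δ X) {v : Place (RatFunc k) N} {b : E} (hb : b ≠ 0)
    (hbv : v.val (algebraMap E N b) ≠ 1) : ∃ u : Place k E, Ov u v := by
  obtain ⟨p, -, hp⟩ := gl_class h v b hb hbv
  refine ⟨⟨v.val.comap (algebraMap E N), ?_, ?_⟩, fun a => rfl⟩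
  · intro γ
    obtain ⟨x, rfl⟩ := v.surj γ
    obtain ⟨F, G, hG, rfl⟩ := h.frac x
    by_cases hF : F = 0
    · exact ⟨0, by simp [hF]⟩
    · obtain ⟨i, -, hi, -⟩ := gl_gauss h hb hbv hp F hF
      obtain ⟨j, -, hj, -⟩ := gl_gauss h hb hbv hp G hG
      refine ⟨(tr p.1 (p.2 - p.1) F).coeff i / (tr p.1 (p.2 - p.1) G).coeff j, ?_⟩
      change v.val (algebraMap E N _) = _
      rw [map_div₀, map_div₀, map_div₀, hi, hj]
  · intro a ha
    change v.val (algebraMap E N (algebraMap k E a)) = 1
    rw [← IsScalarTower.algebraMap_apply k E N, IsScalarTower.algebraMap_apply k (RatFunc k) N]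
    exact v.triv _ ((map_ne_zero (algebraMap k (RatFunc k))).2 ha)

theorem Ov.nontriv {u : Place k E} {v : Place (RatFunc k) N} (h : Ov u v) :
    ∃ b : E, b ≠ 0 ∧ v.val (algebraMap E N b) ≠ 1 := by
  obtain ⟨f, hf, hf1⟩ := u.exists_uniformizer
  exact ⟨f, hf, by rw [h f, hf1]; exact exp_neg_one_lt.ne⟩

theorem Ov.eq {u u' : Place k E} {v : Place (RatFunc k) N} (h : Ov u v) (h' : Ov u' v) :
    u = u' := by
  apply Place.ext_val
  ext a
  rw [← h a, ← h' a]

theorem Ov.gauss (h : Gl I δ X) {u : Place k E} {v : Place (RatFunc k) N} (hv : Ov u v)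
    {c r : E} (hr : ResTr v X c r) (G : E[X]) (hG : G ≠ 0) :
    ∃ i₀, (tr c r G).coeff i₀ ≠ 0 ∧ v.val (aeval X G) = u.val ((tr c r G).coeff i₀) ∧
      ∀ i, u.val ((tr c r G).coeff i) ≤ v.val (aeval X G) := by
  obtain ⟨b, hb, hbv⟩ := hv.nontriv
  have h1 := gl_gauss h hb hbv hr G hG
  simp only [hv _] at h1
  exact h1

theorem Ov.isAlg (h : Gl I δ X) {u : Place k E} {v : Place (RatFunc k) N} (hv : Ov u v)
    {a : E} (ha : u.val a ≤ 1) : IsAlgebraic k (v.res (algebraMap E N a)) := by
  obtain ⟨b, hb, hbv⟩ := hv.nontriv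
  exact residue_algebraic h.hE v b hb hbv a (by rw [hv]; exact ha)

theorem gl_unique (h : Gl I δ X) {u : Place k E} {v v' : Place (RatFunc k) N} (hv : Ov u v)
    (hv' : Ov u v') {c r : E} (hr : ResTr v X c r) (hr' : ResTr v' X c r) : v = v' := by
  have key : ∀ G : E[X], G ≠ 0 → v.val (aeval X G) = v'.val (aeval X G) := by
    intro G hG
    obtain ⟨i, -, hi, hi'⟩ := hv.gauss h hr G hG
    obtain ⟨j, -, hj, hj'⟩ := hv'.gauss h hr' G hG
    refine le_antisymm ?_ ?_
    · rw [hi]; exact hj' i
    · rw [hj]; exact hi' j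
  apply Place.ext_val
  ext x
  obtain ⟨F, G, hG, rfl⟩ := h.frac x
  by_cases hF : F = 0
  · simp [hF]
  · rw [map_div₀, map_div₀, key F hF, key G hG]

/-- The value of `X - c'` is at least the one of `r`. -/
theorem resTr_aux (h : Gl I δ X) {u : Place k E} {v : Place (RatFunc k) N} (hv : Ov u v)
    {c r : E} (hr : ResTr v X c r) {c' r' : E} (hr' : ResTr v X c' r') :
    u.val r ≤ u.val r' ∧ u.val (c - c') ≤ u.val r' := by
  have h1 : v.val (X - algebraMap E N c') = u.val r' := by
    have h2 := hr'.1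
    rw [map_div₀, hv] at h2
    exact (div_eq_one_iff_eq ((Valuation.ne_zero_iff _).2 hr'.ne)).1 h2
  have h3 : (Polynomial.X - C c' : E[X]) ≠ 0 := X_sub_C_ne_zero c'
  obtain ⟨-, -, -, h4⟩ := hv.gauss h hr _ h3
  rw [map_sub, aeval_X, aeval_C, h1, tr_X_sub] at h4
  refine ⟨?_, ?_⟩
  · have := h4 1
    simpa using this
  · have := h4 0
    simpa using this

/-- B3. -/
theorem resTr_iff (h : Gl I δ X) {u : Place k E} {v : Place (RatFunc k) N} (hv : Ov u v)
    {c r : E} (hr : ResTr v X c r) (c' r' : E) :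
    ResTr v X c' r' ↔ Eqv (vs u) c r c' r' := by
  constructor
  · intro hr'
    obtain ⟨h1, h2⟩ := resTr_aux h hv hr hr'
    obtain ⟨h3, h4⟩ := resTr_aux h hv hr' hr
    refine ⟨(vs_valuation_eq u _ _).2 (le_antisymm h1 h3), (vs_valuation_le u _ _).2 ?_⟩
    exact h2.trans h3
  · rintro ⟨h1, h2⟩
    rw [vs_valuation_eq] at h1
    rw [vs_valuation_le] at h2
    have hr0 := hr.ne
    have hr'0 : r' ≠ 0 := by
      rintro rfl
      rw [map_zero, Valuation.zero_iff] at h1
      exact hr0 h1
    have hN : algebraMap E N r ≠ 0 := (map_ne_zero (algebraMap E N)).2 hr0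
    have hN' : algebraMap E N r' ≠ 0 := (map_ne_zero (algebraMap E N)).2 hr'0
    set y := (X - algebraMap E N c) / algebraMap E N r with hy
    have hρ : u.val (r / r') = 1 := by
      rw [map_div₀, h1, div_self ((Valuation.ne_zero_iff _).2 hr'0)]
    have hs : u.val ((c - c') / r') ≤ 1 := by
      rw [map_div₀, ← h1]
      exact (div_le_one₀ (zero_lt_iff.2 ((Valuation.ne_zero_iff _).2 hr0))).2 h2
    have hy' : (X - algebraMap E N c') / algebraMap E N r' =
        algebraMap E N (r / r') * y + algebraMap E N ((c - c') / r') := by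
      rw [hy, map_div₀, map_div₀, map_sub]
      field_simp
      ring
    have hρ' : v.val (algebraMap E N (r / r')) = 1 := by rw [hv, hρ]
    have hs' : v.val (algebraMap E N ((c - c') / r')) ≤ 1 := by rw [hv]; exact hs
    have hint : v.val (algebraMap E N (r / r') * y) ≤ 1 := by
      rw [map_mul, hρ', hr.1, one_mul]
    have hres : v.res ((X - algebraMap E N c') / algebraMap E N r') =
        v.res (algebraMap E N (r / r')) * v.res y + v.res (algebraMap E N ((c - c') / r')) := by
      rw [hy', v.res_add (show _ ∈ v.ring from hint) (show _ ∈ v.ring from hs'),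
        v.res_mul (show _ ∈ v.ring from hρ'.le) (show _ ∈ v.ring from hr.1.le)]
    have halg1 := hv.isAlg h hρ.le
    have halg2 := hv.isAlg h hs
    have hne : v.res (algebraMap E N (r / r')) ≠ 0 := by
      intro h0
      rw [v.res_eq_zero_iff (show _ ∈ v.ring from hρ'.le), hρ'] at h0
      exact lt_irrefl _ h0
    have htr : ¬ IsAlgebraic k (v.res ((X - algebraMap E N c') / algebraMap E N r')) := by
      intro h3
      rw [hres] at h3
      apply hr.2
      have h4 := (h3.sub halg2).mul halg1.inv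
      rw [add_sub_cancel_right, mul_comm, ← mul_assoc, inv_mul_cancel₀ hne, one_mul] at h4
      exact h4
    refine ⟨le_antisymm ?_ ?_, htr⟩
    · rw [hy']
      exact (v.val.map_add _ _).trans (max_le hint hs')
    · by_contra hlt
      rw [not_le] at hlt
      apply htr
      rw [(v.res_eq_zero_iff (show _ ∈ v.ring from hlt.le)).2 hlt]
      exact isAlgebraic_zero

end

end Pool.Agent.TT
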