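import Pool.Agent.TT.BGauss
import Pool.Agent.PL.GaussPl

set_option autoImplicit false
set_option linter.unusedSectionVars false
set_option linter.style.haveILetI false

/-! Project TT, block B, B4: the places over `u` correspond to the vertices. -/

namespace Pool.Agent.TT

open Pool.Agent.Helper16 Pool.Agent.Helper16.BB Pool.Agent.ThF Polynomial

section

variable {k E N σ : Type} [Field k] [Field E] [Field N] [Algebra k E] [Algebra k N] [Algebra E N]
  [Algebra (RatFunc k) N] [IsScalarTower k E N] [IsScalarTower k (RatFunc k) N]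
variable {I : Set (MvPolynomial σ (RatFunc k))} {δ : CD σ E} {X : N}

theorem Ov.le {u : Place k E} {v : Place (RatFunc k) N} (hv : Ov u v) (a : E) :
    u.val a ≤ 1 ↔ v.val (algebraMap E N a) ≤ 1 := by rw [hv]

theorem Ov.lt {u : Place k E} {v : Place (RatFunc k) N} (hv : Ov u v) (a : E) :
    u.val a < 1 ↔ v.val (algebraMap E N a) < 1 := by rw [hv]

theorem tr_coeff_sub (c r : E) (F G : E[X]) (i : ℕ) :
    (tr c r (F - G)).coeff i = (tr c r F).coeff i - (tr c r G).coeff i := by
  rw [tr, sub_comp, coeff_sub]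
  rfl

theorem tr_coeff_C_mul (c r d : E) (F : E[X]) (i : ℕ) :
    (tr c r (C d * F)).coeff i = d * (tr c r F).coeff i := by
  rw [tr, mul_comp, C_comp, coeff_C_mul]
  rfl

/-- The coordinate of a place is a vertex. -/
theorem gl_vc (h : Gl I δ X) {u : Place k E} {v : Place (RatFunc k) N} (hv : Ov u v) {c r : E}
    (hr : ResTr v X c r) : VC (vs u) δ c r := by
  have hal := h.ok.al_ne
  have hbe := h.ok.be_ne
  obtain ⟨i₀, hi0, hi1, hi2⟩ := hv.gauss h hr δ.be hbe
  obtain ⟨-, -, -, hj2⟩ := hv.gauss h hr δ.al hal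
  have hval : v.val (aeval X δ.al) = v.val (aeval X δ.be) := by
    rw [← h.ht, map_mul, h.val_tt, one_mul]
  rw [hval, hi1] at hj2
  rw [hi1] at hi2
  set β := (tr c r δ.be).coeff i₀ with hβ
  refine ⟨hr.ne, β, hi0, fun i => ⟨(vs_valuation_le u _ _).2 (hj2 i),
    (vs_valuation_le u _ _).2 (hi2 i)⟩, ?_⟩
  set c₀ : E := (tr c r δ.al).coeff i₀ / β with hc₀
  have hβv : u.val β ≠ 0 := (Valuation.ne_zero_iff _).2 hi0
  have hc₀v : u.val c₀ ≤ 1 := by
    rw [hc₀, map_div₀]
    exact (div_le_one₀ (zero_lt_iff.2 hβv)).2 (hj2 i₀)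
  have hGX : aeval X (δ.al - C c₀ * δ.be) = (tt k N - algebraMap E N c₀) * aeval X δ.be := by
    rw [map_sub, map_mul, aeval_C, sub_mul, h.ht]
  have hc₀N : v.val (algebraMap E N c₀) ≤ 1 := by rw [hv]; exact hc₀v
  have hunit : v.val (tt k N - algebraMap E N c₀) = 1 := by
    have h1 : v.val (tt k N - algebraMap E N c₀) ≤ 1 :=
      (v.val.map_sub _ _).trans (max_le (h.val_tt v).le hc₀N)
    refine le_antisymm h1 ?_
    by_contra hlt
    rw [not_le] at hlt
    apply h.res_tt v
    have h2 : v.res (tt k N) = v.res (algebraMap E N c₀) := by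
      have h3 := v.res_sub (show tt k N ∈ v.ring from (h.val_tt v).le)
        (show algebraMap E N c₀ ∈ v.ring from hc₀N)
      rw [(v.res_eq_zero_iff (show _ ∈ v.ring from h1)).2 hlt] at h3
      exact (sub_eq_zero.1 h3.symm)
    rw [h2]
    exact hv.isAlg h hc₀v
  have hGval : v.val (aeval X (δ.al - C c₀ * δ.be)) = u.val β := by
    rw [hGX, map_mul, hunit, one_mul, hi1]
  have hG : δ.al - C c₀ * δ.be ≠ 0 := by
    intro h0
    rw [h0, map_zero, map_zero] at hGval
    exact hβv hGval.symm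
  obtain ⟨i₁, -, hi₁, -⟩ := hv.gauss h hr _ hG
  rw [hGval, tr_coeff_sub, tr_coeff_C_mul] at hi₁
  refine ⟨i₁, i₀, ?_⟩
  rw [← map_pow, vs_valuation_eq, map_pow]
  have h5 : (tr c r δ.al).coeff i₁ * (tr c r δ.be).coeff i₀ -
      (tr c r δ.al).coeff i₀ * (tr c r δ.be).coeff i₁ =
      β * ((tr c r δ.al).coeff i₁ - c₀ * (tr c r δ.be).coeff i₁) := by
    rw [hc₀, ← hβ]
    field_simp
  rw [h5, map_mul, ← hi₁, sq]

/-- Reduction of polynomial values, at a place of `N/k`. -/
theorem pl_red {K : Type} [Field K] [Algebra K N] (w : Place K N) (u : Place k E)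
    (ρ : u.resField →+* w.resField)
    (hle : ∀ a : E, u.val a ≤ 1 → w.val (algebraMap E N a) ≤ 1)
    (hρ : ∀ a : E, u.val a ≤ 1 → ρ (u.res a) = w.res (algebraMap E N a))
    (Y : N) (hY : w.val Y ≤ 1) (F : E[X]) (G : u.resField[X])
    (hFG : (plE u).SpP F G) :
    w.val (aeval Y F) ≤ 1 ∧ w.res (aeval Y F) = G.eval₂ ρ (w.res Y) := by
  have h1 : ∀ i, w.val (algebraMap E N (F.coeff i)) ≤ 1 := fun i =>
    hle _ ((plE_Sp u _ _).1 (hFG i)).1
  have hn : G.natDegree ≤ F.natDegree := by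
    rw [natDegree_le_iff_coeff_eq_zero]
    intro i hi
    have h2 := ((plE_Sp u _ _).1 (hFG i)).2
    rw [coeff_eq_zero_of_natDegree_lt hi, u.res_zero] at h2
    exact h2.symm
  have h2 := (gpl w).R_eval (fun i => algebraMap E N (F.coeff i)) (F.natDegree + 1) h1 hY
  have h3 : aeval Y F = ∑ i ∈ Finset.range (F.natDegree + 1),
      algebraMap E N (F.coeff i) * Y ^ i := by
    rw [aeval_eq_sum_range]
    simp only [Algebra.smul_def]
  rw [h3]
  refine ⟨h2.1, ?_⟩
  change (gpl w).R _ = _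
  rw [h2.2, eval₂_eq_sum_range' ρ (Nat.lt_succ_of_le hn)]
  refine Finset.sum_congr rfl fun i _ => ?_
  congr 1
  obtain ⟨h4, h5⟩ := (plE_Sp u _ _).1 (hFG i)
  rw [← h5, hρ _ h4]
  rfl

/-- B4. -/
theorem gl_place [Finite k] (h : Gl I δ X) (u : Place k E) {c r : E} {a b : u.resField[X]}
    {Q : σ → u.resField[X]} (hV : Vred (plE u) δ c r a b Q) :
    ∃ v : Place (RatFunc k) N, Ov u v ∧ ResTr v X c r := by
  obtain ⟨hr, hnc, -, ε, ε', hε, -, hSa, hSb, -⟩ := hV
  obtain ⟨e, heX⟩ := h.iso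
  have hrN : algebraMap E N r ≠ 0 := (map_ne_zero (algebraMap E N)).2 hr
  set s₁ : N := (X - algebraMap E N c) / algebraMap E N r with hs₁
  have hs₁tr : Transcendental E s₁ := by
    intro h0
    apply h.tr
    have h1 : X = algebraMap E N r * s₁ + algebraMap E N c := by
      rw [hs₁, mul_div_cancel₀ _ hrN]
      ring
    rw [h1]
    exact ((isAlgebraic_algebraMap r).mul h0).add (isAlgebraic_algebraMap c)
  obtain ⟨W, h1, h2, hp⟩ := Pool.Agent.PL.exists_gauss' h.hE e u s₁ hs₁tr
  have hY : W.val s₁ = 1 := by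
    have := hp Polynomial.X Polynomial.X_ne_zero
    rwa [Polynomial.aeval_X] at this
  set T : W.resField := W.res s₁ with hT
  have hTtr : Transcendental k T := by
    rintro ⟨p, hp0, hpT⟩
    have h3 := (W.res_aeval (x := s₁) hY.le p)
    rw [← hT, hpT] at h3
    have h4 := (W.res_eq_zero_iff h3.1).1 h3.2
    rw [hp p hp0] at h4
    exact lt_irrefl _ h4
  obtain ⟨r₀, hr₀, hr₀k⟩ := Place.exists_residue_hom (k := k) (K := k) W u h1 h2
  haveI := u.finite_resField h.hE
  letI algκ : Algebra u.resField W.resField := r₀.toAlgebra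
  haveI : IsScalarTower k u.resField W.resField :=
    IsScalarTower.of_algebraMap_eq fun a => (hr₀k a).symm
  have hTκ : Transcendental u.resField T := fun h => hTtr (h.restrictScalars k)
  have hev : ∀ (F : E[X]) (G : u.resField[X]), (plE u).SpP (C ε * tr c r F) G →
      W.val (algebraMap E N ε * aeval X F) ≤ 1 ∧
      W.res (algebraMap E N ε * aeval X F) = aeval T G := by
    intro F G hFG
    have h3 := pl_red W u r₀ (fun a ha => (h1 a).1 ha) hr₀ s₁ hY.le _ _ hFG
    rw [map_mul, aeval_C, hs₁, aeval_tr X c hr] at h3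
    exact h3
  obtain ⟨ha1, ha2⟩ := hev _ _ hSa
  obtain ⟨hb1, hb2⟩ := hev _ _ hSb
  have hb0 : b ≠ 0 := by
    rintro rfl
    obtain ⟨i, j, hij⟩ := hnc
    simp at hij
  have hbT : aeval T b ≠ 0 := fun h0 => hTκ ⟨b, hb0, h0⟩
  have hbv : W.val (algebraMap E N ε * aeval X δ.be) = 1 := by
    refine le_antisymm hb1 ?_
    by_contra hlt
    rw [not_le] at hlt
    apply hbT
    rw [← hb2, (W.res_eq_zero_iff (show _ ∈ W.ring from hb1)).2 hlt]
  have htt : tt k N * (algebraMap E N ε * aeval X δ.be) = algebraMap E N ε * aeval X δ.al := by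
    rw [← h.ht]
    ring
  set t : N := tt k N with ht
  have ht1 : W.val t ≤ 1 := by
    have h3 := congrArg W.val htt
    rw [map_mul, hbv, mul_one] at h3
    rw [h3]
    exact ha1
  have htres : W.res t * aeval T b = aeval T a := by
    rw [← hb2, ← ha2, ← htt,
      W.res_mul (show t ∈ W.ring from ht1) (show _ ∈ W.ring from hb1)]
  have httr : Transcendental k (W.res t) := by
    intro hal
    exact stepA_transcendental T (W.res t) hTκ a b hnc htres (hal.tower_top u.resField)
  have key : ∀ P : Polynomial k, P ≠ 0 →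
      W.val (algebraMap (RatFunc k) N (algebraMap (Polynomial k) (RatFunc k) P)) = 1 := by
    intro P hP0
    have h3 : algebraMap (RatFunc k) N (algebraMap (Polynomial k) (RatFunc k) P) =
        Polynomial.aeval t P := by
      rw [ht, tt, Polynomial.aeval_algebraMap_apply]
      congr 1
      rw [← RatFunc.algebraMap_X, Polynomial.aeval_algebraMap_apply]
      simp
    rw [h3]
    have h4 := W.res_aeval (x := t) ht1 P
    refine le_antisymm h4.1 ?_
    by_contra hlt
    rw [not_le] at hlt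
    rw [(W.res_eq_zero_iff h4.1).2 hlt] at h4
    exact httr ⟨P, hP0, h4.2.symm⟩
  let v : Place (RatFunc k) N := ⟨W.val, W.surj, by
    intro c hc
    rw [← RatFunc.num_div_denom c, map_div₀, map_div₀, key _ (by simpa using hc),
      key _ (RatFunc.denom_ne_zero c), div_one]⟩
  have hvW : ∀ x, v.val x = W.val x := fun x => rfl
  obtain ⟨f, hf0, hf1⟩ := u.exists_uniformizer
  have hfv : v.val (algebraMap E N f) ≠ 1 := by
    have h3 : u.val f < 1 := by rw [hf1]; exact exp_neg_one_lt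
    exact ((h2 f).1 h3).ne
  obtain ⟨u', hu'⟩ := gl_restrict h hf0 hfv
  have huu : u = u' := by
    apply Place.ext_val
    refine valuation_eq_of_le u.val u'.val u.surj u'.surj fun x hx => ?_
    rw [h1, ← hvW, hu']
    exact hx
  refine ⟨v, huu ▸ hu', ⟨hY, ?_⟩⟩
  rintro ⟨p, hp0, hpT⟩
  have hY' : s₁ ∈ v.ring := hY.le
  have h3 := v.res_aeval (x := s₁) hY' (p.map (algebraMap k (RatFunc k)))
  rw [aeval_map_algebraMap, aeval_map_algebraMap] at h3
  rw [hpT] at h3
  have h4 := (v.res_eq_zero_iff h3.1).1 h3.2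
  rw [hvW, hp p hp0] at h4
  exact lt_irrefl _ h4

end

end Pool.Agent.TT
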