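import Mathlib
import Pool.Agent.TT.CDefs
import Pool.Agent.TT.Sp

set_option autoImplicit false
set_option linter.unusedSectionVars false
set_option linter.style.haveILetI false

/-! Project TT, block C, module C1: valuation rings of `F` above places of `N`.

PLAN. exists_above: O = B.comap (algebraMap N F). If all y in N lie in O, then B = top (x in F is
algebraic, so integral, over N, and B is integrally closed in F); so there is y not in O and
IsFunctionField.exists_place (Helper16/FF9) applies. above_val: y = 0 trivial; otherwise x / y in B iff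
v.val (x / y) <= 1 (val_le_iff in TT/Sp).
hasK: v.val_algebraMap_le. ne_top: the inverse of a uniformizer (v.exists_uniformizer) is not in B.
residue_algebraic: v from exists_above, f a uniformizer of v, transcendental over K
(v.transcendental_of_val_ne_one), N finite over K(f) (hN.finiteDimensional f), F algebraic over N, so x is
algebraic over K[f] (algX K f of FF1 on N, and its analogue on F: aeval of the image of f): there is
P <> 0 in K[X][Y], P(f, x) = 0. C X is prime in K[X][Y], so P = (C X)^e P', C X not dividing P'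
(FiniteMultiplicity.exists_eq_pow_mul_and_not_dvd), P'(f, x) = 0, some coefficient of P' has nonzero
constant coefficient, so p = P' with X = 0 is nonzero in K[Y]; p(x) = p(x) - P'(f, x) is a sum of terms
(c_i(0) - c_i(f)) x^i, c_i(0) - c_i(f) in f K[f], so has valuation < 1 at B. -/

namespace Pool.Agent.TT

open Pool.Agent.Helper16 Pool.Agent.Helper16.BB Pool.Agent.ThF Polynomial

variable {K N F : Type} [Field K] [Field N] [Field F] [Algebra K N] [Algebra N F] [Algebra K F]
  [IsScalarTower K N F] [Algebra.IsAlgebraic N F]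

/-- A proper valuation ring of `F` over `K` lies above a place of `N`. -/
theorem exists_above (hN : IsFunctionField K N) (B : ValuationSubring F) (hB : HasK K B)
    (htop : B ≠ ⊤) : ∃ v : Place K N, Above B v := by
  obtain ⟨y, hy⟩ : ∃ y : N, algebraMap N F y ∉ B := by
    by_contra h
    push Not at h
    apply htop
    rw [eq_top_iff]
    intro x _
    have h1 : IntOver N (0 : F) x :=
      IntOver.of_isIntegral (Algebra.IsAlgebraic.isAlgebraic (R := N) x).isIntegral
    exact h1.mem_valuationSubring B h (zero_mem _)
  obtain ⟨v, hv⟩ := hN.exists_place (B.comap (algebraMap N F)) (fun a => by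
    rw [ValuationSubring.mem_comap, ← IsScalarTower.algebraMap_apply K N F]
    exact hB a) y (by rwa [ValuationSubring.mem_comap])
  exact ⟨v, fun x => by rw [hv x, ValuationSubring.mem_comap]⟩

omit [Algebra K F] [IsScalarTower K N F] [Algebra.IsAlgebraic N F] in
/-- Comparison of valuations above a place. -/
theorem above_val {B : ValuationSubring F} {v : Place K N} (h : Above B v) (x y : N) :
    B.valuation (algebraMap N F x) ≤ B.valuation (algebraMap N F y) ↔ v.val x ≤ v.val y := by
  by_cases hy : y = 0
  · subst hy
    rw [map_zero, map_zero, map_zero, le_zero_iff, le_zero_iff, map_eq_zero, map_eq_zero,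
      map_eq_zero]
  · have hy' : algebraMap N F y ≠ 0 := by simpa using hy
    rw [val_le_iff B _ _ hy', ← map_div₀, h, map_div₀, div_le_one₀]
    exact zero_lt_iff.2 (by simpa using hy)

theorem Above.hasK {B : ValuationSubring F} {v : Place K N} (h : Above B v) : HasK K B := by
  intro c
  rw [IsScalarTower.algebraMap_apply K N F, h]
  by_cases hc : c = 0
  · subst hc
    simp
  · exact (v.triv c hc).le

theorem Above.ne_top {B : ValuationSubring F} {v : Place K N} (h : Above B v) : B ≠ ⊤ := by
  intro hB
  obtain ⟨f, hf0, hf⟩ := v.exists_uniformizer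
  have h1 : algebraMap N F f⁻¹ ∈ B := by
    rw [hB]
    exact ValuationSubring.mem_top _
  rw [h, map_inv₀, hf] at h1
  have h2 := exp_neg_one_lt
  rw [inv_le_one₀ (WithZero.exp_pos)] at h1
  exact absurd h1 (not_le.2 h2)

theorem c1_val_lt {B : ValuationSubring F} {v : Place K N} (h : Above B v) {f : N}
    (hf : v.val f < 1) : B.valuation (algebraMap N F f) < 1 := by
  have h1 := above_val h 1 f
  rw [map_one, map_one, map_one] at h1
  exact not_le.1 fun h2 => absurd (h1.1 h2) (not_le.2 hf)

theorem c1_algebraic (hN : IsFunctionField K N) (f : N) (hf : Transcendental K f) (x : F) :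
    ∃ P : K[X][X], P ≠ 0 ∧ P.eval₂ (aeval (algebraMap N F f) : K[X] →ₐ[K] F).toRingHom x = 0 := by
  letI a1 : Algebra K[X] N := algX K f
  letI a2 : Algebra K[X] F := algX K (algebraMap N F f)
  haveI t1 : IsScalarTower K[X] N F := IsScalarTower.of_algebraMap_eq fun p => by
    rw [algX_apply, algX_apply]
    exact aeval_algebraMap_apply F f p
  haveI h1 : Algebra.IsAlgebraic K[X] N := by
    letI := algXF K f
    haveI := isFractionRing_algXF f hf
    haveI := towerXF (K := K) f
    haveI := hN.finiteDimensional f hf
    rw [IsFractionRing.comap_isAlgebraic_iff (A := K[X]) (K := IntermediateField.adjoin K {f}) (C := N)]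
    infer_instance
  haveI h2 : Algebra.IsAlgebraic K[X] F := Algebra.IsAlgebraic.trans K[X] N F
  obtain ⟨P, hP, hP'⟩ := h2.isAlgebraic x
  exact ⟨P, hP, hP'⟩

theorem c1_diff (B : ValuationSubring F) (hB : HasK K B) (f x : F) (hf : f ∈ B) (hx : x ∈ B)
    (Q : K[X][X]) : ∃ b ∈ B, Q.eval₂ (aeval f : K[X] →ₐ[K] F).toRingHom x =
      aeval x (Q.map (evalRingHom 0)) + f * b := by
  induction Q using Polynomial.induction_on' with
  | add p q hp hq =>
    obtain ⟨b, hb, h1⟩ := hp
    obtain ⟨c, hc, h2⟩ := hq
    refine ⟨b + c, B.add_mem _ _ hb hc, ?_⟩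
    rw [eval₂_add, Polynomial.map_add, map_add, h1, h2]
    ring
  | monomial n a =>
    have h1 : aeval f (divX a) ∈ B :=
      (IntOver.aeval_mem f (divX a)).mem_valuationSubring B hB hf
    refine ⟨aeval f (divX a) * x ^ n, B.mul_mem _ _ h1 (B.toSubring.pow_mem hx n), ?_⟩
    have h2 : aeval f a = aeval f (divX a) * f + algebraMap K F (a.coeff 0) := by
      conv_lhs => rw [← divX_mul_X_add a]
      rw [map_add, map_mul, aeval_X, aeval_C]
    rw [eval₂_monomial, Polynomial.map_monomial, aeval_monomial]
    change aeval f a * x ^ n = _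
    rw [h2]
    have h3 : (evalRingHom 0) a = a.coeff 0 := by
      rw [coe_evalRingHom, coeff_zero_eq_eval_zero]
    rw [h3]
    ring

/-- The residue field of `B` is algebraic over `K`. -/
theorem residue_algebraic (hN : IsFunctionField K N) (B : ValuationSubring F) (hB : HasK K B)
    (htop : B ≠ ⊤) (x : F) (hx : x ∈ B) :
    ∃ p : K[X], p ≠ 0 ∧ B.valuation (aeval x p) < 1 := by
  obtain ⟨v, hv⟩ := exists_above hN B hB htop
  obtain ⟨f, hf0, hf⟩ := v.exists_uniformizer
  have hf1 : v.val f < 1 := by
    rw [hf]
    exact exp_neg_one_lt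
  have hft : Transcendental K f := v.transcendental_of_val_ne_one hf0 hf1.ne
  obtain ⟨P, hP, hPx⟩ := c1_algebraic (F := F) hN f hft x
  have hnu : ¬ IsUnit (C X : K[X][X]) := by
    rw [Polynomial.isUnit_C]
    exact Polynomial.not_isUnit_X
  obtain ⟨P', hP', hnd⟩ :=
    (FiniteMultiplicity.of_not_isUnit hnu hP).exists_eq_pow_mul_and_not_dvd
  have hfB := c1_val_lt hv hf1
  have hfB' : algebraMap N F f ∈ B := (B.valuation_le_one_iff _).1 hfB.le
  have hx' : P'.eval₂ (aeval (algebraMap N F f) : K[X] →ₐ[K] F).toRingHom x = 0 := by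
    rw [hP', eval₂_mul, eval₂_pow, eval₂_C] at hPx
    rcases mul_eq_zero.1 hPx with h | h
    · exfalso
      have h2 : (aeval (algebraMap N F f) : K[X] →ₐ[K] F).toRingHom X = 0 := by
        by_contra h3
        exact pow_ne_zero _ h3 h
      change aeval (algebraMap N F f) (X : K[X]) = 0 at h2
      rw [aeval_X] at h2
      exact hf0 ((map_eq_zero _).1 h2)
    · exact h
  obtain ⟨b, hb, hb'⟩ := c1_diff B hB (algebraMap N F f) x hfB' hx P'
  refine ⟨P'.map (evalRingHom 0), ?_, ?_⟩
  · intro h0
    apply hnd
    rw [Polynomial.C_dvd_iff_dvd_coeff]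
    intro i
    rw [Polynomial.X_dvd_iff]
    have h1 := congrArg (fun q : K[X] => q.coeff i) h0
    simp only [coeff_map, coe_evalRingHom, coeff_zero] at h1
    rw [coeff_zero_eq_eval_zero]
    exact h1
  · rw [hx'] at hb'
    have h1 : aeval x (P'.map (evalRingHom 0)) = - (algebraMap N F f * b) := by
      rw [eq_neg_iff_add_eq_zero]
      exact hb'.symm
    rw [h1, Valuation.map_neg, map_mul]
    exact mul_lt_one_of_lt_of_le hfB ((B.valuation_le_one_iff _).2 hb)

end Pool.Agent.TT
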