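import Pool.Agent.TT.CDefs
import Pool.Agent.TT.Sp
import Pool.Agent.TT.PlExt

set_option autoImplicit false
set_option linter.unusedSectionVars false

/-! Project TT, block C, module C2: existence of places of `F` above a place of `N`.

The homomorphism from the valuation ring of `v` to the algebraic closure of `K` is extended to a place
of `F` by `pl_extend`; surjectivity by `pl_surj`. -/

namespace Pool.Agent.TT

open Pool.Agent.Helper16 Pool.Agent.Helper16.BB Pool.Agent.ThF Polynomial

variable {k N F : Type} [Field k] [Field N] [Field F] [Algebra k F] [Algebra (RatFunc k) N]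
  [Algebra (RatFunc k) F] [Algebra N F] [IsScalarTower k (RatFunc k) F]
  [IsScalarTower (RatFunc k) N F] [Algebra.IsAlgebraic N F] [IsAlgClosed F]

/-- Existence of places of `F` above a place of `N`. -/
theorem exists_pl_above (hN : IsFunctionField (RatFunc k) N) (v : Place (RatFunc k) N)
    (f : v.resField →ₐ[RatFunc k] Kb k) :
    ∃ π : Pl k F (Kb k), π.OverK ∧ π.Surj ∧ Above π.A v ∧
      ∀ x : N, v.val x ≤ 1 → π.Sp (algebraMap N F x) (f (v.res x)) := by
  let φ0 : v.ring →+* F := (algebraMap N F).comp (algebraMap v.ring N)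
  have hφ0 : Function.Injective φ0 := by
    intro x y h
    exact Subtype.ext ((algebraMap N F).injective h)
  let D : Subalgebra k F :=
    { φ0.range with
      algebraMap_mem' := fun a => by
        refine ⟨algebraMap (RatFunc k) v.ring (algebraMap k (RatFunc k) a), ?_⟩
        change algebraMap N F (algebraMap (RatFunc k) N (algebraMap k (RatFunc k) a)) = _
        rw [← IsScalarTower.algebraMap_apply (RatFunc k) N F,
          ← IsScalarTower.algebraMap_apply k (RatFunc k) F] }
  let e : v.ring ≃+* φ0.range := RingEquiv.ofBijective φ0.rangeRestrict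
    ⟨fun x y h => hφ0 (congrArg Subtype.val h), φ0.rangeRestrict_surjective⟩
  let ψ0 : φ0.range →+* Kb k :=
    ((f : v.resField →+* Kb k).comp (IsLocalRing.residue v.ring)).comp (e.symm : _ →+* v.ring)
  have hψ0 : ∀ (x : v.ring) (h : φ0 x ∈ φ0.range), ψ0 ⟨φ0 x, h⟩ = f (v.res (x : N)) := by
    intro x h
    have h1 : e x = ⟨φ0 x, h⟩ := rfl
    have h2 : e.symm ⟨φ0 x, h⟩ = x := by rw [← h1, RingEquiv.symm_apply_apply]
    change f (IsLocalRing.residue v.ring (e.symm ⟨φ0 x, h⟩)) = _
    rw [h2, v.res_of_mem x.2]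
  let ψ : D →ₐ[k] Kb k :=
    { toRingHom := ψ0
      commutes' := fun a => by
        have h1 : φ0 (algebraMap (RatFunc k) v.ring (algebraMap k (RatFunc k) a)) =
            algebraMap k F a := by
          change algebraMap N F (algebraMap (RatFunc k) N (algebraMap k (RatFunc k) a)) = _
          rw [← IsScalarTower.algebraMap_apply (RatFunc k) N F,
            ← IsScalarTower.algebraMap_apply k (RatFunc k) F]
        have h2 : algebraMap k D a =
            (⟨φ0 (algebraMap (RatFunc k) v.ring (algebraMap k (RatFunc k) a)), ⟨_, rfl⟩⟩ :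
              φ0.range) := Subtype.ext h1.symm
        have h3 : ψ0 (⟨φ0 (algebraMap (RatFunc k) v.ring (algebraMap k (RatFunc k) a)),
            ⟨_, rfl⟩⟩ : φ0.range) = algebraMap k (Kb k) a := by
          rw [hψ0]
          change f (v.res (algebraMap (RatFunc k) N (algebraMap k (RatFunc k) a))) = _
          rw [v.res_algebraMap, f.commutes, ← IsScalarTower.algebraMap_apply k (RatFunc k) (Kb k)]
        exact (congrArg ψ0 h2).trans h3 }
  obtain ⟨π, hπ⟩ := pl_extend D ψ
  have hsp : ∀ x : N, v.val x ≤ 1 → π.Sp (algebraMap N F x) (f (v.res x)) := by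
    intro x hx
    have h1 : φ0 ⟨x, hx⟩ ∈ φ0.range := ⟨_, rfl⟩
    have h2 := hπ ⟨φ0 ⟨x, hx⟩, h1⟩
    have h3 : ψ ⟨φ0 ⟨x, hx⟩, h1⟩ = f (v.res x) := hψ0 ⟨x, hx⟩ h1
    rw [h3] at h2
    exact h2
  have hK : π.OverK := by
    intro c
    have h1 := hsp (algebraMap (RatFunc k) N c) (v.val_algebraMap_le c)
    rw [v.res_algebraMap, f.commutes, ← IsScalarTower.algebraMap_apply (RatFunc k) N F] at h1
    exact h1
  refine ⟨π, hK, ?_, ?_, hsp⟩
  · refine pl_surj π fun y => ?_
    have hy : IsIntegral (RatFunc k) y := Algebra.IsIntegral.isIntegral y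
    refine ⟨(minpoly (RatFunc k) y).map (algebraMap (RatFunc k) (Kb k)), ?_, ?_, ?_⟩
    · exact (Polynomial.map_ne_zero (minpoly.ne_zero hy))
    · intro i
      rw [coeff_map]
      exact ⟨_, hK _⟩
    · rw [eval_map_algebraMap, minpoly.aeval]
  · intro x
    constructor
    · intro hx
      by_contra hlt
      rw [not_le] at hlt
      have hx0 : x ≠ 0 := by
        rintro rfl
        rw [map_zero] at hlt
        exact absurd hlt (not_lt.2 zero_le_one)
      have h1 : v.val x⁻¹ < 1 := by
        rw [map_inv₀]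
        exact inv_lt_one_of_one_lt₀ hlt
      have h2 := hsp x⁻¹ h1.le
      rw [(v.res_eq_zero_iff (x := x⁻¹) h1.le).2 h1, map_zero] at h2
      have h3 := (h2.eq_zero_iff).1 rfl
      rw [map_inv₀, map_inv₀] at h3
      have h4 := (π.A.valuation_le_one_iff _).2 hx
      have h5 : π.A.valuation (algebraMap N F x) ≠ 0 := by
        rw [Ne, map_eq_zero, map_eq_zero]
        exact hx0
      have h6 : (1 : π.A.ValueGroup) ≤ (π.A.valuation (algebraMap N F x))⁻¹ :=
        (one_le_inv₀ (zero_lt_iff.2 h5)).2 h4
      exact absurd h3 (not_lt.2 h6)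
    · intro hx
      exact (hsp x hx).mem

end Pool.Agent.TT
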