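import Pool.Agent.TT.C11
import Pool.Agent.TT.E.Defs
import Pool.Agent.Helper16.GC12
import Pool.Agent.Helper40.BBLowerB
import Pool.Agent.Helper62.BBPsiA
import Pool.Agent.Helper94.BBNorm
import Pool.Agent.PL.Alg
import Pool.Agent.PL.Ord
import Pool.Agent.PL.Spec
import Pool.Agent.TT.C9
import Pool.Agent.TT.FRMap

set_option autoImplicit false
set_option linter.unusedSectionVars false

/-! Project TT, block C: the results in the form used by blocks D (level of the variety) and E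
(selection of curves). -/

namespace Pool.Agent.TT

open Pool.Agent.Helper16 Pool.Agent.Helper16.BB Pool.Agent.ThF Polynomial

section

variable {k σ : Type} [Field k] [Finite k] [Finite σ] {I : Set (MvPolynomial σ (RatFunc k))}
  {N : Type} [Field N] [Algebra k N] [Algebra (RatFunc k) N] [IsScalarTower k (RatFunc k) N]

/-- The degree of the divisor of the functional on a curve is zero. -/
theorem ct1 (hI : ∀ P ∈ I, ∃ d, P.IsHomogeneous d) (hN : IsFunctionField (RatFunc k) N)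
    (x : σ → N) (hx : IsPoint (wOne σ) I x) {m : ℕ} (Δ : Fin m → CD σ (AlgebraicClosure N))
    (hm : 0 < m) (hok : ∀ l, (Δ l).Ok (k := k) I)
    (ht : ∀ l, (Δ l).be.eval (Δ l).s ≠ 0 ∧
      tt k (AlgebraicClosure N) * (Δ l).be.eval (Δ l).s = (Δ l).al.eval (Δ l).s)
    (hpt : ∀ l, ∃ c : AlgebraicClosure N, c ≠ 0 ∧
      ∀ j, ((Δ l).P j).eval (Δ l).s = c * algebraMap N (AlgebraicClosure N) (x j))
    (φ : Quo (wOne σ) I →ₗ[ℚ] ℚ) {n : ℕ} (hn : 0 < n) (q : Place (RatFunc k) N → N)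
    (hq0 : ∀ v, q v ≠ 0) (S : Finset (Place (RatFunc k) N)) (hS : ∀ v, v.ord (q v) ≠ 0 → v ∈ S)
    (hq : ∀ (v : Place (RatFunc k) N) (A : ValuationSubring (AlgebraicClosure N)),
      (∀ c : RatFunc k, algebraMap (RatFunc k) (AlgebraicClosure N) c ∈ A) →
      (∀ y : N, algebraMap N (AlgebraicClosure N) y ∈ A ↔ v.val y ≤ 1) →
      ∀ g, FRels φ A Δ g → A.valuation g ^ n =
        A.valuation (algebraMap N (AlgebraicClosure N) (q v))) :
    ∑ v ∈ S, v.ord (q v) * (v.deg : ℤ) = 0 := by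
  classical
  have hcrv : Crv (k := k) I x Δ := ⟨hm, hok, ht, hx, hpt⟩
  obtain ⟨S', hS', hsum⟩ := curve_degree hI hN φ x Δ hcrv hn q hq0 (fun v B hB g hg =>
    hq v B hB.hasK hB g hg)
  have key : ∀ S₁ : Finset (Place (RatFunc k) N), (∀ v, v.ord (q v) ≠ 0 → v ∈ S₁) →
      ∑ v ∈ S₁, v.ord (q v) * (v.deg : ℤ) =
        ∑ v ∈ S₁.filter (fun v => v.ord (q v) ≠ 0), v.ord (q v) * (v.deg : ℤ) := by
    intro S₁ _
    symm
    apply Finset.sum_filter_of_ne
    intro v _ h h0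
    apply h
    rw [h0, zero_mul]
  rw [key S' hS'] at hsum
  rw [key S hS]
  refine Eq.trans ?_ hsum
  refine Finset.sum_congr ?_ fun _ _ => rfl
  ext v
  simp only [Finset.mem_filter]
  exact ⟨fun h => ⟨hS' v h.2, h.2⟩, fun h => ⟨hS v h.2, h.2⟩⟩

/-- If the divisor of the functional on a curve is principal, then the functional is constant on
the curve. -/
theorem ct2 (hI : ∀ P ∈ I, ∃ d, P.IsHomogeneous d) (hN : IsFunctionField (RatFunc k) N)
    (x : σ → N) (hx : IsPoint (wOne σ) I x) {m : ℕ} (Δ : Fin m → CD σ (AlgebraicClosure N))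
    (hm : 0 < m) (hok : ∀ l, (Δ l).Ok (k := k) I)
    (ht : ∀ l, (Δ l).be.eval (Δ l).s ≠ 0 ∧
      tt k (AlgebraicClosure N) * (Δ l).be.eval (Δ l).s = (Δ l).al.eval (Δ l).s)
    (hpt : ∀ l, ∃ c : AlgebraicClosure N, c ≠ 0 ∧
      ∀ j, ((Δ l).P j).eval (Δ l).s = c * algebraMap N (AlgebraicClosure N) (x j))
    (φ : Quo (wOne σ) I →ₗ[ℚ] ℚ) {n : ℕ} (hn : 0 < n) (q : Place (RatFunc k) N → N)
    (hq0 : ∀ v, q v ≠ 0) (f : N) (hf : f ≠ 0) (hqf : ∀ v : Place (RatFunc k) N,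
      v.ord (q v) = v.ord f)
    (hq : ∀ (v : Place (RatFunc k) N) (A : ValuationSubring (AlgebraicClosure N)),
      (∀ c : RatFunc k, algebraMap (RatFunc k) (AlgebraicClosure N) c ∈ A) →
      (∀ y : N, algebraMap N (AlgebraicClosure N) y ∈ A ↔ v.val y ≤ 1) →
      ∀ g, FRels φ A Δ g → A.valuation g ^ n =
        A.valuation (algebraMap N (AlgebraicClosure N) (q v))) :
    ∃ C : ℚ, ∀ (v : Place (RatFunc k) N) (y : σ → Kb k), IsSp (wOne σ) I v x y →
      φ (cls (wOne σ) I y) = C := by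
  have hcrv : Crv (k := k) I x Δ := ⟨hm, hok, ht, hx, hpt⟩
  have hlow : Low φ Δ n (algebraMap N (AlgebraicClosure N) f) 1 := by
    intro B hB htop g hg
    obtain ⟨v, hv⟩ := exists_above hN B hB htop
    rw [map_one, max_self, mul_one, hq v B hB hv g hg, above_val hv]
    have h1 : v.val f ≠ 0 := by simpa using hf
    have h2 : v.val (q v) ≠ 0 := by simpa using hq0 v
    have h3 := hqf v
    rw [Place.ord, Place.ord, neg_inj] at h3
    rw [← WithZero.exp_log h1, ← WithZero.exp_log h2, h3]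
  by_cases hex : ∃ (v : Place (RatFunc k) N) (y : σ → Kb k), IsSp (wOne σ) I v x y
  · obtain ⟨v₀, y₀, h0⟩ := hex
    refine ⟨φ (cls (wOne σ) I y₀), fun v y hy => ?_⟩
    exact curve_const hI hN φ x Δ hcrv hn (by simpa using hf) hlow hy h0
  · exact ⟨0, fun v y hy => absurd ⟨v, y, hy⟩ hex⟩

end

/-- Bounded below implies constant. -/
theorem cstOn_of_bdd {K σ : Type} [Field K] [Finite σ] {I : Set (MvPolynomial σ K)}
    (hI : ∀ P ∈ I, ∃ d, P.IsHomogeneous d) (φ : Quo (wOne σ) I →ₗ[ℚ] ℚ)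
    (N : Type) [Field N] [Algebra K N] (z : σ → N) (hN : IsFunctionField K N)
    (hz : IsPoint (wOne σ) I z)
    (h : ∃ c : ℚ, ∀ (v : Place K N) (y : σ → AlgebraicClosure K), IsSp (wOne σ) I v z y →
      c ≤ φ (cls (wOne σ) I y)) : E.CstOn I φ z := by
  obtain ⟨c, hc⟩ := h
  intro v v' y y' hy hy'
  exact const_of_bdd_below hI hN φ z hz ∅ c (fun v _ y hy => hc v y hy) hy hy'

end Pool.Agent.TT
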