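import Pool.Agent.TT.DDefs
import Pool.Agent.TT.Sp
import Pool.Agent.Helper51.TT.ULim

set_option autoImplicit false
set_option linter.unusedSectionVars false

/-! Project TT, block D4a: centres of valuation rings over `K = k(t)` on projective varieties. -/

namespace Pool.Agent.TT

open Pool.Agent.Helper16 Pool.Agent.Helper16.BB Pool.Agent.Helper16.GT Pool.Agent.ThF Polynomial

variable {k σ : Type} [Field k] [Finite σ] {E : Type} [Field E] [Algebra (RatFunc k) E]

theorem dcen_hom (c : E) (x : σ → E) (F : MvPolynomial σ (RatFunc k)) (n : ℕ)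
    (hF : F.IsHomogeneous n) :
    MvPolynomial.aeval (fun i => c * x i) F = c ^ n * MvPolynomial.aeval x F := by
  rw [MvPolynomial.aeval_def, MvPolynomial.aeval_def, MvPolynomial.eval₂_eq,
    MvPolynomial.eval₂_eq, Finset.mul_sum]
  refine Finset.sum_congr rfl fun d hd => ?_
  have h1 : ∑ i ∈ d.support, d i = n := by
    have h2 := hF (MvPolynomial.mem_support_iff.1 hd)
    rw [Finsupp.weight_apply, Finsupp.sum] at h2
    rw [← h2]
    exact Finset.sum_congr rfl fun j _ => by simp
  have h3 : ∏ i ∈ d.support, (c * x i) ^ d i = c ^ n * ∏ i ∈ d.support, x i ^ d i := by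
    rw [← h1, ← Finset.prod_pow_eq_pow_sum, ← Finset.prod_mul_distrib]
    exact Finset.prod_congr rfl fun j _ => mul_pow _ _ _
  rw [h3]
  ring

theorem dcen_scale (x : σ → E) (j : σ) (hj : x j ≠ 0) (F : MvPolynomial σ (RatFunc k)) (n : ℕ)
    (hF : F.IsHomogeneous n) :
    MvPolynomial.aeval x F = x j ^ n * MvPolynomial.aeval (fun i => (x j)⁻¹ * x i) F := by
  rw [← dcen_hom _ _ _ n hF]
  congr 1
  congr 1
  funext i
  rw [← mul_assoc, mul_inv_cancel₀ hj, one_mul]

/-- Normalised coordinates: divide by the coordinate of largest value. -/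
theorem nval_norm (B : ValuationSubring E) (x : σ → E) (hx : x ≠ 0) :
    ∃ j, x j ≠ 0 ∧ ∀ i, B.valuation ((x j)⁻¹ * x i) ≤ 1 := by
  obtain ⟨i0, hi0⟩ : ∃ i, x i ≠ 0 := by
    by_contra h
    push Not at h
    exact hx (funext h)
  have : Nonempty σ := ⟨i0⟩
  obtain ⟨j, hj⟩ := Finite.exists_max (fun i => B.valuation (x i))
  have hj0 : x j ≠ 0 := by
    intro h
    have h1 := hj i0
    rw [h, map_zero] at h1
    have h2 : B.valuation (x i0) = 0 := le_zero_iff.1 h1
    exact hi0 ((map_eq_zero _).1 h2)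
  refine ⟨j, hj0, fun i => ?_⟩
  have h3 := (val_le_iff B (x i) (x j) hj0).1 (hj i)
  rw [ValuationSubring.valuation_le_one_iff, inv_mul_eq_div]
  exact h3

theorem nval_le (B : ValuationSubring E) (hB : OverK k B) (x : σ → E)
    (h1 : ∀ j, B.valuation (x j) ≤ 1) (F : MvPolynomial σ (RatFunc k)) :
    B.valuation (MvPolynomial.aeval x F) ≤ 1 := by
  rw [ValuationSubring.valuation_le_one_iff]
  induction F using MvPolynomial.induction_on with
  | C a => rw [MvPolynomial.aeval_C]; exact hB a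
  | add p q hp hq => rw [map_add]; exact B.add_mem _ _ hp hq
  | mul_X p i hp =>
    rw [map_mul, MvPolynomial.aeval_X]
    exact B.mul_mem _ _ hp ((B.valuation_le_one_iff _).1 (h1 i))

/-- The condition `NVal` in normalised coordinates. -/
theorem nval_iff (B : ValuationSubring E) (hB : OverK k B) (x : σ → E) (j : σ) (hj : x j ≠ 0)
    (h1 : ∀ i, B.valuation ((x j)⁻¹ * x i) ≤ 1) (F : MvPolynomial σ (RatFunc k)) (n : ℕ)
    (hF : F.IsHomogeneous n) :
    NVal B x F ↔ B.valuation (MvPolynomial.aeval (fun i => (x j)⁻¹ * x i) F) = 1 := by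
  constructor
  · rintro ⟨c, hc, hc1⟩
    rw [dcen_hom c x F n hF, dcen_scale x j hj F n hF, ← mul_assoc, ← mul_pow, map_mul,
      map_pow] at hc1
    have h2 := nval_le B hB _ h1 F
    have h3 : B.valuation (c * x j) ^ n ≤ 1 := pow_le_one₀ zero_le (hc j)
    refine le_antisymm h2 ?_
    rw [← hc1]
    exact mul_le_of_le_one_left' h3
  · intro h
    exact ⟨(x j)⁻¹, h1, h⟩

theorem dcen_one (x : σ → E) (j : σ) (hj : x j ≠ 0) : (fun i => (x j)⁻¹ * x i) j = 1 :=
  inv_mul_cancel₀ hj

theorem nval_X (B : ValuationSubring E) (hB : OverK k B) (x : σ → E) (j : σ) :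
    NVal B x (MvPolynomial.X j : MvPolynomial σ (RatFunc k)) ↔
      x j ≠ 0 ∧ ∀ i, B.valuation ((x j)⁻¹ * x i) ≤ 1 := by
  constructor
  · rintro ⟨c, hc, hc1⟩
    rw [MvPolynomial.aeval_X] at hc1
    have h0 : c * x j ≠ 0 := by
      intro h
      rw [h, map_zero] at hc1
      exact zero_ne_one hc1
    have hj : x j ≠ 0 := right_ne_zero_of_mul h0
    have hc0 : c ≠ 0 := left_ne_zero_of_mul h0
    refine ⟨hj, fun i => ?_⟩
    have h2 : (x j)⁻¹ * x i = (c * x j)⁻¹ * (c * x i) := by
      field_simp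
    rw [h2, map_mul, map_inv₀, hc1, inv_one, one_mul]
    exact hc i
  · rintro ⟨hj, h1⟩
    refine ⟨(x j)⁻¹, h1, ?_⟩
    rw [MvPolynomial.aeval_X, inv_mul_cancel₀ hj, map_one]

theorem nval_mul (B : ValuationSubring E) (hB : OverK k B) (x : σ → E) (hx : x ≠ 0)
    (F G : MvPolynomial σ (RatFunc k)) (n n' : ℕ) (hF : F.IsHomogeneous n)
    (hG : G.IsHomogeneous n') : NVal B x (F * G) ↔ NVal B x F ∧ NVal B x G := by
  obtain ⟨j, hj, h1⟩ := nval_norm B x hx
  rw [nval_iff B hB x j hj h1 F n hF, nval_iff B hB x j hj h1 G n' hG,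
    nval_iff B hB x j hj h1 (F * G) (n + n') (hF.mul hG), map_mul, map_mul]
  have h2 := nval_le B hB _ h1 F
  have h3 := nval_le B hB _ h1 G
  constructor
  · intro h
    constructor
    · refine le_antisymm h2 ?_
      rw [← h]
      exact mul_le_of_le_one_right' h3
    · refine le_antisymm h3 ?_
      rw [← h]
      exact mul_le_of_le_one_left' h2
  · rintro ⟨h4, h5⟩
    rw [h4, h5, one_mul]

theorem nval_one (B : ValuationSubring E) (x : σ → E) (hx : x ≠ 0) :
    NVal B x (1 : MvPolynomial σ (RatFunc k)) := by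
  obtain ⟨j, hj, h1⟩ := nval_norm B x hx
  exact ⟨(x j)⁻¹, h1, by rw [map_one, map_one]⟩

theorem nval_smul (B : ValuationSubring E) (x : σ → E) (a : E) (ha : a ≠ 0)
    (F : MvPolynomial σ (RatFunc k)) : NVal B (fun j => a * x j) F ↔ NVal B x F := by
  constructor
  · rintro ⟨c, hc, hc1⟩
    refine ⟨c * a, fun j => ?_, ?_⟩
    · rw [mul_assoc]
      exact hc j
    · have h2 : (fun j => c * a * x j) = fun j => c * (a * x j) := by
        funext j
        rw [mul_assoc]
      rw [h2]
      exact hc1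
  · rintro ⟨c, hc, hc1⟩
    have h2 : ∀ j, c * a⁻¹ * (a * x j) = c * x j := by
      intro j
      rw [mul_assoc, ← mul_assoc a⁻¹, inv_mul_cancel₀ ha, one_mul]
    refine ⟨c * a⁻¹, fun j => ?_, ?_⟩
    · rw [h2]
      exact hc j
    · rw [funext h2]
      exact hc1

theorem nval_ne_zero (B : ValuationSubring E) (x : σ → E) (F : MvPolynomial σ (RatFunc k)) (n : ℕ)
    (hF : F.IsHomogeneous n) (h : NVal B x F) : MvPolynomial.aeval x F ≠ 0 := by
  obtain ⟨c, _, hc1⟩ := h
  intro h0
  rw [dcen_hom c x F n hF, h0, mul_zero, map_zero] at hc1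
  exact zero_ne_one hc1

theorem dcen_top (y : E) (hy : y ≠ 0) : (⊤ : ValuationSubring E).valuation y = 1 := by
  refine le_antisymm ?_ ?_
  · rw [ValuationSubring.valuation_le_one_iff]
    exact ValuationSubring.mem_top y
  · have h := val_le_iff (⊤ : ValuationSubring E) 1 y hy
    rw [map_one] at h
    exact h.2 (ValuationSubring.mem_top _)

theorem nval_top (x : σ → E) (hx : x ≠ 0) (F : MvPolynomial σ (RatFunc k)) (n : ℕ)
    (hF : F.IsHomogeneous n) (h : MvPolynomial.aeval x F ≠ 0) :
    NVal (⊤ : ValuationSubring E) x F := by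
  refine ⟨1, fun j => ?_, ?_⟩
  · rw [ValuationSubring.valuation_le_one_iff]
    exact ValuationSubring.mem_top _
  · rw [dcen_hom 1 x F n hF, one_pow, one_mul]
    exact dcen_top _ h

theorem dcen_quot (x : σ → E) (j : σ) (hj : x j ≠ 0) (F G : MvPolynomial σ (RatFunc k)) (n : ℕ)
    (hF : F.IsHomogeneous n) (hG : G.IsHomogeneous n) :
    MvPolynomial.aeval x F / MvPolynomial.aeval x G =
      MvPolynomial.aeval (fun i => (x j)⁻¹ * x i) F /
        MvPolynomial.aeval (fun i => (x j)⁻¹ * x i) G := by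
  rw [dcen_scale x j hj F n hF, dcen_scale x j hj G n hG]
  exact mul_div_mul_left _ _ (pow_ne_zero _ hj)

/-- The value of a quotient of forms of the same degree which do not vanish at the centre. -/
theorem nval_div (B : ValuationSubring E) (hB : OverK k B) (x : σ → E) (hx : x ≠ 0)
    (F G : MvPolynomial σ (RatFunc k)) (n : ℕ) (hF : F.IsHomogeneous n) (hG : G.IsHomogeneous n)
    (hF1 : NVal B x F) (hG1 : NVal B x G) :
    B.valuation (MvPolynomial.aeval x F / MvPolynomial.aeval x G) = 1 := by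
  obtain ⟨j, hj, h1⟩ := nval_norm B x hx
  rw [dcen_quot x j hj F G n hF hG, map_div₀, (nval_iff B hB x j hj h1 F n hF).1 hF1,
    (nval_iff B hB x j hj h1 G n hG).1 hG1, div_one]

/-- The same with only the denominator a unit. -/
theorem nval_div_lt (B : ValuationSubring E) (hB : OverK k B) (x : σ → E) (hx : x ≠ 0)
    (F G : MvPolynomial σ (RatFunc k)) (n : ℕ) (hF : F.IsHomogeneous n) (hG : G.IsHomogeneous n)
    (hF1 : ¬ NVal B x F) (hG1 : NVal B x G) :
    B.valuation (MvPolynomial.aeval x F / MvPolynomial.aeval x G) < 1 := by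
  obtain ⟨j, hj, h1⟩ := nval_norm B x hx
  rw [dcen_quot x j hj F G n hF hG, map_div₀, (nval_iff B hB x j hj h1 G n hG).1 hG1, div_one]
  refine lt_of_le_of_ne (nval_le B hB _ h1 F) fun h => hF1 ?_
  exact (nval_iff B hB x j hj h1 F n hF).2 h

/-- The evaluation at integral coordinates with values in the residue field. -/
noncomputable def dcen_ev (B : ValuationSubring E) (hB : OverK k B) (y : σ → E)
    (hy : ∀ i, B.valuation (y i) ≤ 1) :
    MvPolynomial σ (RatFunc k) →+* IsLocalRing.ResidueField B :=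
  (IsLocalRing.residue B).comp
    (((MvPolynomial.aeval y : MvPolynomial σ (RatFunc k) →ₐ[RatFunc k] E) :
      MvPolynomial σ (RatFunc k) →+* E).codRestrict B.toSubring fun F =>
        (B.valuation_le_one_iff _).1 (nval_le B hB y hy F))

theorem dcen_ev_iff (B : ValuationSubring E) (hB : OverK k B) (y : σ → E)
    (hy : ∀ i, B.valuation (y i) ≤ 1) (F : MvPolynomial σ (RatFunc k)) :
    dcen_ev B hB y hy F = 0 ↔ B.valuation (MvPolynomial.aeval y F) ≠ 1 := by
  have h1 : dcen_ev B hB y hy F = IsLocalRing.residue B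
      ⟨MvPolynomial.aeval y F, (B.valuation_le_one_iff _).1 (nval_le B hB y hy F)⟩ := rfl
  rw [h1, IsLocalRing.residue_eq_zero_iff, IsLocalRing.mem_maximalIdeal, mem_nonunits_iff]
  exact not_congr (B.valuation_eq_one_iff _)

/-- The centre: the largest homogeneous ideal contained in the kernel of the evaluation at the
normalised coordinates with values in the residue field of `B` (a prime ideal, by
`Ideal.IsPrime.homogeneousCore`). -/
theorem cen_exists (B : ValuationSubring E) (hB : OverK k B) (x : σ → E) (hx : x ≠ 0)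
    {I : Set (MvPolynomial σ (RatFunc k))} (hI : ∀ P ∈ I, ∃ d, P.IsHomogeneous d)
    (hxI : ∀ P ∈ I, MvPolynomial.aeval x P = 0) :
    ∃ P : Ideal (MvPolynomial σ (RatFunc k)), P.IsPrime ∧
      (∀ F ∈ P, ∀ n, MvPolynomial.homogeneousComponent n F ∈ P) ∧ Ideal.span I ≤ P ∧
      (∃ j, MvPolynomial.X j ∉ P) ∧ Cen B x P := by
  obtain ⟨j, hj, h1⟩ := nval_norm B x hx
  let e := dcen_ev B hB (fun i => (x j)⁻¹ * x i) h1
  let := MvPolynomial.gradedAlgebra (σ := σ) (R := RatFunc k)
  have hpr : (RingHom.ker e).IsPrime := RingHom.ker_isPrime e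
  have hmem : ∀ F n, F.IsHomogeneous n →
      (F ∈ ((RingHom.ker e).homogeneousCore
        (MvPolynomial.homogeneousSubmodule σ (RatFunc k))).toIdeal ↔ ¬ NVal B x F) := by
    intro F n hF
    rw [nval_iff B hB x j hj h1 F n hF, ← ne_eq, ← dcen_ev_iff B hB _ h1 F]
    constructor
    · intro h
      exact Ideal.toIdeal_homogeneousCore_le _ _ h
    · intro h
      exact Ideal.mem_homogeneousCore_of_homogeneous_of_mem ⟨n, hF⟩ h
  refine ⟨((RingHom.ker e).homogeneousCore
    (MvPolynomial.homogeneousSubmodule σ (RatFunc k))).toIdeal, hpr.homogeneousCore, ?_, ?_,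
    ⟨j, ?_⟩, hmem⟩
  · intro F hF n
    have h2 := (Ideal.homogeneousCore (MvPolynomial.homogeneousSubmodule σ (RatFunc k))
      (RingHom.ker e)).isHomogeneous n hF
    have h3 : ((DirectSum.decompose (MvPolynomial.homogeneousSubmodule σ (RatFunc k)) F n :
        MvPolynomial.homogeneousSubmodule σ (RatFunc k) n) : MvPolynomial σ (RatFunc k)) =
        MvPolynomial.homogeneousComponent n F :=
      MvPolynomial.decomposition.decompose'_apply F n
    rw [← h3]
    exact h2
  · rw [Ideal.span_le]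
    intro P hP
    obtain ⟨d, hd⟩ := hI P hP
    refine (hmem P d hd).2 fun h => ?_
    exact nval_ne_zero B x P d hd h (hxI P hP)
  · intro h
    exact (hmem _ 1 (MvPolynomial.isHomogeneous_X _ j)).1 h ((nval_X B hB x j).2 ⟨hj, h1⟩)

/-- The centre of a limit of valuation rings along an ultrafilter. Proof: by finiteness of `σ` the
index `j` of the coordinate of largest value for `A i` is the same for `U`-most `i`; use `nval_iff`
for it. -/
theorem nval_lim {ι : Type} (U : Ultrafilter ι) (A : ι → ValuationSubring E)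
    (B : ValuationSubring E) (hB : ∀ x, x ∈ B ↔ ∀ᶠ i in U, x ∈ A i)
    (hA : ∀ᶠ i in U, OverK k (A i)) (x : σ → E) (hx : x ≠ 0) :
    OverK k B ∧ ∀ (F : MvPolynomial σ (RatFunc k)) (n : ℕ), F.IsHomogeneous n →
      (NVal B x F ↔ ∀ᶠ i in U, NVal (A i) x F) := by
  have hBU : B = Pool.Agent.Helper51.TT.ulim U A := by
    ext y
    exact hB y
  have hBk : OverK k B := fun c => (hB _).2 (hA.mono fun i hi => hi c)
  refine ⟨hBk, fun F n hF => ?_⟩
  obtain ⟨j, hj, h1⟩ := nval_norm B x hx
  have h2 : ∀ᶠ i in U, ∀ l, (A i).valuation ((x j)⁻¹ * x l) ≤ 1 := by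
    rw [Filter.eventually_all]
    intro l
    have h3 := h1 l
    rw [hBU] at h3
    exact Pool.Agent.Helper51.TT.val_ulim_le.1 h3
  rw [nval_iff B hBk x j hj h1 F n hF, hBU, Pool.Agent.Helper51.TT.val_ulim_eq]
  constructor
  · intro h
    filter_upwards [h, h2, hA] with i h3 h4 h5
    exact (nval_iff (A i) h5 x j hj h4 F n hF).2 h3
  · intro h
    filter_upwards [h, h2, hA] with i h3 h4 h5
    exact (nval_iff (A i) h5 x j hj h4 F n hF).1 h3

end Pool.Agent.TT
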