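import Mathlib
import Pool.Agent.TT.DPrime
import Pool.Agent.TT.DRels

set_option autoImplicit false
set_option linter.unusedSectionVars false

/-! Project TT, block D8: limits of valuation rings over `K`. -/

namespace Pool.Agent.TT

open Pool.Agent.Helper16 Pool.Agent.Helper16.BB Pool.Agent.Helper16.GT Pool.Agent.ThF Polynomial

variable {k σ : Type} [Field k] [Finite k] [Finite σ] {I : Set (MvPolynomial σ (RatFunc k))}
variable {Fx : Type} [Field Fx] [Algebra k Fx] [Algebra (RatFunc k) Fx]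
  [IsScalarTower k (RatFunc k) Fx] {η : σ → Fx} {j₀ : σ}

/-- The claim behind `d8_core`. -/
theorem dlim_claim (hI : ∀ P ∈ I, ∃ d, P.IsHomogeneous d) (hpr : (Ideal.span I).IsPrime)
    (hη : IsGen I η j₀) (Bad : Set (ValuationSubring (AlgebraicClosure Fx)))
    (hK : ∀ B ∈ Bad, OverK k B)
    (h : ∀ (U : Ultrafilter Bad) (Bs : ValuationSubring (AlgebraicClosure Fx)),
      (∀ x, x ∈ Bs ↔ ∀ᶠ (i : Bad) in (U : Filter Bad), x ∈ i.1) → OverK k Bs →
      (Bs = ⊤ ∨ ∃ P, IsPD (Ideal.span I) P ∧ Cen Bs (ηo η) P) → False)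
    (P : Ideal (MvPolynomial σ (RatFunc k))) (hP : P.IsPrime)
    (hPI : P = Ideal.span I ∨ IsPD (Ideal.span I) P) :
    ∃ E : MvPolynomial σ (RatFunc k), ((∃ m, E.IsHomogeneous m) ∧
      ∀ B ∈ Bad, ¬ NVal B (ηo η) E) ∧ E ∉ P := by
  classical
  have hx : ηo η ≠ 0 := eta_ne hη
  by_contra hcon
  -- every form outside `P` is a unit at the centre of some `B ∈ Bad`
  have hex : ∀ (E : MvPolynomial σ (RatFunc k)) (m : ℕ), E.IsHomogeneous m → E ∉ P →
      ∃ B ∈ Bad, NVal B (ηo η) E := by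
    intro E m hE hEP
    by_contra hno
    apply hcon
    refine ⟨E, ⟨⟨m, hE⟩, fun B hB hN => hno ⟨B, hB, hN⟩⟩, hEP⟩
  -- the family of sets
  let 𝒮 : Set (Set Bad) := {T | ∃ (E : MvPolynomial σ (RatFunc k)) (m : ℕ), E.IsHomogeneous m ∧
    E ∉ P ∧ T = {B : Bad | NVal B.1 (ηo η) E}}
  have hfin : ∀ T : Finset (Set Bad), (T : Set (Set Bad)) ⊆ 𝒮 →
      ∃ (E : MvPolynomial σ (RatFunc k)) (m : ℕ), E.IsHomogeneous m ∧ E ∉ P ∧
        {B : Bad | NVal B.1 (ηo η) E} ⊆ ⋂₀ (T : Set (Set Bad)) := by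
    intro T
    induction T using Finset.induction_on with
    | empty =>
      intro _
      refine ⟨1, 0, MvPolynomial.isHomogeneous_one _ _, fun h1 => hP.ne_top
        ((Ideal.eq_top_iff_one P).2 h1), ?_⟩
      simp
    | insert T₀ T hT₀ ih =>
      intro hT
      rw [Finset.coe_insert] at hT
      obtain ⟨E, m, hE, hEP, hsub⟩ := ih (fun x hx => hT (Set.mem_insert_of_mem _ hx))
      obtain ⟨E', m', hE', hEP', hT₀'⟩ := hT (Set.mem_insert T₀ _)
      refine ⟨E * E', m + m', hE.mul hE', fun hmem => ?_, ?_⟩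
      · rcases hP.mem_or_mem hmem with h1 | h1
        · exact hEP h1
        · exact hEP' h1
      · intro B hB
        have hB' := (nval_mul B.1 (hK B.1 B.2) (ηo η) hx E E' m m' hE hE').1 hB
        rw [Finset.coe_insert, Set.sInter_insert]
        refine ⟨?_, hsub hB'.1⟩
        rw [hT₀']
        exact hB'.2
  obtain ⟨U, hU⟩ := Ultrafilter.exists_ultrafilter_of_finite_inter_nonempty 𝒮 (by
    intro T hT
    obtain ⟨E, m, hE, hEP, hsub⟩ := hfin T hT
    obtain ⟨B, hB, hN⟩ := hex E m hE hEP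
    exact ⟨⟨B, hB⟩, hsub hN⟩)
  let Bs : ValuationSubring (AlgebraicClosure Fx) :=
    Pool.Agent.Helper51.TT.ulim U (fun i : Bad => i.1)
  have hBs : ∀ x, x ∈ Bs ↔ ∀ᶠ (i : Bad) in (U : Filter Bad), x ∈ i.1 := fun x =>
    Pool.Agent.Helper51.TT.mem_ulim
  obtain ⟨hov, hlim⟩ := nval_lim (k := k) (σ := σ) U (fun i : Bad => i.1) Bs hBs
    (Filter.Eventually.of_forall fun i => hK i.1 i.2) (ηo η) hx
  have hunit : ∀ (E : MvPolynomial σ (RatFunc k)) (m : ℕ), E.IsHomogeneous m → E ∉ P →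
      NVal Bs (ηo η) E := by
    intro E m hE hEP
    rw [hlim E m hE]
    exact hU ⟨E, m, hE, hEP, rfl⟩
  obtain ⟨P', hP'prime, hP'hom, hIP', -, hcen⟩ := cen_exists Bs hov (ηo η) hx hI (by
    intro Q hQ
    obtain ⟨d, hd⟩ := hI Q hQ
    exact (eta_mem hη Q d hd).2 (Ideal.subset_span hQ))
  have hle : P' ≤ P := by
    intro F hF
    rw [← MvPolynomial.sum_homogeneousComponent F]
    refine Ideal.sum_mem _ fun n _ => ?_
    by_contra hnot
    exact (hcen _ n (MvPolynomial.homogeneousComponent_isHomogeneous n F)).1 (hP'hom F hF n)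
      (hunit _ n (MvPolynomial.homogeneousComponent_isHomogeneous n F) hnot)
  have htop : P' = Ideal.span I → Bs = ⊤ := by
    intro heq
    refine d4_top hI hpr hη Bs hov ?_
    intro F n hF hFI
    by_contra hno
    apply hFI
    rw [← heq]
    exact (hcen F n hF).2 hno
  rcases hPI with hPI | hPI
  · exact h U Bs hBs hov (Or.inl (htop (le_antisymm (hPI ▸ hle) hIP')))
  · rcases eq_or_lt_of_le hIP' with heq | hlt
    · exact h U Bs hBs hov (Or.inl (htop heq.symm))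
    · have hPP := hPI.min P' hP'prime hP'hom hlt hle
      refine h U Bs hBs hov (Or.inr ⟨P, hPI, ?_⟩)
      rw [← hPP]
      exact hcen

/-- D8a. The core. Proof: let `J` be the set of all forms which vanish at the centres of all `B ∈ Bad`.
Let `P` be a prime divisor or `span I`, and suppose that all `E ∈ J` are in `P`. The sets
`{B ∈ Bad | NVal B (ηo η) E}`, `E ∉ P` a form, are not empty and closed under intersection up to
refinement (`nval_mul`), so some ultrafilter on `Bad` contains all of them. By `nval_lim` its limit `Bs`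
is over `K` and no form outside `P` vanishes at its centre. The centre `P'` (`cen_exists`) satisfies
`span I ≤ P' ≤ P`, so it is `span I` (then `Bs = ⊤` by `d4_top`) or `P` (by `IsPD.min`). -/
theorem d8_core (hI : ∀ P ∈ I, ∃ d, P.IsHomogeneous d) (hpr : (Ideal.span I).IsPrime)
    (hη : IsGen I η j₀) (Bad : Set (ValuationSubring (AlgebraicClosure Fx)))
    (hK : ∀ B ∈ Bad, OverK k B)
    (h : ∀ (U : Ultrafilter Bad) (Bs : ValuationSubring (AlgebraicClosure Fx)),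
      (∀ x, x ∈ Bs ↔ ∀ᶠ (i : Bad) in (U : Filter Bad), x ∈ i.1) → OverK k Bs →
      (Bs = ⊤ ∨ ∃ P, IsPD (Ideal.span I) P ∧ Cen Bs (ηo η) P) → False) :
    ∃ J : Set (MvPolynomial σ (RatFunc k)), (∀ E ∈ J, ∃ m, E.IsHomogeneous m) ∧
      (∀ P, IsPD (Ideal.span I) P → ∃ E ∈ J, E ∉ P) ∧ (∃ E ∈ J, E ∉ Ideal.span I) ∧
      ∀ B ∈ Bad, ∀ E ∈ J, ¬ NVal B (ηo η) E := by
  refine ⟨{E | (∃ m, E.IsHomogeneous m) ∧ ∀ B ∈ Bad, ¬ NVal B (ηo η) E}, fun E hE => hE.1, ?_, ?_,
    fun B hB E hE => hE.2 B hB⟩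
  · intro P hP
    obtain ⟨E, hE, hEP⟩ := dlim_claim hI hpr hη Bad hK h P hP.prime (Or.inr hP)
    exact ⟨E, hE, hEP⟩
  · obtain ⟨E, hE, hEP⟩ := dlim_claim hI hpr hη Bad hK h _ hpr (Or.inl rfl)
    exact ⟨E, hE, hEP⟩

/-- The common part of `d8_le` and `d8_le_top`. -/
theorem dlim_le (hI : ∀ P ∈ I, ∃ d, P.IsHomogeneous d) (hpr : (Ideal.span I).IsPrime)
    (D : Dv (Ideal.span I)) {ι : Type} (U : Ultrafilter ι)
    (A : ι → ValuationSubring (AlgebraicClosure Fx)) (x : σ → AlgebraicClosure Fx)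
    (F G : MvPolynomial σ (RatFunc k)) (m : ℕ) (hF : F.IsHomogeneous m) (hG : G.IsHomogeneous m)
    (hF1 : F ∉ Ideal.span I) (hG1 : G ∉ Ideal.span I)
    (h : ∀ P : {P : Ideal (MvPolynomial σ (RatFunc k)) // IsPD (Ideal.span I) P},
      D P = (ordP (Ideal.span I) P.1 F : ℤ) - (ordP (Ideal.span I) P.1 G : ℤ) ∨
      ∃ (E : MvPolynomial σ (RatFunc k)) (n : ℕ), E.IsHomogeneous n ∧ E ∈ P.1 ∧
        ∀ᶠ i in U, NVal (A i) x E) :
    ∀ᶠ i in U, LocE (Ideal.span I) D (A i) x F G := by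
  classical
  have hspan := d1_span hI
  have hfF := d1_fin hpr hspan F m hF hF1
  have hfG := d1_fin hpr hspan G m hG hG1
  have hS : ({P : {P : Ideal (MvPolynomial σ (RatFunc k)) // IsPD (Ideal.span I) P} |
      P ∈ D.support ∨ F ∈ P.1 ∨ G ∈ P.1}).Finite := by
    refine Set.Finite.union D.support.finite_toSet (Set.Finite.union ?_ ?_)
    · refine Set.Finite.of_finite_image (f := Subtype.val) (hfF.subset ?_)
        Subtype.val_injective.injOn
      rintro _ ⟨P, hP, rfl⟩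
      exact ⟨P.2, hP⟩
    · refine Set.Finite.of_finite_image (f := Subtype.val) (hfG.subset ?_)
        Subtype.val_injective.injOn
      rintro _ ⟨P, hP, rfl⟩
      exact ⟨P.2, hP⟩
  have hev : ∀ᶠ i in (U : Filter ι),
      ∀ P ∈ {P : {P : Ideal (MvPolynomial σ (RatFunc k)) // IsPD (Ideal.span I) P} |
        P ∈ D.support ∨ F ∈ P.1 ∨ G ∈ P.1},
      (∀ E ∈ P.1, (∃ m, E.IsHomogeneous m) → ¬ NVal (A i) x E) →
        D P = (ordP (Ideal.span I) P.1 F : ℤ) - (ordP (Ideal.span I) P.1 G : ℤ) := by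
    rw [Filter.eventually_all_finite hS]
    intro P _
    rcases h P with h1 | ⟨E, n, hE, hEP, h1⟩
    · exact Filter.Eventually.of_forall fun i _ => h1
    · filter_upwards [h1] with i hi hno
      exact absurd hi (hno E hEP ⟨n, hE⟩)
  filter_upwards [hev] with i hi P hP
  by_cases hPS : P ∈ D.support ∨ F ∈ P.1 ∨ G ∈ P.1
  · exact hi P hPS hP
  · push Not at hPS
    obtain ⟨h1, h2, h3⟩ := hPS
    rw [Finsupp.notMem_support_iff] at h1
    rw [h1, d1_zero P.1 P.2 F h2, d1_zero P.1 P.2 G h3]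
    simp

/-- D8b. In a limit with centre `P` a pair `F, G` (forms of the same degree) with
`D P = ord F - ord G` is eventually a local equation: only the finitely many prime divisors `P'` in
`D.support` or containing `F` or `G` (`d1_fin`) matter (`d1_zero`), and for `P' ≠ P` there is a form
`E ∈ P'`, `E ∉ P` (`d1_ne`), which does not vanish at the centre of the limit. -/
theorem d8_le (hI : ∀ P ∈ I, ∃ d, P.IsHomogeneous d) (hpr : (Ideal.span I).IsPrime)
    (hη : IsGen I η j₀) (D : Dv (Ideal.span I)) {ι : Type} (U : Ultrafilter ι)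
    (A : ι → ValuationSubring (AlgebraicClosure Fx)) (hA : ∀ i, OverK k (A i))
    (Bs : ValuationSubring (AlgebraicClosure Fx)) (hBs : ∀ x, x ∈ Bs ↔ ∀ᶠ i in U, x ∈ A i)
    (P : Ideal (MvPolynomial σ (RatFunc k))) (hP : IsPD (Ideal.span I) P) (hc : Cen Bs (ηo η) P)
    (F G : MvPolynomial σ (RatFunc k)) (m : ℕ) (hF : F.IsHomogeneous m) (hG : G.IsHomogeneous m)
    (hF1 : F ∉ Ideal.span I) (hG1 : G ∉ Ideal.span I)
    (hD : D ⟨P, hP⟩ = (ordP (Ideal.span I) P F : ℤ) - (ordP (Ideal.span I) P G : ℤ)) :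
    ∀ᶠ i in U, LocE (Ideal.span I) D (A i) (ηo η) F G := by
  have hx : ηo η ≠ 0 := eta_ne hη
  obtain ⟨-, hlim⟩ := nval_lim (k := k) (σ := σ) U A Bs hBs (Filter.Eventually.of_forall hA)
    (ηo η) hx
  refine dlim_le hI hpr D U A (ηo η) F G m hF hG hF1 hG1 ?_
  intro P'
  by_cases hPP : P = P'.1
  · left
    subst hPP
    exact hD
  · right
    obtain ⟨E, n, hE, hEP', hEP⟩ := d1_ne P P'.1 hP P'.2 hPP
    refine ⟨E, n, hE, hEP', (hlim E n hE).1 ?_⟩
    by_contra hno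
    exact hEP ((hc E n hE).2 hno)

/-- D8b'. The same for the limit `⊤`, and all pairs `F, G` not in `span I`: eventually no prime divisor
of the finite set passes through the centre (`d1_form`). -/
theorem d8_le_top (hI : ∀ P ∈ I, ∃ d, P.IsHomogeneous d) (hpr : (Ideal.span I).IsPrime)
    (hη : IsGen I η j₀) (D : Dv (Ideal.span I)) {ι : Type} (U : Ultrafilter ι)
    (A : ι → ValuationSubring (AlgebraicClosure Fx)) (hA : ∀ i, OverK k (A i))
    (hBs : ∀ x, ∀ᶠ i in U, x ∈ A i)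
    (F G : MvPolynomial σ (RatFunc k)) (m : ℕ) (hF : F.IsHomogeneous m) (hG : G.IsHomogeneous m)
    (hF1 : F ∉ Ideal.span I) (hG1 : G ∉ Ideal.span I) :
    ∀ᶠ i in U, LocE (Ideal.span I) D (A i) (ηo η) F G := by
  have hx : ηo η ≠ 0 := eta_ne hη
  obtain ⟨-, hlim⟩ := nval_lim (k := k) (σ := σ) U A (⊤ : ValuationSubring (AlgebraicClosure Fx))
    (fun x => iff_of_true (ValuationSubring.mem_top x) (hBs x)) (Filter.Eventually.of_forall hA)
    (ηo η) hx
  refine dlim_le hI hpr D U A (ηo η) F G m hF hG hF1 hG1 ?_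
  intro P'
  right
  obtain ⟨E, n, hE, hEP', hEI⟩ := d1_form P'.1 P'.2
  refine ⟨E, n, hE, hEP', (hlim E n hE).1 ?_⟩
  refine nval_top (ηo η) hx E n hE fun h0 => hEI ((eta_mem hη E n hE).1 h0)

/-- D8c. `FVal` passes from the limit to most members: take `g` from `frels_ultra`; `g ^ n / q` is a unit
of the limit, so of most members; `val_of`. -/
theorem d8_val (hI : ∀ P ∈ I, ∃ d, P.IsHomogeneous d) {m : ℕ}
    (Δ : Fin m → CD σ (AlgebraicClosure Fx)) (hΔ : CFam I Δ (ηo η)) (φ : Quo (wOne σ) I →ₗ[ℚ] ℚ)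
    (n : ℕ) {ι : Type} (U : Ultrafilter ι) (A : ι → ValuationSubring (AlgebraicClosure Fx))
    (Bs : ValuationSubring (AlgebraicClosure Fx)) (hBs : ∀ x, x ∈ Bs ↔ ∀ᶠ i in U, x ∈ A i)
    (q : AlgebraicClosure Fx) (hq : q ≠ 0) (h : FVal φ n Bs Δ q) :
    ∀ᶠ i in U, FVal φ n (A i) Δ q := by
  obtain ⟨g, hg, hg'⟩ := frels_ultra hI φ Δ hΔ.ok U A Bs hBs
  have hgn : g ^ n ≠ 0 := pow_ne_zero _ hg.ne_zero
  have h1 := h g hg
  rw [← map_pow] at h1
  have h2 : g ^ n / q ∈ Bs := (val_le_iff Bs _ _ hq).1 h1.le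
  have h3 : q / g ^ n ∈ Bs := (val_le_iff Bs _ _ hgn).1 h1.ge
  filter_upwards [hg', (hBs _).1 h2, (hBs _).1 h3] with i hi h4 h5
  refine fval_of hi n q ?_
  rw [← map_pow]
  exact le_antisymm ((val_le_iff (A i) _ _ hq).2 h4) ((val_le_iff (A i) _ _ hgn).2 h5)

end Pool.Agent.TT
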