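import Mathlib
import Pool.Agent.TT.BRat
import Pool.Agent.TT.DCen

set_option autoImplicit false
set_option linter.unusedSectionVars false

/-! Project TT, block D9a: transfer of centres and values along a surjective place. -/

namespace Pool.Agent.TT

open Pool.Agent.Helper16 Pool.Agent.Helper16.BB Pool.Agent.Helper16.GT Pool.Agent.ThF Polynomial

variable {k σ : Type} [Field k] [Finite σ]
variable {E E' : Type} [Field E] [Field E'] [Algebra k E] [Algebra k E'] [Algebra (RatFunc k) E]
  [Algebra (RatFunc k) E'] [IsScalarTower k (RatFunc k) E] [IsScalarTower k (RatFunc k) E']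

/-- Values of multivariate polynomials. -/
theorem sp_aeval (π : Pl k E E') (hK : ∀ c : RatFunc k, π.Sp (algebraMap _ E c) (algebraMap _ E' c))
    (x : σ → E) (z : σ → E') (hxz : ∀ j, π.Sp (x j) (z j)) (F : MvPolynomial σ (RatFunc k)) :
    π.Sp (MvPolynomial.aeval x F) (MvPolynomial.aeval z F) := by
  induction F using MvPolynomial.induction_on with
  | C a =>
    rw [MvPolynomial.aeval_C, MvPolynomial.aeval_C]
    exact hK a
  | add p q hp hq =>
    rw [map_add, map_add]
    exact hp.add hq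
  | mul_X p i hp =>
    rw [map_mul, map_mul, MvPolynomial.aeval_X, MvPolynomial.aeval_X]
    exact hp.mul (hxz i)

theorem overK_pull (π : Pl k E E') (hK : ∀ c : RatFunc k, π.Sp (algebraMap _ E c) (algebraMap _ E' c))
    (A : ValuationSubring E') (hA : OverK k A) : OverK k (π.pull A) :=
  fun c => (π.mem_pull A (hK c)).2 (hA c)

/-- The centre of the composed valuation ring. Proof: let `z i` be the coordinate of largest value for
`A`; `z i ≠ 0`, so `x i` is a unit of `π.A`, the normalised coordinates `(x i)⁻¹ * x j` specialise to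
`(z i)⁻¹ * z j`; use `nval_iff` on both sides and `Pl.pull_val_eq`, `sp_aeval`. -/
theorem nval_pull (π : Pl k E E') (hK : ∀ c : RatFunc k, π.Sp (algebraMap _ E c) (algebraMap _ E' c))
    (x : σ → E) (z : σ → E') (hxz : ∀ j, π.Sp (x j) (z j)) (hz : z ≠ 0)
    (A : ValuationSubring E') (hA : OverK k A) (F : MvPolynomial σ (RatFunc k)) (n : ℕ)
    (hF : F.IsHomogeneous n) : NVal (π.pull A) x F ↔ NVal A z F := by
  obtain ⟨i, hi, h1⟩ := nval_norm A z hz
  have hxi : x i ≠ 0 := (hxz i).ne_zero hi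
  have h2 : ∀ j, π.Sp ((x i)⁻¹ * x j) ((z i)⁻¹ * z j) := fun j => ((hxz i).inv hi).mul (hxz j)
  have h3 : ∀ j, (π.pull A).valuation ((x i)⁻¹ * x j) ≤ 1 := by
    intro j
    have h4 := h1 j
    rw [← (A.valuation).map_one] at h4
    have h5 := (π.pull_val_le A (h2 j) (Pl.Sp.one π) one_ne_zero).2 h4
    rwa [map_one] at h5
  rw [nval_iff (π.pull A) (overK_pull π hK A hA) x i hxi h3 F n hF, nval_iff A hA z i hi h1 F n hF]
  have h6 := sp_aeval π hK (fun j => (x i)⁻¹ * x j) (fun j => (z i)⁻¹ * z j) h2 F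
  by_cases h0 : MvPolynomial.aeval (fun j => (z i)⁻¹ * z j) F = 0
  · rw [h0] at h6 ⊢
    constructor
    · intro h7
      exfalso
      rw [← ((π.pull A).valuation).map_one] at h7
      have h8 := val_eq_of_le (π.pull_le A) h7
      rw [map_one] at h8
      have h9 := h6.eq_zero_iff.1 rfl
      rw [h8] at h9
      exact lt_irrefl _ h9
    · intro h7
      rw [map_zero] at h7
      exact absurd h7 zero_ne_one
  · have h7 := π.pull_val_eq A h6 (Pl.Sp.one π) h0 one_ne_zero
    rw [map_one, map_one] at h7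
    exact h7

/-- Transfer of `FVal`, with the conclusion of `frels_red` as hypothesis. Proof: let `g'` satisfy
`FRels φ A Δ' g'`; lift it to `g` by surjectivity, so `FRels φ (π.pull A) Δ g` by `hrel`; now
`Pl.pull_val_eq` for `g ^ n` and `q`. -/
theorem fval_red {I : Set (MvPolynomial σ (RatFunc k))} (π : Pl k E E') (hsurj : π.Surj) {m : ℕ}
    (Δ : Fin m → CD σ E) (Δ' : Fin m → CD σ E') (φ : Quo (wOne σ) I →ₗ[ℚ] ℚ) (n : ℕ)
    (A : ValuationSubring E')
    (hrel : ∀ (g : E) (g' : E'), g' ≠ 0 → π.Sp g g' → (FRels φ (π.pull A) Δ g ↔ FRels φ A Δ' g'))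
    (hne : ∀ g', FRels φ A Δ' g' → g' ≠ 0) (q : E) (q' : E')
    (hq : π.Sp q q') (hq' : q' ≠ 0) (h : FVal φ n (π.pull A) Δ q) : FVal φ n A Δ' q' := by
  intro g' hg'
  have h0 := hne g' hg'
  obtain ⟨g, hg⟩ := hsurj g'
  have h1 := h g ((hrel g g' h0 hg).2 hg')
  rw [← map_pow] at h1 ⊢
  exact (π.pull_val_eq A (hg.pow n) hq (pow_ne_zero n h0) hq').1 h1

end Pool.Agent.TT
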