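import Pool.Agent.TT.TMap
import Pool.Agent.Helper16.BBQuad
import Pool.Agent.Helper16.GC10
import Pool.Agent.Helper40.BBLowerB
import Pool.Agent.Helper62.BBPsiA
import Pool.Agent.Helper94.BBNorm

set_option autoImplicit false
set_option linter.unusedSectionVars false

/-! TT-8. Degrees can only drop, and if the degree is preserved the class is preserved.
Let `O = π.A` with valuation `v`. Let `(x, G, c, ..)` be the data of `h`: `a = G A`, `b = G B` with `A`, `B`
coprime of maximal degree `e`. Scale: choose a coefficient of `G` of largest value and replace `G`, `A`, `B`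
by `G/γ`, `γA`, `γB`, so that `G` has Gauss norm 1; as `a`, `b` have coefficients in `O` and `(a', b')` is
not `(0, 0)`, Gauss' lemma (`v(GA) = v(G) v(A)` for Gauss norms) shows that `A`, `B` have coefficients in
`O`, and one of them has norm 1. Let `G'`, `A'`, `B'` be the reductions: `a' = G' A'`, `b' = G' B'`. By
`h'` and `trel_deg`/gcd, `e' = ` degree of the reduced fraction `≤ max (deg A') (deg B') ≤ e` (if
`A' = H A''`, `B' = H B''` with coprime `A''`, `B''`, then `e' = max deg = max (deg A') (deg B') - deg H`).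
If `e' = e` then `H` is a unit, so `A'`, `B'` are coprime, and `A'` or `B'` has degree exactly `e`.
Bezout coefficients over `O`: say `deg A' = e`, so the leading coefficient of `A` is a unit of `O`; the
`O`-module `O[X]/(A, B)` is finitely generated (`Polynomial.Monic` after scaling,
`Polynomial.Monic.finite_quotient`) and is zero modulo the maximal ideal, so it is zero (Nakayama): there
are `U`, `W` in `O[X]` with `U A + W B = 1`. Scale `P` in the same way (`c₂ P_j` has a coefficient which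
is a unit; `Q' ≠ 0`). So there is a parameter `x₁ : Idx σ n₁ D₁ → L` with values in `O`, with `PCond`
for `e` over `L`, whose reduction `x₁'` satisfies `PCond` over `L'` (apply `π.r` to the identities), for
data associated to `(a, b, Q)` and `(a', b', Q')`. Let `y` be a specialisation of `x₁'` (`exists_ksp`); if
a polynomial `q` over `k` vanishes at `x₁` it vanishes at `x₁'` (apply `π.r`), so at `y`. So
`TRel I a b Q e (theta I y)` and `TRel I a' b' Q' e (theta I y)`; conclude with `trel_unique`. -/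

namespace Pool.Agent.TT

open Pool.Agent.Helper16 Pool.Agent.Helper16.BB Pool.Agent.ThF Polynomial

variable {k σ : Type} [Field k] [Finite k] [Finite σ] {I : Set (MvPolynomial σ (RatFunc k))}
variable {L L' : Type} [Field L] [Algebra k L] [Field L'] [Algebra k L']

theorem tplace_unit (π : Pl k L L') (x : π.A) (hx : π.r x ≠ 0) : IsUnit x := by
  rw [π.A.valuation_eq_one_iff]
  exact le_antisymm (π.A.valuation_le_one x) (not_lt.1 fun h => hx ((π.loc x).2 h))

/-- The valuation ring is a `k`-algebra. -/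
@[reducible] noncomputable def tplaceAlg (π : Pl k L L') : Algebra k π.A :=
  ((algebraMap k L).codRestrict π.A (fun a => (π.hk a).fst)).toAlgebra

theorem tplace_spP (π : Pl k L L') {f : L[X]} {g : L'[X]} (h : π.SpP f g) :
    ∃ F : π.A[X], F.map π.A.subtype = f ∧ F.map π.r = g := by
  choose h1 h2 using h
  have hg : g.natDegree ≤ f.natDegree := by
    rw [natDegree_le_iff_coeff_eq_zero]
    intro i hi
    rw [← h2 i]
    have h3 : (⟨f.coeff i, h1 i⟩ : π.A) = 0 := Subtype.ext (coeff_eq_zero_of_natDegree_lt hi)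
    rw [h3, map_zero]
  refine ⟨mkp (fun i : Fin (f.natDegree + 1) => ⟨f.coeff i, h1 i⟩), ?_, ?_⟩
  · rw [mkp_map]
    exact mkp_of f le_rfl
  · rw [mkp_map]
    refine Eq.trans ?_ (mkp_of g hg)
    congr 1
    funext i
    exact h2 i

theorem tplace_inj (π : Pl k L L') {F G : π.A[X]} (h : F.map π.A.subtype = G.map π.A.subtype) :
    F = G :=
  Polynomial.map_injective π.A.subtype Subtype.val_injective h

theorem tplace_fam (π : Pl k L L') {ι : Type} [Finite ι] (f : ι → L) (hf : ∃ i, f i ≠ 0) :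
    ∃ γ : L, γ ≠ 0 ∧ ∃ z : ι → π.A, (∀ i, f i = γ * z i) ∧ ∃ i, π.r (z i) ≠ 0 := by
  obtain ⟨i₁, hi₁⟩ := hf
  have : Nonempty ι := ⟨i₁⟩
  obtain ⟨i₀, hi₀⟩ := Finite.exists_max (fun i => π.A.valuation (f i))
  have h0 : f i₀ ≠ 0 := by
    intro h
    have h1 := hi₀ i₁
    rw [h, map_zero, le_zero_iff, map_eq_zero] at h1
    exact hi₁ h1
  have hmem : ∀ i, f i / f i₀ ∈ π.A := by
    intro i
    rw [← π.A.valuation_le_one_iff, map_div₀]
    exact div_le_one_of_le₀ (hi₀ i) zero_le
  refine ⟨f i₀, h0, fun i => ⟨f i / f i₀, hmem i⟩, fun i => (mul_div_cancel₀ _ h0).symm, i₀, ?_⟩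
  have h1 : (⟨f i₀ / f i₀, hmem i₀⟩ : π.A) = 1 := Subtype.ext (div_self h0)
  change π.r ⟨f i₀ / f i₀, hmem i₀⟩ ≠ 0
  rw [h1, map_one]
  exact one_ne_zero

theorem tplace_norm (π : Pl k L L') (P : Bool → L[X]) (hP : ∃ b, P b ≠ 0) :
    ∃ γ : L, γ ≠ 0 ∧ ∃ P₀ : Bool → π.A[X], (∀ b, P b = C γ * (P₀ b).map π.A.subtype) ∧
      (∀ b, (P₀ b).natDegree = (P b).natDegree) ∧ ∃ b, (P₀ b).map π.r ≠ 0 := by
  obtain ⟨b₁, hb₁⟩ := hP
  let N : ℕ := max (P true).natDegree (P false).natDegree
  have hN : ∀ b, (P b).natDegree ≤ N := by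
    intro b
    cases b
    · exact le_max_right _ _
    · exact le_max_left _ _
  obtain ⟨γ, hγ, z, hz, ⟨b₂, i₂⟩, h2⟩ := tplace_fam π
    (fun p : Bool × Fin (N + 1) => (P p.1).coeff p.2)
    ⟨(b₁, ⟨(P b₁).natDegree, Nat.lt_succ_of_le (hN b₁)⟩), leadingCoeff_ne_zero.2 hb₁⟩
  have h3 : ∀ b, P b = C γ * (mkp (fun i : Fin (N + 1) => z (b, i))).map π.A.subtype := by
    intro b
    rw [mkp_map]
    ext i
    rw [coeff_C_mul, mkp_coeff]
    split_ifs with h
    · exact hz (b, ⟨i, h⟩)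
    · rw [mul_zero]
      exact coeff_eq_zero_of_natDegree_lt (by have := hN b; omega)
  refine ⟨γ, hγ, fun b => mkp (fun i : Fin (N + 1) => z (b, i)), h3, fun b => ?_, b₂, ?_⟩
  · rw [h3 b, natDegree_C_mul hγ, natDegree_map_eq_of_injective Subtype.val_injective]
  · intro h
    apply h2
    have h4 := congrArg (fun p => p.coeff i₂) h
    simp only [coeff_map, coeff_zero, mkp_coeff] at h4
    rw [dif_pos i₂.2] at h4
    exact h4

theorem tplace_div (π : Pl k L L') (G a₀ : π.A[X]) (hG : G.map π.r ≠ 0) (A₁ : L[X])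
    (h : a₀.map π.A.subtype = G.map π.A.subtype * A₁) :
    ∃ A₀ : π.A[X], A₀.map π.A.subtype = A₁ := by
  by_cases hA : A₁ = 0
  · exact ⟨0, by rw [Polynomial.map_zero, hA]⟩
  obtain ⟨δ, hδ, P₀, h1, -, b, h2⟩ := tplace_norm π (fun _ => A₁) ⟨true, hA⟩
  have h3 : (G * P₀ b).map π.r ≠ 0 := by
    rw [Polynomial.map_mul]
    exact mul_ne_zero hG h2
  obtain ⟨i, hi⟩ : ∃ i, π.r ((G * P₀ b).coeff i) ≠ 0 := by
    by_contra hcon
    push Not at hcon
    apply h3
    ext i
    rw [coeff_map, hcon i, coeff_zero]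
  obtain ⟨c, hc⟩ := (tplace_unit π _ hi).exists_right_inv
  have h4 : a₀.map π.A.subtype = C δ * (G * P₀ b).map π.A.subtype := by
    rw [h, h1 b, Polynomial.map_mul]
    ring
  have h5 : ((a₀.coeff i : π.A) : L) = δ * ((G * P₀ b).coeff i : π.A) := by
    have := congrArg (fun p => p.coeff i) h4
    simp only [coeff_map, coeff_C_mul] at this
    exact this
  have h6 : δ = ((a₀.coeff i * c : π.A) : L) := by
    have h7 : (((G * P₀ b).coeff i : π.A) : L) * (c : L) = 1 := by
      have := congrArg (fun p : π.A => (p : L)) hc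
      exact this
    rw [MulMemClass.coe_mul, h5, mul_assoc, h7, mul_one]
  refine ⟨C (a₀.coeff i * c) * P₀ b, ?_⟩
  rw [Polynomial.map_mul, map_C, h1 b]
  congr 2
  exact h6.symm

theorem tplace_bezout (π : Pl k L L') (A₀ B₀ : π.A[X])
    (hc : IsCoprime (A₀.map π.A.subtype) (B₀.map π.A.subtype))
    (hc' : IsCoprime (A₀.map π.r) (B₀.map π.r)) (hd : (A₀.map π.r).degree = A₀.degree)
    (hA : A₀.map π.r ≠ 0) : IsCoprime A₀ B₀ := by
  have hA0 : A₀.map π.A.subtype ≠ 0 := by
    intro h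
    apply hA
    have h1 : A₀ = 0 := tplace_inj π (by rw [h, Polynomial.map_zero])
    rw [h1, Polynomial.map_zero]
  obtain ⟨U₁, W₁, h1⟩ := hc
  have hbez : (U₁ + (W₁ / A₀.map π.A.subtype) * B₀.map π.A.subtype) * A₀.map π.A.subtype +
      (W₁ % A₀.map π.A.subtype) * B₀.map π.A.subtype = 1 := by
    have h3 := EuclideanDomain.div_add_mod W₁ (A₀.map π.A.subtype)
    linear_combination h1 + B₀.map π.A.subtype * h3
  have hWd : (W₁ % A₀.map π.A.subtype).degree < (A₀.map π.A.subtype).degree :=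
    degree_mod_lt W₁ hA0
  generalize U₁ + (W₁ / A₀.map π.A.subtype) * B₀.map π.A.subtype = U at hbez
  generalize W₁ % A₀.map π.A.subtype = W at hbez hWd
  obtain ⟨δ, hδ, P₀, h2, h2d, hb⟩ := tplace_norm π (fun b : Bool => cond b U W) (by
    by_contra hcon
    push Not at hcon
    have hU := hcon true
    have hW := hcon false
    simp only [cond_true, cond_false] at hU hW
    rw [hU, hW, zero_mul, zero_mul, add_zero] at hbez
    exact zero_ne_one hbez)
  have hU : U = C δ * (P₀ true).map π.A.subtype := h2 true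
  have hW : W = C δ * (P₀ false).map π.A.subtype := h2 false
  have h3 : C δ * (P₀ true * A₀ + P₀ false * B₀).map π.A.subtype = 1 := by
    rw [← hbez, hU, hW, Polynomial.map_add, Polynomial.map_mul, Polynomial.map_mul]
    ring
  by_cases hδA : δ ∈ π.A
  · refine ⟨C ⟨δ, hδA⟩ * P₀ true, C ⟨δ, hδA⟩ * P₀ false, ?_⟩
    apply tplace_inj π
    rw [Polynomial.map_one, ← h3, Polynomial.map_add, Polynomial.map_mul, Polynomial.map_mul,
      Polynomial.map_mul, Polynomial.map_mul, Polynomial.map_add, Polynomial.map_mul,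
      Polynomial.map_mul, map_C]
    change C δ * _ * _ + C δ * _ * _ = _
    ring
  exfalso
  have hi : δ⁻¹ ∈ π.A := (π.A.mem_or_inv_mem δ).resolve_left hδA
  have h4 : P₀ true * A₀ + P₀ false * B₀ = C ⟨δ⁻¹, hi⟩ := by
    apply tplace_inj π
    rw [map_C]
    change _ = C δ⁻¹
    have h5 : (C δ⁻¹ : L[X]) * C δ = 1 := by rw [← C_mul, inv_mul_cancel₀ hδ, C_1]
    calc (P₀ true * A₀ + P₀ false * B₀).map π.A.subtype
        = (C δ⁻¹ * C δ) * (P₀ true * A₀ + P₀ false * B₀).map π.A.subtype := by rw [h5, one_mul]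
      _ = C δ⁻¹ := by rw [mul_assoc, h3, mul_one]
  have h5 : π.r ⟨δ⁻¹, hi⟩ = 0 := by
    by_contra hne
    obtain ⟨c, hc⟩ := (tplace_unit π _ hne).exists_right_inv
    apply hδA
    have h7 : δ⁻¹ * (c : L) = 1 := by
      have := congrArg (fun p : π.A => (p : L)) hc
      exact this
    have h8 : δ = c := by
      rw [← mul_one δ, ← h7, mul_inv_cancel_left₀ hδ]
    rw [h8]
    exact c.2
  have h6 : (P₀ true).map π.r * A₀.map π.r + (P₀ false).map π.r * B₀.map π.r = 0 := by
    have := congrArg (fun p => p.map π.r) h4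
    simp only [Polynomial.map_add, Polynomial.map_mul, map_C] at this
    rw [this, h5, C_0]
  have h7 : A₀.map π.r ∣ (P₀ false).map π.r * B₀.map π.r :=
    ⟨-(P₀ true).map π.r, by linear_combination h6⟩
  have h8 : A₀.map π.r ∣ (P₀ false).map π.r := hc'.dvd_of_dvd_mul_right h7
  have h9 : ((P₀ false).map π.r).degree < (A₀.map π.r).degree := by
    refine lt_of_le_of_lt degree_map_le ?_
    rw [hd]
    rw [hW, degree_C_mul hδ, degree_map_eq_of_injective Subtype.val_injective,
      degree_map_eq_of_injective Subtype.val_injective] at hWd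
    exact hWd
  have h10 : (P₀ false).map π.r = 0 := eq_zero_of_dvd_of_degree_lt h8 h9
  have h11 : (P₀ true).map π.r = 0 := by
    rw [h10, zero_mul, add_zero] at h6
    exact (mul_eq_zero.1 h6).resolve_right hA
  obtain ⟨b, hb⟩ := hb
  cases b
  · exact hb h10
  · exact hb h11

theorem tplace_pcond {O M : Type} [CommRing O] [Algebra k O] [CommRing M] [Algebra k M]
    (f : O →ₐ[k] M) {n D e : ℕ} {j₀ : σ} {i₀ : ℕ} {x : Idx σ n D → O} (h : PCond I e j₀ i₀ x) :
    PCond I e j₀ i₀ (fun i => f (x i)) := by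
  refine (pEq_iff _).1 fun q hq => ?_
  have h1 := (pEq_iff x).2 h q hq
  have h2 := congrArg f h1
  rw [map_zero, MvPolynomial.comp_aeval_apply] at h2
  exact h2

theorem tplace_key (π : Pl k L L') (A₀ B₀ G : π.A[X]) (Q₀ : σ → π.A[X]) {e : ℕ} (he : 1 ≤ e)
    (hA : A₀.natDegree ≤ e) (hB : B₀.natDegree ≤ e) (hc : IsCoprime A₀ B₀)
    (htop : π.r (A₀.coeff e) ≠ 0 ∨ π.r (B₀.coeff e) ≠ 0) (j₀ : σ) (i₀ : ℕ)
    (hQ : π.r ((Q₀ j₀).coeff i₀) ≠ 0) (hG : G.map π.r ≠ 0)
    (hfam : IsFam I (A₀.map π.A.subtype) (B₀.map π.A.subtype)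
      (fun j => (Q₀ j).map π.A.subtype)) :
    ∃ τ₀, TRel I ((G * A₀).map π.A.subtype) ((G * B₀).map π.A.subtype)
        (fun j => (Q₀ j).map π.A.subtype) e τ₀ ∧
      TRel I ((G * A₀).map π.r) ((G * B₀).map π.r) (fun j => (Q₀ j).map π.r) e τ₀ := by
  let _ : Algebra k π.A := tplaceAlg π
  let f₁ : π.A →ₐ[k] L := { π.A.subtype with commutes' := fun a => rfl }
  let f₂ : π.A →ₐ[k] L' := { π.r with commutes' := fun a => (π.hk a).snd }
  have hf₁ : Function.Injective f₁ := Subtype.val_injective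
  obtain ⟨U, W, hbez⟩ := hc
  obtain ⟨D, hD⟩ : ∃ D, ∀ j, (Q₀ j).natDegree ≤ D := by
    obtain ⟨D, hD⟩ := (Set.finite_range fun j => (Q₀ j).natDegree).bddAbove
    exact ⟨D, fun j => hD ⟨j, rfl⟩⟩
  let n : ℕ := max e (max U.natDegree W.natDegree)
  have hen : e ≤ n := le_max_left _ _
  have hU : U.natDegree ≤ n := le_trans (le_max_left _ _) (le_max_right _ _)
  have hW : W.natDegree ≤ n := le_trans (le_max_right _ _) (le_max_right _ _)
  obtain ⟨c₁, c₂, h12⟩ : ∃ c₁ c₂ : π.A, c₁ * A₀.coeff e + c₂ * B₀.coeff e = 1 := by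
    rcases htop with h | h
    · obtain ⟨c, hc⟩ := (tplace_unit π _ h).exists_left_inv
      exact ⟨c, 0, by rw [hc, zero_mul, add_zero]⟩
    · obtain ⟨c, hc⟩ := (tplace_unit π _ h).exists_left_inv
      exact ⟨0, c, by rw [hc, zero_mul, zero_add]⟩
  obtain ⟨d, hd⟩ := (tplace_unit π _ hQ).exists_right_inv
  let x : Idx σ n D → π.A := Sum.elim
    (fun x => cond x.1 (A₀.coeff x.2) (B₀.coeff x.2)) (Sum.elim
      (fun x => (Q₀ x.1).coeff x.2) (Sum.elim (fun x => cond x.1 (U.coeff x.2) (W.coeff x.2))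
        (Sum.elim (fun b => cond b c₁ c₂) fun _ => d)))
  have h1 : pAB x true = A₀ := mkp_of A₀ (hA.trans hen)
  have h2 : pAB x false = B₀ := mkp_of B₀ (hB.trans hen)
  have h3 : ∀ j, pP x j = Q₀ j := fun j => mkp_of (Q₀ j) (hD j)
  have h4 : pUW x true = U := mkp_of U hU
  have h5 : pUW x false = W := mkp_of W hW
  have hx : PCond I e j₀ i₀ x := by
    refine ⟨?_, ?_, ?_, ?_, ?_⟩
    · intro b i hi
      cases b
      · rw [h2]
        exact coeff_eq_zero_of_natDegree_lt (by omega)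
      · rw [h1]
        exact coeff_eq_zero_of_natDegree_lt (by omega)
    · rw [h1, h2]
      exact h12
    · rw [h1, h2, h4, h5]
      exact hbez
    · rw [h3]
      exact hd
    · rw [h1, h2, funext h3]
      exact IsFam.of_map f₁ hf₁ hfam
  have hx₁ := tplace_pcond f₁ hx
  have hx₂ := tplace_pcond f₂ hx
  obtain ⟨y, hy⟩ := exists_ksp (k := k) (fun i => f₂ (x i))
  have hAB : ∀ {M : Type} [Field M] (f : π.A →+* M) (b : Bool),
      pAB (fun i => f (x i)) b = (pAB x b).map f := fun f b => (mkp_map f _).symm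
  have hP : ∀ {M : Type} [Field M] (f : π.A →+* M) (j : σ),
      pP (fun i => f (x i)) j = (pP x j).map f := fun f j => (mkp_map f _).symm
  refine ⟨theta I y, ?_, ?_⟩
  · refine ⟨n, D, j₀, i₀, fun i => f₁ (x i), G.map π.A.subtype, 1, y, he, hx₁, ?_, one_ne_zero,
      ?_, ?_, ?_, ?_, rfl⟩
    · intro h
      apply hG
      rw [tplace_inj π (F := G) (G := 0) (by rw [h, Polynomial.map_zero]), Polynomial.map_zero]
    · refine Eq.trans ?_ (congrArg (fun p => G.map π.A.subtype * p) (hAB π.A.subtype true).symm)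
      rw [h1, Polynomial.map_mul]
    · refine Eq.trans ?_ (congrArg (fun p => G.map π.A.subtype * p) (hAB π.A.subtype false).symm)
      rw [h2, Polynomial.map_mul]
    · intro j
      refine Eq.trans ?_ (congrArg (fun p => C 1 * p) (hP π.A.subtype j).symm)
      simp only
      rw [h3, C_1, one_mul]
    · intro q hq
      apply hy
      have h6 : f₁ (MvPolynomial.aeval x q) = 0 := by
        rw [MvPolynomial.comp_aeval_apply]
        exact hq
      have h7 : MvPolynomial.aeval x q = 0 := hf₁ (h6.trans (map_zero f₁).symm)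
      have h8 := congrArg f₂ h7
      rw [map_zero, MvPolynomial.comp_aeval_apply] at h8
      exact h8
  · refine ⟨n, D, j₀, i₀, fun i => f₂ (x i), G.map π.r, 1, y, he, hx₂, hG, one_ne_zero,
      ?_, ?_, ?_, hy, rfl⟩
    · refine Eq.trans ?_ (congrArg (fun p => G.map π.r * p) (hAB π.r true).symm)
      rw [h1, Polynomial.map_mul]
    · refine Eq.trans ?_ (congrArg (fun p => G.map π.r * p) (hAB π.r false).symm)
      rw [h2, Polynomial.map_mul]
    · intro j
      refine Eq.trans ?_ (congrArg (fun p => C 1 * p) (hP π.r j).symm)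
      simp only
      rw [h3, C_1, one_mul]

/-- The leading coefficient of a polynomial of degree at most `e` whose reduction has degree `e`. -/
theorem tplace_top (π : Pl k L L') (A₀ : π.A[X]) {e : ℕ} (he : 1 ≤ e) (hA : A₀.natDegree ≤ e)
    (h : (A₀.map π.r).natDegree = e) : π.r (A₀.coeff e) ≠ 0 ∧ A₀.map π.r ≠ 0 ∧
      (A₀.map π.r).degree = A₀.degree := by
  have h0 : A₀.map π.r ≠ 0 := by
    intro h1
    rw [h1, natDegree_zero] at h
    omega
  have h1 : (A₀.map π.r).coeff e ≠ 0 := by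
    rw [← h]
    exact leadingCoeff_ne_zero.2 h0
  rw [coeff_map] at h1
  refine ⟨h1, h0, ?_⟩
  have h2 : A₀ ≠ 0 := by
    rintro rfl
    exact h0 (Polynomial.map_zero _)
  have h3 : A₀.natDegree = e := by
    apply le_antisymm hA
    apply le_natDegree_of_ne_zero
    intro h4
    rw [h4, map_zero] at h1
    exact h1 rfl
  rw [degree_eq_natDegree h0, degree_eq_natDegree h2, h, h3]

theorem trel_place (hI : ∀ P ∈ I, ∃ d, P.IsHomogeneous d) (π : Pl k L L')
    {a b : L[X]} {Q : σ → L[X]} {a' b' : L'[X]} {Q' : σ → L'[X]} {e e' : ℕ}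
    {τ τ' : Quo (wOne σ) I} (ha : π.SpP a a') (hb : π.SpP b b') (hQ : ∀ j, π.SpP (Q j) (Q' j))
    (h : TRel I a b Q e τ) (h' : TRel I a' b' Q' e' τ') : e' ≤ e ∧ (e' = e → τ' = τ) := by
  obtain ⟨a₀, rfl, rfl⟩ := tplace_spP π ha
  obtain ⟨b₀, rfl, rfl⟩ := tplace_spP π hb
  choose Q₀ hQ₁ hQ₂ using fun j => tplace_spP π (hQ j)
  obtain rfl : (fun j => (Q₀ j).map π.A.subtype) = Q := funext hQ₁
  obtain rfl : (fun j => (Q₀ j).map π.r) = Q' := funext hQ₂
  have hv := trel_val hI h
  have hv' := trel_val hI h'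
  obtain ⟨n, D, j₁, i₁, x, G, c, y, he, hx, hG, hc, haG, hbG, hQG, hy, hτ⟩ := id h
  -- scale the common factor
  obtain ⟨γ, hγ, P₀, hP1, -, bb, hP2⟩ := tplace_norm π (fun _ => G) ⟨true, hG⟩
  obtain ⟨A₀, hA₀⟩ := tplace_div π (P₀ bb) a₀ hP2 (C γ * pAB x true) (by
    rw [haG, hP1 bb]
    ring)
  obtain ⟨B₀, hB₀⟩ := tplace_div π (P₀ bb) b₀ hP2 (C γ * pAB x false) (by
    rw [hbG, hP1 bb]
    ring)
  have haA : a₀ = P₀ bb * A₀ := by
    apply tplace_inj π
    rw [Polynomial.map_mul, hA₀, haG, hP1 bb]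
    ring
  have hbB : b₀ = P₀ bb * B₀ := by
    apply tplace_inj π
    rw [Polynomial.map_mul, hB₀, hbG, hP1 bb]
    ring
  have hdeg : ∀ (F : π.A[X]) (b : Bool), F.map π.A.subtype = C γ * pAB x b → F.natDegree ≤ e := by
    intro F b hF
    rw [← natDegree_map_eq_of_injective (f := π.A.subtype) Subtype.val_injective, hF,
      natDegree_C_mul hγ, natDegree_le_iff_coeff_eq_zero]
    intro i hi
    exact hx.1 b i hi
  have hAe := hdeg A₀ true hA₀
  have hBe := hdeg B₀ false hB₀
  have hcop : IsCoprime (A₀.map π.A.subtype) (B₀.map π.A.subtype) := by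
    rw [hA₀, hB₀]
    have hu : IsUnit (C γ : L[X]) := Polynomial.isUnit_C.2 (isUnit_iff_ne_zero.2 hγ)
    exact (isCoprime_mul_unit_left hu _ _).2 hx.isCoprime
  generalize P₀ bb = G₀ at hP2 haA hbB
  -- the reduced fraction
  obtain ⟨⟨i₂, j₂, h22⟩, -⟩ : (∃ i j, (a₀.map π.r).coeff i * (b₀.map π.r).coeff j ≠
      (a₀.map π.r).coeff j * (b₀.map π.r).coeff i) ∧ True := ⟨hv'.nc, trivial⟩
  have hA'0 : A₀.map π.r ≠ 0 := by
    intro h0
    apply h22
    rw [haA, Polynomial.map_mul, h0]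
    simp
  obtain ⟨H, A'', B'', U₀, W₀, hHm, hHA, hHB, hbez⟩ := exists_gcd (A₀.map π.r) (B₀.map π.r) hA'0
  have he' : e' = max A''.natDegree B''.natDegree := by
    refine trel_deg h' (G := G₀.map π.r * H) (mul_ne_zero hP2 hHm.ne_zero) ?_ ?_
      ⟨U₀, W₀, hbez⟩
    · rw [haA, Polynomial.map_mul, hHA]
      ring
    · rw [hbB, Polynomial.map_mul, hHB]
      ring
  have hle : ∀ (F : π.A[X]) (F'' : L'[X]), F.natDegree ≤ e → F.map π.r = H * F'' →
      F''.natDegree ≤ e ∧ (F''.natDegree = e → F.map π.r = H * F'' ∧ H = 1) := by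
    intro F F'' h1 h2
    by_cases h0 : F'' = 0
    · subst h0
      rw [natDegree_zero]
      refine ⟨by omega, fun h3 => by omega⟩
    have h3 : (F.map π.r).natDegree = H.natDegree + F''.natDegree := by
      rw [h2, natDegree_mul hHm.ne_zero h0]
    have h4 : (F.map π.r).natDegree ≤ F.natDegree := natDegree_map_le
    refine ⟨by omega, fun h5 => ⟨h2, (Monic.natDegree_eq_zero hHm).1 (by omega)⟩⟩
  have hA2 := hle A₀ A'' hAe hHA
  have hB2 := hle B₀ B'' hBe hHB
  refine ⟨by rw [he']; exact max_le hA2.1 hB2.1, ?_⟩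
  intro hee
  subst hee
  have hcase : A''.natDegree = e' ∨ B''.natDegree = e' := by
    rcases le_total A''.natDegree B''.natDegree with h1 | h1
    · right
      rw [max_eq_right h1] at he'
      exact he'.symm
    · left
      rw [max_eq_left h1] at he'
      exact he'.symm
  have hH1 : H = 1 := by
    rcases hcase with h1 | h1
    · exact (hA2.2 h1).2
    · exact (hB2.2 h1).2
  rw [hH1, one_mul] at hHA hHB
  have hcop' : IsCoprime (A₀.map π.r) (B₀.map π.r) := by
    rw [hHA, hHB]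
    exact ⟨U₀, W₀, hbez⟩
  have htop : (π.r (A₀.coeff e') ≠ 0 ∨ π.r (B₀.coeff e') ≠ 0) ∧ IsCoprime A₀ B₀ := by
    rcases hcase with h1 | h1
    · obtain ⟨h2, h3, h4⟩ := tplace_top π A₀ he hAe (by rw [hHA]; exact h1)
      exact ⟨Or.inl h2, tplace_bezout π A₀ B₀ hcop hcop' h4 h3⟩
    · obtain ⟨h2, h3, h4⟩ := tplace_top π B₀ he hBe (by rw [hHB]; exact h1)
      exact ⟨Or.inr h2, (tplace_bezout π B₀ A₀ hcop.symm hcop'.symm h4 h3).symm⟩
  obtain ⟨j₃, hj₃⟩ := hv'.ne
  obtain ⟨i₃, hi₃⟩ : ∃ i, π.r ((Q₀ j₃).coeff i) ≠ 0 := by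
    by_contra hcon
    push Not at hcon
    apply hj₃
    ext i
    rw [coeff_map, hcon i, coeff_zero]
  have hfam : IsFam I (A₀.map π.A.subtype) (B₀.map π.A.subtype)
      (fun j => (Q₀ j).map π.A.subtype) := by
    have h1 := hv.fam
    have h2 : (fun j => (Q₀ j).map π.A.subtype) = fun j => (1 : L[X]) * (Q₀ j).map π.A.subtype := by
      funext j
      rw [one_mul]
    rw [haA, hbB, Polynomial.map_mul, Polynomial.map_mul, h2] at h1
    refine (isFam_mul hI _ _ _ (G₀.map π.A.subtype) 1 ?_ one_ne_zero ?_).1 h1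
    · intro h3
      apply hP2
      rw [tplace_inj π (F := G₀) (G := 0) (by rw [h3, Polynomial.map_zero]), Polynomial.map_zero]
    · by_contra hcon
      push Not at hcon
      have hA0 : A₀.map π.A.subtype ≠ 0 := by
        intro h3
        apply hA'0
        rw [tplace_inj π (F := A₀) (G := 0) (by rw [h3, Polynomial.map_zero]),
          Polynomial.map_zero]
      obtain ⟨m, hm⟩ : ∃ m, (A₀.map π.A.subtype).coeff m ≠ 0 :=
        ⟨_, leadingCoeff_ne_zero.2 hA0⟩
      obtain ⟨β, hβ⟩ : ∃ β : L, B₀.map π.A.subtype = C β * A₀.map π.A.subtype := by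
        refine ⟨(B₀.map π.A.subtype).coeff m / (A₀.map π.A.subtype).coeff m, ?_⟩
        ext i
        rw [coeff_C_mul, div_mul_eq_mul_div, eq_div_iff hm]
        linear_combination hcon m i
      obtain ⟨i, j, hij⟩ := hv.nc
      apply hij
      rw [haA, hbB, Polynomial.map_mul, Polynomial.map_mul, hβ, mul_left_comm, coeff_C_mul,
        coeff_C_mul]
      ring
  obtain ⟨τ₀, h1, h2⟩ := tplace_key π A₀ B₀ G₀ Q₀ he hAe hBe htop.2 htop.1 j₃ i₃ hi₃ hP2 hfam
  rw [← haA, ← hbB] at h1 h2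
  rw [(trel_unique hI h h1).2, (trel_unique hI h' h2).2]

end Pool.Agent.TT
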