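import Mathlib
import Pool.Agent.TT.TExists
import Pool.Agent.TT.Theta0

set_option autoImplicit false
set_option linter.unusedSectionVars false

/-! TT-5. `e = e'` by `trel_deg` (with `G := G₁`, `a' := pAB x true`, ..., for the other relation).
`τ = τ'`: let `(x, G, c, y)` and `(x', G', c', y')` be the data of the two relations, `A = pAB x true`,
`A' = pAB x' true`, ... As `G A = G' A'`, `G B = G' B'` with coprime pairs, there is `u ≠ 0` in `L` with
`A' = C u * A`, `B' = C u * B` (`G = C u * G'`), and `pP x' j = C (c / c') * pP x j`. Let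
`ι = Idx σ n D ⊕ (Idx σ n' D' ⊕ Fin 4)` and `z : ι → L` the tuple `x, x', u, u⁻¹, v, v⁻¹` with
`v = c / c'`. By `exists_ksp` (TT-3) there is `w : ι → κ` which satisfies all polynomial relations of
`z` over `k`. The restrictions `w₁`, `w₂` of `w` to `Idx σ n D` and `Idx σ n' D'` satisfy the relations
of `x`, `x'` (rename), so `theta I w₁ = theta I y` and `theta I w₂ = theta I y'` by `theta_ker` (TT-2).
The relations `A' = u A`, `B' = u B` (coefficientwise), `pP x' j = v pP x j`, `u u⁻¹ = 1`, `v v⁻¹ = 1` are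
inherited by `w`. `PCond` for `w₁`, `w₂` by `pEq_iff`. Let `s` be a root (`exists_rt`) for `w₁`; it is
a root for `w₂` (`IsRt` is invariant under scaling with `u`), so by `theta_eq`, `theta I w₁`,
`theta I w₂` are the classes of `ev (pP w₁ j) s` and of `v` times it; `cls_const_mul` (ThF/Defs). -/

namespace Pool.Agent.TT

open Pool.Agent.Helper16 Pool.Agent.Helper16.BB Pool.Agent.ThF Polynomial

variable {k σ : Type} [Field k] [Finite k] [Finite σ] {I : Set (MvPolynomial σ (RatFunc k))}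
variable {L L' : Type} [Field L] [Algebra k L] [Field L'] [Algebra k L']

theorem tunique_unit {F : Type} [Field F] {G G' A B A' B' : F[X]} (hG : G ≠ 0) (hG' : G' ≠ 0)
    (hA : G * A = G' * A') (hB : G * B = G' * B') (hc : IsCoprime A B) (hc' : IsCoprime A' B') :
    ∃ u : F, u ≠ 0 ∧ A' = C u * A ∧ B' = C u * B := by
  have h1 : G' ∣ G := by
    obtain ⟨U, W, h⟩ := hc
    exact ⟨U * A' + W * B', by linear_combination U * hA + W * hB - G * h⟩
  have h2 : G ∣ G' := by
    obtain ⟨U, W, h⟩ := hc'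
    exact ⟨U * A + W * B, by linear_combination -U * hA - W * hB - G' * h⟩
  obtain ⟨v, hv⟩ := associated_of_dvd_dvd h1 h2
  obtain ⟨u, hu, huv⟩ := Polynomial.isUnit_iff.1 v.isUnit
  have hA' : G' * A' = G' * (C u * A) := by
    rw [← hA, ← hv, huv]
    ring
  have hB' : G' * B' = G' * (C u * B) := by
    rw [← hB, ← hv, huv]
    ring
  exact ⟨u, hu.ne_zero, mul_left_cancel₀ hG' hA', mul_left_cancel₀ hG' hB'⟩

theorem tunique_mkp {ι A : Type} [CommRing A] [Algebra k A] {m : ℕ} (f : Fin (m + 1) → ι)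
    (w : ι → A) (i : ℕ) :
    MvPolynomial.aeval w ((mkp (fun l => (MvPolynomial.X (f l) : MvPolynomial ι k))).coeff i) =
      (mkp (fun l => w (f l))).coeff i := by
  rw [mkp_coeff, mkp_coeff]
  split_ifs with h
  · rw [MvPolynomial.aeval_X]
  · rw [map_zero]

/-- A relation of scaling between coefficients is inherited. -/
theorem tunique_scale {ι A : Type} [CommRing A] [Algebra k A] {m m' : ℕ} (f : Fin (m + 1) → ι)
    (f' : Fin (m' + 1) → ι) (l : ι) (z : ι → L) (w : ι → A)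
    (hw : ∀ q : MvPolynomial ι k, MvPolynomial.aeval z q = 0 → MvPolynomial.aeval w q = 0)
    (hz : mkp (fun i => z (f' i)) = C (z l) * mkp (fun i => z (f i))) :
    mkp (fun i => w (f' i)) = C (w l) * mkp (fun i => w (f i)) := by
  ext i
  have h1 := congrArg (fun p => p.coeff i) hz
  simp only [coeff_C_mul] at h1
  have h2 := hw ((mkp (fun i => (MvPolynomial.X (f' i) : MvPolynomial ι k))).coeff i -
    MvPolynomial.X l * (mkp (fun i => (MvPolynomial.X (f i) : MvPolynomial ι k))).coeff i) (by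
      rw [map_sub, map_mul, tunique_mkp, tunique_mkp, MvPolynomial.aeval_X, h1, sub_self])
  rw [map_sub, map_mul, tunique_mkp, tunique_mkp, MvPolynomial.aeval_X, sub_eq_zero] at h2
  rw [h2, coeff_C_mul]

/-- Classes of parameters which differ by scaling. -/
theorem tunique_theta (hI : ∀ P ∈ I, ∃ d, P.IsHomogeneous d) {n D n' D' e : ℕ} (he : 1 ≤ e)
    {j₀ j₀' : σ} {i₀ i₀' : ℕ} (w₁ : Idx σ n D → AlgebraicClosure k)
    (w₂ : Idx σ n' D' → AlgebraicClosure k)
    (h₁ : PCond I e j₀ i₀ w₁) (h₂ : PCond I e j₀' i₀' w₂) {u v : AlgebraicClosure k} (hu : u ≠ 0)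
    (hv : v ≠ 0) (hAB : ∀ b, pAB w₂ b = C u * pAB w₁ b) (hP : ∀ j, pP w₂ j = C v * pP w₁ j) :
    theta I w₁ = theta I w₂ := by
  obtain ⟨s, hs⟩ := exists_rt h₁.isCoprime e he h₁.top
  have hu' : jc k u ≠ 0 := by simpa using hu
  have hv' : jc k v ≠ 0 := by simpa using hv
  have hs₂ : IsRt (pAB w₂ true) (pAB w₂ false) s := by
    rw [hAB, hAB]
    refine ⟨?_, ?_⟩
    · rw [ev_mul, ev_C]
      exact mul_ne_zero hu' hs.1
    · rw [ev_mul, ev_mul, ev_C, ← hs.2]
      ring
  rw [theta_eq h₁ hs, theta_eq h₂ hs₂]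
  have h3 : (fun j => ev (pP w₂ j) s) = fun j => jc k v * ev (pP w₁ j) s := by
    funext j
    rw [hP, ev_mul, ev_C]
  have h4 := h₂.isPoint hs₂
  rw [h3] at h4 ⊢
  exact (cls_const_mul hI (jc k v) hv' (fun j => ev (pP w₁ j) s) h4).2.symm

theorem trel_unique (hI : ∀ P ∈ I, ∃ d, P.IsHomogeneous d) {a b : L[X]} {Q : σ → L[X]}
    {e e' : ℕ} {τ τ' : Quo (wOne σ) I} (h : TRel I a b Q e τ) (h' : TRel I a b Q e' τ') :
    e = e' ∧ τ = τ' := by
  have hee : e = e' := by
    obtain ⟨n, D, j₀, i₀, x, G, c, y, he, hx, hG, hc, ha, hb, hQ, hy, hτ⟩ := id h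
    rw [trel_deg h hG ha hb hx.isCoprime, trel_deg h' hG ha hb hx.isCoprime]
  refine ⟨hee, ?_⟩
  subst hee
  obtain ⟨n, D, j₀, i₀, x, G, c, y, he, hx, hG, hc, ha, hb, hQ, hy, hτ⟩ := h
  obtain ⟨n', D', j₀', i₀', x', G', c', y', he', hx', hG', hc', ha', hb', hQ', hy', hτ'⟩ := h'
  obtain ⟨u, hu, hA, hB⟩ := tunique_unit hG hG' (ha.symm.trans ha') (hb.symm.trans hb')
    hx.isCoprime hx'.isCoprime
  have hv : c / c' ≠ 0 := div_ne_zero hc hc'
  have hP : ∀ j, pP x' j = C (c / c') * pP x j := by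
    intro j
    have h1 : C c * pP x j = C c' * pP x' j := (hQ j).symm.trans (hQ' j)
    have h2 : (C c' : L[X]) ≠ 0 := by simpa using hc'
    apply mul_left_cancel₀ h2
    rw [← h1, ← mul_assoc, ← C_mul, mul_div_cancel₀ _ hc']
  let ι : Type := Idx σ n D ⊕ (Idx σ n' D' ⊕ Fin 4)
  let z : ι → L := Sum.elim x (Sum.elim x' ![u, u⁻¹, c / c', (c / c')⁻¹])
  obtain ⟨w, hw⟩ := exists_ksp (k := k) z
  let w₁ : Idx σ n D → AlgebraicClosure k := fun i => w (Sum.inl i)
  let w₂ : Idx σ n' D' → AlgebraicClosure k := fun i => w (Sum.inr (Sum.inl i))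
  have hw₁ : ∀ q : MvPolynomial (Idx σ n D) k, MvPolynomial.aeval x q = 0 →
      MvPolynomial.aeval w₁ q = 0 := by
    intro q hq
    have h1 := hw (MvPolynomial.rename Sum.inl q) (by
      rw [MvPolynomial.aeval_rename]
      exact hq)
    rw [MvPolynomial.aeval_rename] at h1
    exact h1
  have hw₂ : ∀ q : MvPolynomial (Idx σ n' D') k, MvPolynomial.aeval x' q = 0 →
      MvPolynomial.aeval w₂ q = 0 := by
    intro q hq
    have h1 := hw (MvPolynomial.rename (Sum.inr ∘ Sum.inl) q) (by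
      rw [MvPolynomial.aeval_rename]
      exact hq)
    rw [MvPolynomial.aeval_rename] at h1
    exact h1
  have hinv : ∀ l l' : ι, z l * z l' = 1 → w l ≠ 0 := by
    intro l l' h1 h2
    have h3 := hw (MvPolynomial.X l * MvPolynomial.X l' - 1) (by
      rw [map_sub, map_mul, MvPolynomial.aeval_X, MvPolynomial.aeval_X, map_one, h1, sub_self])
    rw [map_sub, map_mul, MvPolynomial.aeval_X, MvPolynomial.aeval_X, map_one, h2, zero_mul,
      zero_sub, neg_eq_zero] at h3
    exact one_ne_zero h3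
  have hu₁ : w (Sum.inr (Sum.inr 0)) ≠ 0 :=
    hinv (Sum.inr (Sum.inr 0)) (Sum.inr (Sum.inr 1)) (mul_inv_cancel₀ hu)
  have hv₁ : w (Sum.inr (Sum.inr 2)) ≠ 0 :=
    hinv (Sum.inr (Sum.inr 2)) (Sum.inr (Sum.inr 3)) (mul_inv_cancel₀ hv)
  have hx₁ : PCond I e j₀ i₀ w₁ := (pEq_iff w₁).1 fun q hq => hw₁ q ((pEq_iff x).2 hx q hq)
  have hx₂ : PCond I e j₀' i₀' w₂ := (pEq_iff w₂).1 fun q hq => hw₂ q ((pEq_iff x').2 hx' q hq)
  have h1 : theta I w₁ = theta I y := theta_ker hI he x hx w₁ y hw₁ hy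
  have h2 : theta I w₂ = theta I y' := theta_ker hI he' x' hx' w₂ y' hw₂ hy'
  rw [hτ, hτ', ← h1, ← h2]
  refine tunique_theta hI he w₁ w₂ hx₁ hx₂ hu₁ hv₁ (fun b => ?_) (fun j => ?_)
  · refine tunique_scale (fun i => Sum.inl (Sum.inl (b, i)))
      (fun i => Sum.inr (Sum.inl (Sum.inl (b, i)))) (Sum.inr (Sum.inr 0)) z w hw ?_
    cases b
    · exact hB
    · exact hA
  · exact tunique_scale (fun i => Sum.inl (Sum.inr (Sum.inl (j, i))))
      (fun i => Sum.inr (Sum.inl (Sum.inr (Sum.inl (j, i))))) (Sum.inr (Sum.inr 2)) z w hw (hP j)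

end Pool.Agent.TT
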